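import Mathlib

set_option autoImplicit false
set_option linter.unusedSectionVars false
set_option linter.style.haveILetI false

namespace Pool.Agent.H922R2

section Cyc

variable {G : Type*} [Group G] (A E : Subgroup G)

/-- conjugate into one of the factors or cyclically alternating -/
def CycGoal (φ : G) : Prop :=
  ∃ g : G, g⁻¹ * φ * g ∈ A ∨ g⁻¹ * φ * g ∈ E ∨ ∃ L : List (G × G), L ≠ [] ∧
    (∀ p ∈ L, p.1 ∈ A ∧ p.1 ∉ E ∧ p.2 ∈ E ∧ p.2 ∉ A) ∧
    g⁻¹ * φ * g = (L.map (fun p => p.1 * p.2)).prod

theorem CycGoal.conj {φ h : G} (H : CycGoal A E (h⁻¹ * φ * h)) : CycGoal A E φ := by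
  obtain ⟨g, hg⟩ := H
  refine ⟨h * g, ?_⟩
  have : (h * g)⁻¹ * φ * (h * g) = g⁻¹ * (h⁻¹ * φ * h) * g := by group
  rw [this]
  exact hg

/-- the alternation relation -/
def Alt (u v : G) : Prop := ¬ (u ∈ A ∧ v ∈ A) ∧ ¬ (u ∈ E ∧ v ∈ E)

theorem chain_or (r : G → G → Prop) : ∀ L : List G, List.IsChain r L ∨
    ∃ L1 u v L2, L = L1 ++ u :: v :: L2 ∧ ¬ r u v
  | [] => Or.inl List.IsChain.nil
  | [x] => Or.inl (List.IsChain.singleton x)
  | x :: y :: L => by
    by_cases h : r x y
    · rcases chain_or r (y :: L) with h1 | ⟨L1, u, v, L2, h1, h2⟩
      · left
        exact List.IsChain.cons_cons h h1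
      · right
        exact ⟨x :: L1, u, v, L2, by rw [h1]; rfl, h2⟩
    · right
      exact ⟨[], x, y, L, rfl, h⟩

theorem parse : ∀ n : ℕ, ∀ L : List G, L.length ≤ n → ∀ hne : L ≠ [], List.IsChain (Alt A E) L →
    (∀ x ∈ L, x ∈ A ∨ x ∈ E) → (L.head hne ∈ A) → (L.getLast hne ∈ E) → (2 ≤ L.length) →
    ∃ P : List (G × G), P ≠ [] ∧
    (∀ p ∈ P, p.1 ∈ A ∧ p.1 ∉ E ∧ p.2 ∈ E ∧ p.2 ∉ A) ∧
    L.prod = (P.map (fun p => p.1 * p.2)).prod := by
  intro n
  induction n using Nat.strong_induction_on with
  | _ n ih =>
    intro L hlen hne hch hmem hhead hlast h2
    match L, hne with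
    | [x], _ => simp at h2
    | [x, y], _ =>
      simp only [List.head_cons] at hhead
      have hy : y ∈ E := by simpa using hlast
      have hr : Alt A E x y := by
        rw [List.isChain_cons_cons] at hch; exact hch.1
      refine ⟨[(x, y)], by simp, ?_, by simp⟩
      intro p hp
      rw [List.mem_singleton] at hp
      subst hp
      exact ⟨hhead, fun h => hr.2 ⟨h, hy⟩, hy, fun h => hr.1 ⟨hhead, h⟩⟩
    | x :: y :: z :: M, _ =>
      simp only [List.head_cons] at hhead
      rw [List.isChain_cons_cons, List.isChain_cons_cons] at hch
      obtain ⟨hxy, hyz, hch'⟩ := hch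
      have hyA : y ∉ A := fun h => hxy.1 ⟨hhead, h⟩
      have hyE : y ∈ E := (hmem y (by simp)).resolve_left hyA
      have hzE : z ∉ E := fun h => hyz.2 ⟨hyE, h⟩
      have hzA : z ∈ A := (hmem z (by simp)).resolve_right hzE
      have hxE : x ∉ E := fun h => hxy.2 ⟨h, hyE⟩
      have hM : M ≠ [] := by
        rintro rfl
        apply hzE
        simpa using hlast
      simp only [List.length_cons] at hlen
      obtain ⟨P, hP, hP1, hP2⟩ := ih (n - 2) (by omega) (z :: M) (by simp; omega) (by simp) hch'
        (fun w hw => hmem w (by simp at hw ⊢; tauto)) hzA (by simpa using hlast)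
        (by
          have : M.length ≠ 0 := by rwa [Ne, List.length_eq_zero_iff]
          simp; omega)
      refine ⟨(x, y) :: P, by simp, ?_, ?_⟩
      · intro p hp
        rw [List.mem_cons] at hp
        rcases hp with rfl | hp
        · exact ⟨hhead, hxE, hyE, hyA⟩
        · exact hP1 p hp
      · rw [List.prod_cons, List.prod_cons, hP2, List.map_cons, List.prod_cons, mul_assoc]

theorem cyc_word : ∀ n : ℕ, ∀ L : List G, L.length = n → (∀ x ∈ L, x ∈ A ∨ x ∈ E) →
    CycGoal A E L.prod := by
  intro n
  induction n using Nat.strong_induction_on with
  | _ n ih =>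
    intro L hlen hmem
    rcases chain_or (Alt A E) L with hch | ⟨L1, u, v, L2, hL, hr⟩
    · match L with
      | [] => exact ⟨1, Or.inl (by simpa using A.one_mem)⟩
      | [x] =>
        refine ⟨1, ?_⟩
        rcases hmem x (by simp) with h | h
        · left; simpa using h
        · right; left; simpa using h
      | x :: y :: M =>
        obtain ⟨M', l, hM'⟩ : ∃ M' l, y :: M = M' ++ [l] := by
          rcases List.eq_nil_or_concat (y :: M) with h | ⟨M', l, h⟩
          · simp at h
          · exact ⟨M', l, by simpa using h⟩
        by_cases hrl : Alt A E l x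
        · by_cases hxA : x ∈ A
          · have hlE : l ∈ E := by
              rcases hmem l (by rw [hM']; simp) with h | h
              · exact absurd ⟨h, hxA⟩ hrl.1
              · exact h
            obtain ⟨P, hP, hP1, hP2⟩ := parse A E n (x :: y :: M) hlen.le (by simp) hch hmem hxA
              (by
                have : (x :: y :: M).getLast (by simp) = l := by
                  simp only [hM']
                  simp
                rw [this]; exact hlE) (by simp)
            exact ⟨1, Or.inr (Or.inr ⟨P, hP, hP1, by simpa using hP2⟩)⟩
          · have hxE : x ∈ E := (hmem x (by simp)).resolve_left hxA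
            have hlA : l ∈ A := by
              rcases hmem l (by rw [hM']; simp) with h | h
              · exact h
              · exact absurd ⟨h, hxE⟩ hrl.2
            -- rotate
            apply CycGoal.conj A E (h := l⁻¹)
            have e1 : (l⁻¹)⁻¹ * (x :: y :: M).prod * l⁻¹ = (l :: x :: M').prod := by
              rw [List.prod_cons, hM', List.prod_append, List.prod_cons, List.prod_cons,
                List.prod_cons, List.prod_nil]
              group
            rw [e1]
            have hM'len : (y :: M).length = M'.length + 1 := by rw [hM']; simp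
            have hch2 : List.IsChain (Alt A E) (x :: M' ++ [l]) := by
              have : x :: M' ++ [l] = x :: y :: M := by rw [hM']; rfl
              rw [this]; exact hch
            have hch3 : List.IsChain (Alt A E) (x :: M') := hch2.left_of_append
            obtain ⟨P, hP, hP1, hP2⟩ := parse A E n (l :: x :: M') (by
                simp only [List.length_cons] at hlen hM'len ⊢; omega) (by simp)
              (List.IsChain.cons_cons hrl hch3)
              (by
                intro w hw
                apply hmem
                rw [hM']
                simp at hw ⊢; tauto) hlA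
              (by
                rcases List.eq_nil_or_concat M' with h | ⟨M'', l', h⟩
                · subst h; simpa using hxE
                · rw [List.concat_eq_append] at h
                  subst h
                  have h5 : Alt A E l' l := by
                    have h6 : List.IsChain (Alt A E) ((x :: M'') ++ ([l', l])) := by
                      have : (x :: M'') ++ ([l', l]) = x :: (M'' ++ [l']) ++ [l] := by simp
                      rw [this]; exact hch2
                    have h7 := h6.right_of_append
                    rw [List.isChain_cons_cons] at h7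
                    exact h7.1
                  have h8 : (l :: x :: (M'' ++ [l'])).getLast (by simp) = l' := by simp
                  rw [h8]
                  rcases hmem l' (by rw [hM']; simp) with h9 | h9
                  · exact absurd ⟨h9, hlA⟩ h5.1
                  · exact h9) (by simp)
            exact ⟨1, Or.inr (Or.inr ⟨P, hP, hP1, by simpa using hP2⟩)⟩
        · -- merge cyclically
          apply CycGoal.conj A E (h := l⁻¹)
          have e1 : (l⁻¹)⁻¹ * (x :: y :: M).prod * l⁻¹ = ((l * x) :: M').prod := by
            rw [List.prod_cons, hM', List.prod_append, List.prod_cons, List.prod_cons,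
              List.prod_nil]
            group
          rw [e1]
          have hM'len : (y :: M).length = M'.length + 1 := by rw [hM']; simp
          simp only [List.length_cons] at hlen hM'len
          refine ih (M'.length + 1) (by omega) _ (by simp) ?_
          intro w hw
          rw [List.mem_cons] at hw
          rcases hw with rfl | hw
          · by_cases h1 : l ∈ A ∧ x ∈ A
            · left; exact mul_mem h1.1 h1.2
            · by_cases h2 : l ∈ E ∧ x ∈ E
              · right; exact mul_mem h2.1 h2.2
              · exact absurd ⟨h1, h2⟩ hrl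
          · apply hmem; rw [hM']; simp [hw]
    · have e1 : L.prod = (L1 ++ (u * v) :: L2).prod := by
        rw [hL, List.prod_append, List.prod_append, List.prod_cons, List.prod_cons, List.prod_cons,
          mul_assoc]
      rw [e1]
      subst hL
      simp only [List.length_append, List.length_cons] at hlen
      refine ih (n - 1) (by omega) _ (by simp; omega) ?_
      intro w hw
      rw [List.mem_append, List.mem_cons] at hw
      rcases hw with hw | rfl | hw
      · exact hmem w (by simp [hw])
      · unfold Alt at hr
        by_cases h1 : u ∈ A ∧ v ∈ A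
        · left; exact mul_mem h1.1 h1.2
        · by_cases h2 : u ∈ E ∧ v ∈ E
          · right; exact mul_mem h2.1 h2.2
          · exact absurd ⟨h1, h2⟩ hr
      · exact hmem w (by simp [hw])

theorem cycGoal (h : A ⊔ E = ⊤) (φ : G) : CycGoal A E φ := by
  have h1 : φ ∈ A ⊔ E := by rw [h]; trivial
  rw [Subgroup.sup_eq_closure] at h1
  rw [← Subgroup.mem_toSubmonoid, Subgroup.closure_toSubmonoid] at h1
  obtain ⟨L, hL, rfl⟩ := Submonoid.exists_list_of_mem_closure h1
  apply cyc_word A E L.length L rfl
  intro x hx
  rcases hL x hx with h2 | h2
  · exact h2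
  · rcases h2 with h3 | h3
    · left; exact inv_mem_iff.1 h3
    · right; exact inv_mem_iff.1 h3

end Cyc

end Pool.Agent.H922R2
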