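import Mathlib

set_option autoImplicit false
set_option linter.unusedSectionVars false
set_option linter.style.haveILetI false

namespace Pool.Agent.H922R2

/-! Locally nilpotent derivations. -/

section LND

variable {k : Type*} [Field k] {A : Type*} [CommRing A] [Algebra k A]
variable (D : Derivation k A A)

/-- locally nilpotent -/
def LN : Prop := ∀ r, ∃ N : ℕ, D^[N] r = 0

theorem iter_zero (N : ℕ) : D^[N] 0 = 0 := by
  induction N with
  | zero => rfl
  | succ N ih => rw [Function.iterate_succ_apply, map_zero, ih]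

theorem iter_add (N : ℕ) (a b : A) : D^[N] (a + b) = D^[N] a + D^[N] b := by
  induction N generalizing a b with
  | zero => rfl
  | succ N ih => rw [Function.iterate_succ_apply, map_add, ih]; rfl

theorem iter_ge {N M : ℕ} (h : N ≤ M) {a : A} (ha : D^[N] a = 0) : D^[M] a = 0 := by
  obtain ⟨t, rfl⟩ := Nat.exists_eq_add_of_le h
  rw [add_comm, Function.iterate_add_apply, ha, iter_zero]

theorem iter_mul (N : ℕ) : ∀ n m : ℕ, n + m = N → ∀ a b : A, D^[n + 1] a = 0 → D^[m + 1] b = 0 →
    D^[N] (a * b) = (N.choose n : A) * D^[n] a * D^[m] b := by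
  induction N with
  | zero =>
    intro n m h a b ha hb
    obtain ⟨rfl, rfl⟩ : n = 0 ∧ m = 0 := by omega
    simp
  | succ N ih =>
    intro n m h a b ha hb
    rw [Function.iterate_succ_apply, Derivation.leibniz, iter_add, smul_eq_mul, smul_eq_mul,
      mul_comm b]
    rcases n with _ | n
    · -- D a = 0
      have ha' : D a = 0 := ha
      obtain rfl : m = N + 1 := by omega
      rw [ha', zero_mul, iter_zero, add_zero, ih 0 N (by omega) a (D b) ha (by
        rw [← Function.iterate_succ_apply]; exact hb)]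
      simp
    · rcases m with _ | m
      · have hb' : D b = 0 := hb
        obtain rfl : n = N := by omega
        rw [hb', mul_zero, iter_zero, zero_add, ih n 0 (by omega) (D a) b (by
          rw [← Function.iterate_succ_apply]; exact ha) hb]
        simp
      · rw [ih (n + 1) m (by omega) a (D b) ha (by rw [← Function.iterate_succ_apply]; exact hb),
          ih n (m + 1) (by omega) (D a) b (by rw [← Function.iterate_succ_apply]; exact ha) hb]
        rw [← Function.iterate_succ_apply, ← Function.iterate_succ_apply, Nat.choose_succ_succ]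
        push_cast
        ring

theorem iter_mul_zero {n m : ℕ} {a b : A} (ha : D^[n + 1] a = 0) (hb : D^[m + 1] b = 0) :
    D^[n + m + 1] (a * b) = 0 := by
  rw [Function.iterate_succ_apply', iter_mul D (n + m) n m rfl a b ha hb]
  rw [mul_assoc, Derivation.leibniz, Derivation.leibniz, ← Function.iterate_succ_apply' D n a,
    ← Function.iterate_succ_apply' D m b, ha, hb]
  simp

/-- elements on which `D` is nilpotent -/
def nilSub : Subalgebra k A where
  carrier := {r | ∃ N : ℕ, D^[N] r = 0}
  mul_mem' := by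
    rintro a b ⟨n, hn⟩ ⟨m, hm⟩
    exact ⟨n + m + 1, iter_mul_zero D (iter_ge D (Nat.le_succ n) hn) (iter_ge D (Nat.le_succ m) hm)⟩
  add_mem' := by
    rintro a b ⟨n, hn⟩ ⟨m, hm⟩
    refine ⟨n + m, ?_⟩
    rw [iter_add, iter_ge D (Nat.le_add_right n m) hn, iter_ge D (Nat.le_add_left m n) hm, add_zero]
  algebraMap_mem' := fun r => ⟨1, by simp⟩

theorem exists_top (h : LN D) {r : A} (hr : r ≠ 0) : ∃ n : ℕ, D^[n] r ≠ 0 ∧ D^[n + 1] r = 0 := by
  classical
  have h1 := h r
  have h2 := Nat.find_spec h1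
  have h3 : Nat.find h1 ≠ 0 := by
    intro h4
    rw [h4] at h2
    exact hr h2
  obtain ⟨n, hn⟩ := Nat.exists_eq_succ_of_ne_zero h3
  refine ⟨n, ?_, ?_⟩
  · intro h5
    have := Nat.find_min' h1 h5
    omega
  · rw [hn] at h2; exact h2

variable [IsDomain A] [CharZero A]

theorem iter_mul_ne {n m : ℕ} {a b : A} (ha : D^[n + 1] a = 0) (hb : D^[m + 1] b = 0)
    (ha' : D^[n] a ≠ 0) (hb' : D^[m] b ≠ 0) : D^[n + m] (a * b) ≠ 0 := by
  rw [iter_mul D (n + m) n m rfl a b ha hb]
  refine mul_ne_zero (mul_ne_zero ?_ ha') hb'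
  exact_mod_cast (Nat.choose_pos (Nat.le_add_right n m)).ne'

/-- The kernel of a locally nilpotent derivation is factorially closed. -/
theorem LN.fact (h : LN D) {a b : A} (hab : a * b ≠ 0) (h0 : D (a * b) = 0) : D a = 0 := by
  obtain ⟨n, hn, hn'⟩ := exists_top D h (left_ne_zero_of_mul hab)
  obtain ⟨m, hm, hm'⟩ := exists_top D h (right_ne_zero_of_mul hab)
  have h1 := iter_mul_ne D hn' hm' hn hm
  have h2 : n + m = 0 := by
    by_contra h3
    exact h1 (iter_ge D (N := 1) (by omega) h0)
  obtain rfl : n = 0 := by omega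
  exact hn'

theorem LN.fact' (h : LN D) {a b : A} (hb : b ≠ 0) (h0 : D b = 0) (hab : a ∣ b) : D a = 0 := by
  obtain ⟨c, rfl⟩ := hab
  exact h.fact D hb h0

/-- If `x ∣ D y` and `y ∣ D x` then one of them is in the kernel. -/
theorem LN.dvd_dvd (h : LN D) {x y : A} (h1 : x ∣ D y) (h2 : y ∣ D x) : D x = 0 ∨ D y = 0 := by
  by_contra hcon
  push Not at hcon
  obtain ⟨hx, hy⟩ := hcon
  have hx0 : x ≠ 0 := by rintro rfl; exact hx (map_zero _)
  have hy0 : y ≠ 0 := by rintro rfl; exact hy (map_zero _)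
  obtain ⟨n, hn, hn'⟩ := exists_top D h hx0
  obtain ⟨m, hm, hm'⟩ := exists_top D h hy0
  have key : ∀ {x y : A} {n m : ℕ}, D^[n] x ≠ 0 → D^[n + 1] x = 0 → D^[m + 1] y = 0 → D y ≠ 0 →
      x ∣ D y → n < m := by
    intro x y n m hn hn' hm' hy h1
    obtain ⟨c, hc⟩ := h1
    have hc0 : c ≠ 0 := by rintro rfl; rw [mul_zero] at hc; exact hy hc
    obtain ⟨t, ht, ht'⟩ := exists_top D h hc0
    have h3 := iter_mul_ne D hn' ht' hn ht
    rw [← hc] at h3
    by_contra h4
    exact h3 (iter_ge D (N := m) (by omega) hm')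
  have h3 := key hn hn' hm' hy h1
  have h4 := key hm hm' hn' hx h2
  omega

end LND

end Pool.Agent.H922R2
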