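import Mathlib
import Pool.Agent.H922R2.K9

set_option autoImplicit false
set_option linter.unusedSectionVars false
set_option linter.style.haveILetI false

open MvPolynomial

namespace Pool.Agent.H922R2

/-! Weighted leading forms in two variables. -/

section Psi

variable {k : Type*} [Field k]

/-- the weight of an exponent -/
def wt (w : Fin 2 → ℕ) (t : Fin 2 →₀ ℕ) : ℕ := w 0 * t 0 + w 1 * t 1

theorem wt_add (w : Fin 2 → ℕ) (s t : Fin 2 →₀ ℕ) : wt w (s + t) = wt w s + wt w t := by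
  simp [wt]; ring

theorem wt_single (w : Fin 2 → ℕ) (i : Fin 2) (n : ℕ) : wt w (Finsupp.single i n) = w i * n := by
  fin_cases i <;> simp [wt]

/-- the weighted homogenisation -/
noncomputable def Psi (w : Fin 2 → ℕ) :
    MvPolynomial (Fin 2) k →ₐ[k] Polynomial (MvPolynomial (Fin 2) k) :=
  aeval (fun i => Polynomial.C (X i) * Polynomial.X ^ (w i))

theorem Psi_monomial (w : Fin 2 → ℕ) (t : Fin 2 →₀ ℕ) (a : k) :
    Psi w (monomial t a) = Polynomial.C (monomial t a) * Polynomial.X ^ (wt w t) := by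
  rw [Psi, aeval_monomial, Finsupp.prod_fintype _ _ (by simp), Fin.prod_univ_two]
  rw [monomial_eq, Finsupp.prod_fintype _ _ (by simp), Fin.prod_univ_two, wt]
  rw [Polynomial.C_mul, Polynomial.C_mul, Polynomial.C_pow, Polynomial.C_pow, pow_add, pow_mul,
    pow_mul, mul_pow, mul_pow, Polynomial.algebraMap_apply]
  simp only [MvPolynomial.algebraMap_eq]
  ring

theorem coeff_coeff_Psi (w : Fin 2 → ℕ) (p : MvPolynomial (Fin 2) k) (n : ℕ) (t : Fin 2 →₀ ℕ) :
    coeff t ((Psi w p).coeff n) = if wt w t = n then coeff t p else 0 := by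
  induction p using MvPolynomial.induction_on' with
  | monomial s a =>
    rw [Psi_monomial, Polynomial.coeff_C_mul, Polynomial.coeff_X_pow]
    by_cases h : s = t
    · subst h
      by_cases h2 : n = wt w s
      · simp [h2]
      · simp [h2, Ne.symm h2]
    · split_ifs <;> simp [coeff_monomial, h]
  | add p q hp hq =>
    rw [map_add, Polynomial.coeff_add, coeff_add, hp, hq, coeff_add]
    split_ifs <;> simp

theorem Psi_ne_zero (w : Fin 2 → ℕ) {p : MvPolynomial (Fin 2) k} (hp : p ≠ 0) : Psi w p ≠ 0 := by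
  obtain ⟨t, ht⟩ := MvPolynomial.ne_zero_iff.1 hp
  intro h
  apply ht
  have := coeff_coeff_Psi w p (wt w t) t
  rw [h, if_pos rfl] at this
  rw [← this]; simp

theorem wt_le_natDegree (w : Fin 2 → ℕ) {p : MvPolynomial (Fin 2) k} {t : Fin 2 →₀ ℕ}
    (ht : coeff t p ≠ 0) : wt w t ≤ (Psi w p).natDegree := by
  apply Polynomial.le_natDegree_of_ne_zero
  intro h
  apply ht
  have := coeff_coeff_Psi w p (wt w t) t
  rw [h, if_pos rfl] at this
  rw [← this]; simp

theorem coeff_Psi_pderiv (w : Fin 2 → ℕ) (i : Fin 2) (p : MvPolynomial (Fin 2) k) (n : ℕ) :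
    (Polynomial.X ^ (w i) * Psi w (pderiv i p)).coeff n = pderiv i ((Psi w p).coeff n) := by
  induction p using MvPolynomial.induction_on' with
  | monomial s a =>
    rw [pderiv_monomial, Psi_monomial, Psi_monomial]
    by_cases h : s i = 0
    · rw [h]
      simp only [Nat.cast_zero, mul_zero, map_zero, zero_mul, Polynomial.coeff_zero]
      rw [Polynomial.coeff_C_mul, Polynomial.coeff_X_pow]
      split_ifs
      · rw [mul_one, pderiv_monomial, h]; simp
      · simp
    · have h1 : w i + wt w (s - Finsupp.single i 1) = wt w s := by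
        have h2 : s = (s - Finsupp.single i 1) + Finsupp.single i 1 := by
          rw [tsub_add_cancel_of_le]
          rw [Finsupp.single_le_iff]; omega
        conv_rhs => rw [h2, wt_add, wt_single, mul_one]
        omega
      have h3 : Polynomial.X ^ w i * (Polynomial.C ((monomial (s - Finsupp.single i 1)) (a * (s i : k))) *
          Polynomial.X ^ wt w (s - Finsupp.single i 1)) =
          Polynomial.C ((monomial (s - Finsupp.single i 1)) (a * (s i : k))) * Polynomial.X ^ (wt w s) := by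
        rw [← h1, pow_add]; ring
      rw [h3, Polynomial.coeff_C_mul, Polynomial.coeff_C_mul, Polynomial.coeff_X_pow]
      split_ifs
      · rw [mul_one, mul_one, pderiv_monomial]
      · simp
  | add p q hp hq =>
    rw [map_add, map_add, map_add, mul_add, Polynomial.coeff_add, hp, hq, Polynomial.coeff_add,
      map_add]

/-- the Jacobian derivation -/
noncomputable def DJ (f : MvPolynomial (Fin 2) k) :
    Derivation k (MvPolynomial (Fin 2) k) (MvPolynomial (Fin 2) k) :=
  pderiv 0 f • pderiv 1 - pderiv 1 f • pderiv 0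

theorem DJ_apply (f h : MvPolynomial (Fin 2) k) :
    DJ f h = pderiv 0 f * pderiv 1 h - pderiv 1 f * pderiv 0 h := by
  simp [DJ]

theorem DJ_self (f : MvPolynomial (Fin 2) k) : DJ f f = 0 := by
  rw [DJ_apply]; ring

/-- leading data -/
def Lead (w : Fin 2 → ℕ) (M : ℕ) (h : MvPolynomial (Fin 2) k) (e : ℕ)
    (c : MvPolynomial (Fin 2) k) : Prop :=
  (Polynomial.X ^ M * Psi w h).natDegree ≤ e ∧ (Polynomial.X ^ M * Psi w h).coeff e = c

theorem coeff_shift (w : Fin 2 → ℕ) (M : ℕ) (i : Fin 2) (h : MvPolynomial (Fin 2) k) (n : ℕ) :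
    (Polynomial.X ^ M * (Polynomial.X ^ (w i) * Psi w (pderiv i h))).coeff n =
      pderiv i ((Polynomial.X ^ M * Psi w h).coeff n) := by
  by_cases hM : M ≤ n
  · obtain ⟨n', rfl⟩ := Nat.exists_eq_add_of_le' hM
    rw [Polynomial.coeff_X_pow_mul, Polynomial.coeff_X_pow_mul, coeff_Psi_pderiv]
  · rw [Polynomial.coeff_X_pow_mul', if_neg hM, Polynomial.coeff_X_pow_mul', if_neg hM, map_zero]

theorem Lead.DJ {w : Fin 2 → ℕ} {f F : MvPolynomial (Fin 2) k} {d : ℕ} (hf : Lead w 0 f d F)
    {M : ℕ} {h c : MvPolynomial (Fin 2) k} {e : ℕ} (hh : Lead w M h e c) :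
    Lead w (M + (w 0 + w 1)) (Pool.Agent.H922R2.DJ f h) (d + e) (Pool.Agent.H922R2.DJ F c) := by
  obtain ⟨hf1, hf2⟩ := hf
  obtain ⟨hh1, hh2⟩ := hh
  rw [pow_zero, one_mul] at hf1 hf2
  have key : Polynomial.X ^ (M + (w 0 + w 1)) * Psi w (Pool.Agent.H922R2.DJ f h) =
      (Polynomial.X ^ (w 0) * Psi w (pderiv 0 f)) *
        (Polynomial.X ^ M * (Polynomial.X ^ (w 1) * Psi w (pderiv 1 h))) -
      (Polynomial.X ^ (w 1) * Psi w (pderiv 1 f)) *
        (Polynomial.X ^ M * (Polynomial.X ^ (w 0) * Psi w (pderiv 0 h))) := by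
    rw [DJ_apply, map_sub, map_mul, map_mul]
    ring
  have hA : ∀ i, (Polynomial.X ^ (w i) * Psi w (pderiv i f)).natDegree ≤ d := by
    intro i
    rw [Polynomial.natDegree_le_iff_coeff_eq_zero]
    intro n hn
    rw [coeff_Psi_pderiv, Polynomial.coeff_eq_zero_of_natDegree_lt (lt_of_le_of_lt hf1 hn), map_zero]
  have hB : ∀ i, (Polynomial.X ^ M * (Polynomial.X ^ (w i) * Psi w (pderiv i h))).natDegree ≤ e := by
    intro i
    rw [Polynomial.natDegree_le_iff_coeff_eq_zero]
    intro n hn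
    rw [coeff_shift, Polynomial.coeff_eq_zero_of_natDegree_lt (lt_of_le_of_lt hh1 hn), map_zero]
  refine ⟨?_, ?_⟩
  · rw [key]
    refine (Polynomial.natDegree_sub_le _ _).trans (max_le ?_ ?_)
    · exact Polynomial.natDegree_mul_le_of_le (hA 0) (hB 1)
    · exact Polynomial.natDegree_mul_le_of_le (hA 1) (hB 0)
  · rw [key, Polynomial.coeff_sub, Polynomial.coeff_mul_add_eq_of_natDegree_le (hA 0) (hB 1),
      Polynomial.coeff_mul_add_eq_of_natDegree_le (hA 1) (hB 0), coeff_Psi_pderiv, coeff_Psi_pderiv,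
      coeff_shift, coeff_shift, hf2, hh2, DJ_apply]

theorem Lead.iter {w : Fin 2 → ℕ} {f F : MvPolynomial (Fin 2) k} {d : ℕ} (hf : Lead w 0 f d F)
    {h c : MvPolynomial (Fin 2) k} {e : ℕ} (hh : Lead w 0 h e c) (N : ℕ) :
    ∃ M e', Lead w M ((Pool.Agent.H922R2.DJ f)^[N] h) e' ((Pool.Agent.H922R2.DJ F)^[N] c) := by
  induction N with
  | zero => exact ⟨0, e, hh⟩
  | succ N ih =>
    obtain ⟨M, e', h1⟩ := ih
    rw [Function.iterate_succ_apply', Function.iterate_succ_apply']
    exact ⟨_, _, hf.DJ h1⟩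

theorem Lead_self (w : Fin 2 → ℕ) (p : MvPolynomial (Fin 2) k) :
    Lead w 0 p (Psi w p).natDegree (Psi w p).leadingCoeff := by
  refine ⟨by rw [pow_zero, one_mul], by rw [pow_zero, one_mul]; rfl⟩

theorem Lead_X (w : Fin 2 → ℕ) (i : Fin 2) : Lead w 0 (X i : MvPolynomial (Fin 2) k) (w i) (X i) := by
  have : Psi w (X i : MvPolynomial (Fin 2) k) = Polynomial.C (X i) * Polynomial.X ^ (w i) := by
    simp [Psi]
  refine ⟨?_, ?_⟩
  · rw [pow_zero, one_mul, this]
    exact Polynomial.natDegree_C_mul_X_pow_le _ _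
  · rw [pow_zero, one_mul, this, Polynomial.coeff_C_mul, Polynomial.coeff_X_pow, if_pos rfl, mul_one]

/-- The leading form of a locally nilpotent Jacobian derivation is locally nilpotent. -/
theorem LN_lead (w : Fin 2 → ℕ) (f : MvPolynomial (Fin 2) k) (hf : LN (DJ f)) :
    LN (DJ (Psi w f).leadingCoeff) := by
  have h1 : ∀ i : Fin 2, X i ∈ nilSub (DJ (Psi w f).leadingCoeff) := by
    intro i
    obtain ⟨N, hN⟩ := hf (X i)
    obtain ⟨M, e, h2, h3⟩ := (Lead_self w f).iter (Lead_X w i) N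
    refine ⟨N, ?_⟩
    rw [← h3, hN]
    simp
  have h2 : nilSub (DJ (Psi w f).leadingCoeff) = ⊤ := by
    rw [eq_top_iff, ← MvPolynomial.adjoin_range_X]
    apply Algebra.adjoin_le
    rintro _ ⟨i, rfl⟩
    exact h1 i
  intro r
  have : r ∈ nilSub (DJ (Psi w f).leadingCoeff) := by rw [h2]; trivial
  exact this

end Psi

end Pool.Agent.H922R2
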