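import Mathlib
import Pool.Agent.H922R2.K10

set_option autoImplicit false
set_option linter.unusedSectionVars false
set_option linter.style.haveILetI false

open MvPolynomial

namespace Pool.Agent.H922R2

section Struct

variable {k : Type*} [Field k]

theorem X_dvd_of_support {i : Fin 2} {p : MvPolynomial (Fin 2) k}
    (h : ∀ t, coeff t p ≠ 0 → t i ≠ 0) : X i ∣ p := by
  rw [p.as_sum]
  apply Finset.dvd_sum
  intro t ht
  rw [X_dvd_monomial]
  right
  exact h t (mem_support_iff.1 ht)

theorem support_of_pderiv_eq_zero [CharZero k] {i : Fin 2} {p : MvPolynomial (Fin 2) k}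
    (h : pderiv i p = 0) (t : Fin 2 →₀ ℕ) (ht : coeff t p ≠ 0) : t i = 0 := by
  by_contra hti
  have h1 := coeff_pderiv (i := i) p (t - Finsupp.single i 1)
  have h2 : t - Finsupp.single i 1 + Finsupp.single i 1 = t := by
    rw [tsub_add_cancel_of_le]
    rw [Finsupp.single_le_iff]; omega
  rw [h, h2, coeff_zero] at h1
  have h3 := h1.symm
  rcases mul_eq_zero.1 h3 with h4 | h4
  · exact ht h4
  · exact Nat.cast_add_one_ne_zero _ h4

theorem homogenize_linear (z : k) :
    Polynomial.homogenize (Polynomial.X - Polynomial.C z) 1 = X 0 - C z * X 1 := by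
  rw [sub_eq_add_neg, ← Polynomial.C_neg, Polynomial.homogenize_add, Polynomial.homogenize_X (by norm_num),
    Polynomial.homogenize_C]
  simp [sub_eq_add_neg]

theorem homogenize_linear_pow (z : k) (g : ℕ) :
    Polynomial.homogenize ((Polynomial.X - Polynomial.C z) ^ g) g = (X 0 - C z * X 1) ^ g := by
  induction g with
  | zero => simp
  | succ g ih =>
    rw [pow_succ, Polynomial.homogenize_mul _ _ _ _, ih, homogenize_linear, pow_succ]
    · rw [Polynomial.natDegree_pow, Polynomial.natDegree_X_sub_C, mul_one]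
    · rw [Polynomial.natDegree_X_sub_C]

theorem exists_max_degreeOf {f : MvPolynomial (Fin 2) k} (hf : f ≠ 0) (i : Fin 2) :
    ∃ t, coeff t f ≠ 0 ∧ t i = degreeOf i f := by
  rw [degreeOf_eq_sup]
  obtain ⟨t, ht, h⟩ := Finset.exists_mem_eq_sup f.support (by
    rw [Finset.nonempty_iff_ne_empty, Ne, support_eq_empty]; exact hf) (fun m => m i)
  exact ⟨t, mem_support_iff.1 ht, h.symm⟩

theorem le_degreeOf {f : MvPolynomial (Fin 2) k} (i : Fin 2) {t : Fin 2 →₀ ℕ} (ht : coeff t f ≠ 0) :
    t i ≤ degreeOf i f :=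
  monomial_le_degreeOf i (mem_support_iff.2 ht)

variable [CharZero k]

theorem lead_struct [IsAlgClosed k] (f : MvPolynomial (Fin 2) k) (hf : LN (DJ f)) (g m' n' : ℕ)
    (hg : 0 < g) (hm' : 0 < m') (hn' : 0 < n') (hco : Nat.Coprime m' n')
    (hm : degreeOf 0 f = g * m') (hn : degreeOf 1 f = g * n') :
    (m' = 1 ∨ n' = 1) ∧ (Psi ![n', m'] f).natDegree = n' * (g * m') ∧
      ∃ c z : k, c ≠ 0 ∧ z ≠ 0 ∧
        (Psi ![n', m'] f).leadingCoeff = C c * (X 0 ^ m' - C z * X 1 ^ n') ^ g := by
  set w : Fin 2 → ℕ := ![n', m'] with hw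
  set F := (Psi w f).leadingCoeff with hF
  set d := (Psi w f).natDegree with hd
  have hwt : ∀ t : Fin 2 →₀ ℕ, wt w t = n' * t 0 + m' * t 1 := by intro t; simp [wt, hw]
  have hcF : ∀ t, coeff t F = if wt w t = d then coeff t f else 0 := fun t => coeff_coeff_Psi w f d t
  have hf0 : f ≠ 0 := by
    rintro rfl
    rw [degreeOf_zero] at hm
    have := Nat.mul_pos hg hm'
    omega
  have hF0 : F ≠ 0 := by
    rw [hF, Ne, Polynomial.leadingCoeff_eq_zero]; exact Psi_ne_zero w hf0
  have hgm : 0 < g * m' := Nat.mul_pos hg hm'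
  have hgn : 0 < g * n' := Nat.mul_pos hg hn'
  obtain ⟨t0, ht0, ht0'⟩ := exists_max_degreeOf hf0 0
  obtain ⟨t1, ht1, ht1'⟩ := exists_max_degreeOf hf0 1
  rw [hm] at ht0'
  rw [hn] at ht1'
  have hd0 := wt_le_natDegree w ht0
  have hd1 := wt_le_natDegree w ht1
  rw [← hd, hwt, ht0'] at hd0
  rw [← hd, hwt, ht1'] at hd1
  have hcomm : m' * (g * n') = n' * (g * m') := by ring
  have hb0 : ∀ t, coeff t f ≠ 0 → t 0 ≤ g * m' := fun t ht => hm ▸ le_degreeOf 0 ht
  have hb1 : ∀ t, coeff t f ≠ 0 → t 1 ≤ g * n' := fun t ht => hn ▸ le_degreeOf 1 ht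
  have hFsupp : ∀ t, coeff t F ≠ 0 → coeff t f ≠ 0 ∧ n' * t 0 + m' * t 1 = d := by
    intro t ht
    rw [hcF] at ht
    split_ifs at ht with h
    · exact ⟨ht, by rw [← hwt]; exact h⟩
    · exact absurd rfl ht
  set D := DJ F with hD
  have hLN : LN D := LN_lead w f hf
  have hDF : D F = 0 := DJ_self F
  have hDX0 : D (X 0) = - pderiv 1 F := by rw [hD, DJ_apply]; simp
  have hDX1 : D (X 1) = pderiv 0 F := by rw [hD, DJ_apply]; simp
  -- the derivation does not kill a variable
  have hX0 : D (X 0) ≠ 0 := by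
    intro h
    rw [hDX0, neg_eq_zero] at h
    obtain ⟨t, ht⟩ := MvPolynomial.ne_zero_iff.1 hF0
    have h1 := support_of_pderiv_eq_zero h t ht
    obtain ⟨h2, h3⟩ := hFsupp t ht
    rw [h1, mul_zero, add_zero] at h3
    have h4 := hb0 t h2
    have h5 : n' * t 0 ≤ n' * (g * m') := Nat.mul_le_mul_left _ h4
    have h6 : coeff t1 F ≠ 0 := by
      rw [hcF, if_pos]
      · exact ht1
      · rw [hwt, ht1']; omega
    have h7 := support_of_pderiv_eq_zero h t1 h6
    omega
  have hX1 : D (X 1) ≠ 0 := by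
    intro h
    rw [hDX1] at h
    obtain ⟨t, ht⟩ := MvPolynomial.ne_zero_iff.1 hF0
    have h1 := support_of_pderiv_eq_zero h t ht
    obtain ⟨h2, h3⟩ := hFsupp t ht
    rw [h1, mul_zero, zero_add] at h3
    have h4 := hb1 t h2
    have h5 : m' * t 1 ≤ m' * (g * n') := Nat.mul_le_mul_left _ h4
    have h6 : coeff t0 F ≠ 0 := by
      rw [hcF, if_pos]
      · exact ht0
      · rw [hwt, ht0']; omega
    have h7 := support_of_pderiv_eq_zero h t0 h6
    omega
  -- pure powers
  have hY : d = n' * (g * m') ∧ ∃ t, coeff t f ≠ 0 ∧ t 0 = 0 ∧ t 1 = g * n' := by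
    by_contra hcon
    apply hX0
    apply hLN.fact' D hF0 hDF
    apply X_dvd_of_support
    intro t ht h0
    apply hcon
    obtain ⟨h2, h3⟩ := hFsupp t ht
    rw [h0, mul_zero, zero_add] at h3
    have h4 := hb1 t h2
    have h5 : m' * t 1 ≤ m' * (g * n') := Nat.mul_le_mul_left _ h4
    refine ⟨by omega, t, h2, h0, ?_⟩
    have h6 : m' * t 1 = m' * (g * n') := by omega
    exact Nat.eq_of_mul_eq_mul_left hm' h6
  obtain ⟨hdval, tY, htY, htY0, htY1⟩ := hY
  have hXX : ∃ t, coeff t f ≠ 0 ∧ t 1 = 0 ∧ t 0 = g * m' := by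
    by_contra hcon
    apply hX1
    apply hLN.fact' D hF0 hDF
    apply X_dvd_of_support
    intro t ht h0
    apply hcon
    obtain ⟨h2, h3⟩ := hFsupp t ht
    rw [h0, mul_zero, add_zero] at h3
    refine ⟨t, h2, h0, ?_⟩
    have h6 : n' * t 0 = n' * (g * m') := by omega
    exact Nat.eq_of_mul_eq_mul_left hn' h6
  obtain ⟨tX, htX, htX1, htX0⟩ := hXX
  -- the one variable polynomial
  let ex : ℕ → ℕ → (Fin 2 →₀ ℕ) := fun a b => Finsupp.single 0 (m' * a) + Finsupp.single 1 (n' * b)
  have hex0 : ∀ a b, (ex a b) 0 = m' * a := by intro a b; simp [ex]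
  have hex1 : ∀ a b, (ex a b) 1 = n' * b := by intro a b; simp [ex]
  set q : Polynomial k := ∑ s ∈ Finset.range (g + 1), Polynomial.C (coeff (ex s (g - s)) f) *
    Polynomial.X ^ s with hq
  have hqc : ∀ a, a ≤ g → q.coeff a = coeff (ex a (g - a)) f := by
    intro a ha
    rw [hq, Polynomial.finsetSum_coeff]
    simp only [Polynomial.coeff_C_mul, Polynomial.coeff_X_pow]
    simp [Finset.sum_ite_eq]
    intro h; omega
  have hqd : q.natDegree ≤ g := by
    rw [hq]
    apply Polynomial.natDegree_sum_le_of_forall_le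
    intro i hi
    rw [Finset.mem_range] at hi
    exact (Polynomial.natDegree_C_mul_X_pow_le _ _).trans (by omega)
  set Φ : MvPolynomial (Fin 2) k →ₐ[k] MvPolynomial (Fin 2) k := aeval ![X 0 ^ m', X 1 ^ n'] with hΦ
  have hΦm : ∀ a b : ℕ, ∀ c : k, Φ (monomial (fun₀ | 0 => a | 1 => b) c) = monomial (ex a b) c := by
    intro a b c
    rw [hΦ, aeval_monomial, Finsupp.prod_fintype _ _ (by simp), Fin.prod_univ_two]
    rw [monomial_eq, Finsupp.prod_fintype _ _ (by simp), Fin.prod_univ_two, hex0, hex1]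
    simp [← pow_mul]
  have hFq : F = Φ (Polynomial.homogenize q g) := by
    have e1 : Φ (Polynomial.homogenize q g) =
        ∑ kl ∈ Finset.HasAntidiagonal.antidiagonal g, monomial (ex kl.1 kl.2) (q.coeff kl.1) := by
      rw [Polynomial.homogenize, map_sum]
      exact Finset.sum_congr rfl fun kl _ => hΦm _ _ _
    rw [e1]
    ext t
    rw [coeff_sum, hcF]
    simp only [coeff_monomial]
    split_ifs with h
    · rw [hwt, hdval] at h
      have h1 : n' ∣ t 1 := by
        have h2 : n' ∣ m' * t 1 := by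
          have : m' * t 1 = n' * (g * m') - n' * t 0 := by omega
          rw [this, ← Nat.mul_sub]
          exact dvd_mul_right _ _
        exact (Nat.Coprime.dvd_of_dvd_mul_left hco.symm h2)
      obtain ⟨b, hb⟩ := h1
      have h2 : t 0 + m' * b = g * m' := by
        have : n' * (t 0 + m' * b) = n' * (g * m') := by rw [← h, hb]; ring
        exact Nat.eq_of_mul_eq_mul_left hn' this
      have h3 : b ≤ g := by
        by_contra hcon
        have : m' * (g + 1) ≤ m' * b := Nat.mul_le_mul_left _ (by omega)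
        nlinarith
      have ht : ex (g - b) b = t := by
        ext i
        fin_cases i
        · change (ex (g - b) b) 0 = t 0
          rw [hex0, Nat.mul_sub]
          have : m' * g = g * m' := by ring
          omega
        · change (ex (g - b) b) 1 = t 1
          rw [hex1, hb]
      rw [Finset.sum_eq_single (g - b, b)]
      · rw [if_pos ht, hqc _ (by omega)]
        have : g - (g - b) = b := by omega
        rw [this, ht]
      · rintro ⟨a', b'⟩ hab hne
        rw [if_neg]
        intro h4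
        apply hne
        rw [Finset.HasAntidiagonal.mem_antidiagonal] at hab
        simp only at hab h4
        have h5 : (ex a' b') 1 = t 1 := by rw [h4]
        rw [hex1, hb] at h5
        have h6 : b' = b := Nat.eq_of_mul_eq_mul_left hn' h5
        ext
        · simp only; omega
        · simp only; omega
      · intro h4
        exfalso; apply h4
        rw [Finset.HasAntidiagonal.mem_antidiagonal]
        simp only; omega
    · symm
      apply Finset.sum_eq_zero
      rintro ⟨a', b'⟩ hab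
      rw [Finset.HasAntidiagonal.mem_antidiagonal] at hab
      simp only at hab
      rw [if_neg]
      intro h4
      apply h
      rw [hwt, ← h4, hex0, hex1, hdval, ← hab]
      ring
  have hqg : q.coeff g ≠ 0 := by
    rw [hqc g le_rfl]
    have : ex g (g - g) = tX := by
      ext i
      fin_cases i
      · change (ex g (g - g)) 0 = tX 0
        rw [hex0, htX0]; ring
      · change (ex g (g - g)) 1 = tX 1
        rw [hex1, htX1]; simp
    rw [this]; exact htX
  have hq0 : q.coeff 0 ≠ 0 := by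
    rw [hqc 0 (by omega)]
    have : ex 0 (g - 0) = tY := by
      ext i
      fin_cases i
      · change (ex 0 (g - 0)) 0 = tY 0
        rw [hex0, htY0]; ring
      · change (ex 0 (g - 0)) 1 = tY 1
        rw [hex1, htY1]; simp; ring
    rw [this]; exact htY
  have hqn : q.natDegree = g := le_antisymm hqd (Polynomial.le_natDegree_of_ne_zero hqg)
  have hqne : q ≠ 0 := by rintro h; rw [h] at hq0; simp at hq0
  -- roots
  have hroot : ∀ z, z ∈ q.roots → D (X 0 ^ m' - C z * X 1 ^ n') = 0 := by
    intro z hz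
    apply hLN.fact' D hF0 hDF
    obtain ⟨q1, hq1⟩ := Polynomial.dvd_iff_isRoot.2 ((Polynomial.mem_roots hqne).1 hz)
    have hq1d : q1.natDegree ≤ g - 1 := by
      have h1 : q1 ≠ 0 := by rintro rfl; rw [mul_zero] at hq1; exact hqne hq1
      have := Polynomial.natDegree_mul (Polynomial.X_sub_C_ne_zero z) h1
      rw [← hq1, hqn, Polynomial.natDegree_X_sub_C] at this
      omega
    have h2 : Polynomial.homogenize q g = (X 0 - C z * X 1) * Polynomial.homogenize q1 (g - 1) := by
      rw [← homogenize_linear, ← Polynomial.homogenize_mul _ _ (by rw [Polynomial.natDegree_X_sub_C]) hq1d,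
        ← hq1]
      congr 1
      omega
    rw [hFq, h2, map_mul]
    apply Dvd.intro (Φ (Polynomial.homogenize q1 (g - 1)))
    congr 1
    simp [hΦ]
  obtain ⟨z, hz⟩ : ∃ z, q.IsRoot z := IsAlgClosed.exists_root q (by
    rw [Polynomial.degree_eq_natDegree hqne, hqn]
    exact_mod_cast hg.ne')
  have hz' : z ∈ q.roots := (Polynomial.mem_roots hqne).2 hz
  have hall : ∀ y ∈ q.roots, y = z := by
    intro y hy
    by_contra hne
    have h1 := hroot y hy
    have h2 := hroot z hz'
    have h3 : D ((X 1) ^ n') = 0 := by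
      have h4 : (X 1 ^ n' : MvPolynomial (Fin 2) k) = C (y - z)⁻¹ *
          ((X 0 ^ m' - C z * X 1 ^ n') - (X 0 ^ m' - C y * X 1 ^ n')) := by
        have : C (y - z)⁻¹ * ((X 0 ^ m' - C z * X 1 ^ n') - (X 0 ^ m' - C y * X 1 ^ n')) =
          C (y - z)⁻¹ * C (y - z) * (X 1 ^ n' : MvPolynomial (Fin 2) k) := by
          rw [C_sub]; ring
        rw [this, ← C_mul, inv_mul_cancel₀ (sub_ne_zero.2 hne), C_1, one_mul]
      rw [h4, Derivation.leibniz, map_sub, h1, h2]
      simp
    have h5 : (X 1 ^ n' : MvPolynomial (Fin 2) k) ≠ 0 := pow_ne_zero _ (X_ne_zero 1)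
    exact hX1 (hLN.fact' D h5 h3 (dvd_pow_self _ hn'.ne'))
  have hsplit : q.Splits := IsAlgClosed.splits q
  have hq2 : q = Polynomial.C q.leadingCoeff * (Polynomial.X - Polynomial.C z) ^ g := by
    have h1 := hsplit.eq_prod_roots
    have h2 : q.roots = Multiset.replicate g z := by
      rw [Multiset.eq_replicate]
      refine ⟨?_, hall⟩
      rw [← hqn]
      exact (hsplit.natDegree_eq_card_roots).symm
    rw [h2] at h1
    simpa using h1
  have hc0 : q.leadingCoeff ≠ 0 := Polynomial.leadingCoeff_ne_zero.2 hqne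
  have hz0 : z ≠ 0 := by
    rintro rfl
    apply hq0
    rw [hq2]
    simp only [Polynomial.C_0, sub_zero, Polynomial.coeff_C_mul, Polynomial.coeff_X_pow]
    rw [if_neg (by omega), mul_zero]
  have hFform : F = C q.leadingCoeff * (X 0 ^ m' - C z * X 1 ^ n') ^ g := by
    rw [hFq]
    conv_lhs => rw [hq2]
    rw [Polynomial.homogenize_C_mul, homogenize_linear_pow, map_mul, map_pow]
    congr 1
    · simp [hΦ]
    · simp [hΦ]
  refine ⟨?_, hdval, q.leadingCoeff, z, hc0, hz0, hFform⟩
  by_contra hcon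
  push Not at hcon
  obtain ⟨h1, h2⟩ := hcon
  have key := hLN.dvd_dvd D (x := X 0) (y := X 1) ?_ ?_
  · rcases key with h | h
    · exact hX0 h
    · exact hX1 h
  · rw [hDX1, hFform]
    obtain ⟨m'', rfl⟩ : ∃ m'', m' = m'' + 2 := ⟨m' - 2, by omega⟩
    rw [Derivation.leibniz, Derivation.leibniz_pow, map_sub, Derivation.leibniz_pow]
    simp only [pderiv_X_self, Derivation.leibniz, Derivation.leibniz_pow, pderiv_C,
      pderiv_X_of_ne (show (1 : Fin 2) ≠ 0 by decide), smul_zero, smul_eq_mul, mul_zero, add_zero,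
      sub_zero, mul_one]
    apply Dvd.dvd.mul_left
    rw [nsmul_eq_mul, nsmul_eq_mul]
    apply Dvd.dvd.mul_left
    apply Dvd.dvd.mul_left
    apply Dvd.dvd.mul_left
    exact dvd_pow_self _ (by omega)
  · rw [hDX0, hFform, dvd_neg]
    obtain ⟨n'', rfl⟩ : ∃ n'', n' = n'' + 2 := ⟨n' - 2, by omega⟩
    rw [Derivation.leibniz, Derivation.leibniz_pow, map_sub, Derivation.leibniz_pow]
    simp only [pderiv_X_self, Derivation.leibniz, Derivation.leibniz_pow, pderiv_C,
      pderiv_X_of_ne (show (0 : Fin 2) ≠ 1 by decide), smul_zero, smul_eq_mul, mul_zero, add_zero,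
      zero_sub, mul_one]
    apply Dvd.dvd.mul_left
    rw [nsmul_eq_mul, nsmul_eq_mul]
    apply Dvd.dvd.mul_left
    apply Dvd.dvd.mul_left
    rw [dvd_neg]
    apply Dvd.dvd.mul_left
    apply Dvd.dvd.mul_left
    exact dvd_pow_self _ (by omega)

end Struct

end Pool.Agent.H922R2
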