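import Mathlib

set_option autoImplicit false

open MvPolynomial

namespace Pool.Agent.H922R2

universe u v w

section Etale

variable {k : Type u} [Field k] {σ : Type v} [Fintype σ] [DecidableEq σ]
variable {A : Type w} [CommRing A] [Algebra k A] [Algebra A (MvPolynomial σ k)]
  [IsScalarTower k A (MvPolynomial σ k)]

/-- constants-coefficients inclusion -/
noncomputable def secMap (k : Type u) [Field k] (σ : Type v) (A : Type w) [CommRing A] [Algebra k A] :
    MvPolynomial σ k →ₐ[k] MvPolynomial σ A :=
  aeval (fun i => X i)

omit [Fintype σ] [DecidableEq σ] in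
theorem aeval_secMap (r : MvPolynomial σ k) :
    aeval (R := A) (X : σ → MvPolynomial σ k) (secMap k σ A r) = r := by
  have : ((aeval (R := A) (X : σ → MvPolynomial σ k)).restrictScalars k).comp
      (secMap k σ A) = AlgHom.id k _ := by
    apply MvPolynomial.algHom_ext
    intro i
    simp [secMap]
  exact DFunLike.congr_fun this r

theorem span_eq_ker (e : MvPolynomial σ k ≃ₐ[k] A) (F : σ → MvPolynomial σ k)
    (hF : ∀ i, algebraMap A (MvPolynomial σ k) (e (X i)) = F i) :
    Ideal.span (Set.range fun i : σ => (secMap k σ A (F i) - C (e (X i)))) =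
      RingHom.ker (aeval (R := A) (X : σ → MvPolynomial σ k)) := by
  apply le_antisymm
  · rw [Ideal.span_le]
    rintro _ ⟨i, rfl⟩
    simp only [SetLike.mem_coe, RingHom.mem_ker, map_sub]
    rw [aeval_secMap, aeval_C, hF, sub_self]
  · intro p hp
    set I := Ideal.span (Set.range fun i : σ => (secMap k σ A (F i) - C (e (X i)))) with hI
    have key : (Ideal.Quotient.mk I : MvPolynomial σ A →+* _) =
        ((Ideal.Quotient.mk I).comp (secMap k σ A : MvPolynomial σ k →+* _)).comp
          (aeval (R := A) (X : σ → MvPolynomial σ k) : MvPolynomial σ A →+* _) := by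
      apply MvPolynomial.ringHom_ext
      · intro s
        obtain ⟨t, rfl⟩ := e.surjective s
        -- two ring homs on the source polynomial ring
        have h2 : ((Ideal.Quotient.mkₐ k I).comp ((Algebra.ofId A (MvPolynomial σ A)).restrictScalars k)).comp
            (e : MvPolynomial σ k →ₐ[k] A) =
            ((Ideal.Quotient.mkₐ k I).comp (secMap k σ A)).comp
              (((Algebra.ofId A (MvPolynomial σ k)).restrictScalars k).comp
                (e : MvPolynomial σ k →ₐ[k] A)) := by
          apply MvPolynomial.algHom_ext
          intro i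
          change (Ideal.Quotient.mk I) (C (e (X i))) =
            (Ideal.Quotient.mk I) (secMap k σ A (algebraMap A (MvPolynomial σ k) (e (X i))))
          rw [hF, Ideal.Quotient.eq]
          have h3 : -((C (e (X i)) : MvPolynomial σ A) - secMap k σ A (F i)) ∈ I := by
            rw [neg_sub]
            exact Ideal.subset_span ⟨i, rfl⟩
          exact (Ideal.neg_mem_iff _).1 h3
        have h4 := DFunLike.congr_fun h2 t
        change (Ideal.Quotient.mk I) (C (e t)) =
            (Ideal.Quotient.mk I) (secMap k σ A (algebraMap A (MvPolynomial σ k) (e t))) at h4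
        simp only [RingHom.comp_apply, RingHom.coe_coe, aeval_C]
        exact h4
      · intro i
        simp [secMap]
    have h5 := RingHom.congr_fun key p
    have h6 : (aeval (R := A) (X : σ → MvPolynomial σ k)) p = 0 := hp
    simp only [RingHom.comp_apply, RingHom.coe_coe, h6, map_zero] at h5
    exact Ideal.Quotient.eq_zero_iff_mem.1 h5

/-- The submersive presentation. -/
noncomputable def pres (e : MvPolynomial σ k ≃ₐ[k] A) (F : σ → MvPolynomial σ k)
    (hF : ∀ i, algebraMap A (MvPolynomial σ k) (e (X i)) = F i) :
    Algebra.PreSubmersivePresentation A (MvPolynomial σ k) σ σ where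
  val := X
  σ' := secMap k σ A
  aeval_val_σ' := aeval_secMap
  relation i := secMap k σ A (F i) - C (e (X i))
  span_range_relation_eq_ker := span_eq_ker e F hF
  map := id
  map_inj := Function.injective_id

theorem aeval_pderiv_secMap (j : σ) (r : MvPolynomial σ k) :
    aeval (R := A) (X : σ → MvPolynomial σ k) (pderiv j (secMap k σ A r)) = pderiv j r := by
  induction r using MvPolynomial.induction_on with
  | C a =>
    have : secMap k σ A (C a) = C (algebraMap k A a) := by
      simp [secMap]
    rw [this]; simp
  | add p q hp hq => simp [hp, hq]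
  | mul_X p i hp =>
    rw [map_mul, (pderiv j).leibniz, (pderiv j).leibniz]
    have hX : secMap k σ A (X i) = X i := by simp [secMap]
    simp only [smul_eq_mul, map_add, map_mul, hX, hp, aeval_secMap, aeval_X]
    congr 1
    by_cases h : i = j
    · subst h; simp
    · simp [pderiv_X_of_ne h]

theorem isUnit_jac (e : MvPolynomial σ k ≃ₐ[k] A) (F : σ → MvPolynomial σ k)
    (hF : ∀ i, algebraMap A (MvPolynomial σ k) (e (X i)) = F i)
    (hJ : IsUnit (Matrix.of fun i j => pderiv j (F i)).det) :
    IsUnit (pres e F hF).jacobian := by
  rw [(pres e F hF).jacobian_eq_jacobiMatrix_det, (pres e F hF).algebraMap_eq, RingHom.map_det]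
  have : ((aeval (pres e F hF).val : MvPolynomial σ A →ₐ[A] MvPolynomial σ k) :
      MvPolynomial σ A →+* MvPolynomial σ k).mapMatrix
      (pres e F hF).jacobiMatrix = (Matrix.of fun i j => pderiv j (F i)).transpose := by
    ext1 i j
    rw [RingHom.mapMatrix_apply, Matrix.map_apply, (pres e F hF).jacobiMatrix_apply]
    change aeval (R := A) (X : σ → MvPolynomial σ k) (pderiv i (secMap k σ A (F j) - C (e (X j)))) = _
    rw [map_sub, pderiv_C, sub_zero, aeval_pderiv_secMap]
    rfl
  rw [this, Matrix.det_transpose]
  exact hJ

theorem etale (e : MvPolynomial σ k ≃ₐ[k] A) (F : σ → MvPolynomial σ k)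
    (hF : ∀ i, algebraMap A (MvPolynomial σ k) (e (X i)) = F i)
    (hJ : IsUnit (Matrix.of fun i j => pderiv j (F i)).det) :
    Algebra.Etale A (MvPolynomial σ k) := by
  have : Algebra.IsStandardSmoothOfRelativeDimension 0 A (MvPolynomial σ k) :=
    Algebra.SubmersivePresentation.isStandardSmoothOfRelativeDimension
      { toPreSubmersivePresentation := pres e F hF
        jacobian_isUnit := isUnit_jac e F hF hJ } (by
        simp [Algebra.Presentation.dimension])
  infer_instance

end Etale

end Pool.Agent.H922R2
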