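import Mathlib
import Pool.Agent.H922R2.K1

set_option autoImplicit false
set_option linter.unusedSectionVars false
set_option linter.style.haveILetI false

open MvPolynomial

namespace Pool.Agent.H922R2

universe u v w

variable {k : Type u} [Field k] {σ : Type v} [Fintype σ] [DecidableEq σ]

/-- Chain rule for derivations. -/
theorem deriv_aeval {B : Type*} [CommRing B] [Algebra k B] (D : Derivation k B B) (F : σ → B)
    (P : MvPolynomial σ k) :
    D (aeval F P) = ∑ i, aeval F (pderiv i P) * D (F i) := by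
  induction P using MvPolynomial.induction_on with
  | C a => simp
  | add p q hp hq => simp [hp, hq, add_mul, Finset.sum_add_distrib]
  | mul_X p i hp =>
    rw [map_mul, D.leibniz, hp, aeval_X]
    simp only [Derivation.leibniz, smul_eq_mul, map_add, map_mul, aeval_X, add_mul,
      Finset.sum_add_distrib]
    congr 1
    · rw [Finset.sum_eq_single i]
      · simp
      · intro j _ hj
        simp [pderiv_X_of_ne hj.symm]
      · simp
    · rw [Finset.mul_sum]
      apply Finset.sum_congr rfl
      intro j _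
      ring

/-- The Jacobian matrix. -/
noncomputable abbrev jac (F : σ → MvPolynomial σ k) : Matrix σ σ (MvPolynomial σ k) :=
  Matrix.of fun i j => pderiv j (F i)

section Inj
variable [CharZero k]

omit [Fintype σ] in
theorem eq_C_of_pderiv_eq_zero (P : MvPolynomial σ k) (h : ∀ i, pderiv i P = 0) :
    P = C (coeff 0 P) := by
  ext m
  rw [coeff_C]
  split_ifs with hm
  · rw [← hm]
  · by_contra hne
    obtain ⟨i, hi⟩ : ∃ i, m i ≠ 0 := by
      by_contra hcon
      push Not at hcon
      exact hm (by ext i; simp [hcon i])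
    have h1 : coeff (m - Finsupp.single i 1) (pderiv i P) = 0 := by rw [h i]; simp
    have h3 : m - (Finsupp.single i 1 : σ →₀ ℕ) + Finsupp.single i 1 = m :=
      tsub_add_cancel_of_le (by
        rw [Finsupp.single_le_iff]; omega)
    rw [coeff_pderiv, h3] at h1
    rcases mul_eq_zero.1 h1 with h4 | h4
    · exact hne h4
    · have : ((m i : ℕ) : k) ≠ 0 := by exact_mod_cast hi
      apply this
      have h5 : (m - (Finsupp.single i 1 : σ →₀ ℕ)) i + 1 = m i := by
        simp; omega
      rw [← h5]; push_cast; exact h4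

/-- Multiplying a vector by an invertible matrix. -/
theorem vec_zero_of_isUnit_det {A : Type*} [CommRing A] (M : Matrix σ σ A) (hM : IsUnit M.det)
    (v : σ → A) (h : ∀ j, ∑ i, v i * M i j = 0) : v = 0 := by
  have h1 : Matrix.vecMul v M = 0 := by
    ext j; simpa [Matrix.vecMul, dotProduct] using h j
  have h2 : Matrix.vecMul (Matrix.vecMul v M) M⁻¹ = v := by
    rw [Matrix.vecMul_vecMul, Matrix.mul_nonsing_inv _ hM, Matrix.vecMul_one]
  rw [← h2, h1, Matrix.zero_vecMul]

theorem totalDegree_pderiv_lt (P : MvPolynomial σ k) (i : σ) (h : pderiv i P ≠ 0) :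
    (pderiv i P).totalDegree < P.totalDegree := by
  have key : ∀ m ∈ (pderiv i P).support, (m.sum fun _ e => e) + 1 ≤ P.totalDegree := by
    intro m hm
    rw [mem_support_iff, coeff_pderiv] at hm
    have h1 : m + Finsupp.single i 1 ∈ P.support := by
      rw [mem_support_iff]
      intro h0
      rw [h0, zero_mul] at hm
      exact hm rfl
    have h2 := le_totalDegree h1
    rw [Finsupp.sum_add_index' (by simp) (by simp)] at h2
    simpa using h2
  obtain ⟨m, hm, hm2⟩ := (totalDegree_eq (pderiv i P)).symm ▸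
    Finset.exists_mem_eq_sup (pderiv i P).support (by
      rwa [Finset.nonempty_iff_ne_empty, Ne, support_eq_empty]) (fun m => m.toMultiset.card)
  have := key m hm
  rw [hm2, Finsupp.card_toMultiset]
  exact this

theorem aeval_injective (F : σ → MvPolynomial σ k) (hJ : IsUnit (jac F).det) :
    Function.Injective (aeval F : MvPolynomial σ k →ₐ[k] MvPolynomial σ k) := by
  rw [injective_iff_map_eq_zero]
  intro P
  induction hn : P.totalDegree using Nat.strong_induction_on generalizing P with
  | _ n ih =>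
    intro hP
    have h1 : (fun i => aeval F (pderiv i P)) = (0 : σ → MvPolynomial σ k) := by
      apply vec_zero_of_isUnit_det (jac F) hJ
      intro j
      have := deriv_aeval (pderiv j) F P
      rw [hP, map_zero] at this
      exact this.symm
    have h2 : ∀ i, pderiv i P = 0 := by
      intro i
      by_contra hne
      exact hne (ih _ (hn ▸ totalDegree_pderiv_lt P i hne) _ rfl (congrFun h1 i))
    rw [eq_C_of_pderiv_eq_zero P h2] at hP ⊢
    rw [aeval_C] at hP
    simpa using hP

end Inj

section Down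

variable [CharZero k] (F : σ → MvPolynomial σ k) (hJ : IsUnit (Matrix.det (jac F)))
include hJ

omit hJ [CharZero k] in
/-- The source algebra as a subalgebra. -/
noncomputable abbrev SS (F : σ → MvPolynomial σ k) : Subalgebra k (MvPolynomial σ k) :=
  (aeval F : MvPolynomial σ k →ₐ[k] MvPolynomial σ k).range

/-- The isomorphism onto the source. -/
noncomputable def eqS : MvPolynomial σ k ≃ₐ[k] SS F :=
  AlgEquiv.ofInjective (aeval F) (aeval_injective F hJ)

theorem eqS_coe (p : MvPolynomial σ k) : ((eqS F hJ p : SS F) : MvPolynomial σ k) = aeval F p := rfl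

theorem etaleS : Algebra.Etale (SS F) (MvPolynomial σ k) := by
  apply etale (eqS F hJ) F _ hJ
  intro i
  change ((eqS F hJ (X i) : SS F) : MvPolynomial σ k) = F i
  rw [eqS_coe, aeval_X]

/-- A prime of the big ring lies over a principal prime. -/
theorem exists_prime_dvd (q a b : MvPolynomial σ k) (hq : Prime q)
    (hqa : q ∣ aeval F a) (hqb : q ∣ aeval F b) (ha : a ≠ 0) :
    ∃ π : MvPolynomial σ k, Prime π ∧ π ∣ a ∧ π ∣ b := by
  haveI := etaleS F hJ
  haveI : UniqueFactorizationMonoid (SS F) :=
    (eqS F hJ).toMulEquiv.uniqueFactorizationMonoid inferInstance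
  let Q : Ideal (MvPolynomial σ k) := Ideal.span {q}
  haveI hQ : Q.IsPrime := (Ideal.span_singleton_prime hq.ne_zero).2 hq
  let P : Ideal (SS F) := Q.under (SS F)
  haveI hP : P.IsPrime := inferInstance
  have hmem : ∀ c : MvPolynomial σ k, q ∣ aeval F c → eqS F hJ c ∈ P := by
    intro c hc
    change algebraMap (SS F) (MvPolynomial σ k) (eqS F hJ c) ∈ Q
    rw [Ideal.mem_span_singleton]
    exact hc
  have haP := hmem a hqa
  have hbP := hmem b hqb
  have hP0 : P ≠ ⊥ := by
    intro h0
    rw [h0, Ideal.mem_bot, EmbeddingLike.map_eq_zero_iff] at haP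
    exact ha haP
  obtain ⟨π, hπP, hπ⟩ := Ideal.IsPrime.exists_mem_prime_of_ne_bot hP hP0
  have hle : Ideal.span {π} ≤ P := by
    rw [Ideal.span_singleton_le_iff_mem]; exact hπP
  haveI hπi : (Ideal.span {π}).IsPrime := (Ideal.span_singleton_prime hπ.ne_zero).2 hπ
  have heq : Ideal.span {π} = P := by
    by_contra hne
    have hlt : Ideal.span {π} < P := lt_of_le_of_ne hle hne
    haveI : Q.LiesOver P := ⟨rfl⟩
    obtain ⟨Q', hQ'lt, hQ'p, hQ'o⟩ := Ideal.exists_ideal_lt_liesOver_of_lt Q hlt
    have hQ'0 : Q' ≠ ⊥ := by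
      intro h0
      have h1 : Ideal.span {π} = Q'.under (SS F) := hQ'o.over
      have h2 : π ∈ Q'.under (SS F) := h1 ▸ Ideal.mem_span_singleton_self π
      have h3 : algebraMap (SS F) (MvPolynomial σ k) π ∈ Q' := h2
      rw [h0, Ideal.mem_bot] at h3
      exact hπ.ne_zero (Subtype.ext h3)
    obtain ⟨p, hpQ', hp⟩ := Ideal.IsPrime.exists_mem_prime_of_ne_bot hQ'p hQ'0
    have hpQ : p ∈ Q := hQ'lt.le hpQ'
    rw [Ideal.mem_span_singleton] at hpQ
    have hass : Associated q p := (hq.dvd_prime_iff_associated hp).1 hpQ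
    have : q ∈ Q' := by
      obtain ⟨c, hc⟩ := hass.symm.dvd
      rw [hc]
      exact Ideal.mul_mem_right _ _ hpQ'
    exact hQ'lt.not_ge (by rw [Ideal.span_singleton_le_iff_mem]; exact this)
  rw [← heq, Ideal.mem_span_singleton] at haP hbP
  refine ⟨(eqS F hJ).symm π, ?_, ?_, ?_⟩
  · exact (MulEquiv.prime_iff (eqS F hJ).symm.toMulEquiv).2 hπ
  · have := map_dvd (eqS F hJ).symm haP
    simpa using this
  · have := map_dvd (eqS F hJ).symm hbP
    simpa using this

/-- Primes of the source stay squarefree. -/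
theorem not_sq_dvd (π q : MvPolynomial σ k) (hπ : Prime π) (hq : Prime q) :
    ¬ q * q ∣ aeval F π := by
  rintro ⟨r, hr⟩
  have hJ' := (jac F).isUnit_iff_isUnit_det.2 hJ
  -- every derivative of `π` lies in `q`
  have h1 : ∀ j, ∃ c, ∑ i, aeval F (pderiv i π) * (jac F) i j = q * c := by
    intro j
    have := deriv_aeval (pderiv j) F π
    rw [hr] at this
    refine ⟨2 * pderiv j q * r + q * pderiv j r, ?_⟩
    change ∑ i, aeval F (pderiv i π) * (pderiv j (F i)) = _
    rw [← this]
    simp only [Derivation.leibniz, smul_eq_mul]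
    ring
  choose c hc using h1
  have h2 : ∀ i, q ∣ aeval F (pderiv i π) := by
    intro i
    have h3 : Matrix.vecMul (fun i => aeval F (pderiv i π)) (jac F) = q • c := by
      ext1 j
      simpa [Matrix.vecMul, dotProduct] using hc j
    have h4 : (fun i => aeval F (pderiv i π)) = Matrix.vecMul (q • c) (jac F)⁻¹ := by
      rw [← h3, Matrix.vecMul_vecMul, Matrix.mul_nonsing_inv _ hJ, Matrix.vecMul_one]
    have h5 := congrFun h4 i
    rw [Matrix.smul_vecMul] at h5
    exact ⟨_, by simpa using h5⟩
  -- some derivative is nonzero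
  obtain ⟨i, hi⟩ : ∃ i, pderiv i π ≠ 0 := by
    by_contra hcon
    push Not at hcon
    have h6 := eq_C_of_pderiv_eq_zero π hcon
    apply hπ.not_isUnit
    rw [h6]
    apply IsUnit.map
    rw [isUnit_iff_ne_zero]
    intro h0
    rw [h0, C_0] at h6
    exact hπ.ne_zero h6
  obtain ⟨π', hπ', h7, h8⟩ := exists_prime_dvd F hJ q π (pderiv i π) hq
    (Dvd.dvd.trans ⟨q * r, by rw [hr]; ring⟩ dvd_rfl) (h2 i) hπ.ne_zero
  have h9 : Associated π' π := (hπ'.dvd_prime_iff_associated hπ).1 h7
  have h10 : π ∣ pderiv i π := h9.dvd_iff_dvd_left.1 h8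
  obtain ⟨s, hs⟩ := h10
  have h11 : s ≠ 0 := by rintro rfl; exact hi (by rw [hs, mul_zero])
  have h12 := totalDegree_pderiv_lt π i hi
  rw [hs, totalDegree_mul_of_isDomain hπ.ne_zero h11] at h12
  omega

/-- Fractions of the source lying in the big ring are in the source. -/
theorem mem_range_of_mul (a b r : MvPolynomial σ k) (hb : b ≠ 0)
    (h : aeval F b * r = aeval F a) : r ∈ SS F := by
  have hinj := aeval_injective F hJ
  obtain ⟨a', b', c', hco, rfl, rfl⟩ : ∃ a' b' c' : MvPolynomial σ k, IsRelPrime a' b' ∧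
      a = c' * a' ∧ b = c' * b' := by
    let _ := UniqueFactorizationMonoid.toGCDMonoid (MvPolynomial σ k)
    obtain ⟨a', ha'⟩ := gcd_dvd_left a b
    obtain ⟨b', hb'⟩ := gcd_dvd_right a b
    have hg : gcd a b ≠ 0 := by
      intro h0
      rw [gcd_eq_zero_iff] at h0
      exact hb h0.2
    refine ⟨a', b', gcd a b, ?_, ha', hb'⟩
    have h1 : gcd a b * gcd a' b' ∣ gcd a b * 1 := by
      rw [mul_one]
      apply dvd_gcd
      · conv_rhs => rw [ha']
        exact mul_dvd_mul_left _ (gcd_dvd_left _ _)
      · conv_rhs => rw [hb']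
        exact mul_dvd_mul_left _ (gcd_dvd_right _ _)
    have h2 := (mul_dvd_mul_iff_left hg).1 h1
    intro d hda hdb
    exact isUnit_of_dvd_one ((dvd_gcd hda hdb).trans h2)
  have hc' : c' ≠ 0 := left_ne_zero_of_mul hb
  have hb' : b' ≠ 0 := right_ne_zero_of_mul hb
  have h1 : aeval F b' * r = aeval F a' := by
    have h2 : aeval F c' ≠ 0 := by
      intro h0; exact hc' (hinj (by rw [h0, map_zero]))
    apply mul_left_cancel₀ h2
    rw [← mul_assoc, ← map_mul, h, map_mul]
  by_cases hu : IsUnit b'
  · obtain ⟨d, hd⟩ := hu.exists_left_inv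
    refine ⟨d * a', ?_⟩
    change aeval F (d * a') = r
    rw [map_mul, ← h1, ← mul_assoc, ← map_mul, hd, map_one, one_mul]
  · exfalso
    obtain ⟨π, hπ, hπb⟩ := WfDvdMonoid.exists_irreducible_factor hu hb'
    have hπ' : Prime π := hπ.prime
    have h3 : ¬ IsUnit (aeval F π) := by
      intro h4
      obtain ⟨c, hc0, hc⟩ := MvPolynomial.isUnit_iff_eq_C_of_isReduced.1 h4
      have h5 : π = C c := hinj (by rw [hc, aeval_C]; rfl)
      exact hπ.not_isUnit (by rw [h5]; exact hc0.map C)
    have h4 : aeval F π ≠ 0 := fun h0 => hπ.ne_zero (hinj (by rw [h0, map_zero]))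
    obtain ⟨q, hq, hqπ⟩ := WfDvdMonoid.exists_irreducible_factor h3 h4
    have h5 : q ∣ aeval F b' := hqπ.trans (map_dvd _ hπb)
    have h6 : q ∣ aeval F a' := by rw [← h1]; exact h5.mul_right _
    obtain ⟨π', hπ', h7, h8⟩ := exists_prime_dvd F hJ q b' a' hq.prime h5 h6 hb'
    exact hπ'.not_isUnit (hco h8 h7)

end Down

end Pool.Agent.H922R2
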