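import Mathlib
import Pool.Agent.H922R2.K11
import Pool.Agent.H922R2.K2

set_option autoImplicit false
set_option linter.unusedSectionVars false
set_option linter.style.haveILetI false

open MvPolynomial

namespace Pool.Agent.H922R2

section Groups

variable {k : Type*} [Field k]

/-- the group of automorphisms of the polynomial ring in two variables -/
abbrev GA (k : Type*) [Field k] := MvPolynomial (Fin 2) k ≃ₐ[k] MvPolynomial (Fin 2) k

/-- swap -/
noncomputable def sw : GA k := renameEquiv k (Equiv.swap 0 1)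

theorem sw_X0 : sw (k := k) (X 0) = X 1 := by simp [sw]
theorem sw_X1 : sw (k := k) (X 1) = X 0 := by simp [sw]

theorem sw_sw (p : MvPolynomial (Fin 2) k) : sw (sw p) = p := by
  have : (sw (k := k)).toAlgHom.comp (sw (k := k)).toAlgHom = AlgHom.id k _ := by
    apply MvPolynomial.algHom_ext
    intro i
    fin_cases i
    · change sw (sw (X 0)) = X 0
      rw [sw_X0, sw_X1]
    · change sw (sw (X 1)) = X 1
      rw [sw_X1, sw_X0]
  exact DFunLike.congr_fun this p

theorem ga_ext {φ ψ : GA k} (h0 : φ (X 0) = ψ (X 0)) (h1 : φ (X 1) = ψ (X 1)) : φ = ψ := by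
  apply AlgEquiv.coe_toAlgHom_injective
  apply MvPolynomial.algHom_ext
  intro i
  fin_cases i
  · exact h0
  · exact h1

/-- builder -/
noncomputable def mkGA (f g f' g' : MvPolynomial (Fin 2) k)
    (h1 : aeval ![f, g] f' = X 0) (h2 : aeval ![f, g] g' = X 1)
    (h3 : aeval ![f', g'] f = X 0) (h4 : aeval ![f', g'] g = X 1) : GA k :=
  AlgEquiv.ofAlgHom (aeval ![f, g]) (aeval ![f', g'])
    (by
      apply MvPolynomial.algHom_ext
      intro i
      fin_cases i
      · simpa using h1
      · simpa using h2)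
    (by
      apply MvPolynomial.algHom_ext
      intro i
      fin_cases i
      · simpa using h3
      · simpa using h4)

theorem mkGA_X0 (f g f' g' : MvPolynomial (Fin 2) k) (h1 h2 h3 h4) :
    mkGA f g f' g' h1 h2 h3 h4 (X 0) = f := by simp [mkGA]

theorem mkGA_X1 (f g f' g' : MvPolynomial (Fin 2) k) (h1 h2 h3 h4) :
    mkGA f g f' g' h1 h2 h3 h4 (X 1) = g := by simp [mkGA]

/-- univariate polynomial in the second variable -/
noncomputable def uy (P : Polynomial k) : MvPolynomial (Fin 2) k := Polynomial.aeval (X 1) P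

/-- univariate polynomial in the first variable -/
noncomputable def ux (P : Polynomial k) : MvPolynomial (Fin 2) k := Polynomial.aeval (X 0) P

theorem map_uy (Φ : MvPolynomial (Fin 2) k →ₐ[k] MvPolynomial (Fin 2) k) (P : Polynomial k) :
    Φ (uy P) = Polynomial.aeval (Φ (X 1)) P := by
  rw [uy, Polynomial.aeval_algHom_apply]

theorem map_ux (Φ : MvPolynomial (Fin 2) k →ₐ[k] MvPolynomial (Fin 2) k) (P : Polynomial k) :
    Φ (ux P) = Polynomial.aeval (Φ (X 0)) P := by
  rw [ux, Polynomial.aeval_algHom_apply]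

theorem gmap_uy (Φ : GA k) (P : Polynomial k) :
    Φ (uy P) = Polynomial.aeval (Φ (X 1)) P := map_uy Φ.toAlgHom P

theorem gmap_ux (Φ : GA k) (P : Polynomial k) :
    Φ (ux P) = Polynomial.aeval (Φ (X 0)) P := map_ux Φ.toAlgHom P

/-- elementary automorphism -/
noncomputable def elemX (P : Polynomial k) : GA k :=
  mkGA (X 0 + uy P) (X 1) (X 0 - uy P) (X 1)
    (by rw [map_sub, map_uy]; simp [uy]) (by simp) (by rw [map_add, map_uy]; simp [uy]) (by simp)

theorem elemX_X0 (P : Polynomial k) : elemX P (X 0) = X 0 + uy P := mkGA_X0 _ _ _ _ _ _ _ _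
theorem elemX_X1 (P : Polynomial k) : elemX P (X 1) = X 1 := mkGA_X1 _ _ _ _ _ _ _ _

/-- the subalgebra `k[y]` -/
noncomputable def Ysub (k : Type*) [Field k] : Subalgebra k (MvPolynomial (Fin 2) k) :=
  Algebra.adjoin k {X 1}

theorem mem_Ysub {r : MvPolynomial (Fin 2) k} : r ∈ Ysub k ↔ ∃ P : Polynomial k, uy P = r := by
  rw [Ysub, Algebra.adjoin_singleton_eq_range_aeval]
  rfl

/-- triangular automorphisms -/
noncomputable def EG (k : Type*) [Field k] : Subgroup (GA k) where
  carrier := {φ | (Ysub k).map φ.toAlgHom = Ysub k}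
  mul_mem' := by
    intro a b ha hb
    change (Ysub k).map (a.toAlgHom.comp b.toAlgHom) = Ysub k
    rw [← Subalgebra.map_map]
    change (Ysub k).map b.toAlgHom = Ysub k at hb
    rw [hb]; exact ha
  one_mem' := by
    change (Ysub k).map (AlgHom.id k _) = Ysub k
    exact Subalgebra.map_id _
  inv_mem' := by
    intro a ha
    change (Ysub k).map a.toAlgHom = Ysub k at ha
    change (Ysub k).map a.symm.toAlgHom = Ysub k
    conv_lhs => rw [← ha, Subalgebra.map_map]
    have : a.symm.toAlgHom.comp a.toAlgHom = AlgHom.id k _ := by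
      ext x; simp
    rw [this]
    exact Subalgebra.map_id _

/-- the space of affine polynomials -/
noncomputable def Wsub (k : Type*) [Field k] : Submodule k (MvPolynomial (Fin 2) k) :=
  Submodule.span k {1, X 0, X 1}

theorem mem_Wsub {r : MvPolynomial (Fin 2) k} :
    r ∈ Wsub k ↔ ∃ a b c : k, r = C a * X 0 + C b * X 1 + C c := by
  rw [Wsub, Submodule.mem_span_insert]
  constructor
  · rintro ⟨c, z, hz, rfl⟩
    rw [Submodule.mem_span_pair] at hz
    obtain ⟨a, b, rfl⟩ := hz
    refine ⟨a, b, c, ?_⟩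
    simp only [smul_eq_C_mul, mul_one]
    ring
  · rintro ⟨a, b, c, rfl⟩
    refine ⟨c, C a * X 0 + C b * X 1, ?_, ?_⟩
    · rw [Submodule.mem_span_pair]
      exact ⟨a, b, by simp only [smul_eq_C_mul]⟩
    · simp only [smul_eq_C_mul, mul_one]
      ring

/-- affine automorphisms -/
noncomputable def AG (k : Type*) [Field k] : Subgroup (GA k) where
  carrier := {φ | (Wsub k).map φ.toLinearMap = Wsub k}
  mul_mem' := by
    intro a b ha hb
    change (Wsub k).map (a.toLinearMap.comp b.toLinearMap) = Wsub k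
    rw [Submodule.map_comp]
    change (Wsub k).map b.toLinearMap = Wsub k at hb
    rw [hb]; exact ha
  one_mem' := by
    change (Wsub k).map (LinearMap.id) = Wsub k
    exact Submodule.map_id _
  inv_mem' := by
    intro a ha
    change (Wsub k).map a.toLinearMap = Wsub k at ha
    change (Wsub k).map a.symm.toLinearMap = Wsub k
    conv_lhs => rw [← ha, ← Submodule.map_comp]
    have : a.symm.toLinearMap.comp a.toLinearMap = LinearMap.id := by
      ext x; simp
    rw [this]
    exact Submodule.map_id _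

theorem mem_AG_of {φ : GA k} (h0 : φ (X 0) ∈ Wsub k) (h1 : φ (X 1) ∈ Wsub k) : φ ∈ AG k := by
  change (Wsub k).map φ.toLinearMap = Wsub k
  haveI : FiniteDimensional k (Wsub k) := by
    apply FiniteDimensional.span_of_finite
    exact Set.toFinite _
  apply Submodule.eq_of_le_of_finrank_eq
  · rw [Wsub, Submodule.map_span_le]
    intro r hr
    rcases hr with rfl | rfl | rfl
    · change φ 1 ∈ Wsub k
      rw [map_one]
      exact Submodule.subset_span (by simp)
    · exact h0
    · exact h1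
  · exact LinearEquiv.finrank_map_eq φ.toLinearEquiv (Wsub k)

theorem AG_forms {φ : GA k} (h : φ ∈ AG k) : φ (X 0) ∈ Wsub k ∧ φ (X 1) ∈ Wsub k := by
  change (Wsub k).map φ.toLinearMap = Wsub k at h
  constructor
  · rw [← h]; exact ⟨X 0, Submodule.subset_span (by simp), rfl⟩
  · rw [← h]; exact ⟨X 1, Submodule.subset_span (by simp), rfl⟩

theorem sw_mem_AG : sw ∈ AG k := by
  apply mem_AG_of
  · rw [sw_X0]; exact Submodule.subset_span (by simp)
  · rw [sw_X1]; exact Submodule.subset_span (by simp)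

theorem mem_EG_of {φ : GA k} {b c : k} (hb : b ≠ 0) (h : φ (X 1) = C b * X 1 + C c) : φ ∈ EG k := by
  change (Ysub k).map φ.toAlgHom = Ysub k
  rw [Ysub, AlgHom.map_adjoin, Set.image_singleton]
  apply le_antisymm
  · rw [Algebra.adjoin_le_iff, Set.singleton_subset_iff]
    change φ (X 1) ∈ _
    rw [h]
    exact add_mem (mul_mem (Subalgebra.algebraMap_mem _ _) (Algebra.subset_adjoin rfl))
      (Subalgebra.algebraMap_mem _ _)
  · rw [Algebra.adjoin_le_iff, Set.singleton_subset_iff]
    change X 1 ∈ Algebra.adjoin k {φ (X 1)}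
    have h1 : (X 1 : MvPolynomial (Fin 2) k) = C b⁻¹ * (φ (X 1) - C c) := by
      rw [h]
      have : C b⁻¹ * (C b * X 1 + C c - C c) = C b⁻¹ * C b * (X 1 : MvPolynomial (Fin 2) k) := by ring
      rw [this, ← C_mul, inv_mul_cancel₀ hb, C_1, one_mul]
    have h2 : C b⁻¹ * (φ (X 1) - C c) ∈ Algebra.adjoin k {φ (X 1)} :=
      mul_mem (Subalgebra.algebraMap_mem _ _) (sub_mem (Algebra.subset_adjoin rfl)
      (Subalgebra.algebraMap_mem _ _))
    rwa [← h1] at h2

theorem elemX_mem_EG (P : Polynomial k) : elemX P ∈ EG k := by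
  apply mem_EG_of (b := 1) (c := 0) one_ne_zero
  rw [elemX_X1]; simp

end Groups

section Jac

variable {k : Type*} [Field k]

theorem ga_aeval (θ : GA k) (p : MvPolynomial (Fin 2) k) : θ p = aeval (fun i => θ (X i)) p := by
  have : θ.toAlgHom = aeval (fun i => θ (X i)) := by
    apply MvPolynomial.algHom_ext
    intro i; simp
  exact DFunLike.congr_fun this p

theorem pderiv_ga (θ : GA k) (i : Fin 2) (p : MvPolynomial (Fin 2) k) :
    pderiv i (θ p) = θ (pderiv 0 p) * pderiv i (θ (X 0)) + θ (pderiv 1 p) * pderiv i (θ (X 1)) := by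
  rw [ga_aeval θ p, deriv_aeval, Fin.sum_univ_two, ← ga_aeval, ← ga_aeval]

/-- chain rule for the Jacobian -/
theorem DJ_map (θ : GA k) (f h : MvPolynomial (Fin 2) k) :
    DJ (θ f) (θ h) = DJ (θ (X 0)) (θ (X 1)) * θ (DJ f h) := by
  simp only [DJ_apply, map_sub, map_mul]
  rw [pderiv_ga θ 0 f, pderiv_ga θ 1 f, pderiv_ga θ 0 h, pderiv_ga θ 1 h]
  ring

theorem DJ_unit (θ : GA k) : IsUnit (DJ (θ (X 0)) (θ (X 1))) := by
  have h := DJ_map θ (θ.symm (X 0)) (θ.symm (X 1))
  rw [AlgEquiv.apply_symm_apply, AlgEquiv.apply_symm_apply] at h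
  have h1 : DJ (X 0 : MvPolynomial (Fin 2) k) (X 1) = 1 := by
    rw [DJ_apply]; simp
  rw [h1] at h
  exact IsUnit.of_mul_eq_one _ h.symm

theorem exists_jac (θ : GA k) : ∃ δ : k, δ ≠ 0 ∧ DJ (θ (X 0)) (θ (X 1)) = C δ := by
  obtain ⟨δ, hδ, h⟩ := MvPolynomial.isUnit_iff_eq_C_of_isReduced.1 (DJ_unit θ)
  exact ⟨δ, hδ.ne_zero, h⟩

theorem LN_map (θ : GA k) (f : MvPolynomial (Fin 2) k) (hf : LN (DJ f)) : LN (DJ (θ f)) := by
  obtain ⟨δ, hδ, h⟩ := exists_jac θ
  intro r
  obtain ⟨N, hN⟩ := hf (θ.symm r)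
  have key : ∀ N, ∀ h, (DJ (θ f))^[N] (θ h) = C (δ ^ N) * θ ((DJ f)^[N] h) := by
    intro N
    induction N with
    | zero => intro h; simp
    | succ N ih =>
      intro g
      rw [Function.iterate_succ_apply', ih, Function.iterate_succ_apply', Derivation.leibniz, DJ_map, h]
      simp only [pow_succ, C_mul, smul_eq_mul]
      have : DJ (θ f) (C (δ ^ N)) = 0 := by
        rw [DJ_apply]; simp
      rw [this]; ring
  refine ⟨N, ?_⟩
  have := key N (θ.symm r)
  rw [AlgEquiv.apply_symm_apply, hN, map_zero, mul_zero] at this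
  exact this

theorem LN_pderiv (i : Fin 2) :
    LN (pderiv i : Derivation k (MvPolynomial (Fin 2) k) (MvPolynomial (Fin 2) k)) := by
  have h2 : nilSub (pderiv i : Derivation k (MvPolynomial (Fin 2) k) (MvPolynomial (Fin 2) k)) = ⊤ := by
    rw [eq_top_iff, ← MvPolynomial.adjoin_range_X]
    apply Algebra.adjoin_le
    rintro _ ⟨j, rfl⟩
    refine ⟨2, ?_⟩
    change pderiv i (pderiv i (X j)) = 0
    rw [pderiv_X]
    by_cases h : j = i
    · subst h; simp
    · simp [h]
  intro r
  have : r ∈ nilSub (pderiv i : Derivation k (MvPolynomial (Fin 2) k) (MvPolynomial (Fin 2) k)) := by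
    rw [h2]; trivial
  exact this

theorem DJ_X0 : DJ (X 0 : MvPolynomial (Fin 2) k) = pderiv 1 := by
  apply Derivation.ext
  intro p
  rw [DJ_apply]; simp

theorem LN_ga (θ : GA k) : LN (DJ (θ (X 0))) := by
  apply LN_map
  rw [DJ_X0]
  exact LN_pderiv 1

end Jac

end Pool.Agent.H922R2
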