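import Mathlib
import Pool.Agent.H922R2.K12

set_option autoImplicit false
set_option linter.unusedSectionVars false
set_option linter.style.haveILetI false

open MvPolynomial

namespace Pool.Agent.H922R2

section JvdK

variable {k : Type*} [Field k]

/-- the tame group -/
noncomputable def TG (k : Type*) [Field k] : Subgroup (GA k) := AG k ⊔ EG k

theorem AG_le : AG k ≤ TG k := le_sup_left
theorem EG_le : EG k ≤ TG k := le_sup_right

theorem degreeOf_sw (i : Fin 2) (f : MvPolynomial (Fin 2) k) :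
    degreeOf i (sw f) = degreeOf (Equiv.swap 0 1 i) f := by
  have h : sw f = rename (Equiv.swap (0 : Fin 2) 1) f := rfl
  rw [h]
  have h2 := degreeOf_rename_of_injective (p := f) (Equiv.swap (0 : Fin 2) 1).injective
    (Equiv.swap (0 : Fin 2) 1 i)
  rw [Equiv.swap_apply_self] at h2
  exact h2

/-- the automorphism adding a polynomial in the first variable to the second -/
noncomputable def elemY (P : Polynomial k) : GA k := sw * elemX P * sw

theorem elemY_X0 (P : Polynomial k) : elemY P (X 0) = X 0 := by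
  change sw (elemX P (sw (X 0))) = X 0
  rw [sw_X0, elemX_X1, sw_X1]

theorem elemY_X1 (P : Polynomial k) : elemY P (X 1) = X 1 + ux P := by
  change sw (elemX P (sw (X 1))) = X 1 + ux P
  rw [sw_X1, elemX_X0, map_add, sw_X0, gmap_uy, sw_X1]
  rfl

theorem elemY_mem (P : Polynomial k) : elemY P ∈ TG k :=
  mul_mem (mul_mem (AG_le sw_mem_AG) (EG_le (elemX_mem_EG P))) (AG_le sw_mem_AG)

variable [CharZero k] [IsAlgClosed k]

theorem reduce1 (f : MvPolynomial (Fin 2) k) (hf : LN (DJ f)) (g m' : ℕ) (hg : 0 < g) (hm' : 0 < m')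
    (hm : degreeOf 0 f = g * m') (hn : degreeOf 1 f = g * 1) :
    ∃ τ ∈ TG k, degreeOf 0 (τ f) < degreeOf 0 f ∧ degreeOf 1 (τ f) ≤ degreeOf 1 f := by
  obtain ⟨-, hd, c, z, hc, hz, hF⟩ := lead_struct f hf g m' 1 hg hm' one_pos (Nat.coprime_one_right m')
    hm hn
  set w : Fin 2 → ℕ := ![1, m'] with hw
  set P : Polynomial k := Polynomial.C z⁻¹ * Polynomial.X ^ m' with hP
  refine ⟨elemY P, elemY_mem P, ?_⟩
  set τ := elemY P with hτ
  have hτ0 : τ (X 0) = X 0 := elemY_X0 P
  have hτ1 : τ (X 1) = X 1 + C z⁻¹ * X 0 ^ m' := by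
    rw [hτ, elemY_X1, hP]
    simp [ux, algebraMap_eq]
  have hPsi : ∀ p, Psi w (τ p) = (Psi w p).map τ.toRingEquiv.toRingHom := by
    have h1 : (Psi w).comp τ.toAlgHom =
        (Polynomial.mapAlgHom τ.toAlgHom).comp (Psi w) := by
      apply MvPolynomial.algHom_ext
      intro i
      fin_cases i
      · change Psi w (τ (X 0)) = (Psi w (X 0)).map τ.toRingEquiv.toRingHom
        rw [hτ0]
        simp only [Psi, aeval_X, Polynomial.map_mul, Polynomial.map_C, Polynomial.map_pow,
          Polynomial.map_X]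
        congr 2
        exact hτ0.symm
      · change Psi w (τ (X 1)) = (Psi w (X 1)).map τ.toRingEquiv.toRingHom
        rw [hτ1]
        simp only [Psi, aeval_X, Polynomial.map_mul, Polynomial.map_C, Polynomial.map_pow,
          Polynomial.map_X, map_add, map_mul, map_pow]
        have h2 : τ.toRingEquiv.toRingHom (X 1) = X 1 + C z⁻¹ * X 0 ^ m' := hτ1
        rw [h2]
        simp only [hw, Matrix.cons_val_zero, Matrix.cons_val_one, pow_one,
          Polynomial.C_add, Polynomial.C_mul, Polynomial.C_pow, mul_pow, aeval_C]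
        rw [Polynomial.algebraMap_apply, MvPolynomial.algebraMap_eq]
        ring
    intro p
    exact DFunLike.congr_fun h1 p
  have hdeg : (Psi w (τ f)).natDegree ≤ g * m' := by
    rw [hPsi]
    refine (Polynomial.natDegree_map_le).trans ?_
    rw [hd, one_mul]
  have hlead : (Psi w (τ f)).coeff (g * m') = C (c * (-z) ^ g) * X 1 ^ g := by
    rw [hPsi, Polynomial.coeff_map]
    have h1 : (Psi w f).coeff (g * m') = (Psi w f).leadingCoeff := by
      rw [Polynomial.leadingCoeff, hd, one_mul]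
    rw [h1, hF]
    change τ (C c * (X 0 ^ m' - C z * X 1 ^ 1) ^ g) = _
    rw [map_mul, map_pow, map_sub, map_mul, map_pow, map_pow, hτ0, hτ1]
    have h2 : ∀ a : k, τ (C a) = C a := fun a => τ.commutes a
    rw [h2, h2]
    have h3 : (X 0 ^ m' - C z * (X 1 + C z⁻¹ * X 0 ^ m') ^ 1 : MvPolynomial (Fin 2) k) =
        C (-z) * X 1 := by
      have : (X 0 ^ m' - C z * (X 1 + C z⁻¹ * X 0 ^ m') ^ 1 : MvPolynomial (Fin 2) k) =
        X 0 ^ m' - C z * X 1 - (C z * C z⁻¹) * X 0 ^ m' := by ring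
      rw [this, ← C_mul, mul_inv_cancel₀ hz, C_1, C_neg]
      ring
    rw [h3, mul_pow, ← mul_assoc, ← C_pow, ← C_mul]
  have hsupp : ∀ t, coeff t (τ f) ≠ 0 → t 0 + m' * t 1 ≤ g * m' ∧
      (t 0 + m' * t 1 = g * m' → t 0 = 0) := by
    intro t ht
    have h1 := wt_le_natDegree w ht
    have h2 : wt w t = t 0 + m' * t 1 := by simp [wt, hw]
    rw [h2] at h1
    refine ⟨h1.trans hdeg, fun h3 => ?_⟩
    have h4 := coeff_coeff_Psi w (τ f) (g * m') t
    rw [h2, if_pos h3, hlead] at h4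
    by_contra h5
    apply ht
    rw [← h4, X_pow_eq_monomial, coeff_C_mul, coeff_monomial, if_neg, mul_zero]
    intro h6
    apply h5
    rw [← h6]
    simp
  have hgm : 0 < g * m' := Nat.mul_pos hg hm'
  constructor
  · rw [hm, degreeOf_lt_iff hgm]
    intro t ht
    obtain ⟨h1, h2⟩ := hsupp t (mem_support_iff.1 ht)
    by_contra h3
    have h4 : t 0 + m' * t 1 = g * m' := by omega
    have := h2 h4
    omega
  · rw [hn, degreeOf_le_iff]
    intro t ht
    obtain ⟨h1, h2⟩ := hsupp t (mem_support_iff.1 ht)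
    have h3 : m' * t 1 ≤ m' * g := by
      have : g * m' = m' * g := mul_comm _ _
      omega
    have := Nat.le_of_mul_le_mul_left h3 hm'
    omega

theorem reduce (f : MvPolynomial (Fin 2) k) (hf : LN (DJ f)) (h0 : 0 < degreeOf 0 f)
    (h1 : 0 < degreeOf 1 f) :
    ∃ τ ∈ TG k, degreeOf 0 (τ f) + degreeOf 1 (τ f) < degreeOf 0 f + degreeOf 1 f := by
  set m := degreeOf 0 f with hm
  set n := degreeOf 1 f with hn
  set g := Nat.gcd m n with hg
  have hgpos : 0 < g := Nat.gcd_pos_of_pos_left _ h0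
  obtain ⟨m', hm'⟩ : g ∣ m := Nat.gcd_dvd_left m n
  obtain ⟨n', hn'⟩ : g ∣ n := Nat.gcd_dvd_right m n
  have hm'pos : 0 < m' := Nat.pos_of_ne_zero (by rintro rfl; omega)
  have hn'pos : 0 < n' := Nat.pos_of_ne_zero (by rintro rfl; omega)
  have hco : Nat.Coprime m' n' := by
    have h := Nat.coprime_div_gcd_div_gcd (m := m) (n := n) hgpos
    rw [← hg] at h
    rwa [Nat.div_eq_of_eq_mul_right hgpos hm', Nat.div_eq_of_eq_mul_right hgpos hn'] at h
  obtain ⟨h2, -⟩ := lead_struct f hf g m' n' hgpos hm'pos hn'pos hco hm' hn'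
  rcases h2 with h2 | h2
  · -- m' = 1 : swap
    subst h2
    have e0 : degreeOf 0 (sw f) = n := by
      rw [degreeOf_sw]
      simp [hn]
    have e1 : degreeOf 1 (sw f) = m := by
      rw [degreeOf_sw]
      simp [hm]
    obtain ⟨τ, hτ, h3, h4⟩ := reduce1 (sw f) (LN_map sw f hf) g n' hgpos hn'pos (by rw [e0, hn'])
      (by rw [e1, hm'])
    refine ⟨τ * sw, mul_mem hτ (AG_le sw_mem_AG), ?_⟩
    rw [AlgEquiv.mul_apply]
    omega
  · subst h2
    obtain ⟨τ, hτ, h3, h4⟩ := reduce1 f hf g m' hgpos hm'pos hm' hn'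
    exact ⟨τ, hτ, by omega⟩

omit [IsAlgClosed k] in
theorem tame_of_linear {φ : GA k} {a b : k} (ha : a ≠ 0) (h : φ (X 0) = C a * X 0 + C b) :
    φ ∈ TG k := by
  have h1 : sw * φ * sw ∈ TG k := by
    apply EG_le
    apply mem_EG_of ha (c := b)
    change sw (φ (sw (X 1))) = _
    rw [sw_X1, h, map_add, map_mul, sw_X0]
    have h2 : ∀ a : k, (sw (k := k)) (C a) = C a := fun a => sw.commutes a
    rw [h2, h2]
  have h2 : (sw : GA k) ∈ TG k := AG_le sw_mem_AG
  have h3 : (sw : GA k) * sw = 1 := by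
    apply ga_ext
    · change sw (sw (X 0)) = X 0; rw [sw_sw]
    · change sw (sw (X 1)) = X 1; rw [sw_sw]
  have h4 : φ = sw * (sw * φ * sw) * sw := by
    rw [← mul_assoc, ← mul_assoc, h3, one_mul, mul_assoc, h3, mul_one]
  rw [h4]
  exact mul_mem (mul_mem h2 h1) h2

omit [IsAlgClosed k] in
theorem linear_of_pderiv {f h : MvPolynomial (Fin 2) k} (hu : IsUnit (DJ f h)) (h0 : pderiv 1 f = 0) :
    ∃ a b : k, a ≠ 0 ∧ f = C a * X 0 + C b := by
  rw [DJ_apply, h0, zero_mul, sub_zero] at hu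
  obtain ⟨a, ha, ha2⟩ := MvPolynomial.isUnit_iff_eq_C_of_isReduced.1 (isUnit_of_mul_isUnit_left hu)
  refine ⟨a, coeff 0 (f - C a * X 0), ha.ne_zero, ?_⟩
  have h1 : ∀ i, pderiv i (f - C a * X 0) = 0 := by
    intro i
    fin_cases i
    · simp [ha2]
    · simp [h0]
  have h2 := eq_C_of_pderiv_eq_zero _ h1
  rw [← h2]; ring

omit [CharZero k] [IsAlgClosed k] in
theorem pderiv_of_degreeOf {f : MvPolynomial (Fin 2) k} {i : Fin 2} (h : degreeOf i f = 0) :
    pderiv i f = 0 := by
  ext t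
  rw [coeff_pderiv, coeff_zero]
  have : coeff (t + Finsupp.single i 1) f = 0 := by
    by_contra hne
    have := le_degreeOf i hne
    rw [h] at this
    simp at this
  rw [this, zero_mul]

/-- Jung - van der Kulk in characteristic zero. -/
theorem jvdk : (TG k : Subgroup (GA k)) = ⊤ := by
  rw [eq_top_iff]
  intro φ _
  induction hN : degreeOf 0 (φ (X 0)) + degreeOf 1 (φ (X 0)) using Nat.strong_induction_on
    generalizing φ with
  | _ N ih =>
    by_cases h1 : degreeOf 1 (φ (X 0)) = 0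
    · obtain ⟨a, b, ha, h⟩ := linear_of_pderiv (DJ_unit φ) (pderiv_of_degreeOf h1)
      exact tame_of_linear ha h
    · by_cases h0 : degreeOf 0 (φ (X 0)) = 0
      · have h2 : degreeOf 1 (((sw : GA k) * φ) (X 0)) = 0 := by
          rw [AlgEquiv.mul_apply, degreeOf_sw]
          simpa using h0
        obtain ⟨a, b, ha, h⟩ := linear_of_pderiv (DJ_unit ((sw : GA k) * φ)) (pderiv_of_degreeOf h2)
        have h3 := tame_of_linear ha h
        have h4 : φ = (sw : GA k)⁻¹ * (sw * φ) := by group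
        rw [h4]
        exact mul_mem (inv_mem (AG_le sw_mem_AG)) h3
      · obtain ⟨τ, hτ, h2⟩ := reduce (φ (X 0)) (LN_ga φ) (Nat.pos_of_ne_zero h0) (Nat.pos_of_ne_zero h1)
        have h3 := ih _ (hN ▸ h2) (φ := τ * φ) trivial rfl
        have h4 : φ = τ⁻¹ * (τ * φ) := by group
        rw [h4]
        exact mul_mem (inv_mem hτ) h3

end JvdK

end Pool.Agent.H922R2
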