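import Mathlib
import Pool.Agent.H922R2.K13

set_option autoImplicit false
set_option linter.unusedSectionVars false
set_option linter.style.haveILetI false

open MvPolynomial

namespace Pool.Agent.H922R2

section Deg

variable {k : Type*} [Field k]

theorem td_pow {v : MvPolynomial (Fin 2) k} (hv : v ≠ 0) (n : ℕ) :
    (v ^ n).totalDegree = n * v.totalDegree := by
  induction n with
  | zero => simp
  | succ n ih =>
    rw [pow_succ, totalDegree_mul_of_isDomain (pow_ne_zero n hv) hv, ih]; ring

theorem td_C_mul {c : k} (hc : c ≠ 0) {v : MvPolynomial (Fin 2) k} :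
    (C c * v).totalDegree = v.totalDegree := by
  by_cases hv : v = 0
  · rw [hv, mul_zero]
  · rw [totalDegree_mul_of_isDomain (by rw [Ne, C_eq_zero]; exact hc) hv, totalDegree_C, zero_add]

theorem td_aeval_le {v : MvPolynomial (Fin 2) k} {m : ℕ} (hm : v.totalDegree ≤ m)
    (P : Polynomial k) : (Polynomial.aeval v P).totalDegree ≤ P.natDegree * m := by
  rw [Polynomial.aeval_eq_sum_range]
  apply totalDegree_finsetSum_le
  intro i hi
  rw [Finset.mem_range] at hi
  rw [smul_eq_C_mul]
  refine (totalDegree_mul _ _).trans ?_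
  rw [totalDegree_C, zero_add]
  refine (totalDegree_pow _ _).trans ?_
  exact Nat.mul_le_mul (by omega) hm

theorem td_aeval {v : MvPolynomial (Fin 2) k} {m : ℕ} (hm : v.totalDegree = m) (hm0 : 0 < m)
    (P : Polynomial k) : (Polynomial.aeval v P).totalDegree = P.natDegree * m := by
  have hv : v ≠ 0 := by rintro rfl; rw [totalDegree_zero] at hm; omega
  by_cases hd : P.natDegree = 0
  · rw [hd, zero_mul, Polynomial.eq_C_of_natDegree_eq_zero hd, Polynomial.aeval_C]
    exact totalDegree_C _
  · have h1 := Polynomial.eraseLead_add_C_mul_X_pow P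
    have hlc : P.leadingCoeff ≠ 0 := by
      rw [Ne, Polynomial.leadingCoeff_eq_zero]; rintro rfl; simp at hd
    have h2 : (Polynomial.aeval v (Polynomial.C P.leadingCoeff * Polynomial.X ^ P.natDegree)).totalDegree
        = P.natDegree * m := by
      rw [map_mul, map_pow, Polynomial.aeval_X, Polynomial.aeval_C, algebraMap_eq, td_C_mul hlc,
        td_pow hv, hm]
    have h3 : (Polynomial.aeval v P.eraseLead).totalDegree ≤ (P.natDegree - 1) * m :=
      (td_aeval_le hm.le _).trans (Nat.mul_le_mul_right _ (Polynomial.eraseLead_natDegree_le P))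
    have h4 : (P.natDegree - 1) * m < P.natDegree * m :=
      Nat.mul_lt_mul_of_pos_right (by omega) hm0
    conv_lhs => rw [← h1, map_add]
    rw [totalDegree_add_eq_right_of_totalDegree_lt (by rw [h2]; omega), h2]

theorem uy_injective : Function.Injective (uy : Polynomial k → MvPolynomial (Fin 2) k) := by
  intro P Q h
  by_contra hne
  have h1 : uy (P - Q) = 0 := by
    unfold uy at h ⊢
    rw [map_sub, h, sub_self]
  have h2 : P - Q ≠ 0 := sub_ne_zero.2 hne
  have htr : Transcendental k (X 1 : MvPolynomial (Fin 2) k) := MvPolynomial.transcendental_X k 1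
  exact htr ⟨P - Q, h2, h1⟩

theorem uy_comp (P Q : Polynomial k) : Polynomial.aeval (uy P) Q = uy (Q.comp P) := by
  unfold uy
  rw [Polynomial.aeval_comp]

/-- killed by the first derivative : a polynomial in the second variable -/
theorem exists_uy [CharZero k] {r : MvPolynomial (Fin 2) k} (h : pderiv 0 r = 0) :
    ∃ P : Polynomial k, r = uy P := by
  refine ⟨∑ t ∈ r.support, Polynomial.C (coeff t r) * Polynomial.X ^ (t 1), ?_⟩
  conv_lhs => rw [r.as_sum]
  unfold uy
  rw [map_sum]
  apply Finset.sum_congr rfl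
  intro t ht
  have h0 := support_of_pderiv_eq_zero h t (mem_support_iff.1 ht)
  rw [map_mul, map_pow, Polynomial.aeval_X, Polynomial.aeval_C, algebraMap_eq, monomial_eq,
    Finsupp.prod_fintype _ _ (by simp), Fin.prod_univ_two, h0]
  simp

theorem EG_forms [CharZero k] {φ : GA k} (h : φ ∈ EG k) :
    ∃ (a b c : k) (P : Polynomial k), a ≠ 0 ∧ b ≠ 0 ∧ φ (X 0) = C a * X 0 + uy P ∧
      φ (X 1) = C b * X 1 + C c := by
  change (Ysub k).map φ.toAlgHom = Ysub k at h
  have h1 : φ (X 1) ∈ Ysub k := by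
    rw [← h]; exact ⟨X 1, Algebra.subset_adjoin rfl, rfl⟩
  obtain ⟨P1, hP1⟩ := mem_Ysub.1 h1
  have h2 : (X 1 : MvPolynomial (Fin 2) k) ∈ (Ysub k).map φ.toAlgHom := by
    rw [h]; exact Algebra.subset_adjoin rfl
  obtain ⟨s, hs, hs2⟩ := h2
  obtain ⟨Q, rfl⟩ := mem_Ysub.1 hs
  change φ (uy Q) = X 1 at hs2
  rw [gmap_uy, ← hP1, uy_comp] at hs2
  have h3 : Q.comp P1 = Polynomial.X := by
    apply uy_injective
    rw [hs2]; simp [uy]
  have h4 : Q.natDegree * P1.natDegree = 1 := by
    rw [← Polynomial.natDegree_comp, h3, Polynomial.natDegree_X]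
  have h5 : P1.natDegree = 1 := Nat.eq_one_of_mul_eq_one_left h4
  obtain ⟨b, hb, c, hbc⟩ : ∃ b ≠ 0, ∃ c, P1 = Polynomial.C b * Polynomial.X + Polynomial.C c := by
    refine ⟨P1.coeff 1, ?_, P1.coeff 0, Polynomial.eq_X_add_C_of_natDegree_le_one h5.le⟩
    have : P1.leadingCoeff ≠ 0 := by
      rw [Ne, Polynomial.leadingCoeff_eq_zero]; rintro rfl; simp at h5
    rwa [Polynomial.leadingCoeff, h5] at this
  have h6 : φ (X 1) = C b * X 1 + C c := by
    rw [← hP1, hbc]; simp [uy, algebraMap_eq]
  obtain ⟨δ, hδ, hJ⟩ := exists_jac φ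
  rw [DJ_apply, h6] at hJ
  have h7 : pderiv 0 (φ (X 0)) * C b = C δ := by
    rw [← hJ]
    simp
  have h8 : pderiv 0 (φ (X 0)) = C (δ / b) := by
    have : pderiv 0 (φ (X 0)) * C b * C b⁻¹ = C δ * C b⁻¹ := by rw [h7]
    rw [mul_assoc, ← C_mul, mul_inv_cancel₀ hb, C_1, mul_one, ← C_mul] at this
    rw [this, div_eq_mul_inv]
  have h9 : pderiv 0 (φ (X 0) - C (δ / b) * X 0) = 0 := by
    rw [map_sub, h8]; simp
  obtain ⟨P, hP⟩ := exists_uy h9
  exact ⟨δ / b, b, c, P, div_ne_zero hδ hb, hb, by rw [← hP]; ring, h6⟩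

theorem AG_not_EG {φ : GA k} (h : φ ∈ AG k) (h' : φ ∉ EG k) :
    ∃ p q r : k, p ≠ 0 ∧ φ (X 1) = C p * X 0 + C q * X 1 + C r := by
  obtain ⟨p, q, r, hpq⟩ := mem_Wsub.1 (AG_forms h).2
  refine ⟨p, q, r, ?_, hpq⟩
  rintro rfl
  rw [C_0, zero_mul, zero_add] at hpq
  have hq : q ≠ 0 := by
    rintro rfl
    rw [C_0, zero_mul, zero_add] at hpq
    obtain ⟨δ, hδ, hJ⟩ := exists_jac φ
    rw [DJ_apply, hpq] at hJ
    simp at hJ
    exact hδ (C_eq_zero.1 hJ.symm)
  exact h' (mem_EG_of hq hpq)

/-- degree state -/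
def St (θ : GA k) (m : ℕ) : Prop := (θ (X 0)).totalDegree = m ∧ (θ (X 1)).totalDegree < m

theorem St_step [CharZero k] {a e : GA k} (ha : a ∈ AG k) (ha' : a ∉ EG k) (he : e ∈ EG k)
    (he' : e ∉ AG k) : ∃ p, 2 ≤ p ∧ (∀ θ m, 0 < m → St θ m → St (θ * (a * e)) (m * p)) ∧
      St (a * e) p := by
  obtain ⟨a1, a2, a3, hA1, hA⟩ := AG_not_EG ha ha'
  obtain ⟨a4, a5, a6, hB⟩ := mem_Wsub.1 (AG_forms ha).1
  obtain ⟨α, β, γ, P, hα, hβ, he0, he1⟩ := EG_forms he
  have hP : 2 ≤ P.natDegree := by
    by_contra hcon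
    apply he'
    apply mem_AG_of
    · rw [he0]
      have h1 : P.natDegree ≤ 1 := by omega
      rw [mem_Wsub]
      refine ⟨α, P.coeff 1, P.coeff 0, ?_⟩
      conv_lhs => rw [Polynomial.eq_X_add_C_of_natDegree_le_one h1]
      simp [uy, algebraMap_eq, add_assoc]
    · rw [he1, mem_Wsub]
      exact ⟨0, β, γ, by simp⟩
  have hC : ∀ (θ : GA k) (c : k), θ (C c) = C c := fun θ c => θ.commutes c
  have key : ∀ (θ : GA k) (m : ℕ), 0 < m → (θ (a (X 0))).totalDegree ≤ m →
      (θ (a (X 1))).totalDegree = m → St (θ * (a * e)) (m * P.natDegree) := by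
    intro θ m hm h0 h1
    have h2 : m < m * P.natDegree := by nlinarith
    constructor
    · change (θ (a (e (X 0)))).totalDegree = _
      rw [he0, map_add, map_add, map_mul, map_mul, hC, hC, gmap_uy, ← AlgEquiv.mul_apply]
      have h3 : (θ (Polynomial.aeval (a (X 1)) P)) = Polynomial.aeval (θ (a (X 1))) P := by
        exact (Polynomial.aeval_algHom_apply θ.toAlgHom (a (X 1)) P).symm
      rw [h3]
      have h4 := td_aeval h1 hm P
      rw [mul_comm] at h4
      rw [totalDegree_add_eq_right_of_totalDegree_lt, h4]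
      rw [h4, td_C_mul hα]
      exact lt_of_le_of_lt h0 h2
    · change (θ (a (e (X 1)))).totalDegree < _
      rw [he1, map_add, map_add, map_mul, map_mul, hC, hC, hC, hC]
      refine lt_of_le_of_lt (totalDegree_add _ _) ?_
      rw [td_C_mul hβ, totalDegree_C, h1]
      simpa using h2
  refine ⟨P.natDegree, hP, ?_, ?_⟩
  · intro θ m hm hθ
    apply key θ m hm
    · rw [hB, map_add, map_add, map_mul, map_mul, hC, hC, hC]
      refine (totalDegree_add _ _).trans (max_le ?_ (by rw [totalDegree_C]; omega))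
      refine (totalDegree_add _ _).trans (max_le ?_ ?_)
      · refine (totalDegree_mul _ _).trans ?_
        rw [totalDegree_C, zero_add, hθ.1]
      · refine (totalDegree_mul _ _).trans ?_
        rw [totalDegree_C, zero_add]
        exact hθ.2.le
    · rw [hA, map_add, map_add, map_mul, map_mul, hC, hC, hC, add_assoc,
        totalDegree_add_eq_left_of_totalDegree_lt, td_C_mul hA1, hθ.1]
      rw [td_C_mul hA1, hθ.1]
      refine lt_of_le_of_lt (totalDegree_add _ _) (max_lt ?_ (by rw [totalDegree_C]; omega))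
      refine lt_of_le_of_lt (totalDegree_mul _ _) ?_
      rw [totalDegree_C, zero_add]
      exact hθ.2
  · have h1 := key 1 1 one_pos (by
        change (a (X 0)).totalDegree ≤ 1
        rw [hB]
        refine (totalDegree_add _ _).trans (max_le ?_ (by rw [totalDegree_C]; omega))
        refine (totalDegree_add _ _).trans (max_le ?_ ?_)
        · refine (totalDegree_mul _ _).trans ?_
          rw [totalDegree_C, zero_add, totalDegree_X]
        · refine (totalDegree_mul _ _).trans ?_
          rw [totalDegree_C, zero_add, totalDegree_X]) (by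
        change (a (X 1)).totalDegree = 1
        apply le_antisymm
        · rw [hA]
          refine (totalDegree_add _ _).trans (max_le ?_ (by rw [totalDegree_C]; omega))
          refine (totalDegree_add _ _).trans (max_le ?_ ?_)
          · refine (totalDegree_mul _ _).trans ?_
            rw [totalDegree_C, zero_add, totalDegree_X]
          · refine (totalDegree_mul _ _).trans ?_
            rw [totalDegree_C, zero_add, totalDegree_X]
        · by_contra hcon
          have h2 : (a (X 1)).totalDegree = 0 := by omega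
          rw [totalDegree_eq_zero_iff_eq_C] at h2
          have h3 := a.injective (a₁ := X 1) (a₂ := C (coeff 0 (a (X 1)))) (by rw [hC]; exact h2)
          have h4 := congrArg totalDegree h3
          rw [totalDegree_X, totalDegree_C] at h4
          omega)
    rwa [one_mul, one_mul] at h1

theorem St_list [CharZero k] (L : List (GA k × GA k)) (hL : L ≠ [])
    (h : ∀ p ∈ L, p.1 ∈ AG k ∧ p.1 ∉ EG k ∧ p.2 ∈ EG k ∧ p.2 ∉ AG k) :
    ∃ D, 2 ≤ D ∧ (∀ θ m, 0 < m → St θ m → St (θ * (L.map (fun p => p.1 * p.2)).prod) (m * D)) ∧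
      St (L.map (fun p => p.1 * p.2)).prod D := by
  induction L with
  | nil => exact absurd rfl hL
  | cons p L ih =>
    obtain ⟨h1, h2, h3, h4⟩ := h p (by simp)
    obtain ⟨d, hd, hd1, hd2⟩ := St_step h1 h2 h3 h4
    by_cases hL' : L = []
    · subst hL'
      refine ⟨d, hd, ?_, ?_⟩
      · simpa using hd1
      · simpa using hd2
    · obtain ⟨D, hD, hD1, hD2⟩ := ih hL' (fun q hq => h q (by simp [hq]))
      refine ⟨d * D, by nlinarith, ?_, ?_⟩
      · intro θ m hm hθ
        rw [List.map_cons, List.prod_cons, ← mul_assoc θ, ← mul_assoc m]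
        exact hD1 _ _ (by positivity) (hd1 θ m hm hθ)
      · rw [List.map_cons, List.prod_cons]
        exact hD1 _ _ (by omega) hd2

theorem St_pow [CharZero k] {φ : GA k} {D : ℕ} (hD : 2 ≤ D)
    (h1 : ∀ θ m, 0 < m → St θ m → St (θ * φ) (m * D)) (h2 : St φ D) (n : ℕ) :
    ((φ ^ n) (X 0)).totalDegree = D ^ n := by
  rcases n with _ | n
  · change (X 0 : MvPolynomial (Fin 2) k).totalDegree = 1
    exact totalDegree_X _
  · have : St (φ ^ (n + 1)) (D ^ (n + 1)) := by
      induction n with
      | zero => simpa using h2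
      | succ n ih =>
        rw [pow_succ φ, pow_succ D]
        exact h1 _ _ (by positivity) ih
    exact this.1

end Deg

end Pool.Agent.H922R2
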