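import Mathlib
import Pool.Agent.H922R2.K15

set_option autoImplicit false
set_option linter.unusedSectionVars false
set_option linter.style.haveILetI false

open MvPolynomial

namespace Pool.Agent.H922R2

section NoInv

variable {k : Type*} [Field k]

theorem sum_ne_zero_of_distinct {ι : Type*} (S : Finset ι) (f : ι → MvPolynomial (Fin 2) k)
    (hne : S.Nonempty) (h0 : ∀ i ∈ S, f i ≠ 0)
    (hd : ∀ i ∈ S, ∀ j ∈ S, (f i).totalDegree = (f j).totalDegree → i = j) :
    ∑ i ∈ S, f i ≠ 0 := by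
  classical
  obtain ⟨i, hi, hmax⟩ := Finset.exists_max_image S (fun i => (f i).totalDegree) hne
  rw [← Finset.add_sum_erase S f hi]
  intro h
  by_cases hS : (S.erase i).Nonempty
  · obtain ⟨j, hj⟩ := hS
    have hlt : ∀ j ∈ S.erase i, (f j).totalDegree < (f i).totalDegree := by
      intro j hj
      rw [Finset.mem_erase] at hj
      have h1 := hmax j hj.2
      have h2 : (f j).totalDegree ≠ (f i).totalDegree := fun h => hj.1 (hd j hj.2 i hi h)
      exact lt_of_le_of_ne h1 h2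
    have h1 := hlt j hj
    have h2 : (∑ j ∈ S.erase i, f j).totalDegree ≤ (f i).totalDegree - 1 := by
      apply totalDegree_finsetSum_le
      intro j hj
      have := hlt j hj
      omega
    have h3 : f i = - ∑ j ∈ S.erase i, f j := eq_neg_of_add_eq_zero_left h
    have h4 := congrArg totalDegree h3
    rw [totalDegree_neg] at h4
    omega
  · rw [Finset.not_nonempty_iff_eq_empty] at hS
    rw [hS, Finset.sum_empty, add_zero] at h
    exact h0 i hi h

open Classical in
theorem mem_span_monomials {r : MvPolynomial (Fin 2) k} {n : ℕ} (h : r.totalDegree ≤ n) :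
    r ∈ Submodule.span k ((((Finset.range (n + 1)) ×ˢ (Finset.range (n + 1))).image
      (fun p : ℕ × ℕ => (X 0 ^ p.1 * X 1 ^ p.2 : MvPolynomial (Fin 2) k)) :
        Finset (MvPolynomial (Fin 2) k)) : Set (MvPolynomial (Fin 2) k)) := by
  classical
  rw [r.as_sum]
  apply Submodule.sum_mem
  intro t ht
  have h1 : t 0 ≤ n ∧ t 1 ≤ n := by
    have h2 := fun i => (le_degreeOf i (mem_support_iff.1 ht)).trans
      ((degreeOf_le_totalDegree r i).trans h)
    exact ⟨h2 0, h2 1⟩
  have h3 : monomial t (coeff t r) = coeff t r • (X 0 ^ t 0 * X 1 ^ t 1 : MvPolynomial (Fin 2) k) := by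
    rw [smul_eq_C_mul, monomial_eq, Finsupp.prod_fintype _ _ (by simp), Fin.prod_univ_two]
  rw [h3]
  apply Submodule.smul_mem
  apply Submodule.subset_span
  rw [Finset.mem_coe, Finset.mem_image]
  refine ⟨(t 0, t 1), ?_, rfl⟩
  rw [Finset.mem_product, Finset.mem_range, Finset.mem_range]
  omega

theorem no_semiinv {φ : GA k} {D : ℕ} (hD : 2 ≤ D)
    (hdeg : ∀ n, ((φ ^ n) (X 0)).totalDegree = D ^ n) {c : MvPolynomial (Fin 2) k}
    (hc : ∀ a, c ≠ C a) {l : k} (hl : φ c = C l * c) : False := by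
  classical
  have hc0 : c ≠ 0 := by rintro rfl; exact hc 0 (by simp)
  have hl0 : l ≠ 0 := by
    rintro rfl
    rw [C_0, zero_mul] at hl
    exact hc0 ((map_eq_zero_iff φ φ.injective).1 hl)
  set s := c.totalDegree with hs
  have hspos : 0 < s := by
    rw [Nat.pos_iff_ne_zero]
    intro h
    rw [hs, totalDegree_eq_zero_iff_eq_C] at h
    exact hc _ h
  have hpow : ∀ n, (φ ^ n) c = C (l ^ n) * c := by
    intro n
    induction n with
    | zero => simp
    | succ n ih =>
      rw [pow_succ']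
      change φ ((φ ^ n) c) = _
      rw [ih, map_mul, hl, pow_succ]
      have : φ (C (l ^ n)) = C (l ^ n) := φ.commutes _
      rw [this, C_mul]; ring
  obtain ⟨J, hJ⟩ : ∃ J, J = 5 * s := ⟨_, rfl⟩
  have hJD : J < D ^ J := Nat.lt_pow_self (by omega)
  set g := (φ ^ J).symm (X 0) with hg
  have hgr : ∀ r, (φ ^ (J + r)) g = (φ ^ r) (X 0) := by
    intro r
    rw [add_comm, pow_add]
    change (φ ^ r) ((φ ^ J) g) = _
    rw [hg, AlgEquiv.apply_symm_apply]
  have hX0 : (X 0 : MvPolynomial (Fin 2) k) ≠ 0 := X_ne_zero 0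
  let v : ℕ × ℕ × Fin (J + 1) → MvPolynomial (Fin 2) k := fun p => c ^ p.1 * X 0 ^ p.2.1 * g ^ (p.2.2 : ℕ)
  have hlin : LinearIndependent k v := by
    rw [linearIndependent_iff']
    intro S w hsum
    by_contra hcon
    push Not at hcon
    obtain ⟨i0, hi0, hw0⟩ := hcon
    set S' := S.filter (fun i => w i ≠ 0) with hS'
    have hS'ne : S'.Nonempty := ⟨i0, by rw [hS', Finset.mem_filter]; exact ⟨hi0, hw0⟩⟩
    have hsum' : ∑ i ∈ S', w i • v i = 0 := by
      rw [← hsum, hS', Finset.sum_filter]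
      apply Finset.sum_congr rfl
      intro i _
      split_ifs with h
      · rfl
      · rw [not_not] at h
        rw [h, zero_smul]
    set r := S'.sup (fun i => i.1 * s) with hr
    have hrle : ∀ i ∈ S', i.1 * s < D ^ r := by
      intro i hi
      have h1 : i.1 * s ≤ r := Finset.le_sup (f := fun i : ℕ × ℕ × Fin (J + 1) => i.1 * s) hi
      exact lt_of_le_of_lt h1 (Nat.lt_pow_self (by omega))
    set θ : GA k := φ ^ (J + r) with hθ
    have hsum2 : ∑ i ∈ S', (C (w i) * θ (v i)) = 0 := by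
      have := congrArg θ hsum'
      rw [map_zero, map_sum] at this
      rw [← this]
      apply Finset.sum_congr rfl
      intro i _
      rw [map_smul, smul_eq_C_mul]
    have hne : ∀ i ∈ S', C (w i) * θ (v i) ≠ 0 := by
      intro i hi
      rw [hS', Finset.mem_filter] at hi
      apply mul_ne_zero
      · rw [Ne, C_eq_zero]; exact hi.2
      · rw [Ne, map_eq_zero_iff θ θ.injective]
        refine mul_ne_zero (mul_ne_zero (pow_ne_zero _ hc0) (pow_ne_zero _ hX0)) (pow_ne_zero _ ?_)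
        rw [hg, Ne, map_eq_zero_iff _ (AlgEquiv.injective _)]
        exact hX0
    have htd : ∀ i ∈ S', (C (w i) * θ (v i)).totalDegree =
        i.1 * s + D ^ r * (i.2.1 * D ^ J + (i.2.2 : ℕ)) := by
      intro i hi
      rw [hS', Finset.mem_filter] at hi
      rw [td_C_mul hi.2]
      have e1 : θ (v i) = C ((l ^ (J + r)) ^ i.1) * (c ^ i.1 * ((φ ^ (J + r)) (X 0)) ^ i.2.1 *
          ((φ ^ r) (X 0)) ^ (i.2.2 : ℕ)) := by
        change θ (c ^ i.1 * X 0 ^ i.2.1 * g ^ (i.2.2 : ℕ)) = _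
        have e0 : (C (l ^ (J + r)) * c) ^ i.1 = C ((l ^ (J + r)) ^ i.1) * c ^ i.1 := by
          rw [mul_pow, ← C_pow]
        rw [map_mul, map_mul, map_pow, map_pow, map_pow, hθ, hpow, hgr, e0]
        ring
      have hx : ∀ n, (φ ^ n) (X 0) ≠ 0 := by
        intro n
        rw [Ne, map_eq_zero_iff _ (AlgEquiv.injective _)]
        exact hX0
      rw [e1, td_C_mul (pow_ne_zero _ (pow_ne_zero _ hl0)),
        totalDegree_mul_of_isDomain (mul_ne_zero (pow_ne_zero _ hc0) (pow_ne_zero _ (hx _)))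
          (pow_ne_zero _ (hx _)),
        totalDegree_mul_of_isDomain (pow_ne_zero _ hc0) (pow_ne_zero _ (hx _)),
        td_pow hc0, td_pow (hx _), td_pow (hx _), hdeg, hdeg, ← hs, pow_add]
      ring
    refine sum_ne_zero_of_distinct S' _ hS'ne hne ?_ hsum2
    intro i hi j hj hij
    rw [htd i hi, htd j hj] at hij
    have h1 := hrle i hi
    have h2 := hrle j hj
    have hDr : 0 < D ^ r := by positivity
    have e1 : i.1 * s = j.1 * s := by
      have := congrArg (· % D ^ r) hij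
      simp only [Nat.add_mul_mod_self_left] at this
      rwa [Nat.mod_eq_of_lt h1, Nat.mod_eq_of_lt h2] at this
    have e2 : i.2.1 * D ^ J + (i.2.2 : ℕ) = j.2.1 * D ^ J + (j.2.2 : ℕ) := by
      rw [e1] at hij
      exact Nat.eq_of_mul_eq_mul_left hDr (Nat.add_left_cancel hij)
    have hi2 : (i.2.2 : ℕ) < D ^ J := lt_of_le_of_lt (Nat.lt_succ_iff.1 i.2.2.2) hJD
    have hj2 : (j.2.2 : ℕ) < D ^ J := lt_of_le_of_lt (Nat.lt_succ_iff.1 j.2.2.2) hJD
    have e3 : (i.2.2 : ℕ) = (j.2.2 : ℕ) := by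
      have := congrArg (· % D ^ J) e2
      simp only [Nat.mul_add_mod_self_right] at this
      rwa [Nat.mod_eq_of_lt hi2, Nat.mod_eq_of_lt hj2] at this
    have e4 : i.2.1 = j.2.1 := by
      rw [e3] at e2
      exact Nat.eq_of_mul_eq_mul_right (by positivity) (Nat.add_right_cancel e2)
    have e5 : i.1 = j.1 := Nat.eq_of_mul_eq_mul_right hspos e1
    exact Prod.ext e5 (Prod.ext e4 (Fin.ext e3))
  -- counting
  set dg := g.totalDegree with hdg
  obtain ⟨Cst, hCst⟩ : ∃ Cst, Cst = 5 * s * dg + 1 := ⟨_, rfl⟩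
  obtain ⟨T, hT⟩ : ∃ T, T = 5 * Cst := ⟨_, rfl⟩
  obtain ⟨n, hn⟩ : ∃ n, n = 2 * s * T + J * dg := ⟨_, rfl⟩
  let inj : Fin (T + 1) × Fin (s * T + 1) × Fin (J + 1) → ℕ × ℕ × Fin (J + 1) :=
    fun p => ((p.1 : ℕ), (p.2.1 : ℕ), p.2.2)
  have hinj : Function.Injective inj := by
    rintro ⟨a, b, j⟩ ⟨a', b', j'⟩ h
    simp only [inj, Prod.mk.injEq] at h
    obtain ⟨h1, h2, h3⟩ := h
    exact Prod.ext (Fin.ext h1) (Prod.ext (Fin.ext h2) h3)
  have hlin2 : LinearIndependent k (v ∘ inj) := hlin.comp inj hinj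
  set W : Finset (MvPolynomial (Fin 2) k) := ((Finset.range (n + 1)) ×ˢ (Finset.range (n + 1))).image
      (fun p : ℕ × ℕ => (X 0 ^ p.1 * X 1 ^ p.2 : MvPolynomial (Fin 2) k)) with hW
  have hspan : Set.range (v ∘ inj) ≤ Submodule.span k (W : Set (MvPolynomial (Fin 2) k)) := by
    rintro _ ⟨⟨a, b, j⟩, rfl⟩
    apply mem_span_monomials
    change (c ^ (a : ℕ) * X 0 ^ (b : ℕ) * g ^ (j : ℕ)).totalDegree ≤ n
    refine (totalDegree_mul _ _).trans ?_
    refine (Nat.add_le_add (totalDegree_mul _ _) (totalDegree_pow _ _)).trans ?_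
    refine (Nat.add_le_add (Nat.add_le_add (totalDegree_pow _ _) (totalDegree_pow _ _)) le_rfl).trans ?_
    rw [totalDegree_X, ← hs, ← hdg, mul_one]
    have ha : (a : ℕ) ≤ T := Nat.lt_succ_iff.1 a.2
    have hb : (b : ℕ) ≤ s * T := Nat.lt_succ_iff.1 b.2
    have hj : (j : ℕ) ≤ J := Nat.lt_succ_iff.1 j.2
    have h1 : (a : ℕ) * s ≤ s * T := by rw [mul_comm]; exact Nat.mul_le_mul_left _ ha
    have h2 : (j : ℕ) * dg ≤ J * dg := Nat.mul_le_mul_right _ hj
    rw [hn]
    have : 2 * s * T = s * T + s * T := by ring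
    omega
  have hcard := linearIndependent_le_span_aux' (v ∘ inj) hlin2 (W : Set (MvPolynomial (Fin 2) k)) hspan
  simp only [Fintype.card_prod, Fintype.card_fin, Finset.coe_sort_coe, Fintype.card_coe] at hcard
  have hWc : W.card ≤ (n + 1) * (n + 1) := by
    refine (Finset.card_image_le).trans ?_
    rw [Finset.card_product, Finset.card_range]
  have hfin := hcard.trans hWc
  have hn1 : n + 1 = 2 * s * T + Cst := by rw [hn, hCst, hJ]; ring
  rw [hn1, hJ, hT] at hfin
  have hCpos : 0 < Cst := by omega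
  have h1 : 5 * Cst * (s * (5 * Cst)) * (5 * s) <
      (5 * Cst + 1) * ((s * (5 * Cst) + 1) * (5 * s + 1)) := by
    have e1 : 5 * Cst * (s * (5 * Cst)) * (5 * s) ≤ (5 * Cst) * ((s * (5 * Cst) + 1) * (5 * s + 1)) := by
      rw [mul_assoc]
      apply Nat.mul_le_mul_left
      exact Nat.mul_le_mul (by omega) (by omega)
    have e2 : 0 < (s * (5 * Cst) + 1) * (5 * s + 1) := by positivity
    have e3 : (5 * Cst + 1) * ((s * (5 * Cst) + 1) * (5 * s + 1)) =
      (5 * Cst) * ((s * (5 * Cst) + 1) * (5 * s + 1)) + (s * (5 * Cst) + 1) * (5 * s + 1) := by ring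
    omega
  have h2 : (2 * s * (5 * Cst) + Cst) * (2 * s * (5 * Cst) + Cst) ≤
      5 * Cst * (s * (5 * Cst)) * (5 * s) := by
    have e1 : (2 * s * (5 * Cst) + Cst) * (2 * s * (5 * Cst) + Cst) =
      (100 * s * s + 20 * s + 1) * (Cst * Cst) := by ring
    have e2 : 5 * Cst * (s * (5 * Cst)) * (5 * s) = (125 * s * s) * (Cst * Cst) := by ring
    rw [e1, e2]
    apply Nat.mul_le_mul_right
    nlinarith
  omega

end NoInv

end Pool.Agent.H922R2
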