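import Mathlib
import Pool.Agent.Helper165.P1.Pui
import Pool.Agent.H922R2.K2

set_option autoImplicit false
set_option linter.unusedSectionVars false
set_option linter.style.haveILetI false

open MvPolynomial

namespace Pool.Agent.H922R2

open Pool.Agent.Helper165.P1 (HQ Pui)

section Hahn

variable {E : Type*} [Field E]

/-- Euler operator on Hahn series with rational exponents. -/
noncomputable def eulerFun (x : HahnSeries ℚ E) : HahnSeries ℚ E where
  coeff q := (q : E) * x.coeff q
  isPWO_support' := x.isPWO_support.mono (by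
    intro q hq
    simp only [Function.mem_support] at hq
    exact right_ne_zero_of_mul hq)

theorem eulerFun_coeff (x : HahnSeries ℚ E) (q : ℚ) : (eulerFun x).coeff q = (q : E) * x.coeff q := rfl

theorem eulerFun_support (x : HahnSeries ℚ E) : (eulerFun x).support ⊆ x.support := by
  intro q hq
  rw [HahnSeries.mem_support, eulerFun_coeff] at hq
  exact right_ne_zero_of_mul hq

variable [CharZero E]

theorem eulerFun_mul (x y : HahnSeries ℚ E) : eulerFun (x * y) = x * eulerFun y + y * eulerFun x := by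
  ext q
  rw [eulerFun_coeff, HahnSeries.coeff_add, mul_comm y, HahnSeries.coeff_mul,
    HahnSeries.coeff_mul_right' y.isPWO_support (eulerFun_support y),
    HahnSeries.coeff_mul_left' x.isPWO_support (eulerFun_support x),
    Finset.mul_sum, ← Finset.sum_add_distrib]
  apply Finset.sum_congr rfl
  rintro ⟨i, j⟩ hij
  rw [Finset.mem_antidiagonal] at hij
  obtain ⟨_, _, rfl⟩ := hij
  simp only [eulerFun_coeff]
  push_cast
  ring

/-- A bare-hands notion of derivation. -/
structure IsDer {A : Type*} [CommRing A] (δ : A → A) : Prop where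
  add : ∀ x y, δ (x + y) = δ x + δ y
  mul : ∀ x y, δ (x * y) = x * δ y + y * δ x

theorem eulerFun_isDer : IsDer (eulerFun (E := E)) where
  add x y := by
    ext q
    rw [HahnSeries.coeff_add, eulerFun_coeff, eulerFun_coeff, eulerFun_coeff, HahnSeries.coeff_add, mul_add]
  mul := eulerFun_mul

/-- all coefficients below `r` vanish -/
def LB (r : ℚ) (x : HahnSeries ℚ E) : Prop := ∀ q < r, x.coeff q = 0

theorem LB.mono {r s : ℚ} {x : HahnSeries ℚ E} (h : LB r x) (hs : s ≤ r) : LB s x :=
  fun q hq => h q (hq.trans_le hs)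

theorem LB.mul {r s : ℚ} {x y : HahnSeries ℚ E} (hx : LB r x) (hy : LB s y) : LB (r + s) (x * y) := by
  intro q hq
  rw [HahnSeries.coeff_mul]
  apply Finset.sum_eq_zero
  rintro ⟨i, j⟩ hij
  rw [Finset.mem_antidiagonal] at hij
  obtain ⟨_, _, h⟩ := hij
  simp only at h ⊢
  by_cases hi : i < r
  · rw [hx i hi, zero_mul]
  · have : j < s := by linarith
    rw [hy j this, mul_zero]

theorem LB.add {r : ℚ} {x y : HahnSeries ℚ E} (hx : LB r x) (hy : LB r y) : LB r (x + y) := by
  intro q hq
  rw [HahnSeries.coeff_add, hx q hq, hy q hq, add_zero]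

theorem LB.sum {ι : Type*} {r : ℚ} {s : Finset ι} {f : ι → HahnSeries ℚ E} (h : ∀ i ∈ s, LB r (f i)) :
    LB r (∑ i ∈ s, f i) := by
  intro q hq
  rw [HahnSeries.coeff_sum]
  exact Finset.sum_eq_zero fun i hi => h i hi q hq

theorem LB_one : LB 0 (1 : HahnSeries ℚ E) := by
  intro q hq
  rw [HahnSeries.coeff_one, if_neg hq.ne]

theorem LB.pow {r : ℚ} {x : HahnSeries ℚ E} (hx : LB r x) (n : ℕ) : LB (n * r) (x ^ n) := by
  induction n with
  | zero => simpa using LB_one
  | succ n ih =>
    rw [pow_succ]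
    have := ih.mul hx
    refine this.mono ?_
    push_cast; linarith

theorem LB_order {x : HahnSeries ℚ E} (hx : x ≠ 0) : LB x.order x := by
  intro q hq
  exact HahnSeries.coeff_eq_zero_of_lt_order hq

theorem exists_LB (x : HahnSeries ℚ E) : ∃ d : ℕ, LB (-(d : ℚ)) x := by
  by_cases hx : x = 0
  · exact ⟨0, fun q _ => by rw [hx]; rfl⟩
  · obtain ⟨d, hd⟩ := exists_nat_ge (-x.order)
    exact ⟨d, (LB_order hx).mono (by linarith)⟩

/-- Twisted Euler derivation `d/du` where `u = a t⁻¹`. -/
noncomputable def ddu (c : E) (x : HahnSeries ℚ E) : HahnSeries ℚ E :=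
  (HahnSeries.single (1 : ℚ) (-c)) * eulerFun x

theorem ddu_isDer (c : E) : IsDer (ddu c) where
  add x y := by
    unfold ddu
    rw [eulerFun_isDer.add, mul_add]
  mul x y := by
    unfold ddu
    rw [eulerFun_isDer.mul]
    ring

theorem ddu_apply (c : E) (x : HahnSeries ℚ E) :
    ddu c x = HahnSeries.single (1 : ℚ) (-c) * eulerFun x := rfl

theorem LB.ddu {r : ℚ} {x : HahnSeries ℚ E} (hx : LB r x) (c : E) : LB (r + 1) (ddu c x) := by
  rw [ddu_apply, add_comm]
  apply LB.mul
  · intro q hq
    exact HahnSeries.coeff_single_of_ne hq.ne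
  · intro q hq
    rw [eulerFun_coeff, hx q hq, mul_zero]

theorem LB.ddu_iterate {r : ℚ} {x : HahnSeries ℚ E} (hx : LB r x) (c : E) (N : ℕ) :
    LB (r + N) ((Pool.Agent.H922R2.ddu c)^[N] x) := by
  induction N with
  | zero => simpa using hx
  | succ N ih =>
    rw [Function.iterate_succ_apply']
    have := ih.ddu c
    refine this.mono ?_
    push_cast; linarith

/-- all coefficients at nonpositive exponents vanish -/
def LBpos (x : HahnSeries ℚ E) : Prop := ∀ q ≤ 0, x.coeff q = 0

theorem LB.pos {r : ℚ} {x : HahnSeries ℚ E} (hx : LB r x) (hr : 0 < r) : LBpos x :=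
  fun q hq => hx q (hq.trans_lt hr)

theorem LBpos.LB {x : HahnSeries ℚ E} (hx : LBpos x) : Pool.Agent.H922R2.LB 0 x :=
  fun q hq => hx q hq.le

theorem LBpos.mul_LB {x y : HahnSeries ℚ E} (hx : LBpos x) (hy : Pool.Agent.H922R2.LB 0 y) :
    LBpos (x * y) := by
  intro q hq
  rw [HahnSeries.coeff_mul]
  apply Finset.sum_eq_zero
  rintro ⟨i, j⟩ hij
  rw [Finset.mem_antidiagonal] at hij
  obtain ⟨_, _, h⟩ := hij
  simp only at h ⊢
  by_cases hi : i ≤ 0
  · rw [hx i hi, zero_mul]
  · push Not at hi
    have : j < 0 := by linarith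
    rw [hy j this, mul_zero]

theorem LB_multiset_prod (s : Multiset (HahnSeries ℚ E)) (hs : ∀ x ∈ s, LBpos x) :
    LB 0 s.prod ∧ (s ≠ 0 → LBpos s.prod) := by
  induction s using Multiset.induction_on with
  | empty => exact ⟨by simpa using LB_one, fun h => absurd rfl h⟩
  | cons a s ih =>
    have ih' := ih fun x hx => hs x (Multiset.mem_cons_of_mem hx)
    have ha := hs a (Multiset.mem_cons_self a s)
    rw [Multiset.prod_cons]
    have := ha.mul_LB ih'.1
    exact ⟨this.LB, fun _ => this⟩

/-- Roots of monic polynomials with bounded coefficients are bounded. -/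
theorem LB_of_root (p : Polynomial (HahnSeries ℚ E)) (hp : p.Monic) (d : ℚ) (hd : 0 ≤ d)
    (hc : ∀ i, LB (-d) (p.coeff i)) (x : HahnSeries ℚ E) (hx : p.eval x = 0) : LB (-d) x := by
  by_cases hx0 : x = 0
  · rw [hx0]; intro q _; rfl
  refine (LB_order hx0).mono ?_
  by_contra hlt
  push Not at hlt
  set r := x.order with hr
  set m := p.natDegree with hm
  have h1 : (x ^ m).coeff (m * r) ≠ 0 := by
    have h2 : (x ^ m).order = m • r := by rw [HahnSeries.order_pow]
    have h3 : (x ^ m).coeff ((x ^ m).order) ≠ 0 := HahnSeries.coeff_order_eq_zero.not.2 (pow_ne_zero _ hx0)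
    rw [h2, nsmul_eq_mul] at h3
    exact h3
  apply h1
  have h4 : x ^ m = - ∑ i ∈ Finset.range m, p.coeff i * x ^ i := by
    have h5 := Polynomial.eval_eq_sum_range (p := p) x
    rw [hx, Finset.sum_range_succ, ← hm, hp.coeff_natDegree, one_mul] at h5
    linear_combination -h5
  rw [h4, HahnSeries.coeff_neg, HahnSeries.coeff_sum, neg_eq_zero]
  apply Finset.sum_eq_zero
  intro i hi
  rw [Finset.mem_range] at hi
  apply ((hc i).mul ((LB_order hx0).pow i))
  have hi' : (i : ℚ) + 1 ≤ m := by exact_mod_cast hi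
  have : (m : ℚ) * r ≤ (i + 1) * r := by nlinarith
  linarith

end Hahn

end Pool.Agent.H922R2
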