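import Mathlib
import Pool.Agent.H922R2.K3

set_option autoImplicit false
set_option linter.unusedSectionVars false
set_option linter.style.haveILetI false

open MvPolynomial

namespace Pool.Agent.H922R2

open Pool.Agent.Helper165.P1 (HQ Pui)

section IsDer

variable {A : Type*} [CommRing A] {δ : A → A}

theorem IsDer.zero (h : IsDer δ) : δ 0 = 0 := by
  have := h.add 0 0
  simpa using this

theorem IsDer.one (h : IsDer δ) : δ 1 = 0 := by
  have := h.mul 1 1
  simpa using this

theorem IsDer.sum (h : IsDer δ) {ι : Type*} (s : Finset ι) (f : ι → A) :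
    δ (∑ i ∈ s, f i) = ∑ i ∈ s, δ (f i) := by
  classical
  induction s using Finset.induction_on with
  | empty => simpa using h.zero
  | insert a s ha ih => rw [Finset.sum_insert ha, Finset.sum_insert ha, h.add, ih]

theorem IsDer.pow (h : IsDer δ) (x : A) (n : ℕ) : δ (x ^ (n + 1)) = (n + 1 : ℕ) * x ^ n * δ x := by
  induction n with
  | zero => simp
  | succ n ih =>
    rw [pow_succ, h.mul, ih]
    push_cast
    ring

theorem IsDer.eval₂ (h : IsDer δ) {S : Type*} [CommRing S] (ι : S →+* A) (x : A)
    (p : Polynomial S) :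
    δ (p.eval₂ ι x) = (∑ i ∈ p.support, δ (ι (p.coeff i)) * x ^ i) + p.derivative.eval₂ ι x * δ x := by
  rw [Polynomial.eval₂_eq_sum, Polynomial.sum_def, h.sum]
  have h1 : p.derivative.eval₂ ι x = ∑ i ∈ p.support, ι (p.coeff i) * (i : A) * x ^ (i - 1) := by
    conv_lhs => rw [p.as_sum_support_C_mul_X_pow, Polynomial.derivative_sum, Polynomial.eval₂_finsetSum]
    apply Finset.sum_congr rfl
    intro i _
    rw [Polynomial.derivative_C_mul_X_pow]
    simp [Polynomial.eval₂_mul]
  rw [h1, Finset.sum_mul, ← Finset.sum_add_distrib]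
  apply Finset.sum_congr rfl
  intro i _
  rw [h.mul]
  rcases i with _ | i
  · simp [h.one]
  · rw [h.pow]
    simp only [Nat.add_sub_cancel]
    ring

end IsDer

section Embed

variable {k : Type*} [Field k] {σ : Type*} [Fintype σ] [DecidableEq σ]

/-- The big algebraically closed field. -/
abbrev EE (k : Type*) [Field k] (σ : Type*) : Type _ :=
  AlgebraicClosure (FractionRing (MvPolynomial σ k))

/-- inclusion of polynomials -/
noncomputable def iE (k : Type*) [Field k] (σ : Type*) : MvPolynomial σ k →+* EE k σ :=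
  (algebraMap (FractionRing (MvPolynomial σ k)) (EE k σ)).comp
    (algebraMap (MvPolynomial σ k) (FractionRing (MvPolynomial σ k)))

theorem iE_injective : Function.Injective (iE k σ) :=
  (algebraMap (FractionRing (MvPolynomial σ k)) (EE k σ)).injective.comp
    (IsFractionRing.injective _ _)

/-- The embedding of polynomials in Hahn series, isolating the variable `i₀`. -/
noncomputable def e0 (k : Type*) [Field k] (σ : Type*) [DecidableEq σ] (i₀ : σ) :
    MvPolynomial σ k →+* HQ (EE k σ) :=
  eval₂Hom ((HahnSeries.C).comp ((iE k σ).comp C))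
    (fun j => HahnSeries.single (if j = i₀ then (-1 : ℚ) else 0) (iE k σ (X j)))

theorem e0_monomial (i₀ : σ) (m : σ →₀ ℕ) (a : k) :
    e0 k σ i₀ (monomial m a) = HahnSeries.single (-(m i₀ : ℚ)) (iE k σ (monomial m a)) := by
  rw [e0, coe_eval₂Hom, eval₂_monomial]
  have h1 : (m.prod fun n e => (HahnSeries.single (if n = i₀ then (-1 : ℚ) else 0) (iE k σ (X n))) ^ e) =
      HahnSeries.single (-(m i₀ : ℚ)) (iE k σ (monomial m 1)) := by
    rw [monomial_eq, C_1, one_mul, Finsupp.prod_fintype _ _ (by simp), Finsupp.prod_fintype _ _ (by simp)]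
    simp only [HahnSeries.single_pow, map_prod, map_pow]
    have h2 : ∀ s : Finset σ, (∏ i ∈ s, HahnSeries.single (m i • (if i = i₀ then (-1 : ℚ) else 0)) (iE k σ (X i) ^ m i)) =
        HahnSeries.single (∑ i ∈ s, m i • (if i = i₀ then (-1 : ℚ) else 0)) (∏ i ∈ s, iE k σ (X i) ^ m i) := by
      intro s
      induction s using Finset.induction_on with
      | empty => simp
      | insert a s ha ih =>
        rw [Finset.prod_insert ha, ih, Finset.sum_insert ha, Finset.prod_insert ha, HahnSeries.single_mul_single]
    rw [h2]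
    congr 2
    rw [Finset.sum_eq_single i₀]
    · simp
    · intro b _ hb; simp [hb]
    · simp
  rw [h1]
  have h3 : (HahnSeries.C.comp ((iE k σ).comp C)) a = HahnSeries.single (0 : ℚ) (iE k σ (C a)) := rfl
  rw [h3, HahnSeries.single_mul_single, zero_add, ← map_mul, C_mul_monomial, mul_one]

/-- Nonzero polynomials have a nonzero coefficient at a nonpositive exponent. -/
theorem e0_ne (i₀ : σ) (p : MvPolynomial σ k) (hp : p ≠ 0) : ¬ LBpos (e0 k σ i₀ p) := by
  obtain ⟨m, hm⟩ := support_nonempty.2 hp
  intro h
  have h1 := h (-(m i₀ : ℚ)) (by simp)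
  rw [p.as_sum, map_sum, HahnSeries.coeff_sum] at h1
  have h2 : ∀ x ∈ p.support, (e0 k σ i₀ (monomial x (coeff x p))).coeff (-(m i₀ : ℚ)) =
      iE k σ (if x i₀ = m i₀ then monomial x (coeff x p) else 0) := by
    intro x _
    rw [e0_monomial, HahnSeries.coeff_single]
    by_cases h : x i₀ = m i₀
    · simp [h]
    · rw [if_neg, if_neg h, map_zero]
      intro h'
      apply h
      have : (m i₀ : ℚ) = x i₀ := by linarith
      exact_mod_cast this.symm
  rw [Finset.sum_congr rfl h2, ← map_sum] at h1
  have h3 : (∑ x ∈ p.support, (if x i₀ = m i₀ then monomial x (coeff x p) else 0)) = 0 :=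
    iE_injective (by rw [h1, map_zero])
  have h4 := congrArg (coeff m) h3
  rw [coeff_sum, Finset.sum_eq_single m] at h4
  · rw [if_pos rfl, coeff_monomial, if_pos rfl, coeff_zero] at h4
    exact (mem_support_iff.1 hm) h4
  · intro b _ hb
    split_ifs
    · rw [coeff_monomial, if_neg hb]
    · simp
  · intro h; exact absurd hm h

theorem e0_injective (i₀ : σ) : Function.Injective (e0 k σ i₀) := by
  rw [injective_iff_map_eq_zero]
  intro p hp
  by_contra hne
  exact e0_ne i₀ p hne (by rw [hp]; intro q _; rfl)

variable [CharZero k]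

instance : CharZero (EE k σ) :=
  charZero_of_injective_ringHom (f := (iE k σ).comp C)
    ((iE_injective (k := k) (σ := σ)).comp (C_injective σ k))

/-- The derivation is compatible. -/
theorem e0_pderiv (i₀ : σ) (p : MvPolynomial σ k) :
    ddu (iE k σ (X i₀))⁻¹ (e0 k σ i₀ p) = e0 k σ i₀ (pderiv i₀ p) := by
  have hX : iE k σ (X i₀) ≠ 0 := fun h => X_ne_zero (R := k) i₀ (iE_injective (by rw [h, map_zero]))
  induction p using MvPolynomial.induction_on' with
  | monomial m a =>
    rw [pderiv_monomial, e0_monomial, e0_monomial, ddu_apply]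
    have h1 : eulerFun (HahnSeries.single (-(m i₀ : ℚ)) (iE k σ (monomial m a))) =
        HahnSeries.single (-(m i₀ : ℚ)) (-(m i₀ : EE k σ) * (iE k σ (monomial m a))) := by
      ext q
      rw [eulerFun_coeff, HahnSeries.coeff_single, HahnSeries.coeff_single]
      split_ifs with h
      · rw [h]; push_cast; ring
      · simp
    rw [h1, HahnSeries.single_mul_single]
    by_cases hm : m i₀ = 0
    · simp [hm]
    · congr 1
      · congr 1
        simp only [Finsupp.coe_tsub, Pi.sub_apply, Finsupp.single_eq_same]
        rw [Nat.cast_sub (by omega)]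
        push_cast; ring
      · have h2 : monomial m a = X i₀ * monomial (m - Finsupp.single i₀ 1) a := by
          have h5 : Finsupp.single i₀ 1 ≤ m := by rw [Finsupp.single_le_iff]; omega
          rw [X, monomial_mul, one_mul, add_comm, tsub_add_cancel_of_le h5]
        have h3 : (monomial (m - Finsupp.single i₀ 1)) (a * (m i₀ : k)) =
            (m i₀ : MvPolynomial σ k) * monomial (m - Finsupp.single i₀ 1) a := by
          rw [← C_eq_coe_nat, C_mul_monomial, mul_comm]
        rw [h3, map_mul, map_natCast, h2, map_mul]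
        field_simp
  | add p q hp hq => rw [map_add, (ddu_isDer _).add, hp, hq, map_add, map_add]

theorem single_mem_Pui {E : Type*} [Field E] (n : ℤ) (a : E) : HahnSeries.single (n : ℚ) a ∈ Pui E := by
  have := Pool.Agent.Helper165.P1.eHom_mem (E := E) 1 one_pos (HahnSeries.single n a)
  have h2 : Pool.Agent.Helper165.P1.eHom (E := E) 1 one_pos (HahnSeries.single n a) =
      HahnSeries.single (n : ℚ) a := by
    unfold Pool.Agent.Helper165.P1.eHom
    rw [HahnSeries.embDomainRingHom_apply]
    erw [HahnSeries.embDomain_single]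
    congr 1
    simp [Pool.Agent.Helper165.P1.divHom]
  rwa [h2] at this

theorem e0_mem (i₀ : σ) (p : MvPolynomial σ k) : e0 k σ i₀ p ∈ Pui (EE k σ) := by
  induction p using MvPolynomial.induction_on' with
  | monomial m a =>
    rw [e0_monomial]
    have := single_mem_Pui (-(m i₀ : ℤ)) (iE k σ (monomial m a))
    push_cast at this
    exact this
  | add p q hp hq => rw [map_add]; exact add_mem hp hq

/-- The embedding in Puiseux series. -/
noncomputable def e1 (k : Type*) [Field k] [CharZero k] (σ : Type*) [Fintype σ] [DecidableEq σ] (i₀ : σ) :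
    MvPolynomial σ k →+* Pui (EE k σ) :=
  (e0 k σ i₀).codRestrict (Pui (EE k σ)) (e0_mem i₀)

theorem e1_coe (i₀ : σ) (p : MvPolynomial σ k) : ((e1 k σ i₀ p : Pui (EE k σ)) : HQ (EE k σ)) = e0 k σ i₀ p := rfl

theorem e1_injective (i₀ : σ) : Function.Injective (e1 k σ i₀) := by
  intro a b h
  exact e0_injective i₀ (by rw [← e1_coe, h, e1_coe])

end Embed

end Pool.Agent.H922R2
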