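import Mathlib
import Pool.Agent.H922R2.K4

set_option autoImplicit false
set_option linter.unusedSectionVars false
set_option linter.style.haveILetI false

open MvPolynomial

namespace Pool.Agent.H922R2

open Pool.Agent.Helper165.P1 (HQ Pui)

section

variable {k : Type*} [Field k] [CharZero k] {σ : Type*} [Fintype σ] [DecidableEq σ]
variable {B : Type*} [CommRing B] [IsDomain B]

theorem exists_hom (ι : MvPolynomial σ k →+* B) (hι : Function.Injective ι) (hint : ι.IsIntegral)
    (i₀ : σ) (b : B) (hb : b ≠ 0) :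
    ∃ ψ : B →+* Pui (EE k σ), ψ.comp ι = e1 k σ i₀ ∧ ¬ LBpos ((ψ b : Pui (EE k σ)) : HQ (EE k σ)) := by
  classical
  letI : Algebra (MvPolynomial σ k) B := ι.toAlgebra
  have hmap : algebraMap (MvPolynomial σ k) B = ι := rfl
  haveI : FaithfulSMul (MvPolynomial σ k) B := (faithfulSMul_iff_algebraMap_injective _ _).2 hι
  haveI : Algebra.IsIntegral (MvPolynomial σ k) B := ⟨hint⟩
  letI : Algebra (MvPolynomial σ k) (Pui (EE k σ)) := (e1 k σ i₀).toAlgebra
  have hmapP : algebraMap (MvPolynomial σ k) (Pui (EE k σ)) = e1 k σ i₀ := rfl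
  haveI : FaithfulSMul (MvPolynomial σ k) (Pui (EE k σ)) :=
    (faithfulSMul_iff_algebraMap_injective _ _).2 (e1_injective i₀)
  letI := FractionRing.liftAlgebra (MvPolynomial σ k) (Pui (EE k σ))
  letI := FractionRing.liftAlgebra (MvPolynomial σ k) (FractionRing B)
  haveI := FractionRing.isScalarTower_liftAlgebra (MvPolynomial σ k) (Pui (EE k σ))
  haveI := FractionRing.isScalarTower_liftAlgebra (MvPolynomial σ k) (FractionRing B)
  haveI : Algebra.IsAlgebraic (MvPolynomial σ k) B := inferInstance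
  haveI : Algebra.IsAlgebraic (FractionRing (MvPolynomial σ k)) (FractionRing B) := by
    have := (IsFractionRing.isAlgebraic_iff' (MvPolynomial σ k) B (FractionRing B)).1 inferInstance
    exact ⟨fun _ ↦ (IsFractionRing.isAlgebraic_iff (MvPolynomial σ k)
      (FractionRing (MvPolynomial σ k)) (FractionRing B)).1 (Algebra.IsAlgebraic.isAlgebraic _)⟩
  have hbint : IsIntegral (MvPolynomial σ k) b := Algebra.IsIntegral.isIntegral b
  set b' : FractionRing B := algebraMap B (FractionRing B) b with hb'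
  have hμ : minpoly (FractionRing (MvPolynomial σ k)) b' =
      (minpoly (MvPolynomial σ k) b).map (algebraMap _ _) :=
    minpoly.isIntegrallyClosed_eq_field_fractions _ _ hbint
  by_contra hcon
  push Not at hcon
  -- all roots have positive order
  have hroots : ∀ ρ ∈ ((minpoly (FractionRing (MvPolynomial σ k)) b').map
      (algebraMap _ (Pui (EE k σ)))).roots, LBpos ((ρ : Pui (EE k σ)) : HQ (EE k σ)) := by
    intro ρ hρ
    have h1 : ρ ∈ (minpoly (FractionRing (MvPolynomial σ k)) b').rootSet (Pui (EE k σ)) := by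
      have h0 := (Polynomial.mem_roots'.1 hρ)
      rw [Polynomial.mem_rootSet']
      refine ⟨h0.1, ?_⟩
      rw [Polynomial.aeval_def, ← Polynomial.eval_map]
      exact h0.2
    rw [← Algebra.IsAlgebraic.range_eval_eq_rootSet_minpoly] at h1
    obtain ⟨ψ, hψ⟩ := h1
    have h2 := hcon ((ψ : FractionRing B →+* Pui (EE k σ)).comp (algebraMap B (FractionRing B))) (by
      apply RingHom.ext
      intro p
      simp only [RingHom.comp_apply]
      have : algebraMap B (FractionRing B) (ι p) = algebraMap (FractionRing (MvPolynomial σ k))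
          (FractionRing B) (algebraMap (MvPolynomial σ k) (FractionRing (MvPolynomial σ k)) p) := by
        rw [← IsScalarTower.algebraMap_apply, ← hmap, ← IsScalarTower.algebraMap_apply]
      rw [this, RingHom.coe_coe, AlgHom.commutes, ← IsScalarTower.algebraMap_apply, hmapP])
    simp only [RingHom.comp_apply, RingHom.coe_coe] at h2
    rw [← hb'] at h2
    change ψ b' = ρ at hψ
    rwa [hψ] at h2
  have hsplit : ((minpoly (FractionRing (MvPolynomial σ k)) b').map
      (algebraMap _ (Pui (EE k σ)))).Splits := IsAlgClosed.splits _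
  have hb'int : IsIntegral (FractionRing (MvPolynomial σ k)) b' := Algebra.IsIntegral.isIntegral b'
  have hmonic := (minpoly.monic hb'int).map (algebraMap _ (Pui (EE k σ)))
  have h3 := hsplit.coeff_zero_eq_prod_roots_of_monic hmonic
  have h4 : ((minpoly (FractionRing (MvPolynomial σ k)) b').map
      (algebraMap _ (Pui (EE k σ)))).roots ≠ 0 := by
    intro h0
    have h5 := hsplit.natDegree_eq_card_roots
    rw [h0, Multiset.card_zero, Polynomial.natDegree_map] at h5
    exact (minpoly.natDegree_pos hb'int).ne' h5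
  have h6 : LBpos ((((minpoly (FractionRing (MvPolynomial σ k)) b').map
      (algebraMap _ (Pui (EE k σ)))).roots.prod : Pui (EE k σ)) : HQ (EE k σ)) := by
    have h7 := LB_multiset_prod (Multiset.map (Pui (EE k σ)).subtype
      ((minpoly (FractionRing (MvPolynomial σ k)) b').map (algebraMap _ (Pui (EE k σ)))).roots) (by
        intro x hx
        obtain ⟨ρ, hρ, rfl⟩ := Multiset.mem_map.1 hx
        exact hroots ρ hρ)
    have h8 := h7.2 (by simpa using h4)
    rw [← map_multiset_prod] at h8
    exact h8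
  -- the constant coefficient
  have h9 : (minpoly (MvPolynomial σ k) b).coeff 0 ≠ 0 := by
    intro h0
    apply minpoly.coeff_zero_ne_zero hb'int
    · intro h; exact hb (IsFractionRing.injective B (FractionRing B) (by rw [← hb', h, map_zero]))
    · rw [hμ, Polynomial.coeff_map, h0, map_zero]
  apply e0_ne i₀ _ h9
  rw [hμ, Polynomial.map_map, ← IsScalarTower.algebraMap_eq, Polynomial.coeff_map, hmapP] at h3
  rw [← e1_coe, h3]
  rw [hμ, Polynomial.map_map, ← IsScalarTower.algebraMap_eq, hmapP] at h6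
  have h10 : LB 0 (((-1 : Pui (EE k σ)) ^ ((minpoly (MvPolynomial σ k) b).map (e1 k σ i₀)).natDegree : Pui (EE k σ)) : HQ (EE k σ)) := by
    rcases neg_one_pow_eq_or (Pui (EE k σ)) ((minpoly (MvPolynomial σ k) b).map (e1 k σ i₀)).natDegree with h | h
    · rw [h]; exact LB_one
    · rw [h]
      intro q hq
      change (-(1 : HQ (EE k σ))).coeff q = 0
      rw [HahnSeries.coeff_neg, LB_one q hq, neg_zero]
  rw [mul_comm]
  exact h6.mul_LB h10

/-- A derivation extending a partial derivative to an integral extension is locally nilpotent. -/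
theorem lnd_of_integral (ι : MvPolynomial σ k →+* B) (hι : Function.Injective ι) (hint : ι.IsIntegral)
    (i₀ : σ) (δ : B → B) (hδ : IsDer δ) (hD : ∀ p, δ (ι p) = ι (pderiv i₀ p)) (b : B) :
    ∃ N, δ^[N] b = 0 := by
  classical
  -- compatibility
  have hcomm : ∀ ψ : B →+* Pui (EE k σ), ψ.comp ι = e1 k σ i₀ → ∀ x : B,
      ((ψ (δ x) : Pui (EE k σ)) : HQ (EE k σ)) = ddu (iE k σ (X i₀))⁻¹ ((ψ x : Pui (EE k σ)) : HQ (EE k σ)) := by
    intro ψ hψ x
    -- minimal degree relation
    have hex : ∃ n, ∃ P : Polynomial (MvPolynomial σ k), P ≠ 0 ∧ P.eval₂ ι x = 0 ∧ P.natDegree = n := by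
      obtain ⟨P, hP, hPx⟩ := hint x
      exact ⟨_, P, hP.ne_zero, hPx, rfl⟩
    obtain ⟨P, hP0, hPx, hPn⟩ := Nat.find_spec hex
    have hder : P.derivative.eval₂ ι x ≠ 0 := by
      intro h0
      have hdeg : P.natDegree ≠ 0 := by
        intro h1
        rw [Polynomial.eq_C_of_natDegree_eq_zero h1, Polynomial.eval₂_C] at hPx
        apply hP0
        rw [Polynomial.eq_C_of_natDegree_eq_zero h1, hι (by rw [hPx, map_zero] : ι (P.coeff 0) = ι 0), map_zero]
      have h2 : P.derivative ≠ 0 := by
        intro h3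
        exact hdeg (Polynomial.derivative_eq_zero.1 h3)
      have h3 := Nat.find_min' hex ⟨P.derivative, h2, h0, rfl⟩
      have h4 := Polynomial.natDegree_derivative_lt hdeg
      omega
    have hψι : ∀ p, ψ (ι p) = e1 k σ i₀ p := fun p => by rw [← hψ]; rfl
    have hψinj : Function.Injective ψ := by
      rw [injective_iff_map_eq_zero]
      intro y hy
      by_contra hy0
      -- minimal polynomial argument: y divides a nonzero element of the base
      obtain ⟨Q, hQ, hQy⟩ := hint y
      have hex2 : ∃ n, ∃ P : Polynomial (MvPolynomial σ k), P ≠ 0 ∧ P.eval₂ ι y = 0 ∧ P.natDegree = n :=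
        ⟨_, Q, hQ.ne_zero, hQy, rfl⟩
      obtain ⟨P, hP0, hPy, hPn⟩ := Nat.find_spec hex2
      have h5 : P.coeff 0 ≠ 0 := by
        intro h0
        obtain ⟨P', hP'⟩ := Polynomial.X_dvd_iff.2 h0
        rw [hP', Polynomial.eval₂_mul, Polynomial.eval₂_X] at hPy
        have h6 : P'.eval₂ ι y = 0 := (mul_eq_zero.1 hPy).resolve_left hy0
        have hP'0 : P' ≠ 0 := by rintro rfl; exact hP0 (by rw [hP', mul_zero])
        have h7 := Nat.find_min' hex2 ⟨P', hP'0, h6, rfl⟩
        rw [← hPn, hP', Polynomial.natDegree_X_mul hP'0] at h7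
        omega
      have h8 : ψ (P.eval₂ ι y) = e1 k σ i₀ (P.coeff 0) := by
        rw [Polynomial.hom_eval₂, hy, ← hψ, Polynomial.eval₂_at_zero]
      rw [hPy, map_zero] at h8
      exact h5 (e1_injective i₀ (by rw [← h8, map_zero]))
    have h1 := hδ.eval₂ ι x P
    rw [hPx, hδ.zero] at h1
    have h2 := (ddu_isDer (iE k σ (X i₀))⁻¹).eval₂ (e0 k σ i₀) ((ψ x : Pui (EE k σ)) : HQ (EE k σ)) P
    have hsub : ∀ Q : Polynomial (MvPolynomial σ k), ((ψ (Q.eval₂ ι x) : Pui (EE k σ)) : HQ (EE k σ)) =
        Q.eval₂ (e0 k σ i₀) ((ψ x : Pui (EE k σ)) : HQ (EE k σ)) := by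
      intro Q
      have : ((Pui (EE k σ)).subtype.comp ψ).comp ι = e0 k σ i₀ := by
        rw [RingHom.comp_assoc, hψ]; rfl
      change ((Pui (EE k σ)).subtype.comp ψ) _ = _
      rw [Polynomial.hom_eval₂, this]
      rfl
    rw [← hsub, ← hsub, hPx, map_zero] at h2
    have h3 := congrArg (fun z => ((ψ z : Pui (EE k σ)) : HQ (EE k σ))) h1
    simp only [map_zero, map_add, map_sum, map_mul, hD, hψι, map_pow] at h3
    have h4 : ddu (iE k σ (X i₀))⁻¹ ((0 : Pui (EE k σ)) : HQ (EE k σ)) = 0 := (ddu_isDer _).zero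
    rw [h4] at h2
    simp only [e0_pderiv] at h2
    push_cast at h3
    simp only [e1_coe] at h3
    have h5 : ((ψ (P.derivative.eval₂ ι x) : Pui (EE k σ)) : HQ (EE k σ)) ≠ 0 := by
      intro h6
      apply hder
      apply hψinj
      rw [map_zero]
      exact Subtype.ext h6
    apply mul_left_cancel₀ h5
    linear_combination h2 - h3
  -- uniform bound
  obtain ⟨P, hP, hPb⟩ := hint b
  obtain ⟨d, hd⟩ : ∃ d : ℕ, ∀ i, LB (-(d : ℚ)) (e0 k σ i₀ (P.coeff i)) := by
    have : ∀ i, ∃ d : ℕ, LB (-(d : ℚ)) (e0 k σ i₀ (P.coeff i)) := fun i => exists_LB _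
    choose f hf using this
    refine ⟨P.support.sup f, fun i => ?_⟩
    by_cases hi : i ∈ P.support
    · refine (hf i).mono ?_
      have := Finset.le_sup (f := f) hi
      have : (f i : ℚ) ≤ (P.support.sup f : ℕ) := by exact_mod_cast this
      linarith
    · rw [Polynomial.notMem_support_iff.1 hi, map_zero]
      intro q _; rfl
  refine ⟨d + 1, ?_⟩
  by_contra hne
  obtain ⟨ψ, hψ, hnot⟩ := exists_hom ι hι hint i₀ _ hne
  apply hnot
  have hiter : ∀ N, ((ψ (δ^[N] b) : Pui (EE k σ)) : HQ (EE k σ)) =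
      (ddu (iE k σ (X i₀))⁻¹)^[N] ((ψ b : Pui (EE k σ)) : HQ (EE k σ)) := by
    intro N
    induction N with
    | zero => rfl
    | succ N ih => rw [Function.iterate_succ_apply', Function.iterate_succ_apply', hcomm ψ hψ, ih]
  have hroot : LB (-(d : ℚ)) ((ψ b : Pui (EE k σ)) : HQ (EE k σ)) := by
    apply LB_of_root (P.map (e0 k σ i₀)) (hP.map _) d (by positivity)
    · intro i
      rw [Polynomial.coeff_map]
      exact hd i
    · rw [Polynomial.eval_map]
      have : ((Pui (EE k σ)).subtype.comp ψ).comp ι = e0 k σ i₀ := by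
        rw [RingHom.comp_assoc, hψ]; rfl
      have h2 : ((Pui (EE k σ)).subtype.comp ψ) (P.eval₂ ι b) = 0 := by rw [hPb, map_zero]
      rw [Polynomial.hom_eval₂, this] at h2
      exact h2
  rw [hiter]
  refine (hroot.ddu_iterate _ (d + 1)).pos ?_
  push_cast; linarith

end

end Pool.Agent.H922R2
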