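import Mathlib
import Pool.Agent.H922R2.K5

set_option autoImplicit false
set_option linter.unusedSectionVars false
set_option linter.style.haveILetI false

open MvPolynomial

namespace Pool.Agent.H922R2

section

variable {k : Type*} [Field k] [CharZero k] {σ : Type*} [Fintype σ] [DecidableEq σ]
variable (F : σ → MvPolynomial σ k) (hJ : IsUnit (Matrix.det (jac F)))

/-- The derivation dual to `F i`. -/
noncomputable def dualD (i : σ) : Derivation k (MvPolynomial σ k) (MvPolynomial σ k) :=
  ∑ j, ((jac F)⁻¹ j i) • pderiv j

theorem dualD_apply (i : σ) (r : MvPolynomial σ k) :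
    dualD F i r = ∑ j, ((jac F)⁻¹ j i) * pderiv j r := by
  have h : ∀ t : Finset σ, (∑ j ∈ t, ((jac F)⁻¹ j i) • (pderiv j :
      Derivation k (MvPolynomial σ k) (MvPolynomial σ k))) r =
      ∑ j ∈ t, ((jac F)⁻¹ j i) * pderiv j r := by
    intro t
    induction t using Finset.induction_on with
    | empty => simp
    | insert a t ha ih =>
      rw [Finset.sum_insert ha, Finset.sum_insert ha, Derivation.add_apply, ih,
        Derivation.smul_apply, smul_eq_mul]
  exact h Finset.univ

include hJ

theorem dualD_F (i l : σ) : dualD F i (F l) = if l = i then 1 else 0 := by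
  rw [dualD_apply]
  have h1 : (jac F * (jac F)⁻¹) l i = if l = i then 1 else 0 := by
    rw [Matrix.mul_nonsing_inv _ hJ, Matrix.one_apply]
  rw [← h1, Matrix.mul_apply]
  apply Finset.sum_congr rfl
  intro j _
  rw [mul_comm]
  rfl

theorem dualD_aeval (i : σ) (p : MvPolynomial σ k) :
    dualD F i (aeval F p) = aeval F (pderiv i p) := by
  rw [deriv_aeval, Finset.sum_eq_single i]
  · rw [dualD_F F hJ, if_pos rfl, mul_one]
  · intro b _ hb
    rw [dualD_F F hJ, if_neg hb, mul_zero]
  · simp

theorem pderiv_eq_zero_of_dualD (r : MvPolynomial σ k) (h : ∀ i, dualD F i r = 0) :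
    ∀ j, pderiv j r = 0 := by
  have h1 : (fun j => pderiv j r) = (0 : σ → MvPolynomial σ k) := by
    apply vec_zero_of_isUnit_det (jac F)⁻¹ (Matrix.isUnit_nonsing_inv_det _ hJ)
    intro i
    rw [← h i, dualD_apply]
    apply Finset.sum_congr rfl
    intro j _
    rw [mul_comm]
  exact fun j => congrFun h1 j

theorem dualD_comm (i j : σ) (r : MvPolynomial σ k) :
    dualD F i (dualD F j r) = dualD F j (dualD F i r) := by
  set E : Derivation k (MvPolynomial σ k) (MvPolynomial σ k) := ⁅dualD F i, dualD F j⁆ with hE
  have hEa : ∀ r, E r = dualD F i (dualD F j r) - dualD F j (dualD F i r) := by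
    intro r; rw [hE, Derivation.commutator_apply]
  have h1 : ∀ l, E (F l) = 0 := by
    intro l
    rw [hEa, dualD_F F hJ, dualD_F F hJ]
    split_ifs <;> simp
  have h2 : (fun m => E (X m)) = (0 : σ → MvPolynomial σ k) := by
    apply vec_zero_of_isUnit_det (jac F).transpose (by rwa [Matrix.det_transpose])
    intro l
    rw [← h1 l]
    have h3 : F l = aeval X (F l) := by simp
    conv_rhs => rw [h3]
    rw [deriv_aeval]
    apply Finset.sum_congr rfl
    intro m _
    rw [aeval_X_left_apply, mul_comm]
    rfl
  have h4 : E = 0 := by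
    apply MvPolynomial.derivation_ext
    intro m
    exact congrFun h2 m
  have := hEa r
  rw [h4] at this
  exact (sub_eq_zero.1 this.symm)

theorem dualD_pow (i : σ) (c : MvPolynomial σ k) (hc : dualD F i c = 0) (n : ℕ) :
    (dualD F i)^[n] (c * F i ^ n) = (n.factorial : MvPolynomial σ k) * c := by
  induction n with
  | zero => simp
  | succ n ih =>
    rw [Function.iterate_succ_apply, Derivation.leibniz, hc, smul_zero, add_zero,
      Derivation.leibniz_pow, dualD_F F hJ, if_pos rfl]
    have h1 : ∀ m : ℕ, (dualD F i)^[m] (((n + 1 : ℕ) : MvPolynomial σ k) * (c * F i ^ n)) =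
        ((n + 1 : ℕ) : MvPolynomial σ k) * (dualD F i)^[m] (c * F i ^ n) := by
      intro m
      induction m with
      | zero => rfl
      | succ m ihm =>
        rw [Function.iterate_succ_apply', ihm, Function.iterate_succ_apply', Derivation.leibniz]
        simp
    have h2 : c • ((n + 1) • F i ^ (n + 1 - 1) • (1 : MvPolynomial σ k)) =
        ((n + 1 : ℕ) : MvPolynomial σ k) * (c * F i ^ n) := by
      simp only [smul_eq_mul, nsmul_eq_mul, Nat.add_sub_cancel, mul_one]
      ring
    rw [h2, h1, ih, Nat.factorial_succ]
    push_cast; ring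

theorem iterate_sub (i : σ) (a b : MvPolynomial σ k) (n : ℕ) :
    (dualD F i)^[n] (a - b) = (dualD F i)^[n] a - (dualD F i)^[n] b := by
  induction n with
  | zero => rfl
  | succ n ih => rw [Function.iterate_succ_apply', ih, map_sub, ← Function.iterate_succ_apply' (f := dualD F i),
      ← Function.iterate_succ_apply' (f := dualD F i)]

theorem mem_SS_of_lnd (B : Subalgebra k (MvPolynomial σ k)) (hBD : ∀ i, ∀ b ∈ B, dualD F i b ∈ B)
    (hBF : ∀ i, F i ∈ B) (hL : ∀ i, ∀ b ∈ B, ∃ N, (dualD F i)^[N] b = 0) :
    ∀ b ∈ B, b ∈ SS F := by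
  have hFS : ∀ i, F i ∈ SS F := fun i => ⟨X i, by simp⟩
  have key : ∀ t : Finset σ, ∀ b ∈ B, (∀ i, i ∉ t → dualD F i b = 0) → b ∈ SS F := by
    intro t
    induction t using Finset.induction_on with
    | empty =>
      intro b _ hb
      have h1 := pderiv_eq_zero_of_dualD F hJ b (fun i => hb i (by simp))
      rw [eq_C_of_pderiv_eq_zero b h1]
      exact ⟨C (coeff 0 b), by simp⟩
    | insert a t ha ih =>
      intro b hbB hb
      obtain ⟨N, hN⟩ := hL a b hbB
      induction N generalizing b with
      | zero => rw [show b = 0 from hN]; exact zero_mem _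
      | succ N ihN =>
        set c := (dualD F a)^[N] b with hc
        have hcD : dualD F a c = 0 := by rw [hc, ← Function.iterate_succ_apply' (f := dualD F a)]; exact hN
        have hiterB : ∀ n, ∀ b ∈ B, (dualD F a)^[n] b ∈ B := by
          intro n
          induction n with
          | zero => intro b hb; exact hb
          | succ n ihn => intro b hb; rw [Function.iterate_succ_apply']; exact hBD a _ (ihn b hb)
        have hcB : c ∈ B := hiterB N b hbB
        have hiter0 : ∀ i, i ≠ a → ∀ n, ∀ b, dualD F i b = 0 → dualD F i ((dualD F a)^[n] b) = 0 := by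
          intro i _ n
          induction n with
          | zero => intro b hb; exact hb
          | succ n ihn =>
            intro b hb
            rw [Function.iterate_succ_apply', dualD_comm F hJ, ihn b hb, map_zero]
        have hc0 : ∀ i, i ∉ t → dualD F i c = 0 := by
          intro i hi
          by_cases hia : i = a
          · rw [hia]; exact hcD
          · exact hiter0 i hia N b (hb i (by simp [hia, hi]))
        have hcS : c ∈ SS F := ih c hcB hc0
        set e : k := ((N.factorial : k))⁻¹ with he
        set w := (C e * c) * F a ^ N with hw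
        have hCe : (C e : MvPolynomial σ k) ∈ B := B.algebraMap_mem e
        have hCeS : (C e : MvPolynomial σ k) ∈ SS F := (SS F).algebraMap_mem e
        have hwB : w ∈ B := mul_mem (mul_mem hCe hcB) (pow_mem (hBF a) N)
        have hwS : w ∈ SS F := mul_mem (mul_mem hCeS hcS) (pow_mem (hFS a) N)
        have hw1 : (dualD F a)^[N] w = c := by
          rw [hw, dualD_pow F hJ a _ (by rw [Derivation.leibniz, hcD]; simp), ← mul_assoc]
          have : (N.factorial : MvPolynomial σ k) * C e = 1 := by
            rw [← C_eq_coe_nat, ← C_mul, he, mul_inv_cancel₀ (by exact_mod_cast N.factorial_ne_zero), C_1]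
          rw [this, one_mul]
        have hb1 : b - w ∈ SS F := by
          apply ihN (b - w) (sub_mem hbB hwB)
          · intro i hi
            have hia : i ≠ a := by rintro rfl; exact hi (by simp)
            rw [map_sub, hb i hi, hw, Derivation.leibniz, Derivation.leibniz_pow, dualD_F F hJ,
              if_neg hia.symm, Derivation.leibniz, hc0 i (by simp at hi; exact hi.2)]
            simp
          · rw [iterate_sub F hJ, hw1, ← hc, sub_self]
        have : b = (b - w) + w := by ring
        rw [this]
        exact add_mem hb1 hwS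
  intro b hb
  exact key Finset.univ b hb (by simp)

/-- Subalgebras integral over the source and stable under the dual derivations are contained in it. -/
theorem le_SS_of_integral (B : Subalgebra k (MvPolynomial σ k)) (hBD : ∀ i, ∀ b ∈ B, dualD F i b ∈ B)
    (hBF : ∀ i, F i ∈ B)
    (hint : ∀ b ∈ B, (aeval F : MvPolynomial σ k →ₐ[k] MvPolynomial σ k).toRingHom.IsIntegralElem b) :
    B ≤ SS F := by
  apply mem_SS_of_lnd F hJ B hBD hBF
  intro i b hb
  have haF : ∀ p : MvPolynomial σ k, aeval F p ∈ B := by
    intro p
    have : aeval F p ∈ Algebra.adjoin k (Set.range F) := by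
      rw [Algebra.adjoin_range_eq_range_aeval]; exact ⟨p, rfl⟩
    have h2 : Algebra.adjoin k (Set.range F) ≤ B :=
      Algebra.adjoin_le (by rintro _ ⟨i, rfl⟩; exact hBF i)
    exact h2 this
  let ι : MvPolynomial σ k →+* B := (aeval F : MvPolynomial σ k →ₐ[k] MvPolynomial σ k).toRingHom.codRestrict B haF
  have hι : Function.Injective ι := by
    intro p q h
    exact aeval_injective F hJ (congrArg Subtype.val h)
  have hιint : ι.IsIntegral := by
    intro b
    obtain ⟨P, hP, hPb⟩ := hint b.1 b.2
    refine ⟨P, hP, ?_⟩
    apply Subtype.ext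
    change B.subtype (Polynomial.eval₂ ι b P) = 0
    rw [Polynomial.hom_eval₂]
    exact hPb
  let δ : B → B := fun x => ⟨dualD F i x.1, hBD i _ x.2⟩
  have hδ : IsDer δ := by
    constructor
    · intro x y; apply Subtype.ext; exact map_add (dualD F i) x.1 y.1
    · intro x y; apply Subtype.ext; exact (dualD F i).leibniz x.1 y.1
  obtain ⟨N, hN⟩ := lnd_of_integral ι hι hιint i δ hδ (by
    intro p
    apply Subtype.ext
    exact dualD_aeval F hJ i p) ⟨b, hb⟩
  refine ⟨N, ?_⟩
  have : ∀ n, ((δ^[n] ⟨b, hb⟩ : B) : MvPolynomial σ k) = (dualD F i)^[n] b := by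
    intro n
    induction n with
    | zero => rfl
    | succ n ih => rw [Function.iterate_succ_apply', Function.iterate_succ_apply', ← ih]
  rw [← this, hN]
  rfl

end

end Pool.Agent.H922R2
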