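import Mathlib
import Pool.Agent.H922R2.K6

set_option autoImplicit false
set_option linter.unusedSectionVars false
set_option linter.style.haveILetI false

open MvPolynomial

namespace Pool.Agent.H922R2

section Coprime

variable {A B : Type*} [CommRing A] [IsDomain A] [UniqueFactorizationMonoid A] [CommRing B]
  [IsDomain B] [Algebra A B]

theorem minpoly_smul (hinj : Function.Injective (algebraMap A B)) (z : A) (hz : z ≠ 0) (e : B)
    (he : IsIntegral A e) :
    minpoly A (algebraMap A B z * e) = (minpoly A e).scaleRoots z := by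
  haveI : FaithfulSMul A B := (faithfulSMul_iff_algebraMap_injective A B).2 hinj
  have hze : IsIntegral A (algebraMap A B z * e) := isIntegral_algebraMap.mul he
  have h1 : minpoly A (algebraMap A B z * e) ∣ (minpoly A e).scaleRoots z :=
    minpoly.isIntegrallyClosed_dvd hze (Polynomial.scaleRoots_aeval_eq_zero (minpoly.aeval A e))
  have h2 : minpoly A e ∣ (minpoly A (algebraMap A B z * e)).comp (Polynomial.C z * Polynomial.X) := by
    apply minpoly.isIntegrallyClosed_dvd he
    rw [Polynomial.aeval_comp]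
    simp [minpoly.aeval]
  have hdeg : ((minpoly A (algebraMap A B z * e)).comp (Polynomial.C z * Polynomial.X)).natDegree =
      (minpoly A (algebraMap A B z * e)).natDegree := by
    rw [Polynomial.natDegree_comp, Polynomial.natDegree_C_mul_X z hz, mul_one]
  have h3 : (minpoly A (algebraMap A B z * e)).comp (Polynomial.C z * Polynomial.X) ≠ 0 := by
    intro h
    have h4 := Polynomial.comp_C_mul_X_eq_zero_iff (p := minpoly A (algebraMap A B z * e))
      (mem_nonZeroDivisors_of_ne_zero hz) |>.1 h
    exact minpoly.ne_zero hze h4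
  have h5 := Polynomial.natDegree_le_of_dvd h2 h3
  rw [hdeg] at h5
  symm
  apply Polynomial.eq_of_monic_of_dvd_of_natDegree_le (minpoly.monic hze)
    ((Polynomial.monic_scaleRoots_iff z).2 (minpoly.monic he)) h1
  rw [Polynomial.natDegree_scaleRoots]
  exact h5

theorem integral_of_coprime (hinj : Function.Injective (algebraMap A B)) (x y : A)
    (hxy : IsRelPrime x y) (hx : x ≠ 0) (hy : y ≠ 0)
    (r : B) (h1 : IsIntegral A (algebraMap A B x * r)) (h2 : IsIntegral A (algebraMap A B y * r)) :
    IsIntegral A r := by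
  haveI : FaithfulSMul A B := (faithfulSMul_iff_algebraMap_injective A B).2 hinj
  set a := algebraMap A B x * r with ha
  set b := algebraMap A B y * r with hb
  have hab : algebraMap A B y * a = algebraMap A B x * b := by rw [ha, hb]; ring
  have e1 := minpoly_smul hinj y hy a h1
  have e2 := minpoly_smul hinj x hx b h2
  rw [← hab, e1] at e2
  set d := (minpoly A a).natDegree with hd
  have hd2 : (minpoly A b).natDegree = d := by
    have := congrArg Polynomial.natDegree e2
    rw [Polynomial.natDegree_scaleRoots, Polynomial.natDegree_scaleRoots] at this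
    exact this.symm
  have hc : ∀ i, ∃ c, (minpoly A a).coeff i = c * x ^ (d - i) := by
    intro i
    have h3 := congrArg (fun p => Polynomial.coeff p i) e2
    simp only [Polynomial.coeff_scaleRoots, hd2] at h3
    rw [← hd] at h3
    have h4 : x ^ (d - i) ∣ (minpoly A a).coeff i * y ^ (d - i) := by
      rw [h3]; exact dvd_mul_left _ _
    have h5 : IsRelPrime (x ^ (d - i)) (y ^ (d - i)) := hxy.pow
    obtain ⟨c, hc⟩ := h5.dvd_of_dvd_mul_right h4
    exact ⟨c, by rw [hc, mul_comm]⟩
  choose c hc using hc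
  set P : Polynomial A := Polynomial.X ^ d + ∑ i ∈ Finset.range d, Polynomial.C (c i) * Polynomial.X ^ i
    with hP
  have hcoef : ∀ i, (∑ i ∈ Finset.range d, Polynomial.C (c i) * Polynomial.X ^ i : Polynomial A).coeff i =
      if i < d then c i else 0 := by
    intro i
    simp only [Polynomial.finsetSum_coeff, Polynomial.coeff_C_mul, Polynomial.coeff_X_pow]
    simp [Finset.sum_ite_eq, Finset.mem_range]
  have hlt : (∑ i ∈ Finset.range d, Polynomial.C (c i) * Polynomial.X ^ i : Polynomial A).degree < d := by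
    rw [Polynomial.degree_lt_iff_coeff_zero]
    intro m hm
    rw [hcoef, if_neg (by omega)]
  have hPm : P.Monic := by
    rw [hP]
    exact Polynomial.monic_X_pow_add hlt
  have hPd : P.natDegree = d := by
    rw [hP]
    have := Polynomial.degree_add_eq_left_of_degree_lt (p := (Polynomial.X ^ d : Polynomial A))
      (q := ∑ i ∈ Finset.range d, Polynomial.C (c i) * Polynomial.X ^ i) (by
      rw [Polynomial.degree_X_pow]; exact hlt)
    rw [Polynomial.degree_X_pow] at this
    exact Polynomial.natDegree_eq_of_degree_eq_some this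
  have hPs : P.scaleRoots x = minpoly A a := by
    ext i
    rw [Polynomial.coeff_scaleRoots, hPd, hP, Polynomial.coeff_add, Polynomial.coeff_X_pow, hcoef]
    rcases lt_trichotomy i d with h | h | h
    · rw [if_neg (by omega), if_pos h, zero_add, hc]
    · subst h
      rw [if_pos rfl, if_neg (by omega), add_zero, one_mul, Nat.sub_self, pow_zero]
      rw [hd]
      exact (minpoly.monic h1).coeff_natDegree.symm
    · rw [if_neg (by omega), if_neg (by omega), add_zero, zero_mul,
        Polynomial.coeff_eq_zero_of_natDegree_lt (by omega)]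
  refine ⟨P, hPm, ?_⟩
  have h6 := Polynomial.scaleRoots_eval₂_mul (p := P) (algebraMap A B) r x
  rw [hPs, ← ha] at h6
  have h7 : Polynomial.eval₂ (algebraMap A B) a (minpoly A a) = 0 := minpoly.aeval A a
  rw [h7] at h6
  have h8 := h6.symm
  rcases mul_eq_zero.1 h8 with h9 | h9
  · exfalso
    have h10 := eq_zero_of_pow_eq_zero h9
    exact hx (hinj (by rw [h10, map_zero]))
  · exact h9

end Coprime

section Den

variable {k : Type*} [Field k] [CharZero k] {σ : Type*} [Fintype σ] [DecidableEq σ]
variable (F : σ → MvPolynomial σ k) (hJ : IsUnit (Matrix.det (jac F)))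

include hJ in
theorem ufdS : UniqueFactorizationMonoid (SS F) :=
  (eqS F hJ).toMulEquiv.uniqueFactorizationMonoid inferInstance

include hJ in
theorem algebraic_SS : Algebra.IsAlgebraic (SS F) (MvPolynomial σ k) := by
  have h1 : AlgebraicIndependent k F := aeval_injective F hJ
  have h2 : IsTranscendenceBasis k F := by
    apply h1.isTranscendenceBasis_of_lift_trdeg_le_of_finite
    rw [MvPolynomial.trdeg_of_isDomain]
    simp
  have h3 := h2.isAlgebraic
  have h4 : Algebra.adjoin k (Set.range F) = SS F := Algebra.adjoin_range_eq_range_aeval k F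
  rw [h4] at h3
  exact h3

/-- denominators that make everything integral -/
def GoodDen (s : SS F) : Prop :=
  s ≠ 0 ∧ ∀ r : MvPolynomial σ k, ∃ N : ℕ, IsIntegral (SS F) ((s : MvPolynomial σ k) ^ N * r)

theorem GoodDen.exists_ge {s : SS F} (hs : GoodDen F s) (r : MvPolynomial σ k) :
    ∃ N : ℕ, ∀ M, N ≤ M → IsIntegral (SS F) ((s : MvPolynomial σ k) ^ M * r) := by
  obtain ⟨N, hN⟩ := hs.2 r
  refine ⟨N, fun M hM => ?_⟩
  obtain ⟨t, rfl⟩ := Nat.exists_eq_add_of_le hM
  have : (s : MvPolynomial σ k) ^ (N + t) * r = (s : MvPolynomial σ k) ^ t *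
    ((s : MvPolynomial σ k) ^ N * r) := by ring
  rw [this]
  exact ((isIntegral_algebraMap (R := SS F) (x := s)).pow t).mul hN

include hJ in
theorem exists_goodDen : ∃ s : SS F, GoodDen F s := by
  classical
  haveI := algebraic_SS F hJ
  obtain ⟨s, hs0, hs⟩ := Algebra.IsAlgebraic.exists_integral_multiples (SS F)
    (A := MvPolynomial σ k) (Finset.univ.image (fun j : σ => (X j : MvPolynomial σ k)))
  refine ⟨s, hs0, ?_⟩
  intro r
  have hsi : IsIntegral (SS F) (s : MvPolynomial σ k) := isIntegral_algebraMap (R := SS F) (x := s)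
  induction r using MvPolynomial.induction_on with
  | C a =>
    refine ⟨0, ?_⟩
    rw [pow_zero, one_mul]
    exact isIntegral_algebraMap (R := SS F) (x := algebraMap k (SS F) a)
  | add p q hp hq =>
    obtain ⟨N, hN⟩ := hp
    obtain ⟨M, hM⟩ := hq
    refine ⟨N + M, ?_⟩
    have : (s : MvPolynomial σ k) ^ (N + M) * (p + q) = (s : MvPolynomial σ k) ^ M *
      ((s : MvPolynomial σ k) ^ N * p) + (s : MvPolynomial σ k) ^ N *
      ((s : MvPolynomial σ k) ^ M * q) := by ring
    rw [this]
    exact ((hsi.pow M).mul hN).add ((hsi.pow N).mul hM)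
  | mul_X p n hp =>
    obtain ⟨N, hN⟩ := hp
    refine ⟨N + 1, ?_⟩
    have h1 : IsIntegral (SS F) ((s : MvPolynomial σ k) * X n) := by
      have := hs (X n) (by simp)
      rwa [Algebra.smul_def] at this
    have : (s : MvPolynomial σ k) ^ (N + 1) * (p * X n) =
      ((s : MvPolynomial σ k) ^ N * p) * ((s : MvPolynomial σ k) * X n) := by ring
    rw [this]
    exact hN.mul h1

theorem SS_inj : Function.Injective (algebraMap (SS F) (MvPolynomial σ k)) :=
  Subtype.val_injective

include hJ in
/-- A common divisor property. -/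
theorem exists_min_goodDen : ∃ s : SS F, GoodDen F s ∧ ∀ t : SS F, GoodDen F t → s ∣ t := by
  haveI := ufdS F hJ
  obtain ⟨s0, hs0⟩ := exists_goodDen F hJ
  obtain ⟨s, hs, hmin⟩ := WellFounded.has_min
    (wellFounded_dvdNotUnit (α := SS F)) {s | GoodDen F s} ⟨s0, hs0⟩
  refine ⟨s, hs, fun t ht => ?_⟩
  let _ := UniqueFactorizationMonoid.toGCDMonoid (SS F)
  set d := gcd s t with hd
  obtain ⟨s', hs'⟩ := gcd_dvd_left s t
  obtain ⟨t', ht'⟩ := gcd_dvd_right s t
  rw [← hd] at hs' ht'
  have hd0 : d ≠ 0 := by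
    rintro h0
    rw [h0, zero_mul] at hs'
    exact hs.1 hs'
  have hrel : IsRelPrime s' t' := by
    have h1 : d * gcd s' t' ∣ d * 1 := by
      rw [mul_one]
      apply dvd_gcd
      · conv_rhs => rw [hs']
        exact mul_dvd_mul_left _ (gcd_dvd_left _ _)
      · conv_rhs => rw [ht']
        exact mul_dvd_mul_left _ (gcd_dvd_right _ _)
    have h2 := (mul_dvd_mul_iff_left hd0).1 h1
    intro e he1 he2
    exact isUnit_of_dvd_one ((dvd_gcd he1 he2).trans h2)
  have hs'0 : s' ≠ 0 := by rintro rfl; rw [mul_zero] at hs'; exact hs.1 hs'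
  have ht'0 : t' ≠ 0 := by rintro rfl; rw [mul_zero] at ht'; exact ht.1 ht'
  have hgd : GoodDen F d := by
    refine ⟨hd0, fun r => ?_⟩
    obtain ⟨N, hN⟩ := hs.exists_ge F r
    obtain ⟨M, hM⟩ := ht.exists_ge F r
    refine ⟨N + M, ?_⟩
    apply integral_of_coprime (SS_inj F) (s' ^ (N + M)) (t' ^ (N + M)) hrel.pow
      (pow_ne_zero _ hs'0) (pow_ne_zero _ ht'0)
    · have h1 := hN (N + M) (by omega)
      rw [hs'] at h1
      have : algebraMap (SS F) (MvPolynomial σ k) (s' ^ (N + M)) *
          ((d : MvPolynomial σ k) ^ (N + M) * r) =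
          ((d * s' : SS F) : MvPolynomial σ k) ^ (N + M) * r := by
        change ((s' ^ (N + M) : SS F) : MvPolynomial σ k) * _ = _
        push_cast; ring
      rw [this]; exact h1
    · have h1 := hM (N + M) (by omega)
      rw [ht'] at h1
      have : algebraMap (SS F) (MvPolynomial σ k) (t' ^ (N + M)) *
          ((d : MvPolynomial σ k) ^ (N + M) * r) =
          ((d * t' : SS F) : MvPolynomial σ k) ^ (N + M) * r := by
        change ((t' ^ (N + M) : SS F) : MvPolynomial σ k) * _ = _
        push_cast; ring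
      rw [this]; exact h1
  have h3 := hmin d hgd
  have h4 : s ∣ d := by
    by_contra h5
    apply h3
    refine ⟨hd0, s', ?_, hs'⟩
    intro hu
    apply h5
    rw [hs']
    exact (hu.mul_right_dvd).2 dvd_rfl
  rw [ht']
  exact h4.mul_right _

include hJ in
/-- If the source algebra is stable under an automorphism then either it is everything or there is a
nonconstant semi-invariant in it. -/
theorem exists_semiinv (φ : MvPolynomial σ k ≃ₐ[k] MvPolynomial σ k)
    (hφ : ∀ s, s ∈ SS F ↔ φ s ∈ SS F) :
    SS F = ⊤ ∨ ∃ c ∈ SS F, (∀ a : k, c ≠ C a) ∧ ∃ l : k, l ≠ 0 ∧ φ c = C l * c := by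
  obtain ⟨s, hs, hmin⟩ := exists_min_goodDen F hJ
  by_cases hc : ∃ a : k, (s : MvPolynomial σ k) = C a
  · left
    obtain ⟨a, ha⟩ := hc
    have ha0 : a ≠ 0 := by
      rintro rfl
      rw [C_0] at ha
      exact hs.1 (Subtype.ext ha)
    rw [eq_top_iff]
    apply le_SS_of_integral F hJ ⊤ (fun _ _ _ => trivial) (fun _ => trivial)
    intro b _
    obtain ⟨N, hN⟩ := hs.2 b
    have h1 : IsIntegral (SS F) b := by
      have h2 : b = (C (a⁻¹ ^ N)) * ((s : MvPolynomial σ k) ^ N * b) := by
        rw [ha, ← mul_assoc, ← C_pow, ← C_mul, ← mul_pow, inv_mul_cancel₀ ha0, one_pow, C_1, one_mul]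
      rw [h2]
      exact (isIntegral_algebraMap (R := SS F) (x := algebraMap k (SS F) (a⁻¹ ^ N))).mul hN
    obtain ⟨q, hq, hqb⟩ := h1
    refine ⟨q.map (eqS F hJ).symm.toRingEquiv.toRingHom, hq.map _, ?_⟩
    rw [Polynomial.eval₂_map, ← hqb]
    congr 1
    apply RingHom.ext
    intro s
    change (aeval F ((eqS F hJ).symm s)) = _
    rw [← eqS_coe F hJ, AlgEquiv.apply_symm_apply]
    rfl
  · right
    refine ⟨s, s.2, fun a ha => hc ⟨a, ha⟩, ?_⟩
    -- integrality transport
    have hint : ∀ (ψ : MvPolynomial σ k ≃ₐ[k] MvPolynomial σ k), (∀ s, s ∈ SS F → ψ s ∈ SS F) →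
        ∀ r, IsIntegral (SS F) r → IsIntegral (SS F) (ψ r) := by
      intro ψ hψ r hr
      obtain ⟨q, hq, hqr⟩ := hr
      let j : SS F →+* SS F := (ψ.toRingEquiv.toRingHom.comp (SS F).val.toRingHom).codRestrict (SS F)
        (fun s => hψ s s.2)
      refine ⟨q.map j, hq.map _, ?_⟩
      rw [Polynomial.eval₂_map]
      have : (algebraMap (SS F) (MvPolynomial σ k)).comp j =
        ψ.toRingEquiv.toRingHom.comp (algebraMap (SS F) (MvPolynomial σ k)) := rfl
      rw [this]
      have h2 := Polynomial.hom_eval₂ q (algebraMap (SS F) (MvPolynomial σ k))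
        ψ.toRingEquiv.toRingHom r
      rw [hqr, map_zero] at h2
      exact h2.symm
    have hgood : ∀ (ψ : MvPolynomial σ k ≃ₐ[k] MvPolynomial σ k)
        (hψ : ∀ s, s ∈ SS F → ψ s ∈ SS F),
        GoodDen F ⟨ψ s, hψ s s.2⟩ := by
      intro ψ hψ
      refine ⟨?_, fun r => ?_⟩
      · intro h0
        have h1 : ψ s = 0 := congrArg Subtype.val h0
        rw [map_eq_zero_iff _ ψ.injective] at h1
        exact hs.1 (Subtype.ext h1)
      · obtain ⟨N, hN⟩ := hs.2 (ψ.symm r)
        refine ⟨N, ?_⟩
        have := hint ψ hψ _ hN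
        rw [map_mul, map_pow, AlgEquiv.apply_symm_apply] at this
        exact this
    have hφ1 : ∀ s, s ∈ SS F → φ s ∈ SS F := fun s hs => (hφ s).1 hs
    have hφ2 : ∀ s, s ∈ SS F → φ.symm s ∈ SS F := by
      intro s hs
      rw [hφ, AlgEquiv.apply_symm_apply]; exact hs
    obtain ⟨u, hu⟩ := hmin _ (hgood φ hφ1)
    obtain ⟨v, hv⟩ := hmin _ (hgood φ.symm hφ2)
    have hu' : φ s = s * (u : MvPolynomial σ k) := congrArg Subtype.val hu
    have hv' : φ.symm s = s * (v : MvPolynomial σ k) := congrArg Subtype.val hv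
    have h1 : (s : MvPolynomial σ k) = s * (u * φ v) := by
      conv_lhs => rw [← φ.apply_symm_apply (s : MvPolynomial σ k), hv', map_mul, hu']
      ring
    have hs0 : (s : MvPolynomial σ k) ≠ 0 := fun h => hs.1 (Subtype.ext h)
    have h2 : (u : MvPolynomial σ k) * φ v = 1 := by
      have : (s : MvPolynomial σ k) * (u * φ v) = s * 1 := by rw [← h1, mul_one]
      exact mul_left_cancel₀ hs0 this
    have h3 : IsUnit (u : MvPolynomial σ k) := IsUnit.of_mul_eq_one _ h2
    obtain ⟨l, hl, hl2⟩ := MvPolynomial.isUnit_iff_eq_C_of_isReduced.1 h3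
    refine ⟨l, hl.ne_zero, ?_⟩
    rw [hu', hl2, mul_comm]

end Den

end Pool.Agent.H922R2
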