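import Mathlib
import Pool.Agent.H922R2.K15
import Pool.Agent.H922R2.K8

set_option autoImplicit false
set_option linter.unusedSectionVars false
set_option linter.style.haveILetI false

open MvPolynomial

namespace Pool.Agent.H922R2

section Euler

variable {k : Type*} [Field k]

/-- the Euler type derivation `p x ∂_x + q y ∂_y` -/
noncomputable def ED (p q : k) : Derivation k (MvPolynomial (Fin 2) k) (MvPolynomial (Fin 2) k) :=
  (C p * X 0 : MvPolynomial (Fin 2) k) • pderiv 0 + (C q * X 1 : MvPolynomial (Fin 2) k) • pderiv 1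

theorem ED_apply (p q : k) (r : MvPolynomial (Fin 2) k) :
    ED p q r = C p * X 0 * pderiv 0 r + C q * X 1 * pderiv 1 r := by
  simp [ED]

theorem coeff_ED (p q : k) (r : MvPolynomial (Fin 2) k) (t : Fin 2 →₀ ℕ) :
    coeff t (ED p q r) = (p * t 0 + q * t 1) * coeff t r := by
  rw [ED_apply]
  have key : ∀ (c : k) (i : Fin 2), coeff t (C c * X i * pderiv i r) = c * t i * coeff t r := by
    intro c i
    rw [mul_assoc, coeff_C_mul, mul_comm (X i), coeff_mul_X']
    split_ifs with h
    · rw [coeff_pderiv]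
      have h2 : t - Finsupp.single i 1 + Finsupp.single i 1 = t := by
        rw [tsub_add_cancel_of_le]
        rw [Finsupp.mem_support_iff] at h
        rw [Finsupp.single_le_iff]; omega
      rw [h2]
      have h3 : (((t - Finsupp.single i 1 : Fin 2 →₀ ℕ) i : ℕ) : k) + 1 = t i := by
        rw [Finsupp.mem_support_iff] at h
        rw [Finsupp.tsub_apply, Finsupp.single_eq_same]
        have : t i - 1 + 1 = t i := by omega
        have h4 : ((t i - 1 + 1 : ℕ) : k) = (t i : k) := by rw [this]
        rw [← h4]; push_cast; rfl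
      rw [h3]; ring
    · rw [Finsupp.mem_support_iff, not_not] at h
      rw [h]; simp
  rw [coeff_add, key, key]
  ring

theorem td_ED (p q : k) (r : MvPolynomial (Fin 2) k) : (ED p q r).totalDegree ≤ r.totalDegree := by
  apply totalDegree_le_of_support_subset
  intro t ht
  rw [mem_support_iff, coeff_ED] at ht
  rw [mem_support_iff]
  exact right_ne_zero_of_mul ht

/-- divisors of eigenvectors are eigenvectors -/
theorem ED_divisor [CharZero k] (p q : k) {r : MvPolynomial (Fin 2) k} (hr : r ≠ 0) {m : k}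
    (hm : ED p q r = C m * r) (u : MvPolynomial (Fin 2) k) (hu : u ∣ r) :
    ∃ n : k, ED p q u = C n * u := by
  have hirr : ∀ π : MvPolynomial (Fin 2) k, Irreducible π → π ∣ r → ∃ n : k, ED p q π = C n * π := by
    intro π hπ hπr
    have hfin : FiniteMultiplicity π r := FiniteMultiplicity.of_not_isUnit hπ.not_isUnit hr
    obtain ⟨s, hs, hns⟩ := hfin.exists_eq_pow_mul_and_not_dvd
    set e := multiplicity π r with he
    have hepos : e ≠ 0 := by
      intro h0
      rw [h0, pow_zero, one_mul] at hs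
      exact hns (hs ▸ hπr)
    obtain ⟨e', he'⟩ := Nat.exists_eq_succ_of_ne_zero hepos
    rw [he'] at hs
    have h1 : ED p q r = ((e' + 1 : ℕ) : MvPolynomial (Fin 2) k) * (π ^ e' * s) * ED p q π +
        π ^ (e' + 1) * ED p q s := by
      rw [hs, Derivation.leibniz, Derivation.leibniz_pow]
      simp only [smul_eq_mul, nsmul_eq_mul, Nat.succ_eq_add_one, Nat.add_sub_cancel]
      ring
    rw [hm] at h1
    have h2 : π ^ e' * (((e' + 1 : ℕ) : MvPolynomial (Fin 2) k) * s * ED p q π) =
        π ^ e' * (π * (C m * s - ED p q s)) := by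
      have : C m * r = C m * (π ^ (e' + 1) * s) := by rw [hs]
      rw [this] at h1
      linear_combination -h1
    have h3 := mul_left_cancel₀ (pow_ne_zero e' hπ.ne_zero) h2
    have h4 : π ∣ ((e' + 1 : ℕ) : MvPolynomial (Fin 2) k) * s * ED p q π := ⟨_, h3⟩
    have h5 : π ∣ ED p q π := by
      rcases hπ.prime.dvd_or_dvd h4 with h6 | h6
      · exfalso
        rcases hπ.prime.dvd_or_dvd h6 with h7 | h7
        · have h8 : IsUnit ((e' + 1 : ℕ) : MvPolynomial (Fin 2) k) := by
            have : ((e' + 1 : ℕ) : MvPolynomial (Fin 2) k) = C ((e' + 1 : ℕ) : k) := by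
              rw [map_natCast]
            rw [this]
            exact (IsUnit.mk0 _ (by exact_mod_cast Nat.succ_ne_zero e')).map C
          exact hπ.not_isUnit (isUnit_of_dvd_unit h7 h8)
        · exact hns h7
      · exact h6
    obtain ⟨c, hc⟩ := h5
    by_cases hc0 : c = 0
    · exact ⟨0, by rw [hc, hc0]; simp⟩
    · have h6 := td_ED p q π
      rw [hc, totalDegree_mul_of_isDomain hπ.ne_zero hc0] at h6
      have h7 : c.totalDegree = 0 := by omega
      rw [totalDegree_eq_zero_iff_eq_C] at h7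
      exact ⟨coeff 0 c, by rw [hc, ← h7, mul_comm]⟩
  have hu0 : u ≠ 0 := ne_zero_of_dvd_ne_zero hr hu
  induction u using WfDvdMonoid.induction_on_irreducible with
  | zero => exact absurd rfl hu0
  | unit u hu' =>
    obtain ⟨c, hc, rfl⟩ := MvPolynomial.isUnit_iff_eq_C_of_isReduced.1 hu'
    exact ⟨0, by rw [ED_apply]; simp⟩
  | mul a i ha hi ih =>
    obtain ⟨n1, hn1⟩ := ih ((dvd_mul_left a i).trans hu) ha
    obtain ⟨n2, hn2⟩ := hirr i hi ((dvd_mul_right i a).trans hu)
    refine ⟨n1 + n2, ?_⟩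
    rw [Derivation.leibniz, hn1, hn2, smul_eq_mul, smul_eq_mul, C_add]
    ring

/-- divisors of monomials are monomials -/
theorem dvd_monomial_form [CharZero k] (i j : ℕ) (u : MvPolynomial (Fin 2) k)
    (hu : u ∣ X 0 ^ i * X 1 ^ j) :
    ∃ c : k, c ≠ 0 ∧ ∃ i' j', i' ≤ i ∧ j' ≤ j ∧ u = C c * (X 0 ^ i' * X 1 ^ j') := by
  have hr : (X 0 ^ i * X 1 ^ j : MvPolynomial (Fin 2) k) ≠ 0 :=
    mul_ne_zero (pow_ne_zero _ (X_ne_zero 0)) (pow_ne_zero _ (X_ne_zero 1))
  have hmon : (X 0 ^ i * X 1 ^ j : MvPolynomial (Fin 2) k) =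
      monomial (Finsupp.single 0 i + Finsupp.single 1 j) 1 := by
    rw [monomial_eq, Finsupp.prod_fintype _ _ (by simp), Fin.prod_univ_two]
    simp
  have h1 : ∀ p q : k, ED p q (X 0 ^ i * X 1 ^ j) = C (p * i + q * j) * (X 0 ^ i * X 1 ^ j) := by
    intro p q
    ext t
    rw [coeff_ED, coeff_C_mul, hmon, coeff_monomial]
    split_ifs with h
    · rw [← h]; simp
    · simp
  have hu0 : u ≠ 0 := ne_zero_of_dvd_ne_zero hr hu
  obtain ⟨n1, hn1⟩ := ED_divisor 1 0 hr (h1 1 0) u hu
  obtain ⟨n2, hn2⟩ := ED_divisor 0 1 hr (h1 0 1) u hu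
  have h2 : ∀ t, coeff t u ≠ 0 → (t 0 : k) = n1 ∧ (t 1 : k) = n2 := by
    intro t ht
    have e1 := congrArg (coeff t) hn1
    have e2 := congrArg (coeff t) hn2
    rw [coeff_ED, coeff_C_mul] at e1 e2
    have e3 := mul_right_cancel₀ ht e1
    have e4 := mul_right_cancel₀ ht e2
    constructor
    · rw [← e3]; ring
    · rw [← e4]; ring
  obtain ⟨t, ht⟩ := MvPolynomial.ne_zero_iff.1 hu0
  have h3 : u = monomial t (coeff t u) := by
    ext s
    rw [coeff_monomial]
    split_ifs with h
    · rw [h]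
    · by_contra hs
      apply h
      obtain ⟨a1, a2⟩ := h2 t ht
      obtain ⟨b1, b2⟩ := h2 s hs
      ext l
      fin_cases l
      · have : (t 0 : k) = s 0 := by rw [a1, b1]
        exact_mod_cast this
      · have : (t 1 : k) = s 1 := by rw [a2, b2]
        exact_mod_cast this
  have h4 : u = C (coeff t u) * (X 0 ^ t 0 * X 1 ^ t 1) := by
    conv_lhs => rw [h3]
    rw [monomial_eq, Finsupp.prod_fintype _ _ (by simp), Fin.prod_univ_two]
  have h5 : monomial t (coeff t u) ∣ monomial (Finsupp.single 0 i + Finsupp.single 1 j) (1 : k) := by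
    rw [← h3, ← hmon]; exact hu
  rw [monomial_dvd_monomial] at h5
  rcases h5.1 with h6 | h6
  · exact absurd h6 one_ne_zero
  · have e0 := h6 0
    have e1 := h6 1
    simp at e0 e1
    exact ⟨coeff t u, ht, t 0, t 1, e0, e1, h4⟩

/-- the polynomial `P(t)` with `t = x^a y^b` -/
noncomputable def pt (a b : ℕ) (P : Polynomial k) : MvPolynomial (Fin 2) k :=
  Polynomial.aeval (X 0 ^ a * X 1 ^ b) P

theorem mon_pow (a b n : ℕ) : ((X 0 ^ a * X 1 ^ b) ^ n : MvPolynomial (Fin 2) k) =
    monomial (Finsupp.single 0 (a * n) + Finsupp.single 1 (b * n)) 1 := by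
  rw [mul_pow, ← pow_mul, ← pow_mul, monomial_eq, Finsupp.prod_fintype _ _ (by simp),
    Fin.prod_univ_two]
  simp

theorem pt_eq_sum (a b : ℕ) (P : Polynomial k) :
    pt a b P = ∑ n ∈ Finset.range (P.natDegree + 1),
      monomial (Finsupp.single 0 (a * n) + Finsupp.single 1 (b * n)) (P.coeff n) := by
  rw [pt, Polynomial.aeval_eq_sum_range]
  apply Finset.sum_congr rfl
  intro n _
  rw [mon_pow, smul_monomial, smul_eq_mul, mul_one]

theorem coeff_pt (a b : ℕ) (hab : 0 < a + b) (P : Polynomial k) (n : ℕ) :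
    coeff (Finsupp.single 0 (a * n) + Finsupp.single 1 (b * n)) (pt a b P) = P.coeff n := by
  rw [pt_eq_sum, coeff_sum]
  simp only [coeff_monomial]
  by_cases hn : n ∈ Finset.range (P.natDegree + 1)
  · rw [Finset.sum_eq_single_of_mem n hn]
    · simp
    · intro m _ hm
      rw [if_neg]
      intro h
      apply hm
      have e0 := DFunLike.congr_fun h 0
      have e1 := DFunLike.congr_fun h 1
      simp at e0 e1
      omega
  · rw [Polynomial.coeff_eq_zero_of_natDegree_lt (by simpa using hn)]
    apply Finset.sum_eq_zero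
    intro m hm
    split_ifs with h
    · have e0 := DFunLike.congr_fun h 0
      have e1 := DFunLike.congr_fun h 1
      simp at e0 e1
      have : m = n := by omega
      rw [this] at hm
      exact absurd hm hn
    · rfl

theorem coeff_pt_of_ne (a b : ℕ) (P : Polynomial k) (t : Fin 2 →₀ ℕ)
    (h : coeff t (pt a b P) ≠ 0) : ∃ n, t = Finsupp.single 0 (a * n) + Finsupp.single 1 (b * n) := by
  rw [pt_eq_sum, coeff_sum] at h
  obtain ⟨n, _, hn⟩ := Finset.exists_ne_zero_of_sum_ne_zero h
  rw [coeff_monomial] at hn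
  refine ⟨n, ?_⟩
  by_contra hcon
  rw [if_neg (fun h => hcon h.symm)] at hn
  exact hn rfl

theorem pt_injective (a b : ℕ) (hab : 0 < a + b) :
    Function.Injective (pt a b : Polynomial k → MvPolynomial (Fin 2) k) := by
  intro P Q h
  ext n
  rw [← coeff_pt a b hab, ← coeff_pt a b hab, h]

theorem pt_mul (a b : ℕ) (P Q : Polynomial k) : pt a b (P * Q) = pt a b P * pt a b Q := by
  simp [pt]

theorem pt_C (a b : ℕ) (c : k) : pt a b (Polynomial.C c) = C c := by
  simp [pt, algebraMap_eq]

/-- Elements whose support lies on the line are polynomials in `t`. -/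
theorem exists_pt (a b : ℕ) (hco : Nat.Coprime a b) (u : MvPolynomial (Fin 2) k)
    (hu : ∀ t, coeff t u ≠ 0 → b * t 0 = a * t 1) : ∃ P : Polynomial k, u = pt a b P := by
  have hn : ∀ t, coeff t u ≠ 0 → ∃ n, t = Finsupp.single 0 (a * n) + Finsupp.single 1 (b * n) := by
    intro t ht
    have h1 := hu t ht
    have h2 : a ∣ t 0 := by
      have : a ∣ b * t 0 := ⟨t 1, h1⟩
      exact hco.dvd_of_dvd_mul_left this
    have h3 : b ∣ t 1 := by
      have : b ∣ a * t 1 := ⟨t 0, h1.symm⟩
      exact hco.symm.dvd_of_dvd_mul_left this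
    obtain ⟨n, hn⟩ := h2
    obtain ⟨n', hn'⟩ := h3
    rcases Nat.eq_zero_or_pos a with ha | ha
    · subst ha
      have hb : b = 1 := by simpa using hco
      subst hb
      refine ⟨n', ?_⟩
      ext i
      fin_cases i
      · simpa using hn
      · simpa using hn'
    · rcases Nat.eq_zero_or_pos b with hb | hb
      · subst hb
        have ha : a = 1 := by simpa using hco
        subst ha
        refine ⟨n, ?_⟩
        ext i
        fin_cases i
        · simpa using hn
        · simpa using hn'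
      · have h4 : n = n' := by
          rw [hn, hn'] at h1
          have : (a * b) * n = (a * b) * n' := by
            calc (a * b) * n = b * (a * n) := by ring
              _ = a * (b * n') := h1
              _ = (a * b) * n' := by ring
          exact Nat.eq_of_mul_eq_mul_left (Nat.mul_pos ha hb) this
        refine ⟨n, ?_⟩
        ext i
        fin_cases i
        · simpa using hn
        · simpa [h4] using hn'
  choose! f hf using hn
  refine ⟨∑ t ∈ u.support, Polynomial.C (coeff t u) * Polynomial.X ^ (f t), ?_⟩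
  conv_lhs => rw [u.as_sum]
  rw [pt, map_sum]
  apply Finset.sum_congr rfl
  intro t ht
  have h1 := hf t (mem_support_iff.1 ht)
  rw [map_mul, map_pow, Polynomial.aeval_X, Polynomial.aeval_C, algebraMap_eq, mon_pow, C_mul_monomial,
    mul_one, ← h1]

/-- divisors of `P(t)` with nonzero constant term are polynomials in `t` -/
theorem dvd_pt [CharZero k] (a b : ℕ) (hco : Nat.Coprime a b) (P : Polynomial k)
    (hP : P.coeff 0 ≠ 0) (u : MvPolynomial (Fin 2) k) (hu : u ∣ pt a b P) :
    ∃ U : Polynomial k, u = pt a b U := by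
  have hab : 0 < a + b := by
    rcases Nat.eq_zero_or_pos (a + b) with h | h
    · obtain ⟨rfl, rfl⟩ : a = 0 ∧ b = 0 := by omega
      simp at hco
    · exact h
  have hr : pt a b P ≠ 0 := by
    intro h
    apply hP
    rw [← coeff_pt a b hab, h, coeff_zero]
  have h1 : ED (b : k) (-(a : k)) (pt a b P) = C 0 * pt a b P := by
    ext t
    rw [coeff_ED, C_0, zero_mul, coeff_zero]
    by_cases h : coeff t (pt a b P) = 0
    · rw [h, mul_zero]
    · obtain ⟨n, rfl⟩ := coeff_pt_of_ne a b P t h
      simp; left; ring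
  obtain ⟨n, hn⟩ := ED_divisor _ _ hr h1 u hu
  have hu0 : u ≠ 0 := ne_zero_of_dvd_ne_zero hr hu
  have h2 : ∀ t, coeff t u ≠ 0 → (b : k) * t 0 - a * t 1 = n := by
    intro t ht
    have e1 := congrArg (coeff t) hn
    rw [coeff_ED, coeff_C_mul] at e1
    have e3 := mul_right_cancel₀ ht e1
    rw [← e3]; ring
  have hX : ∀ i : Fin 2, ¬ X i ∣ u := by
    intro i hi
    obtain ⟨w, hw⟩ := hi.trans hu
    apply hP
    rw [← coeff_pt a b hab P 0, hw, mul_comm (X i), coeff_mul_X']
    simp
  have hex : ∀ i : Fin 2, ∃ t, coeff t u ≠ 0 ∧ t i = 0 := by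
    intro i
    by_contra hcon
    push Not at hcon
    exact hX i (X_dvd_of_support hcon)
  obtain ⟨t0, ht0, ht0'⟩ := hex 0
  obtain ⟨t1, ht1, ht1'⟩ := hex 1
  have e0 := h2 t0 ht0
  have e1 := h2 t1 ht1
  have hn0 : b * t1 0 = 0 ∧ a * t0 1 = 0 := by
    have : (b : k) * t1 0 + a * t0 1 = 0 := by
      rw [ht0'] at e0
      rw [ht1'] at e1
      have : (b : k) * t1 0 - a * (0 : ℕ) = b * (0 : ℕ) - a * t0 1 := by rw [e1, e0]
      push_cast at this
      linear_combination this
    have h3 : b * t1 0 + a * t0 1 = 0 := by exact_mod_cast this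
    omega
  apply exists_pt a b hco
  intro t ht
  have e2 := h2 t ht
  have e3 : (b : k) * t 0 - a * t 1 = 0 := by
    rw [e2, ← e1, ht1']
    have : ((b * t1 0 : ℕ) : k) = 0 := by rw [hn0.1]; simp
    push_cast at this
    rw [this]; simp
  have e4 : (b : k) * t 0 = a * t 1 := sub_eq_zero.1 e3
  exact_mod_cast e4

end Euler

end Pool.Agent.H922R2
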