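import Mathlib
import Pool.Agent.H922R2.K17

set_option autoImplicit false
set_option linter.unusedSectionVars false
set_option linter.style.haveILetI false

open MvPolynomial

namespace Pool.Agent.H922R2

section MThm

variable {k : Type*} [Field k] [CharZero k]

theorem det_jac (F : Fin 2 → MvPolynomial (Fin 2) k) : (jac F).det = DJ (F 0) (F 1) := by
  rw [Matrix.det_fin_two, DJ_apply]
  rfl

theorem mem_SS_comp (θ : GA k) (F : Fin 2 → MvPolynomial (Fin 2) k) (r : MvPolynomial (Fin 2) k) :
    θ r ∈ SS (fun i => θ (F i)) ↔ r ∈ SS F := by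
  have h : ∀ p : MvPolynomial (Fin 2) k, aeval (fun i => θ (F i)) p = θ (aeval F p) := by
    intro p
    have : aeval (fun i => θ (F i)) = θ.toAlgHom.comp (aeval F : MvPolynomial (Fin 2) k →ₐ[k] _) := by
      apply MvPolynomial.algHom_ext
      intro i; simp
    rw [this]; rfl
  constructor
  · rintro ⟨p, hp⟩
    refine ⟨p, ?_⟩
    change aeval (fun i => θ (F i)) p = θ r at hp
    rw [h] at hp
    exact θ.injective hp
  · rintro ⟨p, rfl⟩
    exact ⟨p, h p⟩

theorem jac_comp (θ : GA k) (F : Fin 2 → MvPolynomial (Fin 2) k) (hJ : IsUnit (jac F).det) :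
    IsUnit (jac (fun i => θ (F i))).det := by
  rw [det_jac] at hJ ⊢
  rw [DJ_map]
  exact (DJ_unit θ).mul (hJ.map θ)

variable (F : Fin 2 → MvPolynomial (Fin 2) k) (hJ : IsUnit (Matrix.det (jac F)))

theorem C_mem_SS (c : k) : C c ∈ SS F := (SS F).algebraMap_mem c

theorem DJ_aeval (p q : MvPolynomial (Fin 2) k) :
    DJ (aeval F p) (aeval F q) = aeval F (DJ p q) * DJ (F 0) (F 1) := by
  simp only [DJ_apply, deriv_aeval, Fin.sum_univ_two, map_sub, map_mul]
  ring

include hJ in
theorem DJ_mem {s s' : MvPolynomial (Fin 2) k} (hs : s ∈ SS F) (hs' : s' ∈ SS F) : DJ s s' ∈ SS F := by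
  obtain ⟨p, rfl⟩ := hs
  obtain ⟨q, rfl⟩ := hs'
  rw [det_jac] at hJ
  obtain ⟨δ, _, hδ⟩ := MvPolynomial.isUnit_iff_eq_C_of_isReduced.1 hJ
  change DJ (aeval F p) (aeval F q) ∈ SS F
  rw [DJ_aeval, hδ]
  exact mul_mem ⟨_, rfl⟩ (C_mem_SS F δ)

include hJ in
/-- If the source algebra contains the second variable it is everything. -/
theorem top_of_X1 (h1 : X 1 ∈ SS F) : SS F = ⊤ := by
  have hD : ∀ s ∈ SS F, pderiv 0 s ∈ SS F := by
    intro s hs
    have := DJ_mem F hJ hs h1
    rw [DJ_apply] at this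
    simpa using this
  have hDn : ∀ n, ∀ s ∈ SS F, (pderiv 0)^[n] s ∈ SS F := by
    intro n
    induction n with
    | zero => intro s hs; exact hs
    | succ n ih => intro s hs; rw [Function.iterate_succ_apply']; exact hD _ (ih s hs)
  obtain ⟨s, hs, hs0⟩ : ∃ s ∈ SS F, pderiv 0 s ≠ 0 := by
    by_contra hcon
    push Not at hcon
    have e0 := hcon (F 0) ⟨X 0, by simp⟩
    have e1 := hcon (F 1) ⟨X 1, by simp⟩
    rw [det_jac, DJ_apply, e0, e1] at hJ
    simp at hJ
  obtain ⟨n, hn, hn'⟩ := exists_top (pderiv 0) (LN_pderiv (k := k) 0) (r := s)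
    (by rintro rfl; exact hs0 (map_zero _))
  obtain ⟨m, rfl⟩ : ∃ m, n = m + 1 := by
    rcases n with _ | m
    · exact absurd hn' hs0
    · exact ⟨m, rfl⟩
  set s1 := (pderiv 0)^[m] s with hs1
  have hs1S : s1 ∈ SS F := hDn m s hs
  set a := pderiv 0 s1 with ha
  have ha0 : a ≠ 0 := by rw [ha, hs1, ← Function.iterate_succ_apply' (f := pderiv 0)]; exact hn
  have ha1 : pderiv 0 a = 0 := by
    rw [ha, hs1, ← Function.iterate_succ_apply' (f := pderiv 0),
      ← Function.iterate_succ_apply' (f := pderiv 0)]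
    exact hn'
  have huy : ∀ Q : Polynomial k, uy Q ∈ SS F := by
    intro Q
    rw [uy]
    have h2 : Algebra.adjoin k {(X 1 : MvPolynomial (Fin 2) k)} ≤ SS F :=
      Algebra.adjoin_le (by simpa using h1)
    apply h2
    rw [Algebra.adjoin_singleton_eq_range_aeval]
    exact ⟨Q, rfl⟩
  obtain ⟨A, hA⟩ := exists_uy ha1
  have h2 : pderiv 0 (s1 - a * X 0) = 0 := by
    rw [map_sub, Derivation.leibniz, ha1]
    simp [ha]
  obtain ⟨Q, hQ⟩ := exists_uy h2
  have h3 : a * X 0 ∈ SS F := by
    have : a * X 0 = s1 - uy Q := by rw [← hQ]; ring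
    rw [this]
    exact sub_mem hs1S (huy Q)
  have h4 : a ∈ SS F := by rw [hA]; exact huy A
  obtain ⟨α, hα⟩ := h4
  obtain ⟨β, hβ⟩ := h3
  have h5 : (X 0 : MvPolynomial (Fin 2) k) ∈ SS F := by
    apply mem_range_of_mul F hJ β α (X 0)
    · rintro rfl
      apply ha0
      rw [← hα]; simp
    · change aeval F α = a at hα
      change aeval F β = a * X 0 at hβ
      rw [hα, hβ]
  rw [eq_top_iff, ← MvPolynomial.adjoin_range_X]
  apply Algebra.adjoin_le
  rintro _ ⟨i, rfl⟩
  fin_cases i
  · exact h5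
  · exact h1

theorem SS_top_comp (θ : GA k) (h : SS (fun i => θ (F i)) = ⊤) : SS F = ⊤ := by
  rw [eq_top_iff]
  intro r _
  rw [← mem_SS_comp θ, h]
  trivial

include hJ in
theorem top_of_X0 (h0 : X 0 ∈ SS F) : SS F = ⊤ := by
  apply SS_top_comp F sw
  apply top_of_X1 _ (jac_comp sw F hJ)
  rw [← sw_X0, mem_SS_comp]
  exact h0

omit [CharZero k] in
theorem C_of_aeval (F : Fin 2 → MvPolynomial (Fin 2) k)
    (hinj : Function.Injective (aeval F : MvPolynomial (Fin 2) k →ₐ[k] MvPolynomial (Fin 2) k))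
    {u : MvPolynomial (Fin 2) k} {e : k} (h : aeval F u = C e) : u = C e := by
  apply hinj
  rw [h]
  exact ((aeval F : MvPolynomial (Fin 2) k →ₐ[k] MvPolynomial (Fin 2) k).commutes e).symm

include hJ in
/-- Monomials in the source algebra. -/
theorem mono_case (i j : ℕ) (hij : 0 < i + j) (h : X 0 ^ i * X 1 ^ j ∈ SS F) :
    ∃ i' j', i' ≤ 1 ∧ j' ≤ 1 ∧ 0 < i' + j' ∧ i' ≤ i ∧ j' ≤ j ∧ X 0 ^ i' * X 1 ^ j' ∈ SS F := by
  obtain ⟨π0, hπ0⟩ := h
  change aeval F π0 = X 0 ^ i * X 1 ^ j at hπ0
  have hinj := aeval_injective F hJ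
  have hmon : ∀ i j, (X 0 ^ i * X 1 ^ j : MvPolynomial (Fin 2) k) =
      monomial (Finsupp.single 0 i + Finsupp.single 1 j) 1 := by
    intro i j
    rw [monomial_eq, Finsupp.prod_fintype _ _ (by simp), Fin.prod_univ_two]
    simp
  have hne : π0 ≠ 0 := by
    rintro rfl
    rw [map_zero] at hπ0
    exact mul_ne_zero (pow_ne_zero _ (X_ne_zero 0)) (pow_ne_zero _ (X_ne_zero 1)) hπ0.symm
  have hnu : ¬ IsUnit π0 := by
    intro hu
    obtain ⟨e, _, rfl⟩ := MvPolynomial.isUnit_iff_eq_C_of_isReduced.1 hu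
    have h1 : (C e : MvPolynomial (Fin 2) k) = X 0 ^ i * X 1 ^ j := by
      rw [← hπ0]; simp [algebraMap_eq]
    have h2 := congrArg totalDegree h1
    rw [totalDegree_C, hmon, totalDegree_monomial _ one_ne_zero] at h2
    simp [Finsupp.sum_fintype, Fin.sum_univ_two] at h2
    omega
  obtain ⟨π, hπ, hππ⟩ := WfDvdMonoid.exists_irreducible_factor hnu hne
  have hd : aeval F π ∣ X 0 ^ i * X 1 ^ j := by rw [← hπ0]; exact map_dvd _ hππ
  obtain ⟨c, hc, i', j', hi', hj', hform⟩ := dvd_monomial_form i j _ hd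
  have hsq : ∀ l : Fin 2, ¬ (X l) ^ 2 ∣ aeval F π := fun l h => by
    rw [pow_two] at h
    exact not_sq_dvd F hJ π (X l) hπ.prime (X_prime) h
  refine ⟨i', j', ?_, ?_, ?_, hi', hj', ?_⟩
  · by_contra hcon
    apply hsq 0
    rw [hform]
    apply Dvd.dvd.mul_left
    apply Dvd.dvd.mul_right
    exact pow_dvd_pow _ (by omega)
  · by_contra hcon
    apply hsq 1
    rw [hform]
    apply Dvd.dvd.mul_left
    apply Dvd.dvd.mul_left
    exact pow_dvd_pow _ (by omega)
  · by_contra hcon
    obtain ⟨rfl, rfl⟩ : i' = 0 ∧ j' = 0 := by omega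
    rw [pow_zero, pow_zero, mul_one, mul_one] at hform
    have := C_of_aeval F hinj hform
    apply hπ.not_isUnit
    rw [this]
    exact (IsUnit.mk0 c hc).map C
  · have h1 : (X 0 ^ i' * X 1 ^ j' : MvPolynomial (Fin 2) k) = C c⁻¹ * aeval F π := by
      rw [hform, ← mul_assoc, ← C_mul, inv_mul_cancel₀ hc, C_1, one_mul]
    rw [h1]
    exact mul_mem (C_mem_SS F _) ⟨π, rfl⟩

end MThm

section Poly

variable {k : Type*} [Field k] [CharZero k] [IsAlgClosed k]

/-- a polynomial all of whose critical points are zeros is a power of a linear one -/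
theorem pow_form (h : Polynomial k) (hd : 0 < h.natDegree)
    (hr : ∀ z, h.derivative.IsRoot z → h.IsRoot z) :
    ∃ c z : k, c ≠ 0 ∧ h = Polynomial.C c * (Polynomial.X - Polynomial.C z) ^ h.natDegree := by
  classical
  have h0 : h ≠ 0 := by rintro rfl; simp at hd
  have hsplit : h.Splits := IsAlgClosed.splits h
  have hsplit' : h.derivative.Splits := IsAlgClosed.splits _
  have hder : h.derivative ≠ 0 := by
    intro h1
    rw [Polynomial.derivative_eq_zero] at h1
    omega
  have hc1 : h.roots.card = h.natDegree := (hsplit.natDegree_eq_card_roots).symm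
  have hc2 : h.derivative.roots.card = h.natDegree - 1 := by
    rw [← Polynomial.natDegree_derivative]
    exact (hsplit'.natDegree_eq_card_roots).symm
  have hsub : h.derivative.roots.toFinset ⊆ h.roots.toFinset := by
    intro z hz
    rw [Multiset.mem_toFinset, Polynomial.mem_roots hder] at hz
    rw [Multiset.mem_toFinset, Polynomial.mem_roots h0]
    exact hr z hz
  have e1 : ∑ z ∈ h.roots.toFinset, h.roots.count z = h.natDegree := by
    rw [Multiset.toFinset_sum_count_eq, hc1]
  have e2 : ∑ z ∈ h.roots.toFinset, h.derivative.roots.count z = h.natDegree - 1 := by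
    rw [← hc2, ← Multiset.toFinset_sum_count_eq h.derivative.roots]
    symm
    apply Finset.sum_subset hsub
    intro z _ hz
    rw [Multiset.mem_toFinset] at hz
    exact Multiset.count_eq_zero_of_notMem hz
  have e3 : ∀ z ∈ h.roots.toFinset, h.derivative.roots.count z + 1 = h.roots.count z := by
    intro z hz
    rw [Multiset.mem_toFinset, Polynomial.mem_roots h0] at hz
    rw [Polynomial.count_roots, Polynomial.count_roots, Polynomial.derivative_rootMultiplicity_of_root hz]
    have := (Polynomial.rootMultiplicity_pos h0).2 hz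
    omega
  have e4 : ∑ z ∈ h.roots.toFinset, (h.derivative.roots.count z + 1) = h.natDegree := by
    rw [← e1]
    exact Finset.sum_congr rfl e3
  rw [Finset.sum_add_distrib, e2, Finset.sum_const, smul_eq_mul, mul_one] at e4
  have e5 : h.roots.toFinset.card = 1 := by omega
  obtain ⟨z, hz⟩ := Finset.card_eq_one.1 e5
  have e6 : h.roots = Multiset.replicate h.natDegree z := by
    rw [Multiset.eq_replicate]
    refine ⟨hc1, fun y hy => ?_⟩
    have : y ∈ h.roots.toFinset := by rwa [Multiset.mem_toFinset]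
    rw [hz, Finset.mem_singleton] at this
    exact this
  refine ⟨h.leadingCoeff, z, Polynomial.leadingCoeff_ne_zero.2 h0, ?_⟩
  have h1 := hsplit.eq_prod_roots
  rw [e6] at h1
  simpa using h1

variable (F : Fin 2 → MvPolynomial (Fin 2) k) (hJ : IsUnit (Matrix.det (jac F)))

include hJ in
/-- If the source algebra meets `k[t]`, `t = x^a y^b`, then it contains a power of `t`. -/
theorem pow_mem_of_pt (a b : ℕ) (hco : Nat.Coprime a b)
    (h : ∃ P : Polynomial k, 0 < P.natDegree ∧ pt a b P ∈ SS F) :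
    ∃ n, 1 ≤ n ∧ X 0 ^ (a * n) * X 1 ^ (b * n) ∈ SS F := by
  classical
  have hab : 0 < a + b := by
    rcases Nat.eq_zero_or_pos (a + b) with h | h
    · obtain ⟨rfl, rfl⟩ : a = 0 ∧ b = 0 := by omega
      simp at hco
    · exact h
  have hinj := aeval_injective F hJ
  have hex : ∃ n, ∃ P : Polynomial k, P.natDegree = n ∧ 0 < P.natDegree ∧ pt a b P ∈ SS F := by
    obtain ⟨P, h1, h2⟩ := h
    exact ⟨_, P, rfl, h1, h2⟩
  obtain ⟨P, hPn, hP0, hPS⟩ := Nat.find_spec hex
  have hmin : ∀ Q : Polynomial k, 0 < Q.natDegree → pt a b Q ∈ SS F → P.natDegree ≤ Q.natDegree := by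
    intro Q h1 h2
    rw [hPn]
    exact Nat.find_min' hex ⟨Q, rfl, h1, h2⟩
  set g := P - Polynomial.C (P.coeff 0) with hg
  have hgd : g.natDegree = P.natDegree := Polynomial.natDegree_sub_C
  have hg0 : g.coeff 0 = 0 := by rw [hg]; simp
  have hgS : pt a b g ∈ SS F := by
    have : pt a b g = pt a b P - C (P.coeff 0) := by rw [hg]; simp [pt, algebraMap_eq]
    rw [this]
    exact sub_mem hPS (C_mem_SS F _)
  have hroot : ∀ z, g.derivative.IsRoot z → g.IsRoot z := by
    intro z hz
    by_contra hgz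
    set c := g.eval z with hc
    have hc0 : c ≠ 0 := hgz
    set Q := g - Polynomial.C c with hQ
    have hQd : Q.natDegree = P.natDegree := by rw [hQ, Polynomial.natDegree_sub_C, hgd]
    have hQ0 : Q ≠ 0 := by intro h1; rw [h1] at hQd; simp at hQd; omega
    have hQc : Q.coeff 0 ≠ 0 := by rw [hQ]; simp [hg0, hc0]
    have hQS : pt a b Q ∈ SS F := by
      have : pt a b Q = pt a b g - C c := by rw [hQ]; simp [pt, algebraMap_eq]
      rw [this]
      exact sub_mem hgS (C_mem_SS F _)
    have hdvd : (Polynomial.X - Polynomial.C z) ^ 2 ∣ Q := by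
      have h1 : 1 < Q.rootMultiplicity z := by
        rw [Polynomial.one_lt_rootMultiplicity_iff_isRoot hQ0]
        constructor
        · rw [Polynomial.IsRoot, hQ]; simp [hc]
        · rw [hQ, Polynomial.derivative_sub, Polynomial.derivative_C, sub_zero]; exact hz
      exact (Polynomial.le_rootMultiplicity_iff hQ0).1 h1
    obtain ⟨π, hπ⟩ := hQS
    change aeval F π = pt a b Q at hπ
    have hirr : Irreducible π := by
      constructor
      · intro hu
        obtain ⟨e, _, rfl⟩ := MvPolynomial.isUnit_iff_eq_C_of_isReduced.1 hu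
        have h1 : (C e : MvPolynomial (Fin 2) k) = pt a b Q := by
          rw [← hπ]; simp [algebraMap_eq]
        rw [← pt_C a b] at h1
        have h2 := pt_injective a b hab h1
        rw [← h2] at hQd
        simp at hQd; omega
      · intro u v huv
        have h1 : aeval F u * aeval F v = pt a b Q := by rw [← hπ, huv, map_mul]
        obtain ⟨U, hU⟩ := dvd_pt a b hco Q hQc _ (Dvd.intro _ h1)
        obtain ⟨V, hV⟩ := dvd_pt a b hco Q hQc _ (Dvd.intro_left _ h1)
        rw [hU, hV, ← pt_mul] at h1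
        have h2 := pt_injective a b hab h1
        have hU0 : U ≠ 0 := by rintro rfl; rw [zero_mul] at h2; exact hQ0 h2.symm
        have hV0 : V ≠ 0 := by rintro rfl; rw [mul_zero] at h2; exact hQ0 h2.symm
        have h3 := Polynomial.natDegree_mul hU0 hV0
        rw [h2, hQd] at h3
        have hunit : ∀ (w : MvPolynomial (Fin 2) k) (W : Polynomial k), W ≠ 0 → aeval F w = pt a b W →
            W.natDegree = 0 → IsUnit w := by
          intro w W hW0 hw hW
          rw [Polynomial.eq_C_of_natDegree_eq_zero hW, pt_C] at hw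
          have h4 := C_of_aeval F hinj hw
          rw [h4]
          apply (IsUnit.mk0 _ _).map C
          intro h5
          apply hW0
          rw [Polynomial.eq_C_of_natDegree_eq_zero hW, h5, map_zero]
        by_cases hUd : U.natDegree = 0
        · left; exact hunit u U hU0 hU hUd
        · right
          apply hunit v V hV0 hV
          have := hmin U (Nat.pos_of_ne_zero hUd) (hU ▸ ⟨u, rfl⟩)
          omega
    -- an irreducible factor of t - z
    have hl0 : pt a b (Polynomial.X - Polynomial.C z) ≠ 0 := by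
      intro h1
      have h2 : pt a b (Polynomial.X - Polynomial.C z) = pt a b (0 : Polynomial k) := by
        rw [h1]; simp [pt]
      exact Polynomial.X_sub_C_ne_zero z (pt_injective a b hab h2)
    have hlu : ¬ IsUnit (pt a b (Polynomial.X - Polynomial.C z)) := by
      intro hu
      obtain ⟨e, _, he⟩ := MvPolynomial.isUnit_iff_eq_C_of_isReduced.1 hu
      rw [← pt_C a b] at he
      have h2 := congrArg Polynomial.natDegree (pt_injective a b hab he)
      rw [Polynomial.natDegree_X_sub_C, Polynomial.natDegree_C] at h2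
      omega
    obtain ⟨q, hq, hqd⟩ := WfDvdMonoid.exists_irreducible_factor hlu hl0
    have hnsq := not_sq_dvd F hJ π q hirr.prime hq.prime
    obtain ⟨W, hW⟩ := hdvd
    have hsq : pt a b Q = (pt a b (Polynomial.X - Polynomial.C z) *
        pt a b (Polynomial.X - Polynomial.C z)) * pt a b W := by
      rw [← pt_mul, ← pt_mul, ← pow_two, ← hW]
    apply hnsq
    rw [hπ, hsq]
    exact Dvd.dvd.mul_right (mul_dvd_mul hqd hqd) _
  obtain ⟨c, z, hc, hform⟩ := pow_form g (by rw [hgd]; exact hP0) hroot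
  have hz : z = 0 := by
    have h1 : g.eval 0 = 0 := by rw [← Polynomial.coeff_zero_eq_eval_zero]; exact hg0
    rw [hform] at h1
    simp at h1
    rcases h1 with h1 | h1
    · exact absurd h1 hc
    · exact h1.1
  rw [hz, Polynomial.C_0, sub_zero] at hform
  refine ⟨g.natDegree, by rw [hgd]; exact hP0, ?_⟩
  have h1 : pt a b g = C c * (X 0 ^ a * X 1 ^ b) ^ g.natDegree := by
    conv_lhs => rw [hform]
    simp [pt, algebraMap_eq]
  have h2 : (X 0 ^ (a * g.natDegree) * X 1 ^ (b * g.natDegree) : MvPolynomial (Fin 2) k) =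
      C c⁻¹ * pt a b g := by
    rw [h1, ← mul_assoc, ← C_mul, inv_mul_cancel₀ hc, C_1, one_mul, mul_pow, pow_mul, pow_mul]
  rw [h2]
  exact mul_mem (C_mem_SS F _) hgS

include hJ in
/-- If the source algebra contains a nonconstant polynomial in the second variable, it is everything. -/
theorem top_of_uy (h : ∃ P : Polynomial k, 0 < P.natDegree ∧ uy P ∈ SS F) : SS F = ⊤ := by
  have h1 : ∃ P : Polynomial k, 0 < P.natDegree ∧ pt 0 1 P ∈ SS F := by
    obtain ⟨P, h1, h2⟩ := h
    refine ⟨P, h1, ?_⟩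
    rw [uy] at h2
    rw [pt, pow_zero, one_mul, pow_one]
    exact h2
  obtain ⟨n, hn, hn2⟩ := pow_mem_of_pt F hJ 0 1 (by simp) h1
  obtain ⟨i', j', hi1, hj1, hij, hi, hj, hmem⟩ := mono_case F hJ (0 * n) (1 * n) (by omega) hn2
  obtain ⟨rfl, rfl⟩ : i' = 0 ∧ j' = 1 := by omega
  apply top_of_X1 F hJ
  simpa using hmem

include hJ in
theorem top_of_ux (h : ∃ P : Polynomial k, 0 < P.natDegree ∧ ux P ∈ SS F) : SS F = ⊤ := by
  apply SS_top_comp F sw
  apply top_of_uy _ (jac_comp sw F hJ)
  obtain ⟨P, h1, h2⟩ := h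
  refine ⟨P, h1, ?_⟩
  have : uy P = sw (ux P) := by rw [gmap_ux, sw_X0]; rfl
  rw [this, mem_SS_comp]
  exact h2

end Poly

end Pool.Agent.H922R2
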