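import Mathlib
import Pool.Agent.H922R2.K18

set_option autoImplicit false
set_option linter.unusedSectionVars false
set_option linter.style.haveILetI false

open MvPolynomial

namespace Pool.Agent.H922R2

section Cases

variable {k : Type*} [Field k] [CharZero k]

/-- stability of the source algebra -/
def Stab (F : Fin 2 → MvPolynomial (Fin 2) k) (φ : GA k) : Prop := ∀ s, s ∈ SS F ↔ φ s ∈ SS F

theorem ga_C (θ : GA k) (c : k) : θ (C c) = C c := θ.commutes c

theorem inv_apply_self' (θ : GA k) (r : MvPolynomial (Fin 2) k) : θ⁻¹ (θ r) = r :=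
  AlgEquiv.symm_apply_apply θ r

theorem apply_inv_self' (θ : GA k) (r : MvPolynomial (Fin 2) k) : θ (θ⁻¹ r) = r :=
  AlgEquiv.apply_symm_apply θ r

theorem Stab.conj {F : Fin 2 → MvPolynomial (Fin 2) k} {φ : GA k} (h : Stab F φ) (θ : GA k) :
    Stab (fun i => θ⁻¹ (F i)) (θ⁻¹ * φ * θ) := by
  intro s
  have e1 : s = θ⁻¹ (θ s) := (inv_apply_self' θ s).symm
  conv_lhs => rw [e1, mem_SS_comp, h]
  change _ ↔ θ⁻¹ (φ (θ s)) ∈ _
  rw [mem_SS_comp]

theorem exists_ux {r : MvPolynomial (Fin 2) k} (h : pderiv 1 r = 0) :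
    ∃ P : Polynomial k, r = ux P := by
  have h1 : pderiv 0 (sw r) = 0 := by
    rw [pderiv_ga, h, sw_X0, sw_X1]
    simp [pderiv_X_of_ne (show (1 : Fin 2) ≠ 0 by decide)]
  obtain ⟨P, hP⟩ := exists_uy h1
  refine ⟨P, ?_⟩
  rw [← sw_sw r, hP, gmap_uy, sw_X1]
  rfl

theorem ux_injective : Function.Injective (ux : Polynomial k → MvPolynomial (Fin 2) k) := by
  intro P Q h
  apply uy_injective
  have h1 : ∀ P : Polynomial k, uy P = sw (ux P) := by
    intro P; rw [gmap_ux, sw_X0]; rfl
  rw [h1, h1, h]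

theorem ux_mul (P Q : Polynomial k) : ux (P * Q) = ux P * ux Q := by simp [ux]
theorem uy_mul (P Q : Polynomial k) : uy (P * Q) = uy P * uy Q := by simp [uy]
theorem ux_add (P Q : Polynomial k) : ux (P + Q) = ux P + ux Q := by simp [ux]
theorem uy_add (P Q : Polynomial k) : uy (P + Q) = uy P + uy Q := by simp [uy]
theorem ux_C (c : k) : ux (Polynomial.C c) = C c := by simp [ux, algebraMap_eq]
theorem uy_C (c : k) : uy (Polynomial.C c) = C c := by simp [uy, algebraMap_eq]

/-- Semi-invariants of degree one in a kernel direction. -/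
theorem exists_top_pair (D : Derivation k (MvPolynomial (Fin 2) k) (MvPolynomial (Fin 2) k))
    (hD : LN D) (φ : GA k) (α : k) (hα : α ≠ 0) (hφD : ∀ r, D (φ r) = C α * φ (D r))
    {c : MvPolynomial (Fin 2) k} {l : k} (hl : φ c = C l * c) (hc : D c ≠ 0) :
    ∃ (h : MvPolynomial (Fin 2) k) (m : k), φ h = C (m * α) * h ∧ φ (D h) = C m * D h ∧ D h ≠ 0 ∧
      D (D h) = 0 := by
  have hstep : ∀ r ρ, φ r = C (ρ * α) * r → φ (D r) = C ρ * D r := by
    intro r ρ hr
    have h1 := hφD r
    rw [hr, Derivation.leibniz] at h1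
    have h2 : D (C (ρ * α)) = 0 := D.map_algebraMap _
    rw [h2, smul_zero, add_zero, smul_eq_mul, mul_comm ρ, C_mul, mul_assoc] at h1
    exact (mul_left_cancel₀ (by rw [Ne, C_eq_zero]; exact hα) h1).symm
  have hiter : ∀ n, φ (D^[n] c) = C (l * α⁻¹ ^ n) * D^[n] c := by
    intro n
    induction n with
    | zero => simpa using hl
    | succ n ih =>
      rw [Function.iterate_succ_apply']
      apply hstep
      rw [ih, pow_succ, ← mul_assoc, mul_assoc (l * α⁻¹ ^ n), inv_mul_cancel₀ hα, mul_one]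
  obtain ⟨n, hn, hn'⟩ := exists_top D hD (r := c) (by rintro rfl; exact hc (map_zero _))
  obtain ⟨m, rfl⟩ : ∃ m, n = m + 1 := by
    rcases n with _ | m
    · exact absurd hn' hc
    · exact ⟨m, rfl⟩
  refine ⟨D^[m] c, l * α⁻¹ ^ (m + 1), ?_, ?_, ?_, ?_⟩
  · rw [hiter, pow_succ, ← mul_assoc, mul_assoc (l * α⁻¹ ^ m), inv_mul_cancel₀ hα, mul_one]
  · rw [← Function.iterate_succ_apply' (f := D)]
    exact hiter (m + 1)
  · rw [← Function.iterate_succ_apply' (f := D)]; exact hn
  · rw [← Function.iterate_succ_apply' (f := D), ← Function.iterate_succ_apply' (f := D)]; exact hn'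

theorem semi_ne_zero {φ : GA k} {c : MvPolynomial (Fin 2) k} {l : k} (hl : φ c = C l * c)
    (hc : c ≠ 0) : l ≠ 0 := by
  rintro rfl
  rw [C_0, zero_mul] at hl
  exact hc ((map_eq_zero_iff φ φ.injective).1 hl)

/-- a polynomial semi-invariant under a translation is constant -/
theorem shift_const {A : Polynomial k} {g m : k} (hg : g ≠ 0) (hA : A ≠ 0)
    (h : A.comp (Polynomial.X + Polynomial.C g) = Polynomial.C m * A) : ∃ a, a ≠ 0 ∧ A = Polynomial.C a := by
  have hm : m = 1 := by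
    have h1 := congrArg Polynomial.leadingCoeff h
    rw [Polynomial.leadingCoeff_mul, Polynomial.leadingCoeff_C, Polynomial.leadingCoeff_comp (by
      rw [Polynomial.natDegree_X_add_C]; exact one_ne_zero), Polynomial.leadingCoeff_X_add_C, one_pow,
      mul_one] at h1
    have h2 : A.leadingCoeff ≠ 0 := Polynomial.leadingCoeff_ne_zero.2 hA
    have h3 : (m - 1) * A.leadingCoeff = 0 := by rw [sub_mul, ← h1]; ring
    rcases mul_eq_zero.1 h3 with h4 | h4
    · exact sub_eq_zero.1 h4
    · exact absurd h4 h2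
  rw [hm, Polynomial.C_1, one_mul] at h
  have h1 : ∀ n : ℕ, A.eval (n * g) = A.eval 0 := by
    intro n
    induction n with
    | zero => simp
    | succ n ih =>
      rw [← ih]
      conv_rhs => rw [← h]
      rw [Polynomial.eval_comp]
      congr 1
      simp; ring
  have h2 : A - Polynomial.C (A.eval 0) = 0 := by
    apply Polynomial.eq_zero_of_infinite_isRoot
    apply Set.infinite_of_injective_forall_mem (f := fun n : ℕ => (n : k) * g)
    · intro a b hab
      have : (a : k) = b := mul_right_cancel₀ hg hab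
      exact_mod_cast this
    · intro n
      change Polynomial.IsRoot _ _
      rw [Polynomial.IsRoot, Polynomial.eval_sub, h1, Polynomial.eval_C, sub_self]
  refine ⟨A.eval 0, ?_, sub_eq_zero.1 h2⟩
  intro h3
  rw [sub_eq_zero, h3, map_zero] at h2
  exact hA h2

theorem natDegree_pos_of_uy {c : MvPolynomial (Fin 2) k} {Q : Polynomial k} (hc : ∀ a, c ≠ C a)
    (h : c = uy Q) : 0 < Q.natDegree := by
  rw [Nat.pos_iff_ne_zero]
  intro h0
  rw [Polynomial.eq_C_of_natDegree_eq_zero h0, uy_C] at h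
  exact hc _ h

theorem natDegree_pos_of_ux {c : MvPolynomial (Fin 2) k} {Q : Polynomial k} (hc : ∀ a, c ≠ C a)
    (h : c = ux Q) : 0 < Q.natDegree := by
  rw [Nat.pos_iff_ne_zero]
  intro h0
  rw [Polynomial.eq_C_of_natDegree_eq_zero h0, ux_C] at h
  exact hc _ h

variable [IsAlgClosed k]

theorem caseI' {F : Fin 2 → MvPolynomial (Fin 2) k} (hJ : IsUnit (Matrix.det (jac F))) {φ : GA k}
    {ν g : k} (hν : ν ≠ 0) (hg : g ≠ 0) (h0 : φ (X 0) = C ν * X 0) (h1 : φ (X 1) = X 1 + C g)
    {c : MvPolynomial (Fin 2) k} (hcS : c ∈ SS F) (hc : ∀ a, c ≠ C a) {l : k}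
    (hl : φ c = C l * c) : SS F = ⊤ := by
  have hφD : ∀ r, pderiv 1 (φ r) = C 1 * φ (pderiv 1 r) := by
    intro r
    rw [pderiv_ga, h0, h1]
    simp
  have hD : pderiv 1 c = 0 := by
    by_contra hne
    obtain ⟨h, m, e1, e2, e3, e4⟩ := exists_top_pair (pderiv 1) (LN_pderiv 1) φ 1 one_ne_zero hφD hl hne
    rw [mul_one] at e1
    set a := pderiv 1 h with ha
    have hb : pderiv 1 (h - a * X 1) = 0 := by
      rw [map_sub, Derivation.leibniz, e4]
      simp [ha]
    obtain ⟨A, hA⟩ := exists_ux e4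
    obtain ⟨B, hB⟩ := exists_ux hb
    have hh : h = ux A * X 1 + ux B := by rw [← hA, ← hB]; ring
    have hφu : ∀ P : Polynomial k, φ (ux P) = ux (P.comp (Polynomial.C ν * Polynomial.X)) := by
      intro P
      rw [gmap_ux, h0, ux, Polynomial.aeval_comp]
      simp [algebraMap_eq]
    rw [hA, hφu, ← ux_C, ← ux_mul] at e2
    have e2' := ux_injective e2
    rw [hh, map_add, map_mul, hφu, hφu, h1, e2'] at e1
    have e5 : ux (Polynomial.C (m * g) * A) = ux (Polynomial.C m * B -
        B.comp (Polynomial.C ν * Polynomial.X)) := by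
      have : ∀ P Q : Polynomial k, ux (P - Q) = ux P - ux Q := by intro P Q; simp [ux]
      rw [this]
      simp only [ux_mul, ux_C, C_mul] at e1 ⊢
      linear_combination e1
    have e6 := ux_injective e5
    have hA0 : A ≠ 0 := by
      rintro rfl
      apply e3
      rw [hA]; simp [ux]
    obtain ⟨i, hi⟩ : ∃ i, A.coeff i ≠ 0 := by
      by_contra hcon
      push Not at hcon
      exact hA0 (Polynomial.ext (by simpa using hcon))
    have f1 := congrArg (fun P => Polynomial.coeff P i) e2'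
    have f2 := congrArg (fun P => Polynomial.coeff P i) e6
    simp only [Polynomial.comp_C_mul_X_coeff, Polynomial.coeff_C_mul, Polynomial.coeff_sub] at f1 f2
    have hm : m = ν ^ i := by
      have : A.coeff i * ν ^ i = A.coeff i * m := by rw [f1]; ring
      exact (mul_left_cancel₀ hi this).symm
    have hm0 : m ≠ 0 := by rw [hm]; exact pow_ne_zero _ hν
    rw [hm] at f2
    have f3 : ν ^ i * g * A.coeff i = 0 := by rw [f2]; ring
    rcases mul_eq_zero.1 f3 with f4 | f4
    · rcases mul_eq_zero.1 f4 with f5 | f5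
      · exact pow_ne_zero _ hν f5
      · exact hg f5
    · exact hi f4
  obtain ⟨Q, hQ⟩ := exists_ux hD
  exact top_of_ux F hJ ⟨Q, natDegree_pos_of_ux hc hQ, hQ ▸ hcS⟩

theorem caseI {F : Fin 2 → MvPolynomial (Fin 2) k} (hJ : IsUnit (Matrix.det (jac F))) {φ : GA k}
    {α g : k} {P : Polynomial k} (hα : α ≠ 0) (hg : g ≠ 0) (h0 : φ (X 0) = C α * X 0 + uy P)
    (h1 : φ (X 1) = X 1 + C g)
    {c : MvPolynomial (Fin 2) k} (hcS : c ∈ SS F) (hc : ∀ a, c ≠ C a) {l : k}
    (hl : φ c = C l * c) : SS F = ⊤ := by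
  have huy : ∀ P : Polynomial k, pderiv 0 (uy P) = 0 := by
    intro P
    rw [uy, Derivation.map_aeval]
    simp
  have hφD : ∀ r, pderiv 0 (φ r) = C α * φ (pderiv 0 r) := by
    intro r
    rw [pderiv_ga, h0, h1, map_add, huy]
    simp; ring
  by_cases hD : pderiv 0 c = 0
  · obtain ⟨Q, hQ⟩ := exists_uy hD
    exact top_of_uy F hJ ⟨Q, natDegree_pos_of_uy hc hQ, hQ ▸ hcS⟩
  · obtain ⟨h, m, e1, e2, e3, e4⟩ := exists_top_pair (pderiv 0) (LN_pderiv 0) φ α hα hφD hl hD
    obtain ⟨A, hA⟩ := exists_uy e4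
    have hφu : ∀ P : Polynomial k, φ (uy P) = uy (P.comp (Polynomial.X + Polynomial.C g)) := by
      intro P
      rw [gmap_uy, h1, uy, Polynomial.aeval_comp]
      simp [algebraMap_eq]
    have hA0 : A ≠ 0 := by
      rintro rfl
      apply e3
      rw [hA]; simp [uy]
    rw [hA, hφu, ← uy_C, ← uy_mul] at e2
    obtain ⟨a, ha, rfl⟩ := shift_const hg hA0 (uy_injective e2)
    rw [uy_C] at hA
    have hb : pderiv 0 (h - C a * X 0) = 0 := by
      rw [map_sub, hA]; simp
    obtain ⟨B, hB⟩ := exists_uy hb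
    set B' := Polynomial.C a⁻¹ * B with hB'
    have hh : h = C a * (X 0 + uy B') := by
      rw [hB', uy_mul, uy_C, mul_add, ← mul_assoc, ← C_mul, mul_inv_cancel₀ ha, C_1, one_mul, ← hB]
      ring
    set θ := elemX B' with hθ
    have hθ0 : θ (X 0) = X 0 + uy B' := elemX_X0 B'
    have hθ1 : θ (X 1) = X 1 := elemX_X1 B'
    have hx' : φ (θ (X 0)) = C (m * α) * θ (X 0) := by
      rw [hh, map_mul, ga_C, ← hθ0] at e1
      have : C a * φ (θ (X 0)) = C a * (C (m * α) * θ (X 0)) := by rw [e1]; ring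
      exact mul_left_cancel₀ (by rw [Ne, C_eq_zero]; exact ha) this
    have hν : m * α ≠ 0 := semi_ne_zero hx' (by
      rw [Ne, map_eq_zero_iff θ θ.injective]; exact X_ne_zero 0)
    apply SS_top_comp F θ⁻¹
    apply caseI' (φ := θ⁻¹ * φ * θ) (jac_comp θ⁻¹ F hJ) hν hg (c := θ⁻¹ c) (l := l)
    · change θ⁻¹ (φ (θ (X 0))) = _
      rw [hx', map_mul, ga_C, inv_apply_self']
    · change θ⁻¹ (φ (θ (X 1))) = _
      rw [hθ1, h1, map_add, ga_C]
      congr 1
      conv_lhs => rw [← hθ1]
      rw [inv_apply_self']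
    · rw [mem_SS_comp]; exact hcS
    · intro b hb
      apply hc b
      rw [← apply_inv_self' θ c, hb, ga_C]
    · change θ⁻¹ (φ (θ (θ⁻¹ c))) = _
      rw [apply_inv_self', hl, map_mul, ga_C]

theorem caseIIa {F : Fin 2 → MvPolynomial (Fin 2) k} (hJ : IsUnit (Matrix.det (jac F))) {φ : GA k}
    {α β : k} {P : Polynomial k} (hα : α ≠ 0) (hP : P ≠ 0) (h0 : φ (X 0) = C α * X 0 + uy P)
    (h1 : φ (X 1) = C β * X 1) (hPc : ∀ j, P.coeff j ≠ 0 → β ^ j = α)
    {c : MvPolynomial (Fin 2) k} (hcS : c ∈ SS F) (hc : ∀ a, c ≠ C a) {l : k}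
    (hl : φ c = C l * c) : SS F = ⊤ := by
  have huy : ∀ P : Polynomial k, pderiv 0 (uy P) = 0 := by
    intro P
    rw [uy, Derivation.map_aeval]
    simp
  have hφD : ∀ r, pderiv 0 (φ r) = C α * φ (pderiv 0 r) := by
    intro r
    rw [pderiv_ga, h0, h1, map_add, huy]
    simp; ring
  by_cases hD : pderiv 0 c = 0
  · obtain ⟨Q, hQ⟩ := exists_uy hD
    exact top_of_uy F hJ ⟨Q, natDegree_pos_of_uy hc hQ, hQ ▸ hcS⟩
  · exfalso
    obtain ⟨h, m, e1, e2, e3, e4⟩ := exists_top_pair (pderiv 0) (LN_pderiv 0) φ α hα hφD hl hD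
    have hm : m ≠ 0 := semi_ne_zero e2 e3
    set a := pderiv 0 h with ha
    have hb : pderiv 0 (h - a * X 0) = 0 := by
      rw [map_sub, Derivation.leibniz, e4]
      simp [ha]
    obtain ⟨A, hA⟩ := exists_uy e4
    obtain ⟨B, hB⟩ := exists_uy hb
    have hh : h = uy A * X 0 + uy B := by rw [← hA, ← hB]; ring
    have hφu : ∀ P : Polynomial k, φ (uy P) = uy (P.comp (Polynomial.C β * Polynomial.X)) := by
      intro P
      rw [gmap_uy, h1, uy, Polynomial.aeval_comp]
      simp [algebraMap_eq]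
    have hA0 : A ≠ 0 := by
      rintro rfl
      apply e3
      rw [hA]; simp [uy]
    rw [hA, hφu, ← uy_C, ← uy_mul] at e2
    have e2' := uy_injective e2
    rw [hh, map_add, map_mul, hφu, hφu, h0, e2'] at e1
    have e5 : uy (Polynomial.C m * (A * P)) = uy (Polynomial.C (m * α) * B -
        B.comp (Polynomial.C β * Polynomial.X)) := by
      have : ∀ P Q : Polynomial k, uy (P - Q) = uy P - uy Q := by intro P Q; simp [uy]
      rw [this]
      simp only [uy_mul, uy_C, C_mul] at e1 ⊢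
      linear_combination e1
    have e6 := uy_injective e5
    have hAP : A * P ≠ 0 := mul_ne_zero hA0 hP
    obtain ⟨j, hj⟩ : ∃ j, (A * P).coeff j ≠ 0 := by
      by_contra hcon
      push Not at hcon
      exact hAP (Polynomial.ext (by simpa using hcon))
    have hβj : β ^ j = m * α := by
      rw [Polynomial.coeff_mul] at hj
      obtain ⟨⟨i, i'⟩, hii, hne⟩ := Finset.exists_ne_zero_of_sum_ne_zero hj
      rw [Finset.HasAntidiagonal.mem_antidiagonal] at hii
      simp only at hii hne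
      have hAi : A.coeff i ≠ 0 := left_ne_zero_of_mul hne
      have hPi : P.coeff i' ≠ 0 := right_ne_zero_of_mul hne
      have f1 := congrArg (fun P => Polynomial.coeff P i) e2'
      simp only [Polynomial.comp_C_mul_X_coeff, Polynomial.coeff_C_mul] at f1
      have f2 : β ^ i = m := by
        have : A.coeff i * β ^ i = A.coeff i * m := by rw [f1]; ring
        exact mul_left_cancel₀ hAi this
      rw [← hii, pow_add, f2, hPc i' hPi]
    have f3 := congrArg (fun P => Polynomial.coeff P j) e6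
    simp only [Polynomial.comp_C_mul_X_coeff, Polynomial.coeff_C_mul, Polynomial.coeff_sub] at f3
    rw [hβj] at f3
    have f4 : m * (A * P).coeff j = 0 := by rw [f3]; ring
    rcases mul_eq_zero.1 f4 with f5 | f5
    · exact hm f5
    · exact hj f5

end Cases

end Pool.Agent.H922R2
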