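import Mathlib
import Pool.Agent.H922R2.K19

set_option autoImplicit false
set_option linter.unusedSectionVars false
set_option linter.style.haveILetI false

open MvPolynomial

namespace Pool.Agent.H922R2

section Diag

variable {k : Type*} [Field k] [CharZero k]

/-- eigenvalue of a monomial -/
def ev (α β : k) (t : Fin 2 →₀ ℕ) : k := α ^ t 0 * β ^ t 1

theorem coeff_diag {φ : GA k} {α β : k} (h0 : φ (X 0) = C α * X 0) (h1 : φ (X 1) = C β * X 1)
    (r : MvPolynomial (Fin 2) k) (t : Fin 2 →₀ ℕ) : coeff t (φ r) = ev α β t * coeff t r := by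
  induction r using MvPolynomial.induction_on' with
  | monomial s a =>
    have h : φ (monomial s a) = C (ev α β s) * monomial s a := by
      rw [monomial_eq, Finsupp.prod_fintype _ _ (by simp), Fin.prod_univ_two, map_mul, map_mul,
        map_pow, map_pow, h0, h1, ga_C, mul_pow, mul_pow, ev, C_mul, C_pow, C_pow]
      ring
    rw [h, coeff_C_mul, coeff_monomial]
    split_ifs with hst
    · rw [hst]
    · simp
  | add p q hp hq =>
    rw [map_add, coeff_add, coeff_add, hp, hq]; ring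

/-- component of a given eigenvalue -/
noncomputable def cmp (α β : k) (l : k) (r : MvPolynomial (Fin 2) k) : MvPolynomial (Fin 2) k := by
  classical
  exact ∑ t ∈ r.support.filter (fun t => ev α β t = l), monomial t (coeff t r)

open Classical in
theorem coeff_cmp (α β l : k) (r : MvPolynomial (Fin 2) k) (t : Fin 2 →₀ ℕ) :
    coeff t (cmp α β l r) = if ev α β t = l then coeff t r else 0 := by
  unfold cmp
  rw [coeff_sum]
  simp only [coeff_monomial]
  by_cases ht : t ∈ r.support.filter (fun t => ev α β t = l)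
  · rw [Finset.sum_ite_eq', if_pos ht, if_pos (Finset.mem_filter.1 ht).2]
  · rw [Finset.sum_ite_eq', if_neg ht]
    split_ifs with h
    · rw [Finset.mem_filter, not_and] at ht
      by_contra hne
      exact ht (mem_support_iff.2 (fun h => hne h.symm)) h
    · rfl

theorem ev_cmp {α β l : k} {r : MvPolynomial (Fin 2) k} {t : Fin 2 →₀ ℕ}
    (ht : coeff t (cmp α β l r) ≠ 0) : ev α β t = l := by
  classical
  rw [coeff_cmp] at ht
  by_contra h
  rw [if_neg h] at ht
  exact ht rfl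

variable {F : Fin 2 → MvPolynomial (Fin 2) k}

theorem eig_mem {φ : GA k} (hφ : ∀ s ∈ SS F, φ s ∈ SS F) (Λ : Finset k) :
    ∀ u : k → MvPolynomial (Fin 2) k, (∀ m ∈ Λ, φ (u m) = C m * u m) → ∑ m ∈ Λ, u m ∈ SS F →
      ∀ m ∈ Λ, u m ∈ SS F := by
  classical
  induction Λ using Finset.induction_on with
  | empty => intro u _ _ m hm; simp at hm
  | insert ν Λ hν ih =>
    intro u hu hsum
    rw [Finset.sum_insert hν] at hsum
    have h1 : ∑ m ∈ Λ, C (m - ν) * u m ∈ SS F := by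
      have h2 := sub_mem (hφ _ hsum) (mul_mem (C_mem_SS F ν) hsum)
      have h3 : φ (u ν + ∑ m ∈ Λ, u m) - C ν * (u ν + ∑ m ∈ Λ, u m) = ∑ m ∈ Λ, C (m - ν) * u m := by
        rw [map_add, map_sum, hu ν (Finset.mem_insert_self _ _), mul_add, Finset.mul_sum]
        rw [add_sub_add_left_eq_sub, ← Finset.sum_sub_distrib]
        apply Finset.sum_congr rfl
        intro m hm
        rw [hu m (Finset.mem_insert_of_mem hm), C_sub]; ring
      rwa [h3] at h2
    have h4 := ih (fun m => C (m - ν) * u m) (by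
      intro m hm
      rw [map_mul, ga_C, hu m (Finset.mem_insert_of_mem hm)]; ring) h1
    have h5 : ∀ m ∈ Λ, u m ∈ SS F := by
      intro m hm
      have h6 := h4 m hm
      have hne : m - ν ≠ 0 := sub_ne_zero.2 (by rintro rfl; exact hν hm)
      have h7 : u m = C (m - ν)⁻¹ * (C (m - ν) * u m) := by
        rw [← mul_assoc, ← C_mul, inv_mul_cancel₀ hne, C_1, one_mul]
      rw [h7]
      exact mul_mem (C_mem_SS F _) h6
    intro m hm
    rw [Finset.mem_insert] at hm
    rcases hm with rfl | hm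
    · have h8 : u m = (u m + ∑ m ∈ Λ, u m) - ∑ m ∈ Λ, u m := by ring
      rw [h8]
      exact sub_mem hsum (sum_mem h5)
    · exact h5 m hm

theorem cmp_mem {φ : GA k} (hφ : ∀ s ∈ SS F, φ s ∈ SS F) {α β : k} (h0 : φ (X 0) = C α * X 0)
    (h1 : φ (X 1) = C β * X 1) (l : k) {r : MvPolynomial (Fin 2) k} (hr : r ∈ SS F) :
    cmp α β l r ∈ SS F := by
  classical
  set Λ : Finset k := insert l (r.support.image (ev α β)) with hΛ
  have hsum : ∑ m ∈ Λ, cmp α β m r = r := by
    ext t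
    rw [coeff_sum]
    simp only [coeff_cmp]
    by_cases ht : coeff t r = 0
    · rw [ht]; simp
    · rw [Finset.sum_ite_eq, if_pos]
      rw [hΛ, Finset.mem_insert, Finset.mem_image]
      exact Or.inr ⟨t, mem_support_iff.2 ht, rfl⟩
  apply eig_mem hφ Λ (fun m => cmp α β m r)
  · intro m _
    ext t
    rw [coeff_diag h0 h1, coeff_C_mul, coeff_cmp]
    split_ifs with h
    · rw [h]
    · simp
  · rw [hsum]; exact hr
  · rw [hΛ]; exact Finset.mem_insert_self _ _

omit [CharZero k] in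
theorem coeff_zero_pderiv (i : Fin 2) (r : MvPolynomial (Fin 2) k) :
    coeff 0 (pderiv i r) = coeff (Finsupp.single i 1) r := by
  rw [coeff_pderiv]; simp

omit [CharZero k] in
theorem coeff_zero_mul2 (p q : MvPolynomial (Fin 2) k) :
    coeff 0 (p * q) = coeff 0 p * coeff 0 q := by
  rw [← constantCoeff_eq, map_mul]

/-- normalised elements -/
theorem exists_normal (hJ : IsUnit (Matrix.det (jac F))) :
    (∃ f ∈ SS F, coeff (Finsupp.single 0 1) f = 1 ∧ coeff (Finsupp.single 1 1) f = 0 ∧ coeff 0 f = 0) ∧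
    (∃ g ∈ SS F, coeff (Finsupp.single 0 1) g = 0 ∧ coeff (Finsupp.single 1 1) g = 1 ∧ coeff 0 g = 0) := by
  rw [det_jac] at hJ
  obtain ⟨δ, hδ, hδ2⟩ := MvPolynomial.isUnit_iff_eq_C_of_isReduced.1 hJ
  have hδ0 : δ ≠ 0 := hδ.ne_zero
  have h1 := congrArg (coeff 0) hδ2
  rw [DJ_apply, coeff_sub, coeff_zero_mul2, coeff_zero_mul2, coeff_zero_pderiv, coeff_zero_pderiv,
    coeff_zero_pderiv, coeff_zero_pderiv, coeff_zero_C] at h1
  have hF : ∀ i, F i ∈ SS F := fun i => ⟨X i, by simp⟩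
  set a0 := coeff 0 (F 0)
  set b0 := coeff 0 (F 1)
  set a1 := coeff (Finsupp.single 0 1) (F 0)
  set a2 := coeff (Finsupp.single 1 1) (F 0)
  set b1 := coeff (Finsupp.single 0 1) (F 1)
  set b2 := coeff (Finsupp.single 1 1) (F 1)
  have hs0 : (Finsupp.single 0 1 : Fin 2 →₀ ℕ) ≠ 0 := by
    rw [Ne, Finsupp.single_eq_zero]; exact one_ne_zero
  have hs1 : (Finsupp.single 1 1 : Fin 2 →₀ ℕ) ≠ 0 := by
    rw [Ne, Finsupp.single_eq_zero]; exact one_ne_zero
  constructor
  · refine ⟨C (δ⁻¹ * b2) * (F 0 - C a0) - C (δ⁻¹ * a2) * (F 1 - C b0), ?_, ?_, ?_, ?_⟩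
    · exact sub_mem (mul_mem (C_mem_SS F _) (sub_mem (hF 0) (C_mem_SS F _)))
        (mul_mem (C_mem_SS F _) (sub_mem (hF 1) (C_mem_SS F _)))
    · simp only [coeff_sub, coeff_C_mul, coeff_C, if_neg hs0.symm, sub_zero]
      change δ⁻¹ * b2 * a1 - δ⁻¹ * a2 * b1 = 1
      have : δ⁻¹ * b2 * a1 - δ⁻¹ * a2 * b1 = δ⁻¹ * (a1 * b2 - a2 * b1) := by ring
      rw [this, h1, inv_mul_cancel₀ hδ0]
    · simp only [coeff_sub, coeff_C_mul, coeff_C, if_neg hs1.symm, sub_zero]
      change δ⁻¹ * b2 * a2 - δ⁻¹ * a2 * b2 = 0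
      ring
    · simp only [coeff_sub, coeff_C_mul, coeff_C, if_true]
      change δ⁻¹ * b2 * (a0 - a0) - δ⁻¹ * a2 * (b0 - b0) = 0
      ring
  · refine ⟨C (δ⁻¹ * a1) * (F 1 - C b0) - C (δ⁻¹ * b1) * (F 0 - C a0), ?_, ?_, ?_, ?_⟩
    · exact sub_mem (mul_mem (C_mem_SS F _) (sub_mem (hF 1) (C_mem_SS F _)))
        (mul_mem (C_mem_SS F _) (sub_mem (hF 0) (C_mem_SS F _)))
    · simp only [coeff_sub, coeff_C_mul, coeff_C, if_neg hs0.symm, sub_zero]
      change δ⁻¹ * a1 * b1 - δ⁻¹ * b1 * a1 = 0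
      ring
    · simp only [coeff_sub, coeff_C_mul, coeff_C, if_neg hs1.symm, sub_zero]
      change δ⁻¹ * a1 * b2 - δ⁻¹ * b1 * a2 = 1
      have : δ⁻¹ * a1 * b2 - δ⁻¹ * b1 * a2 = δ⁻¹ * (a1 * b2 - a2 * b1) := by ring
      rw [this, h1, inv_mul_cancel₀ hδ0]
    · simp only [coeff_sub, coeff_C_mul, coeff_C, if_true]
      change δ⁻¹ * a1 * (b0 - b0) - δ⁻¹ * b1 * (a0 - a0) = 0
      ring

end Diag

end Pool.Agent.H922R2
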