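import Mathlib
import Pool.Agent.H922R2.K20

set_option autoImplicit false
set_option linter.unusedSectionVars false
set_option linter.style.haveILetI false

open MvPolynomial

namespace Pool.Agent.H922R2

section DiagThm

variable {k : Type*} [Field k] [CharZero k] [IsAlgClosed k]
variable {F : Fin 2 → MvPolynomial (Fin 2) k}

theorem pow_diag {φ : GA k} {α β : k} (h0 : φ (X 0) = C α * X 0)
    (h1 : φ (X 1) = C β * X 1) (n : ℕ) : (φ ^ n) (X 0) = C (α ^ n) * X 0 ∧
      (φ ^ n) (X 1) = C (β ^ n) * X 1 := by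
  induction n with
  | zero => simp
  | succ n ih =>
    rw [pow_succ' φ]
    constructor
    · change φ ((φ ^ n) (X 0)) = _
      rw [ih.1, map_mul, ga_C, h0, pow_succ, C_mul]; ring
    · change φ ((φ ^ n) (X 1)) = _
      rw [ih.2, map_mul, ga_C, h1, pow_succ, C_mul]; ring

theorem Stab.pow {φ : GA k} (h : Stab F φ) (n : ℕ) : Stab F (φ ^ n) := by
  induction n with
  | zero => intro s; rfl
  | succ n ih =>
    intro s
    rw [pow_succ']
    change _ ↔ φ ((φ ^ n) s) ∈ _
    rw [← h, ih s]

/-- if the source contains `x` times a polynomial in `t = x^a y^b` and a power of `t`, everything -/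
theorem diag_both (hJ : IsUnit (Matrix.det (jac F))) {φ : GA k} (hS : Stab F φ) {α β : k}
    (h0 : φ (X 0) = C α * X 0) (h1 : φ (X 1) = C β * X 1) (hα : α ≠ 0) (hβ : β ≠ 0)
    (hinf : ∀ n, 0 < n → α ^ n = 1 → β ^ n = 1 → False) (a b : ℕ) (ha : 0 < a) (hb : 0 < b)
    (hco : Nat.Coprime a b) (hrel : α ^ a * β ^ b = 1) : SS F = ⊤ := by
  have hφ : ∀ s ∈ SS F, φ s ∈ SS F := fun s hs => (hS s).1 hs
  -- not roots of unity
  have hαr : ∀ m, 0 < m → α ^ m = 1 → False := by
    intro m hm h
    apply hinf (b * m) (Nat.mul_pos hb hm)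
    · rw [mul_comm, pow_mul, h, one_pow]
    · have e1 : (α ^ a * β ^ b) ^ m = 1 := by rw [hrel, one_pow]
      rw [mul_pow, ← pow_mul, ← pow_mul, mul_comm a m, pow_mul, h, one_pow, one_mul] at e1
      exact e1
  have hβr : ∀ m, 0 < m → β ^ m = 1 → False := by
    intro m hm h
    apply hinf (a * m) (Nat.mul_pos ha hm)
    · have e1 : (α ^ a * β ^ b) ^ m = 1 := by rw [hrel, one_pow]
      rw [mul_pow, ← pow_mul, ← pow_mul, mul_comm b m, pow_mul β, h, one_pow, mul_one] at e1
      exact e1
    · rw [mul_comm, pow_mul, h, one_pow]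
  have hinjα : ∀ m n, α ^ m = α ^ n → m = n := by
    intro m n h
    by_contra hne
    rcases Nat.lt_or_gt_of_ne hne with h2 | h2
    · obtain ⟨d, rfl⟩ := Nat.exists_eq_add_of_lt h2
      apply hαr (d + 1) (by omega)
      have : α ^ m * 1 = α ^ m * α ^ (d + 1) := by rw [mul_one, ← pow_add, h]; rfl
      exact (mul_left_cancel₀ (pow_ne_zero _ hα) this).symm
    · obtain ⟨d, rfl⟩ := Nat.exists_eq_add_of_lt h2
      apply hαr (d + 1) (by omega)
      have : α ^ n * α ^ (d + 1) = α ^ n * 1 := by rw [mul_one, ← pow_add, ← h]; rfl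
      exact mul_left_cancel₀ (pow_ne_zero _ hα) this
  obtain ⟨⟨f, hf, hf1, hf2, hf0⟩, ⟨g, hg, hg1, hg2, hg0⟩⟩ := exists_normal (F := F) hJ
  have hev0 : ev α β (Finsupp.single 0 1) = α := by simp [ev]
  have hev1 : ev α β (Finsupp.single 1 1) = β := by simp [ev]
  set f' := cmp α β α f with hf'
  set g' := cmp α β β g with hg'
  have hf'S : f' ∈ SS F := cmp_mem hφ h0 h1 α hf
  have hg'S : g' ∈ SS F := cmp_mem hφ h0 h1 β hg
  have hf'1 : coeff (Finsupp.single 0 1) f' = 1 := by
    rw [hf', coeff_cmp, hev0, if_pos rfl, hf1]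
  have hg'1 : coeff (Finsupp.single 1 1) g' = 1 := by
    rw [hg', coeff_cmp, hev1, if_pos rfl, hg2]
  -- supports
  have key : ∀ i j : ℕ, α ^ i * β ^ j = α → b * i = b + a * j := by
    intro i j h
    apply hinjα
    have e1 : (α ^ i * β ^ j) ^ b * α ^ (a * j) = α ^ b * α ^ (a * j) := by rw [h]
    have e2 : (α ^ i * β ^ j) ^ b * α ^ (a * j) = α ^ (b * i) * (α ^ a * β ^ b) ^ j := by
      rw [mul_pow, mul_pow, ← pow_mul, ← pow_mul, ← pow_mul, ← pow_mul, mul_comm i b, mul_comm j b]
      ring
    rw [e2, hrel, one_pow, mul_one] at e1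
    rw [e1, pow_add]
  have key' : ∀ i j : ℕ, α ^ i * β ^ j = β → b * i + a = a * j := by
    intro i j h
    apply hinjα
    have e1 : (α ^ i * β ^ j) ^ b * α ^ (a * j) * α ^ a = β ^ b * α ^ (a * j) * α ^ a := by rw [h]
    have e2 : (α ^ i * β ^ j) ^ b * α ^ (a * j) * α ^ a =
        α ^ (b * i) * (α ^ a * β ^ b) ^ j * α ^ a := by
      rw [mul_pow, mul_pow, ← pow_mul, ← pow_mul, ← pow_mul, ← pow_mul, mul_comm i b, mul_comm j b]
      ring
    have e3 : β ^ b * α ^ (a * j) * α ^ a = (α ^ a * β ^ b) * α ^ (a * j) := by ring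
    rw [e2, e3, hrel, one_pow, mul_one, one_mul] at e1
    rw [pow_add, e1]
  have hfs : ∀ t, coeff t f' ≠ 0 → b * t 0 = b + a * t 1 := fun t ht => key _ _ (ev_cmp ht)
  have hgs : ∀ t, coeff t g' ≠ 0 → b * t 0 + a = a * t 1 := fun t ht => key' _ _ (ev_cmp ht)
  obtain ⟨u, hu⟩ : X 0 ∣ f' := by
    apply X_dvd_of_support
    intro t ht h
    have := hfs t ht
    rw [h] at this
    omega
  obtain ⟨v, hv⟩ : X 1 ∣ g' := by
    apply X_dvd_of_support
    intro t ht h
    have := hgs t ht
    rw [h] at this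
    omega
  obtain ⟨A, hA⟩ : ∃ A : Polynomial k, u = pt a b A := by
    apply exists_pt a b hco
    intro t ht
    have h2 : coeff (Finsupp.single 0 1 + t) f' ≠ 0 := by
      rw [hu, coeff_X_mul]; exact ht
    have h3 := hfs _ h2
    simp at h3
    have : b * (1 + t 0) = b + b * t 0 := by ring
    omega
  obtain ⟨B, hB⟩ : ∃ B : Polynomial k, v = pt a b B := by
    apply exists_pt a b hco
    intro t ht
    have h2 : coeff (Finsupp.single 1 1 + t) g' ≠ 0 := by
      rw [hv, coeff_X_mul]; exact ht
    have h3 := hgs _ h2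
    simp at h3
    have : a * (1 + t 1) = a + a * t 1 := by ring
    omega
  have hab : 0 < a + b := by omega
  have hA0 : A.coeff 0 = 1 := by
    have h2 : coeff (Finsupp.single 0 1 + 0) f' = 1 := by rw [add_zero]; exact hf'1
    rw [hu, coeff_X_mul, hA] at h2
    rw [← coeff_pt a b hab A 0]
    simpa using h2
  have hB0 : B.coeff 0 = 1 := by
    have h2 : coeff (Finsupp.single 1 1 + 0) g' = 1 := by rw [add_zero]; exact hg'1
    rw [hv, coeff_X_mul, hB] at h2
    rw [← coeff_pt a b hab B 0]
    simpa using h2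
  have hHS : pt a b (Polynomial.X * (A ^ a * B ^ b)) ∈ SS F := by
    have h2 : pt a b (Polynomial.X * (A ^ a * B ^ b)) = f' ^ a * g' ^ b := by
      rw [hu, hv, hA, hB]
      simp only [pt, map_mul, map_pow, Polynomial.aeval_X]
      ring
    rw [h2]
    exact mul_mem (pow_mem hf'S a) (pow_mem hg'S b)
  have hHd : 0 < (Polynomial.X * (A ^ a * B ^ b)).natDegree := by
    rw [Polynomial.natDegree_X_mul]
    · omega
    · intro h2
      have h3 := congrArg (fun P => Polynomial.coeff P 0) h2
      simp only [Polynomial.coeff_zero_eq_eval_zero, Polynomial.eval_pow,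
        Polynomial.eval_mul, Polynomial.eval_zero] at h3
      rw [← Polynomial.coeff_zero_eq_eval_zero, ← Polynomial.coeff_zero_eq_eval_zero, hA0, hB0] at h3
      simp at h3
  obtain ⟨n, hn, hn2⟩ := pow_mem_of_pt F hJ a b hco ⟨_, hHd, hHS⟩
  obtain ⟨i', j', hi1, hj1, hij, -, -, hmem⟩ := mono_case F hJ (a * n) (b * n)
    (by have := Nat.mul_pos ha hn; omega) hn2
  have hcase : (i' = 1 ∧ j' = 0) ∨ (i' = 0 ∧ j' = 1) ∨ (i' = 1 ∧ j' = 1) := by omega
  rcases hcase with ⟨rfl, rfl⟩ | ⟨rfl, rfl⟩ | ⟨rfl, rfl⟩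
  · apply top_of_X0 F hJ; simpa using hmem
  · apply top_of_X1 F hJ; simpa using hmem
  · have hxy : (X 0 * X 1 : MvPolynomial (Fin 2) k) ∈ SS F := by simpa using hmem
    have hxy0 : ∀ m, ((X 0 * X 1) ^ m : MvPolynomial (Fin 2) k) ≠ 0 := fun m =>
      pow_ne_zero _ (mul_ne_zero (X_ne_zero 0) (X_ne_zero 1))
    have hfrac : ∀ s r : MvPolynomial (Fin 2) k, s ∈ SS F → s ≠ 0 → s * r ∈ SS F → r ∈ SS F := by
      rintro s r ⟨s', hs'⟩ hs0 ⟨r', hr'⟩
      apply mem_range_of_mul F hJ r' s' r
      · rintro rfl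
        apply hs0; rw [← hs']; simp
      · change aeval F s' = s at hs'
        change aeval F r' = s * r at hr'
        rw [hs', hr']
    rcases lt_trichotomy a b with hlt | heq | hgt
    · -- y power
      have h2 : (X 1 ^ ((b - a) * n) : MvPolynomial (Fin 2) k) ∈ SS F := by
        apply hfrac ((X 0 * X 1) ^ (a * n)) _ (pow_mem hxy _) (hxy0 _)
        have : ((X 0 * X 1) ^ (a * n) * X 1 ^ ((b - a) * n) : MvPolynomial (Fin 2) k) =
            X 0 ^ (a * n) * X 1 ^ (b * n) := by
          rw [mul_pow, mul_assoc, ← pow_add]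
          congr 2
          rw [← add_mul]
          congr 1
          omega
        rw [this]; exact hn2
      apply top_of_uy F hJ
      refine ⟨Polynomial.X ^ ((b - a) * n), ?_, ?_⟩
      · rw [Polynomial.natDegree_X_pow]
        exact Nat.mul_pos (by omega) hn
      · simpa [uy] using h2
    · -- a = b = 1
      subst heq
      have ha1 : a = 1 := by simpa using hco
      subst ha1
      have h2 : pt 1 1 A ∈ SS F := by
        rw [pt]
        have h3 : Algebra.adjoin k {(X 0 ^ 1 * X 1 ^ 1 : MvPolynomial (Fin 2) k)} ≤ SS F :=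
          Algebra.adjoin_le (by simpa using hxy)
        apply h3
        rw [Algebra.adjoin_singleton_eq_range_aeval]
        exact ⟨A, rfl⟩
      apply top_of_X0 F hJ
      apply hfrac (pt 1 1 A) _ h2
      · intro h3
        have h4 := coeff_pt 1 1 (by norm_num) A 0
        rw [h3, hA0, coeff_zero] at h4
        exact zero_ne_one h4
      · rw [mul_comm, ← hA, ← hu]; exact hf'S
    · have h2 : (X 0 ^ ((a - b) * n) : MvPolynomial (Fin 2) k) ∈ SS F := by
        apply hfrac ((X 0 * X 1) ^ (b * n)) _ (pow_mem hxy _) (hxy0 _)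
        have : ((X 0 * X 1) ^ (b * n) * X 0 ^ ((a - b) * n) : MvPolynomial (Fin 2) k) =
            X 0 ^ (a * n) * X 1 ^ (b * n) := by
          have e1 : a * n = b * n + (a - b) * n := by
            rw [← add_mul]; congr 1; omega
          rw [mul_pow, e1, pow_add]; ring
        rw [this]; exact hn2
      apply top_of_ux F hJ
      refine ⟨Polynomial.X ^ ((a - b) * n), ?_, ?_⟩
      · rw [Polynomial.natDegree_X_pow]
        exact Nat.mul_pos (by omega) hn
      · simpa [ux] using h2

theorem diag_case (hJ : IsUnit (Matrix.det (jac F))) {φ : GA k} (hS : Stab F φ) {α β : k}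
    (h0 : φ (X 0) = C α * X 0) (h1 : φ (X 1) = C β * X 1) (hinf : ∀ n, 0 < n → φ ^ n ≠ 1) :
    SS F = ⊤ := by
  have hφ : ∀ s ∈ SS F, φ s ∈ SS F := fun s hs => (hS s).1 hs
  have hα : α ≠ 0 := semi_ne_zero h0 (X_ne_zero 0)
  have hβ : β ≠ 0 := semi_ne_zero h1 (X_ne_zero 1)
  have hinf' : ∀ n, 0 < n → α ^ n = 1 → β ^ n = 1 → False := by
    intro n hn ha hb
    apply hinf n hn
    obtain ⟨e0, e1⟩ := pow_diag h0 h1 n
    apply ga_ext
    · rw [e0, ha]; simp
    · rw [e1, hb]; simp
  obtain ⟨⟨f, hf, hf1, hf2, hf0⟩, ⟨g, hg, hg1, hg2, hg0⟩⟩ := exists_normal (F := F) hJ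
  have hev0 : ev α β (Finsupp.single 0 1) = α := by simp [ev]
  have hev1 : ev α β (Finsupp.single 1 1) = β := by simp [ev]
  set f' := cmp α β α f with hf'
  set g' := cmp α β β g with hg'
  have hf'S : f' ∈ SS F := cmp_mem hφ h0 h1 α hf
  have hg'S : g' ∈ SS F := cmp_mem hφ h0 h1 β hg
  have hf'1 : coeff (Finsupp.single 0 1) f' = 1 := by
    rw [hf', coeff_cmp, hev0, if_pos rfl, hf1]
  have hg'1 : coeff (Finsupp.single 1 1) g' = 1 := by
    rw [hg', coeff_cmp, hev1, if_pos rfl, hg2]
  by_cases hA : ∀ t, coeff t f' ≠ 0 → t 0 ≠ 0 → t = Finsupp.single 0 1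
  · -- f' is a coordinate
    have h2 : pderiv 0 (f' - X 0) = 0 := by
      ext t
      rw [coeff_pderiv, coeff_zero, coeff_sub]
      by_cases ht : t + Finsupp.single 0 1 = Finsupp.single 0 1
      · rw [ht, hf'1]
        have : coeff (Finsupp.single 0 1) (X 0 : MvPolynomial (Fin 2) k) = 1 := by simp
        rw [this]; simp
      · have e1 : coeff (t + Finsupp.single 0 1) f' = 0 := by
          by_contra hne
          apply ht
          apply hA _ hne
          simp
        have e2 : coeff (t + Finsupp.single 0 1) (X 0 : MvPolynomial (Fin 2) k) = 0 := by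
          rw [coeff_X, if_neg (fun h => ht h.symm)]
        rw [e1, e2]; simp
    obtain ⟨Q, hQ⟩ := exists_uy h2
    set θ := elemX Q with hθ
    have hθ0 : θ (X 0) = f' := by rw [hθ, elemX_X0, ← hQ]; ring
    apply SS_top_comp F θ⁻¹
    apply top_of_X0 _ (jac_comp θ⁻¹ F hJ)
    have : (X 0 : MvPolynomial (Fin 2) k) = θ⁻¹ f' := by rw [← hθ0, inv_apply_self']
    rw [this, mem_SS_comp]
    exact hf'S
  · by_cases hB : ∀ t, coeff t g' ≠ 0 → t 1 ≠ 0 → t = Finsupp.single 1 1
    · have h2 : pderiv 1 (g' - X 1) = 0 := by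
        ext t
        rw [coeff_pderiv, coeff_zero, coeff_sub]
        by_cases ht : t + Finsupp.single 1 1 = Finsupp.single 1 1
        · rw [ht, hg'1]
          have : coeff (Finsupp.single 1 1) (X 1 : MvPolynomial (Fin 2) k) = 1 := by simp
          rw [this]; simp
        · have e1 : coeff (t + Finsupp.single 1 1) g' = 0 := by
            by_contra hne
            apply ht
            apply hB _ hne
            simp
          have e2 : coeff (t + Finsupp.single 1 1) (X 1 : MvPolynomial (Fin 2) k) = 0 := by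
            rw [coeff_X, if_neg (fun h => ht h.symm)]
          rw [e1, e2]; simp
      obtain ⟨Q, hQ⟩ := exists_ux h2
      set θ := elemY Q with hθ
      have hθ0 : θ (X 1) = g' := by rw [hθ, elemY_X1, ← hQ]; ring
      apply SS_top_comp F θ⁻¹
      apply top_of_X1 _ (jac_comp θ⁻¹ F hJ)
      have : (X 1 : MvPolynomial (Fin 2) k) = θ⁻¹ g' := by rw [← hθ0, inv_apply_self']
      rw [this, mem_SS_comp]
      exact hg'S
    · push Not at hA
      obtain ⟨t, ht1, ht2, ht3⟩ := hA
      have hrel0 : α ^ (t 0 - 1) * β ^ (t 1) = 1 := by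
        have h2 : α ^ t 0 * β ^ t 1 = α := ev_cmp ht1
        have h3 : α ^ t 0 = α * α ^ (t 0 - 1) := by
          rw [← pow_succ']; congr 1; omega
        rw [h3, mul_assoc] at h2
        exact mul_left_cancel₀ hα (by rw [h2, mul_one])
      have hne0 : ¬ (t 0 - 1 = 0 ∧ t 1 = 0) := by
        rintro ⟨e1, e2⟩
        apply ht3
        ext i
        fin_cases i
        · simp; omega
        · simp [e2]
      set p := t 0 - 1 with hp
      set q := t 1 with hq
      rcases Nat.eq_zero_or_pos p with hp0 | hp0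
      · -- β is a root of unity
        rw [hp0, pow_zero, one_mul] at hrel0
        have hq0 : 0 < q := by omega
        have hsupp : ∀ s, coeff s g' ≠ 0 → s 0 = 0 := by
          intro s hs
          by_contra hs0
          have h2 : α ^ s 0 * β ^ s 1 = β := ev_cmp hs
          have h3 := congrArg (· ^ q) h2
          simp only [mul_pow, ← pow_mul] at h3
          rw [mul_comm (s 1), pow_mul β, hrel0, one_pow, mul_one] at h3
          apply hinf' (s 0 * q) (Nat.mul_pos (Nat.pos_of_ne_zero hs0) hq0) h3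
          rw [mul_comm, pow_mul, hrel0, one_pow]
        have h2 : pderiv 0 g' = 0 := by
          ext s
          rw [coeff_pderiv, coeff_zero]
          by_cases hs : coeff (s + Finsupp.single 0 1) g' = 0
          · rw [hs, zero_mul]
          · have := hsupp _ hs
            simp at this
        obtain ⟨Q, hQ⟩ := exists_uy h2
        apply top_of_uy F hJ
        refine ⟨Q, ?_, hQ ▸ hg'S⟩
        apply natDegree_pos_of_uy (c := g') _ hQ
        intro a ha
        rw [ha, coeff_C, if_neg (by
          intro h; have := DFunLike.congr_fun h 1; simp at this)] at hg'1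
        exact zero_ne_one hg'1
      · rcases Nat.eq_zero_or_pos q with hq0 | hq0
        · rw [hq0, pow_zero, mul_one] at hrel0
          have hsupp : ∀ s, coeff s f' ≠ 0 → s 1 = 0 := by
            intro s hs
            by_contra hs0
            have h2 : α ^ s 0 * β ^ s 1 = α := ev_cmp hs
            have h3 := congrArg (· ^ p) h2
            simp only [mul_pow, ← pow_mul] at h3
            rw [mul_comm (s 0), pow_mul α, hrel0, one_pow, one_mul] at h3
            apply hinf' (s 1 * p) (Nat.mul_pos (Nat.pos_of_ne_zero hs0) hp0)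
            · rw [mul_comm, pow_mul, hrel0, one_pow]
            · exact h3
          have h2 : pderiv 1 f' = 0 := by
            ext s
            rw [coeff_pderiv, coeff_zero]
            by_cases hs : coeff (s + Finsupp.single 1 1) f' = 0
            · rw [hs, zero_mul]
            · have := hsupp _ hs
              simp at this
          obtain ⟨Q, hQ⟩ := exists_ux h2
          apply top_of_ux F hJ
          refine ⟨Q, ?_, hQ ▸ hf'S⟩
          apply natDegree_pos_of_ux (c := f') _ hQ
          intro a ha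
          rw [ha, coeff_C, if_neg (by
            intro h; have := DFunLike.congr_fun h 0; simp at this)] at hf'1
          exact zero_ne_one hf'1
        · -- both positive
          set e := Nat.gcd p q with he
          have hepos : 0 < e := Nat.gcd_pos_of_pos_left _ hp0
          obtain ⟨a, ha⟩ : e ∣ p := Nat.gcd_dvd_left p q
          obtain ⟨b, hb⟩ : e ∣ q := Nat.gcd_dvd_right p q
          have hapos : 0 < a := Nat.pos_of_ne_zero (by rintro rfl; omega)
          have hbpos : 0 < b := Nat.pos_of_ne_zero (by rintro rfl; omega)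
          have hco : Nat.Coprime a b := by
            have h := Nat.coprime_div_gcd_div_gcd (m := p) (n := q) hepos
            rw [← he] at h
            rwa [Nat.div_eq_of_eq_mul_right hepos ha, Nat.div_eq_of_eq_mul_right hepos hb] at h
          obtain ⟨e0, e1⟩ := pow_diag h0 h1 e
          apply diag_both hJ (hS.pow e) e0 e1 (pow_ne_zero _ hα) (pow_ne_zero _ hβ) ?_ a b hapos hbpos hco
          · rw [← pow_mul, ← pow_mul, ← ha, ← hb]; exact hrel0
          · intro n hn hh1 hh2
            rw [← pow_mul] at hh1 hh2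
            exact hinf' (e * n) (Nat.mul_pos hepos hn) hh1 hh2

end DiagThm

end Pool.Agent.H922R2
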