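import Mathlib
import Pool.Agent.H922R2.K21
import Pool.Agent.H922R2.K16
import Pool.Agent.H922R2.K14

set_option autoImplicit false
set_option linter.unusedSectionVars false
set_option linter.style.haveILetI false

open MvPolynomial

namespace Pool.Agent.H922R2

section Assembly

variable {k : Type*} [Field k] [CharZero k] [IsAlgClosed k]

omit [IsAlgClosed k] in
theorem inf_conj {φ : GA k} (h : ∀ n, 0 < n → φ ^ n ≠ 1) (θ : GA k) :
    ∀ n, 0 < n → (θ⁻¹ * φ * θ) ^ n ≠ 1 := by
  intro n hn h1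
  apply h n hn
  have e1 : (θ⁻¹ * φ * θ) ^ n = θ⁻¹ * φ ^ n * θ := by
    have := conj_pow (i := n) (a := θ⁻¹) (b := φ)
    rwa [inv_inv] at this
  rw [e1] at h1
  have : φ ^ n = θ * (θ⁻¹ * φ ^ n * θ) * θ⁻¹ := by group
  rw [this, h1]; group

theorem caseII {F : Fin 2 → MvPolynomial (Fin 2) k} (hJ : IsUnit (Matrix.det (jac F))) {φ : GA k}
    (hS : Stab F φ) (hinf : ∀ n, 0 < n → φ ^ n ≠ 1)
    {α β : k} {P : Polynomial k} (hα : α ≠ 0) (h0 : φ (X 0) = C α * X 0 + uy P)
    (h1 : φ (X 1) = C β * X 1) : SS F = ⊤ := by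
  classical
  set q : ℕ → k := fun j => if β ^ j = α then 0 else P.coeff j / (α - β ^ j) with hq
  set Q : Polynomial k := ∑ j ∈ Finset.range (P.natDegree + 1), Polynomial.C (q j) * Polynomial.X ^ j
    with hQ
  have hQc : ∀ j, Q.coeff j = q j := by
    intro j
    rw [hQ, Polynomial.finsetSum_coeff]
    simp only [Polynomial.coeff_C_mul, Polynomial.coeff_X_pow]
    by_cases hj : j ∈ Finset.range (P.natDegree + 1)
    · simp only [mul_ite, mul_one, mul_zero, Finset.sum_ite_eq, if_pos hj]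
    · simp only [mul_ite, mul_one, mul_zero, Finset.sum_ite_eq, if_neg hj]
      rw [hq]
      simp only
      rw [Polynomial.coeff_eq_zero_of_natDegree_lt (by simpa using hj)]
      simp
  set θ := elemX Q with hθ
  have hθ0 : θ (X 0) = X 0 + uy Q := elemX_X0 Q
  have hθ1 : θ (X 1) = X 1 := elemX_X1 Q
  have hθi1 : θ⁻¹ (X 1) = X 1 := by
    conv_lhs => rw [← hθ1]
    rw [inv_apply_self']
  have huyθ : ∀ P : Polynomial k, θ⁻¹ (uy P) = uy P := by
    intro P
    rw [gmap_uy, hθi1]; rfl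
  have hθi0 : θ⁻¹ (X 0) = X 0 - uy Q := by
    have : θ (X 0 - uy Q) = X 0 := by
      rw [map_sub, hθ0, gmap_uy, hθ1]
      simp [uy]
    rw [← this, inv_apply_self', this]
  set P' := P + Q.comp (Polynomial.C β * Polynomial.X) - Polynomial.C α * Q with hP'
  have hφu : ∀ P : Polynomial k, φ (uy P) = uy (P.comp (Polynomial.C β * Polynomial.X)) := by
    intro P
    rw [gmap_uy, h1, uy, Polynomial.aeval_comp]
    simp [algebraMap_eq]
  have h0' : (θ⁻¹ * φ * θ) (X 0) = C α * X 0 + uy P' := by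
    change θ⁻¹ (φ (θ (X 0))) = _
    rw [hθ0, map_add, h0, hφu, map_add, map_add, map_mul, ga_C, hθi0, huyθ, huyθ, hP']
    have : ∀ P Q : Polynomial k, uy (P - Q) = uy P - uy Q := by intro P Q; simp [uy]
    rw [this, uy_add, uy_mul, uy_C]
    ring
  have h1' : (θ⁻¹ * φ * θ) (X 1) = C β * X 1 := by
    change θ⁻¹ (φ (θ (X 1))) = _
    rw [hθ1, h1, map_mul, ga_C, hθi1]
  have hP'c : ∀ j, P'.coeff j ≠ 0 → β ^ j = α := by
    intro j hj
    by_contra hne
    apply hj
    rw [hP', Polynomial.coeff_sub, Polynomial.coeff_add, Polynomial.comp_C_mul_X_coeff,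
      Polynomial.coeff_C_mul, hQc, hq]
    simp only
    rw [if_neg hne]
    have h2 : α - β ^ j ≠ 0 := sub_ne_zero.2 (fun h => hne h.symm)
    field_simp
    ring
  apply SS_top_comp F θ⁻¹
  have hS' := hS.conj θ
  have hJ' := jac_comp θ⁻¹ F hJ
  by_cases hP0 : P' = 0
  · apply diag_case hJ' hS' (α := α) (β := β) ?_ h1' (inf_conj hinf θ)
    rw [h0', hP0]; simp [uy]
  · rcases exists_semiinv _ hJ' (θ⁻¹ * φ * θ) hS' with h | ⟨c, hcS, hc, l, _, hl⟩
    · exact h
    · exact caseIIa hJ' hα hP0 h0' h1' hP'c hcS hc hl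

theorem tri_case {F : Fin 2 → MvPolynomial (Fin 2) k} (hJ : IsUnit (Matrix.det (jac F))) {φ : GA k}
    (hS : Stab F φ) (hinf : ∀ n, 0 < n → φ ^ n ≠ 1) (hE : φ ∈ EG k) : SS F = ⊤ := by
  obtain ⟨α, β, γ, P, hα, hβ, h0, h1⟩ := EG_forms hE
  by_cases hβ1 : β = 1
  · subst hβ1
    by_cases hγ : γ = 0
    · subst hγ
      exact caseII hJ hS hinf hα h0 (β := 1) (by rw [h1]; simp)
    · rcases exists_semiinv F hJ φ hS with h | ⟨c, hcS, hc, l, _, hl⟩
      · exact h
      · exact caseI hJ hα hγ h0 (by rw [h1]; simp) hcS hc hl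
  · set g := γ / (β - 1) with hg
    have hβ1' : β - 1 ≠ 0 := sub_ne_zero.2 hβ1
    set θ := elemY (Polynomial.C g) with hθ
    have hθ0 : θ (X 0) = X 0 := elemY_X0 _
    have hθ1 : θ (X 1) = X 1 + C g := by rw [hθ, elemY_X1, ux_C]
    have hθi0 : θ⁻¹ (X 0) = X 0 := by
      conv_lhs => rw [← hθ0]
      rw [inv_apply_self']
    have hθi1 : θ⁻¹ (X 1) = X 1 - C g := by
      have : θ (X 1 - C g) = X 1 := by
        rw [map_sub, hθ1, ga_C]; ring
      rw [← this, inv_apply_self', this]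
    apply SS_top_comp F θ⁻¹
    apply caseII (jac_comp θ⁻¹ F hJ) (hS.conj θ) (inf_conj hinf θ) hα (β := β)
      (P := P.comp (Polynomial.X - Polynomial.C g))
    · change θ⁻¹ (φ (θ (X 0))) = _
      rw [hθ0, h0, map_add, map_mul, ga_C, hθi0, gmap_uy, hθi1]
      congr 1
      rw [uy, Polynomial.aeval_comp]
      simp [algebraMap_eq]
    · change θ⁻¹ (φ (θ (X 1))) = _
      rw [hθ1, map_add, h1, ga_C, map_add, map_add, map_mul, ga_C, ga_C, ga_C, hθi1]
      have : (C γ : MvPolynomial (Fin 2) k) = C (g * (β - 1)) := by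
        rw [hg, div_mul_cancel₀ _ hβ1']
      rw [this, C_mul, C_sub, C_1]
      ring

omit [CharZero k] in
theorem affine_conj {φ : GA k} (hA : φ ∈ AG k) : ∃ τ : GA k, τ⁻¹ * φ * τ ∈ EG k := by
  obtain ⟨a, b, e, h0⟩ := mem_Wsub.1 (AG_forms hA).1
  obtain ⟨c, d, f, h1⟩ := mem_Wsub.1 (AG_forms hA).2
  have hX1 : ∀ (θ : GA k) (r : k), θ (X 1) ≠ C r := by
    intro θ r h
    have h2 : θ (X 1) = θ (C r) := by rw [h]; exact (θ.commutes r).symm
    have h3 := congrArg totalDegree (θ.injective h2)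
    rw [totalDegree_X, totalDegree_C] at h3
    omega
  by_cases hc : c = 0
  · refine ⟨1, ?_⟩
    rw [inv_one, one_mul, mul_one]
    rw [hc, C_0, zero_mul, zero_add] at h1
    apply mem_EG_of (b := d) (c := f) _ h1
    rintro rfl
    rw [C_0, zero_mul, zero_add] at h1
    exact hX1 _ _ h1
  · obtain ⟨m, hm⟩ : ∃ m : k, (m - a) * (m - d) = b * c := by
      obtain ⟨m, hm⟩ := IsAlgClosed.exists_root
        ((Polynomial.X - Polynomial.C a) * (Polynomial.X - Polynomial.C d) - Polynomial.C (b * c)) (by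
          have h2 : ((Polynomial.X - Polynomial.C a) * (Polynomial.X - Polynomial.C d)).natDegree = 2 := by
            rw [Polynomial.natDegree_mul (Polynomial.X_sub_C_ne_zero a) (Polynomial.X_sub_C_ne_zero d),
              Polynomial.natDegree_X_sub_C, Polynomial.natDegree_X_sub_C]
          have h3 : ((Polynomial.X - Polynomial.C a) * (Polynomial.X - Polynomial.C d) -
              Polynomial.C (b * c)).natDegree = 2 := by
            rw [Polynomial.natDegree_sub_C, h2]
          intro h4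
          have h5 := Polynomial.natDegree_eq_zero_iff_degree_le_zero.2 h4.le
          omega)
      refine ⟨m, ?_⟩
      rw [Polynomial.IsRoot] at hm
      simp at hm
      linear_combination hm
    have hcc : (C c * C c⁻¹ : MvPolynomial (Fin 2) k) = 1 := by
      rw [← C_mul, mul_inv_cancel₀ hc, C_1]
    set τ : GA k := mkGA (X 1) (C c * X 0 + C (m - a) * X 1)
      (C c⁻¹ * (X 1 - C (m - a) * X 0)) (X 0)
      (by
        simp only [map_mul, map_sub, aeval_X, aeval_C, algebraMap_eq, Matrix.cons_val_zero,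
          Matrix.cons_val_one]
        linear_combination X 0 * hcc)
      (by simp)
      (by simp)
      (by
        simp only [map_mul, map_add, aeval_X, aeval_C, algebraMap_eq, Matrix.cons_val_zero,
          Matrix.cons_val_one]
        linear_combination (X 1 - C (m - a) * X 0) * hcc) with hτ
    have hτ1 : τ (X 1) = C c * X 0 + C (m - a) * X 1 := mkGA_X1 _ _ _ _ _ _ _ _
    refine ⟨τ, ?_⟩
    have hC : ∀ (θ : GA k) (c : k), θ (C c) = C c := fun θ c => θ.commutes c
    have key : (τ⁻¹ * φ * τ) (X 1) = C m * X 1 + C (c * e + (m - a) * f) := by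
      change τ⁻¹ (φ (τ (X 1))) = _
      have h2 : φ (τ (X 1)) = C m * τ (X 1) + C (c * e + (m - a) * f) := by
        rw [hτ1, map_add, map_mul, map_mul, hC, hC, h0, h1]
        have h3 : (C ((m - a) * (m - d)) : MvPolynomial (Fin 2) k) = C (b * c) := by rw [hm]
        simp only [C_mul, C_sub, C_add] at h3 ⊢
        linear_combination - X 1 * h3
      rw [h2, map_add, map_mul, hC, hC]
      congr 2
      exact AlgEquiv.symm_apply_apply τ (X 1)
    apply mem_EG_of _ key
    rintro rfl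
    rw [C_0, zero_mul, zero_add] at key
    exact hX1 _ _ key

/-- Main theorem over an algebraically closed field. -/
theorem main_closed {F : Fin 2 → MvPolynomial (Fin 2) k} (hJ : IsUnit (Matrix.det (jac F))) {φ : GA k}
    (hS : Stab F φ) (hinf : ∀ n, 0 < n → φ ^ n ≠ 1) : SS F = ⊤ := by
  obtain ⟨g, hg⟩ := cycGoal (AG k) (EG k) jvdk φ
  apply SS_top_comp F g⁻¹
  have hS' := hS.conj g
  have hJ' := jac_comp g⁻¹ F hJ
  have hinf' := inf_conj hinf g
  rcases hg with hA | hE | ⟨L, hL, hL1, hL2⟩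
  · obtain ⟨τ, hτ⟩ := affine_conj hA
    apply SS_top_comp _ τ⁻¹
    exact tri_case (jac_comp τ⁻¹ _ hJ') (hS'.conj τ) (inf_conj hinf' τ) hτ
  · exact tri_case hJ' hS' hinf' hE
  · rcases exists_semiinv _ hJ' (g⁻¹ * φ * g) hS' with h | ⟨c, _, hc, l, _, hl⟩
    · exact h
    · exfalso
      obtain ⟨D, hD, hD1, hD2⟩ := St_list L hL hL1
      rw [← hL2] at hD1 hD2
      exact no_semiinv hD (fun n => St_pow hD hD1 hD2 n) hc hl

end Assembly

end Pool.Agent.H922R2
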