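import Mathlib
import Pool.Agent.H922R2.K6

set_option autoImplicit false
set_option linter.unusedSectionVars false
set_option linter.style.haveILetI false

open MvPolynomial

namespace Pool.Agent.H922R2

section

variable {k : Type*} [Field k] [CharZero k] {σ : Type*} [Fintype σ] [DecidableEq σ]
variable (K : Type*) [Field K] [Algebra (MvPolynomial σ k) K] [IsFractionRing (MvPolynomial σ k) K]
  [Algebra k K] [IsScalarTower k (MvPolynomial σ k) K]
variable (F : σ → MvPolynomial σ k)

/-- The field `k(F)` inside `K = k(X)`. -/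
noncomputable def fF : IntermediateField k K :=
  IntermediateField.adjoin k (Set.range fun i => algebraMap (MvPolynomial σ k) K (F i))

/-- The substitution map followed by the inclusion in `K`. -/
noncomputable def iK : MvPolynomial σ k →+* K :=
  (algebraMap (MvPolynomial σ k) K).comp (aeval F : MvPolynomial σ k →ₐ[k] MvPolynomial σ k).toRingHom

theorem iK_apply (p : MvPolynomial σ k) : iK K F p = algebraMap (MvPolynomial σ k) K (aeval F p) := rfl

theorem mem_fF_iff (x : K) : x ∈ fF K F ↔ ∃ a b : MvPolynomial σ k, x = iK K F a / iK K F b := by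
  have h : ∀ p : MvPolynomial σ k,
      aeval (fun i => algebraMap (MvPolynomial σ k) K (F i)) p = iK K F p := by
    intro p
    rw [iK_apply, ← aeval_algebraMap_apply]
    rfl
  unfold fF
  rw [IntermediateField.mem_adjoin_range_iff]
  simp only [h]

theorem iK_mem (p : MvPolynomial σ k) : iK K F p ∈ fF K F := by
  rw [mem_fF_iff]
  exact ⟨p, 1, by simp⟩

theorem iK_injective (hJ : IsUnit (Matrix.det (jac F))) : Function.Injective (iK K F) := by
  intro p q h
  exact aeval_injective F hJ (IsFractionRing.injective (MvPolynomial σ k) K h)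

/-- elements of `k(F) ∩ k[X]` lie in `k[F]` -/
theorem mem_SS_of_mem_fF (hJ : IsUnit (Matrix.det (jac F))) (r : MvPolynomial σ k)
    (h : algebraMap (MvPolynomial σ k) K r ∈ fF K F) : r ∈ SS F := by
  obtain ⟨a, b, hab⟩ := (mem_fF_iff K F _).1 h
  by_cases hb : b = 0
  · subst hb
    rw [map_zero, div_zero] at hab
    have : r = 0 := IsFractionRing.injective (MvPolynomial σ k) K (by rw [hab, map_zero])
    rw [this]; exact zero_mem _
  · apply mem_range_of_mul F hJ a b r hb
    apply IsFractionRing.injective (MvPolynomial σ k) K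
    have hb' : iK K F b ≠ 0 := by
      rw [Ne, map_eq_zero_iff _ (iK_injective K F hJ)]; exact hb
    rw [map_mul, hab, ← iK_apply, ← iK_apply, mul_div_cancel₀ _ hb']

/-- algebraic over the fraction field implies algebraic over the ring -/
theorem alg_down (y : K) (h : IsAlgebraic (fF K F) y) : IsAlgebraic (SS F) y := by
  letI : Algebra (SS F) (fF K F) := RingHom.toAlgebra
    (((algebraMap (MvPolynomial σ k) K).comp (SS F).val.toRingHom).codRestrict (fF K F) (by
      rintro ⟨_, p, rfl⟩
      exact iK_mem K F p))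
  haveI : IsScalarTower (SS F) (fF K F) K := IsScalarTower.of_algebraMap_eq (fun _ => rfl)
  haveI : FaithfulSMul (SS F) (fF K F) := by
    rw [faithfulSMul_iff_algebraMap_injective]
    intro a b hab
    apply Subtype.ext
    apply IsFractionRing.injective (MvPolynomial σ k) K
    exact congrArg Subtype.val hab
  haveI : IsFractionRing (SS F) (fF K F) := by
    apply IsFractionRing.of_field
    rintro ⟨z, hz⟩
    obtain ⟨a, b, hab⟩ := (mem_fF_iff K F z).1 hz
    refine ⟨⟨aeval F a, a, rfl⟩, ⟨aeval F b, b, rfl⟩, ?_⟩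
    apply Subtype.ext
    exact hab
  exact (IsFractionRing.isAlgebraic_iff (SS F) (fF K F) K).2 h

/-- A nonzero multiple of an algebraic element is an integral polynomial. -/
theorem exists_mul_integral (y : K) (h : IsAlgebraic (SS F) y) :
    ∃ s : SS F, s ≠ 0 ∧ ∃ r : MvPolynomial σ k, IsIntegral (SS F) r ∧
      algebraMap (MvPolynomial σ k) K r = algebraMap (MvPolynomial σ k) K s * y := by
  obtain ⟨s, hs, hsi⟩ := h.exists_integral_multiple
  have h1 : IsIntegral (MvPolynomial σ k) (s • y) := hsi.tower_top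
  obtain ⟨r, hr⟩ := IsIntegrallyClosed.isIntegral_iff.1 h1
  refine ⟨s, hs, r, ?_, ?_⟩
  · rw [← hr] at hsi
    exact (isIntegral_algebraMap_iff (IsFractionRing.injective (MvPolynomial σ k) K)).1 hsi
  · rw [hr, Algebra.smul_def]; rfl

theorem exists_of_integral (y : K) (h : IsIntegral (SS F) y) :
    ∃ r : MvPolynomial σ k, algebraMap (MvPolynomial σ k) K r = y ∧ IsIntegral (SS F) r := by
  have h1 : IsIntegral (MvPolynomial σ k) y := h.tower_top
  obtain ⟨r, hr⟩ := IsIntegrallyClosed.isIntegral_iff.1 h1
  refine ⟨r, hr, ?_⟩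
  rw [← hr] at h
  exact (isIntegral_algebraMap_iff (IsFractionRing.injective (MvPolynomial σ k) K)).1 h

/-- A separable relation. -/
theorem exists_sep (hJ : IsUnit (Matrix.det (jac F))) (y : K) (h : IsAlgebraic (SS F) y) :
    ∃ P : Polynomial (MvPolynomial σ k), P.eval₂ (iK K F) y = 0 ∧
      P.derivative.eval₂ (iK K F) y ≠ 0 := by
  obtain ⟨q, hq, hqy⟩ := h
  set P := q.map (eqS F hJ).symm.toRingEquiv.toRingHom with hP
  have hP0 : P ≠ 0 := by
    rw [hP, Ne, Polynomial.map_eq_zero_iff]
    · exact hq
    · exact (eqS F hJ).symm.injective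
  have hPy : P.eval₂ (iK K F) y = 0 := by
    rw [hP, Polynomial.eval₂_map, ← hqy, Polynomial.aeval_def]
    congr 1
    ext s
    change algebraMap (MvPolynomial σ k) K (aeval F ((eqS F hJ).symm s)) = _
    rw [← eqS_coe F hJ, AlgEquiv.apply_symm_apply]
    rfl
  clear_value P
  clear hP
  induction hn : P.natDegree using Nat.strong_induction_on generalizing P with
  | _ n ih =>
    by_cases h1 : P.derivative.eval₂ (iK K F) y = 0
    · by_cases h0 : P.natDegree = 0
      · exfalso
        rw [Polynomial.eq_C_of_natDegree_eq_zero h0, Polynomial.eval₂_C,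
          map_eq_zero_iff _ (iK_injective K F hJ)] at hPy
        rw [Polynomial.eq_C_of_natDegree_eq_zero h0, hPy, map_zero] at hP0
        exact hP0 rfl
      · have h2 : P.derivative.natDegree < n := by
          rw [← hn]; exact Polynomial.natDegree_derivative_lt h0
        apply ih _ h2 P.derivative _ h1 rfl
        intro h3
        exact h0 (Polynomial.derivative_eq_zero.1 h3)
    · exact ⟨P, hPy, h1⟩

/-- Differentiating a relation. -/
noncomputable def pD (i : σ) (P : Polynomial (MvPolynomial σ k)) : Polynomial (MvPolynomial σ k) :=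
  ∑ n ∈ P.support, Polynomial.C (pderiv i (P.coeff n)) * Polynomial.X ^ n

theorem dualD_rel (hJ : IsUnit (Matrix.det (jac F))) (i : σ) (P : Polynomial (MvPolynomial σ k))
    (r : MvPolynomial σ k) (h : P.eval₂ (iK K F) (algebraMap (MvPolynomial σ k) K r) = 0) :
    (pD i P).eval₂ (iK K F) (algebraMap (MvPolynomial σ k) K r) +
      P.derivative.eval₂ (iK K F) (algebraMap (MvPolynomial σ k) K r) *
        algebraMap (MvPolynomial σ k) K (dualD F i r) = 0 := by
  have hder : IsDer (dualD F i) := ⟨fun x y => map_add _ x y, fun x y => (dualD F i).leibniz x y⟩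
  have h1 := hder.eval₂ (aeval F : MvPolynomial σ k →ₐ[k] MvPolynomial σ k).toRingHom r P
  have h2 : ∀ Q : Polynomial (MvPolynomial σ k),
      algebraMap (MvPolynomial σ k) K
        (Q.eval₂ (aeval F : MvPolynomial σ k →ₐ[k] MvPolynomial σ k).toRingHom r) =
      Q.eval₂ (iK K F) (algebraMap (MvPolynomial σ k) K r) := by
    intro Q
    rw [Polynomial.hom_eval₂]
    rfl
  have h3 : P.eval₂ (aeval F : MvPolynomial σ k →ₐ[k] MvPolynomial σ k).toRingHom r = 0 := by
    apply IsFractionRing.injective (MvPolynomial σ k) K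
    rw [h2, h, map_zero]
  rw [h3, map_zero] at h1
  have h4 : (pD i P).eval₂ (aeval F : MvPolynomial σ k →ₐ[k] MvPolynomial σ k).toRingHom r =
      ∑ n ∈ P.support, (dualD F i) ((aeval F : MvPolynomial σ k →ₐ[k] MvPolynomial σ k).toRingHom
        (P.coeff n)) * r ^ n := by
    rw [pD, Polynomial.eval₂_finsetSum]
    apply Finset.sum_congr rfl
    intro n _
    rw [Polynomial.eval₂_mul, Polynomial.eval₂_C, Polynomial.eval₂_pow, Polynomial.eval₂_X]
    congr 1
    exact (dualD_aeval F hJ i (P.coeff n)).symm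
  rw [← h2, ← h2, ← map_mul, ← map_add, h4, ← h1, map_zero]

variable (L : IntermediateField (fF K F) K)

/-- the map into an intermediate field -/
noncomputable def iL : MvPolynomial σ k →+* L :=
  (algebraMap (fF K F) L).comp ((iK K F).codRestrict (fF K F) (iK_mem K F))

theorem eval₂_iL (P : Polynomial (MvPolynomial σ k)) (y : L) :
    ((P.eval₂ (iL K F L) y : L) : K) = P.eval₂ (iK K F) (y : K) := by
  change (algebraMap L K) (P.eval₂ (iL K F L) y) = _
  rw [Polynomial.hom_eval₂]
  rfl

theorem gal_eval₂_iL (g : L ≃ₐ[fF K F] L) (P : Polynomial (MvPolynomial σ k)) (y : L) :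
    g (P.eval₂ (iL K F L) y) = P.eval₂ (iL K F L) (g y) := by
  change (g.toRingEquiv.toRingHom) (P.eval₂ (iL K F L) y) = _
  rw [Polynomial.hom_eval₂]
  congr 1
  ext p
  · simp [iL]
  · simp [iL]

theorem isIntegral_gal (g : L ≃ₐ[fF K F] L) (y : L) (h : IsIntegral (SS F) (y : K)) :
    IsIntegral (SS F) ((g y : L) : K) := by
  obtain ⟨q, hq, hqy⟩ := h
  let j : SS F →+* L := (algebraMap (fF K F) L).comp
    (((algebraMap (MvPolynomial σ k) K).comp (SS F).val.toRingHom).codRestrict (fF K F) (by
      rintro ⟨_, p, rfl⟩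
      exact iK_mem K F p))
  have hj : (algebraMap L K).comp j = algebraMap (SS F) K := rfl
  have h1 : ∀ z : L, ((q.eval₂ j z : L) : K) = q.eval₂ (algebraMap (SS F) K) (z : K) := by
    intro z
    change (algebraMap L K) (q.eval₂ j z) = _
    rw [Polynomial.hom_eval₂, hj]
    rfl
  have h2 : g (q.eval₂ j y) = q.eval₂ j (g y) := by
    change (g.toRingEquiv.toRingHom) (q.eval₂ j y) = _
    rw [Polynomial.hom_eval₂]
    congr 1
    apply RingHom.ext
    intro p
    simp [j]
  refine ⟨q, hq, ?_⟩
  rw [← h1, ← h2]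
  have h3 : q.eval₂ j y = 0 := by
    apply Subtype.ext
    rw [h1, hqy]; rfl
  rw [h3, map_zero]
  rfl

/-- The integral elements of an intermediate field. -/
noncomputable def BB : Subalgebra k (MvPolynomial σ k) where
  carrier := {r | algebraMap (MvPolynomial σ k) K r ∈ L ∧ IsIntegral (SS F) r}
  mul_mem' := by
    rintro a b ⟨ha, ha'⟩ ⟨hb, hb'⟩
    exact ⟨by rw [map_mul]; exact mul_mem ha hb, ha'.mul hb'⟩
  add_mem' := by
    rintro a b ⟨ha, ha'⟩ ⟨hb, hb'⟩
    exact ⟨by rw [map_add]; exact add_mem ha hb, ha'.add hb'⟩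
  algebraMap_mem' := by
    intro c
    refine ⟨?_, ?_⟩
    · rw [← IsScalarTower.algebraMap_apply]
      have h1 : algebraMap k K c ∈ fF K F := (fF K F).algebraMap_mem c
      exact L.algebraMap_mem ⟨_, h1⟩
    · exact isIntegral_algebraMap (R := SS F) (x := algebraMap k (SS F) c)

theorem SS_le_BB : SS F ≤ BB K F L := by
  rintro _ ⟨p, rfl⟩
  refine ⟨?_, ?_⟩
  · exact L.algebraMap_mem ⟨_, iK_mem K F p⟩
  · exact isIntegral_algebraMap (R := SS F) (x := ⟨_, p, rfl⟩)

theorem BB_dualD (hJ : IsUnit (Matrix.det (jac F))) [IsGalois (fF K F) L] (i : σ)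
    (r : MvPolynomial σ k) (hr : r ∈ BB K F L) : dualD F i r ∈ BB K F L := by
  obtain ⟨hrL, hri⟩ := hr
  set y : L := ⟨_, hrL⟩ with hy
  have hyi : IsIntegral (SS F) (y : K) := hri.algebraMap
  obtain ⟨P, hP, hP'⟩ := exists_sep K F hJ (y : K) hyi.isAlgebraic
  set z : L := - ((pD i P).eval₂ (iL K F L) y) / (P.derivative.eval₂ (iL K F L) y) with hz
  -- the main computation
  have key : ∀ g : L ≃ₐ[fF K F] L, ∀ r' : MvPolynomial σ k,
      algebraMap (MvPolynomial σ k) K r' = (g y : L) →
      algebraMap (MvPolynomial σ k) K (dualD F i r') = (g z : L) := by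
    intro g r' hr'
    have h1 : P.eval₂ (iK K F) (algebraMap (MvPolynomial σ k) K r') = 0 := by
      rw [hr', ← eval₂_iL, ← gal_eval₂_iL]
      have h3 : P.eval₂ (iL K F L) y = 0 := by
        apply Subtype.ext
        rw [eval₂_iL, hP]; rfl
      rw [h3, map_zero]; rfl
    have h2 := dualD_rel K F hJ i P r' h1
    rw [hr', ← eval₂_iL, ← eval₂_iL, ← gal_eval₂_iL, ← gal_eval₂_iL] at h2
    have h4 : (P.derivative.eval₂ (iL K F L) y) ≠ 0 := by
      intro h5
      apply hP'
      rw [← eval₂_iL, h5]; rfl
    have h6 : ((g (P.derivative.eval₂ (iL K F L) y) : L) : K) ≠ 0 := by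
      intro h7
      apply h4
      apply g.injective
      rw [map_zero]
      apply Subtype.ext
      exact h7
    rw [hz, map_div₀, map_neg]
    change _ = (-((g ((pD i P).eval₂ (iL K F L) y) : L) : K)) /
      ((g (P.derivative.eval₂ (iL K F L) y) : L) : K)
    rw [eq_div_iff h6]
    linear_combination h2
  have key1 : algebraMap (MvPolynomial σ k) K (dualD F i r) = (z : L) := by
    have := key AlgEquiv.refl r rfl
    exact this
  refine ⟨?_, ?_⟩
  · rw [key1]; exact z.2
  · -- integrality
    have hzalg : IsAlgebraic (fF K F) z := Algebra.IsAlgebraic.isAlgebraic z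
    set m := minpoly (fF K F) z with hm
    have hmon : m.Monic := minpoly.monic hzalg.isIntegral
    have hsplit : (m.map (algebraMap (fF K F) L)).Splits := Normal.splits' z
    have hroots : ∀ w ∈ (m.map (algebraMap (fF K F) L)).roots,
        ∃ r' : MvPolynomial σ k, algebraMap (MvPolynomial σ k) K r' = (w : K) := by
      intro w hw
      have hw1 : Polynomial.aeval w m = 0 := by
        have := (Polynomial.mem_roots'.1 hw).2
        rwa [Polynomial.IsRoot, Polynomial.eval_map_algebraMap] at this
      obtain ⟨g, hg⟩ := minpoly.exists_algEquiv_of_root' hzalg hw1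
      obtain ⟨r', hr', _⟩ := exists_of_integral K F _ (isIntegral_gal K F L g y hyi)
      refine ⟨dualD F i r', ?_⟩
      rw [key g r' hr', hg]
    have hlift : m.map (algebraMap (fF K F) K) ∈
        Polynomial.lifts (algebraMap (MvPolynomial σ k) K) := by
      have h1 : m.map (algebraMap (fF K F) K) =
          (m.map (algebraMap (fF K F) L)).map (algebraMap L K) := by
        rw [Polynomial.map_map]; rfl
      rw [h1]
      have h2 := hsplit.eq_prod_roots
      rw [h2, (hmon.map _).leadingCoeff, Polynomial.C_1, one_mul, Polynomial.map_multiset_prod,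
        Multiset.map_map]
      apply Subsemiring.multiset_prod_mem
      intro q hq
      rw [Multiset.mem_map] at hq
      obtain ⟨w, hw, rfl⟩ := hq
      obtain ⟨r', hr'⟩ := hroots w hw
      refine (Polynomial.mem_lifts _).2 ⟨Polynomial.X - Polynomial.C r', ?_⟩
      simp only [Function.comp, Polynomial.map_sub, Polynomial.map_X, Polynomial.map_C, hr']
      rfl
    have hlift2 : m.map (algebraMap (fF K F) K) ∈
        Polynomial.lifts (algebraMap (SS F) K) := by
      rw [Polynomial.lifts_iff_coeff_lifts] at hlift ⊢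
      intro n
      obtain ⟨c, hc⟩ := hlift n
      have hcS : c ∈ SS F := by
        apply mem_SS_of_mem_fF K F hJ
        rw [hc, Polynomial.coeff_map]
        exact (m.coeff n).2
      exact ⟨⟨c, hcS⟩, hc⟩
    obtain ⟨q, hq, _, hqm⟩ := Polynomial.lifts_and_natDegree_eq_and_monic hlift2 (hmon.map _)
    have hzi : IsIntegral (SS F) (z : K) := by
      refine ⟨q, hqm, ?_⟩
      rw [← Polynomial.eval_map, hq, Polynomial.eval_map_algebraMap]
      have : Polynomial.aeval (algebraMap L K z) m = algebraMap L K (Polynomial.aeval z m) :=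
        Polynomial.aeval_algebraMap_apply K z m
      rw [minpoly.aeval, map_zero] at this
      exact this
    rw [← key1] at hzi
    exact (isIntegral_algebraMap_iff (IsFractionRing.injective (MvPolynomial σ k) K)).1 hzi

/-- A Galois intermediate field of a Keller map is trivial. -/
theorem eq_bot_of_isGalois (hJ : IsUnit (Matrix.det (jac F))) [IsGalois (fF K F) L] : L = ⊥ := by
  have hB : BB K F L ≤ SS F := by
    apply le_SS_of_integral F hJ (BB K F L) (BB_dualD K F L hJ)
    · intro i
      exact SS_le_BB K F L ⟨X i, by simp⟩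
    · rintro b ⟨_, q, hq, hqb⟩
      refine ⟨q.map (eqS F hJ).symm.toRingEquiv.toRingHom, hq.map _, ?_⟩
      rw [Polynomial.eval₂_map, ← hqb]
      congr 1
      apply RingHom.ext
      intro s
      change (aeval F ((eqS F hJ).symm s)) = _
      rw [← eqS_coe F hJ, AlgEquiv.apply_symm_apply]
      rfl
  rw [eq_bot_iff]
  intro l hl
  have hlalg : IsAlgebraic (fF K F) (l : K) := by
    have := (Algebra.IsAlgebraic.isAlgebraic (R := fF K F) (⟨l, hl⟩ : L))
    exact this.algebraMap
  obtain ⟨s, hs, r, hri, hr⟩ := exists_mul_integral K F l (alg_down K F l hlalg)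
  have hsL : algebraMap (MvPolynomial σ k) K s ∈ L := (SS_le_BB K F L s.2).1
  have hrB : r ∈ BB K F L := ⟨by rw [hr]; exact mul_mem hsL hl, hri⟩
  have hs0 : algebraMap (MvPolynomial σ k) K s ≠ 0 := by
    rw [Ne, map_eq_zero_iff _ (IsFractionRing.injective (MvPolynomial σ k) K)]
    intro h; exact hs (Subtype.ext h)
  have hl' : l = algebraMap (MvPolynomial σ k) K r / algebraMap (MvPolynomial σ k) K s := by
    rw [hr, mul_div_cancel_left₀ _ hs0]
  have hSf : ∀ t ∈ SS F, algebraMap (MvPolynomial σ k) K t ∈ fF K F := by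
    rintro _ ⟨p, rfl⟩
    exact iK_mem K F p
  rw [IntermediateField.mem_bot]
  refine ⟨⟨l, ?_⟩, rfl⟩
  rw [hl']
  exact div_mem (hSf _ (hB hrB)) (hSf _ s.2)

end

end Pool.Agent.H922R2
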