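import Mathlib
import Pool.Agent.H922R2.K7
import Pool.Agent.H922R2.K22

set_option autoImplicit false
set_option linter.unusedSectionVars false
set_option linter.style.haveILetI false

open MvPolynomial

namespace Pool.Agent.H922R2

section Stable

variable {k : Type*} [Field k] [CharZero k] {σ : Type*} [Fintype σ] [DecidableEq σ]
variable (K : Type*) [Field K] [Algebra (MvPolynomial σ k) K] [IsFractionRing (MvPolynomial σ k) K]
  [Algebra k K] [IsScalarTower k (MvPolynomial σ k) K]
variable (F : σ → MvPolynomial σ k)

theorem finDim_fF (hJ : IsUnit (Matrix.det (jac F))) : FiniteDimensional (fF K F) K := by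
  haveI := algebraic_SS F hJ
  letI : Algebra (SS F) (fF K F) := RingHom.toAlgebra
    (((algebraMap (MvPolynomial σ k) K).comp (SS F).val.toRingHom).codRestrict (fF K F) (by
      rintro ⟨_, p, rfl⟩
      exact iK_mem K F p))
  haveI : IsScalarTower (SS F) (fF K F) K := IsScalarTower.of_algebraMap_eq (fun _ => rfl)
  have halg : ∀ r : MvPolynomial σ k, IsIntegral (fF K F) (algebraMap (MvPolynomial σ k) K r) := by
    intro r
    have h1 : IsAlgebraic (SS F) r := Algebra.IsAlgebraic.isAlgebraic r
    have h2 : IsAlgebraic (SS F) (algebraMap (MvPolynomial σ k) K r) :=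
      h1.algebraMap
    have h3 : IsAlgebraic (fF K F) (algebraMap (MvPolynomial σ k) K r) := by
      apply h2.extendScalars
      intro a b hab
      apply Subtype.ext
      apply IsFractionRing.injective (MvPolynomial σ k) K
      exact congrArg Subtype.val hab
    exact h3.isIntegral
  have htop : IntermediateField.adjoin (fF K F)
      (Set.range fun i : σ => algebraMap (MvPolynomial σ k) K (X i)) = ⊤ := by
    rw [eq_top_iff]
    intro x _
    obtain ⟨a, b, _, rfl⟩ := IsFractionRing.div_surjective (A := MvPolynomial σ k) x
    have h : ∀ p : MvPolynomial σ k, algebraMap (MvPolynomial σ k) K p ∈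
        IntermediateField.adjoin (fF K F)
          (Set.range fun i : σ => algebraMap (MvPolynomial σ k) K (X i)) := by
      intro p
      induction p using MvPolynomial.induction_on with
      | C c =>
        have h1 : algebraMap (MvPolynomial σ k) K (C c) = algebraMap (fF K F) K (algebraMap k (fF K F) c) := by
          rw [← IsScalarTower.algebraMap_apply k (fF K F) K, ← MvPolynomial.algebraMap_eq,
            ← IsScalarTower.algebraMap_apply k (MvPolynomial σ k) K]
        rw [h1]
        exact IntermediateField.algebraMap_mem _ _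
      | add p q hp hq => rw [map_add]; exact add_mem hp hq
      | mul_X p n hp =>
        rw [map_mul]
        exact mul_mem hp (IntermediateField.subset_adjoin _ _ ⟨n, rfl⟩)
    exact div_mem (h a) (h b)
  have hfin : FiniteDimensional (fF K F) (IntermediateField.adjoin (fF K F)
      (Set.range fun i : σ => algebraMap (MvPolynomial σ k) K (X i))) := by
    haveI : Finite (Set.range fun i : σ => algebraMap (MvPolynomial σ k) K (X i)) :=
      Set.finite_range _
    apply IntermediateField.finiteDimensional_adjoin
    rintro _ ⟨i, rfl⟩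
    exact halg _
  rw [htop] at hfin
  exact FiniteDimensional.of_finrank_pos (by
    rw [← LinearEquiv.finrank_eq (IntermediateField.topEquiv (F := fF K F) (E := K)).toLinearEquiv]
    exact Module.finrank_pos)

/-- One-sided stability implies two-sided stability. -/
theorem stable_of_le (hJ : IsUnit (Matrix.det (jac F)))
    (φ : MvPolynomial σ k ≃ₐ[k] MvPolynomial σ k) (h : ∀ i, φ (F i) ∈ SS F) :
    ∀ s, s ∈ SS F ↔ φ s ∈ SS F := by
  have hall : ∀ s ∈ SS F, φ s ∈ SS F := by
    rintro _ ⟨p, rfl⟩
    induction p using MvPolynomial.induction_on with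
    | C c =>
      change φ (aeval F (C c)) ∈ _
      rw [aeval_C]
      change φ (algebraMap _ _ c) ∈ _
      rw [φ.commutes]
      exact (SS F).algebraMap_mem c
    | add p q hp hq =>
      have : (aeval F : MvPolynomial σ k →ₐ[k] MvPolynomial σ k).toRingHom (p + q) =
        (aeval F : MvPolynomial σ k →ₐ[k] MvPolynomial σ k).toRingHom p +
        (aeval F : MvPolynomial σ k →ₐ[k] MvPolynomial σ k).toRingHom q := map_add _ _ _
      rw [this, map_add]
      exact add_mem hp hq
    | mul_X p n hp =>
      have : (aeval F : MvPolynomial σ k →ₐ[k] MvPolynomial σ k).toRingHom (p * X n) =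
        (aeval F : MvPolynomial σ k →ₐ[k] MvPolynomial σ k).toRingHom p * F n := by
        change aeval F (p * X n) = aeval F p * F n
        rw [map_mul, aeval_X]
      rw [this, map_mul]
      exact mul_mem hp (h n)
  let K := FractionRing (MvPolynomial σ k)
  haveI := finDim_fF K F hJ
  let φK : K ≃ₐ[k] K := IsFractionRing.fieldEquivOfAlgEquiv k K K φ
  have hφK : ∀ p : MvPolynomial σ k, φK (algebraMap (MvPolynomial σ k) K p) =
      algebraMap (MvPolynomial σ k) K (φ p) := fun p =>
    IsFractionRing.fieldEquivOfAlgEquiv_algebraMap k K K φ p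
  let L1 : IntermediateField k K := (fF K F).map φK.toAlgHom
  have hle : L1 ≤ fF K F := by
    rw [IntermediateField.map_le_iff_le_comap]
    unfold fF
    rw [IntermediateField.adjoin_le_iff]
    rintro _ ⟨i, rfl⟩
    obtain ⟨p, hp⟩ := h i
    have h1 : φK (algebraMap (MvPolynomial σ k) K (F i)) = iK K F p := by
      rw [hφK, iK_apply]
      congr 1
      exact hp.symm
    change φK (algebraMap (MvPolynomial σ k) K (F i)) ∈ fF K F
    rw [h1]
    exact iK_mem K F p
  have hfr : Module.finrank (fF K F) K = Module.finrank L1 K :=
    Algebra.finrank_eq_of_equiv_equiv ((fF K F).equivMap φK.toAlgHom).toRingEquiv φK.toRingEquiv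
      (by ext x; rfl)
  have hfd : FiniteDimensional L1 K := by
    apply FiniteDimensional.of_finrank_pos
    rw [← hfr]
    exact Module.finrank_pos
  have heq : L1 = fF K F := IntermediateField.eq_of_le_of_finrank_eq' hle hfr.symm
  intro s
  refine ⟨hall s, fun hs => ?_⟩
  apply mem_SS_of_mem_fF K F hJ
  have h1 : algebraMap (MvPolynomial σ k) K (φ s) ∈ L1 := by
    rw [heq]
    obtain ⟨p, hp⟩ := hs
    have : algebraMap (MvPolynomial σ k) K (φ s) = iK K F p := by
      rw [iK_apply]
      congr 1
      exact hp.symm
    rw [this]
    exact iK_mem K F p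
  obtain ⟨y, hy, hy2⟩ := h1
  have h2 : φK y = φK (algebraMap (MvPolynomial σ k) K s) := by
    rw [hφK]; exact hy2
  rw [← φK.injective h2]
  exact hy

end Stable

end Pool.Agent.H922R2
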