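import Mathlib
import Pool.Agent.H922R2.K23

set_option autoImplicit false
set_option linter.unusedSectionVars false
set_option linter.style.haveILetI false

open MvPolynomial

namespace Pool.Agent.H922R2

section Descent

variable {k : Type*} [Field k] {E : Type*} [Field E] [Algebra k E] {σ : Type*}

/-- map of polynomials -/
noncomputable def mE (k : Type*) [Field k] (E : Type*) [Field E] [Algebra k E] (σ : Type*) :
    MvPolynomial σ k →+* MvPolynomial σ E := MvPolynomial.map (algebraMap k E)

theorem mE_inj : Function.Injective (mE k E σ) :=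
  MvPolynomial.map_injective _ (algebraMap k E).injective

/-- coefficientwise retraction -/
noncomputable def rr (ρ : E →ₗ[k] k) (P : MvPolynomial σ E) : MvPolynomial σ k :=
  ∑ m ∈ P.support, monomial m (ρ (coeff m P))

theorem coeff_rr (ρ : E →ₗ[k] k) (P : MvPolynomial σ E) (m : σ →₀ ℕ) :
    coeff m (rr ρ P) = ρ (coeff m P) := by
  classical
  unfold rr
  rw [coeff_sum]
  simp only [coeff_monomial]
  rw [Finset.sum_ite_eq']
  split_ifs with h
  · rfl
  · rw [notMem_support_iff] at h
    rw [h, map_zero]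

theorem rr_add (ρ : E →ₗ[k] k) (P Q : MvPolynomial σ E) : rr ρ (P + Q) = rr ρ P + rr ρ Q := by
  ext m
  rw [coeff_add, coeff_rr, coeff_rr, coeff_rr, coeff_add, map_add]

theorem rr_mul (ρ : E →ₗ[k] k) (a : MvPolynomial σ k) (Q : MvPolynomial σ E) :
    rr ρ (mE k E σ a * Q) = a * rr ρ Q := by
  classical
  ext m
  rw [coeff_rr, coeff_mul, coeff_mul, map_sum]
  apply Finset.sum_congr rfl
  intro x _
  rw [coeff_rr, mE, coeff_map, ← Algebra.smul_def, map_smul, smul_eq_mul]

theorem rr_C (ρ : E →ₗ[k] k) (c : E) : rr ρ (C c : MvPolynomial σ E) = C (ρ c) := by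
  classical
  ext m
  rw [coeff_rr, coeff_C, coeff_C]
  split_ifs
  · rfl
  · exact map_zero _

theorem rr_monomial (ρ : E →ₗ[k] k) (m : σ →₀ ℕ) (c : E) :
    rr ρ (monomial m c : MvPolynomial σ E) = monomial m (ρ c) := by
  classical
  ext n
  rw [coeff_rr, coeff_monomial, coeff_monomial]
  split_ifs
  · rfl
  · exact map_zero _

theorem rr_aeval (ρ : E →ₗ[k] k) (F : σ → MvPolynomial σ k) (P : MvPolynomial σ E) :
    rr ρ (aeval (fun i => mE k E σ (F i)) P) = aeval F (rr ρ P) := by
  induction P using MvPolynomial.induction_on' with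
  | monomial m c =>
    rw [aeval_monomial, rr_monomial, aeval_monomial]
    have h : (m.prod fun i k_1 => (mE k E σ (F i)) ^ k_1) = mE k E σ (m.prod fun i n => F i ^ n) := by
      rw [Finsupp.prod, Finsupp.prod, map_prod]
      simp only [map_pow]
    rw [h, mul_comm, rr_mul, MvPolynomial.algebraMap_eq, rr_C, mul_comm, MvPolynomial.algebraMap_eq]
  | add p q hp hq => rw [map_add, rr_add, hp, hq, rr_add, map_add]

theorem SS_descent (F : σ → MvPolynomial σ k)
    (h : SS (fun i => mE k E σ (F i)) = ⊤) : SS F = ⊤ := by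
  obtain ⟨ρ, hρ⟩ := LinearMap.exists_leftInverse_of_injective (Algebra.linearMap k E)
    (LinearMap.ker_eq_bot.2 (algebraMap k E).injective)
  have hρ1 : ∀ c : k, ρ (algebraMap k E c) = c := fun c => by
    have := LinearMap.congr_fun hρ c
    simpa using this
  rw [eq_top_iff]
  intro p _
  have h1 : mE k E σ p ∈ SS (fun i => mE k E σ (F i)) := by rw [h]; trivial
  obtain ⟨P, hP⟩ := h1
  have h2 : rr ρ (mE k E σ p) = p := by
    ext m
    rw [coeff_rr, mE, coeff_map, hρ1]
  rw [← h2]
  refine ⟨rr ρ P, ?_⟩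
  change aeval F (rr ρ P) = _
  rw [← rr_aeval]
  congr 1

theorem mE_aeval (F : σ → MvPolynomial σ k) (P : MvPolynomial σ k) :
    mE k E σ (aeval F P) = aeval (fun i => mE k E σ (F i)) (mE k E σ P) := by
  induction P using MvPolynomial.induction_on' with
  | monomial m c =>
    rw [aeval_monomial, map_mul, mE, map_monomial, aeval_monomial]
    congr 1
    · rw [MvPolynomial.algebraMap_eq, MvPolynomial.algebraMap_eq, map_C]
    · rw [Finsupp.prod, Finsupp.prod, map_prod]
      simp only [map_pow]
  | add p q hp hq => rw [map_add, map_add, map_add, map_add, hp, hq]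

theorem jac_mE [Fintype σ] [DecidableEq σ] (F : σ → MvPolynomial σ k)
    (hJ : IsUnit (Matrix.det (jac F))) : IsUnit (Matrix.det (jac (fun i => mE k E σ (F i)))) := by
  have h : jac (fun i => mE k E σ (F i)) = (mE k E σ).mapMatrix (jac F) := by
    ext1 i j
    simp only [Matrix.of_apply, RingHom.mapMatrix_apply, Matrix.map_apply]
    rw [mE, pderiv_map]
  rw [h, ← RingHom.map_det]
  exact hJ.map _

end Descent

section Final

variable {k : Type*} [Field k] {E : Type*} [Field E] [Algebra k E]

theorem aeval_ga (φ : GA k) (P : MvPolynomial (Fin 2) k) :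
    aeval (fun i => φ (X i)) P = φ P := by
  have : (aeval (fun i => φ (X i)) : MvPolynomial (Fin 2) k →ₐ[k] _) = φ.toAlgHom := by
    apply MvPolynomial.algHom_ext
    intro i
    simp
  exact congrArg (fun f => f P) this

/-- base change of an automorphism -/
theorem exists_gaE (E : Type*) [Field E] [Algebra k E] (φ : GA k) :
    ∃ φE : GA E, ∀ p, φE (mE k E (Fin 2) p) = mE k E (Fin 2) (φ p) := by
  have h : ∀ φ : GA k, ∀ p, aeval (fun i => mE k E (Fin 2) (φ (X i))) (mE k E (Fin 2) p) =
      mE k E (Fin 2) (φ p) := by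
    intro φ p
    rw [← aeval_ga φ p, mE_aeval]
  have hX : ∀ i, mE k E (Fin 2) (X i) = X i := fun i => by rw [mE, map_X]
  refine ⟨AlgEquiv.ofAlgHom (aeval (fun i => mE k E (Fin 2) (φ (X i))))
    (aeval (fun i => mE k E (Fin 2) (φ⁻¹ (X i)))) ?_ ?_, fun p => h φ p⟩
  · apply MvPolynomial.algHom_ext
    intro i
    rw [AlgHom.comp_apply, aeval_X, h φ]
    change mE k E (Fin 2) (φ (φ⁻¹ (X i))) = X i
    rw [← hX i]
    congr 1
    exact AlgEquiv.apply_symm_apply φ (X i)
  · apply MvPolynomial.algHom_ext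
    intro i
    rw [AlgHom.comp_apply, aeval_X, h φ⁻¹]
    change mE k E (Fin 2) (φ⁻¹ (φ (X i))) = X i
    rw [← hX i]
    congr 1
    exact AlgEquiv.symm_apply_apply φ (X i)

/-- Plane Keller maps with an infinite-order symmetry are automorphisms. -/
theorem main_any [CharZero k] {F : Fin 2 → MvPolynomial (Fin 2) k}
    (hJ : IsUnit (Matrix.det (jac F))) (φ : GA k)
    (hinf : ∀ n, 0 < n → φ ^ n ≠ 1) (h : ∀ i, φ (F i) ∈ SS F) : SS F = ⊤ := by
  obtain ⟨φE, hφE⟩ := exists_gaE (AlgebraicClosure k) φ
  haveI : CharZero (AlgebraicClosure k) := charZero_of_injective_algebraMap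
    (algebraMap k (AlgebraicClosure k)).injective
  apply SS_descent (E := AlgebraicClosure k) F
  have hJE := jac_mE (E := AlgebraicClosure k) F hJ
  refine main_closed (φ := φE) hJE (stable_of_le _ hJE φE ?_) ?_
  · intro i
    obtain ⟨P, hP⟩ := h i
    refine ⟨mE k (AlgebraicClosure k) (Fin 2) P, ?_⟩
    change aeval _ (mE k (AlgebraicClosure k) (Fin 2) P) = _
    rw [← mE_aeval, hφE]
    congr 1
  · intro n hn hφn
    apply hinf n hn
    have hpow : ∀ (m : ℕ) p, (φE ^ m) (mE k (AlgebraicClosure k) (Fin 2) p) =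
        mE k (AlgebraicClosure k) (Fin 2) ((φ ^ m) p) := by
      intro m
      induction m with
      | zero => intro p; rfl
      | succ m ih =>
        intro p
        rw [pow_succ, pow_succ]
        change (φE ^ m) (φE _) = mE k (AlgebraicClosure k) (Fin 2) ((φ ^ m) (φ p))
        rw [hφE, ih]
    apply AlgEquiv.ext
    intro p
    apply mE_inj (k := k) (E := AlgebraicClosure k)
    rw [← hpow, hφn]
    rfl

end Final

end Pool.Agent.H922R2
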