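import Mathlib
import Pool.Agent.H922R2.K4

set_option autoImplicit false
set_option linter.unusedSectionVars false
set_option linter.style.haveILetI false

namespace Pool.Agent.H922R2.R

open Pool.Agent.H922R2 (IsDer)

section Lb

variable {R : Type*} [CommRing R]

/-- all exponents are at least `c` -/
def Lb (c : ℚ) (x : HahnSeries ℚ R) : Prop := ∀ q < c, x.coeff q = 0

theorem Lb.mono {c d : ℚ} {x : HahnSeries ℚ R} (h : Lb c x) (hd : d ≤ c) : Lb d x :=
  fun q hq => h q (lt_of_lt_of_le hq hd)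

theorem Lb.zero (c : ℚ) : Lb c (0 : HahnSeries ℚ R) := fun _ _ => rfl

theorem Lb.add {c : ℚ} {x y : HahnSeries ℚ R} (hx : Lb c x) (hy : Lb c y) : Lb c (x + y) := by
  intro q hq
  rw [HahnSeries.coeff_add, hx q hq, hy q hq, add_zero]

theorem Lb.neg {c : ℚ} {x : HahnSeries ℚ R} (hx : Lb c x) : Lb c (-x) := by
  intro q hq
  rw [HahnSeries.coeff_neg, hx q hq, neg_zero]

theorem Lb.sub {c : ℚ} {x y : HahnSeries ℚ R} (hx : Lb c x) (hy : Lb c y) : Lb c (x - y) := by
  rw [sub_eq_add_neg]; exact hx.add hy.neg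

theorem Lb.sum {ι : Type*} {c : ℚ} {s : Finset ι} {f : ι → HahnSeries ℚ R} (h : ∀ i ∈ s, Lb c (f i)) :
    Lb c (∑ i ∈ s, f i) := by
  intro q hq
  rw [HahnSeries.coeff_sum]
  exact Finset.sum_eq_zero fun i hi => h i hi q hq

theorem Lb.mul {a b : ℚ} {x y : HahnSeries ℚ R} (hx : Lb a x) (hy : Lb b y) : Lb (a + b) (x * y) := by
  intro q hq
  rw [HahnSeries.coeff_mul]
  apply Finset.sum_eq_zero
  rintro ⟨i, j⟩ hij
  rw [Finset.mem_antidiagonal] at hij
  obtain ⟨_, _, h⟩ := hij
  simp only at h ⊢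
  by_cases hi : i < a
  · rw [hx i hi, zero_mul]
  · push Not at hi
    rw [hy j (by linarith), mul_zero]

theorem Lb.coeff_mul {a b : ℚ} {x y : HahnSeries ℚ R} (hx : Lb a x) (hy : Lb b y) :
    (x * y).coeff (a + b) = x.coeff a * y.coeff b := by
  classical
  rw [HahnSeries.coeff_mul]
  by_cases ha : x.coeff a = 0
  · rw [ha, zero_mul]
    apply Finset.sum_eq_zero
    rintro ⟨i, j⟩ hij
    rw [Finset.mem_antidiagonal] at hij
    obtain ⟨_, _, h⟩ := hij
    simp only at h ⊢
    rcases lt_trichotomy i a with hi | hi | hi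
    · rw [hx i hi, zero_mul]
    · rw [hi, ha, zero_mul]
    · rw [hy j (by linarith), mul_zero]
  by_cases hb : y.coeff b = 0
  · rw [hb, mul_zero]
    apply Finset.sum_eq_zero
    rintro ⟨i, j⟩ hij
    rw [Finset.mem_antidiagonal] at hij
    obtain ⟨_, _, h⟩ := hij
    simp only at h ⊢
    rcases lt_trichotomy j b with hi | hi | hi
    · rw [hy j hi, mul_zero]
    · rw [hi, hb, mul_zero]
    · rw [hx i (by linarith), zero_mul]
  rw [Finset.sum_eq_single (a, b)]
  · rintro ⟨i, j⟩ hij hne
    rw [Finset.mem_antidiagonal] at hij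
    obtain ⟨_, _, h⟩ := hij
    simp only at h ⊢
    rcases lt_trichotomy i a with hi | hi | hi
    · rw [hx i hi, zero_mul]
    · exfalso
      apply hne
      subst hi
      rw [add_right_inj] at h
      rw [h]
    · rw [hy j (by linarith), mul_zero]
  · intro h
    exfalso
    apply h
    rw [Finset.mem_antidiagonal]
    exact ⟨ha, hb, rfl⟩

theorem Lb_single (a : ℚ) (r : R) : Lb a (HahnSeries.single a r) := by
  intro q hq
  rw [HahnSeries.coeff_single, if_neg hq.ne]

theorem Lb_C (r : R) : Lb 0 (HahnSeries.C r : HahnSeries ℚ R) := Lb_single 0 r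

theorem Lb_one : Lb 0 (1 : HahnSeries ℚ R) := by
  have := Lb_C (1 : R)
  rwa [map_one] at this

theorem Lb.pow {a : ℚ} {x : HahnSeries ℚ R} (hx : Lb a x) (n : ℕ) : Lb (n * a) (x ^ n) := by
  induction n with
  | zero => simpa using Lb_one
  | succ n ih =>
    rw [pow_succ]
    have := ih.mul hx
    push_cast
    rwa [add_mul, one_mul]

theorem Lb.coeff_pow {a : ℚ} {x : HahnSeries ℚ R} (hx : Lb a x) (n : ℕ) :
    (x ^ n).coeff (n * a) = x.coeff a ^ n := by
  induction n with
  | zero => simp
  | succ n ih =>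
    rw [pow_succ, pow_succ, ← ih, ← (hx.pow n).coeff_mul hx]
    congr 1
    push_cast
    ring

theorem Lb_order (x : HahnSeries ℚ R) : Lb x.order x := by
  intro q hq
  by_contra h
  have := HahnSeries.order_le_of_coeff_ne_zero h
  linarith

theorem order_eq_of {a : ℚ} {x : HahnSeries ℚ R} (hx : Lb a x) (h : x.coeff a ≠ 0) : x.order = a := by
  have h1 := HahnSeries.order_le_of_coeff_ne_zero h
  rcases lt_or_eq_of_le h1 with h2 | h2
  · exfalso
    have hx0 : x ≠ 0 := by rintro rfl; exact h rfl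
    exact HahnSeries.coeff_order_eq_zero.not.2 hx0 (hx _ h2)
  · exact h2

theorem leadingCoeff_eq_of {a : ℚ} {x : HahnSeries ℚ R} (hx : Lb a x) (h : x.coeff a ≠ 0) :
    x.leadingCoeff = x.coeff a := by
  rw [HahnSeries.leadingCoeff_eq, order_eq_of hx h]

theorem Lb.le_order {a : ℚ} {x : HahnSeries ℚ R} (hx : Lb a x) (h0 : x ≠ 0) : a ≤ x.order := by
  by_contra h
  push Not at h
  exact HahnSeries.coeff_order_eq_zero.not.2 h0 (hx _ h)

end Lb

section hmap

variable {R S T : Type*} [CommRing R] [CommRing S] [CommRing T]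

/-- map on coefficients -/
noncomputable def hmap (f : R →+* S) : HahnSeries ℚ R →+* HahnSeries ℚ S where
  toFun x := x.map f
  map_one' := HahnSeries.map_one f.toMonoidWithZeroHom
  map_mul' x y := HahnSeries.map_mul (f : R →ₙ+* S)
  map_zero' := by ext q; simp
  map_add' x y := by
    ext q
    simp

theorem hmap_coeff (f : R →+* S) (x : HahnSeries ℚ R) (q : ℚ) : (hmap f x).coeff q = f (x.coeff q) := rfl

theorem hmap_single (f : R →+* S) (q : ℚ) (r : R) :
    hmap f (HahnSeries.single q r) = HahnSeries.single q (f r) := by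
  ext s
  rw [hmap_coeff, HahnSeries.coeff_single, HahnSeries.coeff_single]
  split_ifs <;> simp

theorem hmap_C (f : R →+* S) (r : R) :
    hmap f (HahnSeries.C r) = HahnSeries.C (f r) := hmap_single f 0 r

theorem hmap_injective (f : R →+* S) (hf : Function.Injective f) : Function.Injective (hmap f) := by
  intro x y h
  ext q
  apply hf
  rw [← hmap_coeff, ← hmap_coeff, h]

theorem Lb.hmap {c : ℚ} {x : HahnSeries ℚ R} (h : Lb c x) (f : R →+* S) : Lb c (hmap f x) := by
  intro q hq
  rw [hmap_coeff, h q hq, map_zero]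

theorem hmap_hmap (f : R →+* S) (g : S →+* T) (x : HahnSeries ℚ R) :
    hmap g (hmap f x) = hmap (g.comp f) x := by
  ext q; simp [hmap_coeff]

end hmap

section eul

variable (k : Type*) [Field k] [CharZero k] {R S : Type*} [CommRing R] [Algebra k R] [CommRing S] [Algebra k S]

/-- Euler operator. -/
noncomputable def eul (x : HahnSeries ℚ R) : HahnSeries ℚ R where
  coeff q := algebraMap k R (q : k) * x.coeff q
  isPWO_support' := x.isPWO_support.mono (by
    intro q hq
    simp only [Function.mem_support] at hq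
    exact right_ne_zero_of_mul hq)

theorem eul_coeff (x : HahnSeries ℚ R) (q : ℚ) : (eul k x).coeff q = algebraMap k R (q : k) * x.coeff q := rfl

theorem eul_support (x : HahnSeries ℚ R) : (eul k x).support ⊆ x.support := by
  intro q hq
  rw [HahnSeries.mem_support, eul_coeff] at hq
  exact right_ne_zero_of_mul hq

theorem eul_mul (x y : HahnSeries ℚ R) : eul k (x * y) = x * eul k y + y * eul k x := by
  ext q
  rw [eul_coeff, HahnSeries.coeff_add, mul_comm y, HahnSeries.coeff_mul,
    HahnSeries.coeff_mul_right' y.isPWO_support (eul_support k y),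
    HahnSeries.coeff_mul_left' x.isPWO_support (eul_support k x),
    Finset.mul_sum, ← Finset.sum_add_distrib]
  apply Finset.sum_congr rfl
  rintro ⟨i, j⟩ hij
  rw [Finset.mem_antidiagonal] at hij
  obtain ⟨_, _, rfl⟩ := hij
  simp only [eul_coeff]
  rw [Rat.cast_add, map_add]
  ring

theorem eul_isDer : IsDer (eul k (R := R)) where
  add x y := by
    ext q
    rw [HahnSeries.coeff_add, eul_coeff, eul_coeff, eul_coeff, HahnSeries.coeff_add, mul_add]
  mul := eul_mul k

theorem eul_single (q : ℚ) (r : R) :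
    eul k (HahnSeries.single q r) = HahnSeries.C (algebraMap k R (q : k)) * HahnSeries.single q r := by
  ext s
  rw [eul_coeff, HahnSeries.coeff_single, HahnSeries.C_apply, HahnSeries.single_mul_single, zero_add,
    HahnSeries.coeff_single]
  split_ifs with h
  · rw [h]
  · simp

theorem eul_C (r : R) : eul k (HahnSeries.C r) = 0 := by
  rw [HahnSeries.C_apply, eul_single]
  simp

theorem Lb.eul {c : ℚ} {x : HahnSeries ℚ R} (h : Lb c x) : Lb c (eul k x) := by
  intro q hq
  rw [eul_coeff, h q hq, mul_zero]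

theorem hmap_eul (f : R →ₐ[k] S) (x : HahnSeries ℚ R) :
    hmap (f : R →+* S) (eul k x) = eul k (hmap (f : R →+* S) x) := by
  ext q
  rw [hmap_coeff, eul_coeff, eul_coeff, map_mul, hmap_coeff]
  simp

end eul

section dxi

variable {k : Type*} [Field k]

/-- derivative of the coefficients -/
noncomputable def dxi (x : HahnSeries ℚ (Polynomial k)) : HahnSeries ℚ (Polynomial k) where
  coeff q := Polynomial.derivative (x.coeff q)
  isPWO_support' := x.isPWO_support.mono (by
    intro q hq
    simp only [Function.mem_support] at hq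
    intro h
    exact hq (by rw [h, map_zero]))

theorem dxi_coeff (x : HahnSeries ℚ (Polynomial k)) (q : ℚ) :
    (dxi x).coeff q = Polynomial.derivative (x.coeff q) := rfl

theorem dxi_support (x : HahnSeries ℚ (Polynomial k)) : (dxi x).support ⊆ x.support := by
  intro q hq
  rw [HahnSeries.mem_support, dxi_coeff] at hq
  intro h
  exact hq (by rw [h, map_zero])

theorem dxi_mul (x y : HahnSeries ℚ (Polynomial k)) : dxi (x * y) = x * dxi y + y * dxi x := by
  ext1; funext q
  rw [dxi_coeff, HahnSeries.coeff_add, mul_comm y, HahnSeries.coeff_mul,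
    HahnSeries.coeff_mul_right' y.isPWO_support (dxi_support y),
    HahnSeries.coeff_mul_left' x.isPWO_support (dxi_support x),
    map_sum, ← Finset.sum_add_distrib]
  apply Finset.sum_congr rfl
  rintro ⟨i, j⟩ hij
  simp only [dxi_coeff, Polynomial.derivative_mul]
  ring

theorem dxi_isDer : IsDer (dxi (k := k)) where
  add x y := by
    ext1; funext q
    rw [HahnSeries.coeff_add, dxi_coeff, dxi_coeff, dxi_coeff, HahnSeries.coeff_add, map_add]
  mul := dxi_mul

theorem dxi_single (q : ℚ) (r : Polynomial k) :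
    dxi (HahnSeries.single q r) = HahnSeries.single q (Polynomial.derivative r) := by
  ext1; funext s
  rw [dxi_coeff, HahnSeries.coeff_single, HahnSeries.coeff_single]
  split_ifs <;> simp

theorem Lb.dxi {c : ℚ} {x : HahnSeries ℚ (Polynomial k)} (h : Lb c x) : Lb c (dxi x) := by
  intro q hq
  rw [dxi_coeff, h q hq, map_zero]

end dxi

section chain

open MvPolynomial

variable {k : Type*} [Field k] {S : Type*} [CommRing S]

/-- Chain rule for two variables. -/
theorem chain_rule (ψ : MvPolynomial (Fin 2) k →+* S) (δ : S → S) (hδ : IsDer δ)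
    (hc : ∀ a : k, δ (ψ (C a)) = 0) (f : MvPolynomial (Fin 2) k) :
    δ (ψ f) = ψ (pderiv 0 f) * δ (ψ (X 0)) + ψ (pderiv 1 f) * δ (ψ (X 1)) := by
  induction f using MvPolynomial.induction_on with
  | C a => simp [hc]
  | add p q hp hq => rw [map_add, hδ.add, hp, hq]; simp only [map_add]; ring
  | mul_X p i hp =>
    rw [map_mul, hδ.mul, hp]
    fin_cases i
    · simp only [Fin.zero_eta, Derivation.leibniz, pderiv_X_self, smul_eq_mul, mul_one, map_add, map_mul,
        pderiv_X_of_ne (show (0 : Fin 2) ≠ 1 by decide), mul_zero, zero_add]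
      ring
    · simp only [Fin.mk_one, Derivation.leibniz, pderiv_X_self, smul_eq_mul, mul_one, map_add, map_mul,
        pderiv_X_of_ne (show (1 : Fin 2) ≠ 0 by decide), mul_zero, zero_add]
      ring

/-- The Jacobian bracket. -/
noncomputable def Jb (f g : MvPolynomial (Fin 2) k) : MvPolynomial (Fin 2) k :=
  pderiv 0 f * pderiv 1 g - pderiv 1 f * pderiv 0 g

/-- two derivations -/
theorem bracket (ψ : MvPolynomial (Fin 2) k →+* S) (δ ε : S → S) (hδ : IsDer δ) (hε : IsDer ε)
    (hc : ∀ a : k, δ (ψ (C a)) = 0) (hc' : ∀ a : k, ε (ψ (C a)) = 0) (f g : MvPolynomial (Fin 2) k) :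
    δ (ψ f) * ε (ψ g) - ε (ψ f) * δ (ψ g) =
      ψ (Jb f g) * (δ (ψ (X 0)) * ε (ψ (X 1)) - δ (ψ (X 1)) * ε (ψ (X 0))) := by
  rw [chain_rule ψ δ hδ hc f, chain_rule ψ δ hδ hc g, chain_rule ψ ε hε hc' f, chain_rule ψ ε hε hc' g, Jb,
    map_sub, map_mul, map_mul]
  ring

/-- a derivation killing `u` is a multiple of the Jacobian derivation -/
theorem along (ψ : MvPolynomial (Fin 2) k →+* S) (δ : S → S) (hδ : IsDer δ)
    (hc : ∀ a : k, δ (ψ (C a)) = 0) (u v f : MvPolynomial (Fin 2) k) (hJ : Jb u v = 1)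
    (hu : δ (ψ u) = 0) :
    δ (ψ f) = ψ (Jb u f) * δ (ψ v) := by
  have h1 := chain_rule ψ δ hδ hc u
  rw [hu] at h1
  have h2 := chain_rule ψ δ hδ hc v
  have h3 := chain_rule ψ δ hδ hc f
  have h4 : ψ (pderiv 0 u) * ψ (pderiv 1 v) - ψ (pderiv 1 u) * ψ (pderiv 0 v) = 1 := by
    rw [← map_mul, ← map_mul, ← map_sub]
    have : pderiv 0 u * pderiv 1 v - pderiv 1 u * pderiv 0 v = 1 := hJ
    rw [this, map_one]
  rw [h2, h3, Jb, map_sub, map_mul, map_mul]
  linear_combination (-(ψ (pderiv 0 f)) * δ (ψ (X 0)) - ψ (pderiv 1 f) * δ (ψ (X 1))) * h4 +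
    (-(ψ (pderiv 0 f)) * ψ (pderiv 1 v) + ψ (pderiv 1 f) * ψ (pderiv 0 v)) * h1

end chain

end Pool.Agent.H922R2.R
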