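import Mathlib
import Pool.Agent.H922R2.R1

set_option autoImplicit false
set_option linter.unusedSectionVars false
set_option linter.style.haveILetI false

open MvPolynomial

namespace Pool.Agent.H922R2.R

open Pool.Agent.H922R2 (IsDer)

section

variable {k : Type*} [Field k]

/-- `x ↦ 1/t`, `y ↦ Y + η`. -/
noncomputable def EY (Y : HahnSeries ℚ k) : MvPolynomial (Fin 2) k →+* Polynomial (HahnSeries ℚ k) :=
  eval₂Hom ((Polynomial.C).comp (HahnSeries.C))
    (fun i => if i = 0 then Polynomial.C (HahnSeries.single (-1) 1) else Polynomial.C Y + Polynomial.X)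

theorem EY_C (Y : HahnSeries ℚ k) (a : k) : EY Y (C a) = Polynomial.C (HahnSeries.C a) := by
  simp [EY]

theorem EY_X0 (Y : HahnSeries ℚ k) : EY Y (X 0) = Polynomial.C (HahnSeries.single (-1) 1) := by
  simp [EY]

theorem EY_X1 (Y : HahnSeries ℚ k) : EY Y (X 1) = Polynomial.C Y + Polynomial.X := by
  simp [EY]

/-- `x ↦ 1/t`, `y ↦ Y`. -/
noncomputable def th (Y : HahnSeries ℚ k) : MvPolynomial (Fin 2) k →+* HahnSeries ℚ k :=
  (Polynomial.evalRingHom 0).comp (EY Y)

theorem th_apply (Y : HahnSeries ℚ k) (f : MvPolynomial (Fin 2) k) : th Y f = (EY Y f).coeff 0 := by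
  rw [th, RingHom.comp_apply, Polynomial.coe_evalRingHom, ← Polynomial.coeff_zero_eq_eval_zero]

theorem th_C (Y : HahnSeries ℚ k) (a : k) : th Y (C a) = HahnSeries.C a := by
  rw [th, RingHom.comp_apply, EY_C]; simp

theorem th_X0 (Y : HahnSeries ℚ k) : th Y (X 0) = HahnSeries.single (-1) 1 := by
  rw [th, RingHom.comp_apply, EY_X0]; simp

theorem th_X1 (Y : HahnSeries ℚ k) : th Y (X 1) = Y := by
  rw [th, RingHom.comp_apply, EY_X1]; simp

/-- polynomials in `η = t^r ξ` -/
noncomputable def Ph (r : ℚ) : Polynomial (HahnSeries ℚ k) →+* HahnSeries ℚ (Polynomial k) :=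
  Polynomial.eval₂RingHom (hmap Polynomial.C) (HahnSeries.single r Polynomial.X)

theorem Ph_C (r : ℚ) (x : HahnSeries ℚ k) : Ph r (Polynomial.C x) = hmap Polynomial.C x := by
  simp [Ph]

theorem Ph_X (r : ℚ) : Ph r (Polynomial.X : Polynomial (HahnSeries ℚ k)) = HahnSeries.single r Polynomial.X := by
  simp [Ph]

theorem Ph_coeff (r : ℚ) (F : Polynomial (HahnSeries ℚ k)) (q : ℚ) (i : ℕ) :
    ((Ph r F).coeff q).coeff i = (F.coeff i).coeff (q - r * i) := by
  induction F using Polynomial.induction_on' with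
  | add F G hF hG => rw [map_add, HahnSeries.coeff_add, Polynomial.coeff_add, hF, hG, Polynomial.coeff_add,
      HahnSeries.coeff_add]
  | monomial n x =>
    rw [← Polynomial.C_mul_X_pow_eq_monomial, map_mul, map_pow, Ph_C, Ph_X, HahnSeries.single_pow]
    have h1 : q = (q - r * n) + n • r := by rw [nsmul_eq_mul]; ring
    conv_lhs => rw [h1, HahnSeries.coeff_mul_single_add, hmap_coeff, Polynomial.coeff_C_mul, Polynomial.coeff_X_pow]
    rw [Polynomial.coeff_C_mul, Polynomial.coeff_X_pow]
    by_cases h : i = n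
    · subst h
      simp
    · simp [h]

theorem Lb_Ph_iff (r a : ℚ) (F : Polynomial (HahnSeries ℚ k)) :
    Lb a (Ph r F) ↔ ∀ i : ℕ, Lb (a - r * i) (F.coeff i) := by
  constructor
  · intro h i q hq
    have := congrArg (fun g => Polynomial.coeff g i) (h (q + r * i) (by linarith))
    simp only [Ph_coeff, Polynomial.coeff_zero] at this
    rwa [add_sub_cancel_right] at this
  · intro h q hq
    ext i
    rw [Ph_coeff, Polynomial.coeff_zero]
    exact h i _ (by linarith)

/-- the evaluation `η = t^r Ξ` -/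
noncomputable def evX {R : Type*} [CommRing R] [Algebra k R] (r : ℚ) (Ξ : HahnSeries ℚ R) :
    Polynomial (HahnSeries ℚ k) →+* HahnSeries ℚ R :=
  Polynomial.eval₂RingHom (hmap (algebraMap k R)) (HahnSeries.single r 1 * Ξ)

theorem evX_lead {R : Type*} [CommRing R] [Algebra k R] (r a : ℚ) (Ξ : HahnSeries ℚ R) (hΞ : Lb 0 Ξ)
    (F : Polynomial (HahnSeries ℚ k)) (hF : Lb a (Ph r F)) :
    Lb a (evX r Ξ F) ∧ (evX r Ξ F).coeff a = Polynomial.aeval (Ξ.coeff 0) ((Ph r F).coeff a) := by
  have h1 := (Lb_Ph_iff r a F).1 hF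
  have h2 : ∀ i : ℕ, Lb a (hmap (algebraMap k R) (F.coeff i) * (HahnSeries.single r 1 * Ξ) ^ i) ∧
      (hmap (algebraMap k R) (F.coeff i) * (HahnSeries.single r 1 * Ξ) ^ i).coeff a =
        algebraMap k R ((F.coeff i).coeff (a - r * i)) * (Ξ.coeff 0) ^ i := by
    intro i
    have h3 : Lb r (HahnSeries.single r 1 * Ξ) := by
      have := (Lb_single r (1 : R)).mul hΞ
      rwa [add_zero] at this
    have h3' : (HahnSeries.single r 1 * Ξ).coeff r = Ξ.coeff 0 := by
      have := (Lb_single r (1 : R)).coeff_mul hΞ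
      rw [add_zero, HahnSeries.coeff_single, if_pos rfl, one_mul] at this
      exact this
    have h4 := h3.pow i
    have h4' := h3.coeff_pow i
    rw [h3'] at h4'
    have h5 : Lb (a - r * i) (hmap (algebraMap k R) (F.coeff i)) := (h1 i).hmap _
    have h6 : a - r * i + i * r = a := by ring
    refine ⟨?_, ?_⟩
    · have := h5.mul h4
      rwa [h6] at this
    · have := h5.coeff_mul h4
      rw [h6, h4', hmap_coeff] at this
      exact this
  have h7 : evX r Ξ F = ∑ i ∈ F.support, hmap (algebraMap k R) (F.coeff i) * (HahnSeries.single r 1 * Ξ) ^ i := by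
    rw [evX, Polynomial.coe_eval₂RingHom, Polynomial.eval₂_eq_sum, Polynomial.sum_def]
  rw [h7]
  refine ⟨Lb.sum fun i _ => (h2 i).1, ?_⟩
  rw [HahnSeries.coeff_sum, Finset.sum_congr rfl (fun i _ => (h2 i).2)]
  have h8 : ((Ph r F).coeff a).support ⊆ F.support := by
    intro i hi
    rw [Polynomial.mem_support_iff, Ph_coeff] at hi
    rw [Polynomial.mem_support_iff]
    intro h
    rw [h] at hi
    exact hi rfl
  rw [Polynomial.aeval_def, Polynomial.eval₂_eq_sum, Polynomial.sum_def, Finset.sum_subset h8]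
  · apply Finset.sum_congr rfl
    intro i _
    rw [Ph_coeff]
  · intro i _ hi
    rw [Polynomial.notMem_support_iff] at hi
    rw [hi, map_zero, zero_mul]

/-- the combined map -/
noncomputable def EX (r : ℚ) (Y : HahnSeries ℚ k) : MvPolynomial (Fin 2) k →+* HahnSeries ℚ (Polynomial k) :=
  (Ph r).comp (EY Y)

theorem EX_apply (r : ℚ) (Y : HahnSeries ℚ k) (f : MvPolynomial (Fin 2) k) : EX r Y f = Ph r (EY Y f) := rfl

theorem EX_C (r : ℚ) (Y : HahnSeries ℚ k) (a : k) : EX r Y (C a) = HahnSeries.C (Polynomial.C a) := by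
  rw [EX_apply, EY_C, Ph_C, hmap_C]

theorem EX_X0 (r : ℚ) (Y : HahnSeries ℚ k) : EX r Y (X 0) = HahnSeries.single (-1) 1 := by
  rw [EX_apply, EY_X0, Ph_C, hmap_single, map_one]

theorem EX_X1 (r : ℚ) (Y : HahnSeries ℚ k) : EX r Y (X 1) = hmap Polynomial.C Y + HahnSeries.single r Polynomial.X := by
  rw [EX_apply, EY_X1, map_add, Ph_C, Ph_X]

variable [CharZero k]

/-- the fundamental bracket -/
theorem EX_bracket (r : ℚ) (Y : HahnSeries ℚ k) (f g : MvPolynomial (Fin 2) k) :
    eul k (EX r Y f) * dxi (EX r Y g) - dxi (EX r Y f) * eul k (EX r Y g) =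
      - (HahnSeries.single (r - 1) 1 * EX r Y (Jb f g)) := by
  rw [bracket (EX r Y) (eul k) dxi (eul_isDer k) dxi_isDer (fun a => by rw [EX_C, eul_C])
    (fun a => by rw [EX_C, HahnSeries.C_apply, dxi_single, Polynomial.derivative_C, map_zero])]
  have h1 : eul k (EX r Y (X 0)) = -HahnSeries.single (-1) 1 := by
    rw [EX_X0, eul_single]
    ext1; funext s
    rw [HahnSeries.C_apply, HahnSeries.single_mul_single, zero_add, HahnSeries.coeff_neg,
      HahnSeries.coeff_single, HahnSeries.coeff_single]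
    split_ifs <;> simp
  have h2 : dxi (EX r Y (X 0)) = 0 := by
    rw [EX_X0, dxi_single, Polynomial.derivative_one, map_zero]
  have h3 : dxi (EX r Y (X 1)) = HahnSeries.single r 1 := by
    rw [EX_X1, dxi_isDer.add, dxi_single, Polynomial.derivative_X]
    have : dxi (hmap Polynomial.C Y) = (0 : HahnSeries ℚ (Polynomial k)) := by
      ext1; funext s
      rw [dxi_coeff, hmap_coeff, Polynomial.derivative_C]; rfl
    rw [this, zero_add]
  have h4 : HahnSeries.single (r - 1) (1 : Polynomial k) =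
      HahnSeries.single (-1) (1 : Polynomial k) * HahnSeries.single r (1 : Polynomial k) := by
    rw [HahnSeries.single_mul_single, one_mul, show -1 + r = r - 1 by ring]
  rw [h1, h2, h3, h4]
  ring

/-- `u_y(Y) · t d/dt v(Y) = 1/t` -/
theorem th_uy (Y : HahnSeries ℚ k) (u v : MvPolynomial (Fin 2) k) (c : k) (hJ : Jb u v = 1)
    (hu : th Y u = HahnSeries.C c) :
    th Y (pderiv 1 u) * eul k (th Y v) = HahnSeries.single (-1) 1 := by
  have hc : ∀ a : k, eul k (th Y (C a)) = 0 := fun a => by rw [th_C, eul_C]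
  have h1 := chain_rule (th Y) (eul k) (eul_isDer k) hc u
  have h2 := chain_rule (th Y) (eul k) (eul_isDer k) hc v
  rw [hu, eul_C] at h1
  have h3 : eul k (th Y (X 0)) = -HahnSeries.single (-1) 1 := by
    rw [th_X0, eul_single]
    ext1; funext s
    rw [HahnSeries.C_apply, HahnSeries.single_mul_single, zero_add, HahnSeries.coeff_neg,
      HahnSeries.coeff_single, HahnSeries.coeff_single]
    split_ifs <;> simp
  rw [h3] at h1 h2
  have h4 : th Y (pderiv 0 u) * th Y (pderiv 1 v) - th Y (pderiv 1 u) * th Y (pderiv 0 v) = 1 := by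
    rw [← map_mul, ← map_mul, ← map_sub]
    have : pderiv 0 u * pderiv 1 v - pderiv 1 u * pderiv 0 v = 1 := hJ
    rw [this, map_one]
  rw [h2]
  linear_combination (-(th Y (pderiv 1 v))) * h1 + HahnSeries.single (-1) 1 * h4

theorem EY_derivative (Y : HahnSeries ℚ k) (f : MvPolynomial (Fin 2) k) :
    Polynomial.derivative (EY Y f) = EY Y (pderiv 1 f) := by
  have hder : IsDer (fun F : Polynomial (HahnSeries ℚ k) => Polynomial.derivative F) := by
    refine ⟨fun x y => map_add _ x y, fun x y => ?_⟩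
    change Polynomial.derivative (x * y) = x * Polynomial.derivative y + y * Polynomial.derivative x
    rw [Polynomial.derivative_mul]; ring
  have := chain_rule (EY Y) (fun F => Polynomial.derivative F) hder (fun a => by
    rw [EY_C]; exact Polynomial.derivative_C) f
  rw [this, EY_X0, EY_X1, Polynomial.derivative_C, mul_zero, zero_add, Polynomial.derivative_add,
    Polynomial.derivative_C, Polynomial.derivative_X, zero_add, mul_one]

theorem EY_coeff_one (Y : HahnSeries ℚ k) (f : MvPolynomial (Fin 2) k) :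
    (EY Y f).coeff 1 = th Y (pderiv 1 f) := by
  rw [th_apply, ← EY_derivative, Polynomial.coeff_derivative]
  simp

end

end Pool.Agent.H922R2.R
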