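import Mathlib
import Pool.Agent.H922R2.R2

set_option autoImplicit false
set_option linter.unusedSectionVars false
set_option linter.style.haveILetI false

open MvPolynomial

namespace Pool.Agent.H922R2.R

open Pool.Agent.H922R2 (IsDer)

section

variable {k : Type*} [Field k]

/-- The critical slope. -/
def Sel (U V : Polynomial (HahnSeries ℚ k)) (b r : ℚ) : Prop :=
  (∀ i : ℕ, 2 ≤ i → Lb (b - 1 + r - r * i) (U.coeff i)) ∧ (∀ j : ℕ, 1 ≤ j → Lb (-b - r * j) (V.coeff j)) ∧
  ((∃ i : ℕ, 2 ≤ i ∧ (U.coeff i).coeff (b - 1 + r - r * i) ≠ 0) ∨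
    (∃ j : ℕ, 1 ≤ j ∧ (V.coeff j).coeff (-b - r * j) ≠ 0))

theorem exists_sel (U V : Polynomial (HahnSeries ℚ k)) (b : ℚ) (hU : 2 ≤ U.natDegree) :
    ∃ r, Sel U V b r := by
  classical
  set S1 : Finset ℚ := (U.support.filter (2 ≤ ·)).image (fun i => ((b - 1) - (U.coeff i).order) / ((i : ℚ) - 1)) with hS1
  set S2 : Finset ℚ := (V.support.filter (1 ≤ ·)).image (fun j => (-b - (V.coeff j).order) / (j : ℚ)) with hS2
  have hne : (S1 ∪ S2).Nonempty := by
    refine ⟨((b - 1) - (U.coeff U.natDegree).order) / ((U.natDegree : ℚ) - 1), ?_⟩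
    apply Finset.mem_union_left
    rw [hS1, Finset.mem_image]
    refine ⟨U.natDegree, ?_, rfl⟩
    rw [Finset.mem_filter]
    refine ⟨Polynomial.natDegree_mem_support_of_nonzero ?_, hU⟩
    rintro rfl
    simp at hU
  refine ⟨(S1 ∪ S2).max' hne, ?_, ?_, ?_⟩
  · intro i hi
    by_cases h0 : U.coeff i = 0
    · rw [h0]; exact Lb.zero _
    · have h1 : ((b - 1) - (U.coeff i).order) / ((i : ℚ) - 1) ≤ (S1 ∪ S2).max' hne := by
        apply Finset.le_max'
        apply Finset.mem_union_left
        rw [hS1, Finset.mem_image]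
        exact ⟨i, by rw [Finset.mem_filter, Polynomial.mem_support_iff]; exact ⟨h0, hi⟩, rfl⟩
      have hi' : (0 : ℚ) < (i : ℚ) - 1 := by
        have : (2 : ℚ) ≤ i := by exact_mod_cast hi
        linarith
      rw [div_le_iff₀ hi'] at h1
      exact (Lb_order _).mono (by nlinarith)
  · intro j hj
    by_cases h0 : V.coeff j = 0
    · rw [h0]; exact Lb.zero _
    · have h1 : (-b - (V.coeff j).order) / (j : ℚ) ≤ (S1 ∪ S2).max' hne := by
        apply Finset.le_max'
        apply Finset.mem_union_right
        rw [hS2, Finset.mem_image]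
        exact ⟨j, by rw [Finset.mem_filter, Polynomial.mem_support_iff]; exact ⟨h0, hj⟩, rfl⟩
      have hj' : (0 : ℚ) < (j : ℚ) := by exact_mod_cast hj
      rw [div_le_iff₀ hj'] at h1
      exact (Lb_order _).mono (by nlinarith)
  · rcases Finset.mem_union.1 (Finset.max'_mem _ hne) with h | h
    · left
      obtain ⟨i, hi, h1⟩ := Finset.mem_image.1 h
      rw [Finset.mem_filter, Polynomial.mem_support_iff] at hi
      refine ⟨i, hi.2, ?_⟩
      have hi' : (0 : ℚ) < (i : ℚ) - 1 := by
        have : (2 : ℚ) ≤ i := by exact_mod_cast hi.2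
        linarith
      rw [div_eq_iff hi'.ne'] at h1
      have h2 : b - 1 + (S1 ∪ S2).max' hne - (S1 ∪ S2).max' hne * i = (U.coeff i).order := by linarith
      rw [h2]
      exact HahnSeries.coeff_order_eq_zero.not.2 hi.1
    · right
      obtain ⟨j, hj, h1⟩ := Finset.mem_image.1 h
      rw [Finset.mem_filter, Polynomial.mem_support_iff] at hj
      refine ⟨j, hj.2, ?_⟩
      have hj' : (0 : ℚ) < (j : ℚ) := by exact_mod_cast hj.2
      rw [div_eq_iff hj'.ne'] at h1
      have h2 : -b - (S1 ∪ S2).max' hne * j = (V.coeff j).order := by linarith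
      rw [h2]
      exact HahnSeries.coeff_order_eq_zero.not.2 hj.1

variable [CharZero k]

/-- Consequences of the selection. -/
theorem sel_data (Y : HahnSeries ℚ k) (u v : MvPolynomial (Fin 2) k) (c : k) (hJ : Jb u v = 1)
    (hu : th Y u = HahnSeries.C c) (b r : ℚ) (hb : 0 < b) (hv0 : th Y v ≠ 0) (hv : (th Y v).order = -b)
    (hs : Sel (EY Y (u - C c)) (EY Y v) b r) :
    Lb (b - 1 + r) (EX r Y (u - C c)) ∧ Lb (-b) (EX r Y v) ∧
    ((EX r Y (u - C c)).coeff (b - 1 + r)).coeff 0 = 0 ∧
    ((EX r Y (u - C c)).coeff (b - 1 + r)).coeff 1 ≠ 0 ∧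
    ((EX r Y v).coeff (-b)).coeff 0 ≠ 0 ∧
    Polynomial.C ((1 - b - r : ℚ) : k) * (EX r Y (u - C c)).coeff (b - 1 + r) *
        Polynomial.derivative ((EX r Y v).coeff (-b)) -
      Polynomial.C ((b : ℚ) : k) * Polynomial.derivative ((EX r Y (u - C c)).coeff (b - 1 + r)) *
        (EX r Y v).coeff (-b) = 1 := by
  have hU0 : (EY Y (u - C c)).coeff 0 = 0 := by
    rw [← th_apply, map_sub, hu, th_C, sub_self]
  have hV0 : (EY Y v).coeff 0 = th Y v := (th_apply Y v).symm
  have hU1 : (EY Y (u - C c)).coeff 1 = th Y (pderiv 1 u) := by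
    rw [EY_coeff_one, map_sub, pderiv_C, sub_zero]
  have h1 := th_uy Y u v c hJ hu
  have hne1 : th Y (pderiv 1 u) ≠ 0 := by
    intro h
    rw [h, zero_mul] at h1
    have := congrArg (fun x => HahnSeries.coeff x (-1)) h1
    simp at this
  have hne2 : eul k (th Y v) ≠ 0 := by
    intro h
    rw [h, mul_zero] at h1
    have := congrArg (fun x => HahnSeries.coeff x (-1)) h1
    simp at this
  have hord2 : (eul k (th Y v)).order = -b := by
    apply order_eq_of
    · rw [← hv]; exact (Lb_order _).eul k
    · rw [eul_coeff]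
      apply mul_ne_zero
      · rw [Ne, map_eq_zero_iff _ (algebraMap k k).injective]
        exact_mod_cast (neg_ne_zero.2 hb.ne')
      · rw [← hv]; exact HahnSeries.coeff_order_eq_zero.not.2 hv0
  have hord1 : (th Y (pderiv 1 u)).order = b - 1 := by
    have h2 := HahnSeries.order_mul hne1 hne2
    rw [h1, HahnSeries.order_single one_ne_zero, hord2] at h2
    linarith
  have hLU : Lb (b - 1 + r) (EX r Y (u - C c)) := by
    rw [EX_apply, Lb_Ph_iff]
    intro i
    rcases i with _ | _ | i
    · rw [hU0]; exact Lb.zero _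
    · rw [zero_add, hU1]
      exact (Lb_order _).mono (by rw [hord1]; push_cast; linarith)
    · exact hs.1 (i + 2) (by omega)
  have hLV : Lb (-b) (EX r Y v) := by
    rw [EX_apply, Lb_Ph_iff]
    intro i
    rcases i with _ | i
    · rw [hV0]
      exact (Lb_order _).mono (by rw [hv]; push_cast; linarith)
    · exact hs.2.1 (i + 1) (by omega)
  have hp0 : ((EX r Y (u - C c)).coeff (b - 1 + r)).coeff 0 = 0 := by
    rw [EX_apply, Ph_coeff, hU0]; rfl
  have hp1 : ((EX r Y (u - C c)).coeff (b - 1 + r)).coeff 1 ≠ 0 := by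
    rw [EX_apply, Ph_coeff, hU1]
    have : b - 1 + r - r * ((1 : ℕ) : ℚ) = (th Y (pderiv 1 u)).order := by rw [hord1]; push_cast; ring
    rw [this]
    exact HahnSeries.coeff_order_eq_zero.not.2 hne1
  have hq0 : ((EX r Y v).coeff (-b)).coeff 0 ≠ 0 := by
    rw [EX_apply, Ph_coeff, hV0]
    have : -b - r * ((0 : ℕ) : ℚ) = (th Y v).order := by rw [hv]; push_cast; ring
    rw [this]
    exact HahnSeries.coeff_order_eq_zero.not.2 hv0
  refine ⟨hLU, hLV, hp0, hp1, hq0, ?_⟩
  have hJ' : Jb (u - C c) v = 1 := by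
    rw [← hJ]; simp [Jb]
  have h3 := EX_bracket r Y (u - C c) v
  rw [hJ', (EX r Y).map_one, mul_one] at h3
  have h4 := congrArg (fun x => HahnSeries.coeff x (b - 1 + r + -b)) h3
  simp only [HahnSeries.coeff_sub, HahnSeries.coeff_neg] at h4
  rw [(hLU.eul k).coeff_mul hLV.dxi, hLU.dxi.coeff_mul (hLV.eul k), eul_coeff, eul_coeff, dxi_coeff, dxi_coeff,
    HahnSeries.coeff_single, if_pos (by ring)] at h4
  have h5 : algebraMap k (Polynomial k) (((b - 1 + r : ℚ)) : k) = - Polynomial.C ((1 - b - r : ℚ) : k) := by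
    rw [← map_neg, Polynomial.algebraMap_eq]
    congr 1
    push_cast
    ring
  have h6 : algebraMap k (Polynomial k) (((-b : ℚ)) : k) = - Polynomial.C ((b : ℚ) : k) := by
    rw [← map_neg, Polynomial.algebraMap_eq]
    congr 1
    push_cast
    ring
  rw [h5, h6] at h4
  linear_combination -h4

/-- Degrees from the differential identity. -/
theorem deg_rel (p q : Polynomial k) (a b : ℚ)
    (hid : Polynomial.C ((a : ℚ) : k) * p * Polynomial.derivative q -
      Polynomial.C ((b : ℚ) : k) * Polynomial.derivative p * q = 1)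
    (hp : 1 ≤ p.natDegree) (hpq : 2 ≤ p.natDegree + q.natDegree) :
    a * q.natDegree = b * p.natDegree := by
  have hp0 : p ≠ 0 := by rintro rfl; simp at hp
  have hq0 : q ≠ 0 := by
    rintro rfl
    simp at hid
  have h1 := congrArg (fun x => Polynomial.coeff x (p.natDegree + q.natDegree - 1)) hid
  simp only [Polynomial.coeff_sub] at h1
  rw [Polynomial.coeff_one, if_neg (by omega), mul_assoc, mul_assoc, Polynomial.coeff_C_mul,
    Polynomial.coeff_C_mul] at h1
  have h2 : (p * Polynomial.derivative q).coeff (p.natDegree + q.natDegree - 1) =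
      (q.natDegree : k) * (p.leadingCoeff * q.leadingCoeff) := by
    rcases Nat.eq_zero_or_pos q.natDegree with h | h
    · rw [Polynomial.derivative_of_natDegree_zero h, h]; simp
    · have h3 : p.natDegree + q.natDegree - 1 = p.natDegree + (q.natDegree - 1) := by omega
      rw [h3, Polynomial.coeff_mul_add_eq_of_natDegree_le le_rfl (Polynomial.natDegree_derivative_le q),
        Polynomial.coeff_derivative, Nat.sub_add_cancel h]
      have h4 : ((q.natDegree - 1 : ℕ) : k) + 1 = q.natDegree := by
        rw [← Nat.cast_succ, Nat.succ_eq_add_one, Nat.sub_add_cancel h]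
      rw [h4, Polynomial.leadingCoeff, Polynomial.leadingCoeff]
      ring
  have h2' : (Polynomial.derivative p * q).coeff (p.natDegree + q.natDegree - 1) =
      (p.natDegree : k) * (p.leadingCoeff * q.leadingCoeff) := by
    have h3 : p.natDegree + q.natDegree - 1 = (p.natDegree - 1) + q.natDegree := by omega
    rw [h3, Polynomial.coeff_mul_add_eq_of_natDegree_le (Polynomial.natDegree_derivative_le p) le_rfl,
      Polynomial.coeff_derivative, Nat.sub_add_cancel hp]
    have h4 : ((p.natDegree - 1 : ℕ) : k) + 1 = p.natDegree := by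
      rw [← Nat.cast_succ, Nat.succ_eq_add_one, Nat.sub_add_cancel hp]
    rw [h4, Polynomial.leadingCoeff, Polynomial.leadingCoeff]
    ring
  rw [h2, h2'] at h1
  have h5 : p.leadingCoeff * q.leadingCoeff ≠ 0 :=
    mul_ne_zero (Polynomial.leadingCoeff_ne_zero.2 hp0) (Polynomial.leadingCoeff_ne_zero.2 hq0)
  have h6 : (((a * q.natDegree - b * p.natDegree : ℚ)) : k) * (p.leadingCoeff * q.leadingCoeff) = 0 := by
    push_cast
    linear_combination h1
  have h7 := (mul_eq_zero.1 h6).resolve_right h5
  have h8 : (a * q.natDegree - b * p.natDegree : ℚ) = 0 := by exact_mod_cast h7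
  linarith

/-- Data at the divisor `E`. -/
structure ED (u : MvPolynomial (Fin 2) k) (c : k) (Y : HahnSeries ℚ k) where
  r : ℚ
  a : ℚ
  b : ℚ
  p : Polynomial k
  q : Polynomial k
  v : MvPolynomial (Fin 2) k
  hJ : Jb u v = 1
  ha : 0 < a
  hb : 0 < b
  hab : a + b = 1 - r
  hU : Lb (-a) (EX r Y (u - C c))
  hp : (EX r Y (u - C c)).coeff (-a) = p
  hV : Lb (-b) (EX r Y v)
  hq : (EX r Y v).coeff (-b) = q
  hid : Polynomial.C ((a : ℚ) : k) * p * Polynomial.derivative q -
      Polynomial.C ((b : ℚ) : k) * Polynomial.derivative p * q = 1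
  hp0 : p.coeff 0 = 0
  hdeg : a * q.natDegree = b * p.natDegree
  hnon : ∀ N : ℤ, b ≠ N * a
  hth : th Y v ≠ 0 ∧ (th Y v).order = -b
  hd2 : 2 ≤ p.natDegree

theorem exists_ED_aux (Y : HahnSeries ℚ k) (u : MvPolynomial (Fin 2) k) (c : k)
    (hu : th Y u = HahnSeries.C c) (hdeg : 2 ≤ (EY Y (u - C c)).natDegree) (b : ℚ) (hb : 0 < b) (N : ℕ) :
    ∀ (v : MvPolynomial (Fin 2) k) (r : ℚ), Jb u v = 1 → th Y v ≠ 0 → (th Y v).order = -b →
      Sel (EY Y (u - C c)) (EY Y v) b r → (b = N * (1 - b - r) ∨ ∀ M : ℤ, b ≠ M * (1 - b - r)) →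
      Nonempty (ED u c Y) := by
  induction N using Nat.strong_induction_on with
  | _ N ih =>
  intro v r hJ hv0 hv hs hN
  obtain ⟨hLU, hLV, hp0, hp1, hq0, hid⟩ := sel_data Y u v c hJ hu b r hb hv0 hv hs
  set p := (EX r Y (u - C c)).coeff (b - 1 + r) with hpdef
  set q := (EX r Y v).coeff (-b) with hqdef
  have hpd : 1 ≤ p.natDegree := Polynomial.le_natDegree_of_ne_zero hp1
  have hpq : 2 ≤ p.natDegree + q.natDegree := by
    rcases hs.2.2 with ⟨i, hi, h⟩ | ⟨j, hj, h⟩
    · have : i ≤ p.natDegree := by
        apply Polynomial.le_natDegree_of_ne_zero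
        rw [hpdef, EX_apply, Ph_coeff]; exact h
      omega
    · have : j ≤ q.natDegree := by
        apply Polynomial.le_natDegree_of_ne_zero
        rw [hqdef, EX_apply, Ph_coeff]; exact h
      omega
  have hrel := deg_rel p q (1 - b - r) b hid hpd hpq
  have hppos : (0 : ℚ) < p.natDegree := by exact_mod_cast hpd
  have hapos : 0 < 1 - b - r := by
    by_contra h
    push Not at h
    have h1 : (1 - b - r) * q.natDegree ≤ 0 := mul_nonpos_of_nonpos_of_nonneg h (by positivity)
    have h2 := mul_pos hb hppos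
    linarith
  rcases hN with hN | hN
  swap
  · refine ⟨⟨r, 1 - b - r, b, p, q, v, hJ, hapos, hb, by ring, ?_, ?_, hLV, rfl, hid, hp0, hrel, hN,
      ⟨hv0, hv⟩, ?_⟩⟩
    · rw [show -(1 - b - r) = b - 1 + r by ring]; exact hLU
    · rw [show -(1 - b - r) = b - 1 + r by ring]
    · by_contra h
      have h1 : p.natDegree = 1 := by omega
      rw [h1] at hrel
      apply hN (q.natDegree : ℤ)
      push_cast
      push_cast at hrel
      linarith
  · -- the integral case: improve `v`
    have hNpos : 0 < N := by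
      rcases Nat.eq_zero_or_pos N with h | h
      · rw [h] at hN; push_cast at hN; linarith
      · exact h
    have hdq : q.natDegree = N * p.natDegree := by
      have h1 : (1 - b - r) * q.natDegree = (1 - b - r) * (N * p.natDegree) := by
        rw [hrel]; nth_rewrite 1 [hN]; ring
      have h2 := mul_left_cancel₀ hapos.ne' h1
      exact_mod_cast h2
    set κ : k := q.leadingCoeff / p.leadingCoeff ^ N with hκ
    have hp00 : p ≠ 0 := by intro h; rw [h] at hpd; simp at hpd
    set v' : MvPolynomial (Fin 2) k := v - C κ * (u - C c) ^ N with hv'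
    have hJ' : Jb u v' = 1 := by
      rw [← hJ, hv', Jb, Jb, map_sub, map_sub, Derivation.leibniz, Derivation.leibniz, Derivation.leibniz_pow,
        Derivation.leibniz_pow]
      simp only [map_sub, pderiv_C, smul_zero, add_zero, smul_eq_mul, sub_zero, nsmul_eq_mul]
      ring
    have hth' : th Y v' = th Y v := by
      rw [hv', map_sub, map_mul, map_pow, map_sub, hu, th_C, th_C, sub_self, zero_pow hNpos.ne', mul_zero, sub_zero]
    obtain ⟨r', hr'⟩ := exists_sel (EY Y (u - C c)) (EY Y v') b hdeg
    -- at the slope r nothing is tied for (u, v')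
    have hEX : EX r Y v' = EX r Y v - HahnSeries.C (Polynomial.C κ) * (EX r Y (u - C c)) ^ N := by
      rw [hv', map_sub, map_mul, map_pow, EX_C]
    have hLp := hLU.pow N
    have hNb : (N : ℚ) * (b - 1 + r) = -b := by
      nth_rewrite 2 [hN]; ring
    rw [hNb] at hLp
    have hLV' : Lb (-b) (EX r Y v') := by
      rw [hEX]
      apply hLV.sub
      have := (Lb_C (Polynomial.C κ)).mul hLp
      rwa [zero_add] at this
    have hq' : (EX r Y v').coeff (-b) = q - Polynomial.C κ * p ^ N := by
      rw [hEX, HahnSeries.coeff_sub]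
      congr 1
      rw [HahnSeries.C_apply, HahnSeries.coeff_single_zero_mul]
      congr 1
      have := hLU.coeff_pow N
      rw [hNb] at this
      rw [this]
    have hid' : Polynomial.C ((1 - b - r : ℚ) : k) * p * Polynomial.derivative ((EX r Y v').coeff (-b)) -
      Polynomial.C ((b : ℚ) : k) * Polynomial.derivative p * (EX r Y v').coeff (-b) = 1 := by
      have h3 := EX_bracket r Y (u - C c) v'
      have hJ'' : Jb (u - C c) v' = 1 := by
        rw [← hJ']; simp [Jb]
      rw [hJ'', (EX r Y).map_one, mul_one] at h3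
      have h4 := congrArg (fun x => HahnSeries.coeff x (b - 1 + r + -b)) h3
      simp only [HahnSeries.coeff_sub, HahnSeries.coeff_neg] at h4
      rw [(hLU.eul k).coeff_mul hLV'.dxi, hLU.dxi.coeff_mul (hLV'.eul k), eul_coeff, eul_coeff, dxi_coeff,
        dxi_coeff, HahnSeries.coeff_single, if_pos (by ring)] at h4
      have h5 : algebraMap k (Polynomial k) (((b - 1 + r : ℚ)) : k) = - Polynomial.C ((1 - b - r : ℚ) : k) := by
        rw [← map_neg, Polynomial.algebraMap_eq]
        congr 1
        push_cast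
        ring
      have h6 : algebraMap k (Polynomial k) (((-b : ℚ)) : k) = - Polynomial.C ((b : ℚ) : k) := by
        rw [← map_neg, Polynomial.algebraMap_eq]
        congr 1
        push_cast
        ring
      rw [h5, h6] at h4
      linear_combination -h4
    have hlt : ((EX r Y v').coeff (-b)).natDegree < q.natDegree := by
      rw [hq']
      have hq00 : q ≠ 0 := by intro h; rw [h] at hq0; simp at hq0
      have hdpos : 0 < q.natDegree := by rw [hdq]; positivity
      have hκ0 : κ ≠ 0 := by
        rw [hκ]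
        exact div_ne_zero (Polynomial.leadingCoeff_ne_zero.2 hq00)
          (pow_ne_zero _ (Polynomial.leadingCoeff_ne_zero.2 hp00))
      have hd1 : (Polynomial.C κ * p ^ N).natDegree = q.natDegree := by
        rw [Polynomial.natDegree_C_mul hκ0, Polynomial.natDegree_pow, hdq]
      have hne : Polynomial.C κ * p ^ N ≠ 0 :=
        mul_ne_zero (Polynomial.C_ne_zero.2 hκ0) (pow_ne_zero _ hp00)
      have hlc : q.leadingCoeff = (Polynomial.C κ * p ^ N).leadingCoeff := by
        rw [Polynomial.leadingCoeff_mul, Polynomial.leadingCoeff_C, Polynomial.leadingCoeff_pow, hκ,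
          div_mul_cancel₀]
        exact pow_ne_zero _ (Polynomial.leadingCoeff_ne_zero.2 hp00)
      by_cases h0 : q - Polynomial.C κ * p ^ N = 0
      · rw [h0]; simpa using hdpos
      · apply Polynomial.natDegree_lt_natDegree h0
        apply Polynomial.degree_sub_lt_left _ hq00 hlc
        rw [Polynomial.degree_eq_natDegree hq00, Polynomial.degree_eq_natDegree hne, hd1]
    have hsmall : p.natDegree = 1 ∧ ((EX r Y v').coeff (-b)).natDegree = 0 := by
      by_contra hcon
      have h2 : 2 ≤ p.natDegree + ((EX r Y v').coeff (-b)).natDegree := by omega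
      have h3 := deg_rel p _ (1 - b - r) b hid' hpd h2
      rw [← hrel] at h3
      have h4 := mul_left_cancel₀ hapos.ne' h3
      have h5 : ((EX r Y v').coeff (-b)).natDegree = q.natDegree := by exact_mod_cast h4
      omega
    have hrr : r' < r := by
      by_contra hcon
      push Not at hcon
      rcases hr'.2.2 with ⟨i, hi, h⟩ | ⟨j, hj, h⟩
      · have hi' : (0 : ℚ) < (i : ℚ) - 1 := by
          have : (2 : ℚ) ≤ i := by exact_mod_cast hi
          linarith
        rcases lt_or_eq_of_le hcon with h1 | h1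
        · apply h
          apply hs.1 i hi
          nlinarith
        · rw [← h1] at h
          have h2 : p.coeff i = 0 := Polynomial.coeff_eq_zero_of_natDegree_lt (by omega)
          rw [hpdef, EX_apply, Ph_coeff] at h2
          exact h h2
      · have hj' : (0 : ℚ) < (j : ℚ) := by exact_mod_cast hj
        have hLV'' := (Lb_Ph_iff r (-b) (EY Y v')).1 (by rw [← EX_apply]; exact hLV') j
        rcases lt_or_eq_of_le hcon with h1 | h1
        · apply h
          apply hLV''
          nlinarith
        · rw [← h1] at h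
          have h2 : ((EX r Y v').coeff (-b)).coeff j = 0 := Polynomial.coeff_eq_zero_of_natDegree_lt (by omega)
          rw [EX_apply, Ph_coeff] at h2
          exact h h2
    by_cases hM : ∀ M : ℤ, b ≠ M * (1 - b - r')
    · exact ih 0 hNpos v' r' hJ' (by rw [hth']; exact hv0) (by rw [hth']; exact hv) hr' (Or.inr hM)
    · push Not at hM
      obtain ⟨M, hM⟩ := hM
      have ha' : 0 < 1 - b - r' := by linarith
      have hMpos : 0 < M := by
        by_contra h
        push Not at h
        have h1 : (M : ℚ) ≤ 0 := by exact_mod_cast h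
        nlinarith
      obtain ⟨M', rfl⟩ := Int.eq_ofNat_of_zero_le hMpos.le
      have hlt' : M' < N := by
        by_contra h
        push Not at h
        have h1 : (N : ℚ) ≤ (M' : ℚ) := by exact_mod_cast h
        have h2 : b = (M' : ℚ) * (1 - b - r') := by exact_mod_cast hM
        have h3 : (0 : ℚ) < N := by exact_mod_cast hNpos
        have h4 : (N : ℚ) * (1 - b - r) < M' * (1 - b - r') := by
          calc (N : ℚ) * (1 - b - r) < N * (1 - b - r') := by
                apply mul_lt_mul_of_pos_left _ h3; linarith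
            _ ≤ M' * (1 - b - r') := mul_le_mul_of_nonneg_right h1 ha'.le
        linarith
      exact ih M' hlt' v' r' hJ' (by rw [hth']; exact hv0) (by rw [hth']; exact hv) hr'
        (Or.inl (by exact_mod_cast hM))

theorem exists_ED (Y : HahnSeries ℚ k) (u v : MvPolynomial (Fin 2) k) (c : k)
    (hu : th Y u = HahnSeries.C c) (hdeg : 2 ≤ (EY Y (u - C c)).natDegree) (hJ : Jb u v = 1)
    (hv : ¬ Lb 0 (th Y v)) : Nonempty (ED u c Y) := by
  have hv0 : th Y v ≠ 0 := by
    intro h; apply hv; rw [h]; exact Lb.zero _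
  have hb : 0 < -(th Y v).order := by
    by_contra h
    push Not at h
    apply hv
    exact (Lb_order _).mono (by linarith)
  obtain ⟨r, hr⟩ := exists_sel (EY Y (u - C c)) (EY Y v) (-(th Y v).order) hdeg
  by_cases hM : ∀ M : ℤ, -(th Y v).order ≠ M * (1 - -(th Y v).order - r)
  · exact exists_ED_aux Y u c hu hdeg _ hb 0 v r hJ hv0 (by ring) hr (Or.inr hM)
  · push Not at hM
    obtain ⟨M, hM⟩ := hM
    -- positivity of a
    obtain ⟨hLU, hLV, hp0, hp1, hq0, hid⟩ := sel_data Y u v c hJ hu _ r hb hv0 (by ring) hr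
    have hpd : 1 ≤ ((EX r Y (u - C c)).coeff (-(th Y v).order - 1 + r)).natDegree :=
      Polynomial.le_natDegree_of_ne_zero hp1
    have hpq : 2 ≤ ((EX r Y (u - C c)).coeff (-(th Y v).order - 1 + r)).natDegree +
        ((EX r Y v).coeff (-(-(th Y v).order))).natDegree := by
      rcases hr.2.2 with ⟨i, hi, h⟩ | ⟨j, hj, h⟩
      · have : i ≤ ((EX r Y (u - C c)).coeff (-(th Y v).order - 1 + r)).natDegree := by
          apply Polynomial.le_natDegree_of_ne_zero
          rw [EX_apply, Ph_coeff]; exact h
        omega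
      · have : j ≤ ((EX r Y v).coeff (-(-(th Y v).order))).natDegree := by
          apply Polynomial.le_natDegree_of_ne_zero
          rw [EX_apply, Ph_coeff]; exact h
        omega
    have hrel := deg_rel _ _ _ _ hid hpd hpq
    have hppos : (0 : ℚ) < ((EX r Y (u - C c)).coeff (-(th Y v).order - 1 + r)).natDegree := by
      exact_mod_cast hpd
    have hapos : 0 < 1 - -(th Y v).order - r := by
      by_contra h
      push Not at h
      have h1 := mul_nonpos_of_nonpos_of_nonneg h
        (show (0 : ℚ) ≤ (((EX r Y v).coeff (-(-(th Y v).order))).natDegree : ℚ) by positivity)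
      have h2 := mul_pos hb hppos
      linarith
    have hMpos : 0 < M := by
      by_contra h
      push Not at h
      have h1 : (M : ℚ) ≤ 0 := by exact_mod_cast h
      nlinarith
    obtain ⟨M', rfl⟩ := Int.eq_ofNat_of_zero_le hMpos.le
    exact exists_ED_aux Y u c hu hdeg _ hb M' v r hJ hv0 (by ring) hr (Or.inl (by exact_mod_cast hM))

end

end Pool.Agent.H922R2.R
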