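import Mathlib
import Pool.Agent.H922R2.R3

set_option autoImplicit false
set_option linter.unusedSectionVars false
set_option linter.style.haveILetI false

open MvPolynomial

namespace Pool.Agent.H922R2.R

open Pool.Agent.H922R2 (IsDer)
open Pool.Agent.Helper165.P1 (HQ Pui divHom divHom_injective divHom_le eHom exists_common)

section hensel

variable {R : Type*} [CommRing R]

/-- Hensel's lemma for formal power series and polynomials that need not be monic. -/
theorem ps_hensel (G : Polynomial (PowerSeries R)) (ρ w : R)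
    (h0 : PowerSeries.constantCoeff (R := R) (G.eval (PowerSeries.C ρ)) = 0)
    (h1 : w * PowerSeries.constantCoeff (R := R) (G.derivative.eval (PowerSeries.C ρ)) = 1) :
    ∃ Ξ : PowerSeries R, PowerSeries.constantCoeff (R := R) Ξ = ρ ∧ G.eval Ξ = 0 := by
  classical
  let N : PowerSeries R → PowerSeries R := fun x => x - PowerSeries.C w * G.eval x
  let f : ℕ → PowerSeries R := fun n => N^[n] (PowerSeries.C ρ)
  have hf0 : f 0 = PowerSeries.C ρ := rfl
  have hfs : ∀ n, f (n + 1) = N (f n) := fun n => Function.iterate_succ_apply' N n _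
  have hcong : ∀ (H : Polynomial (PowerSeries R)) (x y : PowerSeries R), x - y ∣ H.eval x - H.eval y :=
    fun H x y => Polynomial.sub_dvd_eval_sub x y H
  have hρ : ∀ (H : Polynomial (PowerSeries R)) (x : PowerSeries R), PowerSeries.constantCoeff (R := R) x = ρ →
      PowerSeries.constantCoeff (R := R) (H.eval x) = PowerSeries.constantCoeff (R := R) (H.eval (PowerSeries.C ρ)) := by
    intro H x hx
    obtain ⟨c, hc⟩ := hcong H x (PowerSeries.C ρ)
    have := congrArg (PowerSeries.constantCoeff (R := R)) hc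
    rw [map_sub, map_mul, map_sub, hx, PowerSeries.constantCoeff_C, sub_self, zero_mul] at this
    exact sub_eq_zero.1 this
  have hcc : ∀ n, PowerSeries.constantCoeff (R := R) (f n) = ρ := by
    intro n
    induction n with
    | zero => rw [hf0, PowerSeries.constantCoeff_C]
    | succ n ih =>
      rw [hfs]
      change PowerSeries.constantCoeff (R := R) (f n - PowerSeries.C w * G.eval (f n)) = ρ
      rw [map_sub, map_mul, hρ G (f n) ih, h0, mul_zero, sub_zero, ih]
  -- contraction
  have hcontr : ∀ (x y : PowerSeries R) (n : ℕ), PowerSeries.constantCoeff (R := R) x = ρ →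
      PowerSeries.constantCoeff (R := R) y = ρ → PowerSeries.X ^ n ∣ x - y →
      PowerSeries.X ^ (n + 1) ∣ N x - N y := by
    intro x y n hx hy hxy
    obtain ⟨k', hk'⟩ := Polynomial.binomExpansion G y (x - y)
    rw [add_sub_cancel] at hk'
    have h2 : N x - N y = (x - y) * (1 - PowerSeries.C w * G.derivative.eval y - PowerSeries.C w * k' * (x - y)) := by
      change x - PowerSeries.C w * G.eval x - (y - PowerSeries.C w * G.eval y) = _
      rw [hk']
      ring
    rw [h2, pow_succ]
    apply mul_dvd_mul hxy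
    rw [PowerSeries.X_dvd_iff, map_sub, map_sub, map_mul, map_mul, map_sub, map_one, hx, hy, sub_self, mul_zero,
      sub_zero, hρ _ y hy, PowerSeries.constantCoeff_C, h1, sub_self]
  have hstep : ∀ n, PowerSeries.X ^ n ∣ f (n + 1) - f n := by
    intro n
    induction n with
    | zero => simp
    | succ n ih =>
      rw [hfs (n + 1), hfs n]
      have := hcontr (f (n + 1)) (f n) n (hcc _) (hcc _) ih
      rwa [hfs n] at this
  have hst : ∀ n m, n ≤ m → PowerSeries.X ^ n ∣ f m - f n := by
    intro n m hnm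
    induction m, hnm using Nat.le_induction with
    | base => simp
    | succ m hm ih =>
      have h3 : f (m + 1) - f n = (f (m + 1) - f m) + (f m - f n) := by ring
      rw [h3]
      exact dvd_add ((pow_dvd_pow _ hm).trans (hstep m)) ih
  let Ξ : PowerSeries R := PowerSeries.mk fun n => PowerSeries.coeff n (f (n + 1))
  have hΞ : ∀ n, PowerSeries.X ^ n ∣ Ξ - f n := by
    intro n
    rw [PowerSeries.X_pow_dvd_iff]
    intro m hm
    rw [map_sub, PowerSeries.coeff_mk]
    have h4 := (PowerSeries.X_pow_dvd_iff.1 (hst (m + 1) n hm)) m (Nat.lt_succ_self m)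
    rw [map_sub] at h4
    rw [sub_eq_zero] at h4 ⊢
    exact h4.symm
  have hΞ0 : PowerSeries.constantCoeff (R := R) Ξ = ρ := by
    have h5 := hΞ 1
    rw [pow_one, PowerSeries.X_dvd_iff, map_sub, hcc, sub_eq_zero] at h5
    exact h5
  refine ⟨Ξ, hΞ0, ?_⟩
  have hG : ∀ n, PowerSeries.X ^ n ∣ G.eval Ξ := by
    intro n
    have h6 : PowerSeries.X ^ n ∣ G.eval (f n) := by
      have h7 := hstep n
      rw [hfs] at h7
      have h8 : N (f n) - f n = -(PowerSeries.C w * G.eval (f n)) := by
        change f n - PowerSeries.C w * G.eval (f n) - f n = _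
        ring
      rw [h8, dvd_neg] at h7
      have h9 : G.eval (f n) = PowerSeries.C (PowerSeries.constantCoeff (R := R)
          (G.derivative.eval (PowerSeries.C ρ))) * (PowerSeries.C w * G.eval (f n)) := by
        rw [← mul_assoc, ← map_mul, mul_comm (PowerSeries.constantCoeff (R := R) _), h1, map_one, one_mul]
      rw [h9]
      exact h7.mul_left _
    have h10 : G.eval Ξ = (G.eval Ξ - G.eval (f n)) + G.eval (f n) := by ring
    rw [h10]
    exact dvd_add ((hΞ n).trans (hcong G _ _)) h6
  ext n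
  have := (PowerSeries.X_pow_dvd_iff.1 (hG (n + 1))) n (Nat.lt_succ_self n)
  rw [this, map_zero]

end hensel

section transport

variable {R S : Type*} [CommRing R] [CommRing S]

/-- `z ↦ t^{1/M}` on Laurent series -/
noncomputable def tL (R : Type*) [CommRing R] (M : ℕ) (hM : 0 < M) : HahnSeries ℤ R →+* HahnSeries ℚ R :=
  HahnSeries.embDomainRingHom (divHom M) (divHom_injective M hM) (divHom_le M hM)

theorem tL_coeff (M : ℕ) (hM : 0 < M) (x : HahnSeries ℤ R) (n : ℤ) :
    (tL R M hM x).coeff ((n : ℚ) / M) = x.coeff n := by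
  unfold tL
  rw [HahnSeries.embDomainRingHom_apply]
  exact HahnSeries.embDomain_coeff (a := n)

theorem tL_coeff_of_ne (M : ℕ) (hM : 0 < M) (x : HahnSeries ℤ R) (q : ℚ)
    (h : ∀ n : ℤ, (n : ℚ) / M ≠ q) : (tL R M hM x).coeff q = 0 := by
  unfold tL
  rw [HahnSeries.embDomainRingHom_apply]
  apply HahnSeries.embDomain_of_notMem_range
  rintro ⟨a, ha⟩
  exact h a ha

theorem tL_single (M : ℕ) (hM : 0 < M) (n : ℤ) (r : R) :
    tL R M hM (HahnSeries.single n r) = HahnSeries.single ((n : ℚ) / M) r := by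
  unfold tL
  rw [HahnSeries.embDomainRingHom_apply]
  erw [HahnSeries.embDomain_single]
  rfl

/-- `z ↦ t^{1/M}` on power series -/
noncomputable def tP (R : Type*) [CommRing R] (M : ℕ) (hM : 0 < M) : PowerSeries R →+* HahnSeries ℚ R :=
  (tL R M hM).comp (HahnSeries.ofPowerSeries ℤ R)

theorem tP_Lb (M : ℕ) (hM : 0 < M) (x : PowerSeries R) : Lb 0 (tP R M hM x) := by
  intro q hq
  by_cases h : ∃ n : ℤ, (n : ℚ) / M = q
  · obtain ⟨n, rfl⟩ := h
    rw [tP, RingHom.comp_apply, tL_coeff, HahnSeries.ofPowerSeries_apply]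
    apply HahnSeries.embDomain_notin_image_support
    rintro ⟨l, _, hl⟩
    have h1 : (l : ℤ) = n := hl
    rw [← h1] at hq
    have : (0 : ℚ) ≤ ((l : ℤ) : ℚ) / M := by positivity
    linarith
  · push Not at h
    rw [tP, RingHom.comp_apply]
    exact tL_coeff_of_ne M hM _ q h

theorem tP_coeff_zero (M : ℕ) (hM : 0 < M) (x : PowerSeries R) :
    (tP R M hM x).coeff 0 = PowerSeries.constantCoeff (R := R) x := by
  have h := tL_coeff M hM (HahnSeries.ofPowerSeries ℤ R x) 0
  rw [Int.cast_zero, zero_div] at h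
  rw [tP, RingHom.comp_apply, h]
  have := HahnSeries.ofPowerSeries_apply_coeff (Γ := ℤ) x 0
  rw [Nat.cast_zero] at this
  rw [this]
  simp

theorem tP_coeff (M : ℕ) (hM : 0 < M) (x : PowerSeries R) (n : ℕ) :
    (tP R M hM x).coeff ((n : ℚ) / M) = PowerSeries.coeff n x := by
  have h := tL_coeff M hM (HahnSeries.ofPowerSeries ℤ R x) n
  rw [tP, RingHom.comp_apply]
  have h2 : ((n : ℤ) : ℚ) = (n : ℚ) := by push_cast; rfl
  rw [h2] at h
  rw [h]
  exact HahnSeries.ofPowerSeries_apply_coeff (Γ := ℤ) x n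

theorem tP_C (M : ℕ) (hM : 0 < M) (r : R) : tP R M hM (PowerSeries.C r) = HahnSeries.C r := by
  rw [tP, RingHom.comp_apply, HahnSeries.ofPowerSeries_C, HahnSeries.C_apply, tL_single]
  simp [HahnSeries.C_apply]

theorem tP_X_pow (M : ℕ) (hM : 0 < M) (A : ℕ) :
    tP R M hM (PowerSeries.X ^ A) = HahnSeries.single ((A : ℚ) / M) 1 := by
  rw [map_pow, tP, RingHom.comp_apply, HahnSeries.ofPowerSeries_X, tL_single, HahnSeries.single_pow, one_pow,
    nsmul_eq_mul]
  congr 1
  push_cast
  ring_nf

theorem tP_map (M : ℕ) (hM : 0 < M) (f : R →+* S) (x : PowerSeries R) :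
    tP S M hM (PowerSeries.map f x) = hmap f (tP R M hM x) := by
  ext q
  rw [hmap_coeff]
  by_cases h : ∃ n : ℤ, (n : ℚ) / M = q
  · obtain ⟨n, rfl⟩ := h
    rcases le_or_gt 0 n with h0 | h0
    · obtain ⟨m, rfl⟩ := Int.eq_ofNat_of_zero_le h0
      have h2 : (((m : ℕ) : ℤ) : ℚ) = (m : ℚ) := by push_cast; rfl
      rw [h2, tP_coeff, tP_coeff, PowerSeries.coeff_map]
    · have hneg : (n : ℚ) / M < 0 := by
        apply div_neg_of_neg_of_pos
        · exact_mod_cast h0
        · exact_mod_cast hM
      rw [tP_Lb M hM _ _ hneg, tP_Lb M hM _ _ hneg, map_zero]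
  · push Not at h
    rw [tP, tP, RingHom.comp_apply, RingHom.comp_apply, tL_coeff_of_ne M hM _ q h, tL_coeff_of_ne M hM _ q h, map_zero]

end transport

end Pool.Agent.H922R2.R
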