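import Mathlib
import Pool.Agent.H922R2.R4

set_option autoImplicit false
set_option linter.unusedSectionVars false
set_option linter.style.haveILetI false

open MvPolynomial

namespace Pool.Agent.H922R2.R

open Pool.Agent.H922R2 (IsDer)
open Pool.Agent.Helper165.P1 (HQ Pui divHom divHom_injective divHom_le eHom exists_common eHom_mem eHom_coeff_of_ne)

section

variable {k : Type*} [Field k]

theorem tL_eq_eHom (M : ℕ) (hM : 0 < M) (x : HahnSeries ℤ k) : tL k M hM x = eHom M hM x := rfl

theorem single_mem_Pui' (q : ℚ) (a : k) : (HahnSeries.single q a : HQ k) ∈ Pui k := by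
  have h := eHom_mem (E := k) q.den q.pos (HahnSeries.single q.num a)
  rw [← tL_eq_eHom, tL_single] at h
  rwa [Rat.num_div_den] at h

theorem EY_mem (Y : HahnSeries ℚ k) (hY : Y ∈ Pui k) (f : MvPolynomial (Fin 2) k) (i : ℕ) :
    (EY Y f).coeff i ∈ Pui k := by
  have h1 : EY Y f ∈ Polynomial.lifts (Pui k).subtype := by
    induction f using MvPolynomial.induction_on with
    | C a =>
      rw [EY_C]
      exact Polynomial.C'_mem_lifts ⟨⟨HahnSeries.C a, single_mem_Pui' 0 a⟩, rfl⟩
    | add p q hp hq => rw [map_add]; exact add_mem hp hq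
    | mul_X p i hp =>
      rw [map_mul]
      apply mul_mem hp
      fin_cases i
      · change EY Y (X 0) ∈ _
        rw [EY_X0]
        exact Polynomial.C'_mem_lifts ⟨⟨HahnSeries.single (-1) 1, single_mem_Pui' (-1) 1⟩, rfl⟩
      · change EY Y (X 1) ∈ _
        rw [EY_X1]
        exact add_mem (Polynomial.C'_mem_lifts ⟨⟨Y, hY⟩, rfl⟩) (Polynomial.X_mem_lifts _)
  rw [Polynomial.lifts_iff_coeff_lifts] at h1
  obtain ⟨x, hx⟩ := h1 i
  rw [← hx]
  exact x.2

variable [CharZero k]

theorem exists_root {u : MvPolynomial (Fin 2) k} {c : k} {Y : HahnSeries ℚ k} (e : ED u c Y) (hY : Y ∈ Pui k)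
    (ρ : k) (hρ : e.p.eval ρ = 0) (hρ' : e.p.derivative.eval ρ ≠ 0) :
    ∃ Ξ : HahnSeries ℚ (Polynomial k), Lb 0 Ξ ∧ Ξ.coeff 0 = Polynomial.C ρ ∧
      evX e.r Ξ (EY Y (u - C c)) = HahnSeries.C (Polynomial.X - Polynomial.C c) := by
  classical
  set U := EY Y (u - C c) with hU
  have hLb : ∀ i : ℕ, Lb (-e.a - e.r * i) (U.coeff i) := by
    have := e.hU
    rw [EX_apply, Lb_Ph_iff] at this
    exact this
  have hpc : ∀ i : ℕ, e.p.coeff i = (U.coeff i).coeff (-e.a - e.r * i) := by
    intro i
    rw [← e.hp, EX_apply, Ph_coeff]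
  let G : ℕ → Pui k := fun i => ⟨HahnSeries.single (e.a + e.r * i) 1 * U.coeff i,
    mul_mem (single_mem_Pui' _ _) (EY_mem Y hY _ i)⟩
  let T : Pui k := ⟨HahnSeries.single e.a 1, single_mem_Pui' _ _⟩
  obtain ⟨M, hM, hcomm⟩ := exists_common (insert T ((Finset.range (U.natDegree + 1)).image G))
  have hGL : ∀ i, Lb 0 ((G i : Pui k) : HQ k) := by
    intro i
    have := (Lb_single (e.a + e.r * i) (1 : k)).mul (hLb i)
    rw [show e.a + e.r * i + (-e.a - e.r * i) = 0 by ring] at this
    exact this
  have hG0 : ∀ i, ((G i : Pui k) : HQ k).coeff 0 = e.p.coeff i := by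
    intro i
    have := (Lb_single (e.a + e.r * i) (1 : k)).coeff_mul (hLb i)
    rw [show e.a + e.r * i + (-e.a - e.r * i) = 0 by ring, HahnSeries.coeff_single, if_pos rfl, one_mul] at this
    rw [hpc]
    exact this
  have hγ : ∀ i, ∃ γ : PowerSeries k, i ≤ U.natDegree → tP k M hM γ = ((G i : Pui k) : HQ k) := by
    intro i
    by_cases hi : i ≤ U.natDegree
    · obtain ⟨y, hy⟩ := hcomm (G i) (Finset.mem_insert_of_mem (Finset.mem_image.2 ⟨i, by
        rw [Finset.mem_range]; omega, rfl⟩))
      obtain ⟨γ, hγ⟩ := Pool.Agent.Helper165.P1.NP.mem_range_ofPowerSeries y (by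
        intro n hn
        rw [← tL_coeff M hM y n, tL_eq_eHom, hy]
        apply hGL i
        apply div_neg_of_neg_of_pos
        · exact_mod_cast hn
        · exact_mod_cast hM)
      refine ⟨γ, fun _ => ?_⟩
      rw [tP, RingHom.comp_apply, hγ, tL_eq_eHom, hy]
    · exact ⟨0, fun h => absurd h hi⟩
  choose γ hγ using hγ
  obtain ⟨A, hA⟩ : ∃ A : ℕ, e.a = (A : ℚ) / M := by
    obtain ⟨y, hy⟩ := hcomm T (Finset.mem_insert_self _ _)
    by_contra hcon
    push Not at hcon
    have h1 : (eHom (E := k) M hM y).coeff e.a = 0 := by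
      apply eHom_coeff_of_ne
      intro n hn
      have hn0 : 0 ≤ n := by
        by_contra h
        push Not at h
        have h2 : (n : ℚ) / M < 0 := by
          apply div_neg_of_neg_of_pos
          · exact_mod_cast h
          · exact_mod_cast hM
        have := e.ha
        linarith
      obtain ⟨m, rfl⟩ := Int.eq_ofNat_of_zero_le hn0
      apply hcon m
      rw [← hn]
      push_cast
      rfl
    rw [hy] at h1
    have h2 : ((T : Pui k) : HQ k).coeff e.a = 1 := by
      change (HahnSeries.single e.a (1 : k)).coeff e.a = 1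
      rw [HahnSeries.coeff_single, if_pos rfl]
    rw [h2] at h1
    exact one_ne_zero h1
  have hApos : A ≠ 0 := by
    rintro rfl
    have := e.ha
    rw [hA] at this
    simp at this
  set Γk : Polynomial (PowerSeries k) := ∑ i ∈ Finset.range (U.natDegree + 1), Polynomial.monomial i (γ i) with hΓk
  have hΓc : Γk.map (PowerSeries.constantCoeff (R := k)) = e.p := by
    ext i
    rw [Polynomial.coeff_map, hΓk, Polynomial.finsetSum_coeff]
    simp only [Polynomial.coeff_monomial]
    by_cases hi : i ≤ U.natDegree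
    · rw [Finset.sum_ite_eq' (Finset.range (U.natDegree + 1)) i, if_pos (by rw [Finset.mem_range]; omega),
        ← tP_coeff_zero M hM, hγ i hi, hG0]
    · rw [Finset.sum_ite_eq' (Finset.range (U.natDegree + 1)) i, if_neg (by rw [Finset.mem_range]; omega),
        map_zero, hpc, Polynomial.coeff_eq_zero_of_natDegree_lt (by omega)]
      rfl
  set Γ : Polynomial (PowerSeries (Polynomial k)) := Γk.map (PowerSeries.map Polynomial.C) -
    Polynomial.C (PowerSeries.C (Polynomial.X - Polynomial.C c) * PowerSeries.X ^ A) with hΓ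
  have hcc : (PowerSeries.constantCoeff (R := Polynomial k)).comp (PowerSeries.map (Polynomial.C (R := k))) =
      (Polynomial.C (R := k)).comp (PowerSeries.constantCoeff (R := k)) := by
    ext1 x
    rw [RingHom.comp_apply, RingHom.comp_apply, ← PowerSeries.coeff_zero_eq_constantCoeff_apply,
      ← PowerSeries.coeff_zero_eq_constantCoeff_apply, PowerSeries.coeff_map]
  have heval : ∀ F : Polynomial (PowerSeries (Polynomial k)), ∀ z : Polynomial k,
      PowerSeries.constantCoeff (R := Polynomial k) (F.eval (PowerSeries.C z)) =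
        (F.map (PowerSeries.constantCoeff (R := Polynomial k))).eval z := by
    intro F z
    rw [Polynomial.eval_map, Polynomial.eval, Polynomial.hom_eval₂, RingHom.comp_id, PowerSeries.constantCoeff_C]
  have hGm : Γ.map (PowerSeries.constantCoeff (R := Polynomial k)) = e.p.map Polynomial.C := by
    rw [hΓ, Polynomial.map_sub, Polynomial.map_map, hcc, ← Polynomial.map_map, hΓc, Polynomial.map_C, map_mul,
      map_pow, PowerSeries.constantCoeff_X, zero_pow hApos, mul_zero, map_zero, sub_zero]
  have hGm' : Γ.derivative.map (PowerSeries.constantCoeff (R := Polynomial k)) =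
      e.p.derivative.map Polynomial.C := by
    rw [← Polynomial.derivative_map, hGm, Polynomial.derivative_map]
  obtain ⟨Ξ0, hΞ0, hΞ⟩ := ps_hensel Γ (Polynomial.C ρ) (Polynomial.C (e.p.derivative.eval ρ)⁻¹) (by
      rw [heval, hGm, Polynomial.eval_map, Polynomial.eval₂_at_apply, hρ, map_zero]) (by
      rw [heval, hGm', Polynomial.eval_map, Polynomial.eval₂_at_apply, ← map_mul, inv_mul_cancel₀ hρ', map_one])
  refine ⟨tP (Polynomial k) M hM Ξ0, tP_Lb M hM _, by rw [tP_coeff_zero, hΞ0], ?_⟩
  have h1 : (Γk.map (PowerSeries.map Polynomial.C)).eval Ξ0 =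
      PowerSeries.C (Polynomial.X - Polynomial.C c) * PowerSeries.X ^ A := by
    rw [hΓ, Polynomial.eval_sub, Polynomial.eval_C, sub_eq_zero] at hΞ
    exact hΞ
  have h2 := congrArg (tP (Polynomial k) M hM) h1
  rw [map_mul, tP_C, tP_X_pow, ← hA, hΓk, Polynomial.map_sum, Polynomial.eval_finsetSum, map_sum] at h2
  have h3 : ∀ i ∈ Finset.range (U.natDegree + 1), tP (Polynomial k) M hM (Polynomial.eval Ξ0
      (Polynomial.map (PowerSeries.map Polynomial.C) (Polynomial.monomial i (γ i)))) =
      HahnSeries.single e.a 1 * (hmap (algebraMap k (Polynomial k)) (U.coeff i) *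
        (HahnSeries.single e.r 1 * tP (Polynomial k) M hM Ξ0) ^ i) := by
    intro i hi
    rw [Finset.mem_range] at hi
    rw [Polynomial.map_monomial, Polynomial.eval_monomial, map_mul, map_pow, tP_map, hγ i (by omega)]
    change hmap Polynomial.C (HahnSeries.single (e.a + e.r * i) 1 * U.coeff i) * _ = _
    rw [map_mul, hmap_single, map_one, mul_pow, HahnSeries.single_pow, one_pow]
    have h4 : HahnSeries.single (e.a + e.r * i) (1 : Polynomial k) =
        HahnSeries.single e.a (1 : Polynomial k) * HahnSeries.single (i • e.r) (1 : Polynomial k) := by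
      rw [HahnSeries.single_mul_single, one_mul, nsmul_eq_mul, mul_comm (i : ℚ)]
    rw [h4]
    change _ = HahnSeries.single e.a 1 * (hmap Polynomial.C (U.coeff i) * _)
    ring
  rw [Finset.sum_congr rfl h3, ← Finset.mul_sum] at h2
  have h5 : evX e.r (tP (Polynomial k) M hM Ξ0) U = ∑ i ∈ Finset.range (U.natDegree + 1),
      hmap (algebraMap k (Polynomial k)) (U.coeff i) * (HahnSeries.single e.r 1 * tP (Polynomial k) M hM Ξ0) ^ i := by
    rw [evX, Polynomial.coe_eval₂RingHom, Polynomial.eval₂_eq_sum_range]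
  rw [← h5] at h2
  have h6 : (HahnSeries.single (-e.a) (1 : Polynomial k)) * HahnSeries.single e.a 1 = 1 := by
    rw [HahnSeries.single_mul_single, one_mul, neg_add_cancel]; rfl
  have h7 := congrArg (fun x => HahnSeries.single (-e.a) (1 : Polynomial k) * x) h2
  rw [← mul_assoc, h6, one_mul, mul_comm (HahnSeries.C _), ← mul_assoc, h6, one_mul] at h7
  exact h7

end

end Pool.Agent.H922R2.R
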