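import Mathlib
import Pool.Agent.H922R2.R5

set_option autoImplicit false
set_option linter.unusedSectionVars false
set_option linter.style.haveILetI false

open MvPolynomial

namespace Pool.Agent.H922R2.R

open Pool.Agent.H922R2 (IsDer)
open Pool.Agent.Helper165.P1 (HQ Pui)

section

variable {k : Type*} [Field k] [CharZero k]

/-- injectivity from a nonzero bracket -/
theorem inj_of_bracket {S : Type*} [CommRing S] [IsDomain S] (ψ : MvPolynomial (Fin 2) k →+* S)
    (δ ε : S → S) (hδ : IsDer δ) (hε : IsDer ε)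
    (hc : ∀ a : k, δ (ψ (C a)) = 0) (hc' : ∀ a : k, ε (ψ (C a)) = 0)
    (hdet : δ (ψ (X 0)) * ε (ψ (X 1)) - δ (ψ (X 1)) * ε (ψ (X 0)) ≠ 0) : Function.Injective ψ := by
  rw [injective_iff_map_eq_zero]
  intro f
  induction hn : f.totalDegree using Nat.strong_induction_on generalizing f with
  | _ n ih =>
  intro hf
  have h1 := chain_rule ψ δ hδ hc f
  have h2 := chain_rule ψ ε hε hc' f
  rw [hf] at h1 h2
  have hz1 : δ 0 = 0 := Pool.Agent.H922R2.IsDer.zero hδ
  have hz2 : ε 0 = 0 := Pool.Agent.H922R2.IsDer.zero hε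
  rw [hz1] at h1
  rw [hz2] at h2
  have h3 : ψ (pderiv 0 f) = 0 := by
    have : ψ (pderiv 0 f) * (δ (ψ (X 0)) * ε (ψ (X 1)) - δ (ψ (X 1)) * ε (ψ (X 0))) = 0 := by
      linear_combination (-(ε (ψ (X 1)))) * h1 + δ (ψ (X 1)) * h2
    exact (mul_eq_zero.1 this).resolve_right hdet
  have h4 : ψ (pderiv 1 f) = 0 := by
    have : ψ (pderiv 1 f) * (δ (ψ (X 0)) * ε (ψ (X 1)) - δ (ψ (X 1)) * ε (ψ (X 0))) = 0 := by
      linear_combination (ε (ψ (X 0))) * h1 - δ (ψ (X 0)) * h2
    exact (mul_eq_zero.1 this).resolve_right hdet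
  have h5 : ∀ i, pderiv i f = 0 := by
    intro i
    by_contra hne
    have hlt := Pool.Agent.H922R2.totalDegree_pderiv_lt f i hne
    rw [hn] at hlt
    apply hne
    apply ih _ hlt _ rfl
    fin_cases i
    · exact h3
    · exact h4
  have h6 := Pool.Agent.H922R2.eq_C_of_pderiv_eq_zero f h5
  rw [h6] at hf ⊢
  by_contra hne
  have h7 : f.coeff 0 ≠ 0 := by
    intro h; apply hne; rw [h, map_zero]
  have h8 : ψ (C (f.coeff 0)) * ψ (C (f.coeff 0)⁻¹) = 1 := by
    rw [← map_mul, ← map_mul, mul_inv_cancel₀ h7, map_one, map_one]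
  rw [hf, zero_mul] at h8
  exact zero_ne_one h8

theorem EX_injective (r : ℚ) (Y : HahnSeries ℚ k) : Function.Injective (EX r Y) := by
  apply inj_of_bracket (EX r Y) (eul k) dxi (eul_isDer k) dxi_isDer (fun a => by rw [EX_C, eul_C])
    (fun a => by rw [EX_C, HahnSeries.C_apply, dxi_single, Polynomial.derivative_C, map_zero])
  have h1 := EX_bracket r Y (X 0) (X 1)
  have h2 : Jb (X 0 : MvPolynomial (Fin 2) k) (X 1) = 1 := by
    rw [Jb, pderiv_X_self, pderiv_X_self, pderiv_X_of_ne (show (0 : Fin 2) ≠ 1 by decide),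
      pderiv_X_of_ne (show (1 : Fin 2) ≠ 0 by decide)]
    ring
  rw [h2, RingHom.map_one, mul_one] at h1
  intro h
  have h3 : eul k (EX r Y (X 0)) * dxi (EX r Y (X 1)) - dxi (EX r Y (X 0)) * eul k (EX r Y (X 1)) = 0 := by
    rw [← h]; ring
  rw [h3] at h1
  have := congrArg (fun x => HahnSeries.coeff x (r - 1)) h1
  simp at this

/-- A good place. -/
structure GP (u : MvPolynomial (Fin 2) k) where
  ι : MvPolynomial (Fin 2) k →+* HahnSeries ℚ (Polynomial k)
  hC : ∀ a : k, ι (C a) = HahnSeries.C (Polynomial.C a)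
  hx : ι (X 0) = HahnSeries.single (-1) 1
  hu : ι u = HahnSeries.C Polynomial.X
  v : MvPolynomial (Fin 2) k
  hJ : Jb u v = 1
  b : ℚ
  hb : 0 < b
  β : k
  hβ : β ≠ 0
  hv : Lb (-b) (ι v)
  hvc : (ι v).coeff (-b) = Polynomial.C β

variable {u : MvPolynomial (Fin 2) k}

theorem GP.der (g : GP u) (f : MvPolynomial (Fin 2) k) :
    eul k (g.ι f) = g.ι (Jb u f) * eul k (g.ι g.v) :=
  along g.ι (eul k) (eul_isDer k) (fun a => by rw [g.hC, eul_C]) u g.v f g.hJ (by rw [g.hu, eul_C])

theorem GP.eul_v_coeff (g : GP u) : (eul k (g.ι g.v)).coeff (-g.b) = Polynomial.C (-(g.b : k) * g.β) := by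
  rw [eul_coeff, g.hvc, Polynomial.algebraMap_eq, ← map_mul]
  congr 2
  push_cast
  rfl

theorem GP.bβ (g : GP u) : -(g.b : k) * g.β ≠ 0 :=
  mul_ne_zero (neg_ne_zero.2 (by exact_mod_cast g.hb.ne')) g.hβ

theorem GP.eul_v_ne (g : GP u) : eul k (g.ι g.v) ≠ 0 := by
  intro h
  have := g.eul_v_coeff
  rw [h] at this
  exact g.bβ (Polynomial.C_injective (by rw [← this, map_zero]; rfl))

theorem GP.inj (g : GP u) : Function.Injective g.ι := by
  have hc1 : ∀ a : k, eul k (g.ι (C a)) = 0 := fun a => by rw [g.hC, eul_C]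
  have hc2 : ∀ a : k, dxi (g.ι (C a)) = 0 := fun a => by
    rw [g.hC, HahnSeries.C_apply, dxi_single, Polynomial.derivative_C, map_zero]
  apply inj_of_bracket g.ι (eul k) dxi (eul_isDer k) dxi_isDer hc1 hc2
  intro h
  have h1 := bracket g.ι (eul k) dxi (eul_isDer k) dxi_isDer hc1 hc2 u g.v
  rw [h, mul_zero, g.hu, eul_C, zero_mul, HahnSeries.C_apply, dxi_single, Polynomial.derivative_X, zero_sub] at h1
  have h2 : HahnSeries.single (0 : ℚ) (1 : Polynomial k) = 1 := rfl
  rw [h2, one_mul, neg_eq_zero] at h1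
  exact g.eul_v_ne h1

/-- logarithmic derivatives at a good place -/
theorem GP.log (g : GP u) (f h : MvPolynomial (Fin 2) k) (hf : f ≠ 0) (hfh : Jb u f = f * h) :
    Lb g.b (g.ι h) ∧ (g.ι h).coeff g.b * Polynomial.C (-(g.b : k) * g.β) =
      Polynomial.C (((g.ι f).order : ℚ) : k) := by
  have hF : g.ι f ≠ 0 := by
    rw [Ne, map_eq_zero_iff _ g.inj]; exact hf
  have h1 := g.der f
  rw [hfh, map_mul] at h1
  have hev : Lb (-g.b) (eul k (g.ι g.v)) := g.hv.eul k
  have hevo : (eul k (g.ι g.v)).order = -g.b := order_eq_of hev (by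
    rw [g.eul_v_coeff]; exact Polynomial.C_ne_zero.2 g.bβ)
  have hLb : Lb g.b (g.ι h) := by
    by_cases h0 : g.ι h = 0
    · rw [h0]; exact Lb.zero _
    · have h2 : Lb (g.ι f).order (eul k (g.ι f)) := (Lb_order _).eul k
      have h3 : g.ι f * g.ι h * eul k (g.ι g.v) ≠ 0 := mul_ne_zero (mul_ne_zero hF h0) g.eul_v_ne
      rw [h1] at h2
      have h4 := h2.le_order h3
      rw [HahnSeries.order_mul (mul_ne_zero hF h0) g.eul_v_ne, HahnSeries.order_mul hF h0, hevo] at h4
      exact (Lb_order _).mono (by linarith)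
  refine ⟨hLb, ?_⟩
  have h5 := congrArg (fun x => HahnSeries.coeff x (g.ι f).order) h1
  have h6 : (g.ι f).order = (g.ι f).order + g.b + -g.b := by ring
  conv_rhs at h5 => rw [h6]
  rw [((Lb_order (g.ι f)).mul hLb).coeff_mul hev, (Lb_order (g.ι f)).coeff_mul hLb, g.eul_v_coeff, eul_coeff,
    mul_assoc, mul_comm (algebraMap k (Polynomial k) _)] at h5
  have h7 := mul_left_cancel₀ (HahnSeries.coeff_order_eq_zero.not.2 hF) h5
  rw [← h7, Polynomial.algebraMap_eq]

end

section

variable {k : Type*} [Field k] [CharZero k] {u : MvPolynomial (Fin 2) k} {c : k} {Y : HahnSeries ℚ k}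

theorem ED.root_der (e : ED u c Y) (ρ : k) (hρ : e.p.eval ρ = 0) :
    -(e.b : k) * (e.p.derivative.eval ρ) * (e.q.eval ρ) = 1 := by
  have := congrArg (Polynomial.eval ρ) e.hid
  simp only [Polynomial.eval_sub, Polynomial.eval_mul, Polynomial.eval_C, hρ, mul_zero, zero_mul,
    Polynomial.eval_one] at this
  linear_combination this

/-- the place at a root of `p` -/
noncomputable def ED.gp (e : ED u c Y) (ρ : k) (hρ : e.p.eval ρ = 0) (Ξ : HahnSeries ℚ (Polynomial k))
    (h0 : Lb 0 Ξ) (h1 : Ξ.coeff 0 = Polynomial.C ρ)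
    (h2 : evX e.r Ξ (EY Y (u - C c)) = HahnSeries.C (Polynomial.X - Polynomial.C c)) : GP u where
  ι := (evX e.r Ξ).comp (EY Y)
  hC a := by
    rw [RingHom.comp_apply, EY_C, evX, Polynomial.coe_eval₂RingHom, Polynomial.eval₂_C, hmap_C,
      Polynomial.algebraMap_eq]
  hx := by
    rw [RingHom.comp_apply, EY_X0, evX, Polynomial.coe_eval₂RingHom, Polynomial.eval₂_C, hmap_single, map_one]
  hu := by
    rw [RingHom.comp_apply]
    rw [map_sub, map_sub, EY_C] at h2
    have h3 : evX e.r Ξ (Polynomial.C (HahnSeries.C c)) = HahnSeries.C (Polynomial.C c) := by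
      rw [evX, Polynomial.coe_eval₂RingHom, Polynomial.eval₂_C, hmap_C, Polynomial.algebraMap_eq]
    rw [h3, map_sub] at h2
    exact sub_left_inj.1 h2
  v := e.v
  hJ := e.hJ
  b := e.b
  hb := e.hb
  β := e.q.eval ρ
  hβ := by
    intro h
    have := e.root_der ρ hρ
    rw [h, mul_zero] at this
    exact zero_ne_one this
  hv := (evX_lead e.r (-e.b) Ξ h0 (EY Y e.v) e.hV).1
  hvc := by
    have := (evX_lead e.r (-e.b) Ξ h0 (EY Y e.v) e.hV).2
    rw [RingHom.comp_apply, this, h1, ← EX_apply, e.hq, ← Polynomial.algebraMap_eq,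
      Polynomial.aeval_algebraMap_apply, Polynomial.aeval_def, Polynomial.eval₂_eq_eval_map]
    simp

/-- The relation at `E`. -/
theorem ED.rel (e : ED u c Y) (ρ : k) (hρ : e.p.eval ρ = 0) (Ξ : HahnSeries ℚ (Polynomial k))
    (h0 : Lb 0 Ξ) (h1 : Ξ.coeff 0 = Polynomial.C ρ)
    (h2 : evX e.r Ξ (EY Y (u - C c)) = HahnSeries.C (Polynomial.X - Polynomial.C c))
    (f h : MvPolynomial (Fin 2) k) (hf : f ≠ 0) (hfh : Jb u f = f * h) :
    ((e.gp ρ hρ Ξ h0 h1 h2).ι f).order =
      e.a * ((EX e.r Y f).leadingCoeff.rootMultiplicity ρ : ℕ) + (EX e.r Y f).order := by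
  set g := e.gp ρ hρ Ξ h0 h1 h2 with hg
  set F := EX e.r Y f with hF
  have hF0 : F ≠ 0 := by
    rw [hF, Ne, map_eq_zero_iff _ (EX_injective e.r Y)]; exact hf
  set H := EX e.r Y h with hH
  set fb := F.leadingCoeff with hfb
  have hfb0 : fb ≠ 0 := HahnSeries.leadingCoeff_ne_zero.2 hF0
  have hfbo : F.coeff F.order = fb := HahnSeries.leadingCoeff_eq.symm
  -- bracket
  have hbr := EX_bracket e.r Y (u - C c) f
  have hJf : Jb (u - C c) f = f * h := by
    rw [← hfh]; simp [Jb]
  rw [hJf, map_mul, ← hF, ← hH] at hbr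
  set U := EX e.r Y (u - C c) with hU
  have hs : HahnSeries.single (1 - e.r) (1 : Polynomial k) * HahnSeries.single (e.r - 1) 1 = 1 := by
    rw [HahnSeries.single_mul_single, one_mul, show 1 - e.r + (e.r - 1) = 0 by ring]; rfl
  have hFH : F * H = HahnSeries.single (1 - e.r) (1 : Polynomial k) * (dxi U * eul k F - eul k U * dxi F) := by
    have h3 : dxi U * eul k F - eul k U * dxi F = HahnSeries.single (e.r - 1) 1 * (F * H) := by
      linear_combination -hbr
    rw [h3, ← mul_assoc, hs, one_mul]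
  have hLF : Lb F.order F := Lb_order F
  have hinner : Lb (-e.a + F.order) (dxi U * eul k F - eul k U * dxi F) :=
    (e.hU.dxi.mul (hLF.eul k)).sub ((e.hU.eul k).mul hLF.dxi)
  have hinner' : (dxi U * eul k F - eul k U * dxi F).coeff (-e.a + F.order) =
      e.p.derivative * (Polynomial.C ((F.order : ℚ) : k) * fb) +
        Polynomial.C (e.a : k) * e.p * Polynomial.derivative fb := by
    rw [HahnSeries.coeff_sub, e.hU.dxi.coeff_mul (hLF.eul k), (e.hU.eul k).coeff_mul hLF.dxi, dxi_coeff, dxi_coeff,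
      eul_coeff, eul_coeff, e.hp, hfbo, Polynomial.algebraMap_eq]
    have : ((-e.a : ℚ) : k) = -(e.a : k) := by push_cast; rfl
    rw [this, map_neg]
    ring
  have hLFH : Lb (F.order + e.b) (F * H) := by
    rw [hFH]
    have := (Lb_single (1 - e.r) (1 : Polynomial k)).mul hinner
    rwa [show 1 - e.r + (-e.a + F.order) = F.order + e.b by have := e.hab; linarith] at this
  have hcFH : (F * H).coeff (F.order + e.b) = e.p.derivative * (Polynomial.C ((F.order : ℚ) : k) * fb) +
        Polynomial.C (e.a : k) * e.p * Polynomial.derivative fb := by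
    rw [hFH]
    have := (Lb_single (1 - e.r) (1 : Polynomial k)).coeff_mul hinner
    rw [show 1 - e.r + (-e.a + F.order) = F.order + e.b by have := e.hab; linarith, HahnSeries.coeff_single,
      if_pos rfl, one_mul, hinner'] at this
    exact this
  have hLH : Lb e.b H := by
    by_cases hH0 : H = 0
    · rw [hH0]; exact Lb.zero _
    · have h4 := hLFH.le_order (mul_ne_zero hF0 hH0)
      rw [HahnSeries.order_mul hF0 hH0] at h4
      exact (Lb_order _).mono (by linarith)
  rw [hLF.coeff_mul hLH, hfbo] at hcFH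
  -- evaluation of the leading form
  set n := fb.rootMultiplicity ρ with hn
  obtain ⟨gg, hgg, hggρ⟩ := Polynomial.exists_eq_pow_rootMultiplicity_mul_and_not_dvd fb hfb0 ρ
  rw [← hn] at hgg
  have hggρ' : gg.eval ρ ≠ 0 := by
    rw [Ne, ← Polynomial.IsRoot.def, ← Polynomial.dvd_iff_isRoot]; exact hggρ
  obtain ⟨p1, hp1⟩ := Polynomial.dvd_iff_isRoot.2 (show e.p.IsRoot ρ from hρ)
  have hp1ρ : e.p.derivative.eval ρ = p1.eval ρ := by
    rw [hp1, Polynomial.derivative_mul]
    simp
  have hh0 : (H.coeff e.b).eval ρ = (((F.order : ℚ) : k) + (e.a : k) * n) * e.p.derivative.eval ρ := by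
    have h5 : gg * H.coeff e.b = e.p.derivative * (Polynomial.C ((F.order : ℚ) : k) * gg) +
        Polynomial.C (e.a : k) * p1 * ((n : Polynomial k) * gg + (Polynomial.X - Polynomial.C ρ) * Polynomial.derivative gg) := by
      have hXn : (Polynomial.X - Polynomial.C ρ) ^ n ≠ 0 := pow_ne_zero _ (Polynomial.X_sub_C_ne_zero ρ)
      apply mul_left_cancel₀ hXn
      have h6 : (Polynomial.X - Polynomial.C ρ) * Polynomial.derivative fb =
          (Polynomial.X - Polynomial.C ρ) ^ n * ((n : Polynomial k) * gg +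
            (Polynomial.X - Polynomial.C ρ) * Polynomial.derivative gg) := by
        rw [hgg, Polynomial.derivative_mul, Polynomial.derivative_pow]
        rcases Nat.eq_zero_or_pos n with h7 | h7
        · rw [h7]; simp
        · obtain ⟨m, hm⟩ := Nat.exists_eq_succ_of_ne_zero h7.ne'
          rw [hm, Nat.succ_sub_one]
          simp only [Polynomial.derivative_sub, Polynomial.derivative_X, Polynomial.derivative_C, sub_zero, mul_one,
            Nat.succ_eq_add_one, pow_succ, Polynomial.C_eq_natCast]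
          push_cast
          ring
      have h8 : (Polynomial.X - Polynomial.C ρ) ^ n * (gg * H.coeff e.b) = fb * H.coeff e.b := by
        conv_rhs => rw [hgg]
        ring
      rw [h8, hcFH, hp1]
      have h9 : Polynomial.C (e.a : k) * ((Polynomial.X - Polynomial.C ρ) * p1) * Polynomial.derivative fb =
          Polynomial.C (e.a : k) * p1 * ((Polynomial.X - Polynomial.C ρ) * Polynomial.derivative fb) := by ring
      rw [h9, h6]
      conv_lhs => rw [hgg]
      ring
    have h10 := congrArg (Polynomial.eval ρ) h5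
    simp only [Polynomial.eval_add, Polynomial.eval_mul, Polynomial.eval_C, Polynomial.eval_sub, Polynomial.eval_X,
      sub_self, zero_mul, add_zero, Polynomial.eval_natCast] at h10
    apply mul_left_cancel₀ hggρ'
    rw [h10, hp1ρ]
    ring
  -- the place level
  have hlog := g.log f h hf hfh
  have hιh : (g.ι h).coeff e.b = Polynomial.C ((H.coeff e.b).eval ρ) := by
    have := (evX_lead e.r e.b Ξ h0 (EY Y h) hLH).2
    rw [h1, ← EX_apply, ← hH, ← Polynomial.algebraMap_eq,
      Polynomial.aeval_algebraMap_apply, Polynomial.aeval_def, Polynomial.eval₂_eq_eval_map] at this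
    simp only [Algebra.algebraMap_self, Polynomial.map_id] at this
    exact this
  have h11 : (g.ι h).coeff e.b * Polynomial.C (-(e.b : k) * e.q.eval ρ) =
      Polynomial.C (((g.ι f).order : ℚ) : k) := hlog.2
  rw [hιh, hh0, ← map_mul] at h11
  have h12 := Polynomial.C_injective h11
  have h13 := e.root_der ρ hρ
  have h14 : (((g.ι f).order : ℚ) : k) = ((F.order + e.a * n : ℚ) : k) := by
    push_cast
    linear_combination -h12 + (((F.order : ℚ) : k) + (e.a : k) * n) * h13
  have h15 : (g.ι f).order = F.order + e.a * n := by exact_mod_cast h14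
  rw [h15]; ring

/-- specialisation of the place through the root `0` -/
theorem ED.sp (e : ED u c Y) (hu : th Y u = HahnSeries.C c) (hρ : e.p.eval 0 = 0) (Ξ : HahnSeries ℚ (Polynomial k))
    (h0 : Lb 0 Ξ) (h1 : Ξ.coeff 0 = Polynomial.C 0)
    (h2 : evX e.r Ξ (EY Y (u - C c)) = HahnSeries.C (Polynomial.X - Polynomial.C c))
    (f : MvPolynomial (Fin 2) k) :
    hmap (Polynomial.evalRingHom c) ((e.gp 0 hρ Ξ h0 h1 h2).ι f) = th Y f := by
  set Ξ' : HahnSeries ℚ k := hmap (Polynomial.evalRingHom c) Ξ with hΞ'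
  have hcomp : ∀ F : Polynomial (HahnSeries ℚ k), hmap (Polynomial.evalRingHom c) (evX e.r Ξ F) = evX e.r Ξ' F := by
    intro F
    rw [evX, evX, Polynomial.coe_eval₂RingHom, Polynomial.coe_eval₂RingHom, Polynomial.hom_eval₂, map_mul,
      hmap_single, map_one]
    congr 1
    ext1 x
    rw [RingHom.comp_apply, hmap_hmap]
    congr 1
    congr 1
    ext1 y
    simp
  have hΞ0 : Ξ' = 0 := by
    by_contra hne
    set U := EY Y (u - C c) with hU
    have hU0 : U.coeff 0 = 0 := by
      rw [hU, ← th_apply, map_sub, hu, th_C, sub_self]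
    have h3 : evX e.r Ξ' U = 0 := by
      rw [← hcomp, h2, hmap_C]
      simp
    have h4 : U = U.divX * Polynomial.X := by
      have := Polynomial.divX_mul_X_add U
      rw [hU0, map_zero, add_zero] at this
      exact this.symm
    have h5 : evX e.r Ξ' U.divX = 0 := by
      rw [h4, map_mul] at h3
      rcases mul_eq_zero.1 h3 with h | h
      · exact h
      · exfalso
        rw [evX, Polynomial.coe_eval₂RingHom, Polynomial.eval₂_X] at h
        rcases mul_eq_zero.1 h with h' | h'
        · have := congrArg (fun x => HahnSeries.coeff x e.r) h'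
          simp at this
        · exact hne h'
    have hLb : ∀ i : ℕ, Lb (-e.a - e.r * i) (U.coeff i) := by
      have := e.hU
      rw [EX_apply, Lb_Ph_iff] at this
      exact this
    have h6 : Lb (-e.a - e.r) (Ph e.r U.divX) := by
      rw [Lb_Ph_iff]
      intro i
      rw [Polynomial.coeff_divX]
      have := hLb (i + 1)
      rwa [show -e.a - e.r * ((i + 1 : ℕ) : ℚ) = -e.a - e.r - e.r * i by push_cast; ring] at this
    have h7 := (evX_lead e.r (-e.a - e.r) Ξ' (h0.hmap _) U.divX h6).2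
    have h8 : Ξ'.coeff 0 = 0 := by
      rw [hΞ', hmap_coeff, h1]; simp
    rw [h5, h8, Polynomial.aeval_def, Polynomial.eval₂_at_zero, Ph_coeff, Polynomial.coeff_divX] at h7
    have h9 : e.p.coeff 1 = (U.coeff 1).coeff (-e.a - e.r - e.r * ((0 : ℕ) : ℚ)) := by
      rw [← e.hp, EX_apply, Ph_coeff]
      congr 1
      push_cast
      ring
    have h10 : e.p.coeff 1 = 0 := by
      rw [h9]
      simpa using h7.symm
    have h11 := e.root_der 0 hρ
    rw [← Polynomial.coeff_zero_eq_eval_zero, Polynomial.coeff_derivative, zero_add, h10] at h11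
    simp at h11
  change hmap (Polynomial.evalRingHom c) (evX e.r Ξ (EY Y f)) = _
  rw [hcomp, hΞ0, th_apply, evX, Polynomial.coe_eval₂RingHom, mul_zero, Polynomial.eval₂_at_zero]
  ext q
  rw [hmap_coeff]
  rfl

end

end Pool.Agent.H922R2.R
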