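import Mathlib
import Pool.Agent.H922R2.R6

set_option autoImplicit false
set_option linter.unusedSectionVars false
set_option linter.style.haveILetI false

open MvPolynomial

namespace Pool.Agent.H922R2.R

open Pool.Agent.H922R2 (IsDer)
open Pool.Agent.Helper165.P1 (HQ Pui)

section toY

variable {k : Type*} [Field k]

/-- `k[x,y] → k[x][y]` -/
noncomputable def toY (k : Type*) [Field k] : MvPolynomial (Fin 2) k →+* Polynomial (Polynomial k) :=
  eval₂Hom ((Polynomial.C).comp Polynomial.C) (fun i => if i = 0 then Polynomial.C Polynomial.X else Polynomial.X)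

theorem toY_C (a : k) : toY k (C a) = Polynomial.C (Polynomial.C a) := by simp [toY]
theorem toY_X0 : toY k (X 0) = Polynomial.C Polynomial.X := by simp [toY]
theorem toY_X1 : toY k (X 1) = Polynomial.X := by simp [toY]

/-- `k[x][y] → k[x,y]` -/
noncomputable def fromY (k : Type*) [Field k] : Polynomial (Polynomial k) →+* MvPolynomial (Fin 2) k :=
  Polynomial.eval₂RingHom (Polynomial.eval₂RingHom C (X 0)) (X 1)

theorem fromY_toY (f : MvPolynomial (Fin 2) k) : fromY k (toY k f) = f := by
  have : (fromY k).comp (toY k) = RingHom.id _ := by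
    apply MvPolynomial.ringHom_ext
    · intro a
      simp [toY_C, fromY]
    · intro i
      fin_cases i
      · change fromY k (toY k (X 0)) = X 0
        rw [toY_X0]; simp [fromY]
      · change fromY k (toY k (X 1)) = X 1
        rw [toY_X1]; simp [fromY]
  exact RingHom.congr_fun this f

theorem toY_injective : Function.Injective (toY k) := by
  intro a b h
  rw [← fromY_toY a, h, fromY_toY]

/-- coefficients in `x` -/
noncomputable def xP (k : Type*) [Field k] : Polynomial k →+* MvPolynomial (Fin 2) k :=
  Polynomial.eval₂RingHom C (X 0)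

theorem toY_xP (s : Polynomial k) : toY k (xP k s) = Polynomial.C s := by
  have : (toY k).comp (xP k) = Polynomial.C := by
    apply Polynomial.ringHom_ext
    · intro a
      simp [xP, toY_C]
    · simp [xP, toY_X0]
  exact RingHom.congr_fun this s

/-- monic in `y` up to a constant -/
def MonY (u : MvPolynomial (Fin 2) k) : Prop :=
  2 ≤ (toY k u).natDegree ∧ ∃ κ : k, κ ≠ 0 ∧ (toY k u).leadingCoeff = Polynomial.C κ

theorem MonY.sub {u : MvPolynomial (Fin 2) k} (h : MonY u) (c : k) :
    (toY k (u - C c)).natDegree = (toY k u).natDegree ∧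
    (toY k (u - C c)).leadingCoeff = (toY k u).leadingCoeff := by
  have h1 : toY k (u - C c) = toY k u - Polynomial.C (Polynomial.C c) := by rw [map_sub, toY_C]
  have h2 : (toY k (u - C c)).natDegree = (toY k u).natDegree := by
    rw [h1, Polynomial.natDegree_sub_C]
  refine ⟨h2, ?_⟩
  have h3 := h.1
  rw [Polynomial.leadingCoeff, h2, h1, Polynomial.coeff_sub, Polynomial.coeff_C, if_neg (by omega), sub_zero,
    Polynomial.leadingCoeff]

theorem Jb_dvd (π f g : MvPolynomial (Fin 2) k) (hf : π ∣ f) (hg : π ∣ g) : π ∣ Jb f g := by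
  obtain ⟨f', rfl⟩ := hf
  obtain ⟨g', rfl⟩ := hg
  refine ⟨f' * pderiv 0 π * pderiv 1 g' + pderiv 0 f' * g' * pderiv 1 π + π * pderiv 0 f' * pderiv 1 g' -
    (f' * pderiv 1 π * pderiv 0 g' + pderiv 1 f' * g' * pderiv 0 π + π * pderiv 1 f' * pderiv 0 g'), ?_⟩
  rw [Jb]
  simp only [Derivation.leibniz, smul_eq_mul]
  ring

theorem Jb_sub_C (f g : MvPolynomial (Fin 2) k) (a b : k) : Jb (f - C a) (g - C b) = Jb f g := by
  simp [Jb]

/-- not both `u` and `v` are constant on a curve -/
theorem not_dvd_both (u v π : MvPolynomial (Fin 2) k) (hπ : Prime π) (hJ : Jb u v = 1) (c c' : k)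
    (h1 : π ∣ u - C c) (h2 : π ∣ v - C c') : False := by
  have := Jb_dvd π _ _ h1 h2
  rw [Jb_sub_C, hJ] at this
  exact hπ.not_isUnit (isUnit_of_dvd_one this)

end toY

section place

variable {k : Type*} [Field k] [CharZero k] [IsAlgClosed k]

theorem coeff_prod_Lb (s : Multiset (HahnSeries ℚ k)) (hs : ∀ x ∈ s, Lb 0 x) (i : ℕ) :
    Lb 0 ((s.map fun a => Polynomial.X - Polynomial.C a).prod.coeff i) := by
  induction s using Multiset.induction_on generalizing i with
  | empty =>
    rw [Multiset.map_zero, Multiset.prod_zero, Polynomial.coeff_one]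
    split_ifs
    · exact Lb_one
    · exact Lb.zero _
  | cons a s ih =>
    have ha := hs a (Multiset.mem_cons_self a s)
    have ih' := fun j => ih (fun x hx => hs x (Multiset.mem_cons_of_mem hx)) j
    rw [Multiset.map_cons, Multiset.prod_cons, sub_mul, Polynomial.coeff_sub, Polynomial.coeff_C_mul]
    apply Lb.sub
    · rcases i with _ | i
      · rw [Polynomial.coeff_X_mul_zero]; exact Lb.zero _
      · rw [Polynomial.coeff_X_mul]; exact ih' i
    · have := ha.mul (ih' i)
      rwa [add_zero] at this

/-- `x ↦ 1/t` -/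
noncomputable def e0P (k : Type*) [Field k] : Polynomial k →+* HahnSeries ℚ k :=
  Polynomial.eval₂RingHom HahnSeries.C (HahnSeries.single (-1) 1)

theorem e0P_coeff (s : Polynomial k) (n : ℕ) : (e0P k s).coeff (-(n : ℚ)) = s.coeff n := by
  induction s using Polynomial.induction_on' with
  | add p q hp hq => rw [map_add, HahnSeries.coeff_add, hp, hq, Polynomial.coeff_add]
  | monomial m a =>
    rw [e0P, Polynomial.coe_eval₂RingHom, Polynomial.eval₂_monomial, HahnSeries.single_pow, one_pow,
      HahnSeries.C_apply, HahnSeries.single_mul_single, mul_one, zero_add, HahnSeries.coeff_single,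
      Polynomial.coeff_monomial]
    by_cases h : m = n
    · subst h; simp
    · rw [if_neg, if_neg h]
      intro h'
      apply h
      rw [nsmul_eq_mul, mul_neg, mul_one, neg_inj] at h'
      exact_mod_cast h'.symm

theorem e0P_injective : Function.Injective (e0P k) := by
  intro a b h
  ext n
  rw [← e0P_coeff, ← e0P_coeff, h]

theorem e0P_mem (s : Polynomial k) : e0P k s ∈ Pui k := by
  induction s using Polynomial.induction_on' with
  | add p q hp hq => rw [map_add]; exact add_mem hp hq
  | monomial m a =>
    rw [e0P, Polynomial.coe_eval₂RingHom, Polynomial.eval₂_monomial]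
    exact mul_mem (single_mem_Pui' 0 a) (pow_mem (single_mem_Pui' _ _) _)

/-- `x ↦ 1/t` with values in Puiseux series -/
noncomputable def e1P (k : Type*) [Field k] [CharZero k] [IsAlgClosed k] : Polynomial k →+* Pui k :=
  (e0P k).codRestrict (Pui k) e0P_mem

theorem e1P_coe (s : Polynomial k) : ((e1P k s : Pui k) : HQ k) = e0P k s := rfl

theorem e1P_injective : Function.Injective (e1P k) := by
  intro a b h
  exact e0P_injective (by rw [← e1P_coe, h, e1P_coe])

theorem exists_embed {B : Type*} [CommRing B] [IsDomain B] (ι : Polynomial k →+* B) (hι : Function.Injective ι)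
    (hint : ι.IsIntegral) (b : B) (hb : ∀ P : Polynomial k, P ≠ 0 → P.eval₂ (ι.comp Polynomial.C) b ≠ 0) :
    ∃ ψ : B →+* Pui k, Function.Injective ψ ∧ ψ.comp ι = e1P k ∧ ¬ Lb 0 ((ψ b : Pui k) : HQ k) := by
  classical
  by_contra hcon
  push Not at hcon
  letI : Algebra (Polynomial k) B := ι.toAlgebra
  have hmap : algebraMap (Polynomial k) B = ι := rfl
  haveI : FaithfulSMul (Polynomial k) B := (faithfulSMul_iff_algebraMap_injective _ _).2 hι
  haveI : Algebra.IsAlgebraic (Polynomial k) B := by
    refine ⟨fun x => ?_⟩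
    obtain ⟨P, hP, hPx⟩ := hint x
    exact ⟨P, hP.ne_zero, hPx⟩
  letI := FractionRing.liftAlgebra (Polynomial k) (FractionRing B)
  haveI := FractionRing.isScalarTower_liftAlgebra (Polynomial k) (FractionRing B)
  haveI : Algebra.IsAlgebraic (FractionRing (Polynomial k)) (FractionRing B) := by
    have := (IsFractionRing.isAlgebraic_iff' (Polynomial k) B (FractionRing B)).1 inferInstance
    exact ⟨fun _ ↦ (IsFractionRing.isAlgebraic_iff (Polynomial k)
      (FractionRing (Polynomial k)) (FractionRing B)).1 (Algebra.IsAlgebraic.isAlgebraic _)⟩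
  have hbint' : IsIntegral (Polynomial k) b := hint b
  set b' : FractionRing B := algebraMap B (FractionRing B) b with hb'
  have hμ : minpoly (FractionRing (Polynomial k)) b' =
      (minpoly (Polynomial k) b).map (algebraMap _ _) :=
    minpoly.isIntegrallyClosed_eq_field_fractions _ _ hbint'
  have hb'int : IsIntegral (FractionRing (Polynomial k)) b' := Algebra.IsIntegral.isIntegral b'
  letI : Algebra (Polynomial k) (Pui k) := (e1P k).toAlgebra
  have hmapP : algebraMap (Polynomial k) (Pui k) = e1P k := rfl
  haveI : FaithfulSMul (Polynomial k) (Pui k) :=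
    (faithfulSMul_iff_algebraMap_injective _ _).2 e1P_injective
  letI := FractionRing.liftAlgebra (Polynomial k) (Pui k)
  haveI := FractionRing.isScalarTower_liftAlgebra (Polynomial k) (Pui k)
  have hroots : ∀ ρ ∈ ((minpoly (FractionRing (Polynomial k)) b').map
      (algebraMap _ (Pui k))).roots, Lb 0 ((ρ : Pui k) : HQ k) := by
    intro ρ hρ
    have h1 : ρ ∈ (minpoly (FractionRing (Polynomial k)) b').rootSet (Pui k) := by
      have h0 := (Polynomial.mem_roots'.1 hρ)
      rw [Polynomial.mem_rootSet']
      refine ⟨h0.1, ?_⟩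
      rw [Polynomial.aeval_def, ← Polynomial.eval_map]
      exact h0.2
    rw [← Algebra.IsAlgebraic.range_eval_eq_rootSet_minpoly] at h1
    obtain ⟨ψ, hψ⟩ := h1
    have h2 := hcon ((ψ : FractionRing B →+* Pui k).comp (algebraMap B (FractionRing B)))
      ((ψ : FractionRing B →+* Pui k).injective.comp (IsFractionRing.injective B (FractionRing B))) (by
      apply RingHom.ext
      intro p
      simp only [RingHom.comp_apply]
      have : algebraMap B (FractionRing B) (ι p) = algebraMap (FractionRing (Polynomial k))
          (FractionRing B) (algebraMap (Polynomial k) (FractionRing (Polynomial k)) p) := by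
        rw [← IsScalarTower.algebraMap_apply, ← hmap, ← IsScalarTower.algebraMap_apply]
      rw [this, RingHom.coe_coe, AlgHom.commutes, ← IsScalarTower.algebraMap_apply, hmapP])
    simp only [RingHom.comp_apply, RingHom.coe_coe] at h2
    rw [← hb'] at h2
    change ψ b' = ρ at hψ
    rwa [hψ] at h2
  have hsplit : ((minpoly (FractionRing (Polynomial k)) b').map
      (algebraMap _ (Pui k))).Splits := IsAlgClosed.splits _
  have hmonic := (minpoly.monic hb'int).map (algebraMap (FractionRing (Polynomial k)) (Pui k))
  have h3 := hsplit.eq_prod_roots_of_monic hmonic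
  have h4 : ∀ i, Lb 0 (e0P k ((minpoly (Polynomial k) b).coeff i)) := by
    intro i
    have h5 : (((minpoly (FractionRing (Polynomial k)) b').map (algebraMap _ (Pui k))).coeff i) =
        e1P k ((minpoly (Polynomial k) b).coeff i) := by
      rw [hμ, Polynomial.map_map, ← IsScalarTower.algebraMap_eq, Polynomial.coeff_map, hmapP]
    rw [← e1P_coe, ← h5, h3]
    have h6 := coeff_prod_Lb (Multiset.map (Pui k).subtype
      ((minpoly (FractionRing (Polynomial k)) b').map (algebraMap _ (Pui k))).roots) (by
        intro x hx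
        obtain ⟨ρ, hρ, rfl⟩ := Multiset.mem_map.1 hx
        exact hroots ρ hρ) i
    have h7 : ((Multiset.map (Pui k).subtype
      ((minpoly (FractionRing (Polynomial k)) b').map (algebraMap _ (Pui k))).roots).map
        fun a => Polynomial.X - Polynomial.C a).prod =
        Polynomial.map (Pui k).subtype ((((minpoly (FractionRing (Polynomial k)) b').map
          (algebraMap _ (Pui k))).roots.map fun a => Polynomial.X - Polynomial.C a).prod) := by
      rw [Polynomial.map_multiset_prod, Multiset.map_map, Multiset.map_map]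
      congr 1
      apply Multiset.map_congr rfl
      intro x _
      simp
    rw [h7, Polynomial.coeff_map] at h6
    exact h6
  have h5 : ∀ i, (minpoly (Polynomial k) b).coeff i = Polynomial.C (((minpoly (Polynomial k) b).coeff i).coeff 0) := by
    intro i
    ext n
    rw [Polynomial.coeff_C]
    split_ifs with hn
    · rw [hn]
    · rw [← e0P_coeff]
      apply h4 i
      have : (0 : ℚ) < n := by exact_mod_cast Nat.pos_of_ne_zero hn
      linarith
  have h6 : minpoly (Polynomial k) b = ((minpoly (Polynomial k) b).map Polynomial.constantCoeff).map Polynomial.C := by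
    ext1 i
    rw [Polynomial.coeff_map, Polynomial.coeff_map]
    exact h5 i
  apply hb ((minpoly (Polynomial k) b).map Polynomial.constantCoeff)
  · exact ((minpoly.monic hbint').map _).ne_zero
  · have h7 := minpoly.aeval (Polynomial k) b
    rw [h6, Polynomial.aeval_def, Polynomial.eval₂_map, hmap] at h7
    exact h7

theorem eval₂_toY (π f : MvPolynomial (Fin 2) k) :
    Polynomial.eval₂ ((Ideal.Quotient.mk (Ideal.span {π})).comp (xP k)) (Ideal.Quotient.mk (Ideal.span {π}) (X 1))
      (toY k f) = Ideal.Quotient.mk (Ideal.span {π}) f := by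
  have : (Polynomial.eval₂RingHom ((Ideal.Quotient.mk (Ideal.span {π})).comp (xP k))
      (Ideal.Quotient.mk (Ideal.span {π}) (X 1))).comp (toY k) = Ideal.Quotient.mk (Ideal.span {π}) := by
    apply MvPolynomial.ringHom_ext
    · intro a
      rw [RingHom.comp_apply, toY_C, Polynomial.coe_eval₂RingHom, Polynomial.eval₂_C]
      simp [xP]
    · intro i
      fin_cases i
      · change _ = Ideal.Quotient.mk (Ideal.span {π}) (X 0)
        rw [RingHom.comp_apply]
        change Polynomial.eval₂RingHom _ _ (toY k (X 0)) = _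
        rw [toY_X0, Polynomial.coe_eval₂RingHom, Polynomial.eval₂_C]
        simp [xP]
      · change _ = Ideal.Quotient.mk (Ideal.span {π}) (X 1)
        rw [RingHom.comp_apply]
        change Polynomial.eval₂RingHom _ _ (toY k (X 1)) = _
        rw [toY_X1, Polynomial.coe_eval₂RingHom, Polynomial.eval₂_X]
  exact RingHom.congr_fun this f

theorem exists_place (u v π : MvPolynomial (Fin 2) k) (hπ : Prime π) (c : k) (hπu : π ∣ u - C c)
    (hJ : Jb u v = 1) (hm : MonY u) :
    ∃ Y : HahnSeries ℚ k, Y ∈ Pui k ∧ th Y u = HahnSeries.C c ∧ ¬ Lb 0 (th Y v) ∧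
      (∀ f, th Y f = 0 ↔ π ∣ f) := by
  classical
  have hprime : (Ideal.span {π}).IsPrime := (Ideal.span_singleton_prime hπ.ne_zero).2 hπ
  set mk := Ideal.Quotient.mk (Ideal.span {π}) with hmk
  have hmk0 : ∀ f, mk f = 0 ↔ π ∣ f := fun f => by
    rw [hmk, Ideal.Quotient.eq_zero_iff_mem, Ideal.mem_span_singleton]
  obtain ⟨κ, hκ, hlc⟩ := hm.2
  obtain ⟨hd, hl⟩ := hm.sub c
  have hπ0 : toY k π ≠ 0 := by
    rw [Ne, map_eq_zero_iff _ toY_injective]; exact hπ.ne_zero
  set ι : Polynomial k →+* (MvPolynomial (Fin 2) k ⧸ Ideal.span {π}) := mk.comp (xP k) with hι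
  have hinj : Function.Injective ι := by
    rw [injective_iff_map_eq_zero]
    intro s hs
    by_contra hs0
    rw [hι, RingHom.comp_apply, hmk0] at hs
    have h1 : toY k π ∣ Polynomial.C s := by
      have := map_dvd (toY k) hs
      rwa [toY_xP] at this
    have h2 : (toY k π).natDegree = 0 := by
      have := Polynomial.natDegree_le_of_dvd h1 (Polynomial.C_ne_zero.2 hs0)
      rw [Polynomial.natDegree_C] at this
      omega
    rw [Polynomial.natDegree_eq_zero] at h2
    obtain ⟨s', hs'⟩ := h2
    obtain ⟨W, hW⟩ := map_dvd (toY k) hπu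
    have h3 : s' * W.leadingCoeff = Polynomial.C κ := by
      rw [← hlc, ← hl, hW, ← hs', Polynomial.leadingCoeff_mul, Polynomial.leadingCoeff_C]
    have h4 : IsUnit s' := isUnit_of_mul_isUnit_left (h3 ▸ (Polynomial.isUnit_C.2 (isUnit_iff_ne_zero.2 hκ)))
    apply hπ.not_isUnit
    have h5 : IsUnit (fromY k (toY k π)) := by
      rw [← hs']
      exact (h4.map Polynomial.C).map (fromY k)
    rwa [fromY_toY] at h5
  have hint : ι.IsIntegral := by
    intro b
    obtain ⟨f, rfl⟩ := Ideal.Quotient.mk_surjective b
    induction f using MvPolynomial.induction_on with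
    | C a =>
      have : mk (C a) = ι (Polynomial.C a) := by
        rw [hι, RingHom.comp_apply]; simp [xP]
      change ι.IsIntegralElem (mk (C a))
      rw [this]
      exact ι.isIntegralElem_map
    | add p q hp hq => rw [map_add]; exact hp.add ι hq
    | mul_X p i hp =>
      rw [map_mul]
      apply hp.mul ι
      fin_cases i
      · change ι.IsIntegralElem (mk (X 0))
        have : mk (X 0) = ι Polynomial.X := by
          rw [hι, RingHom.comp_apply]; simp [xP]
        rw [this]
        exact ι.isIntegralElem_map
      · change ι.IsIntegralElem (mk (X 1))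
        refine ⟨Polynomial.C (Polynomial.C κ⁻¹) * toY k (u - C c), ?_, ?_⟩
        · rw [Polynomial.Monic, Polynomial.leadingCoeff_mul, Polynomial.leadingCoeff_C, hl, hlc, ← map_mul,
            inv_mul_cancel₀ hκ, map_one]
        · rw [Polynomial.eval₂_mul, hι, hmk, eval₂_toY, ← hmk, (hmk0 _).2 hπu, mul_zero]
  obtain ⟨ψ, hψ, hψι, hψv⟩ := exists_embed ι hinj hint (mk v) (by
    intro P hP h0
    have h1 : ι.comp Polynomial.C = mk.comp C := by
      ext1 a
      rw [hι, RingHom.comp_apply, RingHom.comp_apply]; simp [xP]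
    rw [h1, ← Polynomial.hom_eval₂, hmk0] at h0
    have h2 := (IsAlgClosed.splits P).eq_prod_roots
    rw [h2, Polynomial.eval₂_mul, Polynomial.eval₂_C] at h0
    rcases hπ.dvd_or_dvd h0 with h3 | h3
    · apply hπ.not_isUnit
      apply isUnit_of_dvd_unit h3
      exact (isUnit_iff_ne_zero.2 (Polynomial.leadingCoeff_ne_zero.2 hP)).map C
    · have h4 : Polynomial.eval₂ C v (P.roots.map fun a => Polynomial.X - Polynomial.C a).prod =
          (P.roots.map fun a => v - C a).prod := by
        rw [← Polynomial.coe_eval₂RingHom, map_multiset_prod, Multiset.map_map]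
        congr 1
        apply Multiset.map_congr rfl
        intro a _
        simp
      rw [h4] at h3
      obtain ⟨w, hw, h5⟩ := hπ.exists_mem_multiset_dvd h3
      obtain ⟨a, _, rfl⟩ := Multiset.mem_map.1 hw
      exact not_dvd_both u v π hπ hJ c a hπu h5)
  refine ⟨((ψ (mk (X 1)) : Pui k) : HQ k), (ψ (mk (X 1))).2, ?_⟩
  have hth : ∀ f, th ((ψ (mk (X 1)) : Pui k) : HQ k) f = ((ψ (mk f) : Pui k) : HQ k) := by
    intro f
    have : th ((ψ (mk (X 1)) : Pui k) : HQ k) = ((Pui k).subtype.comp ψ).comp mk := by
      apply MvPolynomial.ringHom_ext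
      · intro a
        rw [th_C]
        have h1 : mk (C a) = ι (Polynomial.C a) := by
          rw [hι, RingHom.comp_apply]; simp [xP]
        rw [RingHom.comp_apply, h1, RingHom.comp_apply, ← RingHom.comp_apply, ← RingHom.comp_apply, RingHom.comp_assoc,
          hψι]
        change _ = e0P k (Polynomial.C a)
        simp [e0P]
      · intro i
        fin_cases i
        · change th _ (X 0) = ((ψ (mk (X 0)) : Pui k) : HQ k)
          have h1 : mk (X 0) = ι Polynomial.X := by
            rw [hι, RingHom.comp_apply]; simp [xP]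
          rw [th_X0, h1, ← RingHom.comp_apply, hψι]
          change _ = e0P k Polynomial.X
          simp [e0P]
        · change th _ (X 1) = ((ψ (mk (X 1)) : Pui k) : HQ k)
          rw [th_X1]
    rw [this]; rfl
  refine ⟨?_, ?_, ?_⟩
  · have h1 : mk u = mk (C c) := by
      rw [← sub_eq_zero, ← map_sub, hmk0]; exact hπu
    rw [hth, h1, ← hth, th_C]
  · rw [hth]; exact hψv
  · intro f
    rw [hth, ← hmk0]
    constructor
    · intro h
      apply hψ
      rw [map_zero]
      exact Subtype.ext h
    · intro h
      rw [h, map_zero]; rfl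

end place

end Pool.Agent.H922R2.R
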