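import Mathlib
import Pool.Agent.H922R2.R7

set_option autoImplicit false
set_option linter.unusedSectionVars false
set_option linter.style.haveILetI false

open MvPolynomial

namespace Pool.Agent.H922R2.R

open Pool.Agent.H922R2 (IsDer)
open Pool.Agent.Helper165.P1 (HQ Pui)

section vert

variable {k : Type*} [Field k] [CharZero k] [IsAlgClosed k]

/-- polynomials in `u` -/
noncomputable def uP (u : MvPolynomial (Fin 2) k) : Polynomial k →+* MvPolynomial (Fin 2) k :=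
  Polynomial.eval₂RingHom C u

theorem uP_C (u : MvPolynomial (Fin 2) k) (a : k) : uP u (Polynomial.C a) = C a := by simp [uP]
theorem uP_X (u : MvPolynomial (Fin 2) k) : uP u Polynomial.X = u := by simp [uP]

theorem GP.ι_uP {u : MvPolynomial (Fin 2) k} (g : GP u) (s : Polynomial k) : g.ι (uP u s) = HahnSeries.C s := by
  have : g.ι.comp (uP u) = HahnSeries.C := by
    apply Polynomial.ringHom_ext
    · intro a
      rw [RingHom.comp_apply, uP_C, g.hC]
    · rw [RingHom.comp_apply, uP_X, g.hu]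
  exact RingHom.congr_fun this s

theorem Jb_C_right (u : MvPolynomial (Fin 2) k) (a : k) : Jb u (C a) = 0 := by simp [Jb]

theorem Jb_mul (u f g : MvPolynomial (Fin 2) k) : Jb u (f * g) = f * Jb u g + g * Jb u f := by
  simp only [Jb, Derivation.leibniz, smul_eq_mul]; ring

theorem Jb_self (u : MvPolynomial (Fin 2) k) : Jb u u = 0 := by simp only [Jb]; ring

theorem Jb_sub (u f g : MvPolynomial (Fin 2) k) : Jb u (f - g) = Jb u f - Jb u g := by
  simp only [Jb, map_sub]; ring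

theorem Jb_add (u f g : MvPolynomial (Fin 2) k) : Jb u (f + g) = Jb u f + Jb u g := by
  simp only [Jb, map_add]; ring

theorem Jb_uP (u : MvPolynomial (Fin 2) k) (s : Polynomial k) : Jb u (uP u s) = 0 := by
  induction s using Polynomial.induction_on with
  | C a => rw [uP_C, Jb_C_right]
  | add p q hp hq => rw [map_add, Jb_add, hp, hq, add_zero]
  | monomial n a h =>
    rw [pow_succ, ← mul_assoc, map_mul, Jb_mul, uP_X, Jb_self, h]; ring

/-- vertical: all prime factors divide some `u - c` -/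
def VertF (u f : MvPolynomial (Fin 2) k) : Prop :=
  f ≠ 0 ∧ ∀ π, Prime π → π ∣ f → ∃ c : k, π ∣ u - C c

theorem VertF.mul {u f g : MvPolynomial (Fin 2) k} (hf : VertF u f) (hg : VertF u g) : VertF u (f * g) := by
  refine ⟨mul_ne_zero hf.1 hg.1, fun π hπ h => ?_⟩
  rcases hπ.dvd_or_dvd h with h | h
  · exact hf.2 π hπ h
  · exact hg.2 π hπ h

theorem VertF.of_dvd {u f g : MvPolynomial (Fin 2) k} (hf : VertF u f) (hg : g ∣ f) : VertF u g :=
  ⟨ne_zero_of_dvd_ne_zero hf.1 hg, fun π hπ h => hf.2 π hπ (h.trans hg)⟩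

theorem VertF.one (u : MvPolynomial (Fin 2) k) : VertF u 1 :=
  ⟨one_ne_zero, fun π hπ h => absurd (isUnit_of_dvd_one h) hπ.not_isUnit⟩

theorem VertF.pow {u f : MvPolynomial (Fin 2) k} (hf : VertF u f) (n : ℕ) : VertF u (f ^ n) := by
  induction n with
  | zero => rw [pow_zero]; exact VertF.one u
  | succ n ih => rw [pow_succ]; exact ih.mul hf

theorem vertF_uP {u : MvPolynomial (Fin 2) k} (hu : Function.Injective (uP u)) (s : Polynomial k) (hs : s ≠ 0) :
    VertF u (uP u s) := by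
  refine ⟨by rw [Ne, map_eq_zero_iff _ hu]; exact hs, fun _ hπ h => ?_⟩
  have h2 := (IsAlgClosed.splits s).eq_prod_roots
  rw [h2, map_mul, uP_C] at h
  rcases hπ.dvd_or_dvd h with h3 | h3
  · exfalso
    apply hπ.not_isUnit
    apply isUnit_of_dvd_unit h3
    exact (isUnit_iff_ne_zero.2 (Polynomial.leadingCoeff_ne_zero.2 hs)).map C
  · rw [map_multiset_prod, Multiset.map_map] at h3
    obtain ⟨w, hw, h5⟩ := hπ.exists_mem_multiset_dvd h3
    obtain ⟨a, _, rfl⟩ := Multiset.mem_map.1 hw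
    refine ⟨a, ?_⟩
    rw [Function.comp_apply, map_sub, uP_X, uP_C] at h5
    exact h5

/-- fibres are reduced -/
theorem not_sq (u v π ρ : MvPolynomial (Fin 2) k) (hπ : Prime π) (hJ : Jb u v = 1) (c : k)
    (h : u - C c = π * ρ) : ¬ π ∣ ρ := by
  rintro ⟨σ, rfl⟩
  have h1 : Jb (u - C c) v = 1 := by rw [← hJ]; simp [Jb]
  rw [h] at h1
  apply hπ.not_isUnit
  apply isUnit_of_dvd_one
  rw [← h1, Jb]
  simp only [Derivation.leibniz, smul_eq_mul]
  refine ⟨(2 * σ * pderiv 0 π + π * pderiv 0 σ) * pderiv 1 v - (2 * σ * pderiv 1 π + π * pderiv 1 σ) * pderiv 0 v, ?_⟩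
  ring

theorem vert_prime_log (u v π : MvPolynomial (Fin 2) k) (hπ : Prime π) (hJ : Jb u v = 1) (c : k)
    (h : π ∣ u - C c) : π ∣ Jb u π := by
  obtain ⟨ρ, hρ⟩ := h
  have h1 : Jb u (u - C c) = 0 := by rw [Jb_sub, Jb_self, Jb_C_right, sub_zero]
  rw [hρ, Jb_mul] at h1
  have h2 : π ∣ ρ * Jb u π := ⟨-Jb u ρ, by linear_combination h1⟩
  rcases hπ.dvd_or_dvd h2 with h3 | h3
  · exact absurd h3 (not_sq u v π ρ hπ hJ c hρ)
  · exact h3

theorem vert_log (u v : MvPolynomial (Fin 2) k) (hJ : Jb u v = 1) (f : MvPolynomial (Fin 2) k) (hf : VertF u f) :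
    ∃ h, Jb u f = f * h := by
  induction f using UniqueFactorizationMonoid.induction_on_prime with
  | h₁ => exact absurd rfl hf.1
  | h₂ x hx =>
    obtain ⟨a, ha, rfl⟩ := (MvPolynomial.isUnit_iff_eq_C_of_isReduced).1 hx
    exact ⟨0, by rw [Jb_C_right, mul_zero]⟩
  | h₃ a p ha hp ih =>
    obtain ⟨h1, hh1⟩ := ih (hf.of_dvd (Dvd.intro_left p rfl))
    obtain ⟨c, hc⟩ := hf.2 p hp (Dvd.intro a rfl)
    obtain ⟨h2, hh2⟩ := vert_prime_log u v p hp hJ c hc
    refine ⟨h1 + h2, ?_⟩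
    rw [Jb_mul, hh1, hh2]; ring

theorem vert_norm (u : MvPolynomial (Fin 2) k) (f : MvPolynomial (Fin 2) k) (hf : VertF u f) :
    ∃ (f' : MvPolynomial (Fin 2) k) (s : Polynomial k), s ≠ 0 ∧ f * f' = uP u s := by
  induction f using UniqueFactorizationMonoid.induction_on_prime with
  | h₁ => exact absurd rfl hf.1
  | h₂ x hx =>
    obtain ⟨y, hy⟩ := hx.exists_right_inv
    exact ⟨y, 1, one_ne_zero, by rw [hy, map_one]⟩
  | h₃ a p ha hp ih =>
    obtain ⟨f', s, hs, h1⟩ := ih (hf.of_dvd (Dvd.intro_left p rfl))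
    obtain ⟨c, ρ, hc⟩ := hf.2 p hp (Dvd.intro a rfl)
    refine ⟨ρ * f', (Polynomial.X - Polynomial.C c) * s, mul_ne_zero (Polynomial.X_sub_C_ne_zero c) hs, ?_⟩
    rw [map_mul, ← h1, map_sub, uP_X, uP_C, hc]; ring

end vert

section exist

variable {k : Type*} [Field k] [CharZero k] [IsAlgClosed k]

theorem EY_eq (Y : HahnSeries ℚ k) (f : MvPolynomial (Fin 2) k) :
    EY Y f = Polynomial.taylor Y ((toY k f).map (e0P k)) := by
  have : EY Y = ((Polynomial.taylorAlgHom Y : Polynomial (HahnSeries ℚ k) →ₐ[_] _) :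
      Polynomial (HahnSeries ℚ k) →+* _).comp ((Polynomial.mapRingHom (e0P k)).comp (toY k)) := by
    apply MvPolynomial.ringHom_ext
    · intro a
      simp [EY_C, toY_C, e0P]
    · intro i
      fin_cases i
      · change EY Y (X 0) = Polynomial.taylorAlgHom Y (Polynomial.mapRingHom (e0P k) (toY k (X 0)))
        rw [EY_X0, toY_X0]; simp [e0P]
      · change EY Y (X 1) = Polynomial.taylorAlgHom Y (Polynomial.mapRingHom (e0P k) (toY k (X 1)))
        rw [EY_X1, toY_X1]; simp [add_comm]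
  rw [this]; rfl

theorem EY_natDegree (Y : HahnSeries ℚ k) (f : MvPolynomial (Fin 2) k) :
    (EY Y f).natDegree = (toY k f).natDegree := by
  rw [EY_eq, Polynomial.natDegree_taylor, Polynomial.natDegree_map_eq_of_injective e0P_injective]

/-- the place `g` specialises at `c` to the component `π` -/
def GP.At {u : MvPolynomial (Fin 2) k} (g : GP u) (c : k) (π : MvPolynomial (Fin 2) k) : Prop :=
  ∀ f, hmap (Polynomial.evalRingHom c) (g.ι f) = 0 ↔ π ∣ f

theorem ED.q_ne {u : MvPolynomial (Fin 2) k} {c : k} {Y : HahnSeries ℚ k} (e : ED u c Y) (ρ : k)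
    (hρ : e.p.eval ρ = 0) : e.p.derivative.eval ρ ≠ 0 := by
  intro h
  have := e.root_der ρ hρ
  rw [h] at this
  simp at this

/-- All the places above `E`. -/
theorem ED.exists_pl {u : MvPolynomial (Fin 2) k} {c : k} {Y : HahnSeries ℚ k} (e : ED u c Y)
    (hY : Y ∈ Pui k) (hu : th Y u = HahnSeries.C c) :
    ∃ pl : k → GP u, (∀ ρ, e.p.eval ρ = 0 → (pl ρ).v = e.v ∧ (pl ρ).b = e.b ∧
      (∀ f h, f ≠ 0 → Jb u f = f * h → ((pl ρ).ι f).order =
        e.a * ((EX e.r Y f).leadingCoeff.rootMultiplicity ρ : ℕ) + (EX e.r Y f).order)) ∧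
      (∀ f, hmap (Polynomial.evalRingHom c) ((pl 0).ι f) = th Y f) := by
  classical
  have hroot : ∀ ρ, e.p.eval ρ = 0 → ∃ g : GP u, g.v = e.v ∧ g.b = e.b ∧
      (∀ f h, f ≠ 0 → Jb u f = f * h → (g.ι f).order =
        e.a * ((EX e.r Y f).leadingCoeff.rootMultiplicity ρ : ℕ) + (EX e.r Y f).order) ∧
      (ρ = 0 → ∀ f, hmap (Polynomial.evalRingHom c) (g.ι f) = th Y f) := by
    intro ρ hρ
    obtain ⟨Ξ, h0, h1, h2⟩ := exists_root e hY ρ hρ (e.q_ne ρ hρ)
    refine ⟨e.gp ρ hρ Ξ h0 h1 h2, rfl, rfl, fun f h hf hfh => e.rel ρ hρ Ξ h0 h1 h2 f h hf hfh, ?_⟩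
    rintro rfl f
    exact e.sp hu hρ Ξ h0 h1 h2 f
  have h00 : e.p.eval 0 = 0 := by rw [← Polynomial.coeff_zero_eq_eval_zero]; exact e.hp0
  let pl : k → GP u := fun ρ => if h : e.p.eval ρ = 0 then (hroot ρ h).choose else (hroot 0 h00).choose
  have hpl : ∀ ρ (h : e.p.eval ρ = 0), pl ρ = (hroot ρ h).choose := fun ρ h => dif_pos h
  refine ⟨pl, ?_, ?_⟩
  · intro ρ hρ
    rw [hpl ρ hρ]
    have := (hroot ρ hρ).choose_spec
    exact ⟨this.1, this.2.1, this.2.2.1⟩
  · intro f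
    rw [hpl 0 h00]
    exact (hroot 0 h00).choose_spec.2.2.2 rfl f

theorem exists_E (u v π : MvPolynomial (Fin 2) k) (hπ : Prime π) (c : k) (hπu : π ∣ u - C c)
    (hJ : Jb u v = 1) (hm : MonY u) :
    ∃ (Y : HahnSeries ℚ k) (e : ED u c Y) (pl : k → GP u),
      (∀ ρ, e.p.eval ρ = 0 → (pl ρ).v = e.v ∧ (pl ρ).b = e.b ∧
      (∀ f h, f ≠ 0 → Jb u f = f * h → ((pl ρ).ι f).order =
        e.a * ((EX e.r Y f).leadingCoeff.rootMultiplicity ρ : ℕ) + (EX e.r Y f).order)) ∧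
      (pl 0).At c π := by
  obtain ⟨Y, hY, hu, hv, hker⟩ := exists_place u v π hπ c hπu hJ hm
  obtain ⟨e⟩ := exists_ED Y u v c hu (by
    rw [EY_natDegree, (hm.sub c).1]; exact hm.1) hJ hv
  obtain ⟨pl, h1, h2⟩ := e.exists_pl hY hu
  refine ⟨Y, e, pl, h1, fun f => ?_⟩
  rw [h2]; exact hker f

theorem exists_GP_at (u v π : MvPolynomial (Fin 2) k) (hπ : Prime π) (c : k) (hπu : π ∣ u - C c)
    (hJ : Jb u v = 1) (hm : MonY u) : ∃ g : GP u, g.At c π := by
  obtain ⟨_, _, pl, _, h⟩ := exists_E u v π hπ c hπu hJ hm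
  exact ⟨pl 0, h⟩

end exist

end Pool.Agent.H922R2.R
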