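import Mathlib
import Pool.Agent.H922R2.R8

set_option autoImplicit false
set_option linter.unusedSectionVars false
set_option linter.style.haveILetI false

open MvPolynomial

namespace Pool.Agent.H922R2.R

open Pool.Agent.H922R2 (IsDer)
open Pool.Agent.Helper165.P1 (HQ Pui)

section ordEval

variable {K' R : Type*} [CommRing K'] [CommRing R] [IsDomain R]

theorem ordEval (f : K' →+* R) (hf : Function.Injective f) (x : HahnSeries ℚ R) (hx : x.order < 0)
    (P : Polynomial K') (hP : P ≠ 0) :
    Lb (P.natDegree * x.order) (P.eval₂ (HahnSeries.C.comp f) x) ∧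
    (P.eval₂ (HahnSeries.C.comp f) x).coeff (P.natDegree * x.order) = f P.leadingCoeff * x.leadingCoeff ^ P.natDegree ∧
    (P.eval₂ (HahnSeries.C.comp f) x).order = P.natDegree * x.order ∧
    (P.eval₂ (HahnSeries.C.comp f) x).leadingCoeff = f P.leadingCoeff * x.leadingCoeff ^ P.natDegree ∧
    P.eval₂ (HahnSeries.C.comp f) x ≠ 0 := by
  have hx0 : x ≠ 0 := by rintro rfl; simp at hx
  have hlx : x.leadingCoeff ≠ 0 := HahnSeries.leadingCoeff_ne_zero.2 hx0
  have h1 : ∀ i ∈ Finset.range (P.natDegree + 1), Lb (P.natDegree * x.order)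
      ((HahnSeries.C.comp f) (P.coeff i) * x ^ i) := by
    intro i hi
    rw [Finset.mem_range] at hi
    have h2 := (Lb_C (f (P.coeff i))).mul ((Lb_order x).pow i)
    rw [zero_add] at h2
    apply h2.mono
    have h3 : (i : ℚ) ≤ P.natDegree := by exact_mod_cast Nat.lt_succ_iff.1 hi
    nlinarith
  have hL : Lb (P.natDegree * x.order) (P.eval₂ (HahnSeries.C.comp f) x) := by
    rw [Polynomial.eval₂_eq_sum_range]
    exact Lb.sum h1
  have hc : (P.eval₂ (HahnSeries.C.comp f) x).coeff (P.natDegree * x.order) =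
      f P.leadingCoeff * x.leadingCoeff ^ P.natDegree := by
    rw [Polynomial.eval₂_eq_sum_range, HahnSeries.coeff_sum, Finset.sum_range_succ, Finset.sum_eq_zero, zero_add]
    · have h2 := (Lb_C (f (P.coeff P.natDegree))).coeff_mul ((Lb_order x).pow P.natDegree)
      rw [zero_add, (Lb_order x).coeff_pow, HahnSeries.C_apply, HahnSeries.coeff_single, if_pos rfl] at h2
      rw [HahnSeries.leadingCoeff_eq, Polynomial.leadingCoeff]
      exact h2
    · intro i hi
      rw [Finset.mem_range] at hi
      have h2 := (Lb_C (f (P.coeff i))).mul ((Lb_order x).pow i)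
      rw [zero_add] at h2
      apply h2
      have h3 : (i : ℚ) < P.natDegree := by exact_mod_cast hi
      nlinarith
  have hne : (P.eval₂ (HahnSeries.C.comp f) x).coeff (P.natDegree * x.order) ≠ 0 := by
    rw [hc]
    apply mul_ne_zero _ (pow_ne_zero _ hlx)
    rw [Ne, map_eq_zero_iff _ hf]
    exact Polynomial.leadingCoeff_ne_zero.2 hP
  refine ⟨hL, hc, order_eq_of hL hne, by rw [leadingCoeff_eq_of hL hne, hc], ?_⟩
  intro h
  rw [h] at hne
  exact hne rfl

end ordEval

/-- the field `k(u)` abstractly -/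
def KK (k : Type*) [Field k] : Type _ := FractionRing (Polynomial k)

noncomputable instance instFieldKK (k : Type*) [Field k] : Field (KK k) :=
  inferInstanceAs (Field (FractionRing (Polynomial k)))

noncomputable instance instAlgebraKK (k : Type*) [Field k] : Algebra (Polynomial k) (KK k) :=
  inferInstanceAs (Algebra (Polynomial k) (FractionRing (Polynomial k)))

instance instFracKK (k : Type*) [Field k] : IsFractionRing (Polynomial k) (KK k) :=
  inferInstanceAs (IsFractionRing (Polynomial k) (FractionRing (Polynomial k)))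

noncomputable instance instAlgebraKK' (k : Type*) [Field k] : Algebra k (KK k) :=
  inferInstanceAs (Algebra k (FractionRing (Polynomial k)))

instance instTowerKK (k : Type*) [Field k] : IsScalarTower k (Polynomial k) (KK k) :=
  inferInstanceAs (IsScalarTower k (Polynomial k) (FractionRing (Polynomial k)))

section Llevel

variable {k : Type*} [Field k] [CharZero k] [IsAlgClosed k] {u : MvPolynomial (Fin 2) k}
variable {L : Type*} [Field L] [Algebra (MvPolynomial (Fin 2) k) L] [IsFractionRing (MvPolynomial (Fin 2) k) L]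
  [Algebra k L] [IsScalarTower k (MvPolynomial (Fin 2) k) L]

theorem GP.uP_inj (g : GP u) : Function.Injective (uP u) := by
  intro a b h
  have := congrArg g.ι h
  rw [g.ι_uP, g.ι_uP] at this
  exact HahnSeries.C_injective this

variable (L) in
/-- `k(X) → L`, `X ↦ u` -/
noncomputable def kap (hu : Function.Injective (uP u)) : KK k →+* L :=
  IsFractionRing.lift (A := Polynomial k) (K := KK k) (g := (algebraMap (MvPolynomial (Fin 2) k) L).comp (uP u))
    ((IsFractionRing.injective (MvPolynomial (Fin 2) k) L).comp hu)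

theorem kap_algebraMap (hu : Function.Injective (uP u)) (s : Polynomial k) :
    kap L hu (algebraMap (Polynomial k) (KK k) s) = algebraMap (MvPolynomial (Fin 2) k) L (uP u s) := by
  rw [kap, IsFractionRing.lift_algebraMap]; rfl

variable (L) in
/-- the place on the function field -/
noncomputable def GP.j (g : GP u) : L →+* HahnSeries ℚ (KK k) :=
  IsFractionRing.lift (A := MvPolynomial (Fin 2) k) (K := L)
    (g := (hmap (algebraMap (Polynomial k) (KK k))).comp g.ι)
    ((hmap_injective _ (IsFractionRing.injective (Polynomial k) (KK k))).comp g.inj)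

theorem GP.j_algebraMap (g : GP u) (f : MvPolynomial (Fin 2) k) :
    g.j L (algebraMap (MvPolynomial (Fin 2) k) L f) = hmap (algebraMap (Polynomial k) (KK k)) (g.ι f) := by
  rw [GP.j, IsFractionRing.lift_algebraMap]; rfl

theorem GP.j_kap (g : GP u) (hu : Function.Injective (uP u)) (x : KK k) :
    g.j L (kap L hu x) = HahnSeries.C x := by
  obtain ⟨a, b, hb, rfl⟩ := IsFractionRing.div_surjective (A := Polynomial k) x
  have h1 : ∀ s : Polynomial k, g.j L (kap L hu (algebraMap (Polynomial k) (KK k) s)) =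
      HahnSeries.C (algebraMap (Polynomial k) (KK k) s) := by
    intro s
    rw [kap_algebraMap, g.j_algebraMap, g.ι_uP, hmap_C]
  rw [map_div₀ (kap L hu), map_div₀ (g.j L), h1, h1]
  exact (map_div₀ (HahnSeries.C : KK k →+* HahnSeries ℚ (KK k)) _ _).symm

theorem GP.j_inj (g : GP u) : Function.Injective (g.j L) := (g.j L).injective

theorem order_hmap {R S : Type*} [CommRing R] [CommRing S] (f : R →+* S) (hf : Function.Injective f)
    (x : HahnSeries ℚ R) : (hmap f x).order = x.order ∧ (hmap f x).leadingCoeff = f x.leadingCoeff := by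
  by_cases hx : x = 0
  · subst hx; simp
  · have h1 : Lb x.order (hmap f x) := (Lb_order x).hmap f
    have h2 : (hmap f x).coeff x.order ≠ 0 := by
      rw [hmap_coeff, Ne, map_eq_zero_iff _ hf]
      exact HahnSeries.coeff_order_eq_zero.not.2 hx
    refine ⟨order_eq_of h1 h2, ?_⟩
    rw [leadingCoeff_eq_of h1 h2, hmap_coeff, HahnSeries.leadingCoeff_eq]

theorem GP.j_order (g : GP u) (f : MvPolynomial (Fin 2) k) :
    (g.j L (algebraMap (MvPolynomial (Fin 2) k) L f)).order = (g.ι f).order := by
  rw [g.j_algebraMap, (order_hmap _ (IsFractionRing.injective (Polynomial k) (KK k)) _).1]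

theorem GP.j_lc (g : GP u) (f : MvPolynomial (Fin 2) k) :
    (g.j L (algebraMap (MvPolynomial (Fin 2) k) L f)).leadingCoeff =
      algebraMap (Polynomial k) (KK k) (g.ι f).leadingCoeff := by
  rw [g.j_algebraMap, (order_hmap _ (IsFractionRing.injective (Polynomial k) (KK k)) _).2]

/-- evaluation of polynomials over `k(u)` -/
theorem GP.j_eval (g : GP u) (hu : Function.Injective (uP u)) (T : L) (P : Polynomial (KK k)) :
    g.j L (P.eval₂ (kap L hu) T) = P.eval₂ (HahnSeries.C.comp (RingHom.id (KK k))) (g.j L T) := by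
  have h : (g.j L).comp (kap L hu) = HahnSeries.C.comp (RingHom.id (KK k)) :=
    RingHom.ext fun x => by
      rw [RingHom.comp_apply, RingHom.comp_apply, RingHom.id_apply]
      exact g.j_kap hu x
  rw [Polynomial.hom_eval₂, h]

variable (u) in
/-- `T` generates the function field over `k(u)` -/
def Gen (T : L) : Prop := IntermediateField.adjoin k {algebraMap (MvPolynomial (Fin 2) k) L u, T} = ⊤

theorem kap_mem (hu : Function.Injective (uP u)) (F : IntermediateField k L)
    (hF : algebraMap (MvPolynomial (Fin 2) k) L u ∈ F) (x : KK k) : kap L hu x ∈ F := by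
  have h1 : ∀ s : Polynomial k, algebraMap (MvPolynomial (Fin 2) k) L (uP u s) ∈ F := by
    intro s
    induction s using Polynomial.induction_on with
    | C a =>
      rw [uP_C, ← MvPolynomial.algebraMap_eq, ← IsScalarTower.algebraMap_apply]
      exact F.algebraMap_mem a
    | add p q hp hq => rw [map_add, map_add]; exact add_mem hp hq
    | monomial n a h =>
      rw [pow_succ, ← mul_assoc, map_mul, map_mul, uP_X]
      exact mul_mem h hF
  obtain ⟨a, b, _, rfl⟩ := IsFractionRing.div_surjective (A := Polynomial k) x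
  rw [map_div₀, kap_algebraMap, kap_algebraMap]
  exact div_mem (h1 a) (h1 b)

theorem Gen.of_mem {T T' : L} (hT : Gen u T)
    (h : T ∈ IntermediateField.adjoin k {algebraMap (MvPolynomial (Fin 2) k) L u, T'}) : Gen u T' := by
  rw [Gen, eq_top_iff]
  rw [Gen, eq_top_iff] at hT
  apply hT.trans
  rw [IntermediateField.adjoin_le_iff]
  rintro z hz
  rcases hz with rfl | rfl
  · exact IntermediateField.subset_adjoin _ _ (Set.mem_insert _ _)
  · exact h

theorem Gen.inv {T : L} (hT : Gen u T) : Gen u T⁻¹ := by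
  apply hT.of_mem
  rw [← inv_inv T]
  apply inv_mem
  rw [inv_inv]
  exact IntermediateField.subset_adjoin _ _ (Set.mem_insert_of_mem _ rfl)

theorem Gen.sub {T : L} (hT : Gen u T) (hu : Function.Injective (uP u)) (β : KK k) : Gen u (T - kap L hu β) := by
  apply hT.of_mem
  have : T = (T - kap L hu β) + kap L hu β := by ring
  rw [this]
  apply add_mem
  · rw [sub_add_cancel]
    exact IntermediateField.subset_adjoin _ _ (Set.mem_insert_of_mem _ rfl)
  · apply kap_mem
    exact IntermediateField.subset_adjoin _ _ (Set.mem_insert _ _)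

theorem Gen.rep {T : L} (hT : Gen u T) (hu : Function.Injective (uP u)) (f : L) :
    ∃ P Q : Polynomial (KK k), Q.eval₂ (kap L hu) T ≠ 0 ∧ f * Q.eval₂ (kap L hu) T = P.eval₂ (kap L hu) T := by
  have hf : f ∈ IntermediateField.adjoin k {algebraMap (MvPolynomial (Fin 2) k) L u, T} := by
    rw [hT]; trivial
  induction hf using IntermediateField.adjoin_induction with
  | mem x hx =>
    rcases hx with rfl | rfl
    · refine ⟨Polynomial.C (algebraMap (Polynomial k) (KK k) Polynomial.X), 1, by simp, ?_⟩
      rw [Polynomial.eval₂_C, kap_algebraMap, uP_X]; simp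
    · exact ⟨Polynomial.X, 1, by simp, by simp⟩
  | algebraMap x =>
    refine ⟨Polynomial.C (algebraMap (Polynomial k) (KK k) (Polynomial.C x)), 1, by simp, ?_⟩
    rw [Polynomial.eval₂_C, kap_algebraMap, uP_C, ← MvPolynomial.algebraMap_eq, ← IsScalarTower.algebraMap_apply]
    simp
  | add x y _ _ hx hy =>
    obtain ⟨P1, Q1, h1, h1'⟩ := hx
    obtain ⟨P2, Q2, h2, h2'⟩ := hy
    refine ⟨P1 * Q2 + P2 * Q1, Q1 * Q2, ?_, ?_⟩
    · rw [Polynomial.eval₂_mul]; exact mul_ne_zero h1 h2
    · rw [Polynomial.eval₂_mul, Polynomial.eval₂_add, Polynomial.eval₂_mul, Polynomial.eval₂_mul, ← h1', ← h2']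
      ring
  | inv x _ hx =>
    obtain ⟨P1, Q1, h1, h1'⟩ := hx
    by_cases hx0 : x = 0
    · exact ⟨0, 1, by simp, by rw [hx0]; simp⟩
    · refine ⟨Q1, P1, ?_, ?_⟩
      · rw [← h1']; exact mul_ne_zero hx0 h1
      · rw [← h1', ← mul_assoc, inv_mul_cancel₀ hx0, one_mul]
  | mul x y _ _ hx hy =>
    obtain ⟨P1, Q1, h1, h1'⟩ := hx
    obtain ⟨P2, Q2, h2, h2'⟩ := hy
    refine ⟨P1 * P2, Q1 * Q2, ?_, ?_⟩
    · rw [Polynomial.eval₂_mul]; exact mul_ne_zero h1 h2
    · rw [Polynomial.eval₂_mul, Polynomial.eval₂_mul, ← h1', ← h2']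
      ring

theorem Gen.rep' {T : L} (hT : Gen u T) (hu : Function.Injective (uP u)) (f : L) :
    ∃ P Q : Polynomial (KK k), IsCoprime P Q ∧ Q.eval₂ (kap L hu) T ≠ 0 ∧
      f * Q.eval₂ (kap L hu) T = P.eval₂ (kap L hu) T := by
  classical
  obtain ⟨P, Q, h1, h2⟩ := hT.rep hu f
  have hQ : Q ≠ 0 := by rintro rfl; simp at h1
  obtain ⟨P', hP'⟩ := EuclideanDomain.gcd_dvd_left P Q
  obtain ⟨Q', hQ'⟩ := EuclideanDomain.gcd_dvd_right P Q
  set D := EuclideanDomain.gcd P Q with hD
  have hD0 : D ≠ 0 := by
    intro h; rw [h, zero_mul] at hQ'; exact hQ hQ'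
  have hcop : IsCoprime P' Q' := by
    have h3 := EuclideanDomain.gcd_eq_gcd_ab P Q
    rw [← hD] at h3
    refine ⟨EuclideanDomain.gcdA P Q, EuclideanDomain.gcdB P Q, ?_⟩
    apply mul_left_cancel₀ hD0
    linear_combination (-1 : Polynomial (KK k)) * h3 - EuclideanDomain.gcdA P Q * hP' - EuclideanDomain.gcdB P Q * hQ'
  refine ⟨P', Q', hcop, ?_, ?_⟩
  · intro h
    apply h1
    rw [hQ', Polynomial.eval₂_mul, h, mul_zero]
  · have hDT : D.eval₂ (kap L hu) T ≠ 0 := by
      intro h
      apply h1
      rw [hQ', Polynomial.eval₂_mul, h, zero_mul]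
    apply mul_left_cancel₀ hDT
    rw [hP', hQ', Polynomial.eval₂_mul, Polynomial.eval₂_mul] at h2
    linear_combination h2

end Llevel

end Pool.Agent.H922R2.R
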