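import Mathlib
import Pool.Agent.H922R2.R9

set_option autoImplicit false
set_option linter.unusedSectionVars false
set_option linter.style.haveILetI false

open MvPolynomial

namespace Pool.Agent.H922R2.R

open Pool.Agent.H922R2 (IsDer)
open Pool.Agent.Helper165.P1 (HQ Pui)

section den

variable {k : Type*} [Field k] [CharZero k] [IsAlgClosed k] {u : MvPolynomial (Fin 2) k}
variable {L : Type*} [Field L] [Algebra (MvPolynomial (Fin 2) k) L] [IsFractionRing (MvPolynomial (Fin 2) k) L]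
  [Algebra k L] [IsScalarTower k (MvPolynomial (Fin 2) k) L]

theorem homog (T : L) (n d : MvPolynomial (Fin 2) k) (hT : T * (algebraMap (MvPolynomial (Fin 2) k) L) d = (algebraMap (MvPolynomial (Fin 2) k) L) n)
    (F : Polynomial (MvPolynomial (Fin 2) k)) (N : ℕ) (hN : F.natDegree ≤ N) :
    (algebraMap (MvPolynomial (Fin 2) k) L) d ^ N * F.eval₂ (algebraMap (MvPolynomial (Fin 2) k) L) T = (algebraMap (MvPolynomial (Fin 2) k) L) (∑ i ∈ Finset.range (N + 1), F.coeff i * n ^ i * d ^ (N - i)) := by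
  rw [Polynomial.eval₂_eq_sum_range' (algebraMap (MvPolynomial (Fin 2) k) L) (Nat.lt_succ_of_le hN), Finset.mul_sum, map_sum]
  apply Finset.sum_congr rfl
  intro i hi
  rw [Finset.mem_range] at hi
  rw [map_mul, map_mul, map_pow, map_pow, ← hT, mul_pow]
  have h : (algebraMap (MvPolynomial (Fin 2) k) L) d ^ N = (algebraMap (MvPolynomial (Fin 2) k) L) d ^ i * (algebraMap (MvPolynomial (Fin 2) k) L) d ^ (N - i) := by
    rw [← pow_add]; congr 1; omega
  rw [h]; ring

theorem homog_split (n d : MvPolynomial (Fin 2) k) (F : Polynomial (MvPolynomial (Fin 2) k)) (N : ℕ) :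
    ∃ G, ∑ i ∈ Finset.range (N + 1), F.coeff i * n ^ i * d ^ (N - i) = F.coeff N * n ^ N + d * G := by
  refine ⟨∑ i ∈ Finset.range N, F.coeff i * n ^ i * d ^ (N - i - 1), ?_⟩
  rw [Finset.sum_range_succ, Nat.sub_self, pow_zero, mul_one, add_comm, Finset.mul_sum]
  congr 1
  apply Finset.sum_congr rfl
  intro i hi
  rw [Finset.mem_range] at hi
  have h : d ^ (N - i) = d ^ (N - i - 1) * d := by
    rw [← pow_succ]; congr 1; omega
  rw [h]; ring

theorem clearD (hu : Function.Injective (uP u)) (P : Polynomial (KK k)) (hP : P ≠ 0) :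
    ∃ (b : Polynomial k) (P' : Polynomial (Polynomial k)), b ≠ 0 ∧ P'.natDegree = P.natDegree ∧ P' ≠ 0 ∧
      ∀ T : L, (algebraMap (MvPolynomial (Fin 2) k) L) (uP u b) * P.eval₂ (kap L hu) T = (P'.map (uP u)).eval₂ (algebraMap (MvPolynomial (Fin 2) k) L) T := by
  obtain ⟨b, hb, hbe⟩ := IsLocalization.integerNormalization_spec (nonZeroDivisors (Polynomial k)) (S := KK k) P
  have hb0 : b ≠ 0 := nonZeroDivisors.ne_zero hb
  have hinj : Function.Injective (algebraMap (Polynomial k) (KK k)) := IsFractionRing.injective _ _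
  set P' := IsLocalization.integerNormalization (nonZeroDivisors (Polynomial k)) P with hP'
  have hbe' : P'.map (algebraMap (Polynomial k) (KK k)) = Polynomial.C (algebraMap (Polynomial k) (KK k) b) * P := by
    rw [hbe]
    ext i
    rw [Polynomial.coeff_C_mul, Polynomial.coeff_smul, Algebra.smul_def]
  have hb1 : algebraMap (Polynomial k) (KK k) b ≠ 0 := by
    rw [Ne, map_eq_zero_iff _ hinj]; exact hb0
  refine ⟨b, P', hb0, ?_, ?_, ?_⟩
  · have h1 := congrArg Polynomial.natDegree hbe'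
    rw [Polynomial.natDegree_map_eq_of_injective hinj, Polynomial.natDegree_C_mul hb1] at h1
    exact h1
  · intro h
    rw [h, Polynomial.map_zero] at hbe'
    exact mul_ne_zero (Polynomial.C_ne_zero.2 hb1) hP hbe'.symm
  · intro T
    have h2 := congrArg (Polynomial.eval₂ (kap L hu) T) hbe'
    rw [Polynomial.eval₂_mul, Polynomial.eval₂_C, kap_algebraMap] at h2
    rw [← h2, Polynomial.eval₂_map, Polynomial.eval₂_map]
    have h3 : (kap L hu).comp (algebraMap (Polynomial k) (KK k)) = ((algebraMap (MvPolynomial (Fin 2) k) L)).comp (uP u) :=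
      RingHom.ext fun s => by
        rw [RingHom.comp_apply, RingHom.comp_apply, kap_algebraMap]
    rw [h3]

/-- order of `P(T)` at a place -/
theorem GP.ord_P (g : GP u) (hu : Function.Injective (uP u)) (T : L) (hT : (g.j L T).order < 0)
    (P : Polynomial (KK k)) (hP : P ≠ 0) :
    (g.j L (P.eval₂ (kap L hu) T)).order = P.natDegree * (g.j L T).order ∧
    (g.j L (P.eval₂ (kap L hu) T)).leadingCoeff = P.leadingCoeff * (g.j L T).leadingCoeff ^ P.natDegree ∧
    P.eval₂ (kap L hu) T ≠ 0 := by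
  have h := ordEval (RingHom.id (KK k)) Function.injective_id (g.j L T) hT P hP
  rw [← g.j_eval hu] at h
  refine ⟨h.2.2.1, by simpa using h.2.2.2.1, ?_⟩
  intro h0
  rw [h0, map_zero] at h
  exact h.2.2.2.2 rfl

theorem GP.x_order (g : GP u) : (g.j L ((algebraMap (MvPolynomial (Fin 2) k) L) (X 0))).order = -1 := by
  rw [g.j_order, g.hx, HahnSeries.order_single one_ne_zero]

/-- the denominator is vertical -/
theorem vertF_den (g : GP u) (T : L) (hT : Gen u T) (hord : (g.j L T).order < 0)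
    (n d : MvPolynomial (Fin 2) k) (hd : d ≠ 0) (hTd : T * (algebraMap (MvPolynomial (Fin 2) k) L) d = (algebraMap (MvPolynomial (Fin 2) k) L) n) (hrel : IsRelPrime n d) :
    VertF u d := by
  have hu := g.uP_inj
  have hinj : Function.Injective ((algebraMap (MvPolynomial (Fin 2) k) L)) := IsFractionRing.injective (MvPolynomial (Fin 2) k) L
  obtain ⟨P, Q, _, hQT, hPQ⟩ := hT.rep' hu ((algebraMap (MvPolynomial (Fin 2) k) L) (X 0))
  have hQ0 : Q ≠ 0 := by rintro rfl; simp at hQT
  have hx0 : (algebraMap (MvPolynomial (Fin 2) k) L) (X 0) ≠ 0 := by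
    rw [Ne, map_eq_zero_iff _ hinj]; exact MvPolynomial.X_ne_zero _
  have hP0 : P ≠ 0 := by
    rintro rfl
    rw [Polynomial.eval₂_zero] at hPQ
    exact mul_ne_zero hx0 hQT hPQ
  have h1 := g.ord_P hu T hord P hP0
  have h2 := g.ord_P hu T hord Q hQ0
  have hlt : Q.natDegree < P.natDegree := by
    have h3 := congrArg (fun z => (g.j L z).order) hPQ
    simp only [map_mul] at h3
    have hj0 : ∀ z : L, z ≠ 0 → g.j L z ≠ 0 := fun z hz => by
      rw [Ne, map_eq_zero_iff _ g.j_inj]; exact hz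
    rw [HahnSeries.order_mul (hj0 _ hx0) (hj0 _ hQT), g.x_order, h1.1, h2.1] at h3
    by_contra hcon
    push Not at hcon
    have h4 : (P.natDegree : ℚ) ≤ Q.natDegree := by exact_mod_cast hcon
    nlinarith
  obtain ⟨b1, P', hb1, hP'd, hP'0, hP'e⟩ := clearD (L := L) hu P hP0
  obtain ⟨b2, Q', hb2, hQ'd, hQ'0, hQ'e⟩ := clearD (L := L) hu Q hQ0
  set N := P.natDegree with hN
  have hPd : (P'.map (uP u)).natDegree ≤ N := by
    rw [Polynomial.natDegree_map_eq_of_injective hu, hP'd]
  have hQd : (Q'.map (uP u)).natDegree ≤ N := by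
    rw [Polynomial.natDegree_map_eq_of_injective hu, hQ'd]; exact hlt.le
  have e1 := homog T n d hTd _ N hPd
  have e2 := homog T n d hTd _ N hQd
  obtain ⟨G1, hG1⟩ := homog_split n d (P'.map (uP u)) N
  obtain ⟨G2, hG2⟩ := homog_split n d (Q'.map (uP u)) N
  rw [hG1] at e1
  rw [hG2] at e2
  have hQc : (Q'.map (uP u)).coeff N = 0 := by
    apply Polynomial.coeff_eq_zero_of_natDegree_lt
    rw [Polynomial.natDegree_map_eq_of_injective hu, hQ'd]; exact hlt
  have hPc : (P'.map (uP u)).coeff N = uP u P'.leadingCoeff := by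
    rw [Polynomial.coeff_map, Polynomial.leadingCoeff, hP'd]
  rw [hQc, zero_mul, zero_add] at e2
  rw [hPc] at e1
  have key : X 0 * uP u b1 * (d * G2) = uP u b2 * (uP u P'.leadingCoeff * n ^ N + d * G1) := by
    apply hinj
    rw [map_mul, map_mul, map_mul ((algebraMap (MvPolynomial (Fin 2) k) L)) (uP u b2), ← e1, ← e2, ← hP'e, ← hQ'e, ← hPQ]
    ring
  refine ⟨hd, fun π hπ hπd => ?_⟩
  have hπn : ¬ π ∣ n := fun h => hπ.not_isUnit (hrel h hπd)
  have h5 : π ∣ uP u (b2 * P'.leadingCoeff) * n ^ N := by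
    obtain ⟨d', hd'⟩ := hπd
    refine ⟨X 0 * uP u b1 * (d' * G2) - uP u b2 * (d' * G1), ?_⟩
    rw [map_mul]
    rw [hd'] at key
    linear_combination -key
  rcases hπ.dvd_or_dvd h5 with h6 | h6
  · exact (vertF_uP hu (b2 * P'.leadingCoeff) (mul_ne_zero hb2 (Polynomial.leadingCoeff_ne_zero.2 hP'0))).2 π hπ h6
  · exact absurd (hπ.dvd_of_dvd_pow h6) hπn

/-- the ring of fractions with vertical denominators -/
def AKm (u : MvPolynomial (Fin 2) k) (z : L) : Prop :=
  ∃ D n : MvPolynomial (Fin 2) k, VertF u D ∧ z * (algebraMap (MvPolynomial (Fin 2) k) L) D = (algebraMap (MvPolynomial (Fin 2) k) L) n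

theorem AKm.add {y z : L} (hy : AKm u y) (hz : AKm u z) : AKm u (y + z) := by
  obtain ⟨D1, n1, h1, e1⟩ := hy
  obtain ⟨D2, n2, h2, e2⟩ := hz
  refine ⟨D1 * D2, n1 * D2 + n2 * D1, h1.mul h2, ?_⟩
  rw [map_mul, map_add, map_mul, map_mul, ← e1, ← e2]; ring

theorem AKm.mul {y z : L} (hy : AKm u y) (hz : AKm u z) : AKm u (y * z) := by
  obtain ⟨D1, n1, h1, e1⟩ := hy
  obtain ⟨D2, n2, h2, e2⟩ := hz
  refine ⟨D1 * D2, n1 * n2, h1.mul h2, ?_⟩
  rw [map_mul, map_mul, ← e1, ← e2]; ring

theorem AKm.neg {y : L} (hy : AKm u y) : AKm u (-y) := by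
  obtain ⟨D1, n1, h1, e1⟩ := hy
  exact ⟨D1, -n1, h1, by rw [map_neg, ← e1]; ring⟩

theorem AKm.sub {y z : L} (hy : AKm u y) (hz : AKm u z) : AKm u (y - z) := by
  rw [sub_eq_add_neg]; exact hy.add hz.neg

theorem AKm.alg (f : MvPolynomial (Fin 2) k) : AKm u (algebraMap (MvPolynomial (Fin 2) k) L f) :=
  ⟨1, f, VertF.one u, by rw [map_one, mul_one]⟩

theorem AKm.kap (hu : Function.Injective (uP u)) (x : KK k) : AKm u (kap L hu x) := by
  obtain ⟨a, b, hb, rfl⟩ := IsFractionRing.div_surjective (A := Polynomial k) x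
  refine ⟨uP u b, uP u a, vertF_uP hu b (nonZeroDivisors.ne_zero hb), ?_⟩
  rw [map_div₀, kap_algebraMap, kap_algebraMap, div_mul_cancel₀]
  rw [Ne, map_eq_zero_iff _ (IsFractionRing.injective (MvPolynomial (Fin 2) k) L), map_eq_zero_iff _ hu]
  exact nonZeroDivisors.ne_zero hb

theorem AKm.pow {y : L} (hy : AKm u y) (n : ℕ) : AKm u (y ^ n) := by
  induction n with
  | zero => rw [pow_zero, ← map_one (algebraMap (MvPolynomial (Fin 2) k) L)]; exact AKm.alg 1
  | succ n ih => rw [pow_succ]; exact ih.mul hy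

theorem AKm.sum {ι : Type*} (s : Finset ι) (f : ι → L) (h : ∀ i ∈ s, AKm u (f i)) : AKm u (∑ i ∈ s, f i) := by
  classical
  induction s using Finset.induction_on with
  | empty =>
    rw [Finset.sum_empty, ← map_zero (algebraMap (MvPolynomial (Fin 2) k) L)]; exact AKm.alg 0
  | insert a s ha ih =>
    rw [Finset.sum_insert ha]
    exact (h a (Finset.mem_insert_self _ _)).add (ih fun i hi => h i (Finset.mem_insert_of_mem hi))

theorem AKm.eval (hu : Function.Injective (uP u)) {T : L} (hT : AKm u T) (P : Polynomial (KK k)) :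
    AKm u (P.eval₂ (R.kap L hu) T) := by
  rw [Polynomial.eval₂_eq_sum_range]
  exact AKm.sum _ _ fun i _ => (AKm.kap hu _).mul (hT.pow i)

/-- a divisor of a vertical element in the localised ring is vertical -/
theorem VertF.of_unit {f d : MvPolynomial (Fin 2) k} (hd : VertF u d) {W : L} (hW : AKm u W)
    (h : (algebraMap (MvPolynomial (Fin 2) k) L) f * W = (algebraMap (MvPolynomial (Fin 2) k) L) d) : VertF u f := by
  obtain ⟨D, n, hD, e⟩ := hW
  apply (hd.mul hD).of_dvd (g := f)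
  refine ⟨n, ?_⟩
  apply IsFractionRing.injective (MvPolynomial (Fin 2) k) L
  rw [map_mul, map_mul, ← h, ← e]; ring

end den

end Pool.Agent.H922R2.R
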