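import Mathlib
import Pool.Agent.H922R2.R10

set_option autoImplicit false
set_option linter.unusedSectionVars false
set_option linter.style.haveILetI false

open MvPolynomial

namespace Pool.Agent.H922R2.R

open Pool.Agent.H922R2 (IsDer)
open Pool.Agent.Helper165.P1 (HQ Pui)

section der

variable {k : Type*} [Field k] [CharZero k] [IsAlgClosed k] {u : MvPolynomial (Fin 2) k}
variable {L : Type*} [Field L] [Algebra (MvPolynomial (Fin 2) k) L] [IsFractionRing (MvPolynomial (Fin 2) k) L]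
  [Algebra k L] [IsScalarTower k (MvPolynomial (Fin 2) k) L]

theorem IsDer.pow {S : Type*} [CommRing S] {D : S → S} (hD : IsDer D) (x : S) (n : ℕ) :
    D (x ^ (n + 1)) = (n + 1) * x ^ n * D x := by
  induction n with
  | zero => simp
  | succ n ih =>
    rw [pow_succ, hD.mul, ih]
    push_cast
    ring

theorem IsDer.eval₂ {S K' : Type*} [CommRing S] [CommRing K'] {D : S → S} (hD : IsDer D) (f : K' →+* S)
    (hf : ∀ a, D (f a) = 0) (x : S) (P : Polynomial K') :
    D (P.eval₂ f x) = P.derivative.eval₂ f x * D x := by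
  have hz : D 0 = 0 := Pool.Agent.H922R2.IsDer.zero hD
  induction P using Polynomial.induction_on' with
  | add p q hp hq =>
    rw [Polynomial.eval₂_add, hD.add, hp, hq, map_add, Polynomial.eval₂_add]; ring
  | monomial n a =>
    rcases n with _ | n
    · rw [Polynomial.eval₂_monomial, pow_zero, mul_one, hf, Polynomial.derivative_monomial]
      simp
    · rw [Polynomial.eval₂_monomial, hD.mul, hf, mul_zero, add_zero, IsDer.pow hD, Polynomial.derivative_monomial,
        Polynomial.eval₂_monomial, Nat.add_sub_cancel, map_mul, map_natCast]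
      push_cast
      ring

theorem GP.j_der (g : GP u) (f : MvPolynomial (Fin 2) k) :
    eul k (g.j L ((algebraMap (MvPolynomial (Fin 2) k) L) f)) = g.j L ((algebraMap (MvPolynomial (Fin 2) k) L) (Jb u f)) * eul k (g.j L ((algebraMap (MvPolynomial (Fin 2) k) L) g.v)) := by
  have h : ∀ x : HahnSeries ℚ (Polynomial k), hmap (algebraMap (Polynomial k) (KK k)) (eul k x) =
      eul k (hmap (algebraMap (Polynomial k) (KK k)) x) :=
    fun x => hmap_eul k (IsScalarTower.toAlgHom k (Polynomial k) (KK k)) x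
  rw [g.j_algebraMap, g.j_algebraMap, g.j_algebraMap, ← h, ← h, g.der f, map_mul]

theorem GP.j_eul_v_ne (g : GP u) : eul k (g.j L ((algebraMap (MvPolynomial (Fin 2) k) L) g.v)) ≠ 0 := by
  have h : ∀ x : HahnSeries ℚ (Polynomial k), hmap (algebraMap (Polynomial k) (KK k)) (eul k x) =
      eul k (hmap (algebraMap (Polynomial k) (KK k)) x) :=
    fun x => hmap_eul k (IsScalarTower.toAlgHom k (Polynomial k) (KK k)) x
  rw [g.j_algebraMap, ← h, Ne, map_eq_zero_iff _ (hmap_injective _ (IsFractionRing.injective (Polynomial k) (KK k)))]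
  exact g.eul_v_ne

/-- `h` is the derivative of `T` -/
def GP.IsD (g : GP u) (T h : L) : Prop := eul k (g.j L T) = g.j L h * eul k (g.j L ((algebraMap (MvPolynomial (Fin 2) k) L) g.v))

theorem GP.isD_frac (g : GP u) (T : L) (n d hd : MvPolynomial (Fin 2) k) (hd0 : d ≠ 0) (hTd : T * (algebraMap (MvPolynomial (Fin 2) k) L) d = (algebraMap (MvPolynomial (Fin 2) k) L) n)
    (hdd : Jb u d = d * hd) (h : L) (hh : h * (algebraMap (MvPolynomial (Fin 2) k) L) d = (algebraMap (MvPolynomial (Fin 2) k) L) (Jb u n - n * hd)) : g.IsD T h := by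
  have hinj : Function.Injective ((algebraMap (MvPolynomial (Fin 2) k) L)) := IsFractionRing.injective (MvPolynomial (Fin 2) k) L
  have hdne : g.j L ((algebraMap (MvPolynomial (Fin 2) k) L) d) ≠ 0 := by
    rw [Ne, map_eq_zero_iff _ g.j_inj, map_eq_zero_iff _ hinj]; exact hd0
  have h1 : eul k (g.j L (T * (algebraMap (MvPolynomial (Fin 2) k) L) d)) = eul k (g.j L ((algebraMap (MvPolynomial (Fin 2) k) L) n)) := by rw [hTd]
  rw [map_mul, (eul_isDer k).mul, g.j_der d, g.j_der n, hdd] at h1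
  rw [GP.IsD]
  apply mul_left_cancel₀ hdne
  have h2 : g.j L (h * (algebraMap (MvPolynomial (Fin 2) k) L) d) = g.j L ((algebraMap (MvPolynomial (Fin 2) k) L) (Jb u n - n * hd)) := by rw [hh]
  have h3 : g.j L (T * (algebraMap (MvPolynomial (Fin 2) k) L) d) = g.j L ((algebraMap (MvPolynomial (Fin 2) k) L) n) := by rw [hTd]
  rw [map_mul] at h2 h3
  rw [map_sub, map_sub, map_mul, map_mul (g.j L), ← h3] at h2
  rw [map_mul ((algebraMap (MvPolynomial (Fin 2) k) L)), map_mul (g.j L)] at h1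
  linear_combination h1 - eul k (g.j L ((algebraMap (MvPolynomial (Fin 2) k) L) g.v)) * h2

theorem GP.der_identity (g : GP u) (hu : Function.Injective (uP u)) (T h : L) (hh : g.IsD T h)
    (v : MvPolynomial (Fin 2) k) (hJ : Jb u v = 1)
    (P Q : Polynomial (KK k)) (hPQ : (algebraMap (MvPolynomial (Fin 2) k) L) v * Q.eval₂ (kap L hu) T = P.eval₂ (kap L hu) T) :
    Q.eval₂ (kap L hu) T + (algebraMap (MvPolynomial (Fin 2) k) L) v * (Q.derivative.eval₂ (kap L hu) T * h) = P.derivative.eval₂ (kap L hu) T * h := by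
  have hC : ∀ a : KK k, eul k ((HahnSeries.C.comp (RingHom.id (KK k))) a) = 0 := by
    intro a
    rw [RingHom.comp_apply]
    exact eul_C k a
  apply g.j_inj
  apply mul_right_cancel₀ (g.j_eul_v_ne (L := L))
  have h1 : eul k (g.j L ((algebraMap (MvPolynomial (Fin 2) k) L) v * Q.eval₂ (kap L hu) T)) = eul k (g.j L (P.eval₂ (kap L hu) T)) := by rw [hPQ]
  rw [map_mul, (eul_isDer k).mul, g.j_eval, g.j_eval, IsDer.eval₂ (eul_isDer k) _ hC,
    IsDer.eval₂ (eul_isDer k) _ hC, g.j_der v, hJ, map_one, map_one, one_mul, hh] at h1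
  rw [map_add, map_mul, map_mul, map_mul, g.j_eval, g.j_eval, g.j_eval]
  linear_combination h1

theorem unit_of (hu : Function.Injective (uP u)) (T h : L) (v : MvPolynomial (Fin 2) k)
    (P Q A1 B1 : Polynomial (KK k)) (hcop : A1 * P + B1 * Q = 1)
    (hPQ : (algebraMap (MvPolynomial (Fin 2) k) L) v * Q.eval₂ (kap L hu) T = P.eval₂ (kap L hu) T)
    (hid : Q.eval₂ (kap L hu) T + (algebraMap (MvPolynomial (Fin 2) k) L) v * (Q.derivative.eval₂ (kap L hu) T * h) =
      P.derivative.eval₂ (kap L hu) T * h) :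
    h * ((P.derivative.eval₂ (kap L hu) T - (algebraMap (MvPolynomial (Fin 2) k) L) v * Q.derivative.eval₂ (kap L hu) T) *
      (A1.eval₂ (kap L hu) T * (algebraMap (MvPolynomial (Fin 2) k) L) v + B1.eval₂ (kap L hu) T)) = 1 := by
  have h1 := congrArg (Polynomial.eval₂ (kap L hu) T) hcop
  rw [Polynomial.eval₂_add, Polynomial.eval₂_mul, Polynomial.eval₂_mul, Polynomial.eval₂_one, ← hPQ] at h1
  linear_combination h1 - (A1.eval₂ (kap L hu) T * (algebraMap (MvPolynomial (Fin 2) k) L) v + B1.eval₂ (kap L hu) T) * hid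

/-- the derivative of the generator is a unit of the localised ring -/
theorem exists_W (g : GP u) (T h : L) (hT : Gen u T) (hTA : AKm u T) (hh : g.IsD T h)
    (v : MvPolynomial (Fin 2) k) (hJ : Jb u v = 1) : ∃ W : L, AKm u W ∧ h * W = 1 := by
  have hu := g.uP_inj
  obtain ⟨P, Q, ⟨A1, B1, hcop⟩, _, hPQ⟩ := hT.rep' hu ((algebraMap (MvPolynomial (Fin 2) k) L) v)
  have hid := g.der_identity hu T h hh v hJ P Q hPQ
  refine ⟨_, ?_, unit_of hu T h v P Q A1 B1 hcop hPQ hid⟩
  exact ((hTA.eval hu _).sub ((AKm.alg v).mul (hTA.eval hu _))).mul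
    (((hTA.eval hu _).mul (AKm.alg v)).add (hTA.eval hu _))

theorem frac_order (g : GP u) (T : L) (n d : MvPolynomial (Fin 2) k) (hn0 : n ≠ 0) (hd0 : d ≠ 0)
    (hTd : T * (algebraMap (MvPolynomial (Fin 2) k) L) d = (algebraMap (MvPolynomial (Fin 2) k) L) n) : (g.j L T).order = (g.ι n).order - (g.ι d).order := by
  have hinj : Function.Injective ((algebraMap (MvPolynomial (Fin 2) k) L)) := IsFractionRing.injective (MvPolynomial (Fin 2) k) L
  have hdne : g.j L ((algebraMap (MvPolynomial (Fin 2) k) L) d) ≠ 0 := by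
    rw [Ne, map_eq_zero_iff _ g.j_inj, map_eq_zero_iff _ hinj]; exact hd0
  have hT0 : T ≠ 0 := by
    rintro rfl
    rw [zero_mul] at hTd
    exact hn0 (hinj (by rw [← hTd, map_zero]))
  have hTne : g.j L T ≠ 0 := by
    rw [Ne, map_eq_zero_iff _ g.j_inj]; exact hT0
  have h := congrArg (fun z => (g.j L z).order) hTd
  simp only [map_mul] at h
  rw [HahnSeries.order_mul hTne hdne, g.j_order, g.j_order] at h
  linarith

/-- Step 6 -/
theorem step6 (v : MvPolynomial (Fin 2) k) (hJ : Jb u v = 1) (hm : MonY u) (T : L) (hT : Gen u T)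
    (n d : MvPolynomial (Fin 2) k) (hn : VertF u n) (hd : VertF u d) (hTd : T * (algebraMap (MvPolynomial (Fin 2) k) L) d = (algebraMap (MvPolynomial (Fin 2) k) L) n)
    (hne : ∀ g : GP u, (g.j L T).order ≠ 0) (g0 : GP u) : False := by
  have hinj : Function.Injective ((algebraMap (MvPolynomial (Fin 2) k) L)) := IsFractionRing.injective (MvPolynomial (Fin 2) k) L
  obtain ⟨hn', hhn⟩ := vert_log u v hJ n hn
  obtain ⟨hd', hhd⟩ := vert_log u v hJ d hd
  set H := hn' - hd' with hH
  have hisD : g0.IsD T (T * (algebraMap (MvPolynomial (Fin 2) k) L) H) := by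
    apply g0.isD_frac T n d hd' hd.1 hTd hhd
    rw [mul_right_comm, hTd, ← map_mul, hhn, hH]
    congr 1; ring
  obtain ⟨W, hW, hW1⟩ := exists_W g0 T (T * (algebraMap (MvPolynomial (Fin 2) k) L) H) hT ⟨d, n, hd, hTd⟩ hisD v hJ
  have hvH : VertF u H := by
    apply VertF.of_unit (VertF.one u) ((show AKm u T from ⟨d, n, hd, hTd⟩).mul hW)
    rw [map_one, ← hW1]; ring
  have hlog : ∀ g : GP u, Lb g.b (g.ι H) ∧ (g.ι H).coeff g.b * Polynomial.C (-(g.b : k) * g.β) =
      Polynomial.C (((g.j L T).order : ℚ) : k) := by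
    intro g
    have h1 := g.log n hn' hn.1 hhn
    have h2 := g.log d hd' hd.1 hhd
    refine ⟨?_, ?_⟩
    · rw [hH, map_sub]; exact h1.1.sub h2.1
    · rw [hH, map_sub, HahnSeries.coeff_sub, sub_mul, h1.2, h2.2, frac_order g T n d hn.1 hd.1 hTd]
      push_cast
      rw [map_sub]
  have hnop : ∀ π, Prime π → ¬ π ∣ H := by
    intro π hπ hdiv
    obtain ⟨c, hc⟩ := hvH.2 π hπ hdiv
    obtain ⟨g, hg⟩ := exists_GP_at u v π hπ c hc hJ hm
    have h1 := (hg H).2 hdiv
    have h2 := (hlog g).2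
    have h3 := congrArg (Polynomial.eval c) h2
    have h4 : ((g.ι H).coeff g.b).eval c = 0 := by
      have := congrArg (fun z => HahnSeries.coeff z g.b) h1
      exact this
    rw [Polynomial.eval_mul, h4, zero_mul, Polynomial.eval_C] at h3
    exact hne g (by exact_mod_cast h3.symm)
  have hunit : IsUnit H := by
    by_contra hnu
    obtain ⟨π, hπ, hdiv⟩ := WfDvdMonoid.exists_irreducible_factor hnu hvH.1
    exact hnop π (UniqueFactorizationMonoid.irreducible_iff_prime.1 hπ) hdiv
  obtain ⟨κ, hκ, hκH⟩ := (MvPolynomial.isUnit_iff_eq_C_of_isReduced).1 hunit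
  have h5 := (hlog g0).1 0 g0.hb
  rw [hκH, g0.hC, HahnSeries.C_apply, HahnSeries.coeff_single, if_pos rfl] at h5
  exact hκ.ne_zero (Polynomial.C_eq_zero.1 h5)

end der

end Pool.Agent.H922R2.R
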