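import Mathlib
import Pool.Agent.H922R2.R11

set_option autoImplicit false
set_option linter.unusedSectionVars false
set_option linter.style.haveILetI false

open MvPolynomial

namespace Pool.Agent.H922R2.R

open Pool.Agent.H922R2 (IsDer)
open Pool.Agent.Helper165.P1 (HQ Pui)

section lc

variable {k : Type*} [Field k] [CharZero k] [IsAlgClosed k] {u : MvPolynomial (Fin 2) k}

/-- a product of prime factors -/
theorem sqfree_dvd (n x : MvPolynomial (Fin 2) k) (hx : x ≠ 0) (h1 : ∀ π, Prime π → ¬ π * π ∣ x)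
    (h2 : ∀ π, Prime π → π ∣ x → π ∣ n) : x ∣ n := by
  induction x using UniqueFactorizationMonoid.induction_on_prime with
  | h₁ => exact absurd rfl hx
  | h₂ x hxu => exact hxu.dvd
  | h₃ a p ha hp ih =>
    have hpa : ¬ p ∣ a := by
      rintro ⟨b, rfl⟩
      exact h1 p hp ⟨b, by ring⟩
    obtain ⟨m, hm⟩ := ih ha (fun π hπ h => h1 π hπ (h.mul_left p)) (fun π hπ h => h2 π hπ (h.mul_left p))
    have h3 : p ∣ a * m := by rw [← hm]; exact h2 p hp (Dvd.intro a rfl)
    obtain ⟨m', rfl⟩ := (hp.dvd_or_dvd h3).resolve_left hpa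
    exact ⟨m', by rw [hm]; ring⟩

theorem all_coeff_dvd (c : k) (x : HahnSeries ℚ (Polynomial k)) (hx : hmap (Polynomial.evalRingHom c) x = 0) :
    ∃ y : HahnSeries ℚ (Polynomial k), x = HahnSeries.C (Polynomial.X - Polynomial.C c) * y := by
  have h1 : ∀ q, (x.coeff q).eval c = 0 := fun q => by
    have := congrArg (fun z => HahnSeries.coeff z q) hx
    exact this
  refine ⟨⟨fun q => x.coeff q /ₘ (Polynomial.X - Polynomial.C c), x.isPWO_support.mono ?_⟩, ?_⟩
  · intro q hq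
    simp only [Function.mem_support] at hq
    intro h
    apply hq
    rw [h, Polynomial.zero_divByMonic]
  · ext1; funext q
    rw [HahnSeries.C_mul_eq_smul, HahnSeries.coeff_smul, smul_eq_mul]
    exact (Polynomial.mul_divByMonic_eq_iff_isRoot.2 (h1 q)).symm

/-- values of leading coefficients at the specialisation point -/
theorem GP.lc_at (g : GP u) (v : MvPolynomial (Fin 2) k) (hJ : Jb u v = 1) (c : k) (π : MvPolynomial (Fin 2) k)
    (hπ : Prime π) (hc : π ∣ u - C c) (hg : g.At c π) (f : MvPolynomial (Fin 2) k) (hf : VertF u f)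
    (hπf : ¬ π ∣ f) : ((g.ι f).leadingCoeff).eval c ≠ 0 := by
  induction f using UniqueFactorizationMonoid.induction_on_prime with
  | h₁ => exact absurd rfl hf.1
  | h₂ x hx =>
    obtain ⟨a, ha, rfl⟩ := (MvPolynomial.isUnit_iff_eq_C_of_isReduced).1 hx
    rw [g.hC, HahnSeries.C_apply, HahnSeries.leadingCoeff_of_single, Polynomial.eval_C]
    exact ha.ne_zero
  | h₃ a p ha hp ih =>
    have hπp : ¬ π ∣ p := fun h => hπf (h.mul_right a)
    have hπa : ¬ π ∣ a := fun h => hπf (h.mul_left p)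
    rw [map_mul, HahnSeries.leadingCoeff_mul, Polynomial.eval_mul]
    refine mul_ne_zero ?_ (ih (hf.of_dvd (Dvd.intro_left p rfl)) hπa)
    obtain ⟨c', hc'⟩ := hf.2 p hp (Dvd.intro a rfl)
    by_cases hcc : c' = c
    · subst hcc
      obtain ⟨ρ, hρ⟩ := hc
      have hpρ : p ∣ ρ := by
        have h1 : p ∣ π * ρ := by rw [← hρ]; exact hc'
        rcases hp.dvd_or_dvd h1 with h2 | h2
        · exact absurd ((hp.associated_of_dvd hπ h2).symm.dvd) hπp
        · exact h2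
      obtain ⟨σ, rfl⟩ := hpρ
      obtain ⟨z, hz⟩ := all_coeff_dvd c' (g.ι π) ((hg π).2 dvd_rfl)
      have h3 : g.ι (u - C c') = HahnSeries.C (Polynomial.X - Polynomial.C c') := by
        rw [map_sub, g.hu, g.hC, map_sub]
      have h4 : HahnSeries.C (Polynomial.X - Polynomial.C c') ≠ (0 : HahnSeries ℚ (Polynomial k)) := by
        rw [Ne, map_eq_zero_iff _ HahnSeries.C_injective]
        exact Polynomial.X_sub_C_ne_zero c'
      have h5 : z * (g.ι p * g.ι σ) = 1 := by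
        apply mul_left_cancel₀ h4
        rw [mul_one, ← mul_assoc, ← hz, ← map_mul, ← map_mul, ← hρ, h3]
      have h6 := congrArg HahnSeries.leadingCoeff h5
      rw [HahnSeries.leadingCoeff_mul, HahnSeries.leadingCoeff_mul, HahnSeries.leadingCoeff_one] at h6
      intro h7
      have h8 := congrArg (Polynomial.eval c') h6
      rw [Polynomial.eval_mul, Polynomial.eval_mul, h7, zero_mul, mul_zero, Polynomial.eval_one] at h8
      exact zero_ne_one h8
    · obtain ⟨σ, hσ⟩ := hc'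
      have h3 : g.ι (u - C c') = HahnSeries.C (Polynomial.X - Polynomial.C c') := by
        rw [map_sub, g.hu, g.hC, map_sub]
      rw [hσ, map_mul] at h3
      have h6 := congrArg HahnSeries.leadingCoeff h3
      rw [HahnSeries.leadingCoeff_mul, HahnSeries.C_apply, HahnSeries.leadingCoeff_of_single] at h6
      intro h7
      have h8 := congrArg (Polynomial.eval c) h6
      rw [Polynomial.eval_mul, h7, zero_mul, Polynomial.eval_sub, Polynomial.eval_X, Polynomial.eval_C] at h8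
      exact hcc (sub_eq_zero.1 h8.symm).symm

/-- constant ratios -/
def CR (u n d : MvPolynomial (Fin 2) k) : Prop :=
  ∀ g1 g2 : GP u, ∃ γ : k, γ ≠ 0 ∧ (g1.ι n).leadingCoeff * (g2.ι d).leadingCoeff =
    Polynomial.C γ * ((g2.ι n).leadingCoeff * (g1.ι d).leadingCoeff)

theorem CR.symm {n d : MvPolynomial (Fin 2) k} (h : CR u n d) : CR u d n := by
  intro g1 g2
  obtain ⟨γ, hγ, e⟩ := h g2 g1
  refine ⟨γ, hγ, ?_⟩
  rw [mul_comm, e, mul_comm ((g1.ι n).leadingCoeff)]

theorem CR.cancel {n d n' d' f : MvPolynomial (Fin 2) k} (h : CR u n d) (hf : f ≠ 0) (hn : n = f * n')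
    (hd : d = f * d') : CR u n' d' := by
  intro g1 g2
  obtain ⟨γ, hγ, e⟩ := h g1 g2
  refine ⟨γ, hγ, ?_⟩
  have h1 : (g1.ι f).leadingCoeff ≠ 0 := by
    rw [Ne, HahnSeries.leadingCoeff_eq_zero, map_eq_zero_iff _ g1.inj]; exact hf
  have h2 : (g2.ι f).leadingCoeff ≠ 0 := by
    rw [Ne, HahnSeries.leadingCoeff_eq_zero, map_eq_zero_iff _ g2.inj]; exact hf
  rw [hn, hd, map_mul, map_mul, map_mul, map_mul, HahnSeries.leadingCoeff_mul, HahnSeries.leadingCoeff_mul,
    HahnSeries.leadingCoeff_mul, HahnSeries.leadingCoeff_mul] at e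
  apply mul_left_cancel₀ (mul_ne_zero h1 h2)
  linear_combination e

theorem CR.cancel_u {n d n' : MvPolynomial (Fin 2) k} (c : k) (h : CR u n d) (hn : n = (u - C c) * n') :
    CR u n' d := by
  have h3 : ∀ g : GP u, (g.ι (u - C c)).leadingCoeff = Polynomial.X - Polynomial.C c := by
    intro g
    have : g.ι (u - C c) = HahnSeries.C (Polynomial.X - Polynomial.C c) := by
      rw [map_sub, g.hu, g.hC, map_sub]
    rw [this, HahnSeries.C_apply, HahnSeries.leadingCoeff_of_single]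
  intro g1 g2
  obtain ⟨γ, hγ, e⟩ := h g1 g2
  refine ⟨γ, hγ, ?_⟩
  rw [hn, map_mul, map_mul, HahnSeries.leadingCoeff_mul, HahnSeries.leadingCoeff_mul, h3, h3] at e
  apply mul_left_cancel₀ (Polynomial.X_sub_C_ne_zero c)
  linear_combination e

theorem totalDegree_pos_of_prime (π : MvPolynomial (Fin 2) k) (hπ : Prime π) : 0 < π.totalDegree := by
  rcases Nat.eq_zero_or_pos π.totalDegree with h | h
  · exfalso
    rw [MvPolynomial.totalDegree_eq_zero_iff_eq_C] at h
    apply hπ.not_isUnit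
    rw [h]
    apply (isUnit_iff_ne_zero.2 _).map C
    intro h2
    rw [h2, map_zero] at h
    exact hπ.ne_zero h
  · exact h

theorem CR.step {n d : MvPolynomial (Fin 2) k} (v : MvPolynomial (Fin 2) k) (hJ : Jb u v = 1) (hm : MonY u)
    (h : CR u n d) (hn : VertF u n) (hd : VertF u d)
    (π : MvPolynomial (Fin 2) k) (hπ : Prime π) (hπn : π ∣ n) (hπd : ¬ π ∣ d) :
    ∃ (c : k) (n' : MvPolynomial (Fin 2) k), n = (u - C c) * n' ∧ CR u n' d ∧ n'.totalDegree < n.totalDegree := by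
  obtain ⟨c, hc⟩ := hn.2 π hπ hπn
  obtain ⟨g, hg⟩ := exists_GP_at u v π hπ c hc hJ hm
  have hu0 : u - C c ≠ 0 := by
    intro h0
    have h1 := g.uP_inj
    have : uP u (Polynomial.X - Polynomial.C c) = 0 := by rw [map_sub, uP_X, uP_C]; exact h0
    rw [map_eq_zero_iff _ h1] at this
    exact Polynomial.X_sub_C_ne_zero c this
  have hlc0 : ∀ (g : GP u) (π : MvPolynomial (Fin 2) k), g.At c π → π ∣ n → ((g.ι n).leadingCoeff).eval c = 0 := by
    intro g π hg hdiv
    have h1 := (hg n).2 hdiv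
    have := congrArg (fun z => HahnSeries.coeff z (g.ι n).order) h1
    rw [HahnSeries.leadingCoeff_eq]
    exact this
  have hall : ∀ π', Prime π' → π' ∣ u - C c → π' ∣ n := by
    intro π' hπ' hc'
    obtain ⟨g', hg'⟩ := exists_GP_at u v π' hπ' c hc' hJ hm
    by_contra hcon
    obtain ⟨γ, hγ, e⟩ := h g' g
    have e2 := congrArg (Polynomial.eval c) e
    rw [Polynomial.eval_mul, Polynomial.eval_mul, Polynomial.eval_mul, hlc0 g π hg hπn, zero_mul, mul_zero] at e2
    exact mul_ne_zero (g'.lc_at v hJ c π' hπ' hc' hg' n hn hcon) (g.lc_at v hJ c π hπ hc hg d hd hπd) e2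
  have hsq : ∀ π', Prime π' → ¬ π' * π' ∣ u - C c := by
    rintro π' hπ' ⟨σ, hσ⟩
    exact not_sq u v π' (π' * σ) hπ' hJ c (by rw [hσ]; ring) (Dvd.intro σ rfl)
  obtain ⟨n', hn'⟩ := sqfree_dvd n (u - C c) hu0 hsq hall
  refine ⟨c, n', hn', h.cancel_u c hn', ?_⟩
  have hn'0 : n' ≠ 0 := by rintro rfl; rw [mul_zero] at hn'; exact hn.1 hn'
  rw [hn', MvPolynomial.totalDegree_mul_of_isDomain hu0 hn'0]
  obtain ⟨ρ, hρ⟩ := hc
  have hρ0 : ρ ≠ 0 := by rintro rfl; rw [mul_zero] at hρ; exact hu0 hρ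
  have h5 := totalDegree_pos_of_prime π hπ
  rw [hρ, MvPolynomial.totalDegree_mul_of_isDomain hπ.ne_zero hρ0]
  omega

theorem CR.const (v : MvPolynomial (Fin 2) k) (hJ : Jb u v = 1) (hm : MonY u) (N : ℕ) :
    ∀ n d : MvPolynomial (Fin 2) k, n.totalDegree + d.totalDegree = N → VertF u n → VertF u d → CR u n d →
      ∃ s t : Polynomial k, s ≠ 0 ∧ t ≠ 0 ∧ n * uP u s = d * uP u t := by
  induction N using Nat.strong_induction_on with
  | _ N ih =>
  intro n d hN hn hd h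
  by_cases h1 : ∃ π, Prime π ∧ π ∣ n ∧ π ∣ d
  · obtain ⟨π, hπ, ⟨n', hn'⟩, ⟨d', hd'⟩⟩ := h1
    have hn'0 : n' ≠ 0 := by rintro rfl; rw [mul_zero] at hn'; exact hn.1 hn'
    have hd'0 : d' ≠ 0 := by rintro rfl; rw [mul_zero] at hd'; exact hd.1 hd'
    have h5 := totalDegree_pos_of_prime π hπ
    have h6 : n.totalDegree = π.totalDegree + n'.totalDegree := by
      rw [hn', MvPolynomial.totalDegree_mul_of_isDomain hπ.ne_zero hn'0]
    have h7 : d.totalDegree = π.totalDegree + d'.totalDegree := by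
      rw [hd', MvPolynomial.totalDegree_mul_of_isDomain hπ.ne_zero hd'0]
    obtain ⟨s, t, hs, ht, e⟩ := ih _ (by omega) n' d' rfl (hn.of_dvd ⟨π, by rw [hn']; ring⟩)
      (hd.of_dvd ⟨π, by rw [hd']; ring⟩) (h.cancel hπ.ne_zero hn' hd')
    refine ⟨s, t, hs, ht, ?_⟩
    rw [hn', hd', mul_assoc, e]; ring
  push Not at h1
  by_cases h2 : ∃ π, Prime π ∧ π ∣ n
  · obtain ⟨π, hπ, hπn⟩ := h2
    obtain ⟨c, n', hn', h', hlt⟩ := h.step v hJ hm hn hd π hπ hπn (h1 π hπ hπn)
    obtain ⟨s, t, hs, ht, e⟩ := ih _ (by omega) n' d rfl (hn.of_dvd ⟨u - C c, by rw [hn']; ring⟩) hd h'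
    refine ⟨s, (Polynomial.X - Polynomial.C c) * t, hs, mul_ne_zero (Polynomial.X_sub_C_ne_zero c) ht, ?_⟩
    rw [hn', mul_assoc, e, map_mul, map_sub, uP_X, uP_C]; ring
  by_cases h3 : ∃ π, Prime π ∧ π ∣ d
  · obtain ⟨π, hπ, hπd⟩ := h3
    obtain ⟨c, d', hd', h', hlt⟩ := h.symm.step v hJ hm hd hn π hπ hπd (fun hh => h2 ⟨π, hπ, hh⟩)
    obtain ⟨s, t, hs, ht, e⟩ := ih _ (by omega) n d' rfl hn (hd.of_dvd ⟨u - C c, by rw [hd']; ring⟩) h'.symm
    refine ⟨(Polynomial.X - Polynomial.C c) * s, t, mul_ne_zero (Polynomial.X_sub_C_ne_zero c) hs, ht, ?_⟩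
    rw [hd', map_mul, map_sub, uP_X, uP_C]
    linear_combination (u - C c) * e
  have hun : ∀ f : MvPolynomial (Fin 2) k, f ≠ 0 → (¬ ∃ π, Prime π ∧ π ∣ f) → ∃ a : k, a ≠ 0 ∧ f = C a := by
    intro f hf hno
    have hunit : IsUnit f := by
      by_contra hnu
      obtain ⟨π, hπ, hdiv⟩ := WfDvdMonoid.exists_irreducible_factor hnu hf
      exact hno ⟨π, UniqueFactorizationMonoid.irreducible_iff_prime.1 hπ, hdiv⟩
    obtain ⟨κ, hκ, hκH⟩ := (MvPolynomial.isUnit_iff_eq_C_of_isReduced).1 hunit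
    exact ⟨κ, hκ.ne_zero, hκH⟩
  obtain ⟨a, ha, rfl⟩ := hun n hn.1 h2
  obtain ⟨b, hb, rfl⟩ := hun d hd.1 h3
  refine ⟨Polynomial.C b, Polynomial.C a, Polynomial.C_ne_zero.2 hb, Polynomial.C_ne_zero.2 ha, ?_⟩
  rw [uP_C, uP_C, mul_comm]

end lc

end Pool.Agent.H922R2.R
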