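import Mathlib
import Pool.Agent.H922R2.R12

set_option autoImplicit false
set_option linter.unusedSectionVars false
set_option linter.style.haveILetI false

open MvPolynomial

namespace Pool.Agent.H922R2.R

open Pool.Agent.H922R2 (IsDer)
open Pool.Agent.Helper165.P1 (HQ Pui)

section step7

variable {k : Type*} [Field k] [CharZero k] [IsAlgClosed k] {u : MvPolynomial (Fin 2) k}
variable {L : Type*} [Field L] [Algebra (MvPolynomial (Fin 2) k) L] [IsFractionRing (MvPolynomial (Fin 2) k) L]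
  [Algebra k L] [IsScalarTower k (MvPolynomial (Fin 2) k) L]

/-- kernel of the Jacobian derivation -/
theorem GP.ker (g : GP u) (f : MvPolynomial (Fin 2) k) (hf : Jb u f = 0) : ∃ w : Polynomial k, f = uP u w := by
  have h1 := g.der f
  rw [hf, map_zero, zero_mul] at h1
  refine ⟨(g.ι f).coeff 0, ?_⟩
  apply g.inj
  rw [g.ι_uP]
  ext1; funext q
  rw [HahnSeries.C_apply, HahnSeries.coeff_single]
  split_ifs with hq
  · rw [hq]
  · have h2 := congrArg (fun z => HahnSeries.coeff z q) h1
    simp only [eul_coeff, HahnSeries.coeff_zero] at h2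
    refine (mul_eq_zero.1 h2).resolve_left ?_
    rw [Polynomial.algebraMap_eq, Polynomial.C_eq_zero]
    exact_mod_cast hq

theorem GP.v_sub (g1 g2 : GP u) : ∃ w : Polynomial k, g1.v = g2.v + uP u w := by
  obtain ⟨w, hw⟩ := g1.ker (g1.v - g2.v) (by rw [Jb_sub, g1.hJ, g2.hJ, sub_self])
  exact ⟨w, by rw [← hw]; ring⟩

theorem GP.lc_v1 (g1 g2 : GP u) : (g2.ι g1.v).order = -g2.b ∧ (g2.ι g1.v).leadingCoeff = Polynomial.C g2.β := by
  obtain ⟨w, hw⟩ := g1.v_sub g2
  have h1 : Lb (-g2.b) (g2.ι g1.v) := by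
    rw [hw, map_add, g2.ι_uP]
    exact g2.hv.add ((Lb_C w).mono (by linarith [g2.hb]))
  have h2 : (g2.ι g1.v).coeff (-g2.b) = Polynomial.C g2.β := by
    rw [hw, map_add, g2.ι_uP, HahnSeries.coeff_add, g2.hvc, HahnSeries.C_apply, HahnSeries.coeff_single,
      if_neg (by linarith [g2.hb]), add_zero]
  have h3 : (g2.ι g1.v).coeff (-g2.b) ≠ 0 := by
    rw [h2]; exact Polynomial.C_ne_zero.2 g2.hβ
  exact ⟨order_eq_of h1 h3, by rw [leadingCoeff_eq_of h1 h3, h2]⟩

theorem const_of_pow (x : KK k) (N : ℕ) (hN : 0 < N) (γ : k) (h : x ^ N = algebraMap k (KK k) γ) :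
    ∃ δ : k, x = algebraMap k (KK k) δ := by
  have h1 : IsIntegral k x := by
    apply IsIntegral.of_pow hN
    rw [h]
    exact isIntegral_algebraMap
  obtain ⟨δ, hδ⟩ := minpoly.mem_range_of_degree_eq_one k x
    (IsAlgClosed.degree_eq_one_of_irreducible k (minpoly.irreducible h1))
  exact ⟨δ, hδ.symm⟩

theorem algebraMap_KK (γ : k) : algebraMap k (KK k) γ = algebraMap (Polynomial k) (KK k) (Polynomial.C γ) := by
  rw [IsScalarTower.algebraMap_apply k (Polynomial k) (KK k)]; rfl

theorem GP.ratio_T (T : L) (hT : Gen u T) (hall : ∀ g : GP u, (g.j L T).order < 0) (g1 g2 : GP u) :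
    ∃ γ : k, γ ≠ 0 ∧ (g1.j L T).leadingCoeff = algebraMap k (KK k) γ * (g2.j L T).leadingCoeff := by
  have hu := g1.uP_inj
  have hinj : Function.Injective ((algebraMap (MvPolynomial (Fin 2) k) L)) := IsFractionRing.injective (MvPolynomial (Fin 2) k) L
  have hkinj : Function.Injective (algebraMap k (KK k)) := (algebraMap k (KK k)).injective
  obtain ⟨P, Q, _, hQT, hPQ⟩ := hT.rep' hu ((algebraMap (MvPolynomial (Fin 2) k) L) g1.v)
  have hQ0 : Q ≠ 0 := by rintro rfl; simp at hQT
  have hv0 : (algebraMap (MvPolynomial (Fin 2) k) L) g1.v ≠ 0 := by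
    rw [Ne, map_eq_zero_iff _ hinj]
    intro h0
    have := g1.hJ
    rw [h0] at this
    simp [Jb] at this
  have hP0 : P ≠ 0 := by
    rintro rfl
    rw [Polynomial.eval₂_zero] at hPQ
    exact mul_ne_zero hv0 hQT hPQ
  have main : ∀ g : GP u, Q.natDegree < P.natDegree ∧
      algebraMap k (KK k) g.β * Q.leadingCoeff =
        P.leadingCoeff * (g.j L T).leadingCoeff ^ (P.natDegree - Q.natDegree) := by
    intro g
    have h1 := g.ord_P hu T (hall g) P hP0
    have h2 := g.ord_P hu T (hall g) Q hQ0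
    have h3 := g1.lc_v1 g
    have hlt : Q.natDegree < P.natDegree := by
      have h4 := congrArg (fun z => (g.j L z).order) hPQ
      simp only [map_mul] at h4
      have hj0 : ∀ z : L, z ≠ 0 → g.j L z ≠ 0 := fun z hz => by
        rw [Ne, map_eq_zero_iff _ g.j_inj]; exact hz
      rw [HahnSeries.order_mul (hj0 _ hv0) (hj0 _ hQT), h1.1, h2.1, g.j_order, h3.1] at h4
      by_contra hcon
      push Not at hcon
      have h5 : (P.natDegree : ℚ) ≤ Q.natDegree := by exact_mod_cast hcon
      have h6 := hall g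
      have h7 := g.hb
      nlinarith
    refine ⟨hlt, ?_⟩
    have h4 := congrArg (fun z => (g.j L z).leadingCoeff) hPQ
    simp only [map_mul] at h4
    rw [HahnSeries.leadingCoeff_mul, h1.2.1, h2.2.1, g.j_lc, h3.2, ← algebraMap_KK] at h4
    have hx0 : (g.j L T).leadingCoeff ≠ 0 := by
      rw [Ne, HahnSeries.leadingCoeff_eq_zero]
      intro h0
      have := hall g
      rw [h0] at this
      simp at this
    apply mul_right_cancel₀ (pow_ne_zero Q.natDegree hx0)
    have h5 : (g.j L T).leadingCoeff ^ P.natDegree = (g.j L T).leadingCoeff ^ (P.natDegree - Q.natDegree) *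
        (g.j L T).leadingCoeff ^ Q.natDegree := by
      rw [← pow_add]; congr 1; omega
    rw [h5] at h4
    linear_combination h4
  set N := P.natDegree - Q.natDegree with hN
  have hNpos : 0 < N := by have := (main g1).1; omega
  set x1 := (g1.j L T).leadingCoeff with hx1
  set x2 := (g2.j L T).leadingCoeff with hx2
  have hx20 : x2 ≠ 0 := by
    rw [hx2, Ne, HahnSeries.leadingCoeff_eq_zero]
    intro h0
    have := hall g2
    rw [h0] at this
    simp at this
  have hx10 : x1 ≠ 0 := by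
    rw [hx1, Ne, HahnSeries.leadingCoeff_eq_zero]
    intro h0
    have := hall g1
    rw [h0] at this
    simp at this
  have hlcQ : Q.leadingCoeff ≠ 0 := Polynomial.leadingCoeff_ne_zero.2 hQ0
  have hlcP : P.leadingCoeff ≠ 0 := Polynomial.leadingCoeff_ne_zero.2 hP0
  have hβ2 : algebraMap k (KK k) g2.β ≠ 0 := by
    rw [Ne, map_eq_zero_iff _ hkinj]; exact g2.hβ
  have h1 : (x1 / x2) ^ N = algebraMap k (KK k) (g1.β / g2.β) := by
    rw [div_pow, map_div₀, div_eq_div_iff (pow_ne_zero _ hx20) hβ2]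
    apply mul_left_cancel₀ (mul_ne_zero hlcP hlcQ)
    have e1 := (main g1).2
    have e2 := (main g2).2
    linear_combination (-(Q.leadingCoeff * algebraMap k (KK k) g2.β)) * e1 +
      Q.leadingCoeff * algebraMap k (KK k) g1.β * e2
  obtain ⟨δ, hδ⟩ := const_of_pow _ N hNpos _ h1
  refine ⟨δ, ?_, ?_⟩
  · rintro rfl
    rw [map_zero, div_eq_zero_iff] at hδ
    rcases hδ with h | h
    · exact hx10 h
    · exact hx20 h
  · rw [← hδ, div_mul_cancel₀ _ hx20]

theorem GP.lc_h (g : GP u) (T h : L) (hh : g.IsD T h) (hord : (g.j L T).order < 0) :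
    ∃ γ : k, γ ≠ 0 ∧ (g.j L h).leadingCoeff = algebraMap k (KK k) γ * (g.j L T).leadingCoeff := by
  have hkinj : Function.Injective (algebraMap k (KK k)) := (algebraMap k (KK k)).injective
  have hx0 : g.j L T ≠ 0 := by
    intro h0
    rw [h0] at hord
    simp at hord
  have hlead : ∀ x : HahnSeries ℚ (KK k), x.order ≠ 0 → x ≠ 0 →
      (eul k x).leadingCoeff = algebraMap k (KK k) ((x.order : ℚ) : k) * x.leadingCoeff := by
    intro x hx hx0
    have h1 : Lb x.order (eul k x) := (Lb_order x).eul k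
    have h2 : (eul k x).coeff x.order ≠ 0 := by
      rw [eul_coeff]
      apply mul_ne_zero
      · rw [Ne, map_eq_zero_iff _ hkinj]
        exact_mod_cast hx
      · exact HahnSeries.coeff_order_eq_zero.not.2 hx0
    rw [leadingCoeff_eq_of h1 h2, eul_coeff, HahnSeries.leadingCoeff_eq]
  have hv := g.lc_v1 g
  have hvo : (g.j L ((algebraMap (MvPolynomial (Fin 2) k) L) g.v)).order = -g.b := by rw [g.j_order, hv.1]
  have hvl : (g.j L ((algebraMap (MvPolynomial (Fin 2) k) L) g.v)).leadingCoeff = algebraMap k (KK k) g.β := by rw [g.j_lc, hv.2, ← algebraMap_KK]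
  have hv0 : g.j L ((algebraMap (MvPolynomial (Fin 2) k) L) g.v) ≠ 0 := by
    intro h0
    rw [h0] at hvo
    simp only [HahnSeries.order_zero] at hvo
    linarith [g.hb]
  have h1 := congrArg HahnSeries.leadingCoeff hh
  rw [HahnSeries.leadingCoeff_mul, hlead _ hord.ne hx0, hlead _ (by rw [hvo]; linarith [g.hb]) hv0, hvo, hvl,
    ← map_mul] at h1
  have hb : ((-g.b : ℚ) : k) * g.β ≠ 0 := by
    apply mul_ne_zero _ g.hβ
    exact_mod_cast (neg_ne_zero.2 g.hb.ne')
  have hb' : algebraMap k (KK k) (((-g.b : ℚ) : k) * g.β) ≠ 0 := by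
    rw [Ne, map_eq_zero_iff _ hkinj]; exact hb
  refine ⟨((g.j L T).order : k) / (((-g.b : ℚ) : k) * g.β), ?_, ?_⟩
  · apply div_ne_zero _ hb
    exact_mod_cast hord.ne
  · rw [map_div₀, div_mul_eq_mul_div, h1, mul_div_assoc, div_self hb', mul_one]

instance instCharZeroKK : CharZero (KK k) :=
  charZero_of_injective_algebraMap (algebraMap k (KK k)).injective

/-- if the derivative of `T` is a function of `u` then `T ∈ k(u,v)` -/
theorem final7 (g : GP u) (hu : Function.Injective (uP u)) (T : L) (hT : Gen u T)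
    (hord : (g.j L T).order < 0) (x : KK k) (hx : x ≠ 0)
    (v : MvPolynomial (Fin 2) k) (hJ : Jb u v = 1) (hisD : g.IsD T (kap L hu x)) :
    T ∈ IntermediateField.adjoin k {(algebraMap (MvPolynomial (Fin 2) k) L) u, (algebraMap (MvPolynomial (Fin 2) k) L) v} := by
  obtain ⟨P, Q, hcop, hQT, hPQ⟩ := hT.rep' hu ((algebraMap (MvPolynomial (Fin 2) k) L) v)
  have hQ0 : Q ≠ 0 := by rintro rfl; simp at hQT
  have hid := g.der_identity hu T (kap L hu x) hisD v hJ P Q hPQ
  have hpoly : Q * Q + P * Polynomial.derivative Q * Polynomial.C x - Polynomial.derivative P * Q * Polynomial.C x = 0 := by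
    by_contra hne
    apply (g.ord_P hu T hord _ hne).2.2
    rw [Polynomial.eval₂_sub, Polynomial.eval₂_add, Polynomial.eval₂_mul, Polynomial.eval₂_mul, Polynomial.eval₂_mul,
      Polynomial.eval₂_mul, Polynomial.eval₂_mul, Polynomial.eval₂_C, ← hPQ]
    linear_combination (Q.eval₂ (kap L hu) T) * hid
  have hxinv : Polynomial.C x * Polynomial.C x⁻¹ = 1 := by
    rw [← Polynomial.C_mul, mul_inv_cancel₀ hx, Polynomial.C_1]
  have hdvd : Q ∣ Polynomial.derivative Q := by
    have h1 : Q ∣ P * Polynomial.derivative Q := by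
      refine ⟨(Polynomial.derivative P * Polynomial.C x - Q) * Polynomial.C x⁻¹, ?_⟩
      linear_combination Polynomial.C x⁻¹ * hpoly - P * Polynomial.derivative Q * hxinv
    exact hcop.symm.dvd_of_dvd_mul_left h1
  have hQd : Polynomial.derivative Q = 0 := by
    by_contra hne
    have h1 := Polynomial.degree_le_of_dvd hdvd hne
    exact absurd h1 (not_le.2 (Polynomial.degree_derivative_lt hQ0))
  have hQc : Q = Polynomial.C (Q.coeff 0) := Polynomial.eq_C_of_natDegree_eq_zero (Polynomial.derivative_eq_zero.1 hQd)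
  set q0 := Q.coeff 0 with hq0
  have hq00 : q0 ≠ 0 := by
    intro h; rw [h, map_zero] at hQc; exact hQ0 hQc
  have hPd : Polynomial.derivative P = Polynomial.C (q0 * x⁻¹) := by
    rw [hQd, mul_zero, zero_mul, add_zero] at hpoly
    have h1 : Q * (Q - Polynomial.derivative P * Polynomial.C x) = 0 := by linear_combination hpoly
    have h2 := (mul_eq_zero.1 h1).resolve_left hQ0
    rw [Polynomial.C_mul, ← hQc]
    linear_combination (-(Polynomial.derivative P)) * hxinv - Polynomial.C x⁻¹ * h2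
  have hPl : ∃ b0 : KK k, P = Polynomial.C (q0 * x⁻¹) * Polynomial.X + Polynomial.C b0 := by
    have h1 : Polynomial.derivative (P - Polynomial.C (q0 * x⁻¹) * Polynomial.X) = 0 := by
      rw [Polynomial.derivative_sub, hPd, Polynomial.derivative_C_mul, Polynomial.derivative_X, mul_one, sub_self]
    have h2 := Polynomial.eq_C_of_natDegree_eq_zero (Polynomial.derivative_eq_zero.1 h1)
    exact ⟨_, by rw [← h2]; ring⟩
  obtain ⟨b0, hb0⟩ := hPl
  rw [hb0, hQc, Polynomial.eval₂_add, Polynomial.eval₂_mul, Polynomial.eval₂_C, Polynomial.eval₂_C,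
    Polynomial.eval₂_X, Polynomial.eval₂_C] at hPQ
  have hax : kap L hu (q0 * x⁻¹) ≠ 0 := by
    rw [Ne, map_eq_zero_iff _ (kap L hu).injective]
    exact mul_ne_zero hq00 (inv_ne_zero hx)
  have hTe : T = ((algebraMap (MvPolynomial (Fin 2) k) L) v * kap L hu q0 - kap L hu b0) / kap L hu (q0 * x⁻¹) := by
    rw [eq_div_iff hax, hPQ]; ring
  have hmem_u : (algebraMap (MvPolynomial (Fin 2) k) L) u ∈ IntermediateField.adjoin k {(algebraMap (MvPolynomial (Fin 2) k) L) u, (algebraMap (MvPolynomial (Fin 2) k) L) v} :=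
    IntermediateField.subset_adjoin _ _ (Set.mem_insert _ _)
  have hmem_v : (algebraMap (MvPolynomial (Fin 2) k) L) v ∈ IntermediateField.adjoin k {(algebraMap (MvPolynomial (Fin 2) k) L) u, (algebraMap (MvPolynomial (Fin 2) k) L) v} :=
    IntermediateField.subset_adjoin _ _ (Set.mem_insert_of_mem _ rfl)
  rw [hTe]
  exact div_mem (sub_mem (mul_mem hmem_v (kap_mem hu _ hmem_u _)) (kap_mem hu _ hmem_u _)) (kap_mem hu _ hmem_u _)

/-- Step 7 -/
theorem step7 (v : MvPolynomial (Fin 2) k) (hJ : Jb u v = 1) (hm : MonY u) (T : L) (hT : Gen u T)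
    (hall : ∀ g : GP u, (g.j L T).order < 0) (g0 : GP u) :
    T ∈ IntermediateField.adjoin k {(algebraMap (MvPolynomial (Fin 2) k) L) u, (algebraMap (MvPolynomial (Fin 2) k) L) v} := by
  have hu := g0.uP_inj
  have hinj : Function.Injective ((algebraMap (MvPolynomial (Fin 2) k) L)) := IsFractionRing.injective (MvPolynomial (Fin 2) k) L
  obtain ⟨n, ⟨d, hd0'⟩, hrel, hnd⟩ := IsFractionRing.exists_reduced_fraction (A := MvPolynomial (Fin 2) k) T
  have hd0 : d ≠ 0 := nonZeroDivisors.ne_zero hd0'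
  have hTd : T * (algebraMap (MvPolynomial (Fin 2) k) L) d = (algebraMap (MvPolynomial (Fin 2) k) L) n := by
    rw [← hnd]; exact IsLocalization.mk'_spec L n ⟨d, hd0'⟩
  have hd : VertF u d := vertF_den g0 T hT (hall g0) n d hd0 hTd hrel
  obtain ⟨hd', hhd⟩ := vert_log u v hJ d hd
  have hdne : (algebraMap (MvPolynomial (Fin 2) k) L) d ≠ 0 := by rw [Ne, map_eq_zero_iff _ hinj]; exact hd0
  set m := Jb u n - n * hd' with hm'
  set h : L := (algebraMap (MvPolynomial (Fin 2) k) L) m / (algebraMap (MvPolynomial (Fin 2) k) L) d with hh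
  have hhd2 : h * (algebraMap (MvPolynomial (Fin 2) k) L) d = (algebraMap (MvPolynomial (Fin 2) k) L) m := by rw [hh, div_mul_cancel₀ _ hdne]
  have hisD : ∀ g : GP u, g.IsD T h := fun g => g.isD_frac T n d hd' hd0 hTd hhd h hhd2
  have hTA : AKm u T := ⟨d, n, hd, hTd⟩
  obtain ⟨W, hW, hW1⟩ := exists_W g0 T h hT hTA (hisD g0) v hJ
  have hmv : VertF u m := by
    apply VertF.of_unit hd hW
    rw [← hhd2, mul_right_comm, hW1, one_mul]
  have hCR : CR u m d := by
    intro g1 g2
    obtain ⟨γ1, hγ1, e1⟩ := g1.lc_h T h (hisD g1) (hall g1)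
    obtain ⟨γ2, hγ2, e2⟩ := g2.lc_h T h (hisD g2) (hall g2)
    obtain ⟨γ3, hγ3, e3⟩ := GP.ratio_T T hT hall g1 g2
    refine ⟨γ1 * γ3 / γ2, div_ne_zero (mul_ne_zero hγ1 hγ3) hγ2, ?_⟩
    apply IsFractionRing.injective (Polynomial k) (KK k)
    have f1 := congrArg (fun z => (g1.j L z).leadingCoeff) hhd2
    have f2 := congrArg (fun z => (g2.j L z).leadingCoeff) hhd2
    simp only [map_mul] at f1 f2
    rw [HahnSeries.leadingCoeff_mul, g1.j_lc, g1.j_lc] at f1
    rw [HahnSeries.leadingCoeff_mul, g2.j_lc, g2.j_lc] at f2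
    rw [map_mul, map_mul, map_mul, ← algebraMap_KK, ← f1, ← f2, e1, e2, e3, map_div₀, map_mul]
    have hγ2' : algebraMap k (KK k) γ2 ≠ 0 := by
      rw [Ne, map_eq_zero_iff _ (algebraMap k (KK k)).injective]; exact hγ2
    field_simp
  obtain ⟨s, t, hs, ht, est⟩ := CR.const v hJ hm _ m d rfl hmv hd hCR
  have halgs : algebraMap (Polynomial k) (KK k) s ≠ 0 := by
    rw [Ne, map_eq_zero_iff _ (IsFractionRing.injective (Polynomial k) (KK k))]; exact hs
  have halgt : algebraMap (Polynomial k) (KK k) t ≠ 0 := by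
    rw [Ne, map_eq_zero_iff _ (IsFractionRing.injective (Polynomial k) (KK k))]; exact ht
  have hkh : h = kap L hu (algebraMap (Polynomial k) (KK k) t / algebraMap (Polynomial k) (KK k) s) := by
    have hs' : (algebraMap (MvPolynomial (Fin 2) k) L) (uP u s) ≠ 0 := by
      rw [Ne, map_eq_zero_iff _ hinj, map_eq_zero_iff _ hu]; exact hs
    rw [map_div₀, kap_algebraMap, kap_algebraMap, hh, div_eq_div_iff hdne hs', ← map_mul, est, map_mul, mul_comm]
  exact final7 g0 hu T hT (hall g0) _ (div_ne_zero halgt halgs) v hJ (by rw [← hkh]; exact hisD g0)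

end step7

end Pool.Agent.H922R2.R
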