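import Mathlib
import Pool.Agent.H922R2.R13

set_option autoImplicit false
set_option linter.unusedSectionVars false
set_option linter.style.haveILetI false

open MvPolynomial

namespace Pool.Agent.H922R2.R

open Pool.Agent.H922R2 (IsDer)
open Pool.Agent.Helper165.P1 (HQ Pui)

section E

variable {k : Type*} [Field k] [CharZero k] [IsAlgClosed k] {u : MvPolynomial (Fin 2) k} {c : k}
  {Y : HahnSeries ℚ k}

theorem ED.p_ne (e : ED u c Y) : e.p ≠ 0 := by
  intro h
  have := e.hd2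
  rw [h, Polynomial.natDegree_zero] at this
  omega

theorem ED.q_ne0 (e : ED u c Y) : e.q ≠ 0 := by
  intro h
  have := e.hid
  rw [h, map_zero, mul_zero, mul_zero, sub_zero] at this
  exact zero_ne_one this

theorem ED.lc_u (e : ED u c Y) : (EX e.r Y u).order = -e.a ∧ (EX e.r Y u).leadingCoeff = e.p := by
  have hu : EX e.r Y u = EX e.r Y (u - C c) + HahnSeries.C (Polynomial.C c) := by
    rw [map_sub, EX_C]; ring
  have h1 : Lb (-e.a) (EX e.r Y u) := by
    rw [hu]
    exact e.hU.add ((Lb_C _).mono (by linarith [e.ha]))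
  have h2 : (EX e.r Y u).coeff (-e.a) = e.p := by
    rw [hu, HahnSeries.coeff_add, e.hp, HahnSeries.C_apply, HahnSeries.coeff_single,
      if_neg (by linarith [e.ha]), add_zero]
  have h3 : (EX e.r Y u).coeff (-e.a) ≠ 0 := by rw [h2]; exact e.p_ne
  exact ⟨order_eq_of h1 h3, by rw [leadingCoeff_eq_of h1 h3, h2]⟩

theorem ED.lc_v (e : ED u c Y) : (EX e.r Y e.v).order = -e.b ∧ (EX e.r Y e.v).leadingCoeff = e.q := by
  have h3 : (EX e.r Y e.v).coeff (-e.b) ≠ 0 := by rw [e.hq]; exact e.q_ne0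
  exact ⟨order_eq_of e.hV h3, by rw [leadingCoeff_eq_of e.hV h3, e.hq]⟩

theorem ED.lc_uP (e : ED u c Y) (s : Polynomial k) (hs : s ≠ 0) :
    (EX e.r Y (uP u s)).order = s.natDegree * (-e.a) ∧
    (EX e.r Y (uP u s)).leadingCoeff = Polynomial.C s.leadingCoeff * e.p ^ s.natDegree ∧
    EX e.r Y (uP u s) ≠ 0 := by
  have h1 : EX e.r Y (uP u s) = s.eval₂ (HahnSeries.C.comp Polynomial.C) (EX e.r Y u) := by
    have h2 : (EX e.r Y).comp C = HahnSeries.C.comp Polynomial.C :=
      RingHom.ext fun a => by rw [RingHom.comp_apply, RingHom.comp_apply, EX_C]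
    rw [uP, Polynomial.coe_eval₂RingHom, Polynomial.hom_eval₂, h2]
  have h3 := ordEval (Polynomial.C : k →+* Polynomial k) Polynomial.C_injective (EX e.r Y u)
    (by rw [e.lc_u.1]; linarith [e.ha]) s hs
  rw [← h1, e.lc_u.1, e.lc_u.2] at h3
  exact ⟨h3.2.2.1, h3.2.2.2.1, h3.2.2.2.2⟩

/-- the set of roots of `p` -/
noncomputable def ED.rts (e : ED u c Y) : Finset k := by
  classical exact e.p.roots.toFinset

theorem ED.mem_rts (e : ED u c Y) (ρ : k) : ρ ∈ e.rts ↔ e.p.eval ρ = 0 := by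
  classical
  rw [ED.rts, Multiset.mem_toFinset, Polynomial.mem_roots e.p_ne, Polynomial.IsRoot.def]

theorem ED.card_rts (e : ED u c Y) : e.rts.card = e.p.natDegree := by
  classical
  have hsep : e.p.Separable := by
    refine ⟨Polynomial.C ((e.a : ℚ) : k) * Polynomial.derivative e.q, -(Polynomial.C ((e.b : ℚ) : k) * e.q), ?_⟩
    have := e.hid
    linear_combination this
  rw [ED.rts, Multiset.toFinset_card_of_nodup (Polynomial.nodup_roots hsep), IsAlgClosed.card_roots_eq_natDegree]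

/-- the leading forms of vertical polynomials have their zeros among those of `p` -/
theorem ED.natDegree_lc (e : ED u c Y) (f : MvPolynomial (Fin 2) k) (hf : VertF u f) :
    (EX e.r Y f).leadingCoeff.natDegree =
      ∑ ρ ∈ e.rts, (EX e.r Y f).leadingCoeff.rootMultiplicity ρ := by
  classical
  obtain ⟨f', s, hs, hff⟩ := vert_norm u f hf
  have h1 := congrArg (fun z => (EX e.r Y z).leadingCoeff) hff
  simp only [map_mul] at h1
  rw [HahnSeries.leadingCoeff_mul, (e.lc_uP s hs).2.1] at h1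
  have hF0 : (EX e.r Y f).leadingCoeff ≠ 0 := by
    rw [Ne, HahnSeries.leadingCoeff_eq_zero, map_eq_zero_iff _ (EX_injective e.r Y)]; exact hf.1
  rw [← IsAlgClosed.card_roots_eq_natDegree, ← Multiset.sum_count_eq_card (s := e.rts)]
  · apply Finset.sum_congr rfl
    intro ρ _
    rw [Polynomial.count_roots]
  · intro ρ hρ
    rw [e.mem_rts]
    rw [Polynomial.mem_roots hF0, Polynomial.IsRoot.def] at hρ
    have h2 := congrArg (Polynomial.eval ρ) h1
    rw [Polynomial.eval_mul, hρ, zero_mul, Polynomial.eval_mul, Polynomial.eval_C, Polynomial.eval_pow] at h2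
    have h3 := (mul_eq_zero.1 h2.symm).resolve_left (Polynomial.leadingCoeff_ne_zero.2 hs)
    exact eq_zero_of_pow_eq_zero h3

end E

section sums

variable {k : Type*} [Field k]

/-- sums of Hahn series whose leading terms cannot cancel -/
theorem sum_lead {ι : Type*} (s : Finset ι) (hs : s.Nonempty) (F : ι → HahnSeries ℚ (Polynomial k))
    (hF : ∀ i ∈ s, F i ≠ 0)
    (hdist : ∀ i ∈ s, ∀ j ∈ s, (F i).order = (F j).order →
      (F i).leadingCoeff.natDegree = (F j).leadingCoeff.natDegree → i = j) :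
    ∑ i ∈ s, F i ≠ 0 ∧ ∃ i ∈ s, (∑ i ∈ s, F i).leadingCoeff.natDegree = (F i).leadingCoeff.natDegree := by
  classical
  obtain ⟨i0, hi0, hmin⟩ := Finset.exists_min_image s (fun i => (F i).order) hs
  set o := (F i0).order with ho
  have hLb : ∀ i ∈ s, Lb o (F i) := fun i hi => (Lb_order _).mono (hmin i hi)
  have hLbS : Lb o (∑ i ∈ s, F i) := Lb.sum hLb
  have hne : ∀ i ∈ s, (F i).order = o → (F i).coeff o = (F i).leadingCoeff ∧ (F i).coeff o ≠ 0 := by
    intro i hi h
    have h1 : (F i).coeff o = (F i).leadingCoeff := by rw [← h, HahnSeries.leadingCoeff_eq]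
    exact ⟨h1, by rw [h1]; exact HahnSeries.leadingCoeff_ne_zero.2 (hF i hi)⟩
  have hord : ∀ i ∈ s, (F i).coeff o ≠ 0 → (F i).order = o := fun i hi h => order_eq_of (hLb i hi) h
  have hpair : {i | i ∈ s ∧ (F i).coeff o ≠ 0}.Pairwise (Function.onFun Ne (Polynomial.natDegree ∘ fun i => (F i).coeff o)) := by
    rintro i ⟨hi, hi'⟩ j ⟨hj, hj'⟩ hij h
    apply hij
    have h1 := hord i hi hi'
    have h2 := hord j hj hj'
    apply hdist i hi j hj (h1.trans h2.symm)
    rw [← (hne i hi h1).1, ← (hne j hj h2).1]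
    exact h
  have hpair' : {i | i ∈ s ∧ (F i).coeff o ≠ 0}.Pairwise (Function.onFun Ne (Polynomial.degree ∘ fun i => (F i).coeff o)) := by
    intro i hi j hj hij h
    apply hpair hi hj hij
    exact Polynomial.natDegree_eq_of_degree_eq h
  have hco : (∑ i ∈ s, F i).coeff o = ∑ i ∈ s, (F i).coeff o := HahnSeries.coeff_sum _
  have hdeg := Polynomial.degree_sum_eq_of_disjoint (fun i => (F i).coeff o) s hpair'
  have hSne : (∑ i ∈ s, F i).coeff o ≠ 0 := by
    rw [hco]
    intro h0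
    rw [h0, Polynomial.degree_zero] at hdeg
    have h1 : ((F i0).coeff o).degree ≤ s.sup fun i => ((F i).coeff o).degree :=
      Finset.le_sup (f := fun i => ((F i).coeff o).degree) hi0
    rw [← hdeg, le_bot_iff, Polynomial.degree_eq_bot] at h1
    exact (hne i0 hi0 rfl).2 h1
  refine ⟨fun h => hSne (by rw [h]; rfl), ?_⟩
  obtain ⟨i, hi, hsup⟩ := Finset.exists_mem_eq_sup s hs (fun i => ((F i).coeff o).degree)
  rw [hsup] at hdeg
  have hi' : (F i).coeff o ≠ 0 := by
    intro h0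
    rw [h0, Polynomial.degree_zero, Polynomial.degree_eq_bot] at hdeg
    exact hSne (by rw [hco]; exact hdeg)
  refine ⟨i, hi, ?_⟩
  rw [leadingCoeff_eq_of hLbS hSne, hco, ← (hne i hi (hord i hi hi')).1]
  exact Polynomial.natDegree_eq_of_degree_eq hdeg

end sums

section C1

variable {k : Type*} [Field k] [CharZero k] [IsAlgClosed k] {u : MvPolynomial (Fin 2) k} {c : k}
  {Y : HahnSeries ℚ k}
variable {L : Type*} [Field L] [Algebra (MvPolynomial (Fin 2) k) L] [IsFractionRing (MvPolynomial (Fin 2) k) L]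
  [Algebra k L] [IsScalarTower k (MvPolynomial (Fin 2) k) L]

/-- the relation at `E` -/
def ED.Rel (e : ED u c Y) (pl : k → GP u) : Prop :=
  ∀ ρ, e.p.eval ρ = 0 → (pl ρ).v = e.v ∧ (pl ρ).b = e.b ∧
      (∀ f h, f ≠ 0 → Jb u f = f * h → ((pl ρ).ι f).order =
        e.a * ((EX e.r Y f).leadingCoeff.rootMultiplicity ρ : ℕ) + (EX e.r Y f).order)

theorem ED.ord_T (e : ED u c Y) (pl : k → GP u) (hrel : e.Rel pl) (v : MvPolynomial (Fin 2) k)
    (hJ : Jb u v = 1) (T : L) (n d : MvPolynomial (Fin 2) k)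
    (hn : VertF u n) (hd : VertF u d) (hTd : T * (algebraMap (MvPolynomial (Fin 2) k) L) d = (algebraMap (MvPolynomial (Fin 2) k) L) n) (ρ : k) (hρ : e.p.eval ρ = 0) :
    ((pl ρ).j L T).order = e.a * (((EX e.r Y n).leadingCoeff.rootMultiplicity ρ : ℕ) -
      ((EX e.r Y d).leadingCoeff.rootMultiplicity ρ : ℕ)) + ((EX e.r Y n).order - (EX e.r Y d).order) := by
  obtain ⟨hn', hhn⟩ := vert_log u v hJ n hn
  obtain ⟨hd', hhd⟩ := vert_log u v hJ d hd
  rw [frac_order (pl ρ) T n d hn.1 hd.1 hTd, (hrel ρ hρ).2.2 n hn' hn.1 hhn, (hrel ρ hρ).2.2 d hd' hd.1 hhd]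
  ring

/-- orders at two roots differ by a multiple of `a` -/
theorem ED.diff (e : ED u c Y) (pl : k → GP u) (hrel : e.Rel pl) (v : MvPolynomial (Fin 2) k)
    (hJ : Jb u v = 1) (T : L) (n d : MvPolynomial (Fin 2) k)
    (hn : VertF u n) (hd : VertF u d) (hTd : T * (algebraMap (MvPolynomial (Fin 2) k) L) d = (algebraMap (MvPolynomial (Fin 2) k) L) n) (ρ ρ' : k) (hρ : e.p.eval ρ = 0)
    (hρ' : e.p.eval ρ' = 0) : ∃ z : ℤ, ((pl ρ).j L T).order - ((pl ρ').j L T).order = e.a * z := by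
  rw [e.ord_T pl hrel v hJ T n d hn hd hTd ρ hρ, e.ord_T pl hrel v hJ T n d hn hd hTd ρ' hρ']
  refine ⟨((EX e.r Y n).leadingCoeff.rootMultiplicity ρ : ℤ) - (EX e.r Y d).leadingCoeff.rootMultiplicity ρ -
    ((EX e.r Y n).leadingCoeff.rootMultiplicity ρ' - (EX e.r Y d).leadingCoeff.rootMultiplicity ρ'), ?_⟩
  push_cast
  ring

/-- orders of functions at a pole of `T` -/
theorem GP.ord_mul (g : GP u) (T : L) (hT : Gen u T) (hord : (g.j L T).order < 0) (f : L) (hf : f ≠ 0) :
    ∃ m : ℤ, (g.j L f).order = (g.j L T).order * m := by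
  have hu := g.uP_inj
  obtain ⟨P, Q, _, hQT, hPQ⟩ := hT.rep' hu f
  have hQ0 : Q ≠ 0 := by rintro rfl; simp at hQT
  have hP0 : P ≠ 0 := by
    rintro rfl
    rw [Polynomial.eval₂_zero] at hPQ
    exact mul_ne_zero hf hQT hPQ
  have h1 := g.ord_P hu T hord P hP0
  have h2 := g.ord_P hu T hord Q hQ0
  have h3 := congrArg (fun z => (g.j L z).order) hPQ
  simp only [map_mul] at h3
  have hj0 : ∀ z : L, z ≠ 0 → g.j L z ≠ 0 := fun z hz => by
    rw [Ne, map_eq_zero_iff _ g.j_inj]; exact hz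
  rw [HahnSeries.order_mul (hj0 _ hf) (hj0 _ hQT), h1.1, h2.1] at h3
  refine ⟨(P.natDegree : ℤ) - Q.natDegree, ?_⟩
  push_cast
  linarith

theorem ED.hom_lead (e : ED u c Y) (n d : MvPolynomial (Fin 2) k) (hn : n ≠ 0) (hd : d ≠ 0) (τ : ℚ) (hτ : τ < 0)
    (N' : ℤ) (ho : (EX e.r Y n).order - (EX e.r Y d).order = τ - e.a * N')
    (hlam : ((EX e.r Y n).leadingCoeff.natDegree : ℤ) - (EX e.r Y d).leadingCoeff.natDegree = e.p.natDegree * N')
    (P : Polynomial (Polynomial k)) (hP : P ≠ 0) (M : ℕ) (hM : P.natDegree ≤ M) :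
    ∃ z : ℤ, ((EX e.r Y (∑ i ∈ Finset.range (M + 1), (P.map (uP u)).coeff i * n ^ i * d ^ (M - i))).leadingCoeff.natDegree : ℤ) =
      M * (EX e.r Y d).leadingCoeff.natDegree + e.p.natDegree * z ∧
      EX e.r Y (∑ i ∈ Finset.range (M + 1), (P.map (uP u)).coeff i * n ^ i * d ^ (M - i)) ≠ 0 := by
  classical
  have hsub : P.support ⊆ Finset.range (M + 1) := by
    intro i hi
    rw [Finset.mem_range]
    have := Polynomial.le_natDegree_of_mem_supp i hi
    omega
  have hsum : EX e.r Y (∑ i ∈ Finset.range (M + 1), (P.map (uP u)).coeff i * n ^ i * d ^ (M - i)) =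
      ∑ i ∈ P.support, EX e.r Y (uP u (P.coeff i) * n ^ i * d ^ (M - i)) := by
    rw [map_sum]
    symm
    apply Finset.sum_subset_zero_on_sdiff hsub
    · intro i hi
      rw [Finset.mem_sdiff, Polynomial.notMem_support_iff] at hi
      rw [Polynomial.coeff_map, hi.2, map_zero, zero_mul, zero_mul, map_zero]
    · intro i _
      rw [Polynomial.coeff_map]
  have hinj := EX_injective e.r Y
  have hn0 : EX e.r Y n ≠ 0 := by rw [Ne, map_eq_zero_iff _ hinj]; exact hn
  have hd0 : EX e.r Y d ≠ 0 := by rw [Ne, map_eq_zero_iff _ hinj]; exact hd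
  have hterm : ∀ i ∈ P.support, EX e.r Y (uP u (P.coeff i) * n ^ i * d ^ (M - i)) ≠ 0 ∧
      (EX e.r Y (uP u (P.coeff i) * n ^ i * d ^ (M - i))).order =
        (P.coeff i).natDegree * (-e.a) + i * (EX e.r Y n).order + (M - i : ℕ) * (EX e.r Y d).order ∧
      (EX e.r Y (uP u (P.coeff i) * n ^ i * d ^ (M - i))).leadingCoeff.natDegree =
        (P.coeff i).natDegree * e.p.natDegree + i * (EX e.r Y n).leadingCoeff.natDegree +
          (M - i) * (EX e.r Y d).leadingCoeff.natDegree := by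
    intro i hi
    have hci : P.coeff i ≠ 0 := Polynomial.mem_support_iff.1 hi
    obtain ⟨h1, h2, h3⟩ := e.lc_uP (P.coeff i) hci
    have h4 : EX e.r Y n ^ i ≠ 0 := pow_ne_zero _ hn0
    have h5 : EX e.r Y d ^ (M - i) ≠ 0 := pow_ne_zero _ hd0
    rw [map_mul, map_mul, map_pow, map_pow]
    refine ⟨mul_ne_zero (mul_ne_zero h3 h4) h5, ?_, ?_⟩
    · rw [HahnSeries.order_mul (mul_ne_zero h3 h4) h5, HahnSeries.order_mul h3 h4, HahnSeries.order_pow,
        HahnSeries.order_pow, h1, nsmul_eq_mul, nsmul_eq_mul]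
    · rw [HahnSeries.leadingCoeff_mul, HahnSeries.leadingCoeff_mul, h2]
      have hlp : ∀ (x : HahnSeries ℚ (Polynomial k)) (m : ℕ), (x ^ m).leadingCoeff = x.leadingCoeff ^ m := by
        intro x m
        induction m with
        | zero => rw [pow_zero, pow_zero, HahnSeries.leadingCoeff_one]
        | succ m ih => rw [pow_succ, pow_succ, HahnSeries.leadingCoeff_mul, ih]
      rw [hlp, hlp]
      have hn1 : (EX e.r Y n).leadingCoeff ≠ 0 := HahnSeries.leadingCoeff_ne_zero.2 hn0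
      have hd1 : (EX e.r Y d).leadingCoeff ≠ 0 := HahnSeries.leadingCoeff_ne_zero.2 hd0
      have hp1 : Polynomial.C (P.coeff i).leadingCoeff * e.p ^ (P.coeff i).natDegree ≠ 0 :=
        mul_ne_zero (Polynomial.C_ne_zero.2 (Polynomial.leadingCoeff_ne_zero.2 hci)) (pow_ne_zero _ e.p_ne)
      rw [Polynomial.natDegree_mul (mul_ne_zero hp1 (pow_ne_zero _ hn1)) (pow_ne_zero _ hd1),
        Polynomial.natDegree_mul hp1 (pow_ne_zero _ hn1),
        Polynomial.natDegree_C_mul (Polynomial.leadingCoeff_ne_zero.2 hci), Polynomial.natDegree_pow,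
        Polynomial.natDegree_pow, Polynomial.natDegree_pow]
  have hα : (0 : ℚ) < e.p.natDegree := by
    have := e.hd2
    exact_mod_cast (by omega : 0 < e.p.natDegree)
  have hnon : P.support.Nonempty := by rwa [Polynomial.support_nonempty]
  have hMi : ∀ i ∈ P.support, ((M - i : ℕ) : ℚ) = M - i := by
    intro i hi
    have := Finset.mem_range.1 (hsub hi)
    rw [Nat.cast_sub (by omega)]
  have hMi' : ∀ i ∈ P.support, ((M - i : ℕ) : ℤ) = M - i := by
    intro i hi
    have := Finset.mem_range.1 (hsub hi)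
    rw [Nat.cast_sub (by omega)]
  have hlam' : ((EX e.r Y n).leadingCoeff.natDegree : ℚ) - (EX e.r Y d).leadingCoeff.natDegree = e.p.natDegree * N' := by
    exact_mod_cast hlam
  have main := sum_lead P.support hnon (fun i => EX e.r Y (uP u (P.coeff i) * n ^ i * d ^ (M - i)))
    (fun i hi => (hterm i hi).1) (by
      intro i hi j hj h1 h2
      rw [(hterm i hi).2.1, (hterm j hj).2.1, hMi i hi, hMi j hj] at h1
      rw [(hterm i hi).2.2, (hterm j hj).2.2] at h2
      have h3 : ((P.coeff i).natDegree : ℚ) * e.p.natDegree + i * (EX e.r Y n).leadingCoeff.natDegree +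
          (M - i) * (EX e.r Y d).leadingCoeff.natDegree =
          ((P.coeff j).natDegree : ℚ) * e.p.natDegree + j * (EX e.r Y n).leadingCoeff.natDegree +
          (M - j) * (EX e.r Y d).leadingCoeff.natDegree := by
        rw [← hMi i hi, ← hMi j hj]
        exact_mod_cast h2
      have h4 : ((P.coeff i).natDegree : ℚ) + i * N' = (P.coeff j).natDegree + j * N' := by
        apply mul_left_cancel₀ hα.ne'
        linear_combination h3 - ((i : ℚ) - j) * hlam'
      have h5 : (i : ℚ) * τ = j * τ := by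
        linear_combination h1 - ((i : ℚ) - j) * ho + e.a * h4
      have h6 : (i : ℚ) = j := mul_right_cancel₀ hτ.ne h5
      exact_mod_cast h6)
  rw [← hsum] at main
  obtain ⟨h0, i, hi, hdeg⟩ := main
  refine ⟨(P.coeff i).natDegree + i * N', ?_, h0⟩
  rw [hdeg, (hterm i hi).2.2]
  push_cast
  rw [hMi' i hi]
  linear_combination (i : ℤ) * hlam

/-- Case C1 -/
theorem ED.caseC1 (e : ED u c Y) (pl : k → GP u) (hrel : e.Rel pl) (T : L) (hT : Gen u T)
    (n d : MvPolynomial (Fin 2) k) (hn : VertF u n) (hd : VertF u d) (hTd : T * (algebraMap (MvPolynomial (Fin 2) k) L) d = (algebraMap (MvPolynomial (Fin 2) k) L) n)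
    (hall : ∀ ρ, e.p.eval ρ = 0 → ((pl ρ).j L T).order < 0) : False := by
  classical
  have h00 : e.p.eval 0 = 0 := by rw [← Polynomial.coeff_zero_eq_eval_zero]; exact e.hp0
  have hu := (pl 0).uP_inj
  have hinj : Function.Injective ((algebraMap (MvPolynomial (Fin 2) k) L)) := IsFractionRing.injective (MvPolynomial (Fin 2) k) L
  -- all the orders coincide
  have hτ : ∀ ρ, e.p.eval ρ = 0 → ((pl ρ).j L T).order = ((pl 0).j L T).order := by
    obtain ⟨P, Q, _, hQT, hPQ⟩ := hT.rep' hu ((algebraMap (MvPolynomial (Fin 2) k) L) (X 0))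
    have hQ0 : Q ≠ 0 := by rintro rfl; simp at hQT
    have hx0 : (algebraMap (MvPolynomial (Fin 2) k) L) (X 0) ≠ 0 := by
      rw [Ne, map_eq_zero_iff _ hinj]; exact MvPolynomial.X_ne_zero _
    have hP0 : P ≠ 0 := by
      rintro rfl
      rw [Polynomial.eval₂_zero] at hPQ
      exact mul_ne_zero hx0 hQT hPQ
    have key : ∀ ρ, e.p.eval ρ = 0 → ((P.natDegree : ℚ) - Q.natDegree) * ((pl ρ).j L T).order = -1 := by
      intro ρ hρ
      have h1 := (pl ρ).ord_P hu T (hall ρ hρ) P hP0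
      have h2 := (pl ρ).ord_P hu T (hall ρ hρ) Q hQ0
      have h3 := congrArg (fun z => ((pl ρ).j L z).order) hPQ
      simp only [map_mul] at h3
      have hj0 : ∀ z : L, z ≠ 0 → (pl ρ).j L z ≠ 0 := fun z hz => by
        rw [Ne, map_eq_zero_iff _ (pl ρ).j_inj]; exact hz
      rw [HahnSeries.order_mul (hj0 _ hx0) (hj0 _ hQT), (pl ρ).x_order, h1.1, h2.1] at h3
      linarith
    intro ρ hρ
    have h1 := key ρ hρ
    have h2 := key 0 h00
    have h3 : ((P.natDegree : ℚ) - Q.natDegree) ≠ 0 := by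
      intro h; rw [h, zero_mul] at h1; norm_num at h1
    exact mul_left_cancel₀ h3 (h1.trans h2.symm)
  have hord0 := e.ord_T pl hrel e.v e.hJ T n d hn hd hTd
  set τ := ((pl 0).j L T).order with hτdef
  set N' : ℤ := ((EX e.r Y n).leadingCoeff.rootMultiplicity 0 : ℤ) - (EX e.r Y d).leadingCoeff.rootMultiplicity 0 with hN'
  have ho : (EX e.r Y n).order - (EX e.r Y d).order = τ - e.a * N' := by
    have h1 := hord0 0 h00
    rw [hN']
    push_cast
    linarith
  have hρN : ∀ ρ, e.p.eval ρ = 0 → ((EX e.r Y n).leadingCoeff.rootMultiplicity ρ : ℤ) -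
      (EX e.r Y d).leadingCoeff.rootMultiplicity ρ = N' := by
    intro ρ hρ
    have h1 := hord0 ρ hρ
    rw [hτ ρ hρ, ho] at h1
    have h2 : e.a * ((((EX e.r Y n).leadingCoeff.rootMultiplicity ρ : ℕ) : ℚ) -
      ((EX e.r Y d).leadingCoeff.rootMultiplicity ρ : ℕ)) = e.a * N' := by linarith
    have h3 := mul_left_cancel₀ e.ha.ne' h2
    exact_mod_cast h3
  have hlam : ((EX e.r Y n).leadingCoeff.natDegree : ℤ) - (EX e.r Y d).leadingCoeff.natDegree = e.p.natDegree * N' := by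
    rw [e.natDegree_lc n hn, e.natDegree_lc d hd]
    push_cast
    rw [← Finset.sum_sub_distrib, Finset.sum_congr rfl (fun ρ hρ => hρN ρ ((e.mem_rts ρ).1 hρ)), Finset.sum_const,
      e.card_rts, nsmul_eq_mul]
  obtain ⟨P, Q, _, hQT, hPQ⟩ := hT.rep' hu ((algebraMap (MvPolynomial (Fin 2) k) L) e.v)
  have hQ0 : Q ≠ 0 := by rintro rfl; simp at hQT
  have hv0 : e.v ≠ 0 := by
    intro h0
    have := e.hJ
    rw [h0] at this
    simp [Jb] at this
  have hv0' : (algebraMap (MvPolynomial (Fin 2) k) L) e.v ≠ 0 := by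
    rw [Ne, map_eq_zero_iff _ hinj]; exact hv0
  have hP0 : P ≠ 0 := by
    rintro rfl
    rw [Polynomial.eval₂_zero] at hPQ
    exact mul_ne_zero hv0' hQT hPQ
  obtain ⟨b1, P', hb1, hP'd, hP'0, hP'e⟩ := clearD (L := L) hu P hP0
  obtain ⟨b2, Q', hb2, hQ'd, hQ'0, hQ'e⟩ := clearD (L := L) hu Q hQ0
  set M := max P.natDegree Q.natDegree with hM
  have hPd : (P'.map (uP u)).natDegree ≤ M := by
    rw [Polynomial.natDegree_map_eq_of_injective hu, hP'd]; exact le_max_left _ _
  have hQd : (Q'.map (uP u)).natDegree ≤ M := by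
    rw [Polynomial.natDegree_map_eq_of_injective hu, hQ'd]; exact le_max_right _ _
  have e1 := homog T n d hTd _ M hPd
  have e2 := homog T n d hTd _ M hQd
  obtain ⟨z1, hz1, hS1⟩ := e.hom_lead n d hn.1 hd.1 τ (hall 0 h00) N' ho hlam P' hP'0 M (by rw [hP'd]; exact le_max_left _ _)
  obtain ⟨z2, hz2, hS2⟩ := e.hom_lead n d hn.1 hd.1 τ (hall 0 h00) N' ho hlam Q' hQ'0 M (by rw [hQ'd]; exact le_max_right _ _)
  set S1 := ∑ i ∈ Finset.range (M + 1), (P'.map (uP u)).coeff i * n ^ i * d ^ (M - i) with hS1def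
  set S2 := ∑ i ∈ Finset.range (M + 1), (Q'.map (uP u)).coeff i * n ^ i * d ^ (M - i) with hS2def
  have key : e.v * uP u b1 * S2 = uP u b2 * S1 := by
    apply hinj
    rw [map_mul, map_mul, map_mul ((algebraMap (MvPolynomial (Fin 2) k) L)) (uP u b2), ← e1, ← e2, ← hP'e, ← hQ'e, ← hPQ]
    ring
  have h1 := congrArg (fun z => (EX e.r Y z).leadingCoeff.natDegree) key
  simp only [map_mul] at h1
  rw [HahnSeries.leadingCoeff_mul, HahnSeries.leadingCoeff_mul, HahnSeries.leadingCoeff_mul, e.lc_v.2,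
    (e.lc_uP b1 hb1).2.1, (e.lc_uP b2 hb2).2.1] at h1
  have hp1 : ∀ s : Polynomial k, s ≠ 0 → Polynomial.C s.leadingCoeff * e.p ^ s.natDegree ≠ 0 := fun s hs =>
    mul_ne_zero (Polynomial.C_ne_zero.2 (Polynomial.leadingCoeff_ne_zero.2 hs)) (pow_ne_zero _ e.p_ne)
  rw [Polynomial.natDegree_mul (mul_ne_zero e.q_ne0 (hp1 b1 hb1)) (HahnSeries.leadingCoeff_ne_zero.2 hS2),
    Polynomial.natDegree_mul e.q_ne0 (hp1 b1 hb1), Polynomial.natDegree_mul (hp1 b2 hb2)
      (HahnSeries.leadingCoeff_ne_zero.2 hS1),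
    Polynomial.natDegree_C_mul (Polynomial.leadingCoeff_ne_zero.2 hb1),
    Polynomial.natDegree_C_mul (Polynomial.leadingCoeff_ne_zero.2 hb2), Polynomial.natDegree_pow,
    Polynomial.natDegree_pow] at h1
  have h2 : (e.q.natDegree : ℤ) = e.p.natDegree * (b2.natDegree - b1.natDegree + z1 - z2) := by
    have h3 : (e.q.natDegree : ℤ) + b1.natDegree * e.p.natDegree + (EX e.r Y S2).leadingCoeff.natDegree =
        b2.natDegree * e.p.natDegree + (EX e.r Y S1).leadingCoeff.natDegree := by exact_mod_cast h1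
    rw [hz1, hz2] at h3
    linear_combination h3
  have hα : (0 : ℚ) < e.p.natDegree := by
    have := e.hd2
    exact_mod_cast (by omega : 0 < e.p.natDegree)
  apply e.hnon (b2.natDegree - b1.natDegree + z1 - z2)
  have h4 := e.hdeg
  have h5 : (e.q.natDegree : ℚ) = e.p.natDegree * ((b2.natDegree - b1.natDegree + z1 - z2 : ℤ) : ℚ) := by
    exact_mod_cast h2
  rw [h5] at h4
  apply mul_right_cancel₀ hα.ne'
  rw [← h4]
  ring

end C1

end Pool.Agent.H922R2.R
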