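import Mathlib
import Pool.Agent.H922R2.R14

set_option autoImplicit false
set_option linter.unusedSectionVars false
set_option linter.style.haveILetI false

open MvPolynomial

namespace Pool.Agent.H922R2.R

open Pool.Agent.H922R2 (IsDer)
open Pool.Agent.Helper165.P1 (HQ Pui)

section main

variable {k : Type*} [Field k] [CharZero k] [IsAlgClosed k] {u : MvPolynomial (Fin 2) k}
variable {L : Type*} [Field L] [Algebra (MvPolynomial (Fin 2) k) L] [IsFractionRing (MvPolynomial (Fin 2) k) L]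
  [Algebra k L] [IsScalarTower k (MvPolynomial (Fin 2) k) L]

theorem GP.j_sub (g : GP u) (hu : Function.Injective (uP u)) (T : L) (β : KK k) :
    g.j L (T - kap L hu β) = g.j L T - HahnSeries.C β := by
  rw [map_sub, g.j_kap]

theorem GP.pole_sub (g : GP u) (hu : Function.Injective (uP u)) (T : L) (h : (g.j L T).order < 0) (β : KK k) :
    (g.j L (T - kap L hu β)).order = (g.j L T).order := by
  have hne : g.j L T ≠ 0 := by intro h0; rw [h0] at h; simp at h
  rw [g.j_sub]
  apply order_eq_of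
  · exact (Lb_order _).sub ((Lb_C β).mono h.le)
  · rw [HahnSeries.coeff_sub, HahnSeries.C_apply, HahnSeries.coeff_single, if_neg h.ne, sub_zero]
    exact HahnSeries.coeff_order_eq_zero.not.2 hne

theorem GP.unit_sub (g : GP u) (hu : Function.Injective (uP u)) (T : L) (h : 0 < (g.j L T).order) (β : KK k)
    (hβ : β ≠ 0) : (g.j L (T - kap L hu β)).order = 0 := by
  rw [g.j_sub]
  have h0 : (g.j L T).coeff 0 = 0 := Lb_order _ 0 h
  apply order_eq_of
  · exact ((Lb_order _).mono h.le).sub (Lb_C β)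
  · rw [HahnSeries.coeff_sub, h0, HahnSeries.C_apply, HahnSeries.coeff_single, if_pos rfl, zero_sub]
    exact neg_ne_zero.2 hβ

theorem GP.zero_sub (g : GP u) (hu : Function.Injective (uP u)) (T : L) (h : 0 ≤ (g.j L T).order)
    (hne : T - kap L hu ((g.j L T).coeff 0) ≠ 0) :
    0 < (g.j L (T - kap L hu ((g.j L T).coeff 0))).order := by
  have hne' : g.j L (T - kap L hu ((g.j L T).coeff 0)) ≠ 0 := by
    rw [Ne, map_eq_zero_iff _ g.j_inj]; exact hne
  rw [g.j_sub] at hne' ⊢
  set x := g.j L T - HahnSeries.C ((g.j L T).coeff 0) with hx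
  have h1 : Lb 0 x := ((Lb_order _).mono h).sub (Lb_C _)
  have h2 : x.coeff 0 = 0 := by
    rw [hx, HahnSeries.coeff_sub, HahnSeries.C_apply, HahnSeries.coeff_single, if_pos rfl, sub_self]
  rcases lt_or_eq_of_le (h1.le_order hne') with h3 | h3
  · exact h3
  · exfalso
    rw [h3] at h2
    exact HahnSeries.coeff_order_eq_zero.not.2 hne' h2

theorem GP.ord_inv (g : GP u) (T : L) (hT : T ≠ 0) : (g.j L T⁻¹).order = -(g.j L T).order := by
  have hj0 : ∀ z : L, z ≠ 0 → g.j L z ≠ 0 := fun z hz => by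
    rw [Ne, map_eq_zero_iff _ g.j_inj]; exact hz
  have h1 : g.j L T * g.j L T⁻¹ = 1 := by
    rw [← map_mul, mul_inv_cancel₀ hT, map_one]
  have h2 := congrArg HahnSeries.order h1
  rw [HahnSeries.order_mul (hj0 _ hT) (hj0 _ (inv_ne_zero hT)), HahnSeries.order_one] at h2
  linarith

theorem shift (g1 g2 : GP u) (hu : Function.Injective (uP u)) (T : L) (hT : Gen u T) (h1 : (g1.j L T).order < 0)
    (h2 : 0 ≤ (g2.j L T).order) :
    ∃ n d, VertF u n ∧ VertF u d ∧ (T - kap L hu ((g2.j L T).coeff 0)) * (algebraMap (MvPolynomial (Fin 2) k) L) d = (algebraMap (MvPolynomial (Fin 2) k) L) n ∧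
      0 < (g2.j L (T - kap L hu ((g2.j L T).coeff 0))).order := by
  have hinj : Function.Injective ((algebraMap (MvPolynomial (Fin 2) k) L)) := IsFractionRing.injective (MvPolynomial (Fin 2) k) L
  set T' := T - kap L hu ((g2.j L T).coeff 0) with hT'
  have hp : (g1.j L T').order = (g1.j L T).order := g1.pole_sub hu T h1 _
  have hT'0 : T' ≠ 0 := by
    intro h0
    rw [h0, map_zero, HahnSeries.order_zero] at hp
    linarith
  have hz : 0 < (g2.j L T').order := g2.zero_sub hu T h2 hT'0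
  have hG : Gen u T' := hT.sub hu _
  obtain ⟨n, ⟨d, hd0'⟩, hrel, hnd⟩ := IsFractionRing.exists_reduced_fraction (A := MvPolynomial (Fin 2) k) T'
  have hd0 : d ≠ 0 := nonZeroDivisors.ne_zero hd0'
  have hTd : T' * (algebraMap (MvPolynomial (Fin 2) k) L) d = (algebraMap (MvPolynomial (Fin 2) k) L) n := by
    rw [← hnd]; exact IsLocalization.mk'_spec L n ⟨d, hd0'⟩
  have hd : VertF u d := vertF_den g1 T' hG (by rw [hp]; exact h1) n d hd0 hTd hrel
  have hn0 : n ≠ 0 := by
    rintro rfl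
    rw [map_zero, mul_eq_zero, map_eq_zero_iff _ hinj] at hTd
    rcases hTd with h | h
    · exact hT'0 h
    · exact hd0 h
  have hn : VertF u n := vertF_den g2 T'⁻¹ hG.inv (by rw [g2.ord_inv _ hT'0]; linarith) d n hn0
    (by rw [← hTd, ← mul_assoc, inv_mul_cancel₀ hT'0, one_mul]) hrel.symm
  exact ⟨n, d, hn, hd, hTd, hz⟩

theorem main_R (v : MvPolynomial (Fin 2) k) (hJ : Jb u v = 1) (hm : MonY u) (T0 : L) (hT0 : Gen u T0) :
    IntermediateField.adjoin k {(algebraMap (MvPolynomial (Fin 2) k) L) u, (algebraMap (MvPolynomial (Fin 2) k) L) v} = ⊤ := by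
  have hinj : Function.Injective ((algebraMap (MvPolynomial (Fin 2) k) L)) := IsFractionRing.injective (MvPolynomial (Fin 2) k) L
  -- a component of `u = 0`
  have hu_ne : ∀ a : k, u ≠ C a := by
    rintro a rfl
    have := hm.1
    rw [toY_C] at this
    simp at this
  have hnu : ¬ IsUnit (u - C 0) := by
    intro h
    obtain ⟨a, _, ha⟩ := (MvPolynomial.isUnit_iff_eq_C_of_isReduced).1 h
    exact hu_ne a (by rw [← ha]; simp)
  have hu0 : u - C 0 ≠ 0 := by
    intro h
    exact hu_ne 0 (sub_eq_zero.1 h)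
  obtain ⟨π, hπ', hdiv⟩ := WfDvdMonoid.exists_irreducible_factor hnu hu0
  have hπ := UniqueFactorizationMonoid.irreducible_iff_prime.1 hπ'
  obtain ⟨Y, e, pl, hrel, -⟩ := exists_E u v π hπ 0 hdiv hJ hm
  have h00 : e.p.eval 0 = 0 := by rw [← Polynomial.coeff_zero_eq_eval_zero]; exact e.hp0
  set g1 := pl 0 with hg1
  have hu := g1.uP_inj
  have hb1 : g1.b = e.b := (hrel 0 h00).2.1
  have hv0 : ∀ w : MvPolynomial (Fin 2) k, Jb u w = 1 → (algebraMap (MvPolynomial (Fin 2) k) L) w ≠ 0 := by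
    intro w hw
    rw [Ne, map_eq_zero_iff _ hinj]
    rintro rfl
    simp [Jb] at hw
  have hv1o : (g1.j L ((algebraMap (MvPolynomial (Fin 2) k) L) g1.v)).order = -g1.b := by rw [g1.j_order, (g1.lc_v1 g1).1]
  -- a generator with a pole at `g1`
  obtain ⟨T1, hT1, hord1⟩ : ∃ T1 : L, Gen u T1 ∧ (g1.j L T1).order < 0 := by
    by_cases h : (g1.j L T0).order < 0
    · exact ⟨T0, hT0, h⟩
    · push Not at h
      have hne : T0 - kap L hu ((g1.j L T0).coeff 0) ≠ 0 := by
        intro h0
        rw [sub_eq_zero] at h0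
        set β := (g1.j L T0).coeff 0 with hβ
        obtain ⟨P, Q, _, hQT, hPQ⟩ := hT0.rep' hu ((algebraMap (MvPolynomial (Fin 2) k) L) g1.v)
        rw [h0, Polynomial.eval₂_at_apply, Polynomial.eval₂_at_apply] at hPQ
        rw [h0, Polynomial.eval₂_at_apply] at hQT
        have hPn : P.eval β ≠ 0 := by
          intro h1
          rw [h1, map_zero] at hPQ
          exact mul_ne_zero (hv0 _ g1.hJ) hQT hPQ
        have hQn : Q.eval β ≠ 0 := by
          intro h1
          rw [h1, map_zero] at hQT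
          exact hQT rfl
        have h2 := congrArg (fun z => (g1.j L z).order) hPQ
        simp only [map_mul] at h2
        rw [g1.j_kap, g1.j_kap, HahnSeries.order_mul, hv1o, HahnSeries.order_C, HahnSeries.order_C] at h2
        · linarith [g1.hb]
        · rw [Ne, map_eq_zero_iff _ g1.j_inj]; exact hv0 _ g1.hJ
        · rw [Ne, map_eq_zero_iff _ HahnSeries.C_injective]; exact hQn
      have hz := g1.zero_sub hu T0 h hne
      refine ⟨(T0 - kap L hu ((g1.j L T0).coeff 0))⁻¹, (hT0.sub hu _).inv, ?_⟩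
      rw [g1.ord_inv _ hne]
      linarith
  -- all places are poles
  by_cases hall : ∀ g : GP u, (g.j L T1).order < 0
  · have h7 := step7 v hJ hm T1 hT1 hall g1
    rw [eq_top_iff, ← hT1, IntermediateField.adjoin_le_iff]
    rintro z hz
    rcases hz with rfl | rfl
    · exact IntermediateField.subset_adjoin _ _ (Set.mem_insert _ _)
    · exact h7
  exfalso
  push Not at hall
  obtain ⟨g2, hg2⟩ := hall
  obtain ⟨n, d, hn, hd, hTd, -⟩ := shift g1 g2 hu T1 hT1 hord1 hg2
  set T := T1 - kap L hu ((g2.j L T1).coeff 0) with hTdef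
  have hT : Gen u T := hT1.sub hu _
  have hordT : (g1.j L T).order < 0 := by rw [g1.pole_sub hu T1 hord1]; exact hord1
  by_cases hC1 : ∀ ρ, e.p.eval ρ = 0 → ((pl ρ).j L T).order < 0
  · exact e.caseC1 pl hrel T hT n d hn hd hTd hC1
  push Not at hC1
  obtain ⟨ρ2, hρ2, hord2⟩ := hC1
  obtain ⟨n', d', hn', hd', hTd', hz'⟩ := shift g1 (pl ρ2) hu T hT hordT hord2
  set T' := T - kap L hu (((pl ρ2).j L T).coeff 0) with hT'def
  have hT' : Gen u T' := hT.sub hu _
  have hordT' : (g1.j L T').order < 0 := by rw [g1.pole_sub hu T hordT]; exact hordT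
  apply step6 v hJ hm T' hT' n' d' hn' hd' hTd' _ g1
  intro g3 hg3
  obtain ⟨n'', d'', hn'', hd'', hTd'', hz''⟩ := shift g1 g3 hu T' hT' hordT' hg3.ge
  have hβ3 : (g3.j L T').coeff 0 ≠ 0 := by
    rw [← hg3]
    apply HahnSeries.coeff_order_eq_zero.not.2
    rw [map_eq_zero_iff _ g3.j_inj]
    intro h0
    rw [h0, map_zero, HahnSeries.order_zero] at hordT'
    exact lt_irrefl _ hordT'
  obtain ⟨z, hz⟩ := e.diff pl hrel v hJ _ n'' d'' hn'' hd'' hTd'' 0 ρ2 h00 hρ2
  rw [(pl ρ2).unit_sub hu T' hz' _ hβ3, sub_zero] at hz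
  have hord3 : ((pl 0).j L (T' - kap L hu ((g3.j L T').coeff 0))).order < 0 := by
    rw [(pl 0).pole_sub hu T' hordT']; exact hordT'
  obtain ⟨m, hm'⟩ := (pl 0).ord_mul _ (hT'.sub hu _) hord3 ((algebraMap (MvPolynomial (Fin 2) k) L) g1.v) (hv0 _ g1.hJ)
  rw [hz] at hm'
  have h9 : -e.b = e.a * z * m := by rw [← hm', ← hb1, ← hv1o]
  apply e.hnon (-(z * m))
  push_cast
  linarith

end main

end Pool.Agent.H922R2.R
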