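import Mathlib
import Pool.Agent.H922R2.R15
import Pool.Agent.H922R2.K24

set_option autoImplicit false
set_option linter.unusedSectionVars false
set_option linter.style.haveILetI false

open MvPolynomial

namespace Pool.Agent.H922R2.R

open Pool.Agent.H922R2 (IsDer GA sw sw_X0 sw_X1 sw_sw uy ux elemX elemX_X0 elemX_X1 jac SS fF DJ DJ_apply gmap_uy)
open Pool.Agent.Helper165.P1 (HQ Pui)

section noether

variable {k : Type*} [Field k]

theorem toY_uy (g : Polynomial k) : toY k (uy g) = g.map Polynomial.C := by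
  have h : (toY k).comp ((Polynomial.aeval (X 1 : MvPolynomial (Fin 2) k)) : Polynomial k →ₐ[k] _).toRingHom =
      Polynomial.mapRingHom Polynomial.C := by
    apply Polynomial.ringHom_ext
    · intro a
      simp [toY_C]
    · simp [toY_X1]
  exact RingHom.congr_fun h g

theorem sw_xP (g : Polynomial k) : sw (xP k g) = uy g := by
  have h : ((sw (k := k) : MvPolynomial (Fin 2) k ≃ₐ[k] _) : MvPolynomial (Fin 2) k →+* _).comp (xP k) =
      ((Polynomial.aeval (X 1 : MvPolynomial (Fin 2) k)) : Polynomial k →ₐ[k] _).toRingHom := by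
    apply Polynomial.ringHom_ext
    · intro a
      have : sw (k := k) (C a) = C a := sw.commutes a
      simp [xP, this]
    · simp [xP, sw_X0]
  exact RingHom.congr_fun h g

/-- expansion in powers of `x` -/
theorem expand_x (f : MvPolynomial (Fin 2) k) :
    f = ∑ i ∈ Finset.range ((toY k (sw f)).natDegree + 1), uy ((toY k (sw f)).coeff i) * (X 0) ^ i := by
  have h1 : sw f = ∑ i ∈ Finset.range ((toY k (sw f)).natDegree + 1), xP k ((toY k (sw f)).coeff i) * (X 1) ^ i := by
    apply toY_injective
    rw [map_sum]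
    conv_lhs => rw [(toY k (sw f)).as_sum_range_C_mul_X_pow]
    apply Finset.sum_congr rfl
    intro i _
    rw [map_mul, map_pow, toY_xP, toY_X1]
  have h2 := congrArg sw h1
  rw [sw_sw, map_sum] at h2
  conv_lhs => rw [h2]
  apply Finset.sum_congr rfl
  intro i _
  rw [map_mul, map_pow, sw_xP, sw_X1]

/-- the Noether trick -/
theorem monY_elem (f : MvPolynomial (Fin 2) k) (hf : (toY k (sw f)).natDegree ≠ 0) :
    ∃ N : ℕ, MonY (elemX (Polynomial.X ^ N) f) := by
  set w := toY k (sw f) with hw
  set m := w.natDegree with hm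
  set D := ∑ i ∈ Finset.range (m + 1), (w.coeff i).natDegree with hD
  set N := D + 2 with hN
  have hDi : ∀ i ∈ Finset.range (m + 1), (w.coeff i).natDegree ≤ D := fun i hi =>
    Finset.single_le_sum (f := fun i => (w.coeff i).natDegree) (fun _ _ => Nat.zero_le _) hi
  refine ⟨N, ?_⟩
  set Z : Polynomial (Polynomial k) := Polynomial.C Polynomial.X + Polynomial.X ^ N with hZ
  have hZm : Z.Monic := by
    rw [hZ, add_comm]
    exact Polynomial.monic_X_pow_add_C _ (by omega)
  have hZd : Z.natDegree = N := by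
    rw [hZ, add_comm]
    exact Polynomial.natDegree_X_pow_add_C
  have hexp : toY k (elemX (Polynomial.X ^ N) f) =
      ∑ i ∈ Finset.range (m + 1), (w.coeff i).map Polynomial.C * Z ^ i := by
    conv_lhs => rw [expand_x f]
    rw [map_sum, map_sum]
    apply Finset.sum_congr rfl
    intro i _
    rw [map_mul, map_pow, map_mul, map_pow, elemX_X0, gmap_uy, elemX_X1, map_add, toY_X0, toY_uy]
    congr 1
    · exact toY_uy _
    · rw [hZ]; simp
  have hwm : w.coeff m ≠ 0 := by
    rw [hm, Polynomial.coeff_natDegree, Ne, Polynomial.leadingCoeff_eq_zero]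
    intro h0
    apply hf
    rw [hm, h0, Polynomial.natDegree_zero]
  have hmapd : ∀ g : Polynomial k, (g.map (Polynomial.C : k →+* Polynomial k)).natDegree = g.natDegree := fun g =>
    Polynomial.natDegree_map_eq_of_injective Polynomial.C_injective g
  have hmapne : (w.coeff m).map (Polynomial.C : k →+* Polynomial k) ≠ 0 := by
    rw [Ne, Polynomial.map_eq_zero_iff Polynomial.C_injective]; exact hwm
  have htop : ((w.coeff m).map Polynomial.C * Z ^ m).natDegree = (w.coeff m).natDegree + m * N := by
    rw [mul_comm ((w.coeff m).map Polynomial.C), (hZm.pow m).natDegree_mul' hmapne, hZm.natDegree_pow, hZd, hmapd,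
      add_comm]
  have hrest : (∑ i ∈ Finset.range m, (w.coeff i).map Polynomial.C * Z ^ i).natDegree ≤ D + (m - 1) * N := by
    apply Polynomial.natDegree_sum_le_of_forall_le
    intro i hi
    rw [Finset.mem_range] at hi
    apply Polynomial.natDegree_mul_le.trans
    rw [hZm.natDegree_pow, hZd, hmapd]
    have h1 := hDi i (Finset.mem_range.2 (by omega))
    have h2 : i * N ≤ (m - 1) * N := Nat.mul_le_mul_right N (by omega)
    omega
  have hm1 : 1 ≤ m := Nat.one_le_iff_ne_zero.2 hf
  have hlt : (∑ i ∈ Finset.range m, (w.coeff i).map Polynomial.C * Z ^ i).natDegree <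
      ((w.coeff m).map Polynomial.C * Z ^ m).natDegree := by
    rw [htop]
    have h3 : m * N = (m - 1) * N + N := by
      obtain ⟨m', hm'⟩ := Nat.exists_eq_add_of_le hm1
      rw [hm']
      simp only [Nat.add_sub_cancel_left]
      ring
    omega
  rw [MonY, hexp, Finset.sum_range_succ]
  refine ⟨?_, (w.coeff m).leadingCoeff, Polynomial.leadingCoeff_ne_zero.2 hwm, ?_⟩
  · rw [Polynomial.natDegree_add_eq_right_of_natDegree_lt hlt, htop]
    have : N ≤ m * N := Nat.le_mul_of_pos_left N (by omega)
    omega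
  · rw [Polynomial.leadingCoeff_add_of_degree_lt (Polynomial.degree_lt_degree hlt),
      Polynomial.leadingCoeff_mul_monic (hZm.pow m), Polynomial.leadingCoeff_map_of_injective Polynomial.C_injective]

/-- non-constant polynomials can be made monic -/
theorem exists_monY (f : MvPolynomial (Fin 2) k) (hf : ∀ a : k, f ≠ C a) : ∃ θ : GA k, MonY (θ f) := by
  by_cases h : (toY k (sw f)).natDegree = 0
  · by_cases h' : (toY k (sw (sw f))).natDegree = 0
    · exfalso
      rw [sw_sw] at h'
      have h1 := Polynomial.eq_C_of_natDegree_eq_zero h'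
      have h2 : f = xP k ((toY k f).coeff 0) := by
        apply toY_injective
        rw [toY_xP]; exact h1
      set g := (toY k f).coeff 0 with hg
      rw [h2, sw_xP, toY_uy, Polynomial.natDegree_map_eq_of_injective Polynomial.C_injective] at h
      have h3 := Polynomial.eq_C_of_natDegree_eq_zero h
      apply hf (g.coeff 0)
      rw [h2]
      conv_lhs => rw [h3]
      simp [xP]
    · obtain ⟨N, hN⟩ := monY_elem (sw f) h'
      refine ⟨sw.trans (elemX (Polynomial.X ^ N)), ?_⟩
      exact hN
  · obtain ⟨N, hN⟩ := monY_elem f h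
    exact ⟨_, hN⟩

end noether

section transport

variable {k₁ k₂ : Type*} [Field k₁] [Field k₂]
variable {L₁ : Type*} [Field L₁] [Algebra (MvPolynomial (Fin 2) k₁) L₁] [IsFractionRing (MvPolynomial (Fin 2) k₁) L₁]
  [Algebra k₁ L₁] [IsScalarTower k₁ (MvPolynomial (Fin 2) k₁) L₁]
variable {L₂ : Type*} [Field L₂] [Algebra (MvPolynomial (Fin 2) k₂) L₂] [IsFractionRing (MvPolynomial (Fin 2) k₂) L₂]
  [Algebra k₂ L₂] [IsScalarTower k₂ (MvPolynomial (Fin 2) k₂) L₂]

theorem Gen.transport (j : MvPolynomial (Fin 2) k₁ →+* MvPolynomial (Fin 2) k₂) (hj : Function.Injective j)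
    (hC : ∀ a : k₁, ∃ b : k₂, j (C a) = C b) (hX : ∀ i, ∃ p, j p = X i)
    (u : MvPolynomial (Fin 2) k₁) (T : L₁) (hT : Gen u T) : ∃ T' : L₂, Gen (j u) T' := by
  set φ : L₁ →+* L₂ := IsFractionRing.lift (A := MvPolynomial (Fin 2) k₁) (K := L₁)
    (g := (algebraMap (MvPolynomial (Fin 2) k₂) L₂).comp j)
    ((IsFractionRing.injective (MvPolynomial (Fin 2) k₂) L₂).comp hj) with hφ
  have hφa : ∀ p, φ (algebraMap (MvPolynomial (Fin 2) k₁) L₁ p) = algebraMap (MvPolynomial (Fin 2) k₂) L₂ (j p) := by
    intro p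
    rw [hφ, IsFractionRing.lift_algebraMap]; rfl
  refine ⟨φ T, ?_⟩
  rw [Gen]
  set S := IntermediateField.adjoin k₂ {algebraMap (MvPolynomial (Fin 2) k₂) L₂ (j u), φ T} with hS
  have hall : ∀ z : L₁, φ z ∈ S := by
    intro z
    have hz : z ∈ IntermediateField.adjoin k₁ {algebraMap (MvPolynomial (Fin 2) k₁) L₁ u, T} := by
      rw [hT]; trivial
    induction hz using IntermediateField.adjoin_induction with
    | mem x hx =>
      rcases hx with rfl | rfl
      · rw [hφa]; exact IntermediateField.subset_adjoin _ _ (Set.mem_insert _ _)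
      · exact IntermediateField.subset_adjoin _ _ (Set.mem_insert_of_mem _ rfl)
    | algebraMap x =>
      rw [IsScalarTower.algebraMap_apply k₁ (MvPolynomial (Fin 2) k₁) L₁, hφa, MvPolynomial.algebraMap_eq]
      obtain ⟨b, hb⟩ := hC x
      rw [hb, ← MvPolynomial.algebraMap_eq, ← IsScalarTower.algebraMap_apply]
      exact S.algebraMap_mem b
    | add x y _ _ hx hy => rw [map_add]; exact add_mem hx hy
    | inv x _ hx => rw [map_inv₀]; exact inv_mem hx
    | mul x y _ _ hx hy => rw [map_mul]; exact mul_mem hx hy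
  have hpoly : ∀ p : MvPolynomial (Fin 2) k₂, algebraMap (MvPolynomial (Fin 2) k₂) L₂ p ∈ S := by
    intro p
    induction p using MvPolynomial.induction_on with
    | C a =>
      rw [← MvPolynomial.algebraMap_eq, ← IsScalarTower.algebraMap_apply]
      exact S.algebraMap_mem a
    | add p q hp hq => rw [map_add]; exact add_mem hp hq
    | mul_X p i hp =>
      rw [map_mul]
      apply mul_mem hp
      obtain ⟨q, hq⟩ := hX i
      rw [← hq, ← hφa]
      exact hall _
  rw [eq_top_iff]
  intro z _
  obtain ⟨a, b, _, rfl⟩ := IsFractionRing.div_surjective (A := MvPolynomial (Fin 2) k₂) z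
  exact div_mem (hpoly a) (hpoly b)

end transport

section closed

variable {k : Type*} [Field k] [CharZero k] [IsAlgClosed k]

/-- Theorem R over an algebraically closed field -/
theorem R_closed (F : Fin 2 → MvPolynomial (Fin 2) k) (hJ : IsUnit (Matrix.det (jac F)))
    (T : FractionRing (MvPolynomial (Fin 2) k)) (hT : Gen (F 0) T) : SS F = ⊤ := by
  have hF0 : ∀ a : k, F 0 ≠ C a := by
    intro a ha
    rw [Pool.Agent.H922R2.det_jac, DJ_apply, ha] at hJ
    simp at hJ
  obtain ⟨θ, hθ⟩ := exists_monY (F 0) hF0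
  apply Pool.Agent.H922R2.SS_top_comp F θ
  have hJ' := Pool.Agent.H922R2.jac_comp θ F hJ
  obtain ⟨δ, hδ, hδe⟩ := MvPolynomial.isUnit_iff_eq_C_of_isReduced.1 (by rw [Pool.Agent.H922R2.det_jac] at hJ'; exact hJ')
  have hδ0 : δ ≠ 0 := hδ.ne_zero
  have hJb : Jb (θ (F 0)) (C δ⁻¹ * θ (F 1)) = 1 := by
    have h1 : Jb (θ (F 0)) (θ (F 1)) = C δ := by
      rw [← hδe, DJ_apply]; rfl
    rw [Jb_mul, h1, Jb_C_right, mul_zero, add_zero, ← C_mul, inv_mul_cancel₀ hδ0, C_1]
  obtain ⟨T', hT'⟩ := hT.transport (L₂ := FractionRing (MvPolynomial (Fin 2) k))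
    ((θ : MvPolynomial (Fin 2) k ≃ₐ[k] _) : MvPolynomial (Fin 2) k →+* _) θ.injective
    (fun a => ⟨a, θ.commutes a⟩) (fun i => ⟨θ.symm (X i), θ.apply_symm_apply _⟩)
  have hmain := main_R (L := FractionRing (MvPolynomial (Fin 2) k)) _ hJb hθ T' hT'
  have hfF : fF (FractionRing (MvPolynomial (Fin 2) k)) (fun i => θ (F i)) = ⊤ := by
    rw [eq_top_iff, ← hmain, IntermediateField.adjoin_le_iff]
    rintro z hz
    rcases hz with rfl | rfl
    · exact IntermediateField.subset_adjoin _ _ ⟨0, rfl⟩
    · rw [map_mul]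
      apply mul_mem
      · rw [← MvPolynomial.algebraMap_eq, ← IsScalarTower.algebraMap_apply]
        exact IntermediateField.algebraMap_mem _ _
      · exact IntermediateField.subset_adjoin _ _ ⟨1, rfl⟩
  rw [eq_top_iff]
  intro r _
  apply Pool.Agent.H922R2.mem_SS_of_mem_fF (FractionRing (MvPolynomial (Fin 2) k)) _ hJ' r
  rw [hfF]; trivial

end closed

section any

variable {k : Type*} [Field k] [CharZero k] {E : Type*} [Field E] [Algebra k E]

/-- Theorem R -/
theorem R_any (F : Fin 2 → MvPolynomial (Fin 2) k) (hJ : IsUnit (Matrix.det (jac F)))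
    (T : FractionRing (MvPolynomial (Fin 2) E)) (hT : Gen (map (algebraMap k E) (F 0)) T) : SS F = ⊤ := by
  haveI : CharZero E := charZero_of_injective_algebraMap (algebraMap k E).injective
  haveI : CharZero (AlgebraicClosure E) := charZero_of_injective_algebraMap
    (algebraMap E (AlgebraicClosure E)).injective
  letI : Algebra k (AlgebraicClosure E) := ((algebraMap E (AlgebraicClosure E)).comp (algebraMap k E)).toAlgebra
  obtain ⟨T', hT'⟩ := hT.transport (L₂ := FractionRing (MvPolynomial (Fin 2) (AlgebraicClosure E)))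
    (map (algebraMap E (AlgebraicClosure E))) (MvPolynomial.map_injective _ (algebraMap E (AlgebraicClosure E)).injective)
    (fun a => ⟨algebraMap E (AlgebraicClosure E) a, map_C _ _⟩) (fun i => ⟨X i, map_X _ _⟩)
  have he : map (algebraMap E (AlgebraicClosure E)) (map (algebraMap k E) (F 0)) =
      Pool.Agent.H922R2.mE k (AlgebraicClosure E) (Fin 2) (F 0) := by
    rw [Pool.Agent.H922R2.mE, MvPolynomial.map_map]
    rfl
  rw [he] at hT'
  exact Pool.Agent.H922R2.SS_descent (E := AlgebraicClosure E) F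
    (R_closed _ (Pool.Agent.H922R2.jac_mE (E := AlgebraicClosure E) F hJ) T' hT')

end any

end Pool.Agent.H922R2.R
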