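import Mathlib
import Pool.Agent.H922R2.K6

set_option autoImplicit false
set_option linter.unusedSectionVars false
set_option linter.style.haveILetI false

open MvPolynomial

namespace Pool.Agent.H922R2

open Pool.Agent.Helper165.P1 (HQ Pui)

section Weighted

variable {k : Type*} [Field k] {σ : Type*} [Fintype σ] [DecidableEq σ]

/-- The weight of an exponent vector. -/
def wtt (w : σ → ℤ) (m : σ →₀ ℕ) : ℤ := ∑ i, w i * (m i : ℤ)

theorem wtt_neg (w : σ → ℤ) (m : σ →₀ ℕ) : wtt (-w) m = -wtt w m := by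
  simp [wtt]

/-- Embedding in Hahn series by a weight. -/
noncomputable def ew (k : Type*) [Field k] {σ : Type*} (w : σ → ℤ) :
    MvPolynomial σ k →+* HQ (EE k σ) :=
  eval₂Hom ((HahnSeries.C).comp ((iE k σ).comp C))
    (fun j => HahnSeries.single ((w j : ℤ) : ℚ) (iE k σ (X j)))

theorem ew_monomial (w : σ → ℤ) (m : σ →₀ ℕ) (a : k) :
    ew k w (monomial m a) = HahnSeries.single ((wtt w m : ℤ) : ℚ) (iE k σ (monomial m a)) := by
  rw [ew, coe_eval₂Hom, eval₂_monomial]
  have h1 : (m.prod fun n e => (HahnSeries.single ((w n : ℤ) : ℚ) (iE k σ (X n))) ^ e) =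
      HahnSeries.single ((wtt w m : ℤ) : ℚ) (iE k σ (monomial m 1)) := by
    rw [monomial_eq, C_1, one_mul, Finsupp.prod_fintype _ _ (by simp), Finsupp.prod_fintype _ _ (by simp)]
    simp only [HahnSeries.single_pow, map_prod, map_pow]
    have h2 : ∀ s : Finset σ, (∏ i ∈ s, HahnSeries.single (m i • ((w i : ℤ) : ℚ)) (iE k σ (X i) ^ m i)) =
        HahnSeries.single (∑ i ∈ s, m i • ((w i : ℤ) : ℚ)) (∏ i ∈ s, iE k σ (X i) ^ m i) := by
      intro s
      induction s using Finset.induction_on with
      | empty => simp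
      | insert a s ha ih =>
        rw [Finset.prod_insert ha, ih, Finset.sum_insert ha, Finset.prod_insert ha, HahnSeries.single_mul_single]
    rw [h2]
    congr 2
    rw [wtt]
    push_cast
    apply Finset.sum_congr rfl
    intro i _
    rw [nsmul_eq_mul, mul_comm]
  rw [h1]
  have h3 : (HahnSeries.C.comp ((iE k σ).comp C)) a = HahnSeries.single (0 : ℚ) (iE k σ (C a)) := rfl
  rw [h3, HahnSeries.single_mul_single, zero_add, ← map_mul, C_mul_monomial, mul_one]

theorem ew_coeff_ne (w : σ → ℤ) (p : MvPolynomial σ k) (m : σ →₀ ℕ) (hm : m ∈ p.support) :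
    (ew k w p).coeff ((wtt w m : ℤ) : ℚ) ≠ 0 := by
  intro h1
  rw [p.as_sum, map_sum, HahnSeries.coeff_sum] at h1
  have h2 : ∀ x ∈ p.support, (ew k w (monomial x (coeff x p))).coeff ((wtt w m : ℤ) : ℚ) =
      iE k σ (if wtt w x = wtt w m then monomial x (coeff x p) else 0) := by
    intro x _
    rw [ew_monomial, HahnSeries.coeff_single]
    by_cases h : wtt w x = wtt w m
    · simp [h]
    · rw [if_neg, if_neg h, map_zero]
      intro h'
      apply h
      exact_mod_cast h'.symm
  rw [Finset.sum_congr rfl h2, ← map_sum] at h1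
  have h3 : (∑ x ∈ p.support, (if wtt w x = wtt w m then monomial x (coeff x p) else 0)) = 0 :=
    iE_injective (by rw [h1, map_zero])
  have h4 := congrArg (coeff m) h3
  rw [coeff_sum, Finset.sum_eq_single m] at h4
  · rw [if_pos rfl, coeff_monomial, if_pos rfl, coeff_zero] at h4
    exact (mem_support_iff.1 hm) h4
  · intro b _ hb
    split_ifs
    · rw [coeff_monomial, if_neg hb]
    · simp
  · intro h; exact absurd hm h

theorem ew_injective (w : σ → ℤ) : Function.Injective (ew k w) := by
  rw [injective_iff_map_eq_zero]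
  intro p hp
  by_contra hne
  obtain ⟨m, hm⟩ := support_nonempty.2 hne
  exact ew_coeff_ne w p m hm (by rw [hp]; rfl)

/-- a quasi-homogeneous polynomial maps to a single term -/
theorem ew_homog (w : σ → ℤ) (p : MvPolynomial σ k) (d : ℤ) (h : ∀ m ∈ p.support, wtt w m = d) :
    ew k w p = HahnSeries.single ((d : ℤ) : ℚ) (iE k σ p) := by
  conv_lhs => rw [p.as_sum, map_sum]
  conv_rhs => rw [p.as_sum, map_sum]
  have h2 : ∀ s : Finset (σ →₀ ℕ), s ⊆ p.support → (∑ x ∈ s, ew k w (monomial x (coeff x p))) =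
      HahnSeries.single ((d : ℤ) : ℚ) (∑ x ∈ s, iE k σ (monomial x (coeff x p))) := by
    intro s
    induction s using Finset.induction_on with
    | empty => intro _; simp
    | insert a s ha ih =>
      intro hs
      rw [Finset.sum_insert ha, ih ((Finset.subset_insert _ _).trans hs), Finset.sum_insert ha,
        ew_monomial, h a (hs (Finset.mem_insert_self _ _)), HahnSeries.single_add]
  exact h2 _ subset_rfl

variable [CharZero k]

/-- The weighted Euler operator. -/
noncomputable def Ewt (w : σ → ℤ) (p : MvPolynomial σ k) : MvPolynomial σ k :=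
  ∑ i, C ((w i : ℤ) : k) * (X i * pderiv i p)

theorem Ewt_monomial (w : σ → ℤ) (m : σ →₀ ℕ) (a : k) :
    Ewt w (monomial m a) = C ((wtt w m : ℤ) : k) * monomial m a := by
  unfold Ewt wtt
  rw [Int.cast_sum, map_sum, Finset.sum_mul]
  apply Finset.sum_congr rfl
  intro i _
  rw [X_mul_pderiv_monomial]
  simp only [C_mul_monomial, nsmul_eq_mul]
  rw [← C_eq_coe_nat, C_mul_monomial, C_mul_monomial]
  congr 1
  push_cast
  ring

theorem Ewt_add (w : σ → ℤ) (p q : MvPolynomial σ k) : Ewt w (p + q) = Ewt w p + Ewt w q := by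
  unfold Ewt
  rw [← Finset.sum_add_distrib]
  apply Finset.sum_congr rfl
  intro i _
  rw [map_add]; ring

theorem eulerFun_ew (w : σ → ℤ) (p : MvPolynomial σ k) :
    eulerFun (ew k w p) = ew k w (Ewt w p) := by
  induction p using MvPolynomial.induction_on' with
  | monomial m a =>
    rw [Ewt_monomial, C_mul_monomial, ew_monomial, ew_monomial]
    ext q
    rw [eulerFun_coeff, HahnSeries.coeff_single, HahnSeries.coeff_single]
    split_ifs with h
    · rw [h, ← C_mul_monomial, map_mul]
      congr 1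
      have : (C ((wtt w m : ℤ) : k) : MvPolynomial σ k) = ((wtt w m : ℤ) : MvPolynomial σ k) := by
        simp
      rw [this, map_intCast]
      push_cast
      rfl
    · simp
  | add p q hp hq => rw [map_add, eulerFun_isDer.add, hp, hq, Ewt_add, map_add]

theorem ew_mem (w : σ → ℤ) (p : MvPolynomial σ k) : ew k w p ∈ Pui (EE k σ) := by
  induction p using MvPolynomial.induction_on' with
  | monomial m a =>
    rw [ew_monomial]
    exact single_mem_Pui _ _
  | add p q hp hq => rw [map_add]; exact add_mem hp hq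

/-- The embedding in Puiseux series. -/
noncomputable def ew1 (k : Type*) [Field k] [CharZero k] {σ : Type*} [Fintype σ] [DecidableEq σ] (w : σ → ℤ) :
    MvPolynomial σ k →+* Pui (EE k σ) :=
  (ew k w).codRestrict (Pui (EE k σ)) (ew_mem w)

theorem ew1_coe (w : σ → ℤ) (p : MvPolynomial σ k) :
    ((ew1 k w p : Pui (EE k σ)) : HQ (EE k σ)) = ew k w p := rfl

theorem ew1_injective (w : σ → ℤ) : Function.Injective (ew1 k w) := by
  intro a b h
  exact ew_injective w (by rw [← ew1_coe, h, ew1_coe])

end Weighted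

section Compat

/-- Two derivations agree on an algebraic extension. -/
theorem der_compat {A B H : Type*} [CommRing A] [CommRing B] [IsDomain B] [CharZero B] [CommRing H] [IsDomain H]
    (ι : A →+* B) (ψ : B →+* H) (hψ : Function.Injective ψ) (hι : Function.Injective ι)
    (halg : ∀ x : B, ∃ P : Polynomial A, P ≠ 0 ∧ P.eval₂ ι x = 0)
    (ε : A → A) (δ : B → B) (hδ : IsDer δ) (hδι : ∀ a, δ (ι a) = ι (ε a))
    (Δ : H → H) (hΔ : IsDer Δ) (hΔι : ∀ a, Δ (ψ (ι a)) = ψ (ι (ε a))) (x : B) :
    ψ (δ x) = Δ (ψ x) := by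
  haveI : IsDomain A := hι.isDomain ι
  haveI : CharZero A := by
    refine ⟨fun a b h => ?_⟩
    have := congrArg ι h
    rw [map_natCast, map_natCast] at this
    exact_mod_cast this
  classical
  have hex : ∃ n, ∃ P : Polynomial A, P ≠ 0 ∧ P.eval₂ ι x = 0 ∧ P.natDegree = n := by
    obtain ⟨P, hP, hPx⟩ := halg x
    exact ⟨_, P, hP, hPx, rfl⟩
  obtain ⟨P, hP0, hPx, hPn⟩ := Nat.find_spec hex
  have hder : P.derivative.eval₂ ι x ≠ 0 := by
    intro h0
    have hdeg : P.natDegree ≠ 0 := by
      intro h1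
      rw [Polynomial.eq_C_of_natDegree_eq_zero h1, Polynomial.eval₂_C] at hPx
      apply hP0
      rw [Polynomial.eq_C_of_natDegree_eq_zero h1, hι (by rw [hPx, map_zero] : ι (P.coeff 0) = ι 0), map_zero]
    have h2 : P.derivative ≠ 0 := by
      intro h3
      exact hdeg (Polynomial.derivative_eq_zero.1 h3)
    have h3 := Nat.find_min' hex ⟨P.derivative, h2, h0, rfl⟩
    have h4 := Polynomial.natDegree_derivative_lt hdeg
    omega
  have h1 := hδ.eval₂ ι x P
  rw [hPx, hδ.zero] at h1
  have h2 := hΔ.eval₂ (ψ.comp ι) (ψ x) P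
  rw [← Polynomial.hom_eval₂, ← Polynomial.hom_eval₂, hPx, map_zero, hΔ.zero] at h2
  have h3 := congrArg ψ h1
  simp only [map_zero, map_add, map_sum, map_mul, hδι, map_pow] at h3
  simp only [RingHom.comp_apply, hΔι] at h2
  have h5 : ψ (P.derivative.eval₂ ι x) ≠ 0 := by
    rw [Ne, map_eq_zero_iff ψ hψ]; exact hder
  apply mul_left_cancel₀ h5
  linear_combination h2 - h3

end Compat

end Pool.Agent.H922R2
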