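import Mathlib
import Pool.Agent.H922R2.L1

set_option autoImplicit false
set_option linter.unusedSectionVars false
set_option linter.style.haveILetI false

open MvPolynomial

namespace Pool.Agent.H922R2

open Pool.Agent.Helper165.P1 (HQ Pui)

section GT

variable {E : Type*} [Field E] [CharZero E]

/-- all coefficients at exponents at most `c` vanish -/
def GT (c : ℚ) (x : HahnSeries ℚ E) : Prop := ∀ q ≤ c, x.coeff q = 0

theorem GT.mul {a b : ℚ} {x y : HahnSeries ℚ E} (hx : GT a x) (hy : GT b y) : GT (a + b) (x * y) := by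
  intro q hq
  rw [HahnSeries.coeff_mul]
  apply Finset.sum_eq_zero
  rintro ⟨i, j⟩ hij
  rw [Finset.mem_antidiagonal] at hij
  obtain ⟨_, _, h⟩ := hij
  simp only at h ⊢
  by_cases hi : i ≤ a
  · rw [hx i hi, zero_mul]
  · push Not at hi
    rw [hy j (by linarith), mul_zero]

theorem GT.mul_LB {a b : ℚ} {x y : HahnSeries ℚ E} (hx : GT a x) (hy : LB b y) : GT (a + b) (x * y) := by
  intro q hq
  rw [HahnSeries.coeff_mul]
  apply Finset.sum_eq_zero
  rintro ⟨i, j⟩ hij
  rw [Finset.mem_antidiagonal] at hij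
  obtain ⟨_, _, h⟩ := hij
  simp only at h ⊢
  by_cases hi : i ≤ a
  · rw [hx i hi, zero_mul]
  · push Not at hi
    rw [hy j (by linarith), mul_zero]

theorem GT_multiset_prod (c : ℚ) (s : Multiset (HahnSeries ℚ E)) (hs : ∀ x ∈ s, GT c x) (h0 : s ≠ 0) :
    GT ((Multiset.card s : ℚ) * c) s.prod := by
  induction s using Multiset.induction_on with
  | empty => exact absurd rfl h0
  | cons a s ih =>
    have ha := hs a (Multiset.mem_cons_self a s)
    by_cases hs0 : s = 0
    · subst hs0
      simpa using ha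
    · have ih' := ih (fun x hx => hs x (Multiset.mem_cons_of_mem hx)) hs0
      rw [Multiset.prod_cons, Multiset.card_cons]
      have := ha.mul ih'
      have h1 : c + (Multiset.card s : ℚ) * c = ((Multiset.card s + 1 : ℕ) : ℚ) * c := by
        push_cast; ring
      rwa [h1] at this

theorem Pui_finite (x : Pui E) : {r : ℚ | r ≤ 0 ∧ ((x : Pui E) : HQ E).coeff r ≠ 0}.Finite := by
  obtain ⟨x, m, hm, y, rfl⟩ := x
  have hsub : {r : ℚ | r ≤ 0 ∧ (Pool.Agent.Helper165.P1.eHom m hm y).coeff r ≠ 0} ⊆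
      (fun n : ℤ => (n : ℚ) / m) '' (Set.Icc (HahnSeries.order y) 0) := by
    rintro r ⟨hr, hne⟩
    by_cases h : ∃ n : ℤ, (n : ℚ) / m = r
    · obtain ⟨n, rfl⟩ := h
      rw [Pool.Agent.Helper165.P1.eHom_coeff] at hne
      refine ⟨n, ⟨HahnSeries.order_le_of_coeff_ne_zero hne, ?_⟩, rfl⟩
      have hm' : (0 : ℚ) < (m : ℚ) := by exact_mod_cast hm
      have h2 : (n : ℚ) ≤ 0 := by
        rcases le_or_gt (n : ℚ) 0 with h3 | h3
        · exact h3
        · have := div_pos h3 hm'
          linarith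
      exact_mod_cast h2
    · push Not at h
      exact absurd (Pool.Agent.Helper165.P1.eHom_coeff_of_ne m hm y r h) hne
  exact ((Set.finite_Icc _ _).image _).subset hsub

end GT

section

variable {k : Type*} [Field k] [CharZero k] {σ : Type*} [Fintype σ] [DecidableEq σ]
variable {B : Type*} [CommRing B] [IsDomain B]

theorem exists_b0 (ι : MvPolynomial σ k →+* B) (hι : Function.Injective ι)
    (halg : ∀ x : B, ∃ P : Polynomial (MvPolynomial σ k), P ≠ 0 ∧ P.eval₂ ι x = 0)
    (b : B) (hb : b ≠ 0) (hbint : ι.IsIntegralElem b) :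
    ∃ (b0 : MvPolynomial σ k) (m : ℕ), b0 ≠ 0 ∧ 0 < m ∧
      ∀ e : MvPolynomial σ k →+* Pui (EE k σ), Function.Injective e → ∀ c : ℚ,
        (∀ ψ : B →+* Pui (EE k σ), ψ.comp ι = e → GT c ((ψ b : Pui (EE k σ)) : HQ (EE k σ))) →
        GT (m * c) ((e b0 : Pui (EE k σ)) : HQ (EE k σ)) := by
  classical
  letI : Algebra (MvPolynomial σ k) B := ι.toAlgebra
  have hmap : algebraMap (MvPolynomial σ k) B = ι := rfl
  haveI : FaithfulSMul (MvPolynomial σ k) B := (faithfulSMul_iff_algebraMap_injective _ _).2 hι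
  haveI : Algebra.IsAlgebraic (MvPolynomial σ k) B := by
    refine ⟨fun x => ?_⟩
    obtain ⟨P, hP, hPx⟩ := halg x
    exact ⟨P, hP, hPx⟩
  letI := FractionRing.liftAlgebra (MvPolynomial σ k) (FractionRing B)
  haveI := FractionRing.isScalarTower_liftAlgebra (MvPolynomial σ k) (FractionRing B)
  haveI : Algebra.IsAlgebraic (FractionRing (MvPolynomial σ k)) (FractionRing B) := by
    have := (IsFractionRing.isAlgebraic_iff' (MvPolynomial σ k) B (FractionRing B)).1 inferInstance
    exact ⟨fun _ ↦ (IsFractionRing.isAlgebraic_iff (MvPolynomial σ k)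
      (FractionRing (MvPolynomial σ k)) (FractionRing B)).1 (Algebra.IsAlgebraic.isAlgebraic _)⟩
  have hbint' : IsIntegral (MvPolynomial σ k) b := hbint
  set b' : FractionRing B := algebraMap B (FractionRing B) b with hb'
  have hμ : minpoly (FractionRing (MvPolynomial σ k)) b' =
      (minpoly (MvPolynomial σ k) b).map (algebraMap _ _) :=
    minpoly.isIntegrallyClosed_eq_field_fractions _ _ hbint'
  have hb'int : IsIntegral (FractionRing (MvPolynomial σ k)) b' := Algebra.IsIntegral.isIntegral b'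
  have h9 : (minpoly (MvPolynomial σ k) b).coeff 0 ≠ 0 := by
    intro h0
    apply minpoly.coeff_zero_ne_zero hb'int
    · intro h; exact hb (IsFractionRing.injective B (FractionRing B) (by rw [← hb', h, map_zero]))
    · rw [hμ, Polynomial.coeff_map, h0, map_zero]
  refine ⟨(minpoly (MvPolynomial σ k) b).coeff 0,
    (minpoly (FractionRing (MvPolynomial σ k)) b').natDegree, h9, minpoly.natDegree_pos hb'int, ?_⟩
  intro e he c hc
  letI : Algebra (MvPolynomial σ k) (Pui (EE k σ)) := e.toAlgebra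
  have hmapP : algebraMap (MvPolynomial σ k) (Pui (EE k σ)) = e := rfl
  haveI : FaithfulSMul (MvPolynomial σ k) (Pui (EE k σ)) :=
    (faithfulSMul_iff_algebraMap_injective _ _).2 he
  letI := FractionRing.liftAlgebra (MvPolynomial σ k) (Pui (EE k σ))
  haveI := FractionRing.isScalarTower_liftAlgebra (MvPolynomial σ k) (Pui (EE k σ))
  have hroots : ∀ ρ ∈ ((minpoly (FractionRing (MvPolynomial σ k)) b').map
      (algebraMap _ (Pui (EE k σ)))).roots, GT c ((ρ : Pui (EE k σ)) : HQ (EE k σ)) := by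
    intro ρ hρ
    have h1 : ρ ∈ (minpoly (FractionRing (MvPolynomial σ k)) b').rootSet (Pui (EE k σ)) := by
      have h0 := (Polynomial.mem_roots'.1 hρ)
      rw [Polynomial.mem_rootSet']
      refine ⟨h0.1, ?_⟩
      rw [Polynomial.aeval_def, ← Polynomial.eval_map]
      exact h0.2
    rw [← Algebra.IsAlgebraic.range_eval_eq_rootSet_minpoly] at h1
    obtain ⟨ψ, hψ⟩ := h1
    have h2 := hc ((ψ : FractionRing B →+* Pui (EE k σ)).comp (algebraMap B (FractionRing B))) (by
      apply RingHom.ext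
      intro p
      simp only [RingHom.comp_apply]
      have : algebraMap B (FractionRing B) (ι p) = algebraMap (FractionRing (MvPolynomial σ k))
          (FractionRing B) (algebraMap (MvPolynomial σ k) (FractionRing (MvPolynomial σ k)) p) := by
        rw [← IsScalarTower.algebraMap_apply, ← hmap, ← IsScalarTower.algebraMap_apply]
      rw [this, RingHom.coe_coe, AlgHom.commutes, ← IsScalarTower.algebraMap_apply, hmapP])
    simp only [RingHom.comp_apply, RingHom.coe_coe] at h2
    rw [← hb'] at h2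
    change ψ b' = ρ at hψ
    rwa [hψ] at h2
  have hsplit : ((minpoly (FractionRing (MvPolynomial σ k)) b').map
      (algebraMap _ (Pui (EE k σ)))).Splits := IsAlgClosed.splits _
  have hmonic := (minpoly.monic hb'int).map (algebraMap _ (Pui (EE k σ)))
  have h3 := hsplit.coeff_zero_eq_prod_roots_of_monic hmonic
  have hcard := hsplit.natDegree_eq_card_roots
  rw [Polynomial.natDegree_map] at hcard
  have h4 : ((minpoly (FractionRing (MvPolynomial σ k)) b').map
      (algebraMap _ (Pui (EE k σ)))).roots ≠ 0 := by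
    intro h0
    rw [h0, Multiset.card_zero] at hcard
    exact (minpoly.natDegree_pos hb'int).ne' hcard
  have h6 : GT (((minpoly (FractionRing (MvPolynomial σ k)) b').natDegree : ℚ) * c)
      ((((minpoly (FractionRing (MvPolynomial σ k)) b').map
      (algebraMap _ (Pui (EE k σ)))).roots.prod : Pui (EE k σ)) : HQ (EE k σ)) := by
    have h7 := GT_multiset_prod c (Multiset.map (Pui (EE k σ)).subtype
      ((minpoly (FractionRing (MvPolynomial σ k)) b').map (algebraMap _ (Pui (EE k σ)))).roots) (by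
        intro x hx
        obtain ⟨ρ, hρ, rfl⟩ := Multiset.mem_map.1 hx
        exact hroots ρ hρ) (by simpa using h4)
    rw [← map_multiset_prod, Multiset.card_map, ← hcard] at h7
    exact h7
  have h11 : (((minpoly (FractionRing (MvPolynomial σ k)) b').map
      (algebraMap _ (Pui (EE k σ)))).coeff 0) = e ((minpoly (MvPolynomial σ k) b).coeff 0) := by
    rw [hμ, Polynomial.map_map, ← IsScalarTower.algebraMap_eq, Polynomial.coeff_map, hmapP]
  rw [← h11, h3]
  have h10 : ∀ N : ℕ, LB 0 (((-1 : Pui (EE k σ)) ^ N : Pui (EE k σ)) : HQ (EE k σ)) := by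
    intro N
    rcases neg_one_pow_eq_or (Pui (EE k σ)) N with h | h
    · rw [h]; exact LB_one
    · rw [h]
      intro q hq
      change (-(1 : HQ (EE k σ))).coeff q = 0
      rw [HahnSeries.coeff_neg, LB_one q hq, neg_zero]
  rw [mul_comm ((-1 : Pui (EE k σ)) ^ _)]
  have := h6.mul_LB (h10 ((minpoly (FractionRing (MvPolynomial σ k)) b').map
      (algebraMap _ (Pui (EE k σ)))).natDegree)
  rw [add_zero] at this
  exact this

theorem finite_exps (ι : MvPolynomial σ k →+* B)
    (halg : ∀ x : B, ∃ P : Polynomial (MvPolynomial σ k), P ≠ 0 ∧ P.eval₂ ι x = 0)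
    (f : B) (e : MvPolynomial σ k →+* Pui (EE k σ)) (he : Function.Injective e) :
    ∃ Λ : Finset ℚ, ∀ ψ : B →+* Pui (EE k σ), ψ.comp ι = e → ∀ r : ℚ, r ≤ 0 →
      ((ψ f : Pui (EE k σ)) : HQ (EE k σ)).coeff r ≠ 0 → r ∈ Λ := by
  classical
  obtain ⟨P, hP, hPf⟩ := halg f
  have hPe : P.map e ≠ 0 := by
    rwa [Ne, Polynomial.map_eq_zero_iff he]
  refine ⟨(P.map e).roots.toFinset.biUnion fun ρ => (Pui_finite ρ).toFinset, ?_⟩
  intro ψ hψ r hr hne
  rw [Finset.mem_biUnion]
  refine ⟨ψ f, ?_, ?_⟩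
  · rw [Multiset.mem_toFinset, Polynomial.mem_roots hPe, Polynomial.IsRoot.def, Polynomial.eval_map,
      ← hψ, ← Polynomial.hom_eval₂, hPf, map_zero]
  · rw [Set.Finite.mem_toFinset]
    exact ⟨hr, hne⟩

theorem ext_injective (ι : MvPolynomial σ k →+* B)
    (halg : ∀ x : B, ∃ P : Polynomial (MvPolynomial σ k), P ≠ 0 ∧ P.eval₂ ι x = 0)
    {H : Type*} [CommRing H] [IsDomain H] (ψ : B →+* H) (hψ : Function.Injective (ψ.comp ι)) :
    Function.Injective ψ := by
  classical
  rw [injective_iff_map_eq_zero]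
  intro y hy
  by_contra hy0
  have hex2 : ∃ n, ∃ P : Polynomial (MvPolynomial σ k), P ≠ 0 ∧ P.eval₂ ι y = 0 ∧ P.natDegree = n := by
    obtain ⟨Q, hQ, hQy⟩ := halg y
    exact ⟨_, Q, hQ, hQy, rfl⟩
  obtain ⟨P, hP0, hPy, hPn⟩ := Nat.find_spec hex2
  have h5 : P.coeff 0 ≠ 0 := by
    intro h0
    obtain ⟨P', hP'⟩ := Polynomial.X_dvd_iff.2 h0
    rw [hP', Polynomial.eval₂_mul, Polynomial.eval₂_X] at hPy
    have h6 : P'.eval₂ ι y = 0 := (mul_eq_zero.1 hPy).resolve_left hy0
    have hP'0 : P' ≠ 0 := by rintro rfl; exact hP0 (by rw [hP', mul_zero])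
    have h7 := Nat.find_min' hex2 ⟨P', hP'0, h6, rfl⟩
    rw [← hPn, hP', Polynomial.natDegree_X_mul hP'0] at h7
    omega
  have h8 : ψ (P.eval₂ ι y) = (ψ.comp ι) (P.coeff 0) := by
    rw [Polynomial.hom_eval₂, hy, Polynomial.eval₂_at_zero]
  rw [hPy, map_zero] at h8
  exact h5 (hψ (by rw [← h8, map_zero]))

end

end Pool.Agent.H922R2
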