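import Mathlib
import Pool.Agent.H922R2.L2

set_option autoImplicit false
set_option linter.unusedSectionVars false
set_option linter.style.haveILetI false

open MvPolynomial

namespace Pool.Agent.H922R2

open Pool.Agent.Helper165.P1 (HQ Pui)

section

variable {k : Type*} [Field k] [CharZero k] {σ : Type*} [Fintype σ] [DecidableEq σ]
variable (F : σ → MvPolynomial σ k)

/-- The lift of the weighted Euler derivation. -/
noncomputable def DW (w : σ → ℤ) : Derivation k (MvPolynomial σ k) (MvPolynomial σ k) :=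
  ∑ i, (C ((w i : ℤ) : k) * F i) • dualD F i

theorem DW_apply (w : σ → ℤ) (r : MvPolynomial σ k) :
    DW F w r = ∑ i, C ((w i : ℤ) : k) * F i * dualD F i r := by
  have h : ∀ t : Finset σ, (∑ i ∈ t, (C ((w i : ℤ) : k) * F i) • dualD F i) r =
      ∑ i ∈ t, C ((w i : ℤ) : k) * F i * dualD F i r := by
    intro t
    induction t using Finset.induction_on with
    | empty => simp
    | insert a t ha ih =>
      rw [Finset.sum_insert ha, Finset.sum_insert ha, Derivation.add_apply, ih,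
        Derivation.smul_apply, smul_eq_mul]
  exact h Finset.univ

theorem DW_aeval (hJ : IsUnit (Matrix.det (jac F))) (w : σ → ℤ) (p : MvPolynomial σ k) :
    DW F w (aeval F p) = aeval F (Ewt w p) := by
  rw [DW_apply, Ewt, map_sum]
  apply Finset.sum_congr rfl
  intro i _
  rw [dualD_aeval F hJ, map_mul, map_mul, aeval_X, aeval_C]
  rw [mul_assoc]
  rfl

theorem DW_isDer (w : σ → ℤ) : IsDer (DW F w) where
  add := map_add _
  mul x y := (DW F w).leibniz x y

/-- polynomial with prescribed rational roots -/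
noncomputable def PL (k : Type*) [Field k] (Λ : Finset ℚ) : Polynomial k :=
  ∏ r ∈ Λ, (Polynomial.X - Polynomial.C ((r : ℚ) : k))

theorem compat_pos (hJ : IsUnit (Matrix.det (jac F))) (w : σ → ℤ)
    (halg : ∀ x : MvPolynomial σ k, ∃ P : Polynomial (MvPolynomial σ k), P ≠ 0 ∧
      P.eval₂ (aeval F : MvPolynomial σ k →ₐ[k] MvPolynomial σ k).toRingHom x = 0)
    (ψ : MvPolynomial σ k →+* Pui (EE k σ))
    (hψ : ψ.comp (aeval F : MvPolynomial σ k →ₐ[k] MvPolynomial σ k).toRingHom = ew1 k w)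
    (x : MvPolynomial σ k) :
    ((ψ (DW F w x) : Pui (EE k σ)) : HQ (EE k σ)) = eulerFun ((ψ x : Pui (EE k σ)) : HQ (EE k σ)) := by
  have hψ' : ∀ a, ψ (aeval F a) = ew1 k w a := fun a => by rw [← hψ]; rfl
  have hinj : Function.Injective ψ := by
    apply ext_injective (aeval F : MvPolynomial σ k →ₐ[k] MvPolynomial σ k).toRingHom halg
    rw [hψ]; exact ew1_injective w
  have hι : Function.Injective (aeval F : MvPolynomial σ k →ₐ[k] MvPolynomial σ k).toRingHom :=
    aeval_injective F hJ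
  exact der_compat (aeval F : MvPolynomial σ k →ₐ[k] MvPolynomial σ k).toRingHom
    ((Pui (EE k σ)).subtype.comp ψ) (Subtype.val_injective.comp hinj) hι halg
    (Ewt w) (DW F w) (DW_isDer F w) (DW_aeval F hJ w) eulerFun eulerFun_isDer (by
      intro a
      change eulerFun ((ψ (aeval F a) : Pui (EE k σ)) : HQ (EE k σ)) =
        ((ψ (aeval F (Ewt w a)) : Pui (EE k σ)) : HQ (EE k σ))
      rw [hψ', hψ', ew1_coe, ew1_coe, eulerFun_ew]) x

theorem Ewt_neg (w : σ → ℤ) (p : MvPolynomial σ k) : Ewt (-w) p = -Ewt w p := by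
  unfold Ewt
  rw [← Finset.sum_neg_distrib]
  apply Finset.sum_congr rfl
  intro i _
  simp

theorem DW_neg (w : σ → ℤ) (p : MvPolynomial σ k) : DW F (-w) p = -DW F w p := by
  rw [DW_apply, DW_apply, ← Finset.sum_neg_distrib]
  apply Finset.sum_congr rfl
  intro i _
  simp

/-- the operator -/
noncomputable abbrev TW (w : σ → ℤ) : Module.End k (MvPolynomial σ k) :=
  (DW F w).toLinearMap

theorem coeff_prod (w : σ → ℤ) (s : ℚ)
    (ψ : MvPolynomial σ k →+* Pui (EE k σ))
    (hψ : ∀ x, ((ψ (DW F w x) : Pui (EE k σ)) : HQ (EE k σ)) =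
      (HahnSeries.C ((s : ℚ) : EE k σ)) * eulerFun ((ψ x : Pui (EE k σ)) : HQ (EE k σ)))
    (Λ : Finset ℚ) (x : MvPolynomial σ k) (r : ℚ) :
    ((ψ (Polynomial.aeval (TW F w) (PL k Λ) x) : Pui (EE k σ)) : HQ (EE k σ)).coeff r =
      (∏ t ∈ Λ, (((s * r - t : ℚ)) : EE k σ)) * ((ψ x : Pui (EE k σ)) : HQ (EE k σ)).coeff r := by
  classical
  induction Λ using Finset.induction_on with
  | empty => simp [PL]
  | insert a t ha ih =>
    have h1 : Polynomial.aeval (TW F w) (PL k (insert a t)) x =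
        DW F w (Polynomial.aeval (TW F w) (PL k t) x) -
          C ((a : ℚ) : k) * Polynomial.aeval (TW F w) (PL k t) x := by
      unfold PL
      rw [Finset.prod_insert ha, map_mul, Module.End.mul_apply, map_sub, Polynomial.aeval_X,
        Polynomial.aeval_C, LinearMap.sub_apply, Module.algebraMap_end_apply, smul_eq_C_mul]
      rfl
    have h2 : ψ (C ((a : ℚ) : k)) = ((a : ℚ) : Pui (EE k σ)) := map_ratCast (ψ.comp C) a
    have h3 : ((a : ℚ) : HQ (EE k σ)) = HahnSeries.C ((a : ℚ) : EE k σ) := by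
      rw [map_ratCast]
    rw [h1, map_sub, map_mul, h2]
    push_cast [Subfield.coe_sub, Subfield.coe_mul]
    rw [hψ, h3, HahnSeries.coeff_sub, HahnSeries.C_mul_eq_smul, HahnSeries.C_mul_eq_smul,
      HahnSeries.coeff_smul, HahnSeries.coeff_smul, eulerFun_coeff, ih, Finset.prod_insert ha]
    simp only [smul_eq_mul]
    push_cast
    ring

/-- **Key lemma**: a quasi-homogeneous denominator makes the weighted Euler derivation diagonalisable. -/
theorem diag_of_integral (hJ : IsUnit (Matrix.det (jac F))) (w : σ → ℤ) (q : MvPolynomial σ k)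
    (hq0 : q ≠ 0) (d : ℤ) (hq : ∀ m ∈ q.support, wtt w m = d)
    (hint : ∀ f : MvPolynomial σ k, ∃ N : ℕ,
      (aeval F : MvPolynomial σ k →ₐ[k] MvPolynomial σ k).toRingHom.IsIntegralElem ((aeval F q) ^ N * f))
    (f : MvPolynomial σ k) :
    ∃ Λ : Finset ℚ, Polynomial.aeval (TW F w) (PL k Λ) f = 0 := by
  classical
  set ι := (aeval F : MvPolynomial σ k →ₐ[k] MvPolynomial σ k).toRingHom with hιdef
  have hι : Function.Injective ι := aeval_injective F hJ
  have hιq : ι q ≠ 0 := by rw [Ne, map_eq_zero_iff ι hι]; exact hq0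
  have halg : ∀ x : MvPolynomial σ k, ∃ P : Polynomial (MvPolynomial σ k), P ≠ 0 ∧ P.eval₂ ι x = 0 := by
    intro x
    obtain ⟨N, P, hP, hPx⟩ := hint x
    refine ⟨P.comp (Polynomial.C (q ^ N) * Polynomial.X), ?_, ?_⟩
    · intro h
      exact hP.ne_zero (Polynomial.comp_C_mul_X_eq_zero_iff
        (mem_nonZeroDivisors_of_ne_zero (pow_ne_zero _ hq0)) |>.1 h)
    · rw [Polynomial.eval₂_comp, Polynomial.eval₂_mul, Polynomial.eval₂_C, Polynomial.eval₂_X, map_pow]
      exact hPx
  obtain ⟨Λ1, hΛ1⟩ := finite_exps ι halg f (ew1 k w) (ew1_injective w)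
  obtain ⟨Λ2, hΛ2⟩ := finite_exps ι halg f (ew1 k (-w)) (ew1_injective (-w))
  refine ⟨Λ1 ∪ Λ2.image (fun r => -r), ?_⟩
  set Λ := Λ1 ∪ Λ2.image (fun r => -r) with hΛ
  set g := Polynomial.aeval (TW F w) (PL k Λ) f with hg
  by_contra hg0
  obtain ⟨N, hN⟩ := hint g
  have hh0 : (ι q) ^ N * g ≠ 0 := mul_ne_zero (pow_ne_zero _ hιq) hg0
  obtain ⟨b0, m, hb0, hm, hb⟩ := exists_b0 ι hι halg _ hh0 hN
  -- the positive end
  have hpos : GT ((m : ℚ) * (N * d)) ((ew1 k w b0 : Pui (EE k σ)) : HQ (EE k σ)) := by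
    apply hb _ (ew1_injective w)
    intro ψ hψ
    have hψq : ψ (ι q) = ew1 k w q := by rw [← hψ]; rfl
    have hgt : GT 0 ((ψ g : Pui (EE k σ)) : HQ (EE k σ)) := by
      intro r hr
      rw [hg, coeff_prod F w 1 ψ (by
        intro x
        rw [compat_pos F hJ w halg ψ hψ]
        simp) Λ f r]
      by_cases h0 : ((ψ f : Pui (EE k σ)) : HQ (EE k σ)).coeff r = 0
      · rw [h0, mul_zero]
      · have hr1 : r ∈ Λ := Finset.mem_union_left _ (hΛ1 ψ hψ r hr h0)
        rw [Finset.prod_eq_zero hr1 (by simp), zero_mul]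
    rw [map_mul, map_pow, hψq]
    push_cast
    rw [ew1_coe, ew_homog w q d hq, HahnSeries.single_pow, mul_comm (HahnSeries.single _ _)]
    have := hgt.mul_LB (y := HahnSeries.single (N • ((d : ℤ) : ℚ)) (iE k σ q ^ N)) (b := N * d) (by
      intro r hr
      exact HahnSeries.coeff_single_of_ne (by rw [nsmul_eq_mul]; exact hr.ne))
    rwa [zero_add] at this
  have hneg : GT ((m : ℚ) * (-(N * d))) ((ew1 k (-w) b0 : Pui (EE k σ)) : HQ (EE k σ)) := by
    apply hb _ (ew1_injective (-w))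
    intro ψ hψ
    have hψq : ψ (ι q) = ew1 k (-w) q := by rw [← hψ]; rfl
    have hgt : GT 0 ((ψ g : Pui (EE k σ)) : HQ (EE k σ)) := by
      intro r hr
      rw [hg, coeff_prod F w (-1) ψ (by
        intro x
        have h1 := compat_pos F hJ (-w) halg ψ hψ x
        rw [DW_neg, map_neg] at h1
        push_cast at h1
        rw [← neg_neg ((ψ (DW F w x) : Pui (EE k σ)) : HQ (EE k σ)), h1]
        simp) Λ f r]
      by_cases h0 : ((ψ f : Pui (EE k σ)) : HQ (EE k σ)).coeff r = 0
      · rw [h0, mul_zero]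
      · have hr1 : -r ∈ Λ := Finset.mem_union_right _ (Finset.mem_image_of_mem _ (hΛ2 ψ hψ r hr h0))
        rw [Finset.prod_eq_zero hr1 (by simp), zero_mul]
    rw [map_mul, map_pow, hψq]
    push_cast
    rw [ew1_coe, ew_homog (-w) q (-d) (fun m hm => by rw [wtt_neg, hq m hm]), HahnSeries.single_pow,
      mul_comm (HahnSeries.single _ _)]
    have := hgt.mul_LB (y := HahnSeries.single (N • (((-d : ℤ)) : ℚ)) (iE k σ q ^ N)) (b := -(N * d)) (by
      intro r hr
      exact HahnSeries.coeff_single_of_ne (by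
        rw [nsmul_eq_mul]; push_cast
        have : (N : ℚ) * -(d : ℚ) = -(N * d) := by ring
        rw [this]; exact hr.ne))
    rwa [zero_add] at this
  obtain ⟨μ, hμ⟩ := support_nonempty.2 hb0
  have h1 := ew_coeff_ne w b0 μ hμ
  have h2 := ew_coeff_ne (-w) b0 μ hμ
  rw [wtt_neg] at h2
  have h3 : ¬ ((wtt w μ : ℤ) : ℚ) ≤ (m : ℚ) * (N * d) := fun h => h1 (hpos _ h)
  have h4 : ¬ ((-wtt w μ : ℤ) : ℚ) ≤ (m : ℚ) * (-(N * d)) := fun h => h2 (hneg _ h)
  push_cast at h3 h4
  push Not at h3 h4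
  linarith

end

end Pool.Agent.H922R2
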