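import Mathlib
import Pool.Agent.H922R2.L3

set_option autoImplicit false
set_option linter.unusedSectionVars false
set_option linter.style.haveILetI false

open MvPolynomial

namespace Pool.Agent.H922R2

section Lin

variable {k V : Type*} [Field k] [CharZero k] [AddCommGroup V] [Module k V]

/-- A vector of a stable subspace killed by a product of distinct linear factors is a sum of
eigenvectors of the subspace. -/
theorem mem_span_eigen (T : Module.End k V) (M : Submodule k V) (hM : ∀ x ∈ M, T x ∈ M)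
    (Λ : Finset ℚ) (f : V) (hf : f ∈ M) (h : Polynomial.aeval T (PL k Λ) f = 0) :
    f ∈ Submodule.span k {g : V | g ∈ M ∧ ∃ r ∈ Λ, T g = ((r : ℚ) : k) • g} := by
  classical
  induction Λ using Finset.induction_on generalizing f with
  | empty =>
    have : f = 0 := by simpa [PL] using h
    rw [this]; exact zero_mem _
  | insert a Λ ha ih =>
    set U := Submodule.span k {g : V | g ∈ M ∧ ∃ r ∈ Λ, T g = ((r : ℚ) : k) • g} with hU
    have hUM : U ≤ M := Submodule.span_le.2 (fun g hg => hg.1)
    have h1 : Polynomial.aeval T (PL k Λ) (T f - ((a : ℚ) : k) • f) = 0 := by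
      have h2 : PL k (insert a Λ) = PL k Λ * (Polynomial.X - Polynomial.C ((a : ℚ) : k)) := by
        unfold PL
        rw [Finset.prod_insert ha, mul_comm]
      rw [h2, map_mul, Module.End.mul_apply, map_sub, Polynomial.aeval_X, Polynomial.aeval_C] at h
      exact h
    have h2 := ih (T f - ((a : ℚ) : k) • f) (sub_mem (hM f hf) (M.smul_mem _ hf)) h1
    have h3 : ∀ g ∈ U, ∃ u ∈ U, T u - ((a : ℚ) : k) • u = g := by
      intro g hg
      induction hg using Submodule.span_induction with
      | mem x hx =>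
        obtain ⟨hxM, r, hr, hTx⟩ := hx
        have hne : ((r : ℚ) : k) - ((a : ℚ) : k) ≠ 0 := by
          intro h0
          have : r = a := by
            have := sub_eq_zero.1 h0
            exact_mod_cast this
          exact ha (this ▸ hr)
        refine ⟨((((r : ℚ) : k) - ((a : ℚ) : k)))⁻¹ • x, U.smul_mem _ (Submodule.subset_span ⟨hxM, r, hr, hTx⟩), ?_⟩
        rw [map_smul, hTx, smul_comm ((a : ℚ) : k), ← smul_sub, ← sub_smul, smul_smul,
          inv_mul_cancel₀ hne, one_smul]
      | zero => exact ⟨0, zero_mem _, by simp⟩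
      | add x y _ _ hx hy =>
        obtain ⟨u, hu, hu'⟩ := hx
        obtain ⟨v, hv, hv'⟩ := hy
        refine ⟨u + v, add_mem hu hv, ?_⟩
        rw [← hu', ← hv', map_add, smul_add]
        abel
      | smul c x _ hx =>
        obtain ⟨u, hu, hu'⟩ := hx
        refine ⟨c • u, U.smul_mem _ hu, ?_⟩
        rw [← hu', map_smul, smul_sub, smul_comm c]
    obtain ⟨u, hu, hu'⟩ := h3 _ h2
    have h4 : T (f - u) = ((a : ℚ) : k) • (f - u) := by
      rw [map_sub, smul_sub]
      have : T f - T u = ((a : ℚ) : k) • f - ((a : ℚ) : k) • u := by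
        have h := hu'
        rw [sub_eq_sub_iff_add_eq_add] at h ⊢
        rw [← h, add_comm]
      exact this
    have h5 : f = (f - u) + u := by abel
    rw [h5]
    apply add_mem
    · exact Submodule.subset_span ⟨sub_mem hf (hUM hu), a, Finset.mem_insert_self _ _, h4⟩
    · refine Submodule.span_mono ?_ hu
      rintro g ⟨hg, r, hr, hTg⟩
      exact ⟨hg, r, Finset.mem_insert_of_mem hr, hTg⟩

end Lin

section Grad

variable {k : Type*} [Field k] [CharZero k] {σ : Type*} [Fintype σ] [DecidableEq σ]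
variable (F : σ → MvPolynomial σ k) (w : σ → ℤ)

/-- The pieces of the grading. -/
noncomputable def gr (N : ℕ) (j : ℤ) : Submodule k (MvPolynomial σ k) :=
  Module.End.eigenspace (TW F w) ((((j : ℚ) / N : ℚ)) : k)

theorem mem_gr (N : ℕ) (j : ℤ) (f : MvPolynomial σ k) :
    f ∈ gr F w N j ↔ DW F w f = C ((((j : ℚ) / N : ℚ)) : k) * f := by
  unfold gr
  rw [Module.End.mem_eigenspace_iff, smul_eq_C_mul]
  rfl

theorem gr_one (N : ℕ) : (1 : MvPolynomial σ k) ∈ gr F w N 0 := by
  rw [mem_gr]
  simp

theorem gr_mul (N : ℕ) (i j : ℤ) (f g : MvPolynomial σ k) (hf : f ∈ gr F w N i) (hg : g ∈ gr F w N j) :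
    f * g ∈ gr F w N (i + j) := by
  rw [mem_gr] at hf hg ⊢
  rw [Derivation.leibniz, hf, hg]
  push_cast
  simp only [smul_eq_mul, add_div, C_add]
  ring

theorem exists_grading
    (hdiag : ∀ f : MvPolynomial σ k, ∃ Λ : Finset ℚ, Polynomial.aeval (TW F w) (PL k Λ) f = 0) :
    ∃ N : ℕ, 0 < N ∧ ⨆ j : ℤ, gr F w N j = ⊤ := by
  classical
  have h1 : ∀ i : σ, ∃ Λ : Finset ℚ, Polynomial.aeval (TW F w) (PL k Λ) (X i) = 0 := fun i => hdiag _
  choose Λ hΛ using h1
  set N : ℕ := ∏ i, ∏ r ∈ Λ i, r.den with hN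
  have hNpos : 0 < N := Finset.prod_pos fun i _ => Finset.prod_pos fun r _ => r.den_pos
  refine ⟨N, hNpos, ?_⟩
  set G : Set (MvPolynomial σ k) := {f | ∃ j : ℤ, f ∈ gr F w N j} with hG
  have hX : ∀ i : σ, (X i : MvPolynomial σ k) ∈ Submodule.span k G := by
    intro i
    have h2 := mem_span_eigen (TW F w) ⊤ (fun _ _ => Submodule.mem_top) (Λ i) (X i) Submodule.mem_top (hΛ i)
    refine Submodule.span_mono ?_ h2
    rintro g ⟨_, r, hr, hg⟩
    have hden : r.den ∣ N :=
      (Finset.dvd_prod_of_mem (fun r : ℚ => r.den) hr).trans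
        (Finset.dvd_prod_of_mem (fun i : σ => ∏ r ∈ Λ i, r.den) (Finset.mem_univ i))
    obtain ⟨c, hc⟩ := hden
    refine ⟨r.num * c, ?_⟩
    rw [mem_gr]
    have h3 : (((r.num * (c : ℤ) : ℤ) : ℚ) / N) = r := by
      have hd : (r.den : ℚ) ≠ 0 := by exact_mod_cast r.den_ne_zero
      have hc0 : (c : ℚ) ≠ 0 := by
        intro h0
        have : c = 0 := by exact_mod_cast h0
        rw [this, mul_zero] at hc
        omega
      rw [hc]
      push_cast
      rw [mul_div_mul_right _ _ hc0]
      exact r.num_div_den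
    rw [h3, ← smul_eq_C_mul]
    exact hg
  have hadj : Algebra.adjoin k G = ⊤ := by
    rw [eq_top_iff, ← MvPolynomial.adjoin_range_X]
    apply Algebra.adjoin_le
    rintro _ ⟨i, rfl⟩
    exact Algebra.span_le_adjoin k G (hX i)
  have hcl : (Submonoid.closure G : Set (MvPolynomial σ k)) ⊆ G := by
    intro x hx
    induction hx using Submonoid.closure_induction with
    | mem x hx => exact hx
    | one => exact ⟨0, gr_one F w N⟩
    | mul x y _ _ hx hy =>
      obtain ⟨i, hi⟩ := hx
      obtain ⟨j, hj⟩ := hy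
      exact ⟨i + j, gr_mul F w N i j x y hi hj⟩
  rw [eq_top_iff]
  have h2 : (⊤ : Submodule k (MvPolynomial σ k)) = Submodule.span k (Submonoid.closure G : Set _) := by
    rw [← Algebra.adjoin_eq_span, hadj]
    rfl
  rw [h2, Submodule.span_le]
  intro x hx
  obtain ⟨j, hj⟩ := hcl hx
  exact Submodule.mem_iSup_of_mem j hj

theorem exists_scale (N : ℕ) (hN : 0 < N) (htop : ⨆ j : ℤ, gr F w N j = ⊤) (t : k) (ht : t ≠ 0) :
    ∃ τ : MvPolynomial σ k →ₐ[k] MvPolynomial σ k, ∀ j : ℤ, ∀ f ∈ gr F w N j, τ f = t ^ j • f := by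
  classical
  have hind : iSupIndep (gr F w N) := by
    have h1 := (TW F w).eigenspaces_iSupIndep
    have h2 : Function.Injective (fun j : ℤ => ((((j : ℚ) / N : ℚ)) : k)) := by
      intro a b hab
      have h3 : ((a : ℚ) / N) = ((b : ℚ) / N) := Rat.cast_injective (α := k) hab
      have h4 : (N : ℚ) ≠ 0 := by exact_mod_cast hN.ne'
      rw [div_left_inj' h4] at h3
      exact_mod_cast h3
    exact h1.comp h2
  have hint : DirectSum.IsInternal (gr F w N) :=
    DirectSum.isInternal_submodule_of_iSupIndep_of_iSup_eq_top hind htop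
  letI dec := hint.chooseDecomposition
  letI : GradedAlgebra (gr F w N) :=
    { dec with
      one_mem := gr_one F w N
      mul_mem := fun i j f g hf hg => gr_mul F w N i j f g hf hg }
  let φ : (DirectSum ℤ fun j => gr F w N j) →ₐ[k] MvPolynomial σ k :=
    DirectSum.toAlgebra k (fun j => gr F w N j) (fun j => (t ^ j) • (gr F w N j).subtype)
      (by
        change t ^ (0 : ℤ) • (1 : MvPolynomial σ k) = 1
        rw [zpow_zero, one_smul])
      (by
        intro i j ai aj
        change t ^ (i + j) • ((ai : MvPolynomial σ k) * aj) = (t ^ i • (ai : MvPolynomial σ k)) * (t ^ j • (aj : MvPolynomial σ k))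
        rw [smul_mul_smul_comm, zpow_add₀ ht])
  refine ⟨φ.comp (DirectSum.decomposeAlgEquiv (gr F w N)).toAlgHom, ?_⟩
  intro j f hf
  change φ (DirectSum.decompose (gr F w N) f) = _
  rw [DirectSum.decompose_of_mem _ hf]
  change (DirectSum.toAlgebra k (fun j => gr F w N j) (fun j => (t ^ j) • (gr F w N j).subtype) _ _) _ = _
  rw [DirectSum.toAlgebra_apply]
  erw [DirectSum.toModule_lof]
  rfl

end Grad

end Pool.Agent.H922R2
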