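import Mathlib
import Pool.Agent.Helper111.QI.Resid

set_option autoImplicit false
set_option linter.unusedSectionVars false
set_option linter.style.haveILetI false

open MvPolynomial

namespace Pool.Agent.H922R2

section

variable {σ : Type*} [Fintype σ] [DecidableEq σ]

theorem map_iterate_bind {R S : Type*} [CommRing R] [CommRing S] (f : R →+* S)
    (τ : σ → MvPolynomial σ R) (n : ℕ) (x : MvPolynomial σ R) :
    map f ((bind₁ τ)^[n] x) = (bind₁ fun i => map f (τ i))^[n] (map f x) := by
  induction n generalizing x with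
  | zero => rfl
  | succ n ih => rw [Function.iterate_succ_apply, Function.iterate_succ_apply, ih, map_bind₁]

theorem end_pow {α : Type*} (g : Function.End α) (n : ℕ) : (g ^ n : Function.End α) = (Nat.iterate g n) := by
  induction n with
  | zero => rfl
  | succ n ih =>
    rw [pow_succ, ih]
    rfl

/-- A polynomial map of prime order `p` of affine space over a finite field in which `p ≠ 0`
has a fixed point. -/
theorem fixed_point_finite (κ : Type*) [Field κ] [Finite κ] (p : ℕ) [hp : Fact p.Prime]
    (hpκ : (p : κ) ≠ 0) (τ : σ → MvPolynomial σ κ) (hτ : ∀ i, (bind₁ τ)^[p] (X i) = X i) :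
    ∃ P : σ → κ, ∀ i, eval P (τ i) = P i := by
  classical
  haveI := Fintype.ofFinite κ
  let T : (σ → κ) → (σ → κ) := fun P i => eval P (τ i)
  have h1 : ∀ P : σ → κ, ∀ f, eval (T P) f = eval P (bind₁ τ f) := by
    intro P f
    induction f using MvPolynomial.induction_on with
    | C a => simp
    | add p q hp hq => simp [hp, hq]
    | mul_X p i hp => simp [hp, T]
  have h2 : ∀ n : ℕ, ∀ P : σ → κ, ∀ i, (T^[n] P) i = eval P ((bind₁ τ)^[n] (X i)) := by
    intro n
    induction n with
    | zero => intro P i; simp
    | succ n ih =>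
      intro P i
      rw [Function.iterate_succ_apply, ih, h1, ← Function.iterate_succ_apply' (f := bind₁ τ)]
  have h3 : T^[p] = id := by
    funext P
    funext i
    rw [h2, hτ, eval_X]
    rfl
  have h4 := Equiv.Perm.card_fixedPoints_modEq (α := σ → κ) (f := T) (p := p) (n := 1) (by
    rw [pow_one]
    exact (end_pow T p).trans h3)
  have h5 : ¬ p ∣ Fintype.card (σ → κ) := by
    intro hdvd
    rw [Fintype.card_fun] at hdvd
    have h6 := hp.out.dvd_of_dvd_pow hdvd
    obtain ⟨c, hc⟩ := CharP.exists κ
    obtain ⟨n, hcp, hcard⟩ := FiniteField.card κ c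
    rw [hcard] at h6
    have h7 := hp.out.dvd_of_dvd_pow h6
    rw [Nat.prime_dvd_prime_iff_eq hp.out hcp] at h7
    apply hpκ
    rw [h7]
    exact CharP.cast_eq_zero κ c
  have h8 : 0 < Fintype.card (Function.fixedPoints T) := by
    rw [Nat.pos_iff_ne_zero]
    intro h0
    rw [h0] at h4
    exact h5 ((Nat.modEq_zero_iff_dvd).1 h4)
  rw [Fintype.card_pos_iff] at h8
  obtain ⟨P, hP⟩ := h8
  refine ⟨P, fun i => ?_⟩
  exact congrFun hP i

/-- An endomorphism of prime order of a polynomial ring in characteristic zero has a fixed point: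
the ideal generated by the `τ i - X i` is proper. -/
theorem fixed_point {k : Type*} [Field k] [CharZero k] (p : ℕ) [hp : Fact p.Prime]
    (τ : σ → MvPolynomial σ k) (hτ : ∀ i, (bind₁ τ)^[p] (X i) = X i) (h : σ → MvPolynomial σ k) :
    ∑ i, h i * (τ i - X i) ≠ 1 := by
  classical
  intro h1
  let S : Finset k := (Finset.univ.biUnion fun i => (τ i).coeffs) ∪
    ((Finset.univ.biUnion fun i => (h i).coeffs) ∪ {((p : k))⁻¹})
  let A := Algebra.adjoin ℤ (S : Set k)
  haveI hft : Algebra.FiniteType ℤ A := (Subalgebra.fg_iff_finiteType _).1 ⟨S, rfl⟩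
  have hrange : Set.range (algebraMap A k) = (A : Set k) := by
    ext x
    constructor
    · rintro ⟨y, rfl⟩; exact y.2
    · intro hx; exact ⟨⟨x, hx⟩, rfl⟩
  have hlift : ∀ f : MvPolynomial σ k, (∀ c ∈ f.coeffs, c ∈ S) → ∃ f' : MvPolynomial σ A,
      map (algebraMap A k) f' = f := by
    intro f hf
    have : f ∈ Set.range (map (algebraMap A k) : MvPolynomial σ A →+* MvPolynomial σ k) := by
      rw [mem_range_map_iff_coeffs_subset, hrange]
      intro c hc
      exact Algebra.subset_adjoin (hf c hc)
    exact this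
  have hinj : Function.Injective (map (algebraMap A k) : MvPolynomial σ A →+* MvPolynomial σ k) :=
    map_injective _ Subtype.val_injective
  have hτl : ∀ i, ∃ f' : MvPolynomial σ A, map (algebraMap A k) f' = τ i := fun i =>
    hlift _ (fun c hc => Finset.mem_union_left _ (Finset.mem_biUnion.2 ⟨i, Finset.mem_univ _, hc⟩))
  have hhl : ∀ i, ∃ f' : MvPolynomial σ A, map (algebraMap A k) f' = h i := fun i =>
    hlift _ (fun c hc => Finset.mem_union_right _ (Finset.mem_union_left _
      (Finset.mem_biUnion.2 ⟨i, Finset.mem_univ _, hc⟩)))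
  choose τ' hτ' using hτl
  choose h' hh' using hhl
  have hpi : ((p : k))⁻¹ ∈ A := Algebra.subset_adjoin (by
    rw [Finset.mem_coe]
    exact Finset.mem_union_right _ (Finset.mem_union_right _ (Finset.mem_singleton_self _)))
  have hpk : (p : k) ≠ 0 := by exact_mod_cast hp.out.ne_zero
  have hpA : (p : A) * ⟨((p : k))⁻¹, hpi⟩ = 1 := by
    apply Subtype.ext
    push_cast
    exact mul_inv_cancel₀ hpk
  obtain ⟨m, hm⟩ := Ideal.exists_maximal A
  haveI : Finite (A ⧸ m) := Pool.Agent.Helper111.QI.residue_finite A m
  letI : Field (A ⧸ m) := Ideal.Quotient.field m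
  have hτA : ∀ i, (bind₁ τ')^[p] (X i) = (X i : MvPolynomial σ A) := by
    intro i
    apply hinj
    rw [map_iterate_bind, map_X]
    simp only [hτ']
    exact hτ i
  have hsum : ∑ i, h' i * (τ' i - X i) = (1 : MvPolynomial σ A) := by
    apply hinj
    rw [map_sum, map_one, ← h1]
    apply Finset.sum_congr rfl
    intro i _
    rw [map_mul, map_sub, map_X, hτ', hh']
  obtain ⟨P, hP⟩ := fixed_point_finite (A ⧸ m) p (by
      intro h0
      have := congrArg (Ideal.Quotient.mk m) hpA
      rw [map_mul, map_natCast, map_one, h0, zero_mul] at this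
      exact zero_ne_one this) (fun i => map (Ideal.Quotient.mk m) (τ' i)) (by
      intro i
      have := congrArg (map (Ideal.Quotient.mk m)) (hτA i)
      rw [map_iterate_bind, map_X] at this
      exact this)
  have h2 := congrArg (fun z => eval P (map (Ideal.Quotient.mk m) z)) hsum
  simp only [map_sum, map_mul, map_sub, map_X, eval_X, map_one, hP, sub_self, mul_zero,
    Finset.sum_const_zero] at h2
  exact zero_ne_one h2

end

end Pool.Agent.H922R2
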