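import Mathlib
import Pool.Agent.H922R2.L4
import Pool.Agent.H922R2.L5

set_option autoImplicit false
set_option linter.unusedSectionVars false
set_option linter.style.haveILetI false

open MvPolynomial

namespace Pool.Agent.H922R2

section

variable {k : Type*} [Field k] [CharZero k] {σ : Type*} [Fintype σ] [DecidableEq σ]
variable (F : σ → MvPolynomial σ k) (hJ : IsUnit (Matrix.det (jac F)))

section Proper

/-- The pieces of nonzero degree generate a proper ideal. -/
theorem proper_ideal [IsAlgClosed k] (w : σ → ℤ) (N : ℕ) (hN : 0 < N)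
    (htop : ⨆ j : ℤ, gr F w N j = ⊤) :
    Ideal.span {f : MvPolynomial σ k | ∃ j : ℤ, j ≠ 0 ∧ f ∈ gr F w N j} ≠ ⊤ := by
  classical
  intro h
  have h1 : (1 : MvPolynomial σ k) ∈ Ideal.span {f : MvPolynomial σ k | ∃ j : ℤ, j ≠ 0 ∧ f ∈ gr F w N j} := by
    rw [h]; exact Submodule.mem_top
  obtain ⟨T, hT, h1T⟩ := Submodule.mem_span_finite_of_mem_span h1
  have h2 : ∀ f : T, ∃ j : ℤ, j ≠ 0 ∧ (f : MvPolynomial σ k) ∈ gr F w N j := fun f => hT f.2
  choose g hg0 hg using h2
  obtain ⟨p, hp, hpp⟩ := Nat.exists_infinite_primes (1 + Finset.univ.sup fun f : T => (g f).natAbs)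
  haveI : Fact p.Prime := ⟨hpp⟩
  have hpg : ∀ f : T, ¬ (p : ℤ) ∣ g f := by
    intro f hdvd
    have h3 : (g f).natAbs ≤ Finset.univ.sup fun f : T => (g f).natAbs :=
      Finset.le_sup (f := fun f : T => (g f).natAbs) (Finset.mem_univ f)
    have h4 := Int.natAbs_dvd_natAbs.2 hdvd
    rw [Int.natAbs_natCast] at h4
    have h5 := Nat.le_of_dvd (Int.natAbs_pos.2 (hg0 f)) h4
    omega
  haveI : NeZero (p : k) := ⟨by exact_mod_cast hpp.ne_zero⟩
  obtain ⟨ζ, hζ⟩ := HasEnoughRootsOfUnity.exists_primitiveRoot k p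
  have hζ0 : ζ ≠ 0 := hζ.ne_zero hpp.ne_zero
  obtain ⟨τ, hτ⟩ := exists_scale F w N hN htop ζ hζ0
  have hτp : ∀ f, τ^[p] f = f := by
    have h3 : ∀ n : ℕ, ∀ j : ℤ, ∀ f ∈ gr F w N j, τ^[n] f = (ζ ^ j) ^ n • f := by
      intro n
      induction n with
      | zero => intro j f _; simp
      | succ n ih =>
        intro j f hf
        rw [Function.iterate_succ_apply', ih j f hf, map_smul, hτ j f hf, smul_smul, pow_succ]
    have h4 : ∀ f, (τ ^ p) f = τ^[p] f := by
      intro f
      rw [← AlgHom.coe_pow]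
    have h5 : LinearMap.eqLocus (τ ^ p).toLinearMap LinearMap.id = ⊤ := by
      rw [eq_top_iff, ← htop]
      apply iSup_le
      intro j f hf
      rw [LinearMap.mem_eqLocus]
      change (τ ^ p) f = f
      rw [h4, h3 p j f hf, ← zpow_natCast, ← zpow_mul, mul_comm, zpow_mul, zpow_natCast, hζ.pow_eq_one,
        one_zpow, one_smul]
    intro f
    have h6 : f ∈ LinearMap.eqLocus (τ ^ p).toLinearMap LinearMap.id := by rw [h5]; exact Submodule.mem_top
    rw [LinearMap.mem_eqLocus] at h6
    rw [← h4]
    exact h6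
  have hbind : (bind₁ fun i => τ (X i)) = τ := by
    apply MvPolynomial.algHom_ext
    intro i
    simp
  have hfix := fixed_point p (fun i => τ (X i)) (by
    intro i
    rw [hbind, hτp])
  set J := Ideal.span (Set.range fun i => τ (X i) - X i) with hJdef
  have hJne : (1 : MvPolynomial σ k) ∉ J := by
    intro h3
    rw [hJdef, Ideal.mem_span_range_iff_exists_fun] at h3
    obtain ⟨c, hc⟩ := h3
    exact hfix c hc
  have hJτ : ∀ f, τ f - f ∈ J := by
    have h3 : (Ideal.Quotient.mkₐ k J).comp τ = Ideal.Quotient.mkₐ k J := by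
      apply MvPolynomial.algHom_ext
      intro i
      change Ideal.Quotient.mk J (τ (X i)) = Ideal.Quotient.mk J (X i)
      rw [Ideal.Quotient.eq]
      exact Ideal.subset_span ⟨i, rfl⟩
    intro f
    rw [← Ideal.Quotient.eq]
    exact DFunLike.congr_fun h3 f
  apply hJne
  have h4 : Submodule.span (MvPolynomial σ k) (T : Set (MvPolynomial σ k)) ≤ J := by
    rw [Submodule.span_le]
    intro f hf
    have h5 := hJτ f
    rw [hτ (g ⟨f, hf⟩) f (hg ⟨f, hf⟩)] at h5
    have h6 : ζ ^ (g ⟨f, hf⟩) - 1 ≠ 0 := by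
      intro h0
      apply hpg ⟨f, hf⟩
      exact (hζ.zpow_eq_one_iff_dvd _).1 (sub_eq_zero.1 h0)
    generalize ζ ^ (g ⟨f, hf⟩) = z at h5 h6
    have h7 : f = C ((z - 1)⁻¹) * (z • f - f) := by
      rw [smul_eq_C_mul]
      have : (C z * f - f : MvPolynomial σ k) = C (z - 1) * f := by
        rw [C_sub, C_1]; ring
      rw [this, ← mul_assoc, ← C_mul, inv_mul_cancel₀ h6, C_1, one_mul]
    change f ∈ J
    rw [h7]
    exact Ideal.mul_mem_left _ _ h5
  exact h4 h1T

end Proper

include hJ

theorem pderiv_eq_sum_dualD (j : σ) (f : MvPolynomial σ k) :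
    pderiv j f = ∑ i, pderiv j (F i) * dualD F i f := by
  simp only [dualD_apply, Finset.mul_sum]
  rw [Finset.sum_comm]
  have h1 : ∀ l : σ, (∑ i, pderiv j (F i) * ((jac F)⁻¹ l i * pderiv l f)) =
      (if l = j then 1 else 0) * pderiv l f := by
    intro l
    have h2 : ((jac F)⁻¹ * jac F) l j = if l = j then 1 else 0 := by
      rw [Matrix.nonsing_inv_mul _ hJ, Matrix.one_apply]
    rw [← h2, Matrix.mul_apply, Finset.sum_mul]
    apply Finset.sum_congr rfl
    intro i _
    change _ = (jac F)⁻¹ l i * pderiv j (F i) * pderiv l f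
    ring
  rw [Finset.sum_congr rfl (fun l _ => h1 l), Finset.sum_eq_single j]
  · simp
  · intro l _ hl; simp [hl]
  · simp

/-- A set stable under the dual derivations inside a proper ideal is trivial. -/
theorem stable_trivial (U : Set (MvPolynomial σ k)) (hU : ∀ i, ∀ f ∈ U, dualD F i f ∈ U)
    (hne : Ideal.span U ≠ ⊤) : ∀ f ∈ U, f = 0 := by
  have hI : ∀ i, ∀ f ∈ Ideal.span U, dualD F i f ∈ Ideal.span U := by
    intro i f hf
    induction hf using Submodule.span_induction with
    | mem x hx => exact Ideal.subset_span (hU i x hx)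
    | zero => rw [map_zero]; exact zero_mem _
    | add x y _ _ hx hy => rw [map_add]; exact add_mem hx hy
    | smul a x hx hx' =>
      rw [smul_eq_mul, Derivation.leibniz]
      apply add_mem
      · exact Ideal.mul_mem_left _ _ hx'
      · rw [smul_eq_mul, mul_comm]
        exact Ideal.mul_mem_left _ _ hx
  have hP : ∀ j, ∀ f ∈ Ideal.span U, pderiv j f ∈ Ideal.span U := by
    intro j f hf
    rw [pderiv_eq_sum_dualD F hJ]
    exact sum_mem fun i _ => Ideal.mul_mem_left _ _ (hI i f hf)
  have key : ∀ n : ℕ, ∀ f ∈ Ideal.span U, f.totalDegree = n → f = 0 := by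
    intro n
    induction n using Nat.strong_induction_on with
    | _ n ih =>
      intro f hf hn
      have h1 : ∀ j, pderiv j f = 0 := by
        intro j
        by_contra h0
        exact h0 (ih _ (hn ▸ totalDegree_pderiv_lt f j h0) _ (hP j f hf) rfl)
      have h2 := eq_C_of_pderiv_eq_zero f h1
      by_contra h0
      apply hne
      have hc : coeff 0 f ≠ 0 := by
        intro hc
        rw [hc, C_0] at h2
        exact h0 h2
      rw [Ideal.eq_top_iff_one]
      have : (1 : MvPolynomial σ k) = C ((coeff 0 f)⁻¹) * f := by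
        generalize coeff 0 f = c at h2 hc
        rw [h2, ← C_mul, inv_mul_cancel₀ hc, C_1]
      rw [this]
      exact Ideal.mul_mem_left _ _ hf
  intro f hf
  exact key _ f (Ideal.subset_span hf) rfl

/-- integration of a locally nilpotent element in one direction -/
theorem mem_SS_of_one (a : σ) (N : ℕ) (b : MvPolynomial σ k) (hb : ∀ i, i ≠ a → dualD F i b = 0)
    (hN : (dualD F a)^[N] b = 0) : b ∈ SS F := by
  have hFS : ∀ i, F i ∈ SS F := fun i => ⟨X i, by simp⟩
  induction N generalizing b with
  | zero => rw [show b = 0 from hN]; exact zero_mem _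
  | succ N ihN =>
    set c := (dualD F a)^[N] b with hc
    have hcD : dualD F a c = 0 := by rw [hc, ← Function.iterate_succ_apply' (f := dualD F a)]; exact hN
    have hiter0 : ∀ i, i ≠ a → ∀ n, ∀ b, dualD F i b = 0 → dualD F i ((dualD F a)^[n] b) = 0 := by
      intro i _ n
      induction n with
      | zero => intro b hb; exact hb
      | succ n ihn =>
        intro b hb
        rw [Function.iterate_succ_apply', dualD_comm F hJ, ihn b hb, map_zero]
    have hc0 : ∀ i, dualD F i c = 0 := by
      intro i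
      by_cases hia : i = a
      · rw [hia]; exact hcD
      · exact hiter0 i hia N b (hb i hia)
    have hcS : c ∈ SS F := by
      rw [eq_C_of_pderiv_eq_zero c (pderiv_eq_zero_of_dualD F hJ c hc0)]
      exact ⟨C (coeff 0 c), by simp⟩
    set e : k := ((N.factorial : k))⁻¹ with he
    set w := (C e * c) * F a ^ N with hw
    have hCeS : (C e : MvPolynomial σ k) ∈ SS F := (SS F).algebraMap_mem e
    have hwS : w ∈ SS F := mul_mem (mul_mem hCeS hcS) (pow_mem (hFS a) N)
    have hw1 : (dualD F a)^[N] w = c := by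
      rw [hw, dualD_pow F hJ a _ (by rw [Derivation.leibniz, hcD]; simp), ← mul_assoc]
      have : (N.factorial : MvPolynomial σ k) * C e = 1 := by
        rw [← C_eq_coe_nat, ← C_mul, he, mul_inv_cancel₀ (by exact_mod_cast N.factorial_ne_zero), C_1]
      rw [this, one_mul]
    have hb1 : b - w ∈ SS F := by
      apply ihN (b - w)
      · intro i hi
        rw [map_sub, hb i hi, hw, Derivation.leibniz, Derivation.leibniz_pow, dualD_F F hJ,
          if_neg hi.symm, Derivation.leibniz, hc0 i]
        simp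
      · rw [iterate_sub F hJ, hw1, ← hc, sub_self]
    have : b = (b - w) + w := by ring
    rw [this]
    exact add_mem hb1 hwS

/-- An element depending only on `F a` is a polynomial in `F`. -/
theorem mem_SS_of_dep (a : σ) (f : MvPolynomial σ k) (hf : ∀ i, i ≠ a → dualD F i f = 0) : f ∈ SS F := by
  obtain ⟨j, hj⟩ : ∃ j, pderiv j (F a) ≠ 0 := by
    by_contra hcon
    push Not at hcon
    have h1 := dualD_F F hJ a a
    rw [if_pos rfl, dualD_apply] at h1
    simp only [hcon, mul_zero, Finset.sum_const_zero] at h1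
    exact zero_ne_one h1
  have key : ∀ n : ℕ, ∀ f : MvPolynomial σ k, (∀ i, i ≠ a → dualD F i f = 0) → f.totalDegree = n →
      ∃ N, (dualD F a)^[N] f = 0 := by
    intro n
    induction n using Nat.strong_induction_on with
    | _ n ih =>
      intro f hf hn
      by_cases h0 : dualD F a f = 0
      · exact ⟨1, h0⟩
      have h1 : pderiv j f = pderiv j (F a) * dualD F a f := by
        rw [pderiv_eq_sum_dualD F hJ, Finset.sum_eq_single a]
        · intro i _ hi
          rw [hf i hi, mul_zero]
        · simp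
      have h2 : pderiv j f ≠ 0 := by rw [h1]; exact mul_ne_zero hj h0
      have h3 := totalDegree_pderiv_lt f j h2
      rw [h1, totalDegree_mul_of_isDomain hj h0] at h3
      obtain ⟨N, hN⟩ := ih _ (by omega : (dualD F a f).totalDegree < n) (dualD F a f) (by
        intro i hi
        rw [dualD_comm F hJ, hf i hi, map_zero]) rfl
      exact ⟨N + 1, hN⟩
  obtain ⟨N, hN⟩ := key _ f hf rfl
  exact mem_SS_of_one F hJ a N f hf hN

theorem DW_dualD (w : σ → ℤ) (i : σ) (f : MvPolynomial σ k) :
    DW F w (dualD F i f) = dualD F i (DW F w f) - C ((w i : ℤ) : k) * dualD F i f := by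
  rw [DW_apply, DW_apply, map_sum]
  have h1 : ∀ l, dualD F i (C ((w l : ℤ) : k) * F l * dualD F l f) =
      C ((w l : ℤ) : k) * F l * dualD F l (dualD F i f) +
        (if l = i then C ((w l : ℤ) : k) * dualD F l f else 0) := by
    intro l
    rw [Derivation.leibniz, Derivation.leibniz, dualD_F F hJ, dualD_comm F hJ]
    by_cases h : l = i
    · subst h
      simp
      ring
    · simp [h]
  rw [Finset.sum_congr rfl (fun l _ => h1 l), Finset.sum_add_distrib,
    Finset.sum_ite_eq' Finset.univ i, if_pos (Finset.mem_univ i), add_sub_cancel_right]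

theorem dualD_gr (w : σ → ℤ) (N : ℕ) (hN : 0 < N) (j : ℤ) (i : σ) (f : MvPolynomial σ k)
    (hf : f ∈ gr F w N j) : dualD F i f ∈ gr F w N (j - N * w i) := by
  rw [mem_gr] at hf ⊢
  rw [DW_dualD F hJ, hf, Derivation.leibniz]
  have : dualD F i (C ((((j : ℚ) / N : ℚ)) : k)) = 0 := by
    rw [← algebraMap_eq]; exact (dualD F i).map_algebraMap _
  rw [this, smul_zero, add_zero, smul_eq_mul, ← sub_mul, ← C_sub]
  congr 2
  have h4 : (N : k) ≠ 0 := by exact_mod_cast hN.ne'
  push_cast
  field_simp

/-- **Theorem** (algebraically closed case, grading form): nonnegative weights. -/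
theorem top_of_grading [IsAlgClosed k] (w : σ → ℤ) (hw : ∀ i, 0 ≤ w i) (N : ℕ) (hN : 0 < N)
    (htop : ⨆ j : ℤ, gr F w N j = ⊤)
    (hz : ∀ f : MvPolynomial σ k, (∀ i, w i ≠ 0 → dualD F i f = 0) → f ∈ SS F) : SS F = ⊤ := by
  have hprop := proper_ideal F w N hN htop
  have hN' : (0 : ℤ) < N := by exact_mod_cast hN
  have hneg : ∀ j : ℤ, j < 0 → ∀ f ∈ gr F w N j, f = 0 := by
    have h1 := stable_trivial F hJ {f : MvPolynomial σ k | ∃ j : ℤ, j < 0 ∧ f ∈ gr F w N j} (by
      rintro i f ⟨j, hj, hf⟩
      refine ⟨j - N * w i, ?_, dualD_gr F hJ w N hN j i f hf⟩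
      have := mul_nonneg hN'.le (hw i)
      linarith) (by
      intro h
      apply hprop
      rw [eq_top_iff, ← h]
      apply Ideal.span_mono
      rintro f ⟨j, hj, hf⟩
      exact ⟨j, hj.ne, hf⟩)
    intro j hj f hf
    exact h1 f ⟨j, hj, hf⟩
  have hzero : ∀ f ∈ gr F w N 0, f ∈ SS F := by
    intro f hf
    apply hz
    intro i hi
    apply hneg _ _ _ (dualD_gr F hJ w N hN 0 i f hf)
    have : 0 < w i := lt_of_le_of_ne (hw i) (Ne.symm hi)
    have := mul_pos hN' this
    linarith
  have hFS : ∀ i, F i ∈ SS F := fun i => ⟨X i, by simp⟩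
  have hall : ∀ n : ℕ, ∀ j : ℤ, j ≤ n → ∀ f ∈ gr F w N j, f ∈ SS F := by
    intro n
    induction n with
    | zero =>
      intro j hj f hf
      rcases lt_or_eq_of_le hj with h | h
      · rw [hneg j (by simpa using h) f hf]; exact zero_mem _
      · have : j = 0 := by simpa using h
        subst this
        exact hzero f hf
    | succ n ih =>
      intro j hj f hf
      by_cases hjn : j ≤ n
      · exact ih j hjn f hf
      have hjpos : 0 < j := by omega
      have h1 := (mem_gr F w N j f).1 hf
      have h2 : f = C (((((j : ℚ) / N : ℚ)) : k)⁻¹) * DW F w f := by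
        have hne : ((((j : ℚ) / N : ℚ)) : k) ≠ 0 := by
          have : ((j : ℚ) / N) ≠ 0 := by
            apply div_ne_zero
            · exact_mod_cast hjpos.ne'
            · exact_mod_cast hN.ne'
          exact_mod_cast this
        rw [h1, ← mul_assoc, ← C_mul, inv_mul_cancel₀ hne, C_1, one_mul]
      rw [h2]
      apply mul_mem ((SS F).algebraMap_mem _)
      rw [DW_apply]
      apply sum_mem
      intro i _
      by_cases hwi : w i = 0
      · rw [hwi]; simp
      · apply mul_mem (mul_mem ((SS F).algebraMap_mem _) (hFS i))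
        have hpos : 0 < w i := lt_of_le_of_ne (hw i) (Ne.symm hwi)
        apply ih (j - N * w i) _ _ (dualD_gr F hJ w N hN j i f hf)
        have := mul_pos hN' hpos
        push_cast at hj
        linarith
  rw [eq_top_iff]
  intro f _
  have hf : f ∈ (⨆ j : ℤ, gr F w N j) := by rw [htop]; exact Submodule.mem_top
  have hle : (⨆ j : ℤ, gr F w N j) ≤ Subalgebra.toSubmodule (SS F) := by
    apply iSup_le
    intro j f hf
    exact hall j.toNat j (by omega) f hf
  exact hle hf

end

end Pool.Agent.H922R2
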