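import Mathlib
import Pool.Agent.H922R2.L6

set_option autoImplicit false
set_option linter.unusedSectionVars false
set_option linter.style.haveILetI false

open MvPolynomial

namespace Pool.Agent.H922R2

section

variable {k : Type*} [Field k] [CharZero k] {σ : Type*} [Fintype σ] [DecidableEq σ]
variable (F : σ → MvPolynomial σ k) (hJ : IsUnit (Matrix.det (jac F)))

include hJ

theorem F_ne_zero (i : σ) : F i ≠ 0 := by
  intro h
  have := dualD_F F hJ i i
  rw [if_pos rfl, h, map_zero] at this
  exact zero_ne_one this

theorem F_deg (i : σ) : 0 < (F i).totalDegree := by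
  rw [Nat.pos_iff_ne_zero]
  intro h
  have h1 := totalDegree_eq_zero_iff_eq_C.1 h
  have := dualD_F F hJ i i
  rw [if_pos rfl, h1] at this
  have h2 : dualD F i (C (coeff 0 (F i))) = 0 := by
    rw [← algebraMap_eq]; exact (dualD F i).map_algebraMap _
  rw [h2] at this
  exact zero_ne_one this

/-- Simultaneous eigenvectors of the logarithmic derivations are monomials in `F`. -/
theorem monomial_of_eigen (f : MvPolynomial σ k) (α : σ → k)
    (hf : ∀ i, F i * dualD F i f = C (α i) * f) (hf0 : f ≠ 0) :
    ∃ (a : σ →₀ ℕ) (c : k), (∀ i, α i = (a i : k)) ∧ c ≠ 0 ∧ f = C c * aeval F (monomial a (1 : k)) := by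
  classical
  have key : ∀ n : ℕ, ∀ (f : MvPolynomial σ k) (α : σ → k),
      (∀ i, F i * dualD F i f = C (α i) * f) → f ≠ 0 → f.totalDegree = n →
      ∃ (a : σ →₀ ℕ) (c : k), (∀ i, α i = (a i : k)) ∧ c ≠ 0 ∧ f = C c * aeval F (monomial a (1 : k)) := by
    intro n
    induction n using Nat.strong_induction_on with
    | _ n ih =>
      intro f α hf hf0 hn
      by_cases h : ∃ i, α i ≠ 0
      · obtain ⟨i, hi⟩ := h
        set g := C ((α i)⁻¹) * dualD F i f with hg
        have hfg : f = F i * g := by
          have h1 : F i * g = C ((α i)⁻¹) * (F i * dualD F i f) := by rw [hg]; ring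
          rw [h1, hf i, ← mul_assoc, ← C_mul, inv_mul_cancel₀ hi, C_1, one_mul]
        have hg0 : g ≠ 0 := by
          intro h0; rw [h0, mul_zero] at hfg; exact hf0 hfg
        have hdeg : g.totalDegree < n := by
          have h1 := totalDegree_mul_of_isDomain (F_ne_zero F hJ i) hg0
          rw [← hfg, hn] at h1
          have := F_deg F hJ i
          omega
        obtain ⟨a, c, ha, hc, hgc⟩ := ih _ hdeg g (fun l => α l - if l = i then 1 else 0) (by
          intro l
          have h1 := hf l
          rw [hfg, Derivation.leibniz, dualD_F F hJ] at h1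
          apply mul_left_cancel₀ (F_ne_zero F hJ i)
          by_cases hli : l = i
          · subst hli
            simp only [if_true, smul_eq_mul] at h1 ⊢
            rw [C_sub, C_1]
            linear_combination h1
          · rw [if_neg (fun h => hli h.symm)] at h1
            rw [if_neg hli]
            simp only [smul_eq_mul] at h1 ⊢
            rw [sub_zero]
            linear_combination h1) hg0 rfl
        refine ⟨a + Finsupp.single i 1, c, ?_, hc, ?_⟩
        · intro l
          have := ha l
          rw [Finsupp.add_apply, Finsupp.single_apply]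
          by_cases hli : l = i
          · subst hli
            rw [if_pos rfl] at this
            rw [if_pos rfl]
            push_cast
            linear_combination this
          · rw [if_neg hli] at this
            rw [if_neg (fun h => hli h.symm), add_zero]
            linear_combination this
        · rw [hfg, hgc]
          have : (monomial (a + Finsupp.single i 1) (1 : k)) = monomial a 1 * X i := by
            rw [X, monomial_mul, mul_one]
          rw [this, map_mul, aeval_X]
          ring
      · push Not at h
        have h1 : ∀ i, dualD F i f = 0 := by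
          intro i
          have := hf i
          rw [h i, C_0, zero_mul] at this
          exact (mul_eq_zero.1 this).resolve_left (F_ne_zero F hJ i)
        have h2 := eq_C_of_pderiv_eq_zero f (pderiv_eq_zero_of_dualD F hJ f h1)
        refine ⟨0, coeff 0 f, fun i => by rw [h i]; simp, ?_, ?_⟩
        · intro hc; rw [hc, C_0] at h2; exact hf0 h2
        · rw [show (monomial 0 (1 : k) : MvPolynomial σ k) = 1 from rfl, map_one, mul_one]
          exact h2
  exact key _ f α hf hf0 rfl

/-- No Jordan blocks. -/
theorem no_jordan (i : σ) (a : σ →₀ ℕ) (c : k) (f : MvPolynomial σ k)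
    (hf : F i * dualD F i f = C (a i : k) * f + C c * aeval F (monomial a (1 : k))) : c = 0 := by
  classical
  have key : ∀ n : ℕ, ∀ (a : σ →₀ ℕ) (f : MvPolynomial σ k), a i = n →
      F i * dualD F i f = C (a i : k) * f + C c * aeval F (monomial a (1 : k)) → c = 0 := by
    intro n
    induction n with
    | zero =>
      intro a f ha hf
      rw [ha, Nat.cast_zero, C_0, zero_mul, zero_add] at hf
      have h1 : aeval F (X i : MvPolynomial σ k) * dualD F i f = aeval F (C c * monomial a (1 : k) : MvPolynomial σ k) := by
        rw [aeval_X, hf, map_mul, aeval_C]; rfl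
      obtain ⟨H, hH⟩ := mem_range_of_mul F hJ _ _ _ (X_ne_zero i) h1
      change aeval F H = dualD F i f at hH
      rw [← hH, ← map_mul] at h1
      have h2 := aeval_injective F hJ h1
      have h3 := congrArg (coeff a) h2
      rw [coeff_X_mul', if_neg (by simpa using ha), coeff_C_mul, coeff_monomial, if_pos rfl, mul_one] at h3
      exact h3.symm
    | succ n ih =>
      intro a f ha hf
      have hai : (a i : k) ≠ 0 := by
        rw [ha]; exact_mod_cast Nat.succ_ne_zero n
      set a' := a - Finsupp.single i 1 with ha'
      have haa : a' + Finsupp.single i 1 = a := by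
        rw [ha', tsub_add_cancel_of_le]
        rw [Finsupp.single_le_iff]; omega
      have hmon : aeval F (monomial a (1 : k)) = F i * aeval F (monomial a' (1 : k)) := by
        conv_lhs => rw [← haa]
        have : (monomial (a' + Finsupp.single i 1) (1 : k)) = monomial a' 1 * X i := by
          rw [X, monomial_mul, mul_one]
        rw [this, map_mul, aeval_X, mul_comm]
      set g := C ((a i : k)⁻¹) * (dualD F i f - C c * aeval F (monomial a' (1 : k))) with hg
      have hfg : f = F i * g := by
        have h1 : F i * g = C ((a i : k)⁻¹) * (F i * dualD F i f - C c * (F i * aeval F (monomial a' (1 : k)))) := by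
          rw [hg]; ring
        rw [h1, hf, ← hmon, add_sub_cancel_right, ← mul_assoc, ← C_mul, inv_mul_cancel₀ hai, C_1, one_mul]
      apply ih a' g
      · rw [ha']; simp [ha]
      · have ha'i : (a' i : k) = (a i : k) - 1 := by
          have : a' i + 1 = a i := by rw [← haa]; simp
          rw [← this]; push_cast; ring
        rw [hfg, hmon, Derivation.leibniz, dualD_F F hJ, if_pos rfl] at hf
        apply mul_left_cancel₀ (F_ne_zero F hJ i)
        rw [ha'i, C_sub, C_1]
        simp only [smul_eq_mul] at hf
        linear_combination hf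
  exact key _ a f rfl hf

theorem DW_comm (w w' : σ → ℤ) (f : MvPolynomial σ k) :
    DW F w (DW F w' f) = DW F w' (DW F w f) := by
  have h1 : ∀ i, DW F w (C ((w' i : ℤ) : k) * F i * dualD F i f) =
      C ((w' i : ℤ) : k) * F i * dualD F i (DW F w f) := by
    intro i
    have hF : DW F w (F i) = C ((w i : ℤ) : k) * F i := by
      rw [DW_apply, Finset.sum_eq_single i]
      · rw [dualD_F F hJ, if_pos rfl, mul_one]
      · intro l _ hl
        rw [dualD_F F hJ, if_neg (fun h => hl h.symm), mul_zero]
      · simp
    have hC : DW F w (C ((w' i : ℤ) : k)) = 0 := by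
      rw [← algebraMap_eq]; exact (DW F w).map_algebraMap _
    rw [Derivation.leibniz, Derivation.leibniz, hC, hF, DW_dualD F hJ]
    simp only [smul_eq_mul, mul_zero, add_zero]
    ring
  rw [DW_apply F w' f, map_sum, DW_apply F w' (DW F w f)]
  exact Finset.sum_congr rfl fun i _ => h1 i

end

section Deg

variable {k : Type*} [Field k] [CharZero k] {σ : Type*} [Fintype σ] [DecidableEq σ]

theorem exists_pderiv_deg (u : MvPolynomial σ k) (hu : 0 < u.totalDegree) :
    ∃ j, pderiv j u ≠ 0 ∧ u.totalDegree ≤ (pderiv j u).totalDegree + 1 := by
  classical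
  have hu0 : u ≠ 0 := by rintro rfl; simp at hu
  obtain ⟨m, hm, hm2⟩ := (totalDegree_eq u).symm ▸
    Finset.exists_mem_eq_sup u.support (by
      rwa [Finset.nonempty_iff_ne_empty, Ne, support_eq_empty]) (fun m => m.toMultiset.card)
  obtain ⟨j, hj⟩ : ∃ j, m j ≠ 0 := by
    by_contra hcon
    push Not at hcon
    have : m = 0 := by ext i; simp [hcon i]
    rw [this] at hm2
    simp at hm2
    omega
  have h1 : m - Finsupp.single j 1 + Finsupp.single j 1 = m :=
    tsub_add_cancel_of_le (by rw [Finsupp.single_le_iff]; omega)
  have h2 : coeff (m - Finsupp.single j 1) (pderiv j u) ≠ 0 := by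
    rw [coeff_pderiv, h1]
    exact mul_ne_zero (mem_support_iff.1 hm) (Nat.cast_add_one_ne_zero _)
  refine ⟨j, ?_, ?_⟩
  · intro h0; rw [h0] at h2; exact h2 (coeff_zero _)
  · have h3 := le_totalDegree (mem_support_iff.2 h2)
    rw [hm2, Finsupp.card_toMultiset]
    have h4 : m.sum (fun _ e => e) = (m - Finsupp.single j 1).sum (fun _ e => e) + 1 := by
      conv_lhs => rw [← h1]
      rw [Finsupp.sum_add_index' (by simp) (by simp)]
      simp
    have h5 : (m.sum fun _ => id) = m.sum (fun _ e => e) := rfl
    rw [h5, h4]
    omega

end Deg

end Pool.Agent.H922R2
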