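import Mathlib
import Pool.Agent.H922R2.L7

set_option autoImplicit false
set_option linter.unusedSectionVars false
set_option linter.style.haveILetI false

open MvPolynomial

namespace Pool.Agent.H922R2

section

variable {k : Type*} [Field k] [CharZero k] {σ : Type*} [Fintype σ] [DecidableEq σ]
variable (F : σ → MvPolynomial σ k) (hJ : IsUnit (Matrix.det (jac F)))

/-- The weights orthogonal to `c`. -/
def wv (c : σ → ℤ) (i0 i : σ) : σ → ℤ := fun l => (if l = i then c i0 else 0) - (if l = i0 then c i else 0)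

theorem DW_wv (c : σ → ℤ) (i0 i : σ) (f : MvPolynomial σ k) :
    DW F (wv c i0 i) f = C ((c i0 : ℤ) : k) * (F i * dualD F i f) - C ((c i : ℤ) : k) * (F i0 * dualD F i0 f) := by
  rw [DW_apply]
  have h1 : ∀ l, C ((wv c i0 i l : ℤ) : k) * F l * dualD F l f =
      (if l = i then C ((c i0 : ℤ) : k) * (F l * dualD F l f) else 0) -
      (if l = i0 then C ((c i : ℤ) : k) * (F l * dualD F l f) else 0) := by
    intro l
    unfold wv
    split_ifs <;> push_cast <;> simp <;> ring
  rw [Finset.sum_congr rfl (fun l _ => h1 l), Finset.sum_sub_distrib, Finset.sum_ite_eq' Finset.univ i,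
    Finset.sum_ite_eq' Finset.univ i0]
  simp

include hJ

theorem deg_theta (c : σ → ℤ) (hc : ∀ i, 0 ≤ c i) (i0 : σ) (hc0 : 0 < c i0) (χ : σ → k)
    (f : MvPolynomial σ k) (hf : ∀ i, DW F (wv c i0 i) f = C (χ i) * f) :
    (F i0 * dualD F i0 f).totalDegree ≤ f.totalDegree := by
  classical
  by_cases hθ : F i0 * dualD F i0 f = 0
  · rw [hθ]; simp
  set m : σ →₀ ℕ := Finsupp.equivFunOnFinite.symm (fun i => (c i).toNat) with hm
  have hmc : ∀ i, ((m i : ℕ) : k) = ((c i : ℤ) : k) := by
    intro i
    have : ((m i : ℕ) : ℤ) = c i := by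
      rw [hm]; simp [hc i]
    rw [← this]; simp
  set u := aeval F (monomial m (1 : k)) with hu
  have hmonne : (monomial m (1 : k) : MvPolynomial σ k) ≠ 0 := by
    rw [Ne, monomial_eq_zero]; exact one_ne_zero
  have hu0 : u ≠ 0 := by
    intro h0
    exact hmonne (aeval_injective F hJ (by rw [map_zero]; exact h0))
  have hFi : ∀ i, F i ≠ 0 := F_ne_zero F hJ
  have hm0 : m i0 ≠ 0 := by
    rw [hm]; simp; omega
  have hudeg : 0 < u.totalDegree := by
    have h1 : m - Finsupp.single i0 1 + Finsupp.single i0 1 = m :=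
      tsub_add_cancel_of_le (by rw [Finsupp.single_le_iff]; omega)
    have h2 : u = aeval F (monomial (m - Finsupp.single i0 1) (1 : k)) * F i0 := by
      have : (monomial m (1 : k)) = monomial (m - Finsupp.single i0 1) 1 * X i0 := by
        rw [X, monomial_mul, mul_one, h1]
      rw [hu, this, map_mul, aeval_X]
    have h3 : aeval F (monomial (m - Finsupp.single i0 1) (1 : k)) ≠ 0 := by
      intro h0; rw [h0, zero_mul] at h2; exact hu0 h2
    rw [h2, totalDegree_mul_of_isDomain h3 (hFi i0)]
    have := F_deg F hJ i0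
    omega
  obtain ⟨j, hj, hjd⟩ := exists_pderiv_deg u hudeg
  set Pi : σ → MvPolynomial σ k := fun i => ∏ l ∈ Finset.univ.erase i, F l with hPi
  set Q := ∏ l, F l with hQ
  have hQP : ∀ i, Q = F i * Pi i := fun i => by
    rw [hQ, hPi]; exact (Finset.mul_prod_erase Finset.univ F (Finset.mem_univ i)).symm
  have hQ0 : Q ≠ 0 := Finset.prod_ne_zero_iff.2 fun i _ => hFi i
  have hPi0 : ∀ i, Pi i ≠ 0 := fun i => Finset.prod_ne_zero_iff.2 fun i _ => hFi i
  have hQdeg : 0 < Q.totalDegree := by
    rw [hQP i0, totalDegree_mul_of_isDomain (hFi i0) (hPi0 i0)]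
    have := F_deg F hJ i0
    omega
  set A := ∑ i, C (χ i) * Pi i * pderiv j (F i) with hA
  set B := ∑ i, C ((c i : ℤ) : k) * Pi i * pderiv j (F i) with hB
  set θ := F i0 * dualD F i0 f with hθdef
  -- first identity
  have e1 : C ((c i0 : ℤ) : k) * Q * pderiv j f = f * A + θ * B := by
    rw [pderiv_eq_sum_dualD F hJ j f, hA, hB, Finset.mul_sum, Finset.mul_sum, Finset.mul_sum,
      ← Finset.sum_add_distrib]
    apply Finset.sum_congr rfl
    intro i _
    have h1 := hf i
    rw [DW_wv] at h1
    rw [hQP i]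
    linear_combination (Pi i * pderiv j (F i)) * h1
  -- second identity
  have e2 : u * B = Q * pderiv j u := by
    rw [hB, hu, deriv_aeval, Finset.mul_sum, Finset.mul_sum]
    apply Finset.sum_congr rfl
    intro i _
    have h1 : aeval F (X i * pderiv i (monomial m (1 : k))) = aeval F (C ((m i : ℕ) : k) * monomial m (1 : k)) := by
      rw [X_mul_pderiv_monomial, nsmul_eq_mul, ← C_eq_coe_nat]
    rw [map_mul, map_mul, aeval_X, aeval_C, hmc i] at h1
    change F i * _ = C ((c i : ℤ) : k) * _ at h1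
    rw [hQP i]
    linear_combination (-Pi i * pderiv j (F i)) * h1
  have hB0 : B ≠ 0 := by
    intro h0
    rw [h0, mul_zero] at e2
    exact mul_ne_zero hQ0 hj e2.symm
  have d2 : Q.totalDegree ≤ B.totalDegree + 1 := by
    have h1 := congrArg totalDegree e2
    rw [totalDegree_mul_of_isDomain hu0 hB0, totalDegree_mul_of_isDomain hQ0 hj] at h1
    omega
  have dA : A.totalDegree < Q.totalDegree := by
    have h1 : A.totalDegree ≤ Finset.univ.sup fun i => (C (χ i) * Pi i * pderiv j (F i)).totalDegree :=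
      totalDegree_finsetSum _ _
    refine lt_of_le_of_lt h1 ?_
    rw [Finset.sup_lt_iff (by simpa using hQdeg)]
    intro i _
    by_cases h0 : pderiv j (F i) = 0
    · rw [h0, mul_zero]; simpa using hQdeg
    · have h2 := totalDegree_mul (C (χ i) * Pi i) (pderiv j (F i))
      have h3 := totalDegree_mul (C (χ i)) (Pi i)
      rw [totalDegree_C] at h3
      have h4 := totalDegree_pderiv_lt (F i) j h0
      have h5 := totalDegree_mul_of_isDomain (hFi i) (hPi0 i)
      rw [← hQP i] at h5
      omega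
  have d3 : (C ((c i0 : ℤ) : k) * Q * pderiv j f).totalDegree < Q.totalDegree + f.totalDegree := by
    by_cases h0 : pderiv j f = 0
    · rw [h0, mul_zero, totalDegree_zero]; omega
    · have h2 := totalDegree_mul (C ((c i0 : ℤ) : k) * Q) (pderiv j f)
      have h3 := totalDegree_mul (C ((c i0 : ℤ) : k)) Q
      rw [totalDegree_C] at h3
      have h4 := totalDegree_pderiv_lt f j h0
      omega
  have d4 : (θ * B).totalDegree < Q.totalDegree + f.totalDegree := by
    have h1 : θ * B = C ((c i0 : ℤ) : k) * Q * pderiv j f - f * A := by rw [e1]; ring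
    rw [h1]
    refine lt_of_le_of_lt (totalDegree_sub _ _) ?_
    apply max_lt d3
    have := totalDegree_mul f A
    omega
  rw [totalDegree_mul_of_isDomain hθ hB0] at d4
  omega

/-- Simultaneous diagonalisation. -/
theorem simul (W : σ → σ → ℤ) (M0 : Submodule k (MvPolynomial σ k)) (s : Finset σ)
    (hM0 : ∀ i ∈ s, ∀ g ∈ M0, DW F (W i) g ∈ M0)
    (hdiag : ∀ i ∈ s, ∀ f : MvPolynomial σ k, ∃ Λ : Finset ℚ, Polynomial.aeval (TW F (W i)) (PL k Λ) f = 0)
    (f : MvPolynomial σ k) (hfM : f ∈ M0) :
    f ∈ Submodule.span k {g : MvPolynomial σ k | g ∈ M0 ∧ ∀ i ∈ s, ∃ r : k, DW F (W i) g = C r * g} := by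
  classical
  induction s using Finset.induction_on generalizing f with
  | empty =>
    exact Submodule.subset_span (by simpa using hfM)
  | insert a s ha ih =>
    refine Submodule.span_le.2 ?_ (ih (fun i hi => hM0 i (Finset.mem_insert_of_mem hi))
      (fun i hi => hdiag i (Finset.mem_insert_of_mem hi)) f hfM)
    rintro g ⟨hgM, hg⟩
    have hg' : ∀ i, ∃ r : k, i ∈ s → DW F (W i) g = C r * g := by
      intro i
      by_cases hi : i ∈ s
      · obtain ⟨r, hr⟩ := hg i hi
        exact ⟨r, fun _ => hr⟩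
      · exact ⟨0, fun h => absurd h hi⟩
    choose r hr using hg'
    let M : Submodule k (MvPolynomial σ k) :=
      { carrier := {h | ∀ i ∈ s, DW F (W i) h = C (r i) * h}
        add_mem' := by
          intro x y hx hy i hi
          rw [map_add, hx i hi, hy i hi, mul_add]
        zero_mem' := by
          intro i _
          rw [map_zero, mul_zero]
        smul_mem' := by
          intro c x hx i hi
          rw [Derivation.map_smul, hx i hi, mul_smul_comm] }
    obtain ⟨Λ, hΛ⟩ := hdiag a (Finset.mem_insert_self a s) g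
    have h1 := mem_span_eigen (TW F (W a)) (M0 ⊓ M) (by
      rintro x ⟨hx0, hx⟩
      refine ⟨hM0 a (Finset.mem_insert_self a s) x hx0, ?_⟩
      intro i hi
      change DW F (W i) (DW F (W a) x) = C (r i) * DW F (W a) x
      rw [DW_comm F hJ, hx i hi, Derivation.leibniz]
      have : DW F (W a) (C (r i)) = 0 := by
        rw [← algebraMap_eq]; exact (DW F (W a)).map_algebraMap _
      rw [this, smul_zero, add_zero, smul_eq_mul]) Λ g ⟨hgM, fun i hi => hr i hi⟩ hΛ
    refine Submodule.span_mono ?_ h1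
    rintro h ⟨⟨hM00, hM⟩, q, _, hq⟩
    refine ⟨hM00, ?_⟩
    intro i hi
    rcases Finset.mem_insert.1 hi with rfl | hi
    · exact ⟨((q : ℚ) : k), by rw [← smul_eq_C_mul]; exact hq⟩
    · exact ⟨r i, hM i hi⟩

theorem DW_single (i0 : σ) (f : MvPolynomial σ k) :
    DW F (Pi.single i0 1) f = F i0 * dualD F i0 f := by
  rw [DW_apply, Finset.sum_eq_single i0]
  · simp
  · intro l _ hl; simp [hl]
  · simp

/-- Simultaneous eigenvectors of the derivations orthogonal to a nonnegative direction. -/
theorem mem_of_line [IsAlgClosed k] (c : σ → ℤ) (hc : ∀ i, 0 ≤ c i) (i0 : σ) (hc0 : 0 < c i0)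
    (f : MvPolynomial σ k) (χ : σ → k) (hχ : ∀ i, DW F (wv c i0 i) f = C (χ i) * f) : f ∈ SS F := by
  classical
  set Θ := TW F (Pi.single i0 1) with hΘ
  have hΘa : ∀ g, Θ g = F i0 * dualD F i0 g := fun g => DW_single F hJ i0 g
  let S : Submodule k (MvPolynomial σ k) :=
    { carrier := {h | ∀ i, DW F (wv c i0 i) h = C (χ i) * h}
      add_mem' := by
        intro x y hx hy i
        rw [map_add, hx i, hy i, mul_add]
      zero_mem' := by
        intro i
        rw [map_zero, mul_zero]
      smul_mem' := by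
        intro c x hx i
        rw [Derivation.map_smul, hx i, mul_smul_comm] }
  have hSΘ : ∀ g ∈ S, Θ g ∈ S := by
    intro g hg i
    change DW F (wv c i0 i) (DW F (Pi.single i0 1) g) = C (χ i) * (DW F (Pi.single i0 1) g)
    rw [DW_comm F hJ, hg i, Derivation.leibniz]
    have : DW F (Pi.single i0 1) (C (χ i)) = 0 := by
      rw [← algebraMap_eq]; exact (DW F _).map_algebraMap _
    rw [this, smul_zero, add_zero, smul_eq_mul]
  -- eigenvectors
  have heig : ∀ μ : k, ∀ g ∈ S, Θ g = C μ * g → g ≠ 0 →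
      ∃ (a : σ →₀ ℕ) (c : k), μ = (a i0 : k) ∧ c ≠ 0 ∧ g = C c * aeval F (monomial a (1 : k)) := by
    intro μ g hg hΘg hg0
    have hc0' : ((c i0 : ℤ) : k) ≠ 0 := by exact_mod_cast hc0.ne'
    obtain ⟨a, d, ha, hd, hgd⟩ := monomial_of_eigen F hJ g
      (fun i => (χ i + ((c i : ℤ) : k) * μ) / ((c i0 : ℤ) : k)) (by
        intro i
        have h1 := hg i
        rw [DW_wv] at h1
        rw [hΘa] at hΘg
        rw [hΘg] at h1
        have h2 : (C ((c i0 : ℤ) : k) : MvPolynomial σ k) ≠ 0 := by
          rw [Ne, C_eq_zero]; exact hc0'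
        apply mul_left_cancel₀ h2
        rw [← mul_assoc (C ((c i0 : ℤ) : k)) (C _) g, ← C_mul, mul_div_cancel₀ _ hc0', C_add, C_mul]
        linear_combination h1) hg0
    refine ⟨a, d, ?_, hd, hgd⟩
    rw [← ha i0]
    have h1 : χ i0 = 0 := by
      have h2 := hg i0
      rw [DW_wv, sub_self] at h2
      have h3 := (mul_eq_zero.1 h2.symm).resolve_right hg0
      rwa [C_eq_zero] at h3
    rw [h1, zero_add, mul_div_cancel_left₀ _ hc0']
  -- no generalised eigenvectors
  have hgen : ∀ μ : k, ∀ n : ℕ, ∀ g ∈ S, ((Θ - μ • (1 : Module.End k (MvPolynomial σ k))) ^ n) g = 0 → Θ g = C μ * g := by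
    intro μ n
    induction n with
    | zero =>
      intro g _ h
      have : g = 0 := by simpa using h
      rw [this, map_zero, mul_zero]
    | succ n ih =>
      intro g hg h
      rw [pow_succ, Module.End.mul_apply] at h
      set g' := (Θ - μ • (1 : Module.End k (MvPolynomial σ k))) g with hg'
      have hg'a : g' = Θ g - C μ * g := by
        rw [hg', LinearMap.sub_apply, LinearMap.smul_apply, Module.End.one_apply, smul_eq_C_mul]
      have hg'S : g' ∈ S := by
        rw [hg'a, ← smul_eq_C_mul]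
        exact sub_mem (hSΘ g hg) (S.smul_mem _ hg)
      have h2 := ih g' hg'S h
      by_cases h0 : g' = 0
      · rw [h0] at hg'a
        exact sub_eq_zero.1 hg'a.symm
      · exfalso
        obtain ⟨a, d, ha, hd, hgd⟩ := heig μ g' hg'S h2 h0
        apply hd
        apply no_jordan F hJ i0 a d g
        rw [← hgd, hg'a, ← ha, ← hΘa]
        ring
  -- finite-dimensional piece
  set d := f.totalDegree with hd
  let M : Submodule k (MvPolynomial σ k) := S ⊓ restrictTotalDegree σ k d
  have hMΘ : ∀ g ∈ M, Θ g ∈ M := by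
    rintro g ⟨hgS, hgd⟩
    refine ⟨hSΘ g hgS, ?_⟩
    rw [SetLike.mem_coe, mem_restrictTotalDegree] at hgd ⊢
    rw [hΘa]
    exact (deg_theta F hJ c hc i0 hc0 χ g hgS).trans hgd
  haveI : FiniteDimensional k M := Submodule.finiteDimensional_inf_right _ _
  have hfM : f ∈ M := ⟨hχ, by rw [SetLike.mem_coe, mem_restrictTotalDegree]⟩
  let Θ' : Module.End k M := Θ.restrict hMΘ
  have h3 : (⟨f, hfM⟩ : M) ∈ (⨆ μ, Θ'.maxGenEigenspace μ) := by
    rw [Module.End.iSup_maxGenEigenspace_eq_top]; exact Submodule.mem_top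
  have h4 : (⨆ μ, Θ'.maxGenEigenspace μ) ≤ (Subalgebra.toSubmodule (SS F)).comap M.subtype := by
    apply iSup_le
    intro μ g hg
    rw [Module.End.mem_maxGenEigenspace] at hg
    obtain ⟨n, hn⟩ := hg
    have h5 : ∀ n : ℕ, ∀ g : M, ((((Θ' - μ • (1 : Module.End k M)) ^ n) g : M) : MvPolynomial σ k) =
        ((Θ - μ • (1 : Module.End k (MvPolynomial σ k))) ^ n) (g : MvPolynomial σ k) := by
      intro n
      induction n with
      | zero => intro g; rfl
      | succ n ihn =>
        intro g
        rw [pow_succ, pow_succ, Module.End.mul_apply, Module.End.mul_apply, ihn]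
        rfl
    have h6 := hgen μ n g.1 g.2.1 (by rw [← h5, hn]; rfl)
    rw [Submodule.mem_comap]
    change (g : MvPolynomial σ k) ∈ SS F
    by_cases h0 : (g : MvPolynomial σ k) = 0
    · rw [h0]; exact zero_mem _
    · obtain ⟨a, e, _, _, hge⟩ := heig μ g.1 g.2.1 h6 h0
      rw [hge]
      exact mul_mem ((SS F).algebraMap_mem _) ⟨monomial a 1, rfl⟩
  exact h4 h3

end

end Pool.Agent.H922R2
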