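import Mathlib
import Pool.Agent.H922R2.L8
import Pool.Agent.H922R2.K24

set_option autoImplicit false
set_option linter.unusedSectionVars false
set_option linter.style.haveILetI false

open MvPolynomial

namespace Pool.Agent.H922R2

section

variable {k : Type*} [Field k] [CharZero k] {σ : Type*} [Fintype σ] [DecidableEq σ]

theorem wtt_comb (q : MvPolynomial σ k) (w v p : σ → ℤ) (l : ℤ)
    (hqw : ∀ m ∈ q.support, ∀ m' ∈ q.support, wtt w m = wtt w m')
    (hv : ∀ m ∈ q.support, ∀ m' ∈ q.support, ∃ t : ℤ, ∀ i, w i = 0 → (m i : ℤ) - m' i = t * v i)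
    (hp : ∑ i, (if w i = 0 then p i * v i else 0) = 0) :
    ∀ m ∈ q.support, ∀ m' ∈ q.support,
      wtt (fun i => if w i = 0 then p i else l * w i) m = wtt (fun i => if w i = 0 then p i else l * w i) m' := by
  intro m hm m' hm'
  obtain ⟨t, ht⟩ := hv m hm m' hm'
  have h1 := hqw m hm m' hm'
  rw [← sub_eq_zero] at h1 ⊢
  unfold wtt at *
  rw [← Finset.sum_sub_distrib] at h1 ⊢
  have h2 : ∀ i, (if w i = 0 then p i else l * w i) * (m i : ℤ) - (if w i = 0 then p i else l * w i) * (m' i : ℤ) =
      t * (if w i = 0 then p i * v i else 0) + l * (w i * (m i : ℤ) - w i * (m' i : ℤ)) := by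
    intro i
    split_ifs with h
    · have := ht i h
      rw [h]
      linear_combination (p i) * this
    · ring
  rw [Finset.sum_congr rfl (fun i _ => h2 i), Finset.sum_add_distrib, ← Finset.mul_sum, hp,
    ← Finset.mul_sum, h1]
  ring

variable (F : σ → MvPolynomial σ k) (hJ : IsUnit (Matrix.det (jac F)))

include hJ

theorem diag_of (q : MvPolynomial σ k) (hq0 : q ≠ 0)
    (hint : ∀ f : MvPolynomial σ k, ∃ N : ℕ,
      (aeval F : MvPolynomial σ k →ₐ[k] MvPolynomial σ k).toRingHom.IsIntegralElem ((aeval F q) ^ N * f))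
    (w : σ → ℤ) (hqw : ∀ m ∈ q.support, ∀ m' ∈ q.support, wtt w m = wtt w m')
    (f : MvPolynomial σ k) :
    ∃ Λ : Finset ℚ, Polynomial.aeval (TW F w) (PL k Λ) f = 0 := by
  obtain ⟨m0, hm0⟩ := support_nonempty.2 hq0
  exact diag_of_integral F hJ w q hq0 (wtt w m0) (fun m hm => hqw m hm m0 hm0) hint f

theorem main_pos [IsAlgClosed k] (q : MvPolynomial σ k) (hq0 : q ≠ 0)
    (hint : ∀ f : MvPolynomial σ k, ∃ N : ℕ,
      (aeval F : MvPolynomial σ k →ₐ[k] MvPolynomial σ k).toRingHom.IsIntegralElem ((aeval F q) ^ N * f))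
    (w : σ → ℤ) (hw : ∀ i, 0 < w i) (hqw : ∀ m ∈ q.support, ∀ m' ∈ q.support, wtt w m = wtt w m') :
    SS F = ⊤ := by
  obtain ⟨N, hN, htop⟩ := exists_grading F w (diag_of F hJ q hq0 hint w hqw)
  apply top_of_grading F hJ w (fun i => (hw i).le) N hN htop
  intro f hf
  rw [eq_C_of_pderiv_eq_zero f (pderiv_eq_zero_of_dualD F hJ f (fun i => hf i (hw i).ne'))]
  exact ⟨C (coeff 0 f), by simp⟩

theorem main_nonneg [IsAlgClosed k] (q : MvPolynomial σ k) (hq0 : q ≠ 0)
    (hint : ∀ f : MvPolynomial σ k, ∃ N : ℕ,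
      (aeval F : MvPolynomial σ k →ₐ[k] MvPolynomial σ k).toRingHom.IsIntegralElem ((aeval F q) ^ N * f))
    (w : σ → ℤ) (hw : ∀ i, 0 ≤ w i) (hqw : ∀ m ∈ q.support, ∀ m' ∈ q.support, wtt w m = wtt w m')
    (v : σ → ℤ)
    (hv : ∀ m ∈ q.support, ∀ m' ∈ q.support, ∃ t : ℤ, ∀ i, w i = 0 → (m i : ℤ) - m' i = t * v i)
    (hv0 : ∀ i, w i = 0 → 0 ≤ v i) :
    SS F = ⊤ := by
  classical
  by_cases hex : ∃ i0, w i0 = 0 ∧ 0 < v i0
  · obtain ⟨i0, hi0, hvi0⟩ := hex
    obtain ⟨N, hN, htop⟩ := exists_grading F w (diag_of F hJ q hq0 hint w hqw)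
    apply top_of_grading F hJ w hw N hN htop
    intro f hf
    set c : σ → ℤ := fun i => if w i = 0 then v i else 0 with hc
    have hc0 : ∀ i, 0 ≤ c i := by
      intro i
      rw [hc]
      dsimp only
      split_ifs with h
      · exact hv0 i h
      · exact le_rfl
    have hci0 : 0 < c i0 := by
      rw [hc]; dsimp only; rw [if_pos hi0]; exact hvi0
    let M0 : Submodule k (MvPolynomial σ k) :=
      { carrier := {h | ∀ i, w i ≠ 0 → dualD F i h = 0}
        add_mem' := by
          intro x y hx hy i hi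
          rw [map_add, hx i hi, hy i hi, add_zero]
        zero_mem' := by
          intro i _
          rw [map_zero]
        smul_mem' := by
          intro c x hx i hi
          rw [Derivation.map_smul, hx i hi, smul_zero] }
    have h1 := simul F hJ (wv c i0) M0 (Finset.univ.filter fun i => w i = 0) (by
      intro i _ g hg l hl
      have h2 := DW_dualD F hJ (wv c i0 i) l g
      rw [hg l hl, map_zero, mul_zero, sub_zero] at h2
      exact h2.symm) (by
      intro i hi g
      rw [Finset.mem_filter] at hi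
      apply diag_of F hJ q hq0 hint
      have h2 := wtt_comb q w v (wv c i0 i) 0 hqw hv (by
        have h3 : ∀ l, (if w l = 0 then wv c i0 i l * v l else 0) =
            (if l = i then c i0 * v l else 0) - (if l = i0 then c i * v l else 0) := by
          intro l
          by_cases hl : w l = 0
          · rw [if_pos hl]
            unfold wv
            split_ifs <;> ring
          · rw [if_neg hl]
            have h4 : l ≠ i := by rintro rfl; exact hl hi.2
            have h5 : l ≠ i0 := by rintro rfl; exact hl hi0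
            rw [if_neg h4, if_neg h5, sub_zero]
        rw [Finset.sum_congr rfl (fun l _ => h3 l), Finset.sum_sub_distrib,
          Finset.sum_ite_eq' Finset.univ i, Finset.sum_ite_eq' Finset.univ i0]
        simp only [Finset.mem_univ, if_true, hc, hi0, hi.2]
        ring)
      have h6 : (fun l => if w l = 0 then wv c i0 i l else 0 * w l) = wv c i0 i := by
        funext l
        split_ifs with hl
        · rfl
        · unfold wv
          have h4 : l ≠ i := by rintro rfl; exact hl hi.2
          have h5 : l ≠ i0 := by rintro rfl; exact hl hi0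
          rw [if_neg h4, if_neg h5]
          ring
      rw [h6] at h2
      exact h2) f hf
    refine (Submodule.span_le (p := Subalgebra.toSubmodule (SS F))).2 ?_ h1
    rintro g ⟨hgM, hg⟩
    have hg' : ∀ i, ∃ r : k, DW F (wv c i0 i) g = C r * g := by
      intro i
      by_cases hi : w i = 0
      · exact hg i (Finset.mem_filter.2 ⟨Finset.mem_univ i, hi⟩)
      · refine ⟨0, ?_⟩
        rw [DW_wv, hgM i hi]
        have : c i = 0 := by rw [hc]; dsimp only; rw [if_neg hi]
        rw [this]
        simp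
    choose χ hχ using hg'
    exact mem_of_line F hJ c hc0 i0 hci0 g χ hχ
  · push Not at hex
    have hvz : ∀ i, w i = 0 → v i = 0 := fun i hi => le_antisymm (hex i hi) (hv0 i hi)
    apply main_pos F hJ q hq0 hint (fun i => if w i = 0 then 1 else 1 * w i)
    · intro i
      split_ifs with h
      · exact one_pos
      · rw [one_mul]; exact lt_of_le_of_ne (hw i) (Ne.symm h)
    · apply wtt_comb q w v (fun _ => 1) 1 hqw hv
      apply Finset.sum_eq_zero
      intro i _
      split_ifs with h
      · rw [hvz i h, mul_zero]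
      · rfl

theorem main_H [IsAlgClosed k] (q : MvPolynomial σ k) (hq0 : q ≠ 0)
    (hint : ∀ f : MvPolynomial σ k, ∃ N : ℕ,
      (aeval F : MvPolynomial σ k →ₐ[k] MvPolynomial σ k).toRingHom.IsIntegralElem ((aeval F q) ^ N * f))
    (w : σ → ℤ) (hw : ∀ i, 0 ≤ w i) (hqw : ∀ m ∈ q.support, ∀ m' ∈ q.support, wtt w m = wtt w m')
    (v : σ → ℤ)
    (hv : ∀ m ∈ q.support, ∀ m' ∈ q.support, ∃ t : ℤ, ∀ i, w i = 0 → (m i : ℤ) - m' i = t * v i) :
    SS F = ⊤ := by
  classical
  by_cases h1 : ∀ i, w i = 0 → 0 ≤ v i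
  · exact main_nonneg F hJ q hq0 hint w hw hqw v hv h1
  by_cases h2 : ∀ i, w i = 0 → 0 ≤ (-v) i
  · refine main_nonneg F hJ q hq0 hint w hw hqw (-v) ?_ h2
    intro m hm m' hm'
    obtain ⟨t, ht⟩ := hv m hm m' hm'
    exact ⟨-t, fun i hi => by rw [ht i hi, Pi.neg_apply]; ring⟩
  push Not at h1 h2
  obtain ⟨a, ha, hva⟩ := h1
  obtain ⟨b, hb, hvb⟩ := h2
  rw [Pi.neg_apply] at hvb
  have hvb' : 0 < v b := by linarith
  set P : ℤ := ∑ i, (if w i = 0 ∧ 0 < v i then v i else 0) with hP
  set Q : ℤ := ∑ i, (if w i = 0 ∧ v i < 0 then -v i else 0) with hQ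
  have hPpos : 0 < P := by
    apply Finset.sum_pos'
    · intro i _; split_ifs with h
      · exact h.2.le
      · exact le_rfl
    · exact ⟨b, Finset.mem_univ b, by rw [if_pos ⟨hb, hvb'⟩]; exact hvb'⟩
  have hQpos : 0 < Q := by
    apply Finset.sum_pos'
    · intro i _; split_ifs with h
      · linarith [h.2]
      · exact le_rfl
    · exact ⟨a, Finset.mem_univ a, by rw [if_pos ⟨ha, hva⟩]; linarith⟩
  apply main_pos F hJ q hq0 hint
    (fun i => if w i = 0 then (if 0 < v i then Q else if v i < 0 then P else 1) else 1 * w i)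
  · intro i
    split_ifs with h h3 h4
    · exact hQpos
    · exact hPpos
    · exact one_pos
    · rw [one_mul]; exact lt_of_le_of_ne (hw i) (Ne.symm h)
  · apply wtt_comb q w v (fun i => (if 0 < v i then Q else if v i < 0 then P else 1)) 1 hqw hv
    have h3 : ∀ i, (if w i = 0 then (if 0 < v i then Q else if v i < 0 then P else 1) * v i else 0) =
        Q * (if w i = 0 ∧ 0 < v i then v i else 0) - P * (if w i = 0 ∧ v i < 0 then -v i else 0) := by
      intro i
      by_cases hwi : w i = 0
      · rcases lt_trichotomy (v i) 0 with h | h | h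
        · rw [if_pos hwi, if_neg (not_lt.2 h.le), if_pos h, if_neg (fun hh => absurd hh.2 (not_lt.2 h.le)),
            if_pos ⟨hwi, h⟩]
          ring
        · simp [h]
        · rw [if_pos hwi, if_pos h, if_pos ⟨hwi, h⟩, if_neg (fun hh => absurd hh.2 (not_lt.2 h.le))]
          ring
      · simp [hwi]
    rw [Finset.sum_congr rfl (fun i _ => h3 i), Finset.sum_sub_distrib, ← Finset.mul_sum,
      ← Finset.mul_sum, ← hP, ← hQ]
    ring

end

section Closure

variable {k : Type*} [Field k] {σ : Type*}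

theorem hint_all (F : σ → MvPolynomial σ k) (q : MvPolynomial σ k)
    (h : ∀ i, ∃ N : ℕ,
      (aeval F : MvPolynomial σ k →ₐ[k] MvPolynomial σ k).toRingHom.IsIntegralElem ((aeval F q) ^ N * X i))
    (f : MvPolynomial σ k) : ∃ N : ℕ,
      (aeval F : MvPolynomial σ k →ₐ[k] MvPolynomial σ k).toRingHom.IsIntegralElem ((aeval F q) ^ N * f) := by
  set ι := (aeval F : MvPolynomial σ k →ₐ[k] MvPolynomial σ k).toRingHom with hι
  have hq : ∀ n : ℕ, ι.IsIntegralElem ((aeval F q) ^ n) := by
    intro n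
    have : (aeval F q : MvPolynomial σ k) ^ n = ι (q ^ n) := by rw [map_pow]; rfl
    rw [this]
    exact ι.isIntegralElem_map
  induction f using MvPolynomial.induction_on with
  | C a =>
    refine ⟨0, ?_⟩
    rw [pow_zero, one_mul]
    have : (C a : MvPolynomial σ k) = ι (C a) := by
      change C a = aeval F (C a); rw [aeval_C]; rfl
    rw [this]
    exact ι.isIntegralElem_map
  | add p r hp hr =>
    obtain ⟨N, hN⟩ := hp
    obtain ⟨M, hM⟩ := hr
    refine ⟨N + M, ?_⟩
    have : (aeval F q) ^ (N + M) * (p + r) = (aeval F q) ^ M * ((aeval F q) ^ N * p) +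
        (aeval F q) ^ N * ((aeval F q) ^ M * r) := by ring
    rw [this]
    exact ((hq M).mul _ hN).add _ ((hq N).mul _ hM)
  | mul_X p i hp =>
    obtain ⟨N, hN⟩ := hp
    obtain ⟨M, hM⟩ := h i
    refine ⟨N + M, ?_⟩
    have : (aeval F q) ^ (N + M) * (p * X i) = ((aeval F q) ^ N * p) * ((aeval F q) ^ M * X i) := by ring
    rw [this]
    exact hN.mul _ hM

end Closure

section Any

variable {k : Type*} [Field k] [CharZero k] {σ : Type*} [Fintype σ] [DecidableEq σ]

theorem main_any_field (F : σ → MvPolynomial σ k) (hJ : IsUnit (Matrix.det (jac F)))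
    (q : MvPolynomial σ k) (hq0 : q ≠ 0)
    (hint : ∀ i, ∃ N : ℕ,
      (aeval F : MvPolynomial σ k →ₐ[k] MvPolynomial σ k).toRingHom.IsIntegralElem ((aeval F q) ^ N * X i))
    (w : σ → ℤ) (hw : ∀ i, 0 ≤ w i) (hqw : ∀ m ∈ q.support, ∀ m' ∈ q.support, wtt w m = wtt w m')
    (v : σ → ℤ)
    (hv : ∀ m ∈ q.support, ∀ m' ∈ q.support, ∃ t : ℤ, ∀ i, w i = 0 → (m i : ℤ) - m' i = t * v i) :
    SS F = ⊤ := by
  haveI : CharZero (AlgebraicClosure k) := charZero_of_injective_algebraMap
    (algebraMap k (AlgebraicClosure k)).injective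
  apply SS_descent (E := AlgebraicClosure k) F
  have hJE := jac_mE (E := AlgebraicClosure k) F hJ
  have hsupp : (mE k (AlgebraicClosure k) σ q).support = q.support :=
    support_map_of_injective _ (algebraMap k (AlgebraicClosure k)).injective
  apply main_H _ hJE (mE k (AlgebraicClosure k) σ q) ?_ ?_ w hw ?_ v ?_
  · rw [Ne, map_eq_zero_iff _ mE_inj]; exact hq0
  · apply hint_all
    intro i
    obtain ⟨N, P, hP, hPx⟩ := hint i
    refine ⟨N, P.map (mE k (AlgebraicClosure k) σ), hP.map _, ?_⟩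
    have h1 := congrArg (mE k (AlgebraicClosure k) σ) hPx
    rw [Polynomial.hom_eval₂, map_zero, map_mul, map_pow, mE_aeval] at h1
    rw [Polynomial.eval₂_map]
    have h2 : (mE k (AlgebraicClosure k) σ) (X i) = X i := by rw [mE, map_X]
    rw [h2] at h1
    rw [← h1]
    congr 1
    apply RingHom.ext
    intro p
    exact (mE_aeval F p).symm
  · rw [hsupp]; exact hqw
  · rw [hsupp]; exact hv

theorem isIntegralElem_of (F : σ → MvPolynomial σ k) (hJ : IsUnit (Matrix.det (jac F)))
    (x : MvPolynomial σ k) (h : IsIntegral (Algebra.adjoin k (Set.range F)) x) :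
    (aeval F : MvPolynomial σ k →ₐ[k] MvPolynomial σ k).toRingHom.IsIntegralElem x := by
  have h1 : Algebra.adjoin k (Set.range F) = SS F := Algebra.adjoin_range_eq_range_aeval k F
  rw [h1] at h
  obtain ⟨P, hP, hPx⟩ := h
  refine ⟨P.map (eqS F hJ).symm.toRingEquiv.toRingHom, hP.map _, ?_⟩
  rw [Polynomial.eval₂_map, ← hPx]
  congr 1
  apply RingHom.ext
  intro s
  change aeval F ((eqS F hJ).symm s) = _
  rw [← eqS_coe F hJ, AlgEquiv.apply_symm_apply]
  rfl

theorem inverse_of_top (F : σ → MvPolynomial σ k) (hJ : IsUnit (Matrix.det (jac F))) (h : SS F = ⊤) :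
    ∃ G : σ → MvPolynomial σ k, (∀ i, aeval F (G i) = X i) ∧ (∀ i, aeval G (F i) = X i) := by
  have h1 : ∀ i, ∃ G : MvPolynomial σ k, aeval F G = X i := by
    intro i
    have : (X i : MvPolynomial σ k) ∈ SS F := by rw [h]; exact Algebra.mem_top
    exact this
  choose G hG using h1
  refine ⟨G, hG, ?_⟩
  intro i
  apply aeval_injective F hJ
  have h2 : (aeval F : MvPolynomial σ k →ₐ[k] MvPolynomial σ k).comp (aeval G) = AlgHom.id k _ := by
    apply MvPolynomial.algHom_ext
    intro i
    rw [AlgHom.comp_apply, aeval_X, hG]; rfl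
  rw [aeval_X]
  exact DFunLike.congr_fun h2 (F i)

end Any

end Pool.Agent.H922R2
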