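import Mathlib
import Pool.Agent.H922R2.L9

set_option autoImplicit false
set_option linter.unusedSectionVars false
set_option linter.style.haveILetI false

open MvPolynomial

namespace Pool.Agent.H922R2

section

variable {k : Type*} [Field k] [CharZero k] {σ : Type*} [Fintype σ] [DecidableEq σ]

/-- change of coordinates in the target -/
noncomputable def tgt (F : σ → MvPolynomial σ k) (Φ : MvPolynomial σ k ≃ₐ[k] MvPolynomial σ k) :
    σ → MvPolynomial σ k := fun i => aeval F (Φ.symm (X i))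

theorem aeval_tgt (F : σ → MvPolynomial σ k) (Φ : MvPolynomial σ k ≃ₐ[k] MvPolynomial σ k)
    (p : MvPolynomial σ k) : aeval (tgt F Φ) p = aeval F (Φ.symm p) := by
  have : (aeval (tgt F Φ) : MvPolynomial σ k →ₐ[k] MvPolynomial σ k) =
      (aeval F).comp Φ.symm.toAlgHom := by
    apply MvPolynomial.algHom_ext
    intro i
    rw [aeval_X]
    rfl
  rw [this]
  rfl

theorem SS_tgt (F : σ → MvPolynomial σ k) (Φ : MvPolynomial σ k ≃ₐ[k] MvPolynomial σ k) :
    SS (tgt F Φ) = SS F := by
  apply le_antisymm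
  · rintro _ ⟨p, rfl⟩
    change aeval (tgt F Φ) p ∈ SS F
    rw [aeval_tgt]
    exact ⟨_, rfl⟩
  · rintro _ ⟨p, rfl⟩
    refine ⟨Φ p, ?_⟩
    change aeval (tgt F Φ) (Φ p) = aeval F p
    rw [aeval_tgt, AlgEquiv.symm_apply_apply]

theorem jac_compT (F G : σ → MvPolynomial σ k) :
    jac (fun i => aeval F (G i)) = (aeval F : MvPolynomial σ k →ₐ[k] MvPolynomial σ k).toRingHom.mapMatrix (jac G) *
      jac F := by
  ext1 i j
  rw [Matrix.mul_apply]
  simp only [Matrix.of_apply, RingHom.mapMatrix_apply, Matrix.map_apply]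
  rw [deriv_aeval]
  rfl

theorem jac_tgt (F : σ → MvPolynomial σ k) (hJ : IsUnit (Matrix.det (jac F)))
    (Φ : MvPolynomial σ k ≃ₐ[k] MvPolynomial σ k) :
    IsUnit (Matrix.det (jac (tgt F Φ))) := by
  have hΦ : IsUnit (Matrix.det (jac (fun i => Φ.symm (X i)))) := by
    have h1 := jac_compT (fun i => Φ.symm (X i)) (fun i => Φ (X i))
    have h2 : (fun i => aeval (fun i => Φ.symm (X i)) (Φ (X i))) = (X : σ → MvPolynomial σ k) := by
      funext i
      have : (aeval (fun i => Φ.symm (X i)) : MvPolynomial σ k →ₐ[k] MvPolynomial σ k) = Φ.symm.toAlgHom := by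
        apply MvPolynomial.algHom_ext
        intro i
        rw [aeval_X]; rfl
      rw [this]
      exact AlgEquiv.symm_apply_apply Φ (X i)
    rw [h2] at h1
    have h3 : jac (X : σ → MvPolynomial σ k) = 1 := by
      ext1 i j
      rw [Matrix.one_apply]
      change pderiv j (X i) = _
      by_cases h : i = j
      · subst h; simp
      · rw [if_neg h, pderiv_X_of_ne (fun hh => h hh)]
    have h4 := congrArg Matrix.det h1
    rw [h3, Matrix.det_one, Matrix.det_mul] at h4
    exact IsUnit.of_mul_eq_one_right _ h4.symm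
  unfold tgt
  rw [jac_compT F (fun i => Φ.symm (X i)), Matrix.det_mul]
  apply IsUnit.mul _ hJ
  rw [← RingHom.map_det]
  exact hΦ.map _

theorem main_final (F : σ → MvPolynomial σ k) (hJ : IsUnit (Matrix.det (jac F)))
    (q : MvPolynomial σ k) (hq : q ≠ 0)
    (hint : ∀ i, ∃ N : ℕ, IsIntegral (Algebra.adjoin k (Set.range F)) ((aeval F q) ^ N * X i))
    (Φ : MvPolynomial σ k ≃ₐ[k] MvPolynomial σ k)
    (w : σ → ℕ) (d : ℕ) (hw : IsWeightedHomogeneous w (Φ q) d)
    (v : σ → ℤ)
    (hv : ∀ m ∈ (Φ q).support, ∀ m' ∈ (Φ q).support, ∃ t : ℤ,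
      ∀ i, w i = 0 → (m i : ℤ) - (m' i : ℤ) = t * v i) :
    ∃ G : σ → MvPolynomial σ k, (∀ i, aeval F (G i) = X i) ∧ (∀ i, aeval G (F i) = X i) := by
  apply inverse_of_top F hJ
  rw [← SS_tgt F Φ]
  have hJ' := jac_tgt F hJ Φ
  apply main_any_field (tgt F Φ) hJ' (Φ q) ((map_ne_zero_iff _ Φ.injective).2 hq) ?_ (fun i => (w i : ℤ))
    (fun i => by positivity) ?_ v ?_
  · intro i
    obtain ⟨N, hN⟩ := hint i
    refine ⟨N, ?_⟩
    apply isIntegralElem_of (tgt F Φ) hJ'
    have h1 : Algebra.adjoin k (Set.range (tgt F Φ)) = Algebra.adjoin k (Set.range F) := by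
      rw [Algebra.adjoin_range_eq_range_aeval, Algebra.adjoin_range_eq_range_aeval]
      exact SS_tgt F Φ
    rw [h1, aeval_tgt, AlgEquiv.symm_apply_apply]
    exact hN
  · have h2 : ∀ m ∈ (Φ q).support, wtt (fun i => (w i : ℤ)) m = d := by
      intro m hm
      have h3 := hw (mem_support_iff.1 hm)
      rw [Finsupp.weight_apply, Finsupp.sum_fintype _ _ (by simp)] at h3
      rw [← h3]
      unfold wtt
      push_cast
      apply Finset.sum_congr rfl
      intro i _
      simp [mul_comm]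
    intro m hm m' hm'
    rw [h2 m hm, h2 m' hm']
  · intro m hm m' hm'
    obtain ⟨t, ht⟩ := hv m hm m' hm'
    exact ⟨t, fun i hi => ht i (by exact_mod_cast hi)⟩

end

end Pool.Agent.H922R2
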