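import Mathlib
import Pool.Agent.H922R2.L10
import Pool.Agent.H922R2.K22

set_option autoImplicit false
set_option linter.unusedSectionVars false
set_option linter.style.haveILetI false

open MvPolynomial

namespace Pool.Agent.H922R2

section QH

variable {k : Type*} [Field k] [CharZero k] [IsAlgClosed k]

/-- quasi-homogeneous in suitable coordinates, for a nonzero integral weight -/
def QHc (c : MvPolynomial (Fin 2) k) : Prop :=
  ∃ (θ : GA k) (w : Fin 2 → ℤ), w ≠ 0 ∧
    ∀ m ∈ (θ c).support, ∀ m' ∈ (θ c).support, wtt w m = wtt w m'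

theorem QHc.conj {c : MvPolynomial (Fin 2) k} (θ : GA k) (h : QHc (θ c)) : QHc c := by
  obtain ⟨η, w, hw, h⟩ := h
  exact ⟨η * θ, w, hw, h⟩

theorem QHc_pderiv {c : MvPolynomial (Fin 2) k} (i : Fin 2) (h : pderiv i c = 0) : QHc c := by
  refine ⟨1, Pi.single i 1, ?_, ?_⟩
  · intro h0
    have := congrFun h0 i
    rw [Pi.single_eq_same] at this
    exact one_ne_zero this
  · have h2 : ∀ m ∈ c.support, wtt (Pi.single i 1) m = 0 := by
      intro m hm
      have h3 := support_of_pderiv_eq_zero h m (mem_support_iff.1 hm)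
      unfold wtt
      rw [Finset.sum_eq_single i]
      · rw [h3]; simp
      · intro j _ hj
        rw [Pi.single_eq_of_ne hj, zero_mul]
      · simp
    intro m hm m' hm'
    rw [AlgEquiv.one_apply] at hm hm'
    rw [h2 m hm, h2 m' hm']

theorem QH_caseI' {φ : GA k}
    {ν g : k} (hν : ν ≠ 0) (hg : g ≠ 0) (h0 : φ (X 0) = C ν * X 0) (h1 : φ (X 1) = X 1 + C g)
    {c : MvPolynomial (Fin 2) k} {l : k}
    (hl : φ c = C l * c) : QHc c := by
  have hφD : ∀ r, pderiv 1 (φ r) = C 1 * φ (pderiv 1 r) := by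
    intro r
    rw [pderiv_ga, h0, h1]
    simp
  have hD : pderiv 1 c = 0 := by
    by_contra hne
    obtain ⟨h, m, e1, e2, e3, e4⟩ := exists_top_pair (pderiv 1) (LN_pderiv 1) φ 1 one_ne_zero hφD hl hne
    rw [mul_one] at e1
    set a := pderiv 1 h with ha
    have hb : pderiv 1 (h - a * X 1) = 0 := by
      rw [map_sub, Derivation.leibniz, e4]
      simp [ha]
    obtain ⟨A, hA⟩ := exists_ux e4
    obtain ⟨B, hB⟩ := exists_ux hb
    have hh : h = ux A * X 1 + ux B := by rw [← hA, ← hB]; ring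
    have hφu : ∀ P : Polynomial k, φ (ux P) = ux (P.comp (Polynomial.C ν * Polynomial.X)) := by
      intro P
      rw [gmap_ux, h0, ux, Polynomial.aeval_comp]
      simp [algebraMap_eq]
    rw [hA, hφu, ← ux_C, ← ux_mul] at e2
    have e2' := ux_injective e2
    rw [hh, map_add, map_mul, hφu, hφu, h1, e2'] at e1
    have e5 : ux (Polynomial.C (m * g) * A) = ux (Polynomial.C m * B -
        B.comp (Polynomial.C ν * Polynomial.X)) := by
      have : ∀ P Q : Polynomial k, ux (P - Q) = ux P - ux Q := by intro P Q; simp [ux]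
      rw [this]
      simp only [ux_mul, ux_C, C_mul] at e1 ⊢
      linear_combination e1
    have e6 := ux_injective e5
    have hA0 : A ≠ 0 := by
      rintro rfl
      apply e3
      rw [hA]; simp [ux]
    obtain ⟨i, hi⟩ : ∃ i, A.coeff i ≠ 0 := by
      by_contra hcon
      push Not at hcon
      exact hA0 (Polynomial.ext (by simpa using hcon))
    have f1 := congrArg (fun P => Polynomial.coeff P i) e2'
    have f2 := congrArg (fun P => Polynomial.coeff P i) e6
    simp only [Polynomial.comp_C_mul_X_coeff, Polynomial.coeff_C_mul, Polynomial.coeff_sub] at f1 f2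
    have hm : m = ν ^ i := by
      have : A.coeff i * ν ^ i = A.coeff i * m := by rw [f1]; ring
      exact (mul_left_cancel₀ hi this).symm
    have hm0 : m ≠ 0 := by rw [hm]; exact pow_ne_zero _ hν
    rw [hm] at f2
    have f3 : ν ^ i * g * A.coeff i = 0 := by rw [f2]; ring
    rcases mul_eq_zero.1 f3 with f4 | f4
    · rcases mul_eq_zero.1 f4 with f5 | f5
      · exact pow_ne_zero _ hν f5
      · exact hg f5
    · exact hi f4
  exact QHc_pderiv 1 hD

theorem QH_caseI {φ : GA k}
    {α g : k} {P : Polynomial k} (hα : α ≠ 0) (hg : g ≠ 0) (h0 : φ (X 0) = C α * X 0 + uy P)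
    (h1 : φ (X 1) = X 1 + C g)
    {c : MvPolynomial (Fin 2) k} {l : k}
    (hl : φ c = C l * c) : QHc c := by
  have huy : ∀ P : Polynomial k, pderiv 0 (uy P) = 0 := by
    intro P
    rw [uy, Derivation.map_aeval]
    simp
  have hφD : ∀ r, pderiv 0 (φ r) = C α * φ (pderiv 0 r) := by
    intro r
    rw [pderiv_ga, h0, h1, map_add, huy]
    simp; ring
  by_cases hD : pderiv 0 c = 0
  · exact QHc_pderiv 0 hD
  · obtain ⟨h, m, e1, e2, e3, e4⟩ := exists_top_pair (pderiv 0) (LN_pderiv 0) φ α hα hφD hl hD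
    obtain ⟨A, hA⟩ := exists_uy e4
    have hφu : ∀ P : Polynomial k, φ (uy P) = uy (P.comp (Polynomial.X + Polynomial.C g)) := by
      intro P
      rw [gmap_uy, h1, uy, Polynomial.aeval_comp]
      simp [algebraMap_eq]
    have hA0 : A ≠ 0 := by
      rintro rfl
      apply e3
      rw [hA]; simp [uy]
    rw [hA, hφu, ← uy_C, ← uy_mul] at e2
    obtain ⟨a, ha, rfl⟩ := shift_const hg hA0 (uy_injective e2)
    rw [uy_C] at hA
    have hb : pderiv 0 (h - C a * X 0) = 0 := by
      rw [map_sub, hA]; simp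
    obtain ⟨B, hB⟩ := exists_uy hb
    set B' := Polynomial.C a⁻¹ * B with hB'
    have hh : h = C a * (X 0 + uy B') := by
      rw [hB', uy_mul, uy_C, mul_add, ← mul_assoc, ← C_mul, mul_inv_cancel₀ ha, C_1, one_mul, ← hB]
      ring
    set θ := elemX B' with hθ
    have hθ0 : θ (X 0) = X 0 + uy B' := elemX_X0 B'
    have hθ1 : θ (X 1) = X 1 := elemX_X1 B'
    have hx' : φ (θ (X 0)) = C (m * α) * θ (X 0) := by
      rw [hh, map_mul, ga_C, ← hθ0] at e1
      have : C a * φ (θ (X 0)) = C a * (C (m * α) * θ (X 0)) := by rw [e1]; ring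
      exact mul_left_cancel₀ (by rw [Ne, C_eq_zero]; exact ha) this
    have hν : m * α ≠ 0 := semi_ne_zero hx' (by
      rw [Ne, map_eq_zero_iff θ θ.injective]; exact X_ne_zero 0)
    apply QHc.conj θ⁻¹
    apply QH_caseI' (φ := θ⁻¹ * φ * θ) hν hg (c := θ⁻¹ c) (l := l)
    · change θ⁻¹ (φ (θ (X 0))) = _
      rw [hx', map_mul, ga_C, inv_apply_self']
    · change θ⁻¹ (φ (θ (X 1))) = _
      rw [hθ1, h1, map_add, ga_C]
      congr 1
      conv_lhs => rw [← hθ1]
      rw [inv_apply_self']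
    · change θ⁻¹ (φ (θ (θ⁻¹ c))) = _
      rw [apply_inv_self', hl, map_mul, ga_C]

theorem QH_caseIIa {φ : GA k}
    {α β : k} {P : Polynomial k} (hα : α ≠ 0) (hP : P ≠ 0) (h0 : φ (X 0) = C α * X 0 + uy P)
    (h1 : φ (X 1) = C β * X 1) (hPc : ∀ j, P.coeff j ≠ 0 → β ^ j = α)
    {c : MvPolynomial (Fin 2) k} {l : k}
    (hl : φ c = C l * c) : QHc c := by
  have huy : ∀ P : Polynomial k, pderiv 0 (uy P) = 0 := by
    intro P
    rw [uy, Derivation.map_aeval]
    simp
  have hφD : ∀ r, pderiv 0 (φ r) = C α * φ (pderiv 0 r) := by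
    intro r
    rw [pderiv_ga, h0, h1, map_add, huy]
    simp; ring
  by_cases hD : pderiv 0 c = 0
  · exact QHc_pderiv 0 hD
  · exfalso
    obtain ⟨h, m, e1, e2, e3, e4⟩ := exists_top_pair (pderiv 0) (LN_pderiv 0) φ α hα hφD hl hD
    have hm : m ≠ 0 := semi_ne_zero e2 e3
    set a := pderiv 0 h with ha
    have hb : pderiv 0 (h - a * X 0) = 0 := by
      rw [map_sub, Derivation.leibniz, e4]
      simp [ha]
    obtain ⟨A, hA⟩ := exists_uy e4
    obtain ⟨B, hB⟩ := exists_uy hb
    have hh : h = uy A * X 0 + uy B := by rw [← hA, ← hB]; ring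
    have hφu : ∀ P : Polynomial k, φ (uy P) = uy (P.comp (Polynomial.C β * Polynomial.X)) := by
      intro P
      rw [gmap_uy, h1, uy, Polynomial.aeval_comp]
      simp [algebraMap_eq]
    have hA0 : A ≠ 0 := by
      rintro rfl
      apply e3
      rw [hA]; simp [uy]
    rw [hA, hφu, ← uy_C, ← uy_mul] at e2
    have e2' := uy_injective e2
    rw [hh, map_add, map_mul, hφu, hφu, h0, e2'] at e1
    have e5 : uy (Polynomial.C m * (A * P)) = uy (Polynomial.C (m * α) * B -
        B.comp (Polynomial.C β * Polynomial.X)) := by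
      have : ∀ P Q : Polynomial k, uy (P - Q) = uy P - uy Q := by intro P Q; simp [uy]
      rw [this]
      simp only [uy_mul, uy_C, C_mul] at e1 ⊢
      linear_combination e1
    have e6 := uy_injective e5
    have hAP : A * P ≠ 0 := mul_ne_zero hA0 hP
    obtain ⟨j, hj⟩ : ∃ j, (A * P).coeff j ≠ 0 := by
      by_contra hcon
      push Not at hcon
      exact hAP (Polynomial.ext (by simpa using hcon))
    have hβj : β ^ j = m * α := by
      rw [Polynomial.coeff_mul] at hj
      obtain ⟨⟨i, i'⟩, hii, hne⟩ := Finset.exists_ne_zero_of_sum_ne_zero hj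
      rw [Finset.HasAntidiagonal.mem_antidiagonal] at hii
      simp only at hii hne
      have hAi : A.coeff i ≠ 0 := left_ne_zero_of_mul hne
      have hPi : P.coeff i' ≠ 0 := right_ne_zero_of_mul hne
      have f1 := congrArg (fun P => Polynomial.coeff P i) e2'
      simp only [Polynomial.comp_C_mul_X_coeff, Polynomial.coeff_C_mul] at f1
      have f2 : β ^ i = m := by
        have : A.coeff i * β ^ i = A.coeff i * m := by rw [f1]; ring
        exact mul_left_cancel₀ hAi this
      rw [← hii, pow_add, f2, hPc i' hPi]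
    have f3 := congrArg (fun P => Polynomial.coeff P j) e6
    simp only [Polynomial.comp_C_mul_X_coeff, Polynomial.coeff_C_mul, Polynomial.coeff_sub] at f3
    rw [hβj] at f3
    have f4 : m * (A * P).coeff j = 0 := by rw [f3]; ring
    rcases mul_eq_zero.1 f4 with f5 | f5
    · exact hm f5
    · exact hj f5

theorem QH_diag {φ : GA k} (hinf : ∀ n, 0 < n → φ ^ n ≠ 1) {α β : k}
    (h0 : φ (X 0) = C α * X 0) (h1 : φ (X 1) = C β * X 1)
    {c : MvPolynomial (Fin 2) k} {l : k} (hl : φ c = C l * c) : QHc c := by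
  have hα : α ≠ 0 := semi_ne_zero h0 (X_ne_zero 0)
  have hβ : β ≠ 0 := semi_ne_zero h1 (X_ne_zero 1)
  have hinf' : ∀ n : ℕ, 0 < n → α ^ n = 1 → β ^ n = 1 → False := by
    intro n hn ha hb
    apply hinf n hn
    apply ga_ext
    · rw [(pow_diag h0 h1 n).1, ha, C_1, one_mul]; rfl
    · rw [(pow_diag h0 h1 n).2, hb, C_1, one_mul]; rfl
  -- every exponent has the same eigenvalue
  have hev : ∀ m ∈ c.support, α ^ m 0 * β ^ m 1 = l := by
    intro m hm
    have h2 := coeff_diag h0 h1 c m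
    rw [hl, coeff_C_mul] at h2
    exact (mul_right_cancel₀ (mem_support_iff.1 hm) h2).symm
  by_cases hmono : ∀ m ∈ c.support, ∀ m' ∈ c.support, m = m'
  · refine ⟨1, fun _ => 1, ?_, ?_⟩
    · intro h; exact one_ne_zero (congrFun h 0)
    · intro m hm m' hm'
      rw [AlgEquiv.one_apply] at hm hm'
      rw [hmono m hm m' hm']
  · push Not at hmono
    obtain ⟨a, ha, b, hb, hab⟩ := hmono
    -- the relation lattice has rank at most one
    have hlat : ∀ m ∈ c.support, ((m 0 : ℤ) - a 0) * ((b 1 : ℤ) - a 1) = ((m 1 : ℤ) - a 1) * ((b 0 : ℤ) - a 0) := by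
      intro m hm
      by_contra hne
      set x : ℤ := (m 0 : ℤ) - a 0 with hx
      set y : ℤ := (m 1 : ℤ) - a 1 with hy
      set u : ℤ := (b 0 : ℤ) - a 0 with hu
      set v : ℤ := (b 1 : ℤ) - a 1 with hv
      have hzp : ∀ m ∈ c.support, α ^ ((m 0 : ℤ) - a 0) * β ^ ((m 1 : ℤ) - a 1) = 1 := by
        intro m hm
        have e1 := hev m hm
        have e2 := hev a ha
        rw [zpow_sub₀ hα, zpow_sub₀ hβ, zpow_natCast, zpow_natCast, zpow_natCast, zpow_natCast,
          div_mul_div_comm, e1, e2]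
        apply div_self
        rw [← e2]
        exact mul_ne_zero (pow_ne_zero _ hα) (pow_ne_zero _ hβ)
      have r1 : α ^ x * β ^ y = 1 := hzp m hm
      have r2 : α ^ u * β ^ v = 1 := hzp b hb
      set d : ℤ := x * v - y * u with hd
      have hd0 : d ≠ 0 := by rw [hd]; exact sub_ne_zero.2 hne
      have s1 : α ^ d = 1 := by
        have t1 : (α ^ x * β ^ y) ^ v = 1 := by rw [r1, one_zpow]
        have t2 : (α ^ u * β ^ v) ^ y = 1 := by rw [r2, one_zpow]
        rw [mul_zpow, ← zpow_mul, ← zpow_mul] at t1 t2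
        have t3 : α ^ d = (α ^ (x * v) * β ^ (y * v)) * (α ^ (u * y) * β ^ (v * y))⁻¹ := by
          rw [hd, zpow_sub₀ hα, mul_inv, mul_comm v y, mul_comm u y]
          field_simp
        rw [t3, t1, t2]; simp
      have s2 : β ^ d = 1 := by
        have t1 : (α ^ x * β ^ y) ^ u = 1 := by rw [r1, one_zpow]
        have t2 : (α ^ u * β ^ v) ^ x = 1 := by rw [r2, one_zpow]
        rw [mul_zpow, ← zpow_mul, ← zpow_mul] at t1 t2
        have t3 : β ^ d = (α ^ (u * x) * β ^ (v * x)) * (α ^ (x * u) * β ^ (y * u))⁻¹ := by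
          rw [hd, zpow_sub₀ hβ, mul_inv, mul_comm v x, mul_comm u x]
          field_simp
        rw [t3, t1, t2]; simp
      apply hinf' d.natAbs (Int.natAbs_pos.2 hd0)
      · rcases Int.natAbs_eq d with h | h
        · rw [← zpow_natCast, ← h]; exact s1
        · rw [← zpow_natCast]
          have : ((d.natAbs : ℕ) : ℤ) = -d := by omega
          rw [this, zpow_neg, s1, inv_one]
      · rcases Int.natAbs_eq d with h | h
        · rw [← zpow_natCast, ← h]; exact s2
        · rw [← zpow_natCast]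
          have : ((d.natAbs : ℕ) : ℤ) = -d := by omega
          rw [this, zpow_neg, s2, inv_one]
    refine ⟨1, ![(b 1 : ℤ) - a 1, -((b 0 : ℤ) - a 0)], ?_, ?_⟩
    · intro h
      apply hab
      have e1 := congrFun h 0
      have e2 := congrFun h 1
      simp at e1 e2
      ext i
      fin_cases i
      · simp; omega
      · simp; omega
    · have hwt : ∀ m ∈ c.support, wtt ![(b 1 : ℤ) - a 1, -((b 0 : ℤ) - a 0)] m =
          wtt ![(b 1 : ℤ) - a 1, -((b 0 : ℤ) - a 0)] a := by
        intro m hm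
        unfold wtt
        rw [Fin.sum_univ_two, Fin.sum_univ_two]
        simp only [Matrix.cons_val_zero, Matrix.cons_val_one]
        linear_combination hlat m hm
      intro m hm m' hm'
      rw [AlgEquiv.one_apply] at hm hm'
      rw [hwt m hm, hwt m' hm']

theorem QH_caseII {φ : GA k} (hinf : ∀ n, 0 < n → φ ^ n ≠ 1)
    {α β : k} {P : Polynomial k} (hα : α ≠ 0) (h0 : φ (X 0) = C α * X 0 + uy P)
    (h1 : φ (X 1) = C β * X 1) {c : MvPolynomial (Fin 2) k} {l : k} (hl : φ c = C l * c) : QHc c := by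
  classical
  set q : ℕ → k := fun j => if β ^ j = α then 0 else P.coeff j / (α - β ^ j) with hq
  set Q : Polynomial k := ∑ j ∈ Finset.range (P.natDegree + 1), Polynomial.C (q j) * Polynomial.X ^ j
    with hQ
  have hQc : ∀ j, Q.coeff j = q j := by
    intro j
    rw [hQ, Polynomial.finsetSum_coeff]
    simp only [Polynomial.coeff_C_mul, Polynomial.coeff_X_pow]
    by_cases hj : j ∈ Finset.range (P.natDegree + 1)
    · simp only [mul_ite, mul_one, mul_zero, Finset.sum_ite_eq, if_pos hj]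
    · simp only [mul_ite, mul_one, mul_zero, Finset.sum_ite_eq, if_neg hj]
      rw [hq]
      simp only
      rw [Polynomial.coeff_eq_zero_of_natDegree_lt (by simpa using hj)]
      simp
  set θ := elemX Q with hθ
  have hθ0 : θ (X 0) = X 0 + uy Q := elemX_X0 Q
  have hθ1 : θ (X 1) = X 1 := elemX_X1 Q
  have hθi1 : θ⁻¹ (X 1) = X 1 := by
    conv_lhs => rw [← hθ1]
    rw [inv_apply_self']
  have huyθ : ∀ P : Polynomial k, θ⁻¹ (uy P) = uy P := by
    intro P
    rw [gmap_uy, hθi1]; rfl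
  have hθi0 : θ⁻¹ (X 0) = X 0 - uy Q := by
    have : θ (X 0 - uy Q) = X 0 := by
      rw [map_sub, hθ0, gmap_uy, hθ1]
      simp [uy]
    rw [← this, inv_apply_self', this]
  set P' := P + Q.comp (Polynomial.C β * Polynomial.X) - Polynomial.C α * Q with hP'
  have hφu : ∀ P : Polynomial k, φ (uy P) = uy (P.comp (Polynomial.C β * Polynomial.X)) := by
    intro P
    rw [gmap_uy, h1, uy, Polynomial.aeval_comp]
    simp [algebraMap_eq]
  have h0' : (θ⁻¹ * φ * θ) (X 0) = C α * X 0 + uy P' := by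
    change θ⁻¹ (φ (θ (X 0))) = _
    rw [hθ0, map_add, h0, hφu, map_add, map_add, map_mul, ga_C, hθi0, huyθ, huyθ, hP']
    have : ∀ P Q : Polynomial k, uy (P - Q) = uy P - uy Q := by intro P Q; simp [uy]
    rw [this, uy_add, uy_mul, uy_C]
    ring
  have h1' : (θ⁻¹ * φ * θ) (X 1) = C β * X 1 := by
    change θ⁻¹ (φ (θ (X 1))) = _
    rw [hθ1, h1, map_mul, ga_C, hθi1]
  have hP'c : ∀ j, P'.coeff j ≠ 0 → β ^ j = α := by
    intro j hj
    by_contra hne
    apply hj
    rw [hP', Polynomial.coeff_sub, Polynomial.coeff_add, Polynomial.comp_C_mul_X_coeff,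
      Polynomial.coeff_C_mul, hQc, hq]
    simp only
    rw [if_neg hne]
    have h2 : α - β ^ j ≠ 0 := sub_ne_zero.2 (fun h => hne h.symm)
    field_simp
    ring
  apply QHc.conj θ⁻¹
  have hl' : (θ⁻¹ * φ * θ) (θ⁻¹ c) = C l * θ⁻¹ c := by
    change θ⁻¹ (φ (θ (θ⁻¹ c))) = _
    rw [apply_inv_self', hl, map_mul, ga_C]
  by_cases hP0 : P' = 0
  · apply QH_diag (inf_conj hinf θ) (α := α) (β := β) ?_ h1' hl'
    rw [h0', hP0]; simp [uy]
  · exact QH_caseIIa hα hP0 h0' h1' hP'c hl'

theorem QH_tri {φ : GA k} (hinf : ∀ n, 0 < n → φ ^ n ≠ 1) (hE : φ ∈ EG k)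
    {c : MvPolynomial (Fin 2) k} {l : k} (hl : φ c = C l * c) : QHc c := by
  obtain ⟨α, β, γ, P, hα, hβ, h0, h1⟩ := EG_forms hE
  by_cases hβ1 : β = 1
  · subst hβ1
    by_cases hγ : γ = 0
    · subst hγ
      exact QH_caseII hinf hα h0 (β := 1) (by rw [h1]; simp) hl
    · exact QH_caseI hα hγ h0 (by rw [h1]; simp) hl
  · set g := γ / (β - 1) with hg
    have hβ1' : β - 1 ≠ 0 := sub_ne_zero.2 hβ1
    set θ := elemY (Polynomial.C g) with hθ
    have hθ0 : θ (X 0) = X 0 := elemY_X0 _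
    have hθ1 : θ (X 1) = X 1 + C g := by rw [hθ, elemY_X1, ux_C]
    have hθi0 : θ⁻¹ (X 0) = X 0 := by
      conv_lhs => rw [← hθ0]
      rw [inv_apply_self']
    have hθi1 : θ⁻¹ (X 1) = X 1 - C g := by
      have : θ (X 1 - C g) = X 1 := by
        rw [map_sub, hθ1, ga_C]; ring
      rw [← this, inv_apply_self', this]
    apply QHc.conj θ⁻¹
    refine QH_caseII (φ := θ⁻¹ * φ * θ) (l := l) (inf_conj hinf θ) hα (β := β)
      (P := P.comp (Polynomial.X - Polynomial.C g)) ?_ ?_ ?_
    · change θ⁻¹ (φ (θ (X 0))) = _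
      rw [hθ0, h0, map_add, map_mul, ga_C, hθi0, gmap_uy, hθi1]
      congr 1
      rw [uy, Polynomial.aeval_comp]
      simp [algebraMap_eq]
    · change θ⁻¹ (φ (θ (X 1))) = _
      rw [hθ1, map_add, h1, ga_C, map_add, map_add, map_mul, ga_C, ga_C, ga_C, hθi1]
      have : (C γ : MvPolynomial (Fin 2) k) = C (g * (β - 1)) := by
        rw [hg, div_mul_cancel₀ _ hβ1']
      rw [this, C_mul, C_sub, C_1]
      ring
    · change θ⁻¹ (φ (θ (θ⁻¹ c))) = _
      rw [apply_inv_self', hl, map_mul, ga_C]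

/-- Semi-invariants of plane automorphisms of infinite order are quasi-homogeneous in suitable
coordinates. -/
theorem QH_main {φ : GA k} (hinf : ∀ n, 0 < n → φ ^ n ≠ 1)
    {c : MvPolynomial (Fin 2) k} {l : k} (hl : φ c = C l * c) : QHc c := by
  obtain ⟨g, hg⟩ := cycGoal (AG k) (EG k) jvdk φ
  have hconj : ∀ (θ φ : GA k) (c : MvPolynomial (Fin 2) k) (l : k), φ c = C l * c →
      (θ⁻¹ * φ * θ) (θ⁻¹ c) = C l * θ⁻¹ c := by
    intro θ φ c l hl
    change θ⁻¹ (φ (θ (θ⁻¹ c))) = _
    rw [apply_inv_self', hl, map_mul, ga_C]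
  apply QHc.conj g⁻¹
  have hinf' := inf_conj hinf g
  have hl' := hconj g φ c l hl
  rcases hg with hA | hE | ⟨L, hL, hL1, hL2⟩
  · obtain ⟨τ, hτ⟩ := affine_conj hA
    apply QHc.conj τ⁻¹
    exact QH_tri (inf_conj hinf' τ) hτ (hconj τ _ _ l hl')
  · exact QH_tri hinf' hE hl'
  · by_cases hc : ∀ a, g⁻¹ c ≠ C a
    · exfalso
      obtain ⟨D, hD, hD1, hD2⟩ := St_list L hL hL1
      rw [← hL2] at hD1 hD2
      exact no_semiinv hD (fun n => St_pow hD hD1 hD2 n) hc hl'
    · push Not at hc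
      obtain ⟨a, ha⟩ := hc
      apply QHc_pderiv 0
      rw [ha, pderiv_C]

end QH

end Pool.Agent.H922R2
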