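import Mathlib
import Pool.Agent.H922R2.L11

set_option autoImplicit false
set_option linter.unusedSectionVars false
set_option linter.style.haveILetI false

open MvPolynomial

namespace Pool.Agent.H922R2

section

variable {k : Type*} [Field k] [CharZero k]

theorem int_line (a b : ℤ) (h : a ≠ 0 ∨ b ≠ 0) : ∃ v : Fin 2 → ℤ, ∀ x y : ℤ, a * x + b * y = 0 →
    ∃ t : ℤ, x = t * v 0 ∧ y = t * v 1 := by
  obtain ⟨g, a', b', hg, hco, rfl, rfl⟩ : ∃ g a' b' : ℤ, g ≠ 0 ∧ IsCoprime a' b' ∧ a = g * a' ∧ b = g * b' := by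
    have hg : (Int.gcd a b : ℤ) ≠ 0 := by
      intro h0
      have h1 : Int.gcd a b = 0 := by exact_mod_cast h0
      rw [Int.gcd_eq_zero_iff] at h1
      rcases h with h | h
      · exact h h1.1
      · exact h h1.2
    obtain ⟨a', ha'⟩ := Int.gcd_dvd_left (a := a) (b := b)
    obtain ⟨b', hb'⟩ := Int.gcd_dvd_right (a := a) (b := b)
    refine ⟨Int.gcd a b, a', b', hg, ?_, ha', hb'⟩
    obtain h1 := Int.gcd_eq_gcd_ab a b
    refine ⟨Int.gcdA a b, Int.gcdB a b, ?_⟩
    apply mul_left_cancel₀ hg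
    rw [mul_one]
    calc (Int.gcd a b : ℤ) * (Int.gcdA a b * a' + Int.gcdB a b * b')
        = ((Int.gcd a b : ℤ) * a') * Int.gcdA a b + ((Int.gcd a b : ℤ) * b') * Int.gcdB a b := by ring
      _ = a * Int.gcdA a b + b * Int.gcdB a b := by rw [← ha', ← hb']
      _ = Int.gcd a b := h1.symm
  obtain ⟨u, v, huv⟩ := hco
  refine ⟨![b', -a'], ?_⟩
  intro x y hxy
  have h1 : a' * x + b' * y = 0 := by
    apply mul_left_cancel₀ hg
    rw [mul_zero]; linear_combination hxy
  refine ⟨v * x - u * y, ?_, ?_⟩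
  · change x = (v * x - u * y) * b'
    linear_combination (-x) * huv + u * h1
  · change y = (v * x - u * y) * (-a')
    linear_combination (-y) * huv + v * h1

theorem cprime_closed [IsAlgClosed k] (F : Fin 2 → MvPolynomial (Fin 2) k)
    (hJ : IsUnit (Matrix.det (jac F))) (q : MvPolynomial (Fin 2) k) (hq0 : q ≠ 0)
    (hint : ∀ i, ∃ N : ℕ,
      (aeval F : MvPolynomial (Fin 2) k →ₐ[k] MvPolynomial (Fin 2) k).toRingHom.IsIntegralElem
        ((aeval F q) ^ N * X i))
    (ψ : GA k) (hinf : ∀ n, 0 < n → ψ ^ n ≠ 1) (l : k) (hl : ψ q = C l * q) : SS F = ⊤ := by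
  obtain ⟨θ, w, hw, h⟩ := QH_main hinf hl
  rw [← SS_tgt F θ]
  have hw' : w 0 ≠ 0 ∨ w 1 ≠ 0 := by
    by_contra hcon
    push Not at hcon
    apply hw
    funext i
    fin_cases i
    · exact hcon.1
    · exact hcon.2
  obtain ⟨v, hv⟩ := int_line (w 0) (w 1) hw'
  apply main_H (tgt F θ) (jac_tgt F hJ θ) (θ q) ((map_ne_zero_iff _ θ.injective).2 hq0) ?_ (fun _ => 0)
    (fun _ => le_rfl) ?_ v ?_
  · apply hint_all
    intro i
    obtain ⟨N, P, hP, hPx⟩ := hint i
    refine ⟨N, P.map (θ : MvPolynomial (Fin 2) k →+* MvPolynomial (Fin 2) k), hP.map _, ?_⟩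
    rw [Polynomial.eval₂_map, aeval_tgt, AlgEquiv.symm_apply_apply]
    rw [← hPx]
    congr 1
    apply RingHom.ext
    intro p
    change aeval (tgt F θ) (θ p) = aeval F p
    rw [aeval_tgt, AlgEquiv.symm_apply_apply]
  · intro m _ m' _
    simp [wtt]
  · intro m hm m' hm'
    have h1 := h m hm m' hm'
    unfold wtt at h1
    rw [Fin.sum_univ_two, Fin.sum_univ_two] at h1
    obtain ⟨t, ht0, ht1⟩ := hv ((m 0 : ℤ) - m' 0) ((m 1 : ℤ) - m' 1) (by linear_combination h1)
    refine ⟨t, ?_⟩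
    intro i _
    fin_cases i
    · exact ht0
    · exact ht1

/-- Plane Keller maps whose non-properness curve has an infinite-order symmetry. -/
theorem cprime_any (F : Fin 2 → MvPolynomial (Fin 2) k)
    (hJ : IsUnit (Matrix.det (jac F))) (q : MvPolynomial (Fin 2) k) (hq0 : q ≠ 0)
    (hint : ∀ i, ∃ N : ℕ, IsIntegral (Algebra.adjoin k (Set.range F)) ((aeval F q) ^ N * X i))
    (ψ : GA k) (hinf : ∀ n, 0 < n → ψ ^ n ≠ 1) (hl : Associated (ψ q) q) :
    ∃ G : Fin 2 → MvPolynomial (Fin 2) k, (∀ i, aeval F (G i) = X i) ∧ (∀ i, aeval G (F i) = X i) := by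
  apply inverse_of_top F hJ
  obtain ⟨l, hl⟩ : ∃ l : k, ψ q = C l * q := by
    obtain ⟨u, hu⟩ := hl.symm
    obtain ⟨c, _, hc⟩ := MvPolynomial.isUnit_iff_eq_C_of_isReduced.1 u.isUnit
    refine ⟨c, ?_⟩
    rw [← hu, hc, mul_comm]
  obtain ⟨ψE, hψE⟩ := exists_gaE (AlgebraicClosure k) ψ
  haveI : CharZero (AlgebraicClosure k) := charZero_of_injective_algebraMap
    (algebraMap k (AlgebraicClosure k)).injective
  apply SS_descent (E := AlgebraicClosure k) F
  have hJE := jac_mE (E := AlgebraicClosure k) F hJ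
  apply cprime_closed _ hJE (mE k (AlgebraicClosure k) (Fin 2) q) ?_ ?_ ψE ?_ (algebraMap k _ l) ?_
  · rw [Ne, map_eq_zero_iff _ mE_inj]; exact hq0
  · intro i
    obtain ⟨N, hN⟩ := hint i
    obtain ⟨P, hP, hPx⟩ := isIntegralElem_of F hJ _ hN
    refine ⟨N, P.map (mE k (AlgebraicClosure k) (Fin 2)), hP.map _, ?_⟩
    have h1 := congrArg (mE k (AlgebraicClosure k) (Fin 2)) hPx
    rw [Polynomial.hom_eval₂, map_zero, map_mul, map_pow, mE_aeval] at h1
    rw [Polynomial.eval₂_map]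
    have h2 : (mE k (AlgebraicClosure k) (Fin 2)) (X i) = X i := by rw [mE, map_X]
    rw [h2] at h1
    rw [← h1]
    congr 1
    apply RingHom.ext
    intro p
    exact (mE_aeval F p).symm
  · intro n hn hψn
    apply hinf n hn
    have hpow : ∀ (m : ℕ) p, (ψE ^ m) (mE k (AlgebraicClosure k) (Fin 2) p) =
        mE k (AlgebraicClosure k) (Fin 2) ((ψ ^ m) p) := by
      intro m
      induction m with
      | zero => intro p; rfl
      | succ m ih =>
        intro p
        rw [pow_succ, pow_succ]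
        change (ψE ^ m) (ψE _) = mE k (AlgebraicClosure k) (Fin 2) ((ψ ^ m) (ψ p))
        rw [hψE, ih]
    apply AlgEquiv.ext
    intro p
    apply mE_inj (k := k) (E := AlgebraicClosure k)
    rw [← hpow, hψn]
    rfl
  · rw [hψE, hl, map_mul, mE, map_C]

end

end Pool.Agent.H922R2
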