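import Mathlib
import Pool.Agent.H922R2.L9

/-!
Retracts generated by the components of a plane automorphism.
-/

set_option autoImplicit false

open MvPolynomial

namespace Pool.Agent.H922R2

theorem retracts_aux {k : Type*} [Field k] (F G : Fin 2 → MvPolynomial (Fin 2) k)
    (h1 : ∀ i, aeval F (G i) = X i) (h2 : ∀ i, aeval G (F i) = X i)
    (s : Fin 2 → MvPolynomial (Fin 2) k) (z : MvPolynomial (Fin 2) k)
    (hs : Algebra.adjoin k (Set.range s) = Algebra.adjoin k {z})
    (hz : aeval s (aeval G z) = z) :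
    ∃ π : MvPolynomial (Fin 2) k →ₐ[k] MvPolynomial (Fin 2) k,
      (∀ r, π (π r) = π r) ∧ π.range = Algebra.adjoin k {z} := by
  set φ : MvPolynomial (Fin 2) k →ₐ[k] MvPolynomial (Fin 2) k := aeval s with hφ
  have hφr : φ.range = Algebra.adjoin k {z} := by
    rw [hφ, ← Algebra.adjoin_range_eq_range_aeval, hs]
  have hsurj : (φ.comp (aeval G)).range = φ.range := by
    apply le_antisymm
    · rintro _ ⟨r, rfl⟩
      exact ⟨aeval G r, rfl⟩
    · rintro _ ⟨r, rfl⟩
      refine ⟨aeval F r, ?_⟩
      have : ((aeval G : MvPolynomial (Fin 2) k →ₐ[k] MvPolynomial (Fin 2) k).comp (aeval F)) =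
          AlgHom.id k _ := by
        apply MvPolynomial.algHom_ext
        intro i
        rw [AlgHom.comp_apply, aeval_X, AlgHom.id_apply]
        exact h2 i
      change φ (aeval G (aeval F r)) = φ r
      congr 1
      exact AlgHom.congr_fun this r
  refine ⟨φ.comp (aeval G), ?_, by rw [hsurj, hφr]⟩
  intro r
  have hr : (φ.comp (aeval G)) r ∈ Algebra.adjoin k {z} := by
    rw [← hφr, ← hsurj]; exact ⟨r, rfl⟩
  have hfix : ∀ w ∈ Algebra.adjoin k {z}, (φ.comp (aeval G)) w = w := by
    intro w hw
    induction hw using Algebra.adjoin_induction with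
    | mem x hx =>
      rw [Set.mem_singleton_iff] at hx
      rw [hx]; exact hz
    | algebraMap c => exact AlgHom.commutes _ c
    | add x y _ _ hx hy => rw [map_add, hx, hy]
    | mul x y _ _ hx hy => rw [map_mul, hx, hy]
  exact hfix _ hr

/-- the components of an automorphism generate retracts -/
theorem retracts {k : Type*} [Field k] (p q : MvPolynomial (Fin 2) k)
    (G : Fin 2 → MvPolynomial (Fin 2) k)
    (h1 : ∀ i, aeval ![p, q] (G i) = X i) (h2 : ∀ i, aeval G (![p, q] i) = X i) :
    (∃ π : MvPolynomial (Fin 2) k →ₐ[k] MvPolynomial (Fin 2) k,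
      (∀ r, π (π r) = π r) ∧ π.range = Algebra.adjoin k {p}) ∧
    (∃ π : MvPolynomial (Fin 2) k →ₐ[k] MvPolynomial (Fin 2) k,
      (∀ r, π (π r) = π r) ∧ π.range = Algebra.adjoin k {q}) ∧
    Algebra.adjoin k {p, q} = ⊤ := by
  have hr : ∀ s t : MvPolynomial (Fin 2) k, Set.range ![s, t] = {s, t} := by
    intro s t
    rw [Matrix.range_cons, Matrix.range_cons, Matrix.range_empty, Set.union_empty]
    rfl
  refine ⟨?_, ?_, ?_⟩
  · apply retracts_aux ![p, q] G h1 h2 ![p, 0] p
    · rw [hr]
      apply le_antisymm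
      · apply Algebra.adjoin_le
        rintro t (rfl | rfl)
        · exact Algebra.subset_adjoin rfl
        · exact zero_mem _
      · exact Algebra.adjoin_mono (Set.singleton_subset_iff.2 (Or.inl rfl))
    · have := h2 0
      change aeval G p = X 0 at this
      rw [this, aeval_X]; rfl
  · apply retracts_aux ![p, q] G h1 h2 ![0, q] q
    · rw [hr]
      apply le_antisymm
      · apply Algebra.adjoin_le
        rintro t (rfl | rfl)
        · exact zero_mem _
        · exact Algebra.subset_adjoin rfl
      · exact Algebra.adjoin_mono (Set.singleton_subset_iff.2 (Or.inr rfl))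
    · have := h2 1
      change aeval G q = X 1 at this
      rw [this, aeval_X]; rfl
  · rw [← hr, Algebra.adjoin_range_eq_range_aeval, eq_top_iff]
    intro r _
    have : ((aeval ![p, q] : MvPolynomial (Fin 2) k →ₐ[k] MvPolynomial (Fin 2) k).comp (aeval G)) =
        AlgHom.id k _ := by
      apply MvPolynomial.algHom_ext
      intro i
      rw [AlgHom.comp_apply, aeval_X, AlgHom.id_apply]
      exact h1 i
    exact ⟨aeval G r, AlgHom.congr_fun this r⟩

theorem det_of_unit {k : Type*} [Field k] (p q : MvPolynomial (Fin 2) k)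
    (hJ : IsUnit (pderiv 0 p * pderiv 1 q - pderiv 1 p * pderiv 0 q)) :
    IsUnit (Matrix.det (jac (![p, q] : Fin 2 → MvPolynomial (Fin 2) k))) := by
  rw [Matrix.det_fin_two]
  exact hJ

end Pool.Agent.H922R2
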